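import Pool.Agent.Lib.MP_83608f_co.CN.Spec

section
/-! MP_83608f_co, part CN, module FIN (helper56): the theorem from KER, UNC, HALF, GOLD. -/
set_option autoImplicit false

open Classical

noncomputable section

namespace Pool.Agent.Lib.MP_83608f_co.CN

namespace FIN_

variable {V : Type} [Fintype V] {A : V → V → Prop} {k c : ℕ}

lemma mem_outN {F : Finset V} {v : V} : v ∈ outN A F ↔ v ∈ F ∨ ∃ u ∈ F, A u v := by
  simp [outN]

lemma mem_inN {F : Finset V} {v : V} : v ∈ inN A F ↔ v ∈ F ∨ ∃ u ∈ F, A v u := by
  simp [inN]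

lemma mem_sec {x z : V} : z ∈ sec A x ↔ z ≠ x ∧ ¬ A x z ∧ ∃ y, A x y ∧ A y z := by
  simp [sec]

/-- the columns: at most `k - c` dimensions -/
lemma column (hk : 1 ≤ k) (hirr : ∀ v, ¬ A v v) (hor : ∀ u v, A u v → ¬ A v u)
    (hout : ∀ v, (Finset.univ.filter fun u => A v u).card = k)
    (hin : ∀ v, (Finset.univ.filter fun u => A u v).card = k) (hconn : Conn A c) (w : V)
    (X : Finset V) (hX : ∀ x ∈ X, Far A x w) :
    X.card ≤ ((inN A X).filter fun u => Nad A u w).card + (k - c) := by
  classical
  set U : Finset V := insert w X with hU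
  have hwX : w ∉ X := fun h => (hX w h).1 rfl
  have hUcard : U.card = X.card + 1 := Finset.card_insert_of_notMem hwX
  -- a vertex outside of `inN U`
  have hne : (Finset.univ.filter fun u => A w u).Nonempty := by
    rw [← Finset.card_pos, hout w]
    exact hk
  obtain ⟨v, hv⟩ := hne
  rw [Finset.mem_filter] at hv
  have hwv : A w v := hv.2
  have hvU : v ∉ inN A U := by
    rw [mem_inN]
    rintro (h | ⟨u, hu, h⟩)
    · rw [hU, Finset.mem_insert] at h
      rcases h with h | h
      · exact hirr w (h ▸ hwv)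
      · exact (hX v h).2.1 hwv
    · rw [hU, Finset.mem_insert] at hu
      rcases hu with hu | hu
      · rw [hu] at h
        exact hor w v hwv h
      · exact (hX u hu).2.2 v hwv h
  have hUin : U ⊆ inN A U := fun u hu => mem_inN.2 (Or.inl hu)
  -- connectivity
  have hbd : c ≤ (inN A U \ U).card := by
    by_contra hlt
    push Not at hlt
    have hvS : v ∉ inN A U \ U := fun h => hvU (Finset.mem_sdiff.1 h).1
    have hwU : w ∈ U := Finset.mem_insert_self _ _
    have hwS : w ∉ inN A U \ U := fun h => (Finset.mem_sdiff.1 h).2 hwU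
    have hpath := hconn _ hlt v w hvS hwS
    have key : ∀ b, Relation.ReflTransGen (fun a b => A a b ∧ b ∉ inN A U \ U) v b →
        b ∉ U ∧ b ∉ inN A U \ U := by
      intro b hb
      induction hb with
      | refl => exact ⟨fun h => hvU (hUin h), hvS⟩
      | tail _ hab ih =>
        refine ⟨fun hbU => ?_, hab.2⟩
        apply ih.2
        rw [Finset.mem_sdiff]
        exact ⟨mem_inN.2 (Or.inr ⟨_, hbU, hab.1⟩), ih.1⟩
    exact (key w hpath).1 hwU
  have hcard : (inN A U \ U).card + U.card = (inN A U).card := Finset.card_sdiff_add_card_eq_card hUin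
  -- the size of `inN U`
  have hsub : inN A U ⊆ ((inN A X).filter fun u => Nad A u w) ∪
      insert w (Finset.univ.filter fun u => A u w) := by
    intro u hu
    rw [mem_inN] at hu
    have hcase : u ∈ inN A X ∨ u = w ∨ A u w := by
      rcases hu with h | ⟨y, hy, h⟩
      · rw [hU, Finset.mem_insert] at h
        rcases h with h | h
        · exact Or.inr (Or.inl h)
        · exact Or.inl (mem_inN.2 (Or.inl h))
      · rw [hU, Finset.mem_insert] at hy
        rcases hy with hy | hy
        · rw [hy] at h
          exact Or.inr (Or.inr h)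
        · exact Or.inl (mem_inN.2 (Or.inr ⟨y, hy, h⟩))
    rw [Finset.mem_union, Finset.mem_insert, Finset.mem_filter, Finset.mem_filter]
    by_cases h1 : u = w
    · exact Or.inr (Or.inl h1)
    by_cases h2 : A u w
    · exact Or.inr (Or.inr ⟨Finset.mem_univ _, h2⟩)
    rcases hcase with h | h | h
    · refine Or.inl ⟨h, h1, h2, fun h3 => ?_⟩
      rcases mem_inN.1 h with h4 | ⟨y, hy, h4⟩
      · exact (hX u h4).2.1 h3
      · exact (hX y hy).2.2 u h3 h4
    · exact absurd h h1
    · exact absurd h h2
  have hw' : w ∉ Finset.univ.filter fun u => A u w := by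
    rw [Finset.mem_filter]
    exact fun h => hirr w h.2
  have h1 : (inN A U).card ≤ ((inN A X).filter fun u => Nad A u w).card + (k + 1) := by
    refine (Finset.card_le_card hsub).trans ((Finset.card_union_le _ _).trans ?_)
    rw [Finset.card_insert_of_notMem hw', hin w]
  omega

lemma card_pairs (R : V → V → Prop) : Fintype.card {p : V × V // R p.1 p.2} =
    ∑ w, (Finset.univ.filter fun x => R x w).card := by
  classical
  rw [Fintype.card_subtype, Finset.card_filter, Fintype.sum_prod_type, Finset.sum_comm]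
  apply Finset.sum_congr rfl
  intro w _
  rw [Finset.card_filter]

lemma card_far (hirr : ∀ v, ¬ A v v) (hout : ∀ v, (Finset.univ.filter fun u => A v u).card = k)
    (w : V) : (Finset.univ.filter fun x => Far A x w).card + (1 + k + (sec A w).card) =
      Fintype.card V := by
  classical
  have h1 : (Finset.univ : Finset V) = (Finset.univ.filter fun x => Far A x w) ∪
      ({w} ∪ ((Finset.univ.filter fun u => A w u) ∪ sec A w)) := by
    ext x
    simp only [Finset.mem_univ, Finset.mem_union, Finset.mem_filter, true_and,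
      Finset.mem_singleton, mem_sec, true_iff]
    by_cases hxw : x = w
    · exact Or.inr (Or.inl hxw)
    by_cases h2 : A w x
    · exact Or.inr (Or.inr (Or.inl h2))
    by_cases h3 : ∃ y, A w y ∧ A y x
    · exact Or.inr (Or.inr (Or.inr ⟨hxw, h2, h3⟩))
    · push Not at h3
      exact Or.inl ⟨hxw, h2, h3⟩
  have d1 : Disjoint (Finset.univ.filter fun u => A w u) (sec A w) := by
    rw [Finset.disjoint_left]
    intro x hx hx'
    rw [Finset.mem_filter] at hx
    exact (mem_sec.1 hx').2.1 hx.2
  have d2 : Disjoint {w} ((Finset.univ.filter fun u => A w u) ∪ sec A w) := by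
    rw [Finset.disjoint_singleton_left, Finset.mem_union, Finset.mem_filter]
    rintro (h | h)
    · exact hirr w h.2
    · exact (mem_sec.1 h).1 rfl
  have d3 : Disjoint (Finset.univ.filter fun x => Far A x w)
      ({w} ∪ ((Finset.univ.filter fun u => A w u) ∪ sec A w)) := by
    rw [Finset.disjoint_left]
    intro x hx hx'
    rw [Finset.mem_filter] at hx
    obtain ⟨-, f1, f2, f3⟩ := hx
    rw [Finset.mem_union, Finset.mem_union, Finset.mem_singleton, Finset.mem_filter] at hx'
    rcases hx' with h | h | h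
    · exact f1 h
    · exact f2 h.2
    · obtain ⟨-, -, y, h4, h5⟩ := mem_sec.1 h
      exact f3 y h4 h5
  have h2 : (Finset.univ : Finset V).card = Fintype.card V := rfl
  rw [← h2]
  conv_rhs => rw [h1]
  rw [Finset.card_union_of_disjoint d3, Finset.card_union_of_disjoint d2,
    Finset.card_union_of_disjoint d1, Finset.card_singleton, hout w]
  ring

lemma card_nad (hirr : ∀ v, ¬ A v v) (hor : ∀ u v, A u v → ¬ A v u)
    (hout : ∀ v, (Finset.univ.filter fun u => A v u).card = k)
    (hin : ∀ v, (Finset.univ.filter fun u => A u v).card = k)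
    (w : V) : (Finset.univ.filter fun x => Nad A x w).card + (1 + 2 * k) = Fintype.card V := by
  classical
  have h1 : (Finset.univ : Finset V) = (Finset.univ.filter fun x => Nad A x w) ∪
      ({w} ∪ ((Finset.univ.filter fun u => A w u) ∪ (Finset.univ.filter fun u => A u w))) := by
    ext x
    simp only [Finset.mem_univ, Finset.mem_union, Finset.mem_filter, true_and,
      Finset.mem_singleton, true_iff]
    by_cases hxw : x = w
    · exact Or.inr (Or.inl hxw)
    by_cases h2 : A w x
    · exact Or.inr (Or.inr (Or.inl h2))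
    by_cases h3 : A x w
    · exact Or.inr (Or.inr (Or.inr h3))
    · exact Or.inl ⟨hxw, h3, h2⟩
  have d1 : Disjoint (Finset.univ.filter fun u => A w u) (Finset.univ.filter fun u => A u w) := by
    rw [Finset.disjoint_left]
    intro x hx hx'
    rw [Finset.mem_filter] at hx hx'
    exact hor w x hx.2 hx'.2
  have d2 : Disjoint {w} ((Finset.univ.filter fun u => A w u) ∪
      (Finset.univ.filter fun u => A u w)) := by
    rw [Finset.disjoint_singleton_left, Finset.mem_union, Finset.mem_filter, Finset.mem_filter]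
    rintro (h | h)
    · exact hirr w h.2
    · exact hirr w h.2
  have d3 : Disjoint (Finset.univ.filter fun x => Nad A x w)
      ({w} ∪ ((Finset.univ.filter fun u => A w u) ∪ (Finset.univ.filter fun u => A u w))) := by
    rw [Finset.disjoint_left]
    intro x hx hx'
    rw [Finset.mem_filter] at hx
    obtain ⟨-, f1, f2, f3⟩ := hx
    rw [Finset.mem_union, Finset.mem_union, Finset.mem_singleton, Finset.mem_filter,
      Finset.mem_filter] at hx'
    rcases hx' with h | h | h
    · exact f1 h
    · exact f3 h.2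
    · exact f2 h.2
  have h2 : (Finset.univ : Finset V).card = Fintype.card V := rfl
  rw [← h2]
  conv_rhs => rw [h1]
  rw [Finset.card_union_of_disjoint d3, Finset.card_union_of_disjoint d2,
    Finset.card_union_of_disjoint d1, Finset.card_singleton, hout w, hin w]
  ring

/-- out-degrees inside a tight set -/
lemma inside (hout : ∀ v, (Finset.univ.filter fun u => A v u).card = k) (T : Finset V) (e : ℕ)
    (hT : e + (outN A T).card ≤ T.card + k) (u : V) (hu : u ∈ T) :
    e ≤ (T.filter fun v => A u v).card := by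
  classical
  have h1 : (Finset.univ.filter fun v => A u v) ⊆ (T.filter fun v => A u v) ∪ (outN A T \ T) := by
    intro v hv
    rw [Finset.mem_filter] at hv
    rw [Finset.mem_union, Finset.mem_filter, Finset.mem_sdiff]
    by_cases hvT : v ∈ T
    · exact Or.inl ⟨hvT, hv.2⟩
    · exact Or.inr ⟨mem_outN.2 (Or.inr ⟨u, hu, hv.2⟩), hvT⟩
  have h2 := (Finset.card_le_card h1).trans (Finset.card_union_le _ _)
  rw [hout u] at h2
  have h3 : T ⊆ outN A T := fun v hv => mem_outN.2 (Or.inl hv)
  have h4 : (outN A T \ T).card + T.card = (outN A T).card := Finset.card_sdiff_add_card_eq_card h3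
  omega

end FIN_

open FIN_ in
theorem specFIN (hKER : SpecKER) (hUNC : SpecUNC) (hHALF : SpecHALF) (hGOLD : SpecGOLD) :
    SpecFIN := by
  classical
  intro V _ A k c hk hirr hor hout hin hconn
  obtain ⟨Y, 𝒜, hY, hdisj, hcov, htight⟩ := hUNC V A k
  have hker := hKER V A k (k - c) Y hout hY
    (fun w _ X hX => column hk hirr hor hout hin hconn w X hX)
  set n := Fintype.card V with hn
  set S := ∑ x, (sec A x).card with hS
  have hfar : Fintype.card {p : V × V // Far A p.1 p.2} + (n * (1 + k) + S) = n * n := by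
    rw [card_pairs]
    have h1 : ∑ w : V, ((Finset.univ.filter fun x => Far A x w).card + (1 + k + (sec A w).card)) =
        ∑ _w : V, n := Finset.sum_congr rfl fun w _ => card_far hirr hout w
    rw [Finset.sum_add_distrib, Finset.sum_add_distrib, Finset.sum_const, Finset.sum_const,
      Finset.card_univ, smul_eq_mul, smul_eq_mul] at h1
    exact h1
  have hnad : Fintype.card {p : V × V // Nad A p.1 p.2} + n * (1 + 2 * k) = n * n := by
    rw [card_pairs]
    have h1 : ∑ w : V, ((Finset.univ.filter fun x => Nad A x w).card + (1 + 2 * k)) =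
        ∑ _w : V, n := Finset.sum_congr rfl fun w _ => card_nad hirr hor hout hin w
    rw [Finset.sum_add_distrib, Finset.sum_const, Finset.sum_const,
      Finset.card_univ, smul_eq_mul, smul_eq_mul] at h1
    exact h1
  have hmain : n * k ≤ S + (k - c) * Y.card := by
    have e1 : n * (1 + k) = n + n * k := by ring
    have e2 : n * (1 + 2 * k) = n + 2 * (n * k) := by ring
    rw [e1] at hfar
    rw [e2] at hnad
    omega
  -- the size of `Y`
  have hYsum : Y.card ≤ ∑ T ∈ 𝒜, (Y ∩ T).card := by
    have h1 : Y ⊆ 𝒜.biUnion fun T => Y ∩ T := by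
      intro y hy
      obtain ⟨T, hT, hyT⟩ := Finset.mem_biUnion.1 (hcov hy)
      exact Finset.mem_biUnion.2 ⟨T, hT, Finset.mem_inter.2 ⟨hy, hyT⟩⟩
    exact (Finset.card_le_card h1).trans Finset.card_biUnion_le
  have hAsum : ∑ T ∈ 𝒜, T.card ≤ n := by
    have h1 : (𝒜.biUnion id).card = ∑ T ∈ 𝒜, (id T).card := Finset.card_biUnion hdisj
    simp only [id] at h1
    rw [← h1]
    exact Finset.card_le_univ _
  have hne : ∀ T ∈ 𝒜, 1 ≤ (Y ∩ T).card → T.Nonempty := by
    intro T _ h
    obtain ⟨y, hy⟩ := Finset.card_pos.1 h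
    exact ⟨y, (Finset.mem_inter.1 hy).2⟩
  constructor
  · have hY2 : 2 * Y.card ≤ n - 1 := by
      by_cases hYe : Y.card = 0
      · omega
      have h1 : ∑ T ∈ 𝒜, (Y ∩ T).card = ∑ T ∈ 𝒜.filter (fun T => 1 ≤ (Y ∩ T).card), (Y ∩ T).card := by
        rw [Finset.sum_filter]
        apply Finset.sum_congr rfl
        intro T _
        split_ifs with h
        · rfl
        · omega
      have h2 : ∑ T ∈ 𝒜.filter (fun T => 1 ≤ (Y ∩ T).card), (2 * (Y ∩ T).card + 1) ≤
          ∑ T ∈ 𝒜.filter (fun T => 1 ≤ (Y ∩ T).card), T.card := by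
        apply Finset.sum_le_sum
        intro T hT
        rw [Finset.mem_filter] at hT
        exact hHALF V A T _ (hne T hT.1 hT.2) hor
          (fun u hu => inside hout T _ (htight T hT.1) u hu)
      have h3 : ∑ T ∈ 𝒜.filter (fun T => 1 ≤ (Y ∩ T).card), T.card ≤ ∑ T ∈ 𝒜, T.card :=
        Finset.sum_le_sum_of_subset (Finset.filter_subset _ _)
      have h4 : 1 ≤ (𝒜.filter (fun T => 1 ≤ (Y ∩ T).card)).card := by
        rw [Nat.one_le_iff_ne_zero]
        intro h0
        rw [Finset.card_eq_zero] at h0
        rw [h0, Finset.sum_empty] at h1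
        omega
      rw [Finset.sum_add_distrib, ← Finset.mul_sum, Finset.sum_const, smul_eq_mul, mul_one] at h2
      omega
    have h5 : (k - c) * (2 * Y.card) ≤ (k - c) * (n - 1) := Nat.mul_le_mul_left _ hY2
    have e1 : (k - c) * (2 * Y.card) = 2 * ((k - c) * Y.card) := by ring
    rw [e1] at h5
    omega
  · intro htri
    set β : ℝ := (3 - √5) / 2 with hβ
    have h5 : √5 ≤ 3 := by
      rw [Real.sqrt_le_left (by norm_num)]
      norm_num
    have hβ0 : 0 ≤ β := by
      rw [hβ]
      linarith
    have h6 : ∀ T ∈ 𝒜, ((Y ∩ T).card : ℝ) ≤ β * T.card := by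
      intro T hT
      by_cases h0 : (Y ∩ T).card = 0
      · rw [h0]
        simp only [Nat.cast_zero]
        positivity
      · exact hGOLD V A T _ (hne T hT (Nat.one_le_iff_ne_zero.2 h0)) hor htri
          (fun u hu => inside hout T _ (htight T hT) u hu)
    have h7 : (Y.card : ℝ) ≤ β * n := by
      calc (Y.card : ℝ) ≤ ((∑ T ∈ 𝒜, (Y ∩ T).card : ℕ) : ℝ) := by exact_mod_cast hYsum
        _ = ∑ T ∈ 𝒜, ((Y ∩ T).card : ℝ) := by push_cast; rfl
        _ ≤ ∑ T ∈ 𝒜, β * (T.card : ℝ) := Finset.sum_le_sum h6
        _ = β * ((∑ T ∈ 𝒜, T.card : ℕ) : ℝ) := by rw [← Finset.mul_sum]; push_cast; rfl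
        _ ≤ β * n := by
          apply mul_le_mul_of_nonneg_left _ hβ0
          exact_mod_cast hAsum
    have h8 : (n : ℝ) * k ≤ (S : ℝ) + ((k - c : ℕ) : ℝ) * Y.card := by exact_mod_cast hmain
    have h9 : ((k - c : ℕ) : ℝ) * Y.card ≤ ((k - c : ℕ) : ℝ) * (β * n) :=
      mul_le_mul_of_nonneg_left h7 (Nat.cast_nonneg _)
    calc (n : ℝ) * k ≤ (S : ℝ) + ((k - c : ℕ) : ℝ) * (β * n) := by linarith
      _ = (S : ℝ) + β * ((k - c : ℕ) : ℝ) * n := by ring

end Pool.Agent.Lib.MP_83608f_co.CN
end
end

section
/-! MP_83608f_co, part CN (helper56): from digraphs to the adjacency relation, and the final counting. -/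
set_option autoImplicit false

open Classical

noncomputable section

namespace Pool.Agent.Lib.MP_83608f_co.CN

namespace Dig_

variable {V : Type} {A : V → V → Prop}

/-- a function with period `m` from a function on `Fin m` -/
def per {m : ℕ} (hm : 0 < m) (f : Fin m → V) (i : ℕ) : V := f ⟨i % m, Nat.mod_lt _ hm⟩

lemma per_add {m : ℕ} (hm : 0 < m) (f : Fin m → V) (i : ℕ) : per hm f (i + m) = per hm f i := by
  unfold per
  congr 2
  exact Nat.add_mod_right i m

lemma per_inj {m : ℕ} (hm : 0 < m) (f : Fin m → V) (hf : Function.Injective f) :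
    Set.InjOn (per hm f) (Set.Iio m) := by
  intro i hi j hj h
  have h1 := hf h
  rw [Fin.mk.injEq, Nat.mod_eq_of_lt hi, Nat.mod_eq_of_lt hj] at h1
  exact h1

lemma per_adj {m : ℕ} (hm : 0 < m) (f : Fin m → V)
    (h : ∀ i : Fin m, A (f i) (f ⟨(i.1 + 1) % m, Nat.mod_lt _ hm⟩)) (i : ℕ) :
    A (per hm f i) (per hm f (i + 1)) := by
  have h1 := h ⟨i % m, Nat.mod_lt _ hm⟩
  unfold per
  convert h1 using 3
  simp [Nat.add_mod]

/-- `A` has no directed cycle of length `m`. -/
def NoCyc (A : V → V → Prop) (m : ℕ) : Prop :=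
  ¬ ∃ c : ℕ → V, (∀ i, c (i + m) = c i) ∧ (∀ i, A (c i) (c (i + 1))) ∧ Set.InjOn c (Set.Iio m)

lemma no1 (h : NoCyc A 1) (v : V) : ¬ A v v := by
  intro hv
  apply h
  refine ⟨fun _ => v, fun _ => rfl, fun _ => hv, ?_⟩
  intro i hi j hj _
  simp only [Set.mem_Iio] at hi hj
  omega

lemma no2 (h1 : ∀ v, ¬ A v v) (h : NoCyc A 2) (u v : V) (huv : A u v) : ¬ A v u := by
  intro hvu
  apply h
  refine ⟨per (by norm_num) ![u, v], per_add _ _, per_adj _ _ ?_, per_inj _ _ ?_⟩
  · intro i
    fin_cases i
    · exact huv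
    · exact hvu
  · have hne : u ≠ v := fun e => h1 u (by rw [e] at huv; rw [e]; exact huv)
    intro i j hij
    fin_cases i <;> fin_cases j <;> simp_all

lemma no3 (h1 : ∀ v, ¬ A v v) (h : NoCyc A 3) (u v w : V) (huv : A u v) (hvw : A v w) :
    ¬ A w u := by
  intro hwu
  apply h
  have n1 : u ≠ v := fun e => h1 u (by rw [← e] at huv; exact huv)
  have n2 : v ≠ w := fun e => h1 v (by rw [← e] at hvw; exact hvw)
  have n3 : w ≠ u := fun e => h1 w (by rw [← e] at hwu; exact hwu)
  refine ⟨per (by norm_num) ![u, v, w], per_add _ _, per_adj _ _ ?_, per_inj _ _ ?_⟩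
  · intro i
    fin_cases i
    · exact huv
    · exact hvw
    · exact hwu
  · intro i j hij
    fin_cases i <;> fin_cases j <;> simp_all

lemma no4 (h1 : ∀ v, ¬ A v v) (h2 : ∀ u v, A u v → ¬ A v u) (h : NoCyc A 4) (u v w z : V)
    (huv : A u v) (hvw : A v w) (hwz : A w z) : ¬ A z u := by
  intro hzu
  apply h
  have n1 : u ≠ v := fun e => h1 u (by rw [← e] at huv; exact huv)
  have n2 : v ≠ w := fun e => h1 v (by rw [← e] at hvw; exact hvw)
  have n3 : w ≠ z := fun e => h1 w (by rw [← e] at hwz; exact hwz)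
  have n4 : z ≠ u := fun e => h1 z (by rw [← e] at hzu; exact hzu)
  have n5 : u ≠ w := fun e => h2 u v huv (by rw [e]; exact hvw)
  have n6 : v ≠ z := fun e => h2 v w hvw (by rw [e]; exact hwz)
  refine ⟨per (by norm_num) ![u, v, w, z], per_add _ _, per_adj _ _ ?_, per_inj _ _ ?_⟩
  · intro i
    fin_cases i
    · exact huv
    · exact hvw
    · exact hwz
    · exact hzu
  · intro i j hij
    fin_cases i <;> fin_cases j <;> simp_all

variable [Fintype V] {k c : ℕ}

lemma conn_le (hk : 1 ≤ k) [Nonempty V] (hor : ∀ u v, A u v → ¬ A v u)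
    (hout : ∀ v, (Finset.univ.filter fun u => A v u).card = k)
    (hin : ∀ v, (Finset.univ.filter fun u => A u v).card = k) (hconn : Conn A c) : c ≤ k := by
  by_contra hlt
  push Not at hlt
  obtain ⟨w⟩ := ‹Nonempty V›
  have hirr : ¬ A w w := fun h => hor w w h h
  have hne : (Finset.univ.filter fun u => A w u).Nonempty := by
    rw [← Finset.card_pos, hout w]
    exact hk
  obtain ⟨v, hv⟩ := hne
  rw [Finset.mem_filter] at hv
  have h1 := hconn (Finset.univ.filter fun u => A u w) (by rw [hin w]; exact hlt) v w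
    (by rw [Finset.mem_filter]; exact fun h => hor w v hv.2 h.2)
    (by rw [Finset.mem_filter]; exact fun h => hirr h.2)
  have key : ∀ b, Relation.ReflTransGen
      (fun a b => A a b ∧ b ∉ Finset.univ.filter fun u => A u w) v b → ¬ A b w := by
    intro b hb
    induction hb with
    | refl => exact hor w v hv.2
    | tail _ hab _ =>
      intro h
      exact hab.2 (Finset.mem_filter.2 ⟨Finset.mem_univ _, h⟩)
  rcases Relation.ReflTransGen.cases_tail h1 with h | ⟨a, ha, hab⟩
  · exact hirr (by rw [← h] at hv; exact hv.2)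
  · exact key a ha hab.1

/-- The second in-neighbourhood. -/
def secIn (A : V → V → Prop) (x : V) : Finset V :=
  Finset.univ.filter fun z => z ≠ x ∧ ¬ A z x ∧ ∃ y, A z y ∧ A y x

lemma sum_secIn : ∑ x, (secIn A x).card = ∑ x, (sec A x).card := by
  unfold secIn sec
  simp only [Finset.card_filter]
  rw [Finset.sum_comm]
  apply Finset.sum_congr rfl
  intro x _
  apply Finset.sum_congr rfl
  intro z _
  simp only [ne_comm]

lemma count4 (hirr : ∀ v, ¬ A v v) (hor : ∀ u v, A u v → ¬ A v u)
    (htri : ∀ u v w, A u v → A v w → ¬ A w u)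
    (hout : ∀ v, (Finset.univ.filter fun u => A v u).card = k)
    (hin : ∀ v, (Finset.univ.filter fun u => A u v).card = k) (x : V) :
    (sec A x).card + (1 + 2 * k) ≤ Fintype.card V := by
  classical
  have d1 : Disjoint (Finset.univ.filter fun u => A x u) (Finset.univ.filter fun u => A u x) := by
    rw [Finset.disjoint_left]
    intro y hx hx'
    rw [Finset.mem_filter] at hx hx'
    exact hor x y hx.2 hx'.2
  have d2 : Disjoint {x} ((Finset.univ.filter fun u => A x u) ∪
      (Finset.univ.filter fun u => A u x)) := by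
    rw [Finset.disjoint_singleton_left, Finset.mem_union, Finset.mem_filter, Finset.mem_filter]
    rintro (h | h)
    · exact hirr x h.2
    · exact hirr x h.2
  have d3 : Disjoint (sec A x)
      ({x} ∪ ((Finset.univ.filter fun u => A x u) ∪ (Finset.univ.filter fun u => A u x))) := by
    rw [Finset.disjoint_left]
    intro y hx hx'
    obtain ⟨f1, f2, z, f3, f4⟩ := FIN_.mem_sec.1 hx
    rw [Finset.mem_union, Finset.mem_union, Finset.mem_singleton, Finset.mem_filter,
      Finset.mem_filter] at hx'
    rcases hx' with h | h | h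
    · exact f1 h
    · exact f2 h.2
    · exact htri x z y f3 f4 h.2
  have h := Finset.card_le_univ ((sec A x) ∪
      ({x} ∪ ((Finset.univ.filter fun u => A x u) ∪ (Finset.univ.filter fun u => A u x))))
  rw [Finset.card_union_of_disjoint d3, Finset.card_union_of_disjoint d2,
    Finset.card_union_of_disjoint d1, Finset.card_singleton, hout x, hin x] at h
  omega

lemma count5 (hirr : ∀ v, ¬ A v v) (hor : ∀ u v, A u v → ¬ A v u)
    (htri : ∀ u v w, A u v → A v w → ¬ A w u)
    (hquad : ∀ u v w z, A u v → A v w → A w z → ¬ A z u)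
    (hout : ∀ v, (Finset.univ.filter fun u => A v u).card = k)
    (hin : ∀ v, (Finset.univ.filter fun u => A u v).card = k) (x : V) :
    (sec A x).card + ((secIn A x).card + (1 + 2 * k)) ≤ Fintype.card V := by
  classical
  have memI : ∀ z, z ∈ secIn A x ↔ z ≠ x ∧ ¬ A z x ∧ ∃ y, A z y ∧ A y x := by
    intro z
    simp [secIn]
  have d1 : Disjoint (Finset.univ.filter fun u => A x u) (Finset.univ.filter fun u => A u x) := by
    rw [Finset.disjoint_left]
    intro y hx hx'
    rw [Finset.mem_filter] at hx hx'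
    exact hor x y hx.2 hx'.2
  have d2 : Disjoint {x} ((Finset.univ.filter fun u => A x u) ∪
      (Finset.univ.filter fun u => A u x)) := by
    rw [Finset.disjoint_singleton_left, Finset.mem_union, Finset.mem_filter, Finset.mem_filter]
    rintro (h | h)
    · exact hirr x h.2
    · exact hirr x h.2
  have d3 : Disjoint (secIn A x)
      ({x} ∪ ((Finset.univ.filter fun u => A x u) ∪ (Finset.univ.filter fun u => A u x))) := by
    rw [Finset.disjoint_left]
    intro y hx hx'
    obtain ⟨f1, f2, z, f3, f4⟩ := (memI y).1 hx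
    rw [Finset.mem_union, Finset.mem_union, Finset.mem_singleton, Finset.mem_filter,
      Finset.mem_filter] at hx'
    rcases hx' with h | h | h
    · exact f1 h
    · exact htri x y z h.2 f3 f4
    · exact f2 h.2
  have d4 : Disjoint (sec A x) (secIn A x ∪
      ({x} ∪ ((Finset.univ.filter fun u => A x u) ∪ (Finset.univ.filter fun u => A u x)))) := by
    rw [Finset.disjoint_left]
    intro y hx hx'
    obtain ⟨f1, f2, z, f3, f4⟩ := FIN_.mem_sec.1 hx
    rw [Finset.mem_union, Finset.mem_union, Finset.mem_union, Finset.mem_singleton,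
      Finset.mem_filter, Finset.mem_filter] at hx'
    rcases hx' with h | h | h | h
    · obtain ⟨-, -, t, f5, f6⟩ := (memI y).1 h
      exact hquad x z y t f3 f4 f5 f6
    · exact f1 h
    · exact f2 h.2
    · exact htri x z y f3 f4 h.2
  have h := Finset.card_le_univ ((sec A x) ∪ (secIn A x ∪
      ({x} ∪ ((Finset.univ.filter fun u => A x u) ∪ (Finset.univ.filter fun u => A u x)))))
  rw [Finset.card_union_of_disjoint d4, Finset.card_union_of_disjoint d3,
    Finset.card_union_of_disjoint d2,
    Finset.card_union_of_disjoint d1, Finset.card_singleton, hout x, hin x] at h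
  omega

end Dig_

open Dig_ in
/-- the theorem for relations -/
theorem main (hFIN : SpecFIN) (V : Type) [Fintype V] [Nonempty V] (A : V → V → Prop) (k c g : ℕ)
    (hk : 1 ≤ k) (hout : ∀ v, (Finset.univ.filter fun u => A v u).card = k)
    (hin : ∀ v, (Finset.univ.filter fun u => A u v).card = k)
    (hg : g = 4 ∨ g = 5) (hgirth : ∀ m, 1 ≤ m → m < g → NoCyc A m) (hconn : Conn A c) :
    (k : ℝ) * (g - 1) + 1 - (3 - √5) / 2 * (g - 3) * (k - c) ≤ Fintype.card V := by
  have hg4 : 4 ≤ g := by omega
  have hirr := no1 (hgirth 1 (by omega) (by omega))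
  have hor := no2 hirr (hgirth 2 (by omega) (by omega))
  have htri := no3 hirr (hgirth 3 (by omega) (by omega))
  have hck := conn_le hk hor hout hin hconn
  have hmain := (hFIN V A k c hk hirr hor hout hin hconn).2 htri
  rw [Nat.cast_sub hck] at hmain
  have hn : (0 : ℝ) < Fintype.card V := by
    exact_mod_cast Fintype.card_pos
  set n : ℝ := (Fintype.card V : ℝ) with hnd
  set S : ℕ := ∑ x, (sec A x).card with hS
  set β : ℝ := (3 - √5) / 2 with hβ
  rcases hg with hg | hg
  · have h4 : (S : ℝ) + n * (1 + 2 * k) ≤ n * n := by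
      have h5 : ∑ x, ((sec A x).card + (1 + 2 * k)) ≤ ∑ _x : V, Fintype.card V :=
        Finset.sum_le_sum fun x _ => count4 hirr hor htri hout hin x
      rw [Finset.sum_add_distrib, Finset.sum_const, Finset.sum_const, Finset.card_univ,
        smul_eq_mul, smul_eq_mul] at h5
      rw [hnd, hS]
      exact_mod_cast h5
    have h6 : n * (k * 3 + 1 - β * (k - c)) ≤ n * n := by nlinarith
    have h7 := le_of_mul_le_mul_left h6 hn
    subst hg
    push_cast
    linarith
  · have hquad := no4 hirr hor (hgirth 4 (by omega) (by omega))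
    have h4 : 2 * (S : ℝ) + n * (1 + 2 * k) ≤ n * n := by
      have h5 : ∑ x, ((sec A x).card + ((secIn A x).card + (1 + 2 * k))) ≤
          ∑ _x : V, Fintype.card V :=
        Finset.sum_le_sum fun x _ => count5 hirr hor htri hquad hout hin x
      rw [Finset.sum_add_distrib, Finset.sum_add_distrib, sum_secIn, Finset.sum_const,
        Finset.sum_const, Finset.card_univ, smul_eq_mul, smul_eq_mul, ← hS] at h5
      have h6 : 2 * S + Fintype.card V * (1 + 2 * k) ≤ Fintype.card V * Fintype.card V := by
        omega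
      rw [hnd]
      exact_mod_cast h6
    have h6 : n * (k * 4 + 1 - 2 * β * (k - c)) ≤ n * n := by nlinarith
    have h7 := le_of_mul_le_mul_left h6 hn
    subst hg
    push_cast
    linarith

end Pool.Agent.Lib.MP_83608f_co.CN
end
end
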