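import Pool.Agent.Lib.MP_83608f_co.CN.Spec

/-!
# GEN: general position
-/

set_option autoImplicit false

open Classical

noncomputable section

namespace Pool.Agent.Lib.MP_83608f_co.CN

namespace GENM

/-- The generic matrix supported on `S`. -/
def G {V : Type} (S : V → V → Prop) : Matrix V V (MvPolynomial (V × V) ℚ) :=
  fun u x => if S u x then MvPolynomial.X (u, x) else 0

/-- The specialization. -/
def Q {V : Type} (S : V → V → Prop) (w : V × V → ℚ) : Matrix V V ℚ :=
  fun u x => if S u x then w (u, x) else 0

theorem map_G {V : Type} (S : V → V → Prop) (w : V × V → ℚ) (u x : V) :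
    MvPolynomial.eval w (G S u x) = Q S w u x := by
  unfold G Q
  split_ifs <;> simp

/-- The minor. -/
def D {V : Type} (S : V → V → Prop) (C : Finset V) (f : V → V) : MvPolynomial (V × V) ℚ :=
  ((G S).submatrix (fun a : C => f a) (fun b : C => (b : V))).det

theorem eval_D {V : Type} (S : V → V → Prop) (C : Finset V) (f : V → V) (w : V × V → ℚ) :
    MvPolynomial.eval w (D S C f) =
      ((Q S w).submatrix (fun a : C => f a) (fun b : C => (b : V))).det := by
  unfold D
  rw [RingHom.map_det]
  congr 1
  ext a b
  simp only [RingHom.mapMatrix_apply, Matrix.map_apply, Matrix.submatrix_apply]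
  exact map_G S w _ _

theorem D_ne_zero {V : Type} (S : V → V → Prop) (C : Finset V) (f : V → V) (hf : Set.InjOn f C)
    (hS : ∀ x ∈ C, S (f x) x) : D S C f ≠ 0 := by
  intro h
  set w : V × V → ℚ := fun p => if p.1 = f p.2 then 1 else 0 with hw
  have h1 := eval_D S C f w
  rw [h, map_zero] at h1
  have h2 : (Q S w).submatrix (fun a : C => f a) (fun b : C => (b : V)) = 1 := by
    ext a b
    simp only [Matrix.submatrix_apply, Matrix.one_apply, Q, hw]
    by_cases hab : a = b
    · subst hab
      rw [if_pos (hS a a.2), if_pos rfl, if_pos rfl]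
    · have h3 : f a ≠ f b := fun h => hab (Subtype.ext (hf a.2 b.2 h))
      rw [if_neg h3, if_neg hab]
      split_ifs <;> rfl
  rw [h2, Matrix.det_one] at h1
  exact zero_ne_one h1

end GENM

open GENM in
/-- **GEN**. -/
theorem specGEN : SpecGEN := by
  intro V _ S ι _ R C f hf hR hS
  have h1 : (∏ i : ι, D S (C i) (f i)) ≠ 0 :=
    Finset.prod_ne_zero_iff.2 fun i _ => D_ne_zero S (C i) (f i) (hf i) (hS i)
  obtain ⟨w, hw⟩ : ∃ w : V × V → ℚ, MvPolynomial.eval w (∏ i : ι, D S (C i) (f i)) ≠ 0 := by
    by_contra hcon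
    push Not at hcon
    exact h1 (MvPolynomial.funext fun x => by rw [hcon x, map_zero])
  rw [map_prod] at hw
  have hw' := Finset.prod_ne_zero_iff.1 hw
  refine ⟨Q S w, fun u x h => ?_, fun i z hz hzR => ?_⟩
  · by_contra hS'
    exact h (if_neg hS')
  · have hdet := hw' i (Finset.mem_univ i)
    rw [eval_D] at hdet
    have h2 : ((Q S w).submatrix (fun a : C i => f i a) (fun b : C i => (b : V))).mulVec
        (fun b : C i => z b) = 0 := by
      ext a
      simp only [Matrix.mulVec, dotProduct, Matrix.submatrix_apply, Pi.zero_apply]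
      rw [← hzR (f i a) (hR i a a.2)]
      rw [Finset.sum_coe_sort (C i) (fun x => Q S w (f i a) x * z x)]
      refine Finset.sum_subset (Finset.subset_univ _) fun x _ hx => ?_
      rw [hz x hx, mul_zero]
    have h3 := Matrix.eq_zero_of_mulVec_eq_zero hdet h2
    intro x
    by_cases hx : x ∈ C i
    · exact congrFun h3 ⟨x, hx⟩
    · exact hz x hx

end Pool.Agent.Lib.MP_83608f_co.CN
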