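import Pool.Agent.Lib.MP_83608f_co.CN.Spec

/-!
# GOLD: oriented graphs without directed triangles
-/

set_option autoImplicit false

open Classical

noncomputable section

namespace Pool.Agent.Lib.MP_83608f_co.CN

namespace GOLDM

/-- The constant `β = (3-√5)/2`. -/
def β : ℝ := (3 - √5) / 2

theorem sqrt5_lt : √5 < 3 := by
  rw [Real.sqrt_lt' (by norm_num)]
  norm_num

theorem one_lt_sqrt5 : 1 < √5 := by
  rw [Real.lt_sqrt (by norm_num)]
  norm_num

theorem β_pos : 0 < β := by
  have := sqrt5_lt
  unfold β
  linarith

theorem β_lt_one : β < 1 := by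
  have := one_lt_sqrt5
  unfold β
  linarith

theorem β_mul : β * (3 - β) = 1 := by
  have h : √5 * √5 = 5 := Real.mul_self_sqrt (by norm_num)
  unfold β
  nlinarith

theorem exists_indeg {V : Type} [Fintype V] (A : V → V → Prop) (S : Finset V) (e : ℕ) (hS : S.Nonempty)
    (h : ∀ u ∈ S, e ≤ (S.filter fun v => A u v).card) : ∃ v ∈ S, e ≤ (S.filter fun u => A u v).card := by
  by_contra hcon
  push Not at hcon
  have h1 : ∑ u ∈ S, (S.filter fun v => A u v).card = ∑ v ∈ S, (S.filter fun u => A u v).card := by
    simp only [Finset.card_filter]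
    exact Finset.sum_comm
  have h2 : S.card * e ≤ ∑ u ∈ S, (S.filter fun v => A u v).card := by
    rw [← smul_eq_mul]
    exact Finset.card_nsmul_le_sum S _ e h
  have h3 : ∑ v ∈ S, (S.filter fun u => A u v).card < ∑ _v ∈ S, e :=
    Finset.sum_lt_sum_of_nonempty hS hcon
  rw [Finset.sum_const, smul_eq_mul] at h3
  omega

theorem main {V : Type} [Fintype V] (A : V → V → Prop) (hA : ∀ u v, A u v → ¬ A v u)
    (hT : ∀ u v w, A u v → A v w → ¬ A w u) (n : ℕ) :
    ∀ (S : Finset V) (e : ℕ), S.card = n → S.Nonempty →
      (∀ u ∈ S, e ≤ (S.filter fun v => A u v).card) → (e : ℝ) ≤ β * S.card := by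
  induction n using Nat.strong_induction_on with
  | _ n ih =>
    intro S e hn hS hdeg
    rcases Nat.eq_zero_or_pos e with rfl | he
    · have := β_pos
      push_cast
      positivity
    obtain ⟨v, hv, hin⟩ := exists_indeg A S e hS hdeg
    set O : Finset V := S.filter fun u => A v u with hO
    set I : Finset V := S.filter fun u => A u v with hI
    have hOe : e ≤ O.card := hdeg v hv
    have hOne : O.Nonempty := Finset.card_pos.1 (by omega)
    have hvO : v ∉ O := fun h => by
      have h1 := (Finset.mem_filter.1 h).2
      exact hA v v h1 h1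
    have hOS : O ⊂ S := by
      refine Finset.ssubset_iff_subset_ne.2 ⟨Finset.filter_subset _ _, fun h => hvO ?_⟩
      rw [h]
      exact hv
    have hOlt : O.card < n := hn ▸ Finset.card_lt_card hOS
    obtain ⟨x, hx, hmin⟩ := Finset.exists_min_image O (fun x => (O.filter fun y => A x y).card) hOne
    have h1 := ih O.card hOlt O (O.filter fun y => A x y).card rfl hOne hmin
    have hxS : x ∈ S := (Finset.mem_filter.1 hx).1
    have hvx : A v x := (Finset.mem_filter.1 hx).2
    set T : Finset V := (S.filter fun y => A x y) \ O with hTd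
    have hTc : e ≤ T.card + (O.filter fun y => A x y).card := by
      have h2 := hdeg x hxS
      have h3 : (S.filter fun y => A x y) ⊆ T ∪ (O.filter fun y => A x y) := by
        intro y hy
        by_cases hyO : y ∈ O
        · exact Finset.mem_union_right _ (Finset.mem_filter.2 ⟨hyO, (Finset.mem_filter.1 hy).2⟩)
        · exact Finset.mem_union_left _ (Finset.mem_sdiff.2 ⟨hy, hyO⟩)
      exact h2.trans ((Finset.card_le_card h3).trans (Finset.card_union_le _ _))
    have hOI : Disjoint O I := by
      rw [Finset.disjoint_left]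
      intro y hy hy'
      exact hA _ _ (Finset.mem_filter.1 hy).2 (Finset.mem_filter.1 hy').2
    have hOIT : Disjoint (O ∪ I) T := by
      rw [Finset.disjoint_left]
      intro y hy hy'
      have h5 := Finset.mem_sdiff.1 hy'
      rcases Finset.mem_union.1 hy with h | h
      · exact h5.2 h
      · exact hT v x y hvx (Finset.mem_filter.1 h5.1).2 (Finset.mem_filter.1 h).2
    have hsub : (O ∪ I) ∪ T ⊆ S := by
      refine Finset.union_subset (Finset.union_subset (Finset.filter_subset _ _)
        (Finset.filter_subset _ _)) ?_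
      exact Finset.sdiff_subset.trans (Finset.filter_subset _ _)
    have hcard : O.card + I.card + T.card ≤ S.card := by
      have := Finset.card_le_card hsub
      rwa [Finset.card_union_of_disjoint hOIT, Finset.card_union_of_disjoint hOI] at this
    have e1 : (e : ℝ) ≤ (T.card : ℝ) + ((O.filter fun y => A x y).card : ℝ) := by exact_mod_cast hTc
    have e2 : (O.card : ℝ) + I.card + T.card ≤ S.card := by exact_mod_cast hcard
    have e3 : (e : ℝ) ≤ I.card := by exact_mod_cast hin
    have e4 : (e : ℝ) ≤ O.card := by exact_mod_cast hOe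
    have hb0 := β_pos
    have hb1 := β_lt_one
    have hb := β_mul
    have e5 : (3 - β) * e ≤ S.card := by nlinarith
    calc (e : ℝ) = β * ((3 - β) * e) := by rw [← mul_assoc, hb, one_mul]
      _ ≤ β * S.card := mul_le_mul_of_nonneg_left e5 hb0.le

end GOLDM

open GOLDM in
/-- **GOLD**. -/
theorem specGOLD : SpecGOLD := by
  intro V _ A S e hS hA hT hdeg
  exact main A hA hT S.card S e rfl hS hdeg

end Pool.Agent.Lib.MP_83608f_co.CN
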