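import Mathlib

/-!
# MP_83608f_co, part CN: the pair version of the main estimate (helper91, helper58)

`B` = equal or arc, `R` = distance at most `a`; both are reflexive, `R ∘ B = B ∘ R`, and `B w y`, `R y w` imply `y = w`.
-/

set_option autoImplicit false

open Classical

noncomputable section

namespace Pool.Agent.Lib.MP_83608f_co.CN

/-- the distance from `w` to `x` is at least `a + 2` -/
def FarP {V : Type} (R B : V → V → Prop) (x w : V) : Prop := ∀ y, B w y → ¬ R y x

/-- the distance from `u` to `w` is more than `a`, that from `w` to `u` more than `1` -/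
def NadP {V : Type} (R B : V → V → Prop) (u w : V) : Prop := ¬ R u w ∧ ¬ B w u

/-- PKER (helper91): the main estimate for the pair `(R, B)` -/
def SpecPKER : Prop := ∀ (V : Type) [Fintype V] (R B : V → V → Prop) (k : ℕ) (ν ν' : V → ℕ) (Y Y' : Finset V),
  (∀ x, R x x) → (∀ x, B x x) → (∀ x w, (∃ y, R w y ∧ B y x) ↔ (∃ y, B w y ∧ R y x)) →
  (∀ w y, B w y → R y w → y = w) →
  (∀ x, (Finset.univ.filter fun v => B x v).card = k + 1) →
  (∀ x, (Finset.univ.filter fun v => B v x).card = k + 1) →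
  (∀ F : Finset V, F.Nonempty → Disjoint F Y →
    F.card + k ≤ (Finset.univ.filter fun v => ∃ u ∈ F, B u v).card) →
  (∀ F : Finset V, F.Nonempty → Disjoint F Y' →
    F.card + k ≤ (Finset.univ.filter fun v => ∃ u ∈ F, B v u).card) →
  (∀ w ∈ Y, ∀ X : Finset V, (∀ x ∈ X, FarP R B x w) →
    X.card ≤ (Finset.univ.filter fun u => (∃ x ∈ X, R u x) ∧ ¬ R u w).card + ν w) →
  (∀ w ∈ Y', ∀ X : Finset V, (∀ x ∈ X, FarP R B w x) →
    X.card ≤ (Finset.univ.filter fun u => (∃ x ∈ X, R x u) ∧ ¬ R w u).card + ν' w) →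
  2 * Fintype.card {p : V × V // FarP R B p.1 p.2} ≤
    2 * Fintype.card {p : V × V // NadP R B p.1 p.2} + ∑ w ∈ Y, ν w + ∑ w ∈ Y', ν' w

end Pool.Agent.Lib.MP_83608f_co.CN
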