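import Pool.Agent.Lib.MP_83608f_co.CN.Spec
import Pool.Agent.Lib.MP_83608f_co.CN.SpecP
import Pool.Agent.Lib.MP_83608f_co.CN.GEN

section
/-!
# MP_83608f_co, part CN: module HALF

An oriented graph with all out-degrees at least `e` in `S` has at least `2e + 1` vertices.
-/
set_option autoImplicit false

open Classical

noncomputable section

namespace Pool.Agent.Lib.MP_83608f_co.CN

theorem specHALF : SpecHALF := by
  intro V _ A S e hS hor hdeg
  have hcard : ((S ×ˢ S).filter fun p : V × V => A p.1 p.2).card =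
      ∑ u ∈ S, (S.filter fun v => A u v).card := by
    rw [Finset.card_filter, Finset.sum_product]
    refine Finset.sum_congr rfl fun u _ => ?_
    rw [Finset.card_filter]
  have hcard' : ((S ×ˢ S).filter fun p : V × V => A p.2 p.1).card =
      ∑ u ∈ S, (S.filter fun v => A u v).card := by
    rw [Finset.card_filter, Finset.sum_product_right]
    refine Finset.sum_congr rfl fun u _ => ?_
    rw [Finset.card_filter]
  have hlow : S.card * e ≤ ∑ u ∈ S, (S.filter fun v => A u v).card := by
    have h := Finset.card_nsmul_le_sum S (fun u => (S.filter fun v => A u v).card) e hdeg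
    simpa [smul_eq_mul] using h
  have hdisj : Disjoint ((S ×ˢ S).filter fun p : V × V => A p.1 p.2)
      ((S ×ˢ S).filter fun p : V × V => A p.2 p.1) := by
    rw [Finset.disjoint_left]
    intro p hp hp'
    rw [Finset.mem_filter] at hp hp'
    exact hor _ _ hp.2 hp'.2
  have hsub : ((S ×ˢ S).filter fun p : V × V => A p.1 p.2) ∪
      ((S ×ˢ S).filter fun p : V × V => A p.2 p.1) ⊆ S.offDiag := by
    intro p hp
    rw [Finset.mem_union, Finset.mem_filter, Finset.mem_filter] at hp
    rw [Finset.mem_offDiag]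
    have hirr : ∀ u, ¬ A u u := fun u h => hor u u h h
    rcases hp with ⟨h1, h2⟩ | ⟨h1, h2⟩
    · rw [Finset.mem_product] at h1
      refine ⟨h1.1, h1.2, fun h => ?_⟩
      rw [h] at h2
      exact hirr _ h2
    · rw [Finset.mem_product] at h1
      refine ⟨h1.1, h1.2, fun h => ?_⟩
      rw [h] at h2
      exact hirr _ h2
  have hle := Finset.card_le_card hsub
  rw [Finset.card_union_of_disjoint hdisj, hcard, hcard', Finset.offDiag_card] at hle
  have hpos : 0 < S.card := Finset.card_pos.mpr hS
  have h3 : S.card * (2 * e) + S.card ≤ S.card * S.card := by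
    have h4 : S.card ≤ S.card * S.card := Nat.le_mul_of_pos_left _ hpos
    have h5 : S.card * (2 * e) ≤ S.card * S.card - S.card := by
      calc S.card * (2 * e) = S.card * e + S.card * e := by ring
        _ ≤ _ := le_trans (Nat.add_le_add hlow hlow) hle
    omega
  have h6 : S.card * (2 * e + 1) ≤ S.card * S.card := by
    calc S.card * (2 * e + 1) = S.card * (2 * e) + S.card := by ring
      _ ≤ _ := h3
  exact Nat.le_of_mul_le_mul_left h6 hpos

end Pool.Agent.Lib.MP_83608f_co.CN
end
end

section
/-!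
# MP_83608f_co, part CN: module HALL, Hall's theorem with a deficiency
-/
set_option autoImplicit false

open Classical

noncomputable section

namespace Pool.Agent.Lib.MP_83608f_co.CN

theorem specHALL : SpecHALL := by
  intro V _ S t d h
  have hall : ∀ s : Finset {x // x ∈ S}, s.card ≤ (s.biUnion fun x => (t x.1).disjSum (Finset.univ : Finset (Fin d))).card := by
    intro s
    rcases s.eq_empty_or_nonempty with rfl | hs
    · simp
    · have h1 := h (s.map (Function.Embedding.subtype _)) (by
        intro x hx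
        rw [Finset.mem_map] at hx
        obtain ⟨y, _, rfl⟩ := hx
        exact y.2)
      rw [Finset.card_map] at h1
      refine h1.trans ?_
      have h2 : (((s.map (Function.Embedding.subtype _)).biUnion t).disjSum (Finset.univ : Finset (Fin d))) ⊆
          (s.biUnion fun x => (t x.1).disjSum (Finset.univ : Finset (Fin d))) := by
        intro z hz
        rw [Finset.mem_disjSum] at hz
        rw [Finset.mem_biUnion]
        rcases hz with ⟨v, hv, rfl⟩ | ⟨i, _, rfl⟩
        · rw [Finset.mem_biUnion] at hv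
          obtain ⟨x, hx, hv⟩ := hv
          rw [Finset.mem_map] at hx
          obtain ⟨y, hy, rfl⟩ := hx
          exact ⟨y, hy, Finset.inl_mem_disjSum.2 hv⟩
        · obtain ⟨y, hy⟩ := hs
          exact ⟨y, hy, Finset.inr_mem_disjSum.2 (Finset.mem_univ _)⟩
      have h3 := Finset.card_le_card h2
      rw [Finset.card_disjSum, Finset.card_univ, Fintype.card_fin] at h3
      exact h3
  obtain ⟨F, hF1, hF2⟩ := (Finset.all_card_le_biUnion_card_iff_exists_injective _).1 hall
  -- the chosen vertex
  let f : V → V := fun x => if hx : x ∈ S then (F ⟨x, hx⟩).elim id (fun _ => x) else x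
  let S' : Finset V := S.filter fun x => ∃ hx : x ∈ S, (F ⟨x, hx⟩).isLeft = true
  have key : ∀ x ∈ S', ∃ hx : x ∈ S, F ⟨x, hx⟩ = Sum.inl (f x) := by
    intro x hx
    obtain ⟨h1, h2, h3⟩ := Finset.mem_filter.1 hx
    refine ⟨h1, ?_⟩
    obtain ⟨v, hv⟩ := Sum.isLeft_iff.1 h3
    have : f x = v := by
      simp only [f, dif_pos h1, hv, Sum.elim_inl, id]
    rw [this, hv]
  refine ⟨S', f, Finset.filter_subset _ _, ?_, ?_, ?_⟩
  · have h1 : (S \ S').card ≤ d := by
      have h2 : ∀ x : {x // x ∈ S \ S'}, ∃ i, F ⟨x.1, (Finset.mem_sdiff.1 x.2).1⟩ = Sum.inr i := by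
        intro x
        obtain ⟨h1, h2⟩ := Finset.mem_sdiff.1 x.2
        rcases hc : F ⟨x.1, h1⟩ with v | i
        · exact absurd (Finset.mem_filter.2 ⟨h1, h1, by rw [hc]; rfl⟩) h2
        · exact ⟨i, rfl⟩
      choose g hg using h2
      have h4 : Fintype.card {x // x ∈ S \ S'} ≤ Fintype.card (Fin d) := by
        refine Fintype.card_le_of_injective g ?_
        intro x y hxy
        have h5 : F ⟨x.1, (Finset.mem_sdiff.1 x.2).1⟩ = F ⟨y.1, (Finset.mem_sdiff.1 y.2).1⟩ := by
          rw [hg x, hg y, hxy]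
        have h6 := congrArg Subtype.val (hF1 h5)
        exact Subtype.ext h6
      rw [Fintype.card_coe, Fintype.card_fin] at h4
      exact h4
    have h2 := Finset.card_sdiff_add_card_eq_card (Finset.filter_subset (fun x => ∃ hx : x ∈ S, (F ⟨x, hx⟩).isLeft = true) S)
    have h3 : (S \ S').card + S'.card = S.card := h2
    omega
  · intro x hx y hy hxy
    obtain ⟨a1, a2⟩ := key x hx
    obtain ⟨b1, b2⟩ := key y hy
    rw [hxy, ← b2] at a2
    have := hF1 a2
    exact congrArg Subtype.val this
  · intro x hx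
    obtain ⟨a1, a2⟩ := key x hx
    have h1 := hF2 ⟨x, a1⟩
    rw [a2] at h1
    exact Finset.inl_mem_disjSum.1 h1

end Pool.Agent.Lib.MP_83608f_co.CN
end
end

section
/-!
# MP_83608f_co, part CN: module KER, the main estimate
-/
set_option autoImplicit false

open Classical

noncomputable section

namespace Pool.Agent.Lib.MP_83608f_co.CN.KER_

variable {V : Type} [Fintype V]

/-- extension by zero -/
def ext (A : V → V → Prop) (Z : {p : V × V // Far A p.1 p.2} → ℚ) (x w : V) : ℚ :=
  if h : Far A x w then Z ⟨(x, w), h⟩ else 0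

lemma sum_ext (A : V → V → Prop) (Z : {p : V × V // Far A p.1 p.2} → ℚ) (G : V → V → ℚ) :
    ∑ c : {p : V × V // Far A p.1 p.2}, G c.1.1 c.1.2 * Z c = ∑ x, ∑ w, G x w * ext A Z x w := by
  rw [← Fintype.sum_prod_type' (fun x w => G x w * ext A Z x w),
    ← Fintype.sum_subtype_add_sum_subtype (fun p : V × V => Far A p.1 p.2)
      (fun p : V × V => G p.1 p.2 * ext A Z p.1 p.2)]
  have h1 : ∑ c : {p : V × V // ¬ Far A p.1 p.2}, G c.1.1 c.1.2 * ext A Z c.1.1 c.1.2 = 0 := by
    apply Finset.sum_eq_zero
    intro c _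
    rw [ext, dif_neg c.2, mul_zero]
  rw [h1, add_zero]
  apply Finset.sum_congr rfl
  intro c _
  rw [ext, dif_pos c.2]

lemma ker_P (A : V → V → Prop) (P Q : Matrix V V ℚ) (Z : {p : V × V // Far A p.1 p.2} → ℚ)
    (hZ : (M0 A P Q).mulVec Z = 0) (u w : V) (h : Nad A u w) : ∑ x, P u x * ext A Z x w = 0 := by
  have h1 := congrFun hZ (Sum.inl ⟨(u, w), h⟩)
  simp only [Matrix.mulVec, dotProduct, M0, Sum.elim_inl, Pi.zero_apply] at h1
  rw [sum_ext A Z (fun x w' => if w = w' then P u x else 0)] at h1
  rw [← h1]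
  apply Finset.sum_congr rfl
  intro x _
  simp [ite_mul]

lemma ker_Q (A : V → V → Prop) (P Q : Matrix V V ℚ) (Z : {p : V × V // Far A p.1 p.2} → ℚ)
    (hZ : (M0 A P Q).mulVec Z = 0) (x v : V) (h : Nad A x v) : ∑ w, Q w v * ext A Z x w = 0 := by
  have h1 := congrFun hZ (Sum.inr ⟨(x, v), h⟩)
  simp only [Matrix.mulVec, dotProduct, M0, Sum.elim_inr, Pi.zero_apply] at h1
  rw [sum_ext A Z (fun x' w => if x = x' then Q w v else 0), Finset.sum_comm] at h1
  rw [← h1]
  apply Finset.sum_congr rfl
  intro w _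
  simp [ite_mul]

end Pool.Agent.Lib.MP_83608f_co.CN.KER_

namespace Pool.Agent.Lib.MP_83608f_co.CN

open KER_

theorem specKER (hP4 : SpecP4) (hGEN : SpecGEN) (hHALL : SpecHALL) : SpecKER := by
  intro V _ A k d Y hdeg hexp hin
  -- the columns in `Y`
  have hS : ∀ w : V, ∃ (S' : Finset V) (f : V → V), (w ∈ Y → S' ⊆ Finset.univ.filter (fun x => Far A x w)) ∧
      (w ∈ Y → (Finset.univ.filter (fun x => Far A x w)).card ≤ S'.card + d) ∧ (w ∉ Y → S' = ∅) ∧
      Set.InjOn f S' ∧ ∀ x ∈ S', (f x = x ∨ A (f x) x) ∧ Nad A (f x) w := by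
    intro w
    by_cases hw : w ∈ Y
    · obtain ⟨S', f, h1, h2, h3, h4⟩ := hHALL V (Finset.univ.filter (fun x => Far A x w))
        (fun x => Finset.univ.filter fun u => (u = x ∨ A u x) ∧ Nad A u w) d (by
          intro X hX
          refine (hin w hw X (fun x hx => (Finset.mem_filter.1 (hX hx)).2)).trans ?_
          refine Nat.add_le_add_right (Finset.card_le_card ?_) d
          intro u hu
          obtain ⟨u1, u2⟩ := Finset.mem_filter.1 hu
          simp only [inN, Finset.mem_filter, Finset.mem_univ, true_and] at u1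
          rw [Finset.mem_biUnion]
          rcases u1 with h | ⟨x, hx, h⟩
          · exact ⟨u, h, Finset.mem_filter.2 ⟨Finset.mem_univ _, Or.inl rfl, u2⟩⟩
          · exact ⟨x, hx, Finset.mem_filter.2 ⟨Finset.mem_univ _, Or.inr h, u2⟩⟩)
      exact ⟨S', f, fun _ => h1, fun _ => h2, fun h => absurd hw h, h3, fun x hx => (Finset.mem_filter.1 (h4 x hx)).2⟩
    · exact ⟨∅, id, fun h => absurd h hw, fun h => absurd h hw, fun _ => rfl, by simp, by simp⟩
  choose S' f hS1 hS2 hS3 hS4 hS5 using hS
  obtain ⟨P, hP1, hP2⟩ := hGEN V (fun u x => u = x ∨ A u x) V (fun w u => Nad A u w) S' f hS4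
    (fun w x hx => (hS5 w x hx).2) (fun w x hx => (hS5 w x hx).1)
  -- the rows outside `Y`
  have hR : ∀ x : V, ∃ f : V → V, Set.InjOn f (Finset.univ.filter fun w => w ∉ Y ∧ Far A x w : Finset V) ∧
      ∀ w ∈ (Finset.univ.filter fun w => w ∉ Y ∧ Far A x w : Finset V), (f w = w ∨ A w (f w)) ∧ Nad A x (f w) := by
    intro x
    obtain ⟨S'', f, h1, h2, h3, h4⟩ := hHALL V (Finset.univ.filter fun w => w ∉ Y ∧ Far A x w)
      (fun w => Finset.univ.filter fun v => (v = w ∨ A w v) ∧ Nad A x v) 0 (by
        intro F hF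
        rcases F.eq_empty_or_nonempty with h0 | h0
        · simp [h0]
        have hd : Disjoint F Y := by
          rw [Finset.disjoint_left]
          intro w hw
          exact (Finset.mem_filter.1 (hF hw)).2.1
        have h5 := hexp F h0 hd
        have h6 : outN A F ⊆ (F.biUnion fun w => Finset.univ.filter fun v => (v = w ∨ A w v) ∧ Nad A x v) ∪
            (Finset.univ.filter fun u => A x u) := by
          intro v hv
          simp only [outN, Finset.mem_filter, Finset.mem_univ, true_and] at hv
          rw [Finset.mem_union, Finset.mem_biUnion]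
          by_cases hxv : A x v
          · exact Or.inr (Finset.mem_filter.2 ⟨Finset.mem_univ _, hxv⟩)
          · left
            rcases hv with h | ⟨u, hu, h⟩
            · have hfar := (Finset.mem_filter.1 (hF h)).2.2
              exact ⟨v, h, Finset.mem_filter.2 ⟨Finset.mem_univ _, Or.inl rfl, hfar.1, hxv, hfar.2.1⟩⟩
            · have hfar := (Finset.mem_filter.1 (hF hu)).2.2
              refine ⟨u, hu, Finset.mem_filter.2 ⟨Finset.mem_univ _, Or.inr h, ?_, hxv, hfar.2.2 v h⟩⟩
              rintro rfl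
              exact hfar.2.1 h
        have h7 := (Finset.card_le_card h6).trans (Finset.card_union_le _ _)
        rw [hdeg x] at h7
        omega)
    have h5 : S'' = Finset.univ.filter fun w => w ∉ Y ∧ Far A x w :=
      Finset.eq_of_subset_of_card_le h1 (by simpa using h2)
    subst h5
    exact ⟨f, h3, fun w hw => (Finset.mem_filter.1 (h4 w hw)).2⟩
  choose g hg1 hg2 using hR
  obtain ⟨P', hP'1, hP'2⟩ := hGEN V (fun v w => v = w ∨ A w v) V (fun x v => Nad A x v)
    (fun x => Finset.univ.filter fun w => w ∉ Y ∧ Far A x w) g hg1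
    (fun x w hw => (hg2 x w hw).2) (fun x w hw => (hg2 x w hw).1)
  obtain ⟨Q, hQ⟩ : ∃ Q : Matrix V V ℚ, ∀ w v, Q w v = if w ∈ Y then 0 else P' v w :=
    ⟨fun w v => if w ∈ Y then 0 else P' v w, fun _ _ => rfl⟩
  have hrank := hP4 V A P Q hP1 (by
    intro w v h
    rw [hQ] at h
    by_cases hw : w ∈ Y
    · simp [hw] at h
    · rw [if_neg hw] at h
      rcases hP'1 v w h with h' | h'
      · exact Or.inl h'.symm
      · exact Or.inr h')
  -- the remaining entries
  obtain ⟨T, hT⟩ : ∃ T : Finset (V × V), T = Finset.univ.filter fun p : V × V => p.2 ∈ Y ∧ Far A p.1 p.2 ∧ p.1 ∉ S' p.2 :=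
    ⟨_, rfl⟩
  have hTcard : T.card ≤ d * Y.card := by
    refine Finset.card_le_mul_card_image_of_maps_to (f := Prod.snd) (t := Y) ?_ d ?_
    · intro p hp
      rw [hT] at hp
      exact (Finset.mem_filter.1 hp).2.1
    · intro w hw
      have h1 : (T.filter fun p => p.2 = w).card ≤
          ((Finset.univ.filter fun x => Far A x w) \ S' w).card := by
        refine Finset.card_le_card_of_injOn Prod.fst ?_ ?_
        · intro p hp
          have hp' := Finset.mem_filter.1 (Finset.mem_coe.1 hp)
          rw [hT] at hp'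
          obtain ⟨q1, q2⟩ := hp'
          obtain ⟨_, q3, q4, q5⟩ := Finset.mem_filter.1 q1
          subst q2
          simp only [Finset.coe_sdiff, Set.mem_sdiff, Finset.mem_coe, Finset.mem_filter, Finset.mem_univ, true_and]
          exact ⟨q4, q5⟩
        · intro p hp q hq hpq
          have hp' := (Finset.mem_filter.1 (Finset.mem_coe.1 hp)).2
          have hq' := (Finset.mem_filter.1 (Finset.mem_coe.1 hq)).2
          exact Prod.ext hpq (hp'.trans hq'.symm)
      have h2 := Finset.card_sdiff_add_card_eq_card (hS1 w hw)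
      have h3 := hS2 w hw
      refine h1.trans ?_
      omega
  have hzero : ∀ Z : {p : V × V // Far A p.1 p.2} → ℚ, (M0 A P Q).mulVec Z = 0 →
      (∀ p ∈ T, ext A Z p.1 p.2 = 0) → Z = 0 := by
    intro Z hZ hZT
    have h1 : ∀ x w, w ∉ Y → ext A Z x w = 0 := by
      intro x w hw
      have := hP'2 x (fun w => if w ∈ Y then 0 else ext A Z x w) (by
        intro w' hw'
        by_cases h : w' ∈ Y
        · simp [h]
        · rw [if_neg h, ext, dif_neg]
          intro hf
          exact hw' (Finset.mem_filter.2 ⟨Finset.mem_univ _, h, hf⟩)) (by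
        intro v hv
        refine (Finset.sum_congr rfl ?_).trans (ker_Q A P Q Z hZ x v hv)
        intro w' _
        rw [hQ]
        by_cases h : w' ∈ Y <;> simp [h]) w
      simpa [hw] using this
    have h2 : ∀ x w, ext A Z x w = 0 := by
      intro x w
      by_cases hw : w ∈ Y
      · refine hP2 w (fun x => ext A Z x w) ?_ (fun u hu => ker_P A P Q Z hZ u w hu) x
        intro x' hx'
        by_cases hf : Far A x' w
        · refine hZT (x', w) ?_
          rw [hT]
          exact Finset.mem_filter.2 ⟨Finset.mem_univ _, hw, hf, hx'⟩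
        · simp only [ext, dif_neg hf]
      · exact h1 x w hw
    funext c
    have := h2 c.1.1 c.1.2
    rw [ext, dif_pos c.2] at this
    simpa using this
  have hker : Module.finrank ℚ (LinearMap.ker (M0 A P Q).mulVecLin) ≤ T.card := by
    let φ : LinearMap.ker (M0 A P Q).mulVecLin →ₗ[ℚ] (T → ℚ) :=
      { toFun := fun z t => ext A z.1 t.1.1 t.1.2
        map_add' := by
          intro z z'
          funext t
          simp only [ext, Submodule.coe_add, Pi.add_apply]
          split_ifs <;> simp
        map_smul' := by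
          intro c z
          funext t
          simp only [ext, Submodule.coe_smul, Pi.smul_apply, RingHom.id_apply]
          split_ifs <;> simp }
    have hφ : Function.Injective φ := by
      rw [← LinearMap.ker_eq_bot, LinearMap.ker_eq_bot']
      intro z hz
      apply Subtype.ext
      refine hzero z.1 ?_ ?_
      · have := z.2
        rwa [LinearMap.mem_ker, Matrix.mulVecLin_apply] at this
      · intro p hp
        exact congrFun hz ⟨p, hp⟩
    have := LinearMap.finrank_le_finrank_of_injective hφ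
    rwa [Module.finrank_fintype_fun_eq_card, Fintype.card_coe] at this
  have hrn := LinearMap.finrank_range_add_finrank_ker (M0 A P Q).mulVecLin
  rw [Module.finrank_fintype_fun_eq_card] at hrn
  have hrk : (M0 A P Q).rank = Module.finrank ℚ (LinearMap.range (M0 A P Q).mulVecLin) := rfl
  rw [← hrk] at hrn
  omega

end Pool.Agent.Lib.MP_83608f_co.CN
end
end

section
/-!
# MP_83608f_co, part CN, module P4: the kernel reduction

For matrices `P`, `Q` supported on `I ∪ A`, the matrix `M0 A P Q` describes the linear map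
`Z ↦ ((P Z)|N, (Z Q)|N)` on the matrices `Z` supported on `Far`. Its rank is at most `|N|`, for
ALL `P`, `Q` and every digraph `A`.
-/
set_option autoImplicit false

namespace Pool.Agent.Lib.MP_83608f_co.CN

namespace P4_

open Polynomial

/-- `det (1 + t N)` vanishes for finitely many `t` only. -/
lemma finite_det_one_add {K : Type*} [Field K] {d : Type*} [Fintype d] [DecidableEq d]
    (N : Matrix d d K) : {t : K | (1 + t • N).det = 0}.Finite := by
  classical
  have hp : (-N).charpolyRev ≠ 0 := by
    intro h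
    have := Matrix.eval_charpolyRev (M := -N)
    rw [h] at this
    simp at this
  refine ((-N).charpolyRev.roots.toFinset.finite_toSet).subset ?_
  intro t ht
  have ht' : (1 + t • N).det = 0 := ht
  rw [Finset.mem_coe, Multiset.mem_toFinset, mem_roots hp, IsRoot.def]
  rw [← ht', Matrix.charpolyRev, ← coe_evalRingHom, RingHom.map_det]
  congr 1
  ext i j
  simp [Matrix.one_apply, apply_ite]
  try ring

/-- The rank of `A + t • B` is at least that of `A` for all but finitely many `t`. -/
lemma finite_rank_lt {K : Type*} [Field K] {m n : Type*} [Fintype m] [Fintype n] [DecidableEq m]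
    [DecidableEq n] (A B : Matrix m n K) : {t : K | (A + t • B).rank < A.rank}.Finite := by
  obtain ⟨W, hW⟩ := Submodule.exists_isCompl (LinearMap.ker A.mulVecLin)
  -- `A` is injective on `W`
  have hinj : LinearMap.ker (A.mulVecLin ∘ₗ W.subtype) = ⊥ := by
    rw [LinearMap.ker_eq_bot']
    intro w hw
    have h1 : (w : n → K) ∈ LinearMap.ker A.mulVecLin := by simpa using hw
    have h2 : (w : n → K) ∈ LinearMap.ker A.mulVecLin ⊓ W := ⟨h1, w.2⟩
    rw [hW.inf_eq_bot] at h2
    simpa using h2
  obtain ⟨g, hg⟩ := LinearMap.exists_leftInverse_of_injective _ hinj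
  have hrank : Module.finrank K W = A.rank := by
    have h1 := Submodule.finrank_add_eq_of_isCompl hW
    have h2 := LinearMap.finrank_range_add_finrank_ker A.mulVecLin
    rw [Matrix.rank]
    omega
  let b := Module.finBasis K W
  let N := LinearMap.toMatrix b b (g ∘ₗ B.mulVecLin ∘ₗ W.subtype)
  refine (finite_det_one_add N).subset ?_
  intro t ht
  by_contra hdet
  have hdet' : (1 + t • N).det ≠ 0 := hdet
  have hlt : (A + t • B).rank < A.rank := ht
  -- the endomorphism `g ∘ (A + tB)` of `W` is `1 + t N`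
  have hM : LinearMap.toMatrix b b (g ∘ₗ (A + t • B).mulVecLin ∘ₗ W.subtype) = 1 + t • N := by
    have : g ∘ₗ (A + t • B).mulVecLin ∘ₗ W.subtype
        = LinearMap.id + t • (g ∘ₗ B.mulVecLin ∘ₗ W.subtype) := by
      rw [← hg]
      ext w
      simp [LinearMap.add_apply]
    rw [this, map_add, map_smul, LinearMap.toMatrix_id]
  have hker : Function.Injective ((A + t • B).mulVecLin ∘ₗ W.subtype) := by
    have h1 : Function.Injective (g ∘ₗ (A + t • B).mulVecLin ∘ₗ W.subtype) := by
      have h2 : IsUnit (LinearMap.det (g ∘ₗ (A + t • B).mulVecLin ∘ₗ W.subtype)) := by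
        rw [← LinearMap.det_toMatrix b, hM]
        exact isUnit_iff_ne_zero.mpr hdet'
      have h3 := (LinearMap.isUnit_iff_isUnit_det _).mpr h2
      exact ((Module.End.isUnit_iff _).mp h3).injective
    intro x y hxy
    apply h1
    simp only [LinearMap.comp_apply] at hxy ⊢
    rw [hxy]
  have h4 : Module.finrank K W ≤ (A + t • B).rank := by
    rw [Matrix.rank]
    have h5 := LinearMap.finrank_range_of_inj hker
    rw [← h5]
    exact Submodule.finrank_mono (LinearMap.range_comp_le_range _ _)
  omega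


open scoped Classical

variable {V : Type*} [Fintype V]

/-- `P` is supported on the diagonal and the arcs. -/
def SuppB {K : Type*} [Zero K] (A : V → V → Prop) (P : Matrix V V K) : Prop :=
  ∀ u x, P u x ≠ 0 → u = x ∨ A u x

/-- the ordered pairs `(x, w)` at distance at least `3` from `w` to `x` -/
abbrev FarT (A : V → V → Prop) := {p : V × V // Far A p.1 p.2}

/-- the nonadjacent ordered pairs -/
abbrev NadT (A : V → V → Prop) := {p : V × V // Nad A p.1 p.2}

/-- the second matrix, `W ↦ (W₁ Q - P W₂)` -/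
noncomputable def M1 {K : Type*} [Field K] (A : V → V → Prop) (P Q : Matrix V V K) :
    Matrix (FarT A) (NadT A ⊕ NadT A) K :=
  Matrix.of fun c r => match r with
    | Sum.inl r => if r.1.1 = c.1.2 then Q r.1.2 c.1.1 else 0
    | Sum.inr r => if r.1.2 = c.1.1 then - P c.1.2 r.1.1 else 0

omit [Fintype V] in
/-- the key membership: all terms of `P Z Q` at a far position pass through `N` -/
lemma nad_of_far {A : V → V → Prop} {x w u v : V}
    (h1 : Far A x w) (h2 : Far A v u) (hP : u = x ∨ A u x) (hQ : w = v ∨ A w v) :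
    Nad A u w ∧ Nad A x v := by
  obtain ⟨a1, a2, a3⟩ := h1
  obtain ⟨b1, b2, b3⟩ := h2
  refine ⟨⟨?_, ?_, ?_⟩, ⟨?_, ?_, ?_⟩⟩
  · rintro rfl
    rcases hP with h | h
    · exact a1 h.symm
    · exact a2 h
  · intro h
    rcases hQ with rfl | h'
    · exact b2 h
    · exact b3 w h h'
  · intro h
    rcases hP with rfl | h'
    · exact a2 h
    · exact a3 u h h'
  · rintro rfl
    rcases hP with h | h
    · exact b1 h.symm
    · exact b2 h
  · intro h
    rcases hP with rfl | h'
    · exact b2 h
    · exact b3 x h' h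
  · intro h
    rcases hQ with rfl | h'
    · exact a2 h
    · exact a3 v h' h

lemma M1_mul_M0 {K : Type*} [Field K] {A : V → V → Prop} {P Q : Matrix V V K} (hP : SuppB A P) (hQ : SuppB A Q) : M1 A P Q * M0 A P Q = 0 := by
  ext c d
  obtain ⟨⟨v, u⟩, hc⟩ := c
  obtain ⟨⟨x, w⟩, hd⟩ := d
  simp only at hc hd
  rw [Matrix.mul_apply, Fintype.sum_sum_type, Matrix.zero_apply]
  simp only [M1, M0, Matrix.of_apply, Sum.elim_inl, Sum.elim_inr]
  by_cases hz : P u x = 0 ∨ Q w v = 0
  · -- all terms vanish
    have e1 : ∑ r : NadT A, (if r.1.1 = u then Q r.1.2 v else 0) *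
        (if r.1.2 = w then P r.1.1 x else 0) = 0 := by
      refine Finset.sum_eq_zero fun r _ => ?_
      split_ifs with h1 h2
      · rw [h1, h2]
        rcases hz with h | h <;> simp [h]
      all_goals simp
    have e2 : ∑ r : NadT A, (if r.1.2 = v then - P u r.1.1 else 0) *
        (if r.1.1 = x then Q w r.1.2 else 0) = 0 := by
      refine Finset.sum_eq_zero fun r _ => ?_
      split_ifs with h1 h2
      · rw [h1, h2]
        rcases hz with h | h <;> simp [h]
      all_goals simp
    rw [e1, e2, add_zero]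
  · push Not at hz
    obtain ⟨hn1, hn2⟩ := nad_of_far hd hc (hP _ _ hz.1) (hQ _ _ hz.2)
    have e1 : ∑ r : NadT A, (if r.1.1 = u then Q r.1.2 v else 0) *
        (if r.1.2 = w then P r.1.1 x else 0) = Q w v * P u x := by
      rw [Finset.sum_eq_single (⟨(u, w), hn1⟩ : NadT A)]
      · simp
      · intro r _ hr
        split_ifs with h1 h2
        · exact absurd (Subtype.ext (Prod.ext h1 h2)) hr
        all_goals simp
      · intro h
        exact absurd (Finset.mem_univ _) h
    have e2 : ∑ r : NadT A, (if r.1.2 = v then - P u r.1.1 else 0) *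
        (if r.1.1 = x then Q w r.1.2 else 0) = - (Q w v * P u x) := by
      rw [Finset.sum_eq_single (⟨(x, v), hn2⟩ : NadT A)]
      · simp [mul_comm]
      · intro r _ hr
        split_ifs with h1 h2
        · exact absurd (Subtype.ext (Prod.ext h2 h1)) hr
        all_goals simp
      · intro h
        exact absurd (Finset.mem_univ _) h
    rw [e1, e2, add_neg_cancel]

/-- the swap on the nonadjacent pairs -/
def nadSwap (A : V → V → Prop) : NadT A ≃ NadT A where
  toFun p := ⟨(p.1.2, p.1.1), p.2.1.symm, p.2.2.2, p.2.2.1⟩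
  invFun p := ⟨(p.1.2, p.1.1), p.2.1.symm, p.2.2.2, p.2.2.1⟩
  left_inv _ := rfl
  right_inv _ := rfl

/-- `M1 P Q` is the transpose of `M0 Q P` up to the swap and a sign -/
lemma rank_M1 {K : Type*} [Field K] (A : V → V → Prop) (P Q : Matrix V V K) :
    (M1 A P Q).rank = (M0 A Q P).rank := by
  -- the sign matrix
  let f : NadT A ⊕ NadT A → K := Sum.elim (fun _ => (1 : K)) (fun _ => -1)
  let G : Matrix (NadT A ⊕ NadT A) (NadT A ⊕ NadT A) K := Matrix.diagonal f
  let T : Matrix (FarT A) (NadT A ⊕ NadT A) K := Matrix.transpose ((M0 A Q P).submatrix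
      (Equiv.sumCongr (nadSwap A) (nadSwap A)) (Equiv.refl _))
  have key : M1 A P Q = T * G := by
    ext c r
    rw [Matrix.mul_diagonal]
    rcases r with r | r
    · simp only [T, f, M1, M0, Matrix.of_apply, Matrix.transpose_apply, Matrix.submatrix_apply,
        Equiv.sumCongr_apply, Sum.map_inl, nadSwap, Equiv.coe_fn_mk, Equiv.refl_apply,
        Sum.elim_inl, mul_one]
    · simp only [T, f, M1, M0, Matrix.of_apply, Matrix.transpose_apply, Matrix.submatrix_apply,
        Equiv.sumCongr_apply, Sum.map_inr, nadSwap, Equiv.coe_fn_mk, Equiv.refl_apply,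
        Sum.elim_inr, mul_neg, mul_one]
      split_ifs <;> simp
  have hu : IsUnit G.det := by
    rw [Matrix.det_diagonal, isUnit_iff_ne_zero, Finset.prod_ne_zero_iff]
    rintro (r | r) _ <;> simp [f]
  rw [key, Matrix.rank_mul_eq_left_of_isUnit_det G T hu, Matrix.rank_transpose,
    Matrix.rank_submatrix]

/-- the symmetric inequality, for every `P` and `Q` supported on `I ∪ A` -/
lemma rank_add_rank {K : Type*} [Field K] {A : V → V → Prop}
    {P Q : Matrix V V K} (hP : SuppB A P) (hQ : SuppB A Q) :
    (M0 A P Q).rank + (M0 A Q P).rank ≤ 2 * Fintype.card (NadT A) := by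
  have h := Matrix.rank_add_rank_le_card_of_mul_eq_zero (M1_mul_M0 hP hQ)
  rw [rank_M1, Fintype.card_sum] at h
  omega

omit [Fintype V] in
/-- `M0` is affine in `(P, Q)` -/
lemma M0_line {K : Type*} [Field K] (A : V → V → Prop) (P Q P' Q' : Matrix V V K) (t : K) :
    M0 A (P + t • P') (Q + t • Q') = M0 A P Q + t • M0 A P' Q' := by
  ext r c
  rcases r with r | r
  · simp only [M0, Matrix.add_apply, Matrix.smul_apply, Sum.elim_inl]
    split_ifs <;> simp
  · simp only [M0, Matrix.add_apply, Matrix.smul_apply, Sum.elim_inr]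
    split_ifs <;> simp

omit [Fintype V] in
lemma SuppB.line {K : Type*} [Field K] {A : V → V → Prop} {P P' : Matrix V V K}
    (hP : SuppB A P) (hP' : SuppB A P') (t : K) : SuppB A (P + t • (P' - P)) := by
  intro u x h
  by_contra hc
  have h1 : P u x = 0 := by
    by_contra h1
    exact hc (hP _ _ h1)
  have h2 : P' u x = 0 := by
    by_contra h2
    exact hc (hP' _ _ h2)
  apply h
  simp [h1, h2]

/-- (P4): for every `P`, `Q` supported on `I ∪ A`, the rank of `Z ↦ ((P Z)|N, (Z Q)|N)` on the
matrices supported on `FarR` is at most the number of nonadjacent ordered pairs. -/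
theorem rankM0_le {K : Type*} [Field K] [Infinite K] {A : V → V → Prop}
    {P Q : Matrix V V K} (hP : SuppB A P) (hQ : SuppB A Q) :
    (M0 A P Q).rank ≤ Fintype.card (NadT A) := by
  by_contra hcon
  push Not at hcon
  -- the line from `(P, Q)` to `(Q, P)`
  have f1 := finite_rank_lt (M0 A P Q) (M0 A (Q - P) (P - Q))
  have f2 : {t : K | (M0 A (Q + t • (P - Q)) (P + t • (Q - P))).rank < (M0 A P Q).rank}.Finite := by
    have := (f1.image fun t => 1 - t)
    refine this.subset ?_
    intro t ht
    refine ⟨1 - t, ?_, by simp⟩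
    simp only [Set.mem_ofPred_eq] at ht ⊢
    rw [← M0_line]
    have e1 : P + (1 - t) • (Q - P) = Q + t • (P - Q) := by
      ext i j
      simp only [Matrix.add_apply, Matrix.smul_apply, Matrix.sub_apply, smul_eq_mul]
      ring
    have e2 : Q + (1 - t) • (P - Q) = P + t • (Q - P) := by
      ext i j
      simp only [Matrix.add_apply, Matrix.smul_apply, Matrix.sub_apply, smul_eq_mul]
      ring
    rw [e1, e2]
    exact ht
  obtain ⟨t, ht⟩ := (f1.union f2).exists_notMem
  simp only [Set.mem_union, Set.mem_ofPred_eq, not_or, not_lt] at ht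
  obtain ⟨g1, g2⟩ := ht
  rw [← M0_line] at g1
  have h := rank_add_rank (hP.line hQ t) (hQ.line hP t)
  omega

end P4_

/-- (P4) -/
theorem specP4 : SpecP4 := by
  intro V _ A P Q hP hQ
  exact P4_.rankM0_le hP hQ

end Pool.Agent.Lib.MP_83608f_co.CN
end

section
/-!
# MP_83608f_co, part CN: module UNC, uncrossing
-/
set_option autoImplicit false

open Classical

noncomputable section

namespace Pool.Agent.Lib.MP_83608f_co.CN.UNC_

variable {V : Type} [Fintype V]

lemma outN_union (A : V → V → Prop) (F G : Finset V) : outN A (F ∪ G) = outN A F ∪ outN A G := by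
  ext v
  simp only [outN, Finset.mem_filter, Finset.mem_univ, true_and, Finset.mem_union]
  constructor
  · rintro ((h | h) | ⟨u, hu | hu, h⟩)
    · exact Or.inl (Or.inl h)
    · exact Or.inr (Or.inl h)
    · exact Or.inl (Or.inr ⟨u, hu, h⟩)
    · exact Or.inr (Or.inr ⟨u, hu, h⟩)
  · rintro ((h | ⟨u, hu, h⟩) | (h | ⟨u, hu, h⟩))
    · exact Or.inl (Or.inl h)
    · exact Or.inr ⟨u, Or.inl hu, h⟩
    · exact Or.inl (Or.inr h)
    · exact Or.inr ⟨u, Or.inr hu, h⟩

lemma outN_inter (A : V → V → Prop) (F G : Finset V) : outN A (F ∩ G) ⊆ outN A F ∩ outN A G := by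
  intro v
  simp only [outN, Finset.mem_filter, Finset.mem_univ, true_and, Finset.mem_inter]
  rintro (⟨h1, h2⟩ | ⟨u, ⟨h1, h2⟩, h⟩)
  · exact ⟨Or.inl h1, Or.inl h2⟩
  · exact ⟨Or.inr ⟨u, h1, h⟩, Or.inr ⟨u, h2, h⟩⟩

lemma sbm (A : V → V → Prop) (F G : Finset V) :
    (outN A (F ∪ G)).card + (outN A (F ∩ G)).card ≤ (outN A F).card + (outN A G).card := by
  have h1 := Finset.card_union_add_card_inter (outN A F) (outN A G)
  have h2 := Finset.card_le_card (outN_inter A F G)
  rw [outN_union]
  omega

/-- all nonempty subsets of `F` expand -/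
def Gd (A : V → V → Prop) (k : ℕ) (F : Finset V) : Prop :=
  ∀ F' : Finset V, F' ⊆ F → F'.Nonempty → F'.card + k ≤ (outN A F').card

lemma exists_max (A : V → V → Prop) (k : ℕ) :
    ∃ F : Finset V, Gd A k F ∧ ∀ y : V, y ∉ F → ¬ Gd A k (insert y F) := by
  obtain ⟨F, hF, hmax⟩ := Finset.exists_max_image (Finset.univ.filter fun F : Finset V => Gd A k F) Finset.card
    ⟨∅, by
      simp only [Finset.mem_filter, Finset.mem_univ, true_and]
      intro F' h1 h2
      exact absurd (Finset.subset_empty.1 h1) h2.ne_empty⟩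
  refine ⟨F, (Finset.mem_filter.1 hF).2, ?_⟩
  intro y hy hG
  have h := hmax (insert y F) (Finset.mem_filter.2 ⟨Finset.mem_univ _, hG⟩)
  rw [Finset.card_insert_of_notMem hy] at h
  omega

/-- the merging of `T₀` with members which meet it -/
lemma merge (A : V → V → Prop) (k : ℕ) (F Y T₀ : Finset V) (hF : Gd A k F)
    (hT₀ : (Y ∩ T₀).card + (outN A T₀).card ≤ T₀.card + k) (ℳ : Finset (Finset V))
    (hdis : (ℳ : Set (Finset V)).PairwiseDisjoint id)
    (hM : ∀ B ∈ ℳ, (Y ∩ B).card + (outN A B).card ≤ B.card + k ∧ (B ∩ T₀).Nonempty ∧ B ∩ T₀ ⊆ F) :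
    (Y ∩ (T₀ ∪ ℳ.biUnion id)).card + (outN A (T₀ ∪ ℳ.biUnion id)).card ≤ (T₀ ∪ ℳ.biUnion id).card + k := by
  induction ℳ using Finset.induction_on with
  | empty => simpa using hT₀
  | insert B ℳ hB ih =>
    have ih' := ih (hdis.subset (by simp)) (fun C hC => hM C (Finset.mem_insert_of_mem hC))
    obtain ⟨h1, h2, h3⟩ := hM B (Finset.mem_insert_self B ℳ)
    set T := T₀ ∪ ℳ.biUnion id with hT
    have e1 : T₀ ∪ (insert B ℳ).biUnion id = B ∪ T := by
      rw [Finset.biUnion_insert, hT]
      simp only [id]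
      rw [← Finset.union_assoc, Finset.union_comm T₀ B, Finset.union_assoc]
    have e2 : B ∩ T = B ∩ T₀ := by
      rw [hT, Finset.inter_union_distrib_left]
      have : B ∩ ℳ.biUnion id = ∅ := by
        rw [← Finset.disjoint_iff_inter_eq_empty, Finset.disjoint_biUnion_right]
        intro C hC
        have hne : B ≠ C := fun h => hB (h ▸ hC)
        exact hdis (by simp) (by simp [hC]) hne
      rw [this, Finset.union_empty]
    have h4 : (B ∩ T).card + k ≤ (outN A (B ∩ T)).card := by
      rw [e2]; exact hF _ h3 h2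
    have h5 := sbm A B T
    have h6 := Finset.card_union_add_card_inter B T
    have h7 : (Y ∩ (B ∪ T)).card ≤ (Y ∩ B).card + (Y ∩ T).card := by
      rw [Finset.inter_union_distrib_left]
      exact Finset.card_union_le _ _
    rw [e1]
    omega

end Pool.Agent.Lib.MP_83608f_co.CN.UNC_

namespace Pool.Agent.Lib.MP_83608f_co.CN

open UNC_

theorem specUNC : SpecUNC := by
  intro V _ A k
  obtain ⟨F, hF, hmax⟩ := exists_max A k
  have hT : ∀ y : V, y ∉ F → ∃ T : Finset V, T ⊆ insert y F ∧ y ∈ T ∧ (outN A T).card + 1 ≤ T.card + k := by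
    intro y hy
    have h := hmax y hy
    unfold Gd at h
    push Not at h
    obtain ⟨T, h1, h2, h3⟩ := h
    refine ⟨T, h1, ?_, by omega⟩
    by_contra hyT
    have h4 : T ⊆ F := fun x hx => by
      rcases Finset.mem_insert.1 (h1 hx) with h | h
      · exact absurd (h ▸ hx) hyT
      · exact h
    have := hF T h4 h2
    omega
  have key : ∀ Y' : Finset V, Disjoint Y' F → ∃ 𝒜 : Finset (Finset V),
      (𝒜 : Set (Finset V)).PairwiseDisjoint id ∧ Y' ⊆ 𝒜.biUnion id ∧
      ∀ T ∈ 𝒜, T ⊆ F ∪ Y' ∧ (Fᶜ ∩ T).card + (outN A T).card ≤ T.card + k := by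
    intro Y'
    induction Y' using Finset.induction_on with
    | empty => intro _; exact ⟨∅, by simp, by simp, by simp⟩
    | insert y Y' hy ih =>
      intro hdisj
      rw [Finset.disjoint_insert_left] at hdisj
      obtain ⟨hyF, hd'⟩ := hdisj
      obtain ⟨𝒜, hA1, hA2, hA3⟩ := ih hd'
      obtain ⟨T₀, t1, t2, t3⟩ := hT y hyF
      have t4 : (Fᶜ ∩ T₀).card ≤ 1 := by
        rw [Finset.card_le_one]
        intro a ha b hb
        have ha' : a = y := by
          rcases Finset.mem_insert.1 (t1 (Finset.mem_inter.1 ha).2) with h | h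
          · exact h
          · exact absurd h (Finset.mem_compl.1 (Finset.mem_inter.1 ha).1)
        have hb' : b = y := by
          rcases Finset.mem_insert.1 (t1 (Finset.mem_inter.1 hb).2) with h | h
          · exact h
          · exact absurd h (Finset.mem_compl.1 (Finset.mem_inter.1 hb).1)
        rw [ha', hb']
      set ℳ := 𝒜.filter fun B => (B ∩ T₀).Nonempty with hℳ
      set T := T₀ ∪ ℳ.biUnion id with hTdef
      have hm : (Fᶜ ∩ T).card + (outN A T).card ≤ T.card + k := by
        refine merge A k F Fᶜ T₀ hF (by omega) ℳ (hA1.subset (Finset.coe_subset.2 (Finset.filter_subset _ _))) ?_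
        intro B hB
        obtain ⟨b1, b2⟩ := Finset.mem_filter.1 hB
        refine ⟨(hA3 B b1).2, b2, ?_⟩
        intro x hx
        obtain ⟨x1, x2⟩ := Finset.mem_inter.1 hx
        rcases Finset.mem_insert.1 (t1 x2) with h | h
        · rcases Finset.mem_union.1 ((hA3 B b1).1 x1) with h' | h'
          · exact h'
          · exact absurd (h ▸ h') hy
        · exact h
      refine ⟨insert T (𝒜.filter fun B => ¬ (B ∩ T₀).Nonempty), ?_, ?_, ?_⟩
      · rw [Finset.coe_insert]
        refine Set.PairwiseDisjoint.insert (hA1.subset (Finset.coe_subset.2 (Finset.filter_subset _ _))) ?_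
        intro B hB _
        obtain ⟨b1, b2⟩ := Finset.mem_filter.1 (Finset.mem_coe.1 hB)
        simp only [id]
        rw [hTdef, Finset.disjoint_union_left]
        refine ⟨?_, ?_⟩
        · rw [Finset.not_nonempty_iff_eq_empty, ← Finset.disjoint_iff_inter_eq_empty] at b2
          exact b2.symm
        · rw [Finset.disjoint_biUnion_left]
          intro C hC
          obtain ⟨c1, c2⟩ := Finset.mem_filter.1 hC
          exact hA1 (by simpa using c1) (by simpa using b1) (fun h => b2 (h ▸ c2))
      · intro x hx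
        rw [Finset.biUnion_insert]
        simp only [id]
        rcases Finset.mem_insert.1 hx with h | h
        · exact Finset.mem_union_left _ (Finset.mem_union_left _ (h ▸ t2))
        · obtain ⟨B, b1, b2⟩ := Finset.mem_biUnion.1 (hA2 h)
          by_cases hB : (B ∩ T₀).Nonempty
          · exact Finset.mem_union_left _ (Finset.mem_union_right _
              (Finset.mem_biUnion.2 ⟨B, Finset.mem_filter.2 ⟨b1, hB⟩, b2⟩))
          · exact Finset.mem_union_right _ (Finset.mem_biUnion.2 ⟨B, Finset.mem_filter.2 ⟨b1, hB⟩, b2⟩)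
      · intro B hB
        rcases Finset.mem_insert.1 hB with h | h
        · subst h
          refine ⟨?_, hm⟩
          rw [hTdef]
          refine Finset.union_subset ?_ ?_
          · intro x hx
            rcases Finset.mem_insert.1 (t1 hx) with h | h
            · exact Finset.mem_union_right _ (h ▸ Finset.mem_insert_self _ _)
            · exact Finset.mem_union_left _ h
          · rw [Finset.biUnion_subset]
            intro C hC
            obtain ⟨c1, _⟩ := Finset.mem_filter.1 hC
            exact (hA3 C c1).1.trans (Finset.union_subset_union_right (Finset.subset_insert _ _))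
        · obtain ⟨b1, _⟩ := Finset.mem_filter.1 h
          exact ⟨(hA3 B b1).1.trans (Finset.union_subset_union_right (Finset.subset_insert _ _)), (hA3 B b1).2⟩
  obtain ⟨𝒜, hA1, hA2, hA3⟩ := key Fᶜ disjoint_compl_left
  refine ⟨Fᶜ, 𝒜, ?_, hA1, hA2, fun T hT => (hA3 T hT).2⟩
  intro F' h1 h2
  refine hF F' ?_ h1
  intro x hx
  by_contra hxF
  exact Finset.disjoint_left.1 h2 hx (Finset.mem_compl.2 hxF)

end Pool.Agent.Lib.MP_83608f_co.CN
end
end

section
/-! MP_83608f_co, part CN, module KERD (helper58): the main estimate with a bound for every column. -/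
set_option autoImplicit false

open Classical

noncomputable section

namespace Pool.Agent.Lib.MP_83608f_co.CN

open KER_

/-- the main estimate with a bound `ν w` for every column -/
theorem kerD (hP4 : SpecP4) (hGEN : SpecGEN) (hHALL : SpecHALL) (V : Type) [Fintype V] (A : V → V → Prop)
    (k : ℕ) (ν : V → ℕ) (Y : Finset V)
    (hdeg : ∀ v, (Finset.univ.filter fun u => A v u).card = k)
    (hexp : ∀ F : Finset V, F.Nonempty → Disjoint F Y → F.card + k ≤ (outN A F).card)
    (hin : ∀ w ∈ Y, ∀ X : Finset V, (∀ x ∈ X, Far A x w) →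
      X.card ≤ ((inN A X).filter fun u => Nad A u w).card + ν w) :
    Fintype.card {p : V × V // Far A p.1 p.2} ≤
      Fintype.card {p : V × V // Nad A p.1 p.2} + ∑ w ∈ Y, ν w := by
  -- the columns in `Y`
  have hS : ∀ w : V, ∃ (S' : Finset V) (f : V → V), (w ∈ Y → S' ⊆ Finset.univ.filter (fun x => Far A x w)) ∧
      (w ∈ Y → (Finset.univ.filter (fun x => Far A x w)).card ≤ S'.card + ν w) ∧ (w ∉ Y → S' = ∅) ∧
      Set.InjOn f S' ∧ ∀ x ∈ S', (f x = x ∨ A (f x) x) ∧ Nad A (f x) w := by
    intro w
    by_cases hw : w ∈ Y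
    · obtain ⟨S', f, h1, h2, h3, h4⟩ := hHALL V (Finset.univ.filter (fun x => Far A x w))
        (fun x => Finset.univ.filter fun u => (u = x ∨ A u x) ∧ Nad A u w) (ν w) (by
          intro X hX
          refine (hin w hw X (fun x hx => (Finset.mem_filter.1 (hX hx)).2)).trans ?_
          refine Nat.add_le_add_right (Finset.card_le_card ?_) (ν w)
          intro u hu
          obtain ⟨u1, u2⟩ := Finset.mem_filter.1 hu
          simp only [inN, Finset.mem_filter, Finset.mem_univ, true_and] at u1
          rw [Finset.mem_biUnion]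
          rcases u1 with h | ⟨x, hx, h⟩
          · exact ⟨u, h, Finset.mem_filter.2 ⟨Finset.mem_univ _, Or.inl rfl, u2⟩⟩
          · exact ⟨x, hx, Finset.mem_filter.2 ⟨Finset.mem_univ _, Or.inr h, u2⟩⟩)
      exact ⟨S', f, fun _ => h1, fun _ => h2, fun h => absurd hw h, h3, fun x hx => (Finset.mem_filter.1 (h4 x hx)).2⟩
    · exact ⟨∅, id, fun h => absurd h hw, fun h => absurd h hw, fun _ => rfl, by simp, by simp⟩
  choose S' f hS1 hS2 hS3 hS4 hS5 using hS
  obtain ⟨P, hP1, hP2⟩ := hGEN V (fun u x => u = x ∨ A u x) V (fun w u => Nad A u w) S' f hS4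
    (fun w x hx => (hS5 w x hx).2) (fun w x hx => (hS5 w x hx).1)
  -- the rows outside `Y`
  have hR : ∀ x : V, ∃ f : V → V, Set.InjOn f (Finset.univ.filter fun w => w ∉ Y ∧ Far A x w : Finset V) ∧
      ∀ w ∈ (Finset.univ.filter fun w => w ∉ Y ∧ Far A x w : Finset V), (f w = w ∨ A w (f w)) ∧ Nad A x (f w) := by
    intro x
    obtain ⟨S'', f, h1, h2, h3, h4⟩ := hHALL V (Finset.univ.filter fun w => w ∉ Y ∧ Far A x w)
      (fun w => Finset.univ.filter fun v => (v = w ∨ A w v) ∧ Nad A x v) 0 (by
        intro F hF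
        rcases F.eq_empty_or_nonempty with h0 | h0
        · simp [h0]
        have hd : Disjoint F Y := by
          rw [Finset.disjoint_left]
          intro w hw
          exact (Finset.mem_filter.1 (hF hw)).2.1
        have h5 := hexp F h0 hd
        have h6 : outN A F ⊆ (F.biUnion fun w => Finset.univ.filter fun v => (v = w ∨ A w v) ∧ Nad A x v) ∪
            (Finset.univ.filter fun u => A x u) := by
          intro v hv
          simp only [outN, Finset.mem_filter, Finset.mem_univ, true_and] at hv
          rw [Finset.mem_union, Finset.mem_biUnion]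
          by_cases hxv : A x v
          · exact Or.inr (Finset.mem_filter.2 ⟨Finset.mem_univ _, hxv⟩)
          · left
            rcases hv with h | ⟨u, hu, h⟩
            · have hfar := (Finset.mem_filter.1 (hF h)).2.2
              exact ⟨v, h, Finset.mem_filter.2 ⟨Finset.mem_univ _, Or.inl rfl, hfar.1, hxv, hfar.2.1⟩⟩
            · have hfar := (Finset.mem_filter.1 (hF hu)).2.2
              refine ⟨u, hu, Finset.mem_filter.2 ⟨Finset.mem_univ _, Or.inr h, ?_, hxv, hfar.2.2 v h⟩⟩
              rintro rfl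
              exact hfar.2.1 h
        have h7 := (Finset.card_le_card h6).trans (Finset.card_union_le _ _)
        rw [hdeg x] at h7
        omega)
    have h5 : S'' = Finset.univ.filter fun w => w ∉ Y ∧ Far A x w :=
      Finset.eq_of_subset_of_card_le h1 (by simpa using h2)
    subst h5
    exact ⟨f, h3, fun w hw => (Finset.mem_filter.1 (h4 w hw)).2⟩
  choose g hg1 hg2 using hR
  obtain ⟨P', hP'1, hP'2⟩ := hGEN V (fun v w => v = w ∨ A w v) V (fun x v => Nad A x v)
    (fun x => Finset.univ.filter fun w => w ∉ Y ∧ Far A x w) g hg1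
    (fun x w hw => (hg2 x w hw).2) (fun x w hw => (hg2 x w hw).1)
  obtain ⟨Q, hQ⟩ : ∃ Q : Matrix V V ℚ, ∀ w v, Q w v = if w ∈ Y then 0 else P' v w :=
    ⟨fun w v => if w ∈ Y then 0 else P' v w, fun _ _ => rfl⟩
  have hrank := hP4 V A P Q hP1 (by
    intro w v h
    rw [hQ] at h
    by_cases hw : w ∈ Y
    · simp [hw] at h
    · rw [if_neg hw] at h
      rcases hP'1 v w h with h' | h'
      · exact Or.inl h'.symm
      · exact Or.inr h')
  -- the remaining entries
  obtain ⟨T, hT⟩ : ∃ T : Finset (V × V), T = Finset.univ.filter fun p : V × V => p.2 ∈ Y ∧ Far A p.1 p.2 ∧ p.1 ∉ S' p.2 :=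
    ⟨_, rfl⟩
  have hTcard : T.card ≤ ∑ w ∈ Y, ν w := by
    have hmaps : ∀ p ∈ T, p.2 ∈ Y := by
      intro p hp
      rw [hT] at hp
      exact (Finset.mem_filter.1 hp).2.1
    rw [Finset.card_eq_sum_card_fiberwise hmaps]
    refine Finset.sum_le_sum ?_
    · intro w hw
      have h1 : (T.filter fun p => p.2 = w).card ≤
          ((Finset.univ.filter fun x => Far A x w) \ S' w).card := by
        refine Finset.card_le_card_of_injOn Prod.fst ?_ ?_
        · intro p hp
          have hp' := Finset.mem_filter.1 (Finset.mem_coe.1 hp)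
          rw [hT] at hp'
          obtain ⟨q1, q2⟩ := hp'
          obtain ⟨_, q3, q4, q5⟩ := Finset.mem_filter.1 q1
          subst q2
          simp only [Finset.coe_sdiff, Set.mem_sdiff, Finset.mem_coe, Finset.mem_filter, Finset.mem_univ, true_and]
          exact ⟨q4, q5⟩
        · intro p hp q hq hpq
          have hp' := (Finset.mem_filter.1 (Finset.mem_coe.1 hp)).2
          have hq' := (Finset.mem_filter.1 (Finset.mem_coe.1 hq)).2
          exact Prod.ext hpq (hp'.trans hq'.symm)
      have h2 := Finset.card_sdiff_add_card_eq_card (hS1 w hw)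
      have h3 := hS2 w hw
      refine h1.trans ?_
      omega
  have hzero : ∀ Z : {p : V × V // Far A p.1 p.2} → ℚ, (M0 A P Q).mulVec Z = 0 →
      (∀ p ∈ T, ext A Z p.1 p.2 = 0) → Z = 0 := by
    intro Z hZ hZT
    have h1 : ∀ x w, w ∉ Y → ext A Z x w = 0 := by
      intro x w hw
      have := hP'2 x (fun w => if w ∈ Y then 0 else ext A Z x w) (by
        intro w' hw'
        by_cases h : w' ∈ Y
        · simp [h]
        · rw [if_neg h, ext, dif_neg]
          intro hf
          exact hw' (Finset.mem_filter.2 ⟨Finset.mem_univ _, h, hf⟩)) (by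
        intro v hv
        refine (Finset.sum_congr rfl ?_).trans (ker_Q A P Q Z hZ x v hv)
        intro w' _
        rw [hQ]
        by_cases h : w' ∈ Y <;> simp [h]) w
      simpa [hw] using this
    have h2 : ∀ x w, ext A Z x w = 0 := by
      intro x w
      by_cases hw : w ∈ Y
      · refine hP2 w (fun x => ext A Z x w) ?_ (fun u hu => ker_P A P Q Z hZ u w hu) x
        intro x' hx'
        by_cases hf : Far A x' w
        · refine hZT (x', w) ?_
          rw [hT]
          exact Finset.mem_filter.2 ⟨Finset.mem_univ _, hw, hf, hx'⟩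
        · simp only [ext, dif_neg hf]
      · exact h1 x w hw
    funext c
    have := h2 c.1.1 c.1.2
    rw [ext, dif_pos c.2] at this
    simpa using this
  have hker : Module.finrank ℚ (LinearMap.ker (M0 A P Q).mulVecLin) ≤ T.card := by
    let φ : LinearMap.ker (M0 A P Q).mulVecLin →ₗ[ℚ] (T → ℚ) :=
      { toFun := fun z t => ext A z.1 t.1.1 t.1.2
        map_add' := by
          intro z z'
          funext t
          simp only [ext, Submodule.coe_add, Pi.add_apply]
          split_ifs <;> simp
        map_smul' := by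
          intro c z
          funext t
          simp only [ext, Submodule.coe_smul, Pi.smul_apply, RingHom.id_apply]
          split_ifs <;> simp }
    have hφ : Function.Injective φ := by
      rw [← LinearMap.ker_eq_bot, LinearMap.ker_eq_bot']
      intro z hz
      apply Subtype.ext
      refine hzero z.1 ?_ ?_
      · have := z.2
        rwa [LinearMap.mem_ker, Matrix.mulVecLin_apply] at this
      · intro p hp
        exact congrFun hz ⟨p, hp⟩
    have := LinearMap.finrank_le_finrank_of_injective hφ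
    rwa [Module.finrank_fintype_fun_eq_card, Fintype.card_coe] at this
  have hrn := LinearMap.finrank_range_add_finrank_ker (M0 A P Q).mulVecLin
  rw [Module.finrank_fintype_fun_eq_card] at hrn
  have hrk : (M0 A P Q).rank = Module.finrank ℚ (LinearMap.range (M0 A P Q).mulVecLin) := rfl
  rw [← hrk] at hrn
  omega

end Pool.Agent.Lib.MP_83608f_co.CN
end
end

section
/-!
# MP_83608f_co, part CN: the kernel reduction for a pair of relations (helper91)

For matrices `P` supported on `R` and `Q` supported on `B` let `M0P R B P Q` be the linear map `Z ↦ ((P Z)|N, (Z Q)|N')` on the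
matrices `Z` supported on `FarP R B`, where `N = NadP R B` and `N'` is its transpose.  Then for all `P₀, P₁` and `Q₀, Q₁`
`rank M0P R B P₀ Q₀ + rank M0P R⁻¹ B⁻¹ P₁ᵀ Q₁ᵀ ≤ 2 |N|`.
-/
set_option autoImplicit false

open Classical

noncomputable section

namespace Pool.Agent.Lib.MP_83608f_co.CN

namespace PP4_

open P4_ (finite_rank_lt)

variable {V : Type}

/-- the far pairs -/
abbrev FarPT (R B : V → V → Prop) := {p : V × V // FarP R B p.1 p.2}

/-- the pairs in `NadP` -/
abbrev NadPT (R B : V → V → Prop) := {p : V × V // NadP R B p.1 p.2}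

/-- the pairs in the transpose of `NadP` -/
abbrev NadPT' (R B : V → V → Prop) := {p : V × V // NadP R B p.2 p.1}

/-- the matrix of `Z ↦ ((P Z)|N, (Z Q)|N')` -/
def M0P (R B : V → V → Prop) (P Q : Matrix V V ℚ) : Matrix (NadPT R B ⊕ NadPT' R B) (FarPT R B) ℚ :=
  fun r c => Sum.elim (fun r : NadPT R B => if r.1.2 = c.1.2 then P r.1.1 c.1.1 else 0)
    (fun r : NadPT' R B => if r.1.1 = c.1.1 then Q c.1.2 r.1.2 else 0) r

/-- the second matrix `(S, T) ↦ (S Q - P T)` -/
def M1P (R B : V → V → Prop) (P Q : Matrix V V ℚ) :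
    Matrix (FarPT (flip R) (flip B)) (NadPT R B ⊕ NadPT' R B) ℚ :=
  fun c r => Sum.elim (fun r : NadPT R B => if r.1.1 = c.1.1 then Q r.1.2 c.1.2 else 0)
    (fun r : NadPT' R B => if r.1.2 = c.1.2 then - P c.1.1 r.1.1 else 0) r

lemma nad_of_far {R B : V → V → Prop} {x w u v : V} (h1 : FarP R B x w)
    (h2 : FarP (flip R) (flip B) u v) (hP : R u x) (hQ : B w v) :
    NadP R B u w ∧ NadP R B v x :=
  ⟨⟨h2 w hQ, fun h => h1 u h hP⟩, ⟨h1 v hQ, fun h => h2 x h hP⟩⟩

lemma M1P_mul_M0P [Fintype V] {R B : V → V → Prop} {P Q : Matrix V V ℚ} (hP : ∀ u x, P u x ≠ 0 → R u x)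
    (hQ : ∀ w v, Q w v ≠ 0 → B w v) : M1P R B P Q * M0P R B P Q = 0 := by
  ext c d
  obtain ⟨⟨u, v⟩, hc⟩ := c
  obtain ⟨⟨x, w⟩, hd⟩ := d
  simp only at hc hd
  rw [Matrix.mul_apply, Fintype.sum_sum_type, Matrix.zero_apply]
  simp only [M1P, M0P, Sum.elim_inl, Sum.elim_inr]
  by_cases hz : P u x = 0 ∨ Q w v = 0
  · have e1 : ∑ r : NadPT R B, (if r.1.1 = u then Q r.1.2 v else 0) *
        (if r.1.2 = w then P r.1.1 x else 0) = 0 := by
      refine Finset.sum_eq_zero fun r _ => ?_
      split_ifs with h1 h2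
      · rw [h1, h2]
        rcases hz with h | h <;> simp [h]
      all_goals simp
    have e2 : ∑ r : NadPT' R B, (if r.1.2 = v then - P u r.1.1 else 0) *
        (if r.1.1 = x then Q w r.1.2 else 0) = 0 := by
      refine Finset.sum_eq_zero fun r _ => ?_
      split_ifs with h1 h2
      · rw [h1, h2]
        rcases hz with h | h <;> simp [h]
      all_goals simp
    rw [e1, e2, add_zero]
  · push Not at hz
    obtain ⟨hn1, hn2⟩ := nad_of_far hd hc (hP _ _ hz.1) (hQ _ _ hz.2)
    have e1 : ∑ r : NadPT R B, (if r.1.1 = u then Q r.1.2 v else 0) *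
        (if r.1.2 = w then P r.1.1 x else 0) = Q w v * P u x := by
      rw [Finset.sum_eq_single (⟨(u, w), hn1⟩ : NadPT R B)]
      · simp
      · intro r _ hr
        split_ifs with h1 h2
        · exact absurd (Subtype.ext (Prod.ext h1 h2)) hr
        all_goals simp
      · intro h
        exact absurd (Finset.mem_univ _) h
    have e2 : ∑ r : NadPT' R B, (if r.1.2 = v then - P u r.1.1 else 0) *
        (if r.1.1 = x then Q w r.1.2 else 0) = - (Q w v * P u x) := by
      rw [Finset.sum_eq_single (⟨(x, v), hn2⟩ : NadPT' R B)]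
      · simp [mul_comm]
      · intro r _ hr
        split_ifs with h1 h2
        · exact absurd (Subtype.ext (Prod.ext h2 h1)) hr
        all_goals simp
      · intro h
        exact absurd (Finset.mem_univ _) h
    rw [e1, e2, add_neg_cancel]

/-- `M1P R B P Q` is, up to a permutation and signs, the transpose of `M0P` for the reversed relations. -/
lemma rank_M1P [Fintype V] (R B : V → V → Prop) (P Q : Matrix V V ℚ) :
    (M1P R B P Q).rank = (M0P (flip R) (flip B) P.transpose Q.transpose).rank := by
  let f : NadPT R B ⊕ NadPT' R B → ℚ := Sum.elim (fun _ => (1 : ℚ)) (fun _ => -1)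
  let G : Matrix (NadPT R B ⊕ NadPT' R B) (NadPT R B ⊕ NadPT' R B) ℚ := Matrix.diagonal f
  let E : NadPT R B ⊕ NadPT' R B ≃ NadPT (flip R) (flip B) ⊕ NadPT' (flip R) (flip B) :=
    Equiv.sumComm _ _
  let T : Matrix (FarPT (flip R) (flip B)) (NadPT R B ⊕ NadPT' R B) ℚ :=
    Matrix.transpose ((M0P (flip R) (flip B) P.transpose Q.transpose).submatrix E (Equiv.refl _))
  have key : M1P R B P Q = T * G := by
    ext c r
    rw [Matrix.mul_diagonal]
    rcases r with r | r
    · simp only [T, f, E, M1P, M0P, Matrix.transpose_apply, Matrix.submatrix_apply,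
        Equiv.refl_apply, Sum.elim_inl, mul_one]
      rfl
    · simp only [T, f, E, M1P, M0P, Matrix.transpose_apply, Matrix.submatrix_apply,
        Equiv.refl_apply, Sum.elim_inr, mul_neg, mul_one]
      change (if r.1.2 = c.1.2 then - P c.1.1 r.1.1 else 0) = -(if r.1.2 = c.1.2 then P c.1.1 r.1.1 else 0)
      split_ifs <;> simp
  have hu : IsUnit G.det := by
    rw [Matrix.det_diagonal, isUnit_iff_ne_zero, Finset.prod_ne_zero_iff]
    rintro (r | r) _ <;> simp [f]
  rw [key, Matrix.rank_mul_eq_left_of_isUnit_det G T hu, Matrix.rank_transpose,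
    Matrix.rank_submatrix]

lemma card_NadPT' [Fintype V] (R B : V → V → Prop) : Fintype.card (NadPT' R B) = Fintype.card (NadPT R B) := by
  refine Fintype.card_congr ⟨fun p => ⟨(p.1.2, p.1.1), p.2⟩, fun p => ⟨(p.1.2, p.1.1), p.2⟩, fun _ => rfl, fun _ => rfl⟩

lemma rank_add_rank [Fintype V] {R B : V → V → Prop} {P Q : Matrix V V ℚ} (hP : ∀ u x, P u x ≠ 0 → R u x)
    (hQ : ∀ w v, Q w v ≠ 0 → B w v) :
    (M0P R B P Q).rank + (M0P (flip R) (flip B) P.transpose Q.transpose).rank ≤
      2 * Fintype.card (NadPT R B) := by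
  have h := Matrix.rank_add_rank_le_card_of_mul_eq_zero (M1P_mul_M0P hP hQ)
  rw [rank_M1P, Fintype.card_sum, card_NadPT'] at h
  omega

lemma M0P_line (R B : V → V → Prop) (P Q P' Q' : Matrix V V ℚ) (t : ℚ) :
    M0P R B (P + t • P') (Q + t • Q') = M0P R B P Q + t • M0P R B P' Q' := by
  ext r c
  rcases r with r | r
  · simp only [M0P, Matrix.add_apply, Matrix.smul_apply, Sum.elim_inl]
    split_ifs <;> simp
  · simp only [M0P, Matrix.add_apply, Matrix.smul_apply, Sum.elim_inr]
    split_ifs <;> simp

lemma supp_line {S : V → V → Prop} {P P' : Matrix V V ℚ} (hP : ∀ u x, P u x ≠ 0 → S u x)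
    (hP' : ∀ u x, P' u x ≠ 0 → S u x) (t : ℚ) : ∀ u x, (P + t • (P' - P)) u x ≠ 0 → S u x := by
  intro u x h
  by_contra hc
  have h1 : P u x = 0 := by
    by_contra h1
    exact hc (hP _ _ h1)
  have h2 : P' u x = 0 := by
    by_contra h2
    exact hc (hP' _ _ h2)
  apply h
  simp [h1, h2]

/-- **PAIR P4** -/
theorem pp4 [Fintype V] {R B : V → V → Prop} {P Q P' Q' : Matrix V V ℚ} (hP : ∀ u x, P u x ≠ 0 → R u x)
    (hQ : ∀ w v, Q w v ≠ 0 → B w v) (hP' : ∀ u x, P' u x ≠ 0 → R u x) (hQ' : ∀ w v, Q' w v ≠ 0 → B w v) :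
    (M0P R B P Q).rank + (M0P (flip R) (flip B) P'.transpose Q'.transpose).rank ≤
      2 * Fintype.card (NadPT R B) := by
  have f1 := finite_rank_lt (M0P R B P Q) (M0P R B (P' - P) (Q' - Q))
  have f2 : {t : ℚ | (M0P (flip R) (flip B) (P + t • (P' - P)).transpose (Q + t • (Q' - Q)).transpose).rank <
      (M0P (flip R) (flip B) P'.transpose Q'.transpose).rank}.Finite := by
    have f3 := finite_rank_lt (M0P (flip R) (flip B) P'.transpose Q'.transpose)
      (M0P (flip R) (flip B) (P - P').transpose (Q - Q').transpose)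
    have := (f3.image fun t => 1 - t)
    refine this.subset ?_
    intro t ht
    refine ⟨1 - t, ?_, by simp⟩
    simp only [Set.mem_ofPred_eq] at ht ⊢
    rw [← M0P_line]
    have e1 : P'.transpose + (1 - t) • (P - P').transpose = (P + t • (P' - P)).transpose := by
      ext i j
      simp only [Matrix.add_apply, Matrix.smul_apply, Matrix.sub_apply, Matrix.transpose_apply, smul_eq_mul]
      ring
    have e2 : Q'.transpose + (1 - t) • (Q - Q').transpose = (Q + t • (Q' - Q)).transpose := by
      ext i j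
      simp only [Matrix.add_apply, Matrix.smul_apply, Matrix.sub_apply, Matrix.transpose_apply, smul_eq_mul]
      ring
    rw [e1, e2]
    exact ht
  obtain ⟨t, ht⟩ := (f1.union f2).exists_notMem
  simp only [Set.mem_union, Set.mem_ofPred_eq, not_or, not_lt] at ht
  obtain ⟨g1, g2⟩ := ht
  rw [← M0P_line] at g1
  have h := rank_add_rank (supp_line hP hP' t) (supp_line hQ hQ' t)
  omega

end PP4_

end Pool.Agent.Lib.MP_83608f_co.CN
end
end

section
/-!
# MP_83608f_co, part CN: module PKER, the main estimate for a pair of relations (helper91)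
-/
set_option autoImplicit false

open Classical

noncomputable section

namespace Pool.Agent.Lib.MP_83608f_co.CN

namespace PKER_

open PP4_

variable {V : Type} [Fintype V]

/-- extension by zero -/
def ext (R B : V → V → Prop) (Z : FarPT R B → ℚ) (x w : V) : ℚ :=
  if h : FarP R B x w then Z ⟨(x, w), h⟩ else 0

lemma sum_ext (R B : V → V → Prop) (Z : FarPT R B → ℚ) (G : V → V → ℚ) :
    ∑ c : FarPT R B, G c.1.1 c.1.2 * Z c = ∑ x, ∑ w, G x w * ext R B Z x w := by
  rw [← Fintype.sum_prod_type' (fun x w => G x w * ext R B Z x w),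
    ← Fintype.sum_subtype_add_sum_subtype (fun p : V × V => FarP R B p.1 p.2)
      (fun p : V × V => G p.1 p.2 * ext R B Z p.1 p.2)]
  have h1 : ∑ c : {p : V × V // ¬ FarP R B p.1 p.2}, G c.1.1 c.1.2 * ext R B Z c.1.1 c.1.2 = 0 := by
    apply Finset.sum_eq_zero
    intro c _
    rw [ext, dif_neg c.2, mul_zero]
  rw [h1, add_zero]
  apply Finset.sum_congr rfl
  intro c _
  rw [ext, dif_pos c.2]

lemma ker_P (R B : V → V → Prop) (P Q : Matrix V V ℚ) (Z : FarPT R B → ℚ)
    (hZ : (M0P R B P Q).mulVec Z = 0) (u w : V) (h : NadP R B u w) : ∑ x, P u x * ext R B Z x w = 0 := by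
  have h1 := congrFun hZ (Sum.inl ⟨(u, w), h⟩)
  simp only [Matrix.mulVec, dotProduct, M0P, Sum.elim_inl, Pi.zero_apply] at h1
  rw [sum_ext R B Z (fun x w' => if w = w' then P u x else 0)] at h1
  rw [← h1]
  apply Finset.sum_congr rfl
  intro x _
  simp [ite_mul]

lemma ker_Q (R B : V → V → Prop) (P Q : Matrix V V ℚ) (Z : FarPT R B → ℚ)
    (hZ : (M0P R B P Q).mulVec Z = 0) (x v : V) (h : NadP R B v x) : ∑ w, Q w v * ext R B Z x w = 0 := by
  have h1 := congrFun hZ (Sum.inr ⟨(x, v), h⟩)
  simp only [Matrix.mulVec, dotProduct, M0P, Sum.elim_inr, Pi.zero_apply] at h1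
  rw [sum_ext R B Z (fun x' w => if x = x' then Q w v else 0), Finset.sum_comm] at h1
  rw [← h1]
  apply Finset.sum_congr rfl
  intro w _
  simp [ite_mul]

/-- one side of the estimate -/
theorem half (R B : V → V → Prop) (k : ℕ) (ν : V → ℕ) (Y : Finset V)
    (hR : ∀ x, R x x) (hB : ∀ x, B x x)
    (hdeg : ∀ x, (Finset.univ.filter fun v => B x v).card = k + 1)
    (hexp : ∀ F : Finset V, F.Nonempty → Disjoint F Y →
      F.card + k ≤ (Finset.univ.filter fun v => ∃ u ∈ F, B u v).card)
    (hin : ∀ w ∈ Y, ∀ X : Finset V, (∀ x ∈ X, FarP R B x w) →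
      X.card ≤ (Finset.univ.filter fun u => (∃ x ∈ X, R u x) ∧ ¬ R u w).card + ν w) :
    ∃ P Q : Matrix V V ℚ, (∀ u x, P u x ≠ 0 → R u x) ∧ (∀ w v, Q w v ≠ 0 → B w v) ∧
      Fintype.card (FarPT R B) ≤ (M0P R B P Q).rank + ∑ w ∈ Y, ν w := by
  -- the columns in `Y`
  have hS : ∀ w : V, ∃ (S' : Finset V) (f : V → V), (w ∈ Y → S' ⊆ Finset.univ.filter (fun x => FarP R B x w)) ∧
      (w ∈ Y → (Finset.univ.filter (fun x => FarP R B x w)).card ≤ S'.card + ν w) ∧ (w ∉ Y → S' = ∅) ∧
      Set.InjOn f S' ∧ ∀ x ∈ S', R (f x) x ∧ NadP R B (f x) w := by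
    intro w
    by_cases hw : w ∈ Y
    · obtain ⟨S', f, h1, h2, h3, h4⟩ := specHALL V (Finset.univ.filter (fun x => FarP R B x w))
        (fun x => Finset.univ.filter fun u => R u x ∧ ¬ R u w) (ν w) (by
          intro X hX
          refine (hin w hw X (fun x hx => (Finset.mem_filter.1 (hX hx)).2)).trans ?_
          refine Nat.add_le_add_right (Finset.card_le_card ?_) (ν w)
          intro u hu
          obtain ⟨_, ⟨x, hx, u1⟩, u2⟩ := Finset.mem_filter.1 hu
          rw [Finset.mem_biUnion]
          exact ⟨x, hx, Finset.mem_filter.2 ⟨Finset.mem_univ _, u1, u2⟩⟩)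
      refine ⟨S', f, fun _ => h1, fun _ => h2, fun h => absurd hw h, h3, fun x hx => ?_⟩
      have hfar : FarP R B x w := (Finset.mem_filter.1 (h1 hx)).2
      obtain ⟨_, g1, g2⟩ := Finset.mem_filter.1 (h4 x hx)
      exact ⟨g1, g2, fun h => hfar _ h g1⟩
    · exact ⟨∅, id, fun h => absurd h hw, fun h => absurd h hw, fun _ => rfl, by simp, by simp⟩
  choose S' f hS1 hS2 hS3 hS4 hS5 using hS
  obtain ⟨P, hP1, hP2⟩ := specGEN V R V (fun w u => NadP R B u w) S' f hS4
    (fun w x hx => (hS5 w x hx).2) (fun w x hx => (hS5 w x hx).1)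
  -- the rows outside `Y`
  have hRow : ∀ x : V, ∃ f : V → V, Set.InjOn f (Finset.univ.filter fun w => w ∉ Y ∧ FarP R B x w : Finset V) ∧
      ∀ w ∈ (Finset.univ.filter fun w => w ∉ Y ∧ FarP R B x w : Finset V), B w (f w) ∧ NadP R B (f w) x := by
    intro x
    obtain ⟨S'', f, h1, h2, h3, h4⟩ := specHALL V (Finset.univ.filter fun w => w ∉ Y ∧ FarP R B x w)
      (fun w => Finset.univ.filter fun v => B w v ∧ NadP R B v x) 0 (by
        intro F hF
        rcases F.eq_empty_or_nonempty with h0 | h0
        · simp [h0]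
        have hd : Disjoint F Y := by
          rw [Finset.disjoint_left]
          intro w hw
          exact (Finset.mem_filter.1 (hF hw)).2.1
        have h5 := hexp F h0 hd
        have h6 : (Finset.univ.filter fun v => ∃ u ∈ F, B u v) ⊆
            (F.biUnion fun w => Finset.univ.filter fun v => B w v ∧ NadP R B v x) ∪
            ((Finset.univ.filter fun u => B x u).erase x) := by
          intro v hv
          obtain ⟨_, u, hu, h⟩ := Finset.mem_filter.1 hv
          have hfar : FarP R B x u := (Finset.mem_filter.1 (hF hu)).2.2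
          rw [Finset.mem_union, Finset.mem_biUnion]
          by_cases hxv : B x v
          · refine Or.inr (Finset.mem_erase.2 ⟨?_, Finset.mem_filter.2 ⟨Finset.mem_univ _, hxv⟩⟩)
            rintro rfl
            exact hfar v h (hR v)
          · exact Or.inl ⟨u, hu, Finset.mem_filter.2 ⟨Finset.mem_univ _, h, hfar v h, hxv⟩⟩
        have h7 := (Finset.card_le_card h6).trans (Finset.card_union_le _ _)
        rw [Finset.card_erase_of_mem (Finset.mem_filter.2 ⟨Finset.mem_univ _, hB x⟩), hdeg x] at h7
        omega)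
    have h5 : S'' = Finset.univ.filter fun w => w ∉ Y ∧ FarP R B x w :=
      Finset.eq_of_subset_of_card_le h1 (by simpa using h2)
    subst h5
    exact ⟨f, h3, fun w hw => (Finset.mem_filter.1 (h4 w hw)).2⟩
  choose g hg1 hg2 using hRow
  obtain ⟨P', hP'1, hP'2⟩ := specGEN V (fun v w => B w v) V (fun x v => NadP R B v x)
    (fun x => Finset.univ.filter fun w => w ∉ Y ∧ FarP R B x w) g hg1
    (fun x w hw => (hg2 x w hw).2) (fun x w hw => (hg2 x w hw).1)
  obtain ⟨Q, hQ⟩ : ∃ Q : Matrix V V ℚ, ∀ w v, Q w v = if w ∈ Y then 0 else P' v w :=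
    ⟨fun w v => if w ∈ Y then 0 else P' v w, fun _ _ => rfl⟩
  have hQ1 : ∀ w v, Q w v ≠ 0 → B w v := by
    intro w v h
    rw [hQ] at h
    by_cases hw : w ∈ Y
    · simp [hw] at h
    · rw [if_neg hw] at h
      exact hP'1 v w h
  refine ⟨P, Q, hP1, hQ1, ?_⟩
  -- the remaining entries
  obtain ⟨T, hT⟩ : ∃ T : Finset (V × V), T = Finset.univ.filter fun p : V × V => p.2 ∈ Y ∧ FarP R B p.1 p.2 ∧ p.1 ∉ S' p.2 :=
    ⟨_, rfl⟩
  have hTcard : T.card ≤ ∑ w ∈ Y, ν w := by
    have h0 : T.card = ∑ w ∈ Y, (T.filter fun p => p.2 = w).card := by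
      refine Finset.card_eq_sum_card_fiberwise ?_
      intro p hp
      have hp' := Finset.mem_coe.1 hp
      rw [hT] at hp'
      exact Finset.mem_coe.2 (Finset.mem_filter.1 hp').2.1
    rw [h0]
    refine Finset.sum_le_sum ?_
    intro w hw
    have h1 : (T.filter fun p => p.2 = w).card ≤
        ((Finset.univ.filter fun x => FarP R B x w) \ S' w).card := by
      refine Finset.card_le_card_of_injOn Prod.fst ?_ ?_
      · intro p hp
        have hp' := Finset.mem_filter.1 (Finset.mem_coe.1 hp)
        rw [hT] at hp'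
        obtain ⟨q1, q2⟩ := hp'
        obtain ⟨_, q3, q4, q5⟩ := Finset.mem_filter.1 q1
        subst q2
        simp only [Finset.coe_sdiff, Set.mem_sdiff, Finset.mem_coe, Finset.mem_filter, Finset.mem_univ, true_and]
        exact ⟨q4, q5⟩
      · intro p hp q hq hpq
        have hp' := (Finset.mem_filter.1 (Finset.mem_coe.1 hp)).2
        have hq' := (Finset.mem_filter.1 (Finset.mem_coe.1 hq)).2
        exact Prod.ext hpq (hp'.trans hq'.symm)
    have h2 := Finset.card_sdiff_add_card_eq_card (hS1 w hw)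
    have h3 := hS2 w hw
    refine h1.trans ?_
    omega
  have hzero : ∀ Z : FarPT R B → ℚ, (M0P R B P Q).mulVec Z = 0 →
      (∀ p ∈ T, ext R B Z p.1 p.2 = 0) → Z = 0 := by
    intro Z hZ hZT
    have h1 : ∀ x w, w ∉ Y → ext R B Z x w = 0 := by
      intro x w hw
      have := hP'2 x (fun w => if w ∈ Y then 0 else ext R B Z x w) (by
        intro w' hw'
        by_cases h : w' ∈ Y
        · simp [h]
        · rw [if_neg h, ext, dif_neg]
          intro hf
          exact hw' (Finset.mem_filter.2 ⟨Finset.mem_univ _, h, hf⟩)) (by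
        intro v hv
        refine (Finset.sum_congr rfl ?_).trans (ker_Q R B P Q Z hZ x v hv)
        intro w' _
        rw [hQ]
        by_cases h : w' ∈ Y <;> simp [h]) w
      simpa [hw] using this
    have h2 : ∀ x w, ext R B Z x w = 0 := by
      intro x w
      by_cases hw : w ∈ Y
      · refine hP2 w (fun x => ext R B Z x w) ?_ (fun u hu => ker_P R B P Q Z hZ u w hu) x
        intro x' hx'
        by_cases hf : FarP R B x' w
        · refine hZT (x', w) ?_
          rw [hT]
          exact Finset.mem_filter.2 ⟨Finset.mem_univ _, hw, hf, hx'⟩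
        · simp only [ext, dif_neg hf]
      · exact h1 x w hw
    funext c
    have := h2 c.1.1 c.1.2
    rw [ext, dif_pos c.2] at this
    simpa using this
  have hker : Module.finrank ℚ (LinearMap.ker (M0P R B P Q).mulVecLin) ≤ T.card := by
    let φ : LinearMap.ker (M0P R B P Q).mulVecLin →ₗ[ℚ] (T → ℚ) :=
      { toFun := fun z t => ext R B z.1 t.1.1 t.1.2
        map_add' := by
          intro z z'
          funext t
          simp only [ext, Submodule.coe_add, Pi.add_apply]
          split_ifs <;> simp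
        map_smul' := by
          intro c z
          funext t
          simp only [ext, Submodule.coe_smul, Pi.smul_apply, RingHom.id_apply]
          split_ifs <;> simp }
    have hφ : Function.Injective φ := by
      rw [← LinearMap.ker_eq_bot, LinearMap.ker_eq_bot']
      intro z hz
      apply Subtype.ext
      refine hzero z.1 ?_ ?_
      · have := z.2
        rwa [LinearMap.mem_ker, Matrix.mulVecLin_apply] at this
      · intro p hp
        exact congrFun hz ⟨p, hp⟩
    have := LinearMap.finrank_le_finrank_of_injective hφ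
    rwa [Module.finrank_fintype_fun_eq_card, Fintype.card_coe] at this
  have hrn := LinearMap.finrank_range_add_finrank_ker (M0P R B P Q).mulVecLin
  rw [Module.finrank_fintype_fun_eq_card] at hrn
  have hrk : (M0P R B P Q).rank = Module.finrank ℚ (LinearMap.range (M0P R B P Q).mulVecLin) := rfl
  rw [← hrk] at hrn
  omega

end PKER_

/-- **PKER** -/
theorem specPKER : SpecPKER := by
  intro V _ R B k ν ν' Y Y' hR hB hcomm _ hdeg hdeg' hexp hexp' hin hin'
  obtain ⟨P, Q, hP, hQ, h1⟩ := PKER_.half R B k ν Y hR hB hdeg hexp hin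
  have hflip : ∀ x w, FarP (flip R) (flip B) x w ↔ FarP R B w x := by
    intro x w
    constructor
    · intro h y hy1 hy2
      obtain ⟨z, hz1, hz2⟩ := (hcomm w x).2 ⟨y, hy1, hy2⟩
      exact h z hz2 hz1
    · intro h y hy1 hy2
      obtain ⟨z, hz1, hz2⟩ := (hcomm w x).1 ⟨y, hy2, hy1⟩
      exact h z hz1 hz2
  obtain ⟨P', Q', hP', hQ', h2⟩ := PKER_.half (flip R) (flip B) k ν' Y' hR hB hdeg' hexp'
    (fun w hw X hX => hin' w hw X (fun x hx => (hflip x w).1 (hX x hx)))
  have h3 := PP4_.pp4 (P' := P'.transpose) (Q' := Q'.transpose) hP hQ (fun u x h => hP' x u h)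
    (fun w v h => hQ' v w h)
  rw [Matrix.transpose_transpose, Matrix.transpose_transpose] at h3
  have h4 : Fintype.card (PP4_.FarPT (flip R) (flip B)) = Fintype.card (PP4_.FarPT R B) := by
    refine Fintype.card_congr ⟨fun p => ⟨(p.1.2, p.1.1), (hflip _ _).1 p.2⟩,
      fun p => ⟨(p.1.2, p.1.1), (hflip _ _).2 p.2⟩, fun _ => rfl, fun _ => rfl⟩
  rw [h4] at h2
  have h5 : Fintype.card (PP4_.FarPT R B) = Fintype.card {p : V × V // FarP R B p.1 p.2} := rfl
  have h6 : Fintype.card (PP4_.NadPT R B) = Fintype.card {p : V × V // NadP R B p.1 p.2} := rfl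
  rw [h5] at h1 h2
  rw [h6] at h3
  omega

end Pool.Agent.Lib.MP_83608f_co.CN
end
end
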