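import Pool.Agent.Lib.MP_83608f_co.CN.Defs
import Pool.Agent.Lib.MP_83608f_co.EM.Dig
import Pool.Agent.Lib.MP_83608f_co.CN.Dig
import Pool.Agent.Lib.MP_83608f_co.CN.PKER
import Pool.Agent.Lib.MP_83608f_co.CN.GEN
import Pool.Agent.Lib.MP_83608f_co.CN.GOLD

section
/-! MP_83608f_co, part CN, module GM (helper56): minimum out-degree and directed girth, by induction.

If all out-degrees inside `S` are at least `e`, there is no closed walk of length `1, ..., m`, and
`(1 - γ)^(m-1) ≤ γ`, then `e ≤ γ|S|`; more precisely `1 + (in-degree of v in S) + e(1-γ)/γ ≤ |S|` for every `v ∈ S`. -/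
set_option autoImplicit false

open Classical

noncomputable section

namespace Pool.Agent.Lib.MP_83608f_co.CN

open Pool.Agent.Lib.MP_83608f_co.EM (Wk)

/-- no closed walk of length `1, ..., m` -/
def NoCl {V : Type} (A : V → V → Prop) (m : ℕ) : Prop :=
  ∀ j, 1 ≤ j → j ≤ m → ∀ x, ¬ Wk (⟨A⟩ : Digraph V) j x x

/-- the bound `e ≤ γ |T|` if all out-degrees inside `T` are at least `e` -/
def Bd {V : Type} [Fintype V] (A : V → V → Prop) (γ : ℝ) (T : Finset V) : Prop :=
  T.Nonempty → ∀ e : ℕ, (∀ u ∈ T, e ≤ (T.filter fun v => A u v).card) → (e : ℝ) ≤ γ * T.card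

namespace GM_

variable {V : Type} [Fintype V] {A : V → V → Prop} {m : ℕ} {γ : ℝ}

/-- the vertices of `S` which can be reached from `v` inside `S` by a walk of length `1, ..., j` -/
def ball (A : V → V → Prop) (S : Finset V) (v : V) : ℕ → Finset V
  | 0 => ∅
  | j + 1 => S.filter fun z => A v z ∨ ∃ y ∈ ball A S v j, A y z

lemma ball_sub (S : Finset V) (v : V) (j : ℕ) : ball A S v j ⊆ S := by
  cases j with
  | zero => exact Finset.empty_subset _
  | succ j => exact Finset.filter_subset _ _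

lemma ball_mono (S : Finset V) (v : V) (j : ℕ) : ball A S v j ⊆ ball A S v (j + 1) := by
  induction j with
  | zero => exact Finset.empty_subset _
  | succ j ih =>
    intro z hz
    rw [ball, Finset.mem_filter] at hz
    rw [ball, Finset.mem_filter]
    refine ⟨hz.1, ?_⟩
    rcases hz.2 with h | ⟨y, hy, h⟩
    · exact Or.inl h
    · exact Or.inr ⟨y, ih hy, h⟩

lemma ball_walk (S : Finset V) (v : V) (j : ℕ) (z : V) (hz : z ∈ ball A S v j) :
    ∃ i, 1 ≤ i ∧ i ≤ j ∧ Wk (⟨A⟩ : Digraph V) i v z := by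
  induction j generalizing z with
  | zero => exact absurd hz (Finset.notMem_empty _)
  | succ j ih =>
    rw [ball, Finset.mem_filter] at hz
    rcases hz.2 with h | ⟨y, hy, h⟩
    · exact ⟨1, le_refl _, by omega, EM.Wk.one.2 h⟩
    · obtain ⟨i, h1, h2, h3⟩ := ih y hy
      exact ⟨i + 1, by omega, by omega, h3.snoc h⟩

/-- one step: the ball grows -/
lemma ball_step (S : Finset V) (e : ℕ) (hS : ∀ u ∈ S, e ≤ (S.filter fun v => A u v).card)
    (hbd : ∀ T : Finset V, T ⊆ S → T.card < S.card → Bd A γ T) (v : V) (hv : v ∈ S) (j : ℕ)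
    (hvj : v ∉ ball A S v j) :
    (e : ℝ) + (1 - γ) * (ball A S v j).card ≤ (ball A S v (j + 1)).card := by
  classical
  set B := ball A S v j with hB
  rcases B.eq_empty_or_nonempty with h0 | hne
  · rw [h0, Finset.card_empty]
    have h1 : (S.filter fun z => A v z) ⊆ ball A S v (j + 1) := by
      intro z hz
      rw [Finset.mem_filter] at hz
      rw [ball, Finset.mem_filter]
      exact ⟨hz.1, Or.inl hz.2⟩
    have h2 := (hS v hv).trans (Finset.card_le_card h1)
    have h3 : (e : ℝ) ≤ ((ball A S v (j + 1)).card : ℝ) := by exact_mod_cast h2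
    simpa using h3
  · have hBS : B ⊆ S := ball_sub S v j
    have hlt : B.card < S.card := by
      apply Finset.card_lt_card
      refine ⟨hBS, fun h => hvj (h hv)⟩
    obtain ⟨x, hx, hmin⟩ := Finset.exists_min_image B (fun u => (B.filter fun v => A u v).card) hne
    have h1 := hbd B hBS hlt hne (B.filter fun v => A x v).card (fun u hu => hmin u hu)
    -- the out-neighbours of `x` outside of `B`
    have h2 : (S.filter fun z => A x z) ⊆ (B.filter fun z => A x z) ∪ (ball A S v (j + 1) \ B) := by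
      intro z hz
      rw [Finset.mem_filter] at hz
      rw [Finset.mem_union, Finset.mem_filter, Finset.mem_sdiff]
      by_cases hzB : z ∈ B
      · exact Or.inl ⟨hzB, hz.2⟩
      · refine Or.inr ⟨?_, hzB⟩
        rw [ball, Finset.mem_filter]
        exact ⟨hz.1, Or.inr ⟨x, hx, hz.2⟩⟩
    have h3 := (hS x (hBS hx)).trans ((Finset.card_le_card h2).trans (Finset.card_union_le _ _))
    have h4 : (ball A S v (j + 1) \ B).card + B.card = (ball A S v (j + 1)).card :=
      Finset.card_sdiff_add_card_eq_card (ball_mono S v j)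
    have h5 : e + B.card ≤ (B.filter fun v => A x v).card + (ball A S v (j + 1)).card := by omega
    have h6 : (e : ℝ) + B.card ≤ ((B.filter fun v => A x v).card : ℝ) +
        ((ball A S v (j + 1)).card : ℝ) := by exact_mod_cast h5
    linarith

lemma ball_notMem (hcl : NoCl A m) (S : Finset V) (v : V) (j : ℕ) (hj : j ≤ m) :
    v ∉ ball A S v j := by
  intro h
  obtain ⟨i, h1, h2, h3⟩ := ball_walk S v j v h
  exact hcl i h1 (h2.trans hj) v h3

lemma ball_card (hγ : 0 < γ) (hγ1 : γ ≤ 1) (hcl : NoCl A m) (S : Finset V) (e : ℕ)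
    (hS : ∀ u ∈ S, e ≤ (S.filter fun v => A u v).card)
    (hbd : ∀ T : Finset V, T ⊆ S → T.card < S.card → Bd A γ T) (v : V) (hv : v ∈ S) (j : ℕ)
    (hj : j ≤ m) : (e : ℝ) * (1 - (1 - γ) ^ j) ≤ γ * (ball A S v j).card := by
  induction j with
  | zero => simp [ball]
  | succ j ih =>
    have h1 := ih (by omega)
    have h2 := ball_step S e hS hbd v hv j (ball_notMem hcl S v j (by omega))
    have h3 := mul_le_mul_of_nonneg_left h2 hγ.le
    have h4 : 0 ≤ 1 - γ := by linarith
    have h5 := mul_le_mul_of_nonneg_left h1 h4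
    calc (e : ℝ) * (1 - (1 - γ) ^ (j + 1)) = γ * e + (1 - γ) * (e * (1 - (1 - γ) ^ j)) := by ring
      _ ≤ γ * e + (1 - γ) * (γ * (ball A S v j).card) := by linarith
      _ = γ * (e + (1 - γ) * (ball A S v j).card) := by ring
      _ ≤ γ * (ball A S v (j + 1)).card := h3

/-- the in-degree version, from the bound for smaller sets -/
lemma inn_aux (hγ : 0 < γ) (hγ1 : γ ≤ 1) (hm : 1 ≤ m) (hγm : (1 - γ) ^ (m - 1) ≤ γ) (hcl : NoCl A m)
    (S : Finset V) (e : ℕ) (hS : ∀ u ∈ S, e ≤ (S.filter fun v => A u v).card)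
    (hbd : ∀ T : Finset V, T ⊆ S → T.card < S.card → Bd A γ T) (v : V) (hv : v ∈ S) :
    γ * (1 + (S.filter fun u => A u v).card) + e * (1 - γ) ≤ γ * S.card := by
  classical
  set B := ball A S v (m - 1) with hB
  have h1 : (e : ℝ) * (1 - (1 - γ) ^ (m - 1)) ≤ γ * B.card :=
    ball_card hγ hγ1 hcl S e hS hbd v hv (m - 1) (by omega)
  have h2 : (e : ℝ) * (1 - γ) ≤ γ * B.card := by
    have h3 : (e : ℝ) * (1 - γ) ≤ e * (1 - (1 - γ) ^ (m - 1)) := by
      apply mul_le_mul_of_nonneg_left _ (Nat.cast_nonneg _)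
      linarith
    linarith
  have hvB : v ∉ B := ball_notMem hcl S v (m - 1) (by omega)
  have d1 : Disjoint (S.filter fun u => A u v) B := by
    rw [Finset.disjoint_left]
    intro z hz hzB
    rw [Finset.mem_filter] at hz
    obtain ⟨i, f1, f2, f3⟩ := ball_walk S v (m - 1) z hzB
    exact hcl (i + 1) (by omega) (by omega) v (f3.snoc hz.2)
  have d2 : Disjoint {v} ((S.filter fun u => A u v) ∪ B) := by
    rw [Finset.disjoint_singleton_left, Finset.mem_union, Finset.mem_filter]
    rintro (h | h)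
    · exact hcl 1 (le_refl _) hm v (EM.Wk.one.2 h.2)
    · exact hvB h
  have hsub : {v} ∪ ((S.filter fun u => A u v) ∪ B) ⊆ S := by
    intro z hz
    rw [Finset.mem_union, Finset.mem_union, Finset.mem_singleton, Finset.mem_filter] at hz
    rcases hz with h | h | h
    · rw [h]; exact hv
    · exact h.1
    · exact ball_sub S v (m - 1) h
  have h4 := Finset.card_le_card hsub
  rw [Finset.card_union_of_disjoint d2, Finset.card_union_of_disjoint d1,
    Finset.card_singleton] at h4
  have h5 : (1 : ℝ) + ((S.filter fun u => A u v).card + B.card) ≤ S.card := by exact_mod_cast h4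
  have h6 := mul_le_mul_of_nonneg_left h5 hγ.le
  calc γ * (1 + (S.filter fun u => A u v).card) + e * (1 - γ)
      ≤ γ * (1 + (S.filter fun u => A u v).card) + γ * B.card := by linarith
    _ = γ * (1 + ((S.filter fun u => A u v).card + B.card)) := by ring
    _ ≤ γ * S.card := h6

/-- double counting: some vertex of `S` has in-degree at least the minimum out-degree -/
lemma exists_in (S : Finset V) (hne : S.Nonempty) (e : ℕ)
    (hS : ∀ u ∈ S, e ≤ (S.filter fun v => A u v).card) :
    ∃ v ∈ S, e ≤ (S.filter fun u => A u v).card := by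
  by_contra hcon
  push Not at hcon
  have h1 : ∑ v ∈ S, (S.filter fun u => A u v).card = ∑ u ∈ S, (S.filter fun v => A u v).card := by
    simp only [Finset.card_filter]
    exact Finset.sum_comm
  have h2 : ∑ v ∈ S, (S.filter fun u => A u v).card < ∑ _v ∈ S, e :=
    Finset.sum_lt_sum_of_nonempty hne hcon
  have h3 : ∑ _u ∈ S, e ≤ ∑ u ∈ S, (S.filter fun v => A u v).card := Finset.sum_le_sum hS
  omega

theorem bd (hγ : 0 < γ) (hγ1 : γ ≤ 1) (hm : 1 ≤ m) (hγm : (1 - γ) ^ (m - 1) ≤ γ)
    (hcl : NoCl A m) (S : Finset V) : Bd A γ S := by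
  have main : ∀ n : ℕ, ∀ S : Finset V, S.card = n → Bd A γ S := by
    intro n
    induction n using Nat.strong_induction_on with
    | _ n ih =>
      intro S hSn hne e hS
      obtain ⟨v, hv, hin⟩ := exists_in S hne e hS
      have hbd : ∀ T : Finset V, T ⊆ S → T.card < S.card → Bd A γ T := by
        intro T _ hT
        exact ih T.card (by omega) T rfl
      have h1 := inn_aux hγ hγ1 hm hγm hcl S e hS hbd v hv
      have h2 : (e : ℝ) ≤ ((S.filter fun u => A u v).card : ℝ) := by exact_mod_cast hin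
      nlinarith
  exact main S.card S rfl

/-- the in-degree version -/
theorem inn (hγ : 0 < γ) (hγ1 : γ ≤ 1) (hm : 1 ≤ m) (hγm : (1 - γ) ^ (m - 1) ≤ γ) (hcl : NoCl A m)
    (S : Finset V) (e : ℕ) (hS : ∀ u ∈ S, e ≤ (S.filter fun v => A u v).card) (v : V) (hv : v ∈ S) :
    γ * (1 + (S.filter fun u => A u v).card) + e * (1 - γ) ≤ γ * S.card :=
  inn_aux hγ hγ1 hm hγm hcl S e hS (fun T _ _ => bd hγ hγ1 hm hγm hcl T) v hv

end GM_

end Pool.Agent.Lib.MP_83608f_co.CN
end
end

section
/-! MP_83608f_co, part CN, module FING (helper56): the theorem FIN with a general constant `γ`. -/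
set_option autoImplicit false

open Classical

noncomputable section

namespace Pool.Agent.Lib.MP_83608f_co.CN

open FIN_ in
theorem fing (hKER : SpecKER) (hUNC : SpecUNC) (V : Type) [Fintype V] (A : V → V → Prop) (k c : ℕ)
    (hk : 1 ≤ k) (hirr : ∀ v, ¬ A v v) (hor : ∀ u v, A u v → ¬ A v u)
    (hout : ∀ v, (Finset.univ.filter fun u => A v u).card = k)
    (hin : ∀ v, (Finset.univ.filter fun u => A u v).card = k) (hconn : Conn A c)
    (γ : ℝ) (hγ : 0 ≤ γ) (hBd : ∀ T : Finset V, Bd A γ T) :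
    (Fintype.card V : ℝ) * k ≤ (∑ x, (sec A x).card : ℕ) + γ * (k - c : ℕ) * Fintype.card V := by
  classical
  obtain ⟨Y, 𝒜, hY, hdisj, hcov, htight⟩ := hUNC V A k
  have hker := hKER V A k (k - c) Y hout hY
    (fun w _ X hX => column hk hirr hor hout hin hconn w X hX)
  set n := Fintype.card V with hn
  set S := ∑ x, (sec A x).card with hS
  have hfar : Fintype.card {p : V × V // Far A p.1 p.2} + (n * (1 + k) + S) = n * n := by
    rw [card_pairs]
    have h1 : ∑ w : V, ((Finset.univ.filter fun x => Far A x w).card + (1 + k + (sec A w).card)) =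
        ∑ _w : V, n := Finset.sum_congr rfl fun w _ => card_far hirr hout w
    rw [Finset.sum_add_distrib, Finset.sum_add_distrib, Finset.sum_const, Finset.sum_const,
      Finset.card_univ, smul_eq_mul, smul_eq_mul] at h1
    exact h1
  have hnad : Fintype.card {p : V × V // Nad A p.1 p.2} + n * (1 + 2 * k) = n * n := by
    rw [card_pairs]
    have h1 : ∑ w : V, ((Finset.univ.filter fun x => Nad A x w).card + (1 + 2 * k)) =
        ∑ _w : V, n := Finset.sum_congr rfl fun w _ => card_nad hirr hor hout hin w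
    rw [Finset.sum_add_distrib, Finset.sum_const, Finset.sum_const,
      Finset.card_univ, smul_eq_mul, smul_eq_mul] at h1
    exact h1
  have hmain : n * k ≤ S + (k - c) * Y.card := by
    have e1 : n * (1 + k) = n + n * k := by ring
    have e2 : n * (1 + 2 * k) = n + 2 * (n * k) := by ring
    rw [e1] at hfar
    rw [e2] at hnad
    omega
  -- the size of `Y`
  have hYsum : Y.card ≤ ∑ T ∈ 𝒜, (Y ∩ T).card := by
    have h1 : Y ⊆ 𝒜.biUnion fun T => Y ∩ T := by
      intro y hy
      obtain ⟨T, hT, hyT⟩ := Finset.mem_biUnion.1 (hcov hy)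
      exact Finset.mem_biUnion.2 ⟨T, hT, Finset.mem_inter.2 ⟨hy, hyT⟩⟩
    exact (Finset.card_le_card h1).trans Finset.card_biUnion_le
  have hAsum : ∑ T ∈ 𝒜, T.card ≤ n := by
    have h1 : (𝒜.biUnion id).card = ∑ T ∈ 𝒜, (id T).card := Finset.card_biUnion hdisj
    simp only [id] at h1
    rw [← h1]
    exact Finset.card_le_univ _
  have hne : ∀ T ∈ 𝒜, 1 ≤ (Y ∩ T).card → T.Nonempty := by
    intro T _ h
    obtain ⟨y, hy⟩ := Finset.card_pos.1 h
    exact ⟨y, (Finset.mem_inter.1 hy).2⟩
  have h6 : ∀ T ∈ 𝒜, ((Y ∩ T).card : ℝ) ≤ γ * T.card := by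
    intro T hT
    by_cases h0 : (Y ∩ T).card = 0
    · rw [h0]
      simp only [Nat.cast_zero]
      positivity
    · exact hBd T (hne T hT (Nat.one_le_iff_ne_zero.2 h0)) _
        (fun u hu => inside hout T _ (htight T hT) u hu)
  have h7 : (Y.card : ℝ) ≤ γ * n := by
    calc (Y.card : ℝ) ≤ ((∑ T ∈ 𝒜, (Y ∩ T).card : ℕ) : ℝ) := by exact_mod_cast hYsum
      _ = ∑ T ∈ 𝒜, ((Y ∩ T).card : ℝ) := by push_cast; rfl
      _ ≤ ∑ T ∈ 𝒜, γ * (T.card : ℝ) := Finset.sum_le_sum h6
      _ = γ * ((∑ T ∈ 𝒜, T.card : ℕ) : ℝ) := by rw [← Finset.mul_sum]; push_cast; rfl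
      _ ≤ γ * n := by
        apply mul_le_mul_of_nonneg_left _ hγ
        exact_mod_cast hAsum
  have h8 : (n : ℝ) * k ≤ (S : ℝ) + ((k - c : ℕ) : ℝ) * Y.card := by exact_mod_cast hmain
  have h9 : ((k - c : ℕ) : ℝ) * Y.card ≤ ((k - c : ℕ) : ℝ) * (γ * n) :=
    mul_le_mul_of_nonneg_left h7 (Nat.cast_nonneg _)
  calc (n : ℝ) * k ≤ (S : ℝ) + ((k - c : ℕ) : ℝ) * (γ * n) := by linarith
    _ = (S : ℝ) + γ * ((k - c : ℕ) : ℝ) * n := by ring

end Pool.Agent.Lib.MP_83608f_co.CN
end
end

section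
/-! MP_83608f_co, part CN, module LAY (helper56): balls, and the bound in terms of the connectivity for every girth. -/
set_option autoImplicit false

open Classical

noncomputable section

namespace Pool.Agent.Lib.MP_83608f_co.CN

open Pool.Agent.Lib.MP_83608f_co.EM (Wk)

namespace LAY_

variable {V : Type} [Fintype V] {A : V → V → Prop} {k c m : ℕ}

/-- the ball of radius `i` around `x` -/
def cb (A : V → V → Prop) (x : V) : ℕ → Finset V
  | 0 => {x}
  | i + 1 => outN A (cb A x i)

lemma cb_walk (x : V) (i : ℕ) (z : V) (hz : z ∈ cb A x i) :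
    ∃ j, j ≤ i ∧ Wk (⟨A⟩ : Digraph V) j x z := by
  induction i generalizing z with
  | zero =>
    rw [cb, Finset.mem_singleton] at hz
    exact ⟨0, le_refl _, hz.symm⟩
  | succ i ih =>
    rw [cb, FIN_.mem_outN] at hz
    rcases hz with h | ⟨y, hy, h⟩
    · obtain ⟨j, h1, h2⟩ := ih z h
      exact ⟨j, by omega, h2⟩
    · obtain ⟨j, h1, h2⟩ := ih y hy
      exact ⟨j + 1, by omega, h2.snoc h⟩

lemma cb_sub (x : V) (i : ℕ) : cb A x i ⊆ cb A x (i + 1) := fun _ h => FIN_.mem_outN.2 (Or.inl h)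

lemma mem_cb_self (x : V) (i : ℕ) : x ∈ cb A x i := by
  induction i with
  | zero => exact Finset.mem_singleton_self _
  | succ i ih => exact cb_sub x i ih

/-- an in-neighbour of `x` is not in the ball of radius at most `m - 1` -/
lemma in_notMem (hcl : NoCl A m) (x v : V) (hv : A v x) (i : ℕ) (hi : i + 1 ≤ m) :
    v ∉ cb A x i := by
  intro h
  obtain ⟨j, h1, h2⟩ := cb_walk x i v h
  exact hcl (j + 1) (by omega) (by omega) x (h2.snoc hv)

lemma cb_step (hk : 1 ≤ k) (hin : ∀ v, (Finset.univ.filter fun u => A u v).card = k)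
    (hcl : NoCl A m) (hconn : Conn A c) (x : V) (i : ℕ) (hi : i + 2 ≤ m) :
    (cb A x i).card + c ≤ (cb A x (i + 1)).card := by
  classical
  have hsub := cb_sub (A := A) x i
  have h4 : (cb A x (i + 1) \ cb A x i).card + (cb A x i).card = (cb A x (i + 1)).card :=
    Finset.card_sdiff_add_card_eq_card hsub
  by_contra hlt
  have hlt' : (cb A x (i + 1) \ cb A x i).card < c := by omega
  have hne : (Finset.univ.filter fun u => A u x).Nonempty := by
    rw [← Finset.card_pos, hin x]
    exact hk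
  obtain ⟨v, hv⟩ := hne
  rw [Finset.mem_filter] at hv
  have hv1 : v ∉ cb A x (i + 1) := in_notMem hcl x v hv.2 (i + 1) (by omega)
  have hpath := hconn _ hlt' x v
    (fun h => (Finset.mem_sdiff.1 h).2 (mem_cb_self x i)) (fun h => hv1 (Finset.mem_sdiff.1 h).1)
  have key : ∀ b, Relation.ReflTransGen (fun a b => A a b ∧ b ∉ cb A x (i + 1) \ cb A x i) x b →
      b ∈ cb A x i := by
    intro b hb
    induction hb with
    | refl => exact mem_cb_self x i
    | tail _ hab ih =>
      by_contra hb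
      apply hab.2
      rw [Finset.mem_sdiff]
      exact ⟨FIN_.mem_outN.2 (Or.inr ⟨_, ih, hab.1⟩), hb⟩
  exact hv1 (hsub (key v hpath))

lemma cb_two (hirr : ∀ v, ¬ A v v)
    (hout : ∀ v, (Finset.univ.filter fun u => A v u).card = k) (x : V) :
    1 + k + (sec A x).card ≤ (cb A x 2).card := by
  classical
  have d1 : Disjoint (Finset.univ.filter fun u => A x u) (sec A x) := by
    rw [Finset.disjoint_left]
    intro z hz hz'
    rw [Finset.mem_filter] at hz
    exact (FIN_.mem_sec.1 hz').2.1 hz.2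
  have d2 : Disjoint {x} ((Finset.univ.filter fun u => A x u) ∪ sec A x) := by
    rw [Finset.disjoint_singleton_left, Finset.mem_union, Finset.mem_filter]
    rintro (h | h)
    · exact hirr x h.2
    · exact (FIN_.mem_sec.1 h).1 rfl
  have hsub : {x} ∪ ((Finset.univ.filter fun u => A x u) ∪ sec A x) ⊆ cb A x 2 := by
    have h1 : ∀ y, A x y → y ∈ cb A x 1 := fun y hy =>
      FIN_.mem_outN.2 (Or.inr ⟨x, Finset.mem_singleton_self _, hy⟩)
    intro z hz
    rw [Finset.mem_union, Finset.mem_union, Finset.mem_singleton, Finset.mem_filter] at hz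
    rcases hz with h | h | h
    · rw [h]
      exact mem_cb_self x 2
    · exact cb_sub x 1 (h1 z h.2)
    · obtain ⟨-, -, y, h2, h3⟩ := FIN_.mem_sec.1 h
      exact FIN_.mem_outN.2 (Or.inr ⟨y, h1 y h2, h3⟩)
  have h := Finset.card_le_card hsub
  rw [Finset.card_union_of_disjoint d2, Finset.card_union_of_disjoint d1, Finset.card_singleton,
    hout x] at h
  omega

lemma cb_card (hk : 1 ≤ k) (hirr : ∀ v, ¬ A v v)
    (hout : ∀ v, (Finset.univ.filter fun u => A v u).card = k)
    (hin : ∀ v, (Finset.univ.filter fun u => A u v).card = k)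
    (hcl : NoCl A m) (hconn : Conn A c) (x : V) (i : ℕ) (hi : i + 3 ≤ m) :
    1 + k + (sec A x).card + i * c ≤ (cb A x (i + 2)).card := by
  induction i with
  | zero =>
    rw [Nat.zero_mul, Nat.zero_add, Nat.add_zero]
    exact cb_two hirr hout x
  | succ i ih =>
    have h1 := ih (by omega)
    have h2 := cb_step hk hin hcl hconn x (i + 2) (by omega)
    have h3 : (i + 1) * c = i * c + c := by ring
    have h4 : i + 1 + 2 = i + 2 + 1 := by ring
    rw [h4, h3]
    omega

lemma count (hk : 1 ≤ k) (hirr : ∀ v, ¬ A v v)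
    (hout : ∀ v, (Finset.univ.filter fun u => A v u).card = k)
    (hin : ∀ v, (Finset.univ.filter fun u => A u v).card = k)
    (hcl : NoCl A m) (hconn : Conn A c) (hm : 4 ≤ m) (x : V) :
    (sec A x).card + ((Dig_.secIn A x).card + (1 + 2 * k + (m - 4) * c)) ≤ Fintype.card V := by
  classical
  have memI : ∀ z, z ∈ Dig_.secIn A x ↔ z ≠ x ∧ ¬ A z x ∧ ∃ y, A z y ∧ A y x := by
    intro z
    simp [Dig_.secIn]
  have d1 : Disjoint (Finset.univ.filter fun u => A u x) (Dig_.secIn A x) := by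
    rw [Finset.disjoint_left]
    intro z hz hz'
    rw [Finset.mem_filter] at hz
    exact ((memI z).1 hz').2.1 hz.2
  have d2 : Disjoint (cb A x (m - 4 + 2)) ((Finset.univ.filter fun u => A u x) ∪ Dig_.secIn A x) := by
    rw [Finset.disjoint_left]
    intro z hz hz'
    obtain ⟨j, f1, f2⟩ := cb_walk x _ z hz
    rw [Finset.mem_union, Finset.mem_filter] at hz'
    rcases hz' with h | h
    · exact hcl (j + 1) (by omega) (by omega) x (f2.snoc h.2)
    · obtain ⟨-, -, y, h2, h3⟩ := (memI z).1 h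
      exact hcl (j + 1 + 1) (by omega) (by omega) x ((f2.snoc h2).snoc h3)
  have h1 := cb_card hk hirr hout hin hcl hconn x (m - 4) (by omega)
  have h2 := Finset.card_le_univ
    (cb A x (m - 4 + 2) ∪ ((Finset.univ.filter fun u => A u x) ∪ Dig_.secIn A x))
  rw [Finset.card_union_of_disjoint d2, Finset.card_union_of_disjoint d1, hin x] at h2
  omega

/-- the basic facts from the absence of closed walks -/
lemma irr (hcl : NoCl A m) (hm : 1 ≤ m) (v : V) : ¬ A v v := fun h =>
  hcl 1 (le_refl _) hm v (EM.Wk.one.2 h)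

lemma anti (hcl : NoCl A m) (hm : 2 ≤ m) (u v : V) (h : A u v) : ¬ A v u := fun h' =>
  hcl 2 (by omega) hm u ((EM.Wk.one.2 h).snoc h')

lemma tri (hcl : NoCl A m) (hm : 3 ≤ m) (u v w : V) (h : A u v) (h' : A v w) : ¬ A w u :=
  fun h'' => hcl 3 (by omega) hm u (((EM.Wk.one.2 h).snoc h').snoc h'')

/-- the bound in terms of the connectivity for girth at least five -/
theorem bound (hKER : SpecKER) (hUNC : SpecUNC) [Nonempty V] (hk : 1 ≤ k)
    (hout : ∀ v, (Finset.univ.filter fun u => A v u).card = k)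
    (hin : ∀ v, (Finset.univ.filter fun u => A u v).card = k)
    (hcl : NoCl A m) (hconn : Conn A c) (hm : 4 ≤ m) (γ : ℝ) (hγ : 0 ≤ γ)
    (hBd : ∀ T : Finset V, Bd A γ T) :
    (m : ℝ) * k + 1 - ((m : ℝ) - 4 + 2 * γ) * (k - c) ≤ Fintype.card V := by
  have hirr := irr hcl (by omega)
  have hor := anti hcl (by omega)
  have hck := Dig_.conn_le hk hor hout hin hconn
  have hmain := fing hKER hUNC V A k c hk hirr hor hout hin hconn γ hγ hBd
  rw [Nat.cast_sub hck] at hmain
  have hn : (0 : ℝ) < Fintype.card V := by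
    exact_mod_cast Fintype.card_pos
  have h5 : ∑ x, ((sec A x).card + ((Dig_.secIn A x).card + (1 + 2 * k + (m - 4) * c))) ≤
      ∑ _x : V, Fintype.card V :=
    Finset.sum_le_sum fun x _ => count hk hirr hout hin hcl hconn hm x
  set S : ℕ := ∑ x, (sec A x).card with hS
  rw [Finset.sum_add_distrib, Finset.sum_add_distrib, Dig_.sum_secIn, Finset.sum_const,
    Finset.sum_const, Finset.card_univ, smul_eq_mul, smul_eq_mul, ← hS] at h5
  set n : ℕ := Fintype.card V with hnd
  have h6 : (S : ℝ) + (S + n * (1 + 2 * k + ((m : ℝ) - 4) * c)) ≤ n * n := by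
    have h7 : ((S + (S + n * (1 + 2 * k + (m - 4) * c)) : ℕ) : ℝ) ≤ ((n * n : ℕ) : ℝ) := by
      exact_mod_cast h5
    push_cast [Nat.cast_sub hm] at h7
    exact h7
  have h8 : (n : ℝ) * ((m : ℝ) * k + 1 - ((m : ℝ) - 4 + 2 * γ) * (k - c)) ≤ n * n := by
    nlinarith
  exact le_of_mul_le_mul_left h8 hn

end LAY_

end Pool.Agent.Lib.MP_83608f_co.CN
end
end

section
/-! MP_83608f_co, part CN, module CUT (helper56): a minimum cut and its two sides. -/
set_option autoImplicit false

open Classical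

noncomputable section

namespace Pool.Agent.Lib.MP_83608f_co.CN

open Pool.Agent.Lib.MP_83608f_co.EM (Wk)

namespace CUT_

variable {V : Type} [Fintype V] {A : V → V → Prop} {k c m : ℕ} {γ : ℝ}

lemma conn_zero : Conn A 0 := fun _ h => absurd h (Nat.not_lt_zero _)

/-- the connectivity and a minimum cut -/
lemma exists_cut [Nonempty V] (hk : 1 ≤ k) (hor : ∀ u v, A u v → ¬ A v u)
    (hout : ∀ v, (Finset.univ.filter fun u => A v u).card = k)
    (hin : ∀ v, (Finset.univ.filter fun u => A u v).card = k) :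
    ∃ c ≤ k, Conn A c ∧ ∃ O S U : Finset V, O.Nonempty ∧ U.Nonempty ∧ S.card = c ∧
      Disjoint O S ∧ Disjoint U S ∧ O.card + S.card + U.card = Fintype.card V ∧
      (∀ a ∈ O, ∀ b, A a b → b ∈ O ∨ b ∈ S) ∧ (∀ b ∈ U, ∀ a, A a b → a ∈ U ∨ a ∈ S) := by
  classical
  set c := Nat.findGreatest (Conn A) k with hc
  have hck : c ≤ k := Nat.findGreatest_le k
  have hconn : Conn A c := Nat.findGreatest_spec (P := Conn A) (Nat.zero_le k) conn_zero
  have hnot : ¬ Conn A (c + 1) := by
    intro h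
    have h1 := Dig_.conn_le hk hor hout hin h
    exact Nat.findGreatest_is_greatest (P := Conn A) (n := k) (k := c + 1) (Nat.lt_succ_self c) h1 h
  refine ⟨c, hck, hconn, ?_⟩
  unfold Conn at hnot
  push Not at hnot
  obtain ⟨S, hS, u, v, huS, hvS, huv⟩ := hnot
  have hSc : S.card = c := by
    by_contra h
    exact huv (hconn S (by omega) u v huS hvS)
  set O := Finset.univ.filter fun z => Relation.ReflTransGen (fun a b => A a b ∧ b ∉ S) u z with hO
  have memO : ∀ z, z ∈ O ↔ Relation.ReflTransGen (fun a b => A a b ∧ b ∉ S) u z := fun z => by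
    simp [hO]
  have hOS : ∀ z ∈ O, z ∉ S := by
    intro z hz
    rw [memO] at hz
    induction hz with
    | refl => exact huS
    | tail _ h _ => exact h.2
  set U := Finset.univ.filter fun z => z ∉ O ∧ z ∉ S with hU
  have memU : ∀ z, z ∈ U ↔ z ∉ O ∧ z ∉ S := fun z => by simp [hU]
  have dOS : Disjoint O S := Finset.disjoint_left.2 hOS
  have dUS : Disjoint U S := Finset.disjoint_left.2 fun z hz => ((memU z).1 hz).2
  have dOU : Disjoint (O ∪ S) U := by
    rw [Finset.disjoint_left]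
    intro z hz hz'
    rw [Finset.mem_union] at hz
    rcases hz with h | h
    · exact ((memU z).1 hz').1 h
    · exact ((memU z).1 hz').2 h
  have hcl : ∀ a ∈ O, ∀ b, A a b → b ∈ O ∨ b ∈ S := by
    intro a ha b hab
    by_cases hb : b ∈ S
    · exact Or.inr hb
    · exact Or.inl ((memO b).2 (((memO a).1 ha).tail ⟨hab, hb⟩))
  refine ⟨O, S, U, ⟨u, (memO u).2 Relation.ReflTransGen.refl⟩, ⟨v, (memU v).2 ⟨?_, hvS⟩⟩, hSc, dOS, dUS,
    ?_, hcl, ?_⟩
  · exact fun h => huv ((memO v).1 h)
  · rw [← Finset.card_union_of_disjoint dOS, ← Finset.card_union_of_disjoint dOU]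
    have : O ∪ S ∪ U = Finset.univ := by
      ext z
      simp only [Finset.mem_union, Finset.mem_univ, iff_true, memU]
      tauto
    rw [this, Finset.card_univ]
  · intro b hb a hab
    by_contra h
    push Not at h
    have haO : a ∈ O := by
      by_contra h1
      exact h.1 ((memU a).2 ⟨h1, h.2⟩)
    rcases hcl a haO b hab with h1 | h1
    · exact ((memU b).1 hb).1 h1
    · exact ((memU b).1 hb).2 h1

/-- one side of a cut -/
lemma side (hγ : 0 < γ) (hγ1 : γ ≤ 1) (hm : 1 ≤ m) (hγm : (1 - γ) ^ (m - 1) ≤ γ) (hcl : NoCl A m)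
    (hout : ∀ v, (Finset.univ.filter fun u => A v u).card = k)
    (hin : ∀ v, (Finset.univ.filter fun u => A u v).card = k)
    (O S : Finset V) (hO : O.Nonempty) (hOS : Disjoint O S) (hS : S.card ≤ k)
    (hcut : ∀ a ∈ O, ∀ b, A a b → b ∈ O ∨ b ∈ S) :
    ((k : ℝ) - S.card) ≤ γ * O.card ∧
    γ * (O.card + (k * O.card - k * S.card)) + ((k : ℝ) - S.card) * (1 - γ) * O.card ≤
      γ * ((O.card : ℝ) * O.card) := by
  classical
  -- out-degrees inside `O`
  have hsplit : ∀ a ∈ O, k ≤ (O.filter fun v => A a v).card + (S.filter fun v => A a v).card := by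
    intro a ha
    have h1 : (Finset.univ.filter fun v => A a v) ⊆
        (O.filter fun v => A a v) ∪ (S.filter fun v => A a v) := by
      intro v hv
      rw [Finset.mem_filter] at hv
      rw [Finset.mem_union, Finset.mem_filter, Finset.mem_filter]
      rcases hcut a ha v hv.2 with h | h
      · exact Or.inl ⟨h, hv.2⟩
      · exact Or.inr ⟨h, hv.2⟩
    have h2 := (Finset.card_le_card h1).trans (Finset.card_union_le _ _)
    rwa [hout a] at h2
  have hdeg : ∀ a ∈ O, k - S.card ≤ (O.filter fun v => A a v).card := by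
    intro a ha
    have h1 := hsplit a ha
    have h2 := Finset.card_le_card (Finset.filter_subset (fun v => A a v) S)
    omega
  constructor
  · have h1 := GM_.bd hγ hγ1 hm hγm hcl O hO _ hdeg
    rw [Nat.cast_sub hS] at h1
    exact h1
  -- arcs from `O` to `S`
  have harcs : ∑ a ∈ O, (S.filter fun v => A a v).card ≤ S.card * k := by
    have h1 : ∑ a ∈ O, (S.filter fun v => A a v).card = ∑ v ∈ S, (O.filter fun a => A a v).card := by
      simp only [Finset.card_filter]
      exact Finset.sum_comm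
    rw [h1, ← smul_eq_mul, ← Finset.sum_const]
    apply Finset.sum_le_sum
    intro v _
    rw [← hin v]
    apply Finset.card_le_card
    intro a ha
    rw [Finset.mem_filter] at ha ⊢
    exact ⟨Finset.mem_univ _, ha.2⟩
  have hin' : O.card * k ≤ (∑ v ∈ O, (O.filter fun a => A a v).card) + S.card * k := by
    have h1 : ∑ v ∈ O, (O.filter fun a => A a v).card = ∑ a ∈ O, (O.filter fun v => A a v).card := by
      simp only [Finset.card_filter]
      exact Finset.sum_comm
    have h2 : ∑ _a ∈ O, k ≤ ∑ a ∈ O, ((O.filter fun v => A a v).card + (S.filter fun v => A a v).card) :=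
      Finset.sum_le_sum hsplit
    rw [Finset.sum_const, smul_eq_mul, Finset.sum_add_distrib] at h2
    omega
  obtain ⟨v, hv, hmax⟩ := Finset.exists_max_image O (fun v => (O.filter fun a => A a v).card) hO
  have h1 : O.card * k ≤ O.card * (O.filter fun a => A a v).card + S.card * k := by
    refine hin'.trans (Nat.add_le_add_right ?_ _)
    rw [← smul_eq_mul, ← Finset.sum_const]
    exact Finset.sum_le_sum hmax
  have h2 := GM_.inn hγ hγ1 hm hγm hcl O _ hdeg v hv
  rw [Nat.cast_sub hS] at h2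
  have h3 : (O.card : ℝ) * k ≤ O.card * ((O.filter fun a => A a v).card : ℝ) + S.card * k := by
    exact_mod_cast h1
  have h4 := mul_le_mul_of_nonneg_right h2 (Nat.cast_nonneg (α := ℝ) O.card)
  have h5 := mul_le_mul_of_nonneg_left h3 hγ.le
  calc γ * (O.card + (k * O.card - k * S.card)) + ((k : ℝ) - S.card) * (1 - γ) * O.card
      ≤ γ * (O.card + O.card * ((O.filter fun a => A a v).card : ℝ)) +
        ((k : ℝ) - S.card) * (1 - γ) * O.card := by linarith
    _ = (γ * (1 + ((O.filter fun u => A u v).card : ℝ)) + ((k : ℝ) - S.card) * (1 - γ)) * O.card := by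
        ring
    _ ≤ γ * ((O.card : ℝ) * O.card) := by
        refine h4.trans (le_of_eq ?_)
        ring

lemma wk_flip (j : ℕ) (x y : V) (h : Wk (⟨fun a b => A b a⟩ : Digraph V) j x y) :
    Wk (⟨A⟩ : Digraph V) j y x := by
  induction j generalizing x with
  | zero =>
    have : x = y := h
    exact this.symm
  | succ j ih =>
    obtain ⟨z, h1, h2⟩ := h
    exact (ih z h2).snoc h1

lemma nocl_flip (h : NoCl A m) : NoCl (fun a b => A b a) m := fun j h1 h2 x h3 =>
  h j h1 h2 x (wk_flip j x x h3)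

end CUT_

end Pool.Agent.Lib.MP_83608f_co.CN
end
end

section
/-! MP_83608f_co, part CN, module TG (helper56): the unconditional bounds for girth 5, 6, 7. -/
set_option autoImplicit false

open Classical

noncomputable section

namespace Pool.Agent.Lib.MP_83608f_co.CN

namespace TG_

/-- the arithmetic: `o` is the smaller side of the cut, `e = k - c`, `μ = ((t-1)k+e)/2` -/
lemma arith {k e o μ γ : ℝ} (hγ : 0 < γ) (ho : 0 < o) (h1 : e ≤ γ * o)
    (h2 : γ * (o + (k * o - k * (k - e))) + e * (1 - γ) * o ≤ γ * (o * o))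
    (h3 : o < μ) (h4 : k - e ≤ μ) :
    0 < γ * (k * k - e * k - k * μ + e * μ + μ * μ) - e * μ := by
  have h5 : 0 ≤ (γ * o - e) * (μ - o) := mul_nonneg (by linarith) (by linarith)
  have h6 : γ * (1 + k - e - μ) * o ≤ γ * (k - e) * k - e * μ := by nlinarith
  have h7 : 0 ≤ γ * ((μ - (k - e)) * (μ - o)) :=
    mul_nonneg hγ.le (mul_nonneg (by linarith) (by linarith))
  have h8 : 0 < γ * o := mul_pos hγ ho
  nlinarith

end TG_

open TG_ in
/-- the general form of the argument: `n < tk` is impossible if the quadratic form is negative for `e > ε₀k` -/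
theorem tg (hKER : SpecKER) (hUNC : SpecUNC) (V : Type) [Fintype V] [Nonempty V]
    (A : V → V → Prop) (k m : ℕ) (hk : 1 ≤ k)
    (hout : ∀ v, (Finset.univ.filter fun u => A v u).card = k)
    (hin : ∀ v, (Finset.univ.filter fun u => A u v).card = k)
    (hm : 4 ≤ m) (hcl : NoCl A m) (γ t : ℝ) (hγ : 0 < γ) (hγ1 : γ ≤ 1)
    (hγm : (1 - γ) ^ (m - 1) ≤ γ) (ht : 3 ≤ t)
    (hneg : ∀ k e : ℝ, 0 < k → e ≤ k → ((m : ℝ) - t) * k < ((m : ℝ) - 4 + 2 * γ) * e →
      γ * (k * k - e * k - k * (((t - 1) * k + e) / 2) + e * (((t - 1) * k + e) / 2) +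
        (((t - 1) * k + e) / 2) * (((t - 1) * k + e) / 2)) - e * (((t - 1) * k + e) / 2) ≤ 0) :
    t * k ≤ Fintype.card V := by
  by_contra hlt
  push Not at hlt
  have hor := LAY_.anti hcl (by omega)
  obtain ⟨c, hck, hconn, O, S, U, hO, hU, hSc, hOS, hUS, hsum, hcut, hcut'⟩ :=
    CUT_.exists_cut hk hor hout hin
  have hb := LAY_.bound hKER hUNC hk hout hin hcl hconn hm γ hγ.le
    (fun T => GM_.bd hγ hγ1 (by omega) hγm hcl T)
  have s1 := CUT_.side hγ hγ1 (by omega) hγm hcl hout hin O S hO hOS (by omega) hcut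
  have s2 := CUT_.side (A := fun a b => A b a) hγ hγ1 (by omega) hγm (CUT_.nocl_flip hcl) hin hout
    U S hU hUS (by omega) (fun b hb a hab => hcut' b hb a hab)
  rw [hSc] at s1 s2 hsum
  have hsum' : (O.card : ℝ) + c + U.card = Fintype.card V := by exact_mod_cast hsum
  have hk0 : (0 : ℝ) < k := by exact_mod_cast hk
  have hck' : (c : ℝ) ≤ k := by exact_mod_cast hck
  have hc0 : (0 : ℝ) ≤ c := Nat.cast_nonneg c
  set e : ℝ := (k : ℝ) - c with he
  have hce : (c : ℝ) = k - e := by rw [he]; ring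
  rw [hce] at s1 s2 hsum'
  have hek : e ≤ k := by rw [he]; linarith
  have he0 : 0 ≤ e := by rw [he]; linarith
  have hn := hneg k e hk0 hek (by nlinarith)
  have hμ : (k : ℝ) - e ≤ ((t - 1) * k + e) / 2 := by nlinarith
  have hO0 : (0 : ℝ) < O.card := by exact_mod_cast hO.card_pos
  have hU0 : (0 : ℝ) < U.card := by exact_mod_cast hU.card_pos
  rcases le_total (O.card : ℝ) (U.card : ℝ) with h | h
  · have h1 : (O.card : ℝ) < ((t - 1) * k + e) / 2 := by linarith
    have := arith hγ hO0 s1.1 s1.2 h1 hμ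
    linarith
  · have h1 : (U.card : ℝ) < ((t - 1) * k + e) / 2 := by linarith
    have := arith hγ hU0 s2.1 s2.2 h1 hμ
    linarith

/-- girth at least five -/
theorem five (hKER : SpecKER) (hUNC : SpecUNC) (V : Type) [Fintype V] [Nonempty V]
    (A : V → V → Prop) (k : ℕ) (hk : 1 ≤ k)
    (hout : ∀ v, (Finset.univ.filter fun u => A v u).card = k)
    (hin : ∀ v, (Finset.univ.filter fun u => A u v).card = k) (hcl : NoCl A 4) :
    3.72 * k ≤ (Fintype.card V : ℝ) := by
  apply tg hKER hUNC V A k 4 hk hout hin (le_refl _) hcl 0.3177 3.72 (by norm_num) (by norm_num)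
    (by norm_num) (by norm_num)
  intro k e hk hek h
  norm_num at h ⊢
  have h0 : 0.44 * k < e := by linarith
  nlinarith

/-- girth at least six -/
theorem six (hKER : SpecKER) (hUNC : SpecUNC) (V : Type) [Fintype V] [Nonempty V]
    (A : V → V → Prop) (k : ℕ) (hk : 1 ≤ k)
    (hout : ∀ v, (Finset.univ.filter fun u => A v u).card = k)
    (hin : ∀ v, (Finset.univ.filter fun u => A u v).card = k) (hcl : NoCl A 5) :
    4.3 * k ≤ (Fintype.card V : ℝ) := by
  apply tg hKER hUNC V A k 5 hk hout hin (by norm_num) hcl 0.2756 4.3 (by norm_num) (by norm_num)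
    (by norm_num) (by norm_num)
  intro k e hk hek h
  norm_num at h ⊢
  have h0 : 0.451 * k < e := by linarith
  nlinarith

/-- girth at least seven -/
theorem seven (hKER : SpecKER) (hUNC : SpecUNC) (V : Type) [Fintype V] [Nonempty V]
    (A : V → V → Prop) (k : ℕ) (hk : 1 ≤ k)
    (hout : ∀ v, (Finset.univ.filter fun u => A v u).card = k)
    (hin : ∀ v, (Finset.univ.filter fun u => A u v).card = k) (hcl : NoCl A 6) :
    4.85 * k ≤ (Fintype.card V : ℝ) := by
  apply tg hKER hUNC V A k 6 hk hout hin (by norm_num) hcl 0.2453 4.85 (by norm_num) (by norm_num)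
    (by norm_num) (by norm_num)
  intro k e hk hek h
  norm_num at h ⊢
  have h0 : 0.461 * k < e := by linarith
  nlinarith

end Pool.Agent.Lib.MP_83608f_co.CN
end
end

section
/-! MP_83608f_co, part CN, module Top (helper56): the theorems for digraphs. -/
set_option autoImplicit false

open Classical

noncomputable section

namespace Pool.Agent.Lib.MP_83608f_co.CN

namespace Top_

variable {V : Type} {G : Digraph V} {k c : ℕ}

lemma out_card [Fintype V] (hout : ∀ v, Nat.card {u // G.Adj v u} = k) (v : V) :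
    (Finset.univ.filter fun u => G.Adj v u).card = k := by
  rw [← hout v, Nat.card_eq_fintype_card, Fintype.card_subtype]

lemma in_card [Fintype V] (hin : ∀ v, Nat.card {u // G.Adj u v} = k) (v : V) :
    (Finset.univ.filter fun u => G.Adj u v).card = k := by
  rw [← hin v, Nat.card_eq_fintype_card, Fintype.card_subtype]

lemma conn (hconn : ∀ S : Set V, Nat.card S < c → ∀ u v : V, u ∉ S → v ∉ S →
      Relation.ReflTransGen (fun a b => G.Adj a b ∧ b ∉ S) u v) : Conn G.Adj c := by
  intro S hS u v hu hv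
  refine hconn (S : Set V) ?_ u v hu hv
  rw [Nat.card_coe_set_eq, Set.ncard_coe_finset]
  exact hS

lemma noCl {m : ℕ} (h : EM.GirthGe G (m + 1)) : NoCl G.Adj m := fun j h1 h2 x =>
  EM.GirthGe.no_closed h j h1 (by omega) x

lemma sec_card [Fintype V] : Nat.card {p : V × V // p.2 ≠ p.1 ∧ ¬ G.Adj p.1 p.2 ∧
    ∃ y, G.Adj p.1 y ∧ G.Adj y p.2} = ∑ x, (sec G.Adj x).card := by
  classical
  rw [Nat.card_eq_fintype_card, Fintype.card_subtype, Finset.card_filter, Fintype.sum_prod_type]
  apply Finset.sum_congr rfl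
  intro x _
  rw [← Finset.card_filter]
  rfl

/-- girth four: the bound in terms of the connectivity -/
lemma bound4 (hKER : SpecKER) (hUNC : SpecUNC) [Fintype V] [Nonempty V] {A : V → V → Prop}
    (hk : 1 ≤ k) (hout : ∀ v, (Finset.univ.filter fun u => A v u).card = k)
    (hin : ∀ v, (Finset.univ.filter fun u => A u v).card = k)
    (hcl : NoCl A 3) (hconn : Conn A c) (γ : ℝ) (hγ : 0 ≤ γ) (hBd : ∀ T : Finset V, Bd A γ T) :
    3 * (k : ℝ) + 1 - γ * (k - c) ≤ Fintype.card V := by
  have hirr := LAY_.irr hcl (by norm_num)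
  have hor := LAY_.anti hcl (by norm_num)
  have htri := LAY_.tri hcl (by norm_num)
  have hck := Dig_.conn_le hk hor hout hin hconn
  have hmain := fing hKER hUNC V A k c hk hirr hor hout hin hconn γ hγ hBd
  rw [Nat.cast_sub hck] at hmain
  have hn : (0 : ℝ) < Fintype.card V := by
    exact_mod_cast Fintype.card_pos
  set n : ℝ := (Fintype.card V : ℝ) with hnd
  set S : ℕ := ∑ x, (sec A x).card with hS
  have h4 : (S : ℝ) + n * (1 + 2 * k) ≤ n * n := by
    have h5 : ∑ x, ((sec A x).card + (1 + 2 * k)) ≤ ∑ _x : V, Fintype.card V :=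
      Finset.sum_le_sum fun x _ => Dig_.count4 hirr hor htri hout hin x
    rw [Finset.sum_add_distrib, Finset.sum_const, Finset.sum_const, Finset.card_univ,
      smul_eq_mul, smul_eq_mul] at h5
    rw [hnd, hS]
    exact_mod_cast h5
  have h6 : n * (3 * k + 1 - γ * (k - c)) ≤ n * n := by nlinarith
  exact le_of_mul_le_mul_left h6 hn

end Top_

open Top_

/-- part (1): oriented graphs -/
theorem top1 (hFIN : SpecFIN) (V : Type) [Finite V] [Nonempty V] (G : Digraph V) (k c : ℕ)
    (hk : 1 ≤ k)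
    (hout : ∀ v, Nat.card {u // G.Adj v u} = k) (hin : ∀ v, Nat.card {u // G.Adj u v} = k)
    (hconn : ∀ S : Set V, Nat.card S < c → ∀ u v : V, u ∉ S → v ∉ S →
      Relation.ReflTransGen (fun a b => G.Adj a b ∧ b ∉ S) u v)
    (hor : ∀ u v, G.Adj u v → ¬ G.Adj v u) :
    (Nat.card V : ℝ) * k ≤ Nat.card {p : V × V // p.2 ≠ p.1 ∧ ¬ G.Adj p.1 p.2 ∧
      ∃ y, G.Adj p.1 y ∧ G.Adj y p.2} + (k - c) * (Nat.card V - 1) / 2 := by
  have := Fintype.ofFinite V
  have hout' := out_card hout
  have hin' := in_card hin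
  have hconn' := conn hconn
  have hck := Dig_.conn_le hk hor hout' hin' hconn'
  have h1 : 1 ≤ Fintype.card V := Fintype.card_pos
  rw [sec_card, Nat.card_eq_fintype_card]
  have h := (hFIN V G.Adj k c hk (fun v h => hor v v h h) hor hout' hin' hconn').1
  have h2 : ((2 * (Fintype.card V * k) : ℕ) : ℝ) ≤
      ((2 * (∑ x, (sec G.Adj x).card) + (k - c) * (Fintype.card V - 1) : ℕ) : ℝ) := by
    exact_mod_cast h
  push_cast [Nat.cast_sub hck, Nat.cast_sub h1] at h2 ⊢
  linarith

/-- part (2): no directed cycles of length at most `m` -/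
theorem top2 (hKER : SpecKER) (hUNC : SpecUNC) (V : Type) [Finite V] [Nonempty V] (G : Digraph V)
    (k c m : ℕ) (hk : 1 ≤ k)
    (hout : ∀ v, Nat.card {u // G.Adj v u} = k) (hin : ∀ v, Nat.card {u // G.Adj u v} = k)
    (hconn : ∀ S : Set V, Nat.card S < c → ∀ u v : V, u ∉ S → v ∉ S →
      Relation.ReflTransGen (fun a b => G.Adj a b ∧ b ∉ S) u v)
    (hm : 3 ≤ m) (hgirth : EM.GirthGe G (m + 1)) (γ : ℝ) (hγ : 0 < γ) (hγ1 : γ ≤ 1)
    (hγm : (1 - γ) ^ (m - 1) ≤ γ) :
    (Nat.card V : ℝ) * k ≤ Nat.card {p : V × V // p.2 ≠ p.1 ∧ ¬ G.Adj p.1 p.2 ∧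
      ∃ y, G.Adj p.1 y ∧ G.Adj y p.2} + γ * (k - c) * Nat.card V ∧
    (m = 3 → 3 * (k : ℝ) + 1 - γ * (k - c) ≤ Nat.card V) ∧
    (4 ≤ m → (m : ℝ) * k + 1 - (m - 4 + 2 * γ) * (k - c) ≤ Nat.card V) := by
  have := Fintype.ofFinite V
  have hcl := noCl hgirth
  have hirr := LAY_.irr hcl (by omega)
  have hor := LAY_.anti hcl (by omega)
  have hout' := out_card hout
  have hin' := in_card hin
  have hconn' := conn hconn
  have hck := Dig_.conn_le hk hor hout' hin' hconn'
  have hBd : ∀ T : Finset V, Bd G.Adj γ T := fun T => GM_.bd hγ hγ1 (by omega) hγm hcl T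
  rw [sec_card, Nat.card_eq_fintype_card]
  refine ⟨?_, ?_, ?_⟩
  · have h := fing hKER hUNC V G.Adj k c hk hirr hor hout' hin' hconn' γ hγ.le hBd
    rwa [Nat.cast_sub hck] at h
  · intro h3
    subst h3
    exact bound4 hKER hUNC hk hout' hin' hcl hconn' γ hγ.le hBd
  · intro h4
    exact LAY_.bound hKER hUNC hk hout' hin' hcl hconn' h4 γ hγ.le hBd

/-- the unconditional bounds -/
theorem top3 (hKER : SpecKER) (hUNC : SpecUNC) (V : Type) [Finite V] [Nonempty V] (G : Digraph V)
    (k : ℕ) (hk : 1 ≤ k)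
    (hout : ∀ v, Nat.card {u // G.Adj v u} = k) (hin : ∀ v, Nat.card {u // G.Adj u v} = k) :
    (EM.GirthGe G 5 → 3.72 * (k : ℝ) ≤ Nat.card V) ∧
    (EM.GirthGe G 6 → 4.3 * (k : ℝ) ≤ Nat.card V) ∧
    (EM.GirthGe G 7 → 4.85 * (k : ℝ) ≤ Nat.card V) := by
  have := Fintype.ofFinite V
  rw [Nat.card_eq_fintype_card]
  exact ⟨fun h => five hKER hUNC V G.Adj k hk (out_card hout) (in_card hin) (noCl h),
    fun h => six hKER hUNC V G.Adj k hk (out_card hout) (in_card hin) (noCl h),
    fun h => seven hKER hUNC V G.Adj k hk (out_card hout) (in_card hin) (noCl h)⟩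

end Pool.Agent.Lib.MP_83608f_co.CN
end
end

section
/-! MP_83608f_co, part CN: assembly of the modules. -/
set_option autoImplicit false

namespace Pool.Agent.Lib.MP_83608f_co.CN

theorem dKER : SpecKER := specKER specP4 specGEN specHALL

theorem dFIN : SpecFIN := specFIN dKER specUNC specHALF specGOLD

end Pool.Agent.Lib.MP_83608f_co.CN
end

section
/-! MP_83608f_co, part CN, module BLOW (helper58): the averaged main estimate, by blowing up every vertex.

Let `A` be an oriented graph with all out-degrees `k`, `F₁` the set of the vertices of `F` with an in-neighbour in `F`, and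
suppose that `M (|F₁| + k - |N⁺(F)|) ≤ a |F₁|` for all nonempty `F`.  Then `M |Far| ≤ M |Nad| + a ∑ ν_w`. -/
set_option autoImplicit false

open Classical

noncomputable section

namespace Pool.Agent.Lib.MP_83608f_co.CN

namespace BLOW_

variable {V : Type} [Fintype V] {A : V → V → Prop} {k M a : ℕ}

/-- the blown up relation -/
def bl (A : V → V → Prop) (M : ℕ) (p q : V × Fin M) : Prop := A p.1 q.1

/-- the out-neighbourhood of a set -/
def nb (A : V → V → Prop) (F : Finset V) : Finset V := Finset.univ.filter fun v => ∃ u ∈ F, A u v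

lemma mem_nb {F : Finset V} {v : V} : v ∈ nb A F ↔ ∃ u ∈ F, A u v := by simp [nb]

lemma far_iff (hirr : ∀ v, ¬ A v v) (hor : ∀ u v, A u v → ¬ A v u) (p q : V × Fin M) :
    Far (bl A M) p q ↔ Far A p.1 q.1 ∨ (p.1 = q.1 ∧ p.2 ≠ q.2) := by
  constructor
  · rintro ⟨h1, h2, h3⟩
    by_cases h : p.1 = q.1
    · exact Or.inr ⟨h, fun h' => h1 (Prod.ext h h')⟩
    · exact Or.inl ⟨h, h2, fun y hy => h3 (y, p.2) hy⟩
  · rintro (⟨h1, h2, h3⟩ | ⟨h1, h2⟩)
    · exact ⟨fun h => h1 (congrArg Prod.fst h), h2, fun y hy => h3 y.1 hy⟩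
    · refine ⟨fun h => h2 (congrArg Prod.snd h), fun h => ?_, fun y hy hy' => ?_⟩
      · have h' : A q.1 p.1 := h
        rw [h1] at h'
        exact hirr _ h'
      · have hy1 : A q.1 y.1 := hy
        have hy2 : A y.1 p.1 := hy'
        rw [h1] at hy2
        exact hor _ _ hy1 hy2

lemma nad_iff (hirr : ∀ v, ¬ A v v) (p q : V × Fin M) :
    Nad (bl A M) p q ↔ Nad A p.1 q.1 ∨ (p.1 = q.1 ∧ p.2 ≠ q.2) := by
  constructor
  · rintro ⟨h1, h2, h3⟩
    by_cases h : p.1 = q.1
    · exact Or.inr ⟨h, fun h' => h1 (Prod.ext h h')⟩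
    · exact Or.inl ⟨h, h2, h3⟩
  · rintro (⟨h1, h2, h3⟩ | ⟨h1, h2⟩)
    · exact ⟨fun h => h1 (congrArg Prod.fst h), h2, h3⟩
    · refine ⟨fun h => h2 (congrArg Prod.snd h), fun h => ?_, fun h => ?_⟩
      · have h' : A p.1 q.1 := h
        rw [h1] at h'
        exact hirr _ h'
      · have h' : A q.1 p.1 := h
        rw [h1] at h'
        exact hirr _ h'

/-- counting pairs in the blow-up -/
lemma card_rel (R : V → V → Prop) (R' : V × Fin M → V × Fin M → Prop) (hR : ∀ v, ¬ R v v)
    (h : ∀ p q, R' p q ↔ R p.1 q.1 ∨ (p.1 = q.1 ∧ p.2 ≠ q.2)) :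
    Fintype.card {p : (V × Fin M) × (V × Fin M) // R' p.1 p.2} =
      M * (M * Fintype.card {p : V × V // R p.1 p.2}) + Fintype.card V * (M * (M - 1)) := by
  rw [FIN_.card_pairs, FIN_.card_pairs]
  have h1 : ∀ q : V × Fin M, (Finset.univ.filter fun p => R' p q).card =
      M * (Finset.univ.filter fun x => R x q.1).card + (M - 1) := by
    intro q
    have h2 : (Finset.univ.filter fun p => R' p q) =
        (Finset.univ.filter fun x => R x q.1) ×ˢ (Finset.univ : Finset (Fin M)) ∪
        {q.1} ×ˢ (Finset.univ.erase q.2) := by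
      ext p
      simp only [Finset.mem_filter, Finset.mem_univ, true_and, Finset.mem_union, Finset.mem_product,
        and_true, Finset.mem_singleton, Finset.mem_erase, h]
    have h3 : Disjoint ((Finset.univ.filter fun x => R x q.1) ×ˢ (Finset.univ : Finset (Fin M)))
        ({q.1} ×ˢ (Finset.univ.erase q.2)) := by
      rw [Finset.disjoint_left]
      intro p hp hp'
      rw [Finset.mem_product, Finset.mem_filter] at hp
      rw [Finset.mem_product, Finset.mem_singleton] at hp'
      have := hp.1.2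
      rw [hp'.1] at this
      exact hR _ this
    rw [h2, Finset.card_union_of_disjoint h3, Finset.card_product, Finset.card_product,
      Finset.card_singleton, Finset.card_erase_of_mem (Finset.mem_univ _), Finset.card_univ,
      Fintype.card_fin]
    ring
  rw [Finset.sum_congr rfl fun q _ => h1 q, Finset.sum_add_distrib, Finset.sum_const,
    Finset.card_univ, Fintype.card_prod, Fintype.card_fin, smul_eq_mul, Fintype.sum_prod_type]
  congr 1
  · simp only [Finset.sum_const, Finset.card_univ, Fintype.card_fin, smul_eq_mul]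
    rw [Finset.mul_sum, Finset.mul_sum]
  · ring

lemma col (hirr : ∀ v, ¬ A v v) (hor : ∀ u v, A u v → ¬ A v u) (ν : V → ℕ)
    (hcol : ∀ w, ∀ X : Finset V, (∀ x ∈ X, Far A x w) →
      X.card ≤ ((inN A X).filter fun u => Nad A u w).card + ν w)
    (q : V × Fin M) (X : Finset (V × Fin M)) (hX : ∀ x ∈ X, Far (bl A M) x q) :
    X.card ≤ ((inN (bl A M) X).filter fun u => Nad (bl A M) u q).card + M * ν q.1 := by
  classical
  obtain ⟨X0, hX0⟩ : ∃ X0 : Finset V, X0 = (X.filter fun p => p.1 ≠ q.1).image Prod.fst := ⟨_, rfl⟩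
  have hfar : ∀ x ∈ X0, Far A x q.1 := by
    intro x hx
    rw [hX0, Finset.mem_image] at hx
    obtain ⟨p, hp, rfl⟩ := hx
    rw [Finset.mem_filter] at hp
    rcases (far_iff hirr hor p q).1 (hX p hp.1) with h | h
    · exact h
    · exact absurd h.1 hp.2
  have hc := hcol q.1 X0 hfar
  obtain ⟨B, hB⟩ : ∃ B : Finset V, B = (inN A X0).filter fun u => Nad A u q.1 := ⟨_, rfl⟩
  rw [← hB] at hc
  obtain ⟨N0, hN0⟩ : ∃ N0 : Finset V, N0 = B.filter fun u => ∃ x ∈ X0, A u x := ⟨_, rfl⟩
  obtain ⟨B1, hB1⟩ : ∃ B1 : Finset V, B1 = B.filter fun u => ¬ ∃ x ∈ X0, A u x := ⟨_, rfl⟩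
  have hBc : N0.card + B1.card = B.card := by
    rw [hN0, hB1]
    exact Finset.card_filter_add_card_filter_not _
  have hB1X : B1 ⊆ X0 := by
    intro u hu
    rw [hB1, Finset.mem_filter, hB, Finset.mem_filter, FIN_.mem_inN] at hu
    rcases hu.1.1 with h | h
    · exact h
    · exact absurd h hu.2
  have hB1X' := Finset.card_sdiff_add_card_eq_card hB1X
  -- splitting of `X`
  have s1 : (X.filter fun p => p.1 = q.1).card + (X.filter fun p => ¬ p.1 = q.1).card = X.card :=
    Finset.card_filter_add_card_filter_not _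
  have s2 : ((X.filter fun p => ¬ p.1 = q.1).filter fun p => p.1 ∈ B1).card +
      ((X.filter fun p => ¬ p.1 = q.1).filter fun p => ¬ p.1 ∈ B1).card =
      (X.filter fun p => ¬ p.1 = q.1).card := Finset.card_filter_add_card_filter_not _
  have s3 : ((X.filter fun p => ¬ p.1 = q.1).filter fun p => ¬ p.1 ∈ B1).card ≤
      (X0 \ B1).card * M := by
    have h1 : ((X.filter fun p => ¬ p.1 = q.1).filter fun p => ¬ p.1 ∈ B1) ⊆
        (X0 \ B1) ×ˢ (Finset.univ : Finset (Fin M)) := by
      intro p hp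
      rw [Finset.mem_filter] at hp
      rw [Finset.mem_product, Finset.mem_sdiff, hX0]
      exact ⟨⟨Finset.mem_image_of_mem _ hp.1, hp.2⟩, Finset.mem_univ _⟩
    have h2 := Finset.card_le_card h1
    rwa [Finset.card_product, Finset.card_univ, Fintype.card_fin] at h2
  -- the lower bound for the closed in-neighbourhood
  have hsub : (X.filter fun p => p.1 = q.1) ∪
      (((X.filter fun p => ¬ p.1 = q.1).filter fun p => p.1 ∈ B1) ∪
        N0 ×ˢ (Finset.univ : Finset (Fin M))) ⊆
      (inN (bl A M) X).filter fun u => Nad (bl A M) u q := by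
    intro p hp
    rw [Finset.mem_filter, FIN_.mem_inN, nad_iff hirr]
    rw [Finset.mem_union, Finset.mem_union, Finset.mem_filter, Finset.mem_filter, Finset.mem_filter,
      Finset.mem_product] at hp
    rcases hp with h | h | h
    · refine ⟨Or.inl h.1, Or.inr ⟨h.2, fun h' => ?_⟩⟩
      exact (hX p h.1).1 (Prod.ext h.2 h')
    · refine ⟨Or.inl h.1.1, Or.inl ?_⟩
      have := h.2
      rw [hB1, Finset.mem_filter, hB, Finset.mem_filter] at this
      exact this.1.2
    · have h' := h.1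
      rw [hN0, Finset.mem_filter, hB, Finset.mem_filter] at h'
      refine ⟨Or.inr ?_, Or.inl h'.1.2⟩
      obtain ⟨x, hx, hux⟩ := h'.2
      rw [hX0, Finset.mem_image] at hx
      obtain ⟨p', hp', rfl⟩ := hx
      exact ⟨p', (Finset.mem_filter.1 hp').1, hux⟩
  have d1 : Disjoint ((X.filter fun p => ¬ p.1 = q.1).filter fun p => p.1 ∈ B1)
      (N0 ×ˢ (Finset.univ : Finset (Fin M))) := by
    rw [Finset.disjoint_left]
    intro p hp hp'
    have h1 := (Finset.mem_filter.1 hp).2
    rw [hB1, Finset.mem_filter] at h1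
    rw [Finset.mem_product, hN0, Finset.mem_filter] at hp'
    exact h1.2 hp'.1.2
  have d2 : Disjoint (X.filter fun p => p.1 = q.1)
      (((X.filter fun p => ¬ p.1 = q.1).filter fun p => p.1 ∈ B1) ∪
        N0 ×ˢ (Finset.univ : Finset (Fin M))) := by
    rw [Finset.disjoint_left]
    intro p hp hp'
    rw [Finset.mem_filter] at hp
    rw [Finset.mem_union, Finset.mem_filter, Finset.mem_filter, Finset.mem_product] at hp'
    rcases hp' with h | h
    · exact h.1.2 hp.2
    · have h' := h.1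
      rw [hN0, Finset.mem_filter, hB, Finset.mem_filter] at h'
      exact h'.1.2.1 hp.2
  have h4 := Finset.card_le_card hsub
  rw [Finset.card_union_of_disjoint d2, Finset.card_union_of_disjoint d1, Finset.card_product,
    Finset.card_univ, Fintype.card_fin] at h4
  have h5 : (X0 \ B1).card ≤ N0.card + ν q.1 := by omega
  have h6 : (X0 \ B1).card * M ≤ N0.card * M + M * ν q.1 := by
    calc (X0 \ B1).card * M ≤ (N0.card + ν q.1) * M := Nat.mul_le_mul_right _ h5
      _ = N0.card * M + M * ν q.1 := by ring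
  omega

lemma row (haM : a ≤ M)
    (hrow : ∀ F : Finset V, F.Nonempty →
      M * ((F.filter fun v => v ∈ nb A F).card + k) ≤ M * (nb A F).card +
        a * (F.filter fun v => v ∈ nb A F).card)
    (F : Finset (V × Fin M)) (hF : F.Nonempty)
    (hd : Disjoint F (Finset.univ.filter fun p : V × Fin M => (p.2 : ℕ) < a)) :
    F.card + k * M ≤ (outN (bl A M) F).card := by
  classical
  obtain ⟨F0, hF0⟩ : ∃ F0 : Finset V, F0 = F.image Prod.fst := ⟨_, rfl⟩
  have hne : F0.Nonempty := by
    rw [hF0]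
    exact hF.image _
  have hr := hrow F0 hne
  obtain ⟨F1, hF1⟩ : ∃ F1 : Finset V, F1 = F0.filter fun v => v ∈ nb A F0 := ⟨_, rfl⟩
  rw [← hF1] at hr
  have s1 : (F.filter fun p => p.1 ∈ nb A F0).card + (F.filter fun p => ¬ p.1 ∈ nb A F0).card = F.card :=
    Finset.card_filter_add_card_filter_not _
  have s2 : (F.filter fun p => p.1 ∈ nb A F0).card + F1.card * a ≤ F1.card * M := by
    have h1 : Disjoint (F.filter fun p => p.1 ∈ nb A F0)
        (F1 ×ˢ (Finset.univ.filter fun i : Fin M => (i : ℕ) < a)) := by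
      rw [Finset.disjoint_left]
      intro p hp hp'
      rw [Finset.mem_filter] at hp
      rw [Finset.mem_product, Finset.mem_filter] at hp'
      exact (Finset.disjoint_left.1 hd hp.1) (Finset.mem_filter.2 ⟨Finset.mem_univ _, hp'.2.2⟩)
    have h2 : (F.filter fun p => p.1 ∈ nb A F0) ∪
        (F1 ×ˢ (Finset.univ.filter fun i : Fin M => (i : ℕ) < a)) ⊆
        F1 ×ˢ (Finset.univ : Finset (Fin M)) := by
      intro p hp
      rw [Finset.mem_product]
      refine ⟨?_, Finset.mem_univ _⟩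
      rw [Finset.mem_union, Finset.mem_filter, Finset.mem_product] at hp
      rcases hp with h | h
      · rw [hF1, Finset.mem_filter, hF0]
        exact ⟨Finset.mem_image_of_mem _ h.1, hF0 ▸ h.2⟩
      · exact h.1
    have h3 := Finset.card_le_card h2
    have h4 : (Finset.univ.filter fun i : Fin M => (i : ℕ) < a).card = a := by
      rw [Fin.card_filter_val_lt]
      exact min_eq_right haM
    rw [Finset.card_union_of_disjoint h1, Finset.card_product, Finset.card_product, h4,
      Finset.card_univ, Fintype.card_fin] at h3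
    exact h3
  have s3 : (nb A F0).card * M + (F.filter fun p => ¬ p.1 ∈ nb A F0).card ≤ (outN (bl A M) F).card := by
    have h1 : Disjoint ((nb A F0) ×ˢ (Finset.univ : Finset (Fin M)))
        (F.filter fun p => ¬ p.1 ∈ nb A F0) := by
      rw [Finset.disjoint_left]
      intro p hp hp'
      rw [Finset.mem_filter] at hp'
      rw [Finset.mem_product] at hp
      exact hp'.2 hp.1
    have h2 : (nb A F0) ×ˢ (Finset.univ : Finset (Fin M)) ∪
        (F.filter fun p => ¬ p.1 ∈ nb A F0) ⊆ outN (bl A M) F := by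
      intro p hp
      rw [FIN_.mem_outN]
      rw [Finset.mem_union, Finset.mem_filter, Finset.mem_product] at hp
      rcases hp with h | h
      · obtain ⟨u, hu, hup⟩ := mem_nb.1 h.1
        rw [hF0, Finset.mem_image] at hu
        obtain ⟨p', hp', rfl⟩ := hu
        exact Or.inr ⟨p', hp', hup⟩
      · exact Or.inl h.1
    have h3 := Finset.card_le_card h2
    rwa [Finset.card_union_of_disjoint h1, Finset.card_product, Finset.card_univ,
      Fintype.card_fin] at h3
  have e1 : M * (F1.card + k) = F1.card * M + k * M := by ring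
  have e2 : M * (nb A F0).card = (nb A F0).card * M := by ring
  have e3 : a * F1.card = F1.card * a := by ring
  rw [e1, e2, e3] at hr
  omega

end BLOW_

open BLOW_

/-- the averaged main estimate -/
theorem blow (V : Type) [Fintype V] (A : V → V → Prop) (k M a : ℕ) (hM : 1 ≤ M) (haM : a ≤ M) (ν : V → ℕ)
    (hirr : ∀ v, ¬ A v v) (hor : ∀ u v, A u v → ¬ A v u)
    (hdeg : ∀ v, (Finset.univ.filter fun u => A v u).card = k)
    (hrow : ∀ F : Finset V, F.Nonempty →
      M * ((F.filter fun v => v ∈ nb A F).card + k) ≤ M * (nb A F).card +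
        a * (F.filter fun v => v ∈ nb A F).card)
    (hcol : ∀ w, ∀ X : Finset V, (∀ x ∈ X, Far A x w) →
      X.card ≤ ((inN A X).filter fun u => Nad A u w).card + ν w) :
    M * Fintype.card {p : V × V // Far A p.1 p.2} ≤
      M * Fintype.card {p : V × V // Nad A p.1 p.2} + a * ∑ w, ν w := by
  classical
  have h := kerD specP4 specGEN specHALL (V × Fin M) (bl A M) (k * M) (fun q => M * ν q.1)
    (Finset.univ.filter fun p : V × Fin M => (p.2 : ℕ) < a) (by
      intro p
      have h1 : (Finset.univ.filter fun q => bl A M p q) =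
          (Finset.univ.filter fun u => A p.1 u) ×ˢ (Finset.univ : Finset (Fin M)) := by
        ext q
        simp [bl]
      rw [h1, Finset.card_product, hdeg, Finset.card_univ, Fintype.card_fin])
    (fun F hF hd => row haM hrow F hF hd)
    (fun q _ X hX => col hirr hor ν hcol q X hX)
  rw [card_rel (Far A) _ (fun v hv => hv.1 rfl) (far_iff hirr hor),
    card_rel (Nad A) _ (fun v hv => hv.1 rfl) (nad_iff hirr)] at h
  have h2 : ∑ q ∈ (Finset.univ.filter fun p : V × Fin M => (p.2 : ℕ) < a), M * ν q.1 =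
      M * (a * ∑ w, ν w) := by
    have h3 : (Finset.univ.filter fun p : V × Fin M => (p.2 : ℕ) < a) =
        (Finset.univ : Finset V) ×ˢ (Finset.univ.filter fun i : Fin M => (i : ℕ) < a) := by
      ext p
      simp
    rw [h3, Finset.sum_product]
    simp only [Finset.sum_const, smul_eq_mul]
    rw [Fin.card_filter_val_lt, min_eq_right haM, Finset.mul_sum, Finset.mul_sum]
    apply Finset.sum_congr rfl
    intro w _
    ring
  rw [h2] at h
  have h4 : M * (M * Fintype.card {p : V × V // Far A p.1 p.2}) ≤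
      M * (M * Fintype.card {p : V × V // Nad A p.1 p.2} + a * ∑ w, ν w) := by
    rw [Nat.mul_add]
    omega
  exact Nat.le_of_mul_le_mul_left h4 (by omega)

end Pool.Agent.Lib.MP_83608f_co.CN
end
end

section
/-! MP_83608f_co, part CN, module THA (helper58): the out-degree theorem.

If there is no closed walk of length `1, ..., m`, `m ≥ 4`, all out-degrees are at least `e`, and
`(1-γ)^(m-4) ≤ (1 + (1-γ)^(m-4)) γ (2 - γ(1-γ))`, then `e ≤ γ n`. -/
set_option autoImplicit false

open Classical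

noncomputable section

namespace Pool.Agent.Lib.MP_83608f_co.CN

open Pool.Agent.Lib.MP_83608f_co.EM (Wk)

/-- the bound `e ≤ γ n` for all digraphs on `n` vertices -/
def BdAll (m : ℕ) (γ : ℝ) (n : ℕ) : Prop :=
  ∀ (V : Type) [Fintype V] (A : V → V → Prop), NoCl A m → Fintype.card V = n → Nonempty V →
    ∀ e : ℕ, (∀ u, e ≤ (Finset.univ.filter fun v => A u v).card) → (e : ℝ) ≤ γ * n

namespace THA_

variable {V : Type} [Fintype V] {A : V → V → Prop} {k m : ℕ} {γ : ℝ}

lemma wk_map {W : Type} {B : W → W → Prop} (f : W → V) (hf : ∀ a b, B a b → A (f a) (f b)) (j : ℕ)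
    (x y : W) (h : Wk (⟨B⟩ : Digraph W) j x y) : Wk (⟨A⟩ : Digraph V) j (f x) (f y) := by
  induction j generalizing x with
  | zero =>
    have : x = y := h
    rw [this]
    rfl
  | succ j ih =>
    obtain ⟨z, h1, h2⟩ := h
    exact ⟨f z, hf _ _ h1, ih z h2⟩

lemma nocl_map {W : Type} {B : W → W → Prop} (f : W → V) (hf : ∀ a b, B a b → A (f a) (f b))
    (h : NoCl A m) : NoCl B m := fun j h1 h2 x h3 => h j h1 h2 (f x) (wk_map f hf j x x h3)

lemma bd_of {n : ℕ} (h : ∀ j < n, BdAll m γ j) (hcl : NoCl A m) (T : Finset V) (hT : T.card < n) :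
    Bd A γ T := by
  intro hne e hdeg
  obtain ⟨x, hx⟩ := hne
  have h1 := h T.card hT {x // x ∈ T} (fun a b => A a.1 b.1)
    (nocl_map Subtype.val (fun a b hab => hab) hcl) (Fintype.card_coe T) ⟨⟨x, hx⟩⟩ e (by
      intro u
      refine (hdeg u.1 u.2).trans ?_
      have h2 : (T.filter fun v => A u.1 v) ⊆
          (Finset.univ.filter fun v : {x // x ∈ T} => A u.1 v.1).map (Function.Embedding.subtype _) := by
        intro v hv
        rw [Finset.mem_filter] at hv
        rw [Finset.mem_map]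
        exact ⟨⟨v, hv.1⟩, Finset.mem_filter.2 ⟨Finset.mem_univ _, hv.2⟩, rfl⟩
      have h3 := Finset.card_le_card h2
      rwa [Finset.card_map] at h3)
  exact h1

/-- the number `ν_w` -/
lemma exists_nu (A : V → V → Prop) (w : V) : ∃ (ν : ℕ) (X : Finset V), (∀ x ∈ X, Far A x w) ∧
    X.card = ((inN A X).filter fun u => Nad A u w).card + ν ∧
    ∀ X' : Finset V, (∀ x ∈ X', Far A x w) →
      X'.card ≤ ((inN A X').filter fun u => Nad A u w).card + ν := by
  classical
  obtain ⟨X, hX, hmax⟩ := Finset.exists_max_image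
    ((Finset.univ : Finset (Finset V)).filter fun X => ∀ x ∈ X, Far A x w)
    (fun X => X.card - ((inN A X).filter fun u => Nad A u w).card)
    ⟨∅, Finset.mem_filter.2 ⟨Finset.mem_univ _, fun x hx => absurd hx (Finset.notMem_empty _)⟩⟩
  have hX' := (Finset.mem_filter.1 hX).2
  have hm : ∀ X' : Finset V, (∀ x ∈ X', Far A x w) →
      X'.card - ((inN A X').filter fun u => Nad A u w).card ≤
        X.card - ((inN A X).filter fun u => Nad A u w).card := fun X' h' =>
    hmax X' (Finset.mem_filter.2 ⟨Finset.mem_univ _, h'⟩)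
  rcases Nat.eq_zero_or_pos (X.card - ((inN A X).filter fun u => Nad A u w).card) with h | h
  · refine ⟨0, ∅, fun x hx => absurd hx (Finset.notMem_empty _), ?_, ?_⟩
    · have : inN A (∅ : Finset V) = ∅ := by
        ext v
        simp [inN]
      rw [this]
      simp
    · intro X' hX'
      have := hm X' hX'
      omega
  · refine ⟨X.card - ((inN A X).filter fun u => Nad A u w).card, X, hX', ?_, ?_⟩
    · omega
    · intro X' hX'
      have := hm X' hX'
      omega

/-- the cut of `w` and an optimal set -/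
lemma cut (hirr : ∀ v, ¬ A v v) (hor : ∀ u v, A u v → ¬ A v u) (w : V) (X : Finset V) (ν : ℕ)
    (hX : ∀ x ∈ X, Far A x w) (hν : X.card = ((inN A X).filter fun u => Nad A u w).card + ν) :
    (inN A (insert w X)).card + ν ≤ (insert w X).card + (Finset.univ.filter fun u => A u w).card ∧
    1 + (Finset.univ.filter fun u => A u w).card ≤ (inN A (insert w X)).card ∧
    (∀ v, A w v → v ∉ inN A (insert w X)) := by
  classical
  have hwX : w ∉ X := fun h => (hX w h).1 rfl
  have hUcard : (insert w X).card = X.card + 1 := Finset.card_insert_of_notMem hwX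
  have hno : ∀ v, A w v → v ∉ inN A (insert w X) := by
    intro v hwv
    rw [FIN_.mem_inN]
    rintro (h | ⟨u, hu, h⟩)
    · rw [Finset.mem_insert] at h
      rcases h with h | h
      · exact hirr w (h ▸ hwv)
      · exact (hX v h).2.1 hwv
    · rw [Finset.mem_insert] at hu
      rcases hu with hu | hu
      · rw [hu] at h
        exact hor w v hwv h
      · exact (hX u hu).2.2 v hwv h
  refine ⟨?_, ?_, hno⟩
  · have h1 : inN A (insert w X) ⊆ {w} ∪ ((Finset.univ.filter fun u => A u w) ∪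
        ((inN A X).filter fun u => Nad A u w)) := by
      intro v hv
      rw [Finset.mem_union, Finset.mem_union, Finset.mem_singleton, Finset.mem_filter,
        Finset.mem_filter]
      by_cases h1 : v = w
      · exact Or.inl h1
      by_cases h2 : A v w
      · exact Or.inr (Or.inl ⟨Finset.mem_univ _, h2⟩)
      · refine Or.inr (Or.inr ⟨?_, h1, h2, fun h => hno v h hv⟩)
        rw [FIN_.mem_inN] at hv ⊢
        rcases hv with h | ⟨u, hu, h⟩
        · exact Or.inl ((Finset.mem_insert.1 h).resolve_left h1)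
        · rcases Finset.mem_insert.1 hu with h3 | h3
          · exact absurd (h3 ▸ h) h2
          · exact Or.inr ⟨u, h3, h⟩
    have h2 := Finset.card_le_card h1
    have h3 := Finset.card_union_le {w} ((Finset.univ.filter fun u => A u w) ∪
        ((inN A X).filter fun u => Nad A u w))
    have h4 := Finset.card_union_le (Finset.univ.filter fun u => A u w)
        ((inN A X).filter fun u => Nad A u w)
    rw [Finset.card_singleton] at h3
    omega
  · have h1 : {w} ∪ (Finset.univ.filter fun u => A u w) ⊆ inN A (insert w X) := by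
      intro v hv
      rw [Finset.mem_union, Finset.mem_singleton, Finset.mem_filter] at hv
      rw [FIN_.mem_inN]
      rcases hv with h | h
      · exact Or.inl (Finset.mem_insert.2 (Or.inl h))
      · exact Or.inr ⟨w, Finset.mem_insert_self _ _, h.2⟩
    have h2 : Disjoint {w} (Finset.univ.filter fun u => A u w) := by
      rw [Finset.disjoint_singleton_left, Finset.mem_filter]
      exact fun h => hirr w h.2
    have h3 := Finset.card_le_card h1
    rwa [Finset.card_union_of_disjoint h2, Finset.card_singleton] at h3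

/-- the bound for `ν_w` -/
lemma nu_bound (hγ : 0 ≤ γ) (hirr : ∀ v, ¬ A v v) (hor : ∀ u v, A u v → ¬ A v u)
    (hout : ∀ v, (Finset.univ.filter fun u => A v u).card = k)
    (hbd : ∀ T : Finset V, T.card < Fintype.card V → Bd A γ T) (w : V) (X : Finset V) (ν : ℕ)
    (hX : ∀ x ∈ X, Far A x w) (hν : X.card = ((inN A X).filter fun u => Nad A u w).card + ν) :
    (k : ℝ) - (Finset.univ.filter fun u => A u w).card + ν ≤
      γ * ((Fintype.card V : ℝ) - 1 - (Finset.univ.filter fun u => A u w).card) := by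
  classical
  obtain ⟨c1, c2, c3⟩ := cut hirr hor w X ν hX hν
  obtain ⟨d, hd⟩ : ∃ d, d = (Finset.univ.filter fun u => A u w).card := ⟨_, rfl⟩
  rw [← hd] at c1 c2 ⊢
  obtain ⟨U, hU⟩ : ∃ U, U = insert w X := ⟨_, rfl⟩
  rw [← hU] at c1 c2 c3
  have hUin : U ⊆ inN A U := fun u hu => FIN_.mem_inN.2 (Or.inl hu)
  have hle := Finset.card_le_card hUin
  have hle2 := Finset.card_le_univ (inN A U)
  obtain ⟨O, hO⟩ : ∃ O : Finset V, O = Finset.univ \ inN A U := ⟨_, rfl⟩
  have hOc : O.card + (inN A U).card = Fintype.card V := by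
    rw [hO]
    exact Finset.card_sdiff_add_card_eq_card (Finset.subset_univ _)
  have hsd : (inN A U \ U).card + U.card = (inN A U).card := Finset.card_sdiff_add_card_eq_card hUin
  have hdeg : ∀ u ∈ O, k - (d - ν) ≤ (O.filter fun v => A u v).card := by
    intro u hu
    rw [hO, Finset.mem_sdiff] at hu
    have h1 : (Finset.univ.filter fun v => A u v) ⊆
        (O.filter fun v => A u v) ∪ (inN A U \ U) := by
      intro v hv
      rw [Finset.mem_filter] at hv
      rw [Finset.mem_union, Finset.mem_filter, Finset.mem_sdiff, hO, Finset.mem_sdiff]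
      by_cases hvi : v ∈ inN A U
      · refine Or.inr ⟨hvi, fun h => hu.2 ?_⟩
        exact FIN_.mem_inN.2 (Or.inr ⟨v, h, hv.2⟩)
      · exact Or.inl ⟨⟨Finset.mem_univ _, hvi⟩, hv.2⟩
    have h2 := (Finset.card_le_card h1).trans (Finset.card_union_le _ _)
    rw [hout u] at h2
    omega
  have hn1 : 1 + d ≤ Fintype.card V := c2.trans hle2
  have hn2 : (0 : ℝ) ≤ (Fintype.card V : ℝ) - 1 - d := by
    have : ((1 + d : ℕ) : ℝ) ≤ (Fintype.card V : ℝ) := by exact_mod_cast hn1
    push_cast at this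
    linarith
  have hνd : ν ≤ d := by omega
  rcases Nat.eq_zero_or_pos (k - (d - ν)) with h0 | h0
  · have h1 : k ≤ d - ν := by omega
    have h2 : (k : ℝ) + ν ≤ d := by
      have : k + ν ≤ d := by omega
      exact_mod_cast this
    have h3 := mul_nonneg hγ hn2
    linarith
  · have hk : 0 < (Finset.univ.filter fun u => A w u).card := by
      rw [hout w]
      omega
    obtain ⟨v, hv⟩ := Finset.card_pos.1 hk
    have hvO : v ∈ O := by
      rw [hO, Finset.mem_sdiff]
      exact ⟨Finset.mem_univ _, c3 v (Finset.mem_filter.1 hv).2⟩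
    have hlt : O.card < Fintype.card V := by omega
    have h1 := hbd O hlt ⟨v, hvO⟩ _ hdeg
    have h2 : ((k - (d - ν) : ℕ) : ℝ) = (k : ℝ) - d + ν := by
      rw [Nat.cast_sub (by omega), Nat.cast_sub hνd]
      ring
    rw [h2] at h1
    have h3 : (O.card : ℝ) ≤ (Fintype.card V : ℝ) - 1 - d := by
      have : O.card + (1 + d) ≤ Fintype.card V := by omega
      have : ((O.card + (1 + d) : ℕ) : ℝ) ≤ (Fintype.card V : ℝ) := by exact_mod_cast this
      push_cast at this
      linarith
    exact h1.trans (mul_le_mul_of_nonneg_left h3 hγ)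

/-- the row condition -/
lemma row (hout : ∀ v, (Finset.univ.filter fun u => A v u).card = k)
    (hbd : ∀ T : Finset V, T.card < Fintype.card V → Bd A γ T)
    (hk : γ * (Fintype.card V : ℝ) < k)
    (F : Finset V) (hF : F.Nonempty) :
    Fintype.card V * ((F.filter fun v => v ∈ BLOW_.nb A F).card + k) ≤
      Fintype.card V * (BLOW_.nb A F).card + k * (F.filter fun v => v ∈ BLOW_.nb A F).card := by
  classical
  obtain ⟨F1, hF1⟩ : ∃ F1, F1 = F.filter fun v => v ∈ BLOW_.nb A F := ⟨_, rfl⟩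
  rw [← hF1]
  have hsub : F1 ⊆ BLOW_.nb A F := by
    intro v hv
    rw [hF1, Finset.mem_filter] at hv
    exact hv.2
  have hsd : (BLOW_.nb A F \ F1).card + F1.card = (BLOW_.nb A F).card :=
    Finset.card_sdiff_add_card_eq_card hsub
  rcases Nat.lt_or_ge (BLOW_.nb A F).card (F1.card + k) with hlt | hge
  · obtain ⟨ex, hex⟩ : ∃ ex, ex = F1.card + k - (BLOW_.nb A F).card := ⟨_, rfl⟩
    have hin : ∀ u ∈ F, ex ≤ (F1.filter fun v => A u v).card := by
      intro u hu
      have h1 : (Finset.univ.filter fun v => A u v) ⊆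
          (F1.filter fun v => A u v) ∪ (BLOW_.nb A F \ F1) := by
        intro v hv
        rw [Finset.mem_filter] at hv
        rw [Finset.mem_union, Finset.mem_filter, Finset.mem_sdiff]
        by_cases h : v ∈ F1
        · exact Or.inl ⟨h, hv.2⟩
        · exact Or.inr ⟨BLOW_.mem_nb.2 ⟨u, hu, hv.2⟩, h⟩
      have h2 := (Finset.card_le_card h1).trans (Finset.card_union_le _ _)
      rw [hout u] at h2
      omega
    obtain ⟨u, hu⟩ := hF
    have hne : F1.Nonempty := by
      have h1 := hin u hu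
      have h2 : 0 < (F1.filter fun v => A u v).card := by omega
      obtain ⟨v, hv⟩ := Finset.card_pos.1 h2
      exact ⟨v, (Finset.mem_filter.1 hv).1⟩
    rcases Nat.lt_or_ge F1.card (Fintype.card V) with h1 | h1
    · have h2 := hbd F1 h1 hne ex (fun u hu => hin u (by
        rw [hF1, Finset.mem_filter] at hu
        exact hu.1))
      have h3 : (Fintype.card V : ℝ) * ex ≤ k * F1.card := by
        have h4 := mul_le_mul_of_nonneg_left h2 (Nat.cast_nonneg (α := ℝ) (Fintype.card V))
        have h5 := mul_le_mul_of_nonneg_right hk.le (Nat.cast_nonneg (α := ℝ) F1.card)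
        calc (Fintype.card V : ℝ) * ex ≤ Fintype.card V * (γ * F1.card) := h4
          _ = γ * (Fintype.card V : ℝ) * F1.card := by ring
          _ ≤ k * F1.card := h5
      have h4 : Fintype.card V * ex ≤ k * F1.card := by exact_mod_cast h3
      have h5 : F1.card + k = (BLOW_.nb A F).card + ex := by omega
      rw [h5, Nat.mul_add]
      omega
    · have h2 : F1.card = Fintype.card V := le_antisymm (Finset.card_le_univ _) h1
      have h3 : (BLOW_.nb A F).card = Fintype.card V :=
        le_antisymm (Finset.card_le_univ _) (h2 ▸ Finset.card_le_card hsub)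
      rw [h2, h3]
      apply le_of_eq
      ring
  · exact (Nat.mul_le_mul_left _ hge).trans (Nat.le_add_right _ _)

lemma card_nad' (hirr : ∀ v, ¬ A v v) (hor : ∀ u v, A u v → ¬ A v u)
    (hout : ∀ v, (Finset.univ.filter fun u => A v u).card = k) (w : V) :
    (Finset.univ.filter fun x => Nad A x w).card + (1 + k + (Finset.univ.filter fun u => A u w).card) =
      Fintype.card V := by
  classical
  have h1 : (Finset.univ : Finset V) = (Finset.univ.filter fun x => Nad A x w) ∪
      ({w} ∪ ((Finset.univ.filter fun u => A w u) ∪ (Finset.univ.filter fun u => A u w))) := by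
    ext x
    simp only [Finset.mem_univ, Finset.mem_union, Finset.mem_filter, true_and,
      Finset.mem_singleton, true_iff]
    by_cases hxw : x = w
    · exact Or.inr (Or.inl hxw)
    by_cases h2 : A w x
    · exact Or.inr (Or.inr (Or.inl h2))
    by_cases h3 : A x w
    · exact Or.inr (Or.inr (Or.inr h3))
    · exact Or.inl ⟨hxw, h3, h2⟩
  have d1 : Disjoint (Finset.univ.filter fun u => A w u) (Finset.univ.filter fun u => A u w) := by
    rw [Finset.disjoint_left]
    intro x hx hx'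
    rw [Finset.mem_filter] at hx hx'
    exact hor w x hx.2 hx'.2
  have d2 : Disjoint {w} ((Finset.univ.filter fun u => A w u) ∪
      (Finset.univ.filter fun u => A u w)) := by
    rw [Finset.disjoint_singleton_left, Finset.mem_union, Finset.mem_filter, Finset.mem_filter]
    rintro (h | h)
    · exact hirr w h.2
    · exact hirr w h.2
  have d3 : Disjoint (Finset.univ.filter fun x => Nad A x w)
      ({w} ∪ ((Finset.univ.filter fun u => A w u) ∪ (Finset.univ.filter fun u => A u w))) := by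
    rw [Finset.disjoint_left]
    intro x hx hx'
    rw [Finset.mem_filter] at hx
    obtain ⟨-, f1, f2, f3⟩ := hx
    rw [Finset.mem_union, Finset.mem_union, Finset.mem_singleton, Finset.mem_filter,
      Finset.mem_filter] at hx'
    rcases hx' with h | h | h
    · exact f1 h
    · exact f3 h.2
    · exact f2 h.2
  have h2 : (Finset.univ : Finset V).card = Fintype.card V := rfl
  rw [← h2]
  conv_rhs => rw [h1]
  rw [Finset.card_union_of_disjoint d3, Finset.card_union_of_disjoint d2,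
    Finset.card_union_of_disjoint d1, Finset.card_singleton, hout w]
  ring

lemma sum_in (hout : ∀ v, (Finset.univ.filter fun u => A v u).card = k) :
    ∑ w, (Finset.univ.filter fun u => A u w).card = Fintype.card V * k := by
  have h1 : ∑ w, (Finset.univ.filter fun u => A u w).card =
      ∑ w, (Finset.univ.filter fun u => A w u).card := by
    simp only [Finset.card_filter]
    exact Finset.sum_comm
  rw [h1, Finset.sum_congr rfl fun w _ => hout w, Finset.sum_const, Finset.card_univ, smul_eq_mul]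

/-- the average second neighbourhood, from the weights `a / M` -/
lemma second (hirr : ∀ v, ¬ A v v) (hor : ∀ u v, A u v → ¬ A v u)
    (hout : ∀ v, (Finset.univ.filter fun u => A v u).card = k)
    (M a : ℕ) (hM : 1 ≤ M) (haM : a ≤ M) (ν : V → ℕ)
    (hrow : ∀ F : Finset V, F.Nonempty →
      M * ((F.filter fun v => v ∈ BLOW_.nb A F).card + k) ≤ M * (BLOW_.nb A F).card +
        a * (F.filter fun v => v ∈ BLOW_.nb A F).card)
    (hcol : ∀ w, ∀ X : Finset V, (∀ x ∈ X, Far A x w) →
      X.card ≤ ((inN A X).filter fun u => Nad A u w).card + ν w) :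
    M * (Fintype.card V * k) ≤ M * (∑ x, (sec A x).card) + a * ∑ w, ν w := by
  have h := blow V A k M a hM haM ν hirr hor hout hrow hcol
  have h1 : Fintype.card {p : V × V // Far A p.1 p.2} + (Fintype.card V * (1 + k) +
      ∑ x, (sec A x).card) = Fintype.card V * Fintype.card V := by
    rw [FIN_.card_pairs]
    have h2 : ∑ w, ((Finset.univ.filter fun x => Far A x w).card + (1 + k + (sec A w).card)) =
        ∑ _w : V, Fintype.card V := Finset.sum_congr rfl fun w _ => FIN_.card_far hirr hout w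
    rw [Finset.sum_add_distrib, Finset.sum_add_distrib, Finset.sum_const, Finset.sum_const,
      Finset.card_univ, smul_eq_mul, smul_eq_mul] at h2
    exact h2
  have h3 : Fintype.card {p : V × V // Nad A p.1 p.2} + (Fintype.card V * (1 + k) +
      Fintype.card V * k) = Fintype.card V * Fintype.card V := by
    rw [FIN_.card_pairs]
    have h2 : ∑ w, ((Finset.univ.filter fun x => Nad A x w).card +
        (1 + k + (Finset.univ.filter fun u => A u w).card)) =
        ∑ _w : V, Fintype.card V := Finset.sum_congr rfl fun w _ => card_nad' hirr hor hout w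
    rw [Finset.sum_add_distrib, Finset.sum_add_distrib, Finset.sum_const, Finset.sum_const,
      Finset.card_univ, smul_eq_mul, smul_eq_mul, sum_in hout] at h2
    exact h2
  have h4 : Fintype.card {p : V × V // Far A p.1 p.2} + ∑ x, (sec A x).card =
      Fintype.card {p : V × V // Nad A p.1 p.2} + Fintype.card V * k := by omega
  have h5 : M * (Fintype.card {p : V × V // Far A p.1 p.2} + ∑ x, (sec A x).card) =
      M * (Fintype.card {p : V × V // Nad A p.1 p.2} + Fintype.card V * k) := by rw [h4]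
  rw [Nat.mul_add, Nat.mul_add] at h5
  omega

/-- a ball grows -/
lemma grow (hk : 1 ≤ k) (hout : ∀ v, (Finset.univ.filter fun u => A v u).card = k)
    (hbd : ∀ T : Finset V, T.card < Fintype.card V → Bd A γ T) (hcl : NoCl A m) (x : V) (i : ℕ)
    (hi : i + 2 ≤ m) :
    ((LAY_.cb A x (i + 1)).card : ℝ) - 1 + k - γ * ((LAY_.cb A x (i + 1)).card - 1) ≤
      (LAY_.cb A x (i + 2)).card - 1 := by
  classical
  obtain ⟨B, hB⟩ : ∃ B, B = LAY_.cb A x (i + 1) := ⟨_, rfl⟩
  obtain ⟨T, hT⟩ : ∃ T, T = B.erase x := ⟨_, rfl⟩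
  have hxB : x ∈ B := by
    rw [hB]
    exact LAY_.mem_cb_self x _
  have hTB : T.card + 1 = B.card := by
    rw [hT]
    exact Finset.card_erase_add_one hxB
  have hlt : T.card < Fintype.card V := by
    have := Finset.card_le_univ B
    omega
  have hne : T.Nonempty := by
    have h1 : 0 < (Finset.univ.filter fun u => A x u).card := by
      rw [hout x]
      omega
    obtain ⟨v, hv⟩ := Finset.card_pos.1 h1
    have hxv := (Finset.mem_filter.1 hv).2
    refine ⟨v, ?_⟩
    rw [hT, Finset.mem_erase, hB]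
    refine ⟨fun h => LAY_.irr hcl (by omega) x (h ▸ hxv), ?_⟩
    exact FIN_.mem_outN.2 (Or.inr ⟨x, LAY_.mem_cb_self x i, hxv⟩)
  obtain ⟨u, hu, hmin⟩ := Finset.exists_min_image T (fun u => (T.filter fun v => A u v).card) hne
  have h1 := hbd T hlt hne (T.filter fun v => A u v).card hmin
  have huB : u ∈ B := by
    rw [hT] at hu
    exact Finset.mem_of_mem_erase hu
  have hsub : (Finset.univ.filter fun v => A u v) ⊆
      (T.filter fun v => A u v) ∪ (LAY_.cb A x (i + 2) \ B) := by
    intro v hv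
    rw [Finset.mem_filter] at hv
    rw [Finset.mem_union, Finset.mem_filter, Finset.mem_sdiff, hT, Finset.mem_erase]
    by_cases hvB : v ∈ B
    · refine Or.inl ⟨⟨?_, hvB⟩, hv.2⟩
      intro hvx
      rw [hB] at huB
      obtain ⟨j, f1, f2⟩ := LAY_.cb_walk x (i + 1) u huB
      have f3 := f2.snoc hv.2
      rw [hvx] at f3
      exact hcl (j + 1) (by omega) (by omega) x f3
    · refine Or.inr ⟨?_, hvB⟩
      rw [hB] at huB
      exact FIN_.mem_outN.2 (Or.inr ⟨u, huB, hv.2⟩)
  have h2 := (Finset.card_le_card hsub).trans (Finset.card_union_le _ _)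
  rw [hout u] at h2
  have h3 : (LAY_.cb A x (i + 2) \ B).card + B.card = (LAY_.cb A x (i + 2)).card := by
    rw [hB]
    exact Finset.card_sdiff_add_card_eq_card (LAY_.cb_sub x (i + 1))
  rw [← hB]
  have h4 : k + B.card ≤ (T.filter fun v => A u v).card + (LAY_.cb A x (i + 2)).card := by omega
  have h5 : (k : ℝ) + B.card ≤ ((T.filter fun v => A u v).card : ℝ) + (LAY_.cb A x (i + 2)).card := by
    exact_mod_cast h4
  have h6 : (T.card : ℝ) = (B.card : ℝ) - 1 := by
    have : ((T.card + 1 : ℕ) : ℝ) = (B.card : ℝ) := by exact_mod_cast hTB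
    push_cast at this
    linarith
  rw [h6] at h1
  linarith

/-- the size of the balls -/
lemma ball (hγ : 0 ≤ γ) (hγ1 : γ ≤ 1) (hk : 1 ≤ k)
    (hout : ∀ v, (Finset.univ.filter fun u => A v u).card = k)
    (hbd : ∀ T : Finset V, T.card < Fintype.card V → Bd A γ T) (hcl : NoCl A m) (x : V) (i : ℕ)
    (hi : i + 2 ≤ m) :
    γ * (1 - γ) ^ i * (k + (sec A x).card) + k * (1 - (1 - γ) ^ i) ≤
      γ * ((LAY_.cb A x (i + 2)).card - 1) := by
  induction i with
  | zero =>
    have h1 := LAY_.cb_two (fun v => LAY_.irr hcl (by omega) v) hout x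
    have h2 : ((1 + k + (sec A x).card : ℕ) : ℝ) ≤ ((LAY_.cb A x 2).card : ℝ) := by exact_mod_cast h1
    push_cast at h2
    simp only [pow_zero, mul_one, sub_self, mul_zero, add_zero, Nat.zero_add]
    exact mul_le_mul_of_nonneg_left (by linarith) hγ
  | succ i ih =>
    have h1 := ih (by omega)
    have h2 := grow hk hout hbd hcl x (i + 1) (by omega)
    have h3 := mul_le_mul_of_nonneg_left h2 hγ
    have h4 : 0 ≤ 1 - γ := by linarith
    have h5 := mul_le_mul_of_nonneg_left h1 h4
    have e1 : i + 1 + 1 = i + 2 := by ring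
    have e2 : i + 1 + 2 = i + 3 := by ring
    rw [e1, e2] at h3
    rw [e2]
    calc γ * (1 - γ) ^ (i + 1) * (k + (sec A x).card) + k * (1 - (1 - γ) ^ (i + 1))
        = (1 - γ) * (γ * (1 - γ) ^ i * (k + (sec A x).card) + k * (1 - (1 - γ) ^ i)) + γ * k := by ring
      _ ≤ (1 - γ) * (γ * ((LAY_.cb A x (i + 2)).card - 1)) + γ * k := by linarith
      _ = γ * (((LAY_.cb A x (i + 2)).card : ℝ) - 1 + k - γ * ((LAY_.cb A x (i + 2)).card - 1)) := by ring
      _ ≤ γ * ((LAY_.cb A x (i + 3)).card - 1) := h3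

/-- a ball of radius `i` and the second in-neighbourhood -/
lemma count (hcl : NoCl A m) (i : ℕ) (hi : i + 2 ≤ m) (x : V) :
    (LAY_.cb A x i).card + ((Finset.univ.filter fun u => A u x).card + (Dig_.secIn A x).card) ≤
      Fintype.card V := by
  classical
  have memI : ∀ z, z ∈ Dig_.secIn A x ↔ z ≠ x ∧ ¬ A z x ∧ ∃ y, A z y ∧ A y x := by
    intro z
    simp [Dig_.secIn]
  have d1 : Disjoint (Finset.univ.filter fun u => A u x) (Dig_.secIn A x) := by
    rw [Finset.disjoint_left]
    intro z hz hz'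
    rw [Finset.mem_filter] at hz
    exact ((memI z).1 hz').2.1 hz.2
  have d2 : Disjoint (LAY_.cb A x i) ((Finset.univ.filter fun u => A u x) ∪ Dig_.secIn A x) := by
    rw [Finset.disjoint_left]
    intro z hz hz'
    obtain ⟨j, f1, f2⟩ := LAY_.cb_walk x _ z hz
    rw [Finset.mem_union, Finset.mem_filter] at hz'
    rcases hz' with h | h
    · exact hcl (j + 1) (by omega) (by omega) x (f2.snoc h.2)
    · obtain ⟨-, -, y, h2, h3⟩ := (memI z).1 h
      exact hcl (j + 1 + 1) (by omega) (by omega) x ((f2.snoc h2).snoc h3)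
  have h2 := Finset.card_le_univ
    (LAY_.cb A x i ∪ ((Finset.univ.filter fun u => A u x) ∪ Dig_.secIn A x))
  rwa [Finset.card_union_of_disjoint d2, Finset.card_union_of_disjoint d1] at h2

/-- the theorem for out-regular digraphs, from the bound for smaller sets -/
lemma main (hγ : 0 < γ) (hγ1 : γ ≤ 1) (hm : 4 ≤ m)
    (hγm : (1 - γ) ^ (m - 4) ≤ (1 + (1 - γ) ^ (m - 4)) * (γ * (2 - γ * (1 - γ)))) (hk : 1 ≤ k)
    (hout : ∀ v, (Finset.univ.filter fun u => A v u).card = k) (hne : Nonempty V)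
    (hbd : ∀ T : Finset V, T.card < Fintype.card V → Bd A γ T) (hcl : NoCl A m) :
    (k : ℝ) ≤ γ * (Fintype.card V : ℝ) := by
  by_contra hlt
  push Not at hlt
  have hirr := LAY_.irr hcl (by omega)
  have hor := LAY_.anti hcl (by omega)
  obtain ⟨n, hn⟩ : ∃ n, n = Fintype.card V := ⟨_, rfl⟩
  have hn0 : 0 < n := by
    rw [hn]
    exact Fintype.card_pos
  have hkn : k ≤ n := by
    obtain ⟨v⟩ := hne
    rw [← hout v, hn]
    exact Finset.card_le_univ _
  choose ν X hX hν hmax using fun w => exists_nu A w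
  -- the sum of the `ν_w`
  have hsum : (∑ w, (ν w : ℝ)) ≤ γ * ((n : ℝ) * (n - 1 - k)) := by
    have h1 : ∑ w, ((k : ℝ) - (Finset.univ.filter fun u => A u w).card + ν w) ≤
        ∑ w, γ * ((Fintype.card V : ℝ) - 1 - (Finset.univ.filter fun u => A u w).card) :=
      Finset.sum_le_sum fun w _ => nu_bound hγ.le hirr hor hout hbd w (X w) (ν w) (hX w) (hν w)
    have h2 : (∑ w, ((Finset.univ.filter fun u => A u w).card : ℝ)) = n * k := by
      have := sum_in hout
      rw [← hn] at this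
      exact_mod_cast this
    rw [← Finset.mul_sum, Finset.sum_add_distrib, Finset.sum_sub_distrib, Finset.sum_sub_distrib,
      Finset.sum_sub_distrib, Finset.sum_const, Finset.sum_const, Finset.sum_const, Finset.card_univ,
      ← hn, h2, nsmul_eq_mul, nsmul_eq_mul, nsmul_eq_mul] at h1
    calc (∑ w, (ν w : ℝ)) = (n : ℝ) * k - n * k + ∑ w, (ν w : ℝ) := by ring
      _ ≤ γ * ((n : ℝ) * n - n * 1 - n * k) := h1
      _ = γ * ((n : ℝ) * (n - 1 - k)) := by ring
  -- the average second neighbourhood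
  have hsec := second hirr hor hout n k (by omega) hkn ν
    (fun F hF => by
      rw [hn]
      exact row hout hbd hlt F hF) hmax
  obtain ⟨S, hS⟩ : ∃ S : ℕ, S = ∑ x, (sec A x).card := ⟨_, rfl⟩
  rw [← hn, ← hS] at hsec
  have hsec' : (n : ℝ) * (n * k) ≤ n * S + k * ∑ w, (ν w : ℝ) := by exact_mod_cast hsec
  have hn0' : (0 : ℝ) < n := by exact_mod_cast hn0
  have hk0 : (0 : ℝ) < k := by exact_mod_cast (by omega : 0 < k)
  have hS1 : (n : ℝ) * k ≤ S + k * (γ * (n - 1 - k)) := by
    have h1 := mul_le_mul_of_nonneg_left hsum hk0.le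
    have h2 : (n : ℝ) * (n * k) ≤ n * (S + k * (γ * (n - 1 - k))) := by
      calc (n : ℝ) * (n * k) ≤ n * S + k * ∑ w, (ν w : ℝ) := hsec'
        _ ≤ n * S + k * (γ * ((n : ℝ) * (n - 1 - k))) := by linarith
        _ = n * (S + k * (γ * (n - 1 - k))) := by ring
    exact le_of_mul_le_mul_left h2 hn0'
  -- the balls
  obtain ⟨G, hG⟩ : ∃ G : ℝ, G = (1 - γ) ^ (m - 4) := ⟨_, rfl⟩
  rw [← hG] at hγm
  have hG0 : 0 ≤ G := by
    rw [hG]
    exact pow_nonneg (by linarith) _
  have hG1 : G ≤ 1 := by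
    rw [hG]
    exact pow_le_one₀ (by linarith) (by linarith)
  have hball : ∀ x, γ * G * (k + (sec A x).card) + k * (1 - G) +
      γ * (1 + ((Finset.univ.filter fun u => A u x).card + (Dig_.secIn A x).card)) ≤ γ * n := by
    intro x
    have h1 := ball hγ.le hγ1 hk hout hbd hcl x (m - 4) (by omega)
    rw [← hG] at h1
    have h2 := count hcl (m - 4 + 2) (by omega) x
    rw [← hn] at h2
    have h3 : ((LAY_.cb A x (m - 4 + 2)).card : ℝ) +
        (((Finset.univ.filter fun u => A u x).card : ℝ) + (Dig_.secIn A x).card) ≤ n := by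
      exact_mod_cast h2
    have h4 := mul_le_mul_of_nonneg_left h3 hγ.le
    linarith
  have hS2 : γ * G * (n * k + S) + n * (k * (1 - G)) + γ * (n + (n * k + S)) ≤ n * (γ * n) := by
    have h1 := Finset.sum_le_sum fun x (_ : x ∈ (Finset.univ : Finset V)) => hball x
    have h2 : (∑ x, ((Finset.univ.filter fun u => A u x).card : ℝ)) = n * k := by
      have := sum_in hout
      rw [← hn] at this
      exact_mod_cast this
    have h3 : (∑ x, ((sec A x).card : ℝ)) = S := by
      rw [hS]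
      push_cast
      rfl
    have h4 : (∑ x, ((Dig_.secIn A x).card : ℝ)) = S := by
      rw [hS, ← Dig_.sum_secIn]
      push_cast
      rfl
    simp only [Finset.sum_add_distrib, ← Finset.mul_sum, h2, h3, h4, Finset.sum_const,
      Finset.card_univ, nsmul_eq_mul, ← hn] at h1
    linarith
  -- the final contradiction
  have h1 : 0 < k - γ * n := by
    rw [← hn] at hlt
    linarith
  have hG2 : 0 ≤ 1 + G := by linarith
  have h2 : γ * (1 + G) * (n * k - k * (γ * (n - 1 - k))) ≤ γ * (1 + G) * (S : ℝ) :=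
    mul_le_mul_of_nonneg_left (by linarith) (mul_nonneg hγ.le hG2)
  -- `γ n² ≥ γ(1+G)(2nk - kγ(n-k)) + nk(1-G)`
  have h3 : γ * (1 + G) * (2 * (n * k) - k * (γ * (n - k))) + n * k * (1 - G) ≤ γ * (n * n) := by
    have h5 : 0 ≤ γ * (1 + G) * (k * γ) :=
      mul_nonneg (mul_nonneg hγ.le (by linarith)) (mul_nonneg hk0.le hγ.le)
    have h6 : 0 ≤ γ * (n : ℝ) := mul_nonneg hγ.le hn0'.le
    nlinarith
  have h4 : γ * (n * n) * G ≤ γ * (n * n) * ((1 + G) * (γ * (2 - γ * (1 - γ)))) :=
    mul_le_mul_of_nonneg_left hγm (mul_nonneg hγ.le (mul_nonneg hn0'.le hn0'.le))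
  -- monotonicity
  have h5 : 0 < (k - γ * n) * (γ * (1 + G) * (2 * n - γ * n + γ * (k + γ * n)) + n * (1 - G)) := by
    apply mul_pos h1
    have e1 : 0 < γ * (1 + G) * (2 * n - γ * n + γ * (k + γ * n)) := by
      apply mul_pos (mul_pos hγ (by linarith))
      have e2 : 0 ≤ γ * (k + γ * n) := mul_nonneg hγ.le (by positivity)
      have e3 : 0 < (2 - γ) * n := mul_pos (by linarith) hn0'
      linarith
    have e4 : 0 ≤ n * (1 - G) := mul_nonneg hn0'.le (by linarith)
    linarith
  nlinarith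

end THA_

/-- the out-degree theorem -/
theorem bdAll {m : ℕ} {γ : ℝ} (hγ : 0 < γ) (hγ1 : γ ≤ 1) (hm : 4 ≤ m)
    (hγm : (1 - γ) ^ (m - 4) ≤ (1 + (1 - γ) ^ (m - 4)) * (γ * (2 - γ * (1 - γ)))) (n : ℕ) :
    BdAll m γ n := by
  induction n using Nat.strong_induction_on with
  | _ n ih =>
    intro V _ A hcl hV hne e hdeg
    rcases Nat.eq_zero_or_pos e with h0 | h0
    · rw [h0, Nat.cast_zero]
      exact mul_nonneg hγ.le (Nat.cast_nonneg _)
    choose N hN1 hN2 using fun u => Finset.exists_subset_card_eq (hdeg u)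
    have hcl' : NoCl (fun u v => v ∈ N u) m := THA_.nocl_map (A := A) id (fun a b hab =>
      (Finset.mem_filter.1 (hN1 a hab)).2) hcl
    have h := THA_.main (A := fun u v => v ∈ N u) hγ hγ1 hm hγm h0 (by
      intro v
      refine (congrArg Finset.card ?_).trans (hN2 v)
      ext u
      simp) hne (fun T hT => THA_.bd_of ih hcl' T (by rwa [hV] at hT)) hcl'
    rwa [hV] at h

/-- the out-degree theorem for subsets -/
theorem bd' {V : Type} [Fintype V] {A : V → V → Prop} {m : ℕ} {γ : ℝ} (hγ : 0 < γ) (hγ1 : γ ≤ 1)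
    (hm : 4 ≤ m) (hγm : (1 - γ) ^ (m - 4) ≤ (1 + (1 - γ) ^ (m - 4)) * (γ * (2 - γ * (1 - γ))))
    (hcl : NoCl A m) (T : Finset V) : Bd A γ T :=
  THA_.bd_of (n := T.card + 1) (fun j _ => bdAll hγ hγ1 hm hγm j) hcl T (by omega)

end Pool.Agent.Lib.MP_83608f_co.CN
end
end

section
/-! MP_83608f_co, part CN, module THB (helper58): diregular digraphs, girth at least five.

Let `D` be `k`-diregular without closed walks of length `1, ..., m`.  The average second neighbourhood is at least
`k - γ max ν_w` (averaged main estimate), and every cut has excess at most `ε k` if `n < t k`. -/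
set_option autoImplicit false

open Classical

noncomputable section

namespace Pool.Agent.Lib.MP_83608f_co.CN

open Pool.Agent.Lib.MP_83608f_co.EM (Wk)

namespace THB_

variable {V : Type} [Fintype V] {A : V → V → Prop} {k m : ℕ} {γ : ℝ}

/-- the ball around `v` inside `S`, in terms of the out-degree of `v` in `S` -/
lemma ball_card' (hγ : 0 < γ) (hγ1 : γ ≤ 1) (hcl : NoCl A m) (S : Finset V) (e : ℕ)
    (hS : ∀ u ∈ S, e ≤ (S.filter fun v => A u v).card)
    (hbd : ∀ T : Finset V, Bd A γ T) (v : V) (hv : v ∈ S) (j : ℕ) (hj : j + 1 ≤ m) :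
    γ * (1 - γ) ^ j * (S.filter fun z => A v z).card + (e : ℝ) * (1 - (1 - γ) ^ j) ≤
      γ * (GM_.ball A S v (j + 1)).card := by
  induction j with
  | zero =>
    have h1 : GM_.ball A S v 1 = S.filter fun z => A v z := by
      ext z
      simp [GM_.ball]
    rw [h1]
    simp
  | succ j ih =>
    have h1 := ih (by omega)
    have h2 := GM_.ball_step S e hS (fun T _ _ => hbd T) v hv (j + 1)
      (GM_.ball_notMem hcl S v (j + 1) (by omega))
    have h3 := mul_le_mul_of_nonneg_left h2 hγ.le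
    have h4 : 0 ≤ 1 - γ := by linarith
    have h5 := mul_le_mul_of_nonneg_left h1 h4
    calc γ * (1 - γ) ^ (j + 1) * (S.filter fun z => A v z).card + (e : ℝ) * (1 - (1 - γ) ^ (j + 1))
        = (1 - γ) * (γ * (1 - γ) ^ j * (S.filter fun z => A v z).card +
            (e : ℝ) * (1 - (1 - γ) ^ j)) + γ * e := by ring
      _ ≤ (1 - γ) * (γ * (GM_.ball A S v (j + 1)).card) + γ * e := by linarith
      _ = γ * (e + (1 - γ) * (GM_.ball A S v (j + 1)).card) := by ring
      _ ≤ γ * (GM_.ball A S v (j + 1 + 1)).card := h3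

/-- one vertex of a set -/
lemma vertex (hγ : 0 < γ) (hγ1 : γ ≤ 1) (hm : 2 ≤ m) (hcl : NoCl A m) (S : Finset V) (e : ℕ)
    (hS : ∀ u ∈ S, e ≤ (S.filter fun v => A u v).card)
    (hbd : ∀ T : Finset V, Bd A γ T) (v : V) (hv : v ∈ S) :
    γ * (1 + (S.filter fun u => A u v).card) + (γ * (1 - γ) ^ (m - 2) * (S.filter fun z => A v z).card +
      (e : ℝ) * (1 - (1 - γ) ^ (m - 2))) ≤ γ * S.card := by
  classical
  have hm1 : m - 2 + 1 = m - 1 := by omega
  have h1 := ball_card' hγ hγ1 hcl S e hS hbd v hv (m - 2) (by omega)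
  rw [hm1] at h1
  obtain ⟨B, hB⟩ : ∃ B, B = GM_.ball A S v (m - 1) := ⟨_, rfl⟩
  rw [← hB] at h1
  have hvB : v ∉ B := by
    rw [hB]
    exact GM_.ball_notMem hcl S v (m - 1) (by omega)
  have d1 : Disjoint (S.filter fun u => A u v) B := by
    rw [Finset.disjoint_left]
    intro z hz hzB
    rw [Finset.mem_filter] at hz
    rw [hB] at hzB
    obtain ⟨i, f1, f2, f3⟩ := GM_.ball_walk S v (m - 1) z hzB
    exact hcl (i + 1) (by omega) (by omega) v (f3.snoc hz.2)
  have d2 : Disjoint {v} ((S.filter fun u => A u v) ∪ B) := by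
    rw [Finset.disjoint_singleton_left, Finset.mem_union, Finset.mem_filter]
    rintro (h | h)
    · exact hcl 1 (le_refl _) (by omega) v (EM.Wk.one.2 h.2)
    · exact hvB h
  have hsub : {v} ∪ ((S.filter fun u => A u v) ∪ B) ⊆ S := by
    intro z hz
    rw [Finset.mem_union, Finset.mem_union, Finset.mem_singleton, Finset.mem_filter] at hz
    rcases hz with h | h | h
    · rw [h]; exact hv
    · exact h.1
    · rw [hB] at h
      exact GM_.ball_sub S v (m - 1) h
  have h4 := Finset.card_le_card hsub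
  rw [Finset.card_union_of_disjoint d2, Finset.card_union_of_disjoint d1,
    Finset.card_singleton] at h4
  have h5 : (1 : ℝ) + ((S.filter fun u => A u v).card + B.card) ≤ S.card := by exact_mod_cast h4
  have h6 := mul_le_mul_of_nonneg_left h5 hγ.le
  linarith

/-- one side of a cut -/
lemma side (hγ : 0 < γ) (hγ1 : γ ≤ 1) (hm : 2 ≤ m) (hcl : NoCl A m)
    (hbd : ∀ T : Finset V, Bd A γ T)
    (hout : ∀ v, (Finset.univ.filter fun u => A v u).card = k)
    (hin : ∀ v, (Finset.univ.filter fun u => A u v).card = k)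
    (O S : Finset V) (hO : O.Nonempty) (hS : S.card ≤ k)
    (hcut : ∀ a ∈ O, ∀ b, A a b → b ∈ O ∨ b ∈ S) :
    ((k : ℝ) - S.card) ≤ γ * O.card ∧
    γ * (1 + (1 - γ) ^ (m - 2)) * (k * O.card - k * S.card) +
      ((k : ℝ) - S.card) * (1 - (1 - γ) ^ (m - 2)) * O.card < γ * ((O.card : ℝ) * O.card) := by
  classical
  -- out-degrees inside `O`
  have hsplit : ∀ a ∈ O, k ≤ (O.filter fun v => A a v).card + (S.filter fun v => A a v).card := by
    intro a ha
    have h1 : (Finset.univ.filter fun v => A a v) ⊆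
        (O.filter fun v => A a v) ∪ (S.filter fun v => A a v) := by
      intro v hv
      rw [Finset.mem_filter] at hv
      rw [Finset.mem_union, Finset.mem_filter, Finset.mem_filter]
      rcases hcut a ha v hv.2 with h | h
      · exact Or.inl ⟨h, hv.2⟩
      · exact Or.inr ⟨h, hv.2⟩
    have h2 := (Finset.card_le_card h1).trans (Finset.card_union_le _ _)
    rwa [hout a] at h2
  have hdeg : ∀ a ∈ O, k - S.card ≤ (O.filter fun v => A a v).card := by
    intro a ha
    have h1 := hsplit a ha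
    have h2 := Finset.card_le_card (Finset.filter_subset (fun v => A a v) S)
    omega
  constructor
  · have h1 := hbd O hO _ hdeg
    rw [Nat.cast_sub hS] at h1
    exact h1
  -- arcs from `O` to `S`
  have harcs : ∑ a ∈ O, (S.filter fun v => A a v).card ≤ S.card * k := by
    have h1 : ∑ a ∈ O, (S.filter fun v => A a v).card = ∑ v ∈ S, (O.filter fun a => A a v).card := by
      simp only [Finset.card_filter]
      exact Finset.sum_comm
    rw [h1, ← smul_eq_mul, ← Finset.sum_const]
    apply Finset.sum_le_sum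
    intro v _
    rw [← hin v]
    apply Finset.card_le_card
    intro a ha
    rw [Finset.mem_filter] at ha ⊢
    exact ⟨Finset.mem_univ _, ha.2⟩
  obtain ⟨E, hE⟩ : ∃ E : ℕ, E = ∑ a ∈ O, (O.filter fun v => A a v).card := ⟨_, rfl⟩
  have hE' : ∑ v ∈ O, (O.filter fun a => A a v).card = E := by
    rw [hE]
    simp only [Finset.card_filter]
    exact Finset.sum_comm
  have hE1 : O.card * k ≤ E + S.card * k := by
    have h2 : ∑ _a ∈ O, k ≤ ∑ a ∈ O, ((O.filter fun v => A a v).card + (S.filter fun v => A a v).card) :=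
      Finset.sum_le_sum hsplit
    rw [Finset.sum_const, smul_eq_mul, Finset.sum_add_distrib, ← hE] at h2
    omega
  have hE2 : (O.card : ℝ) * k ≤ E + S.card * k := by exact_mod_cast hE1
  obtain ⟨Q, hQ⟩ : ∃ Q : ℝ, Q = (1 - γ) ^ (m - 2) := ⟨_, rfl⟩
  have hQ0 : 0 ≤ Q := by
    rw [hQ]
    exact pow_nonneg (by linarith) _
  have hsum := Finset.sum_le_sum fun v (hv : v ∈ O) =>
    vertex hγ hγ1 hm hcl O (k - S.card) hdeg hbd v hv
  rw [← hQ] at hsum ⊢
  have e1 : (∑ v ∈ O, ((O.filter fun a => A a v).card : ℝ)) = E := by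
    rw [← hE']
    push_cast
    rfl
  have e2 : (∑ v ∈ O, ((O.filter fun a => A v a).card : ℝ)) = E := by
    rw [hE]
    push_cast
    rfl
  simp only [Finset.sum_add_distrib, ← Finset.mul_sum, e1, e2, Finset.sum_const,
    nsmul_eq_mul] at hsum
  rw [Nat.cast_sub hS] at hsum
  have h1 : γ * (1 + Q) * (k * O.card - k * S.card) ≤ γ * (1 + Q) * E :=
    mul_le_mul_of_nonneg_left (by linarith) (mul_nonneg hγ.le (by linarith))
  have h2 : 0 < γ * (O.card : ℝ) := mul_pos hγ (by exact_mod_cast hO.card_pos)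
  nlinarith

/-- the arithmetic: the smaller side -/
lemma arith {γ Q t ε k e o : ℝ} (hγ : 0 < γ) (hk : 0 < k) (he : ε * k < e) (hε : 0 ≤ ε)
    (ho : e ≤ γ * o)
    (hF : γ * (1 + Q) * (k * o - k * (k - e)) + e * (1 - Q) * o < γ * (o * o))
    (hμ : 2 * o < (t - 1) * k + e) (c0 : 0 ≤ Q)
    (c1 : 0 ≤ γ * (t - 1) / 2 - γ * (1 + Q) + ε * (γ / 2 + Q))
    (c2 : γ * ((t - 1) ^ 2 / 4 - (1 + Q) * (t - 1) / 2 + (1 + Q)) +
      (γ * (t - 1) / 2 - γ * (1 + Q) * (3 / 2) - (1 - Q) * (t - 1) / 2) * ε +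
      (γ / 4 - (1 - Q) / 2) * ε ^ 2 ≤ 0)
    (c3 : γ * (t - 1) / 2 - γ * (1 + Q) * (3 / 2) - (1 - Q) * (t - 1) / 2 ≤ 0)
    (c4 : γ / 4 - (1 - Q) / 2 ≤ 0) : False := by
  obtain ⟨μ, hμd⟩ : ∃ μ, μ = ((t - 1) * k + e) / 2 := ⟨_, rfl⟩
  have h1 : o < μ := by rw [hμd]; linarith
  have h2 : 0 ≤ (γ * o - e) * (μ - o) := mul_nonneg (by linarith) (by linarith)
  -- the slope
  have hs : 0 ≤ γ * μ + e - γ * (1 + Q) * k - e * (1 - Q) := by
    have h3 : 0 ≤ (e - ε * k) * (γ / 2 + Q) := mul_nonneg (by linarith) (by linarith)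
    have h4 := mul_nonneg hk.le c1
    rw [hμd]
    nlinarith
  have h5 : (γ * μ + e - γ * (1 + Q) * k - e * (1 - Q)) * o ≤
      (γ * μ + e - γ * (1 + Q) * k - e * (1 - Q)) * μ := mul_le_mul_of_nonneg_left h1.le hs
  -- the value at `μ`
  have h6 : 0 < γ * (μ * μ) - γ * (1 + Q) * (k * μ - k * (k - e)) - e * (1 - Q) * μ := by
    nlinarith
  have h7 : 0 < γ * ((t - 1) ^ 2 / 4 - (1 + Q) * (t - 1) / 2 + (1 + Q)) * k ^ 2 +
      (γ * (t - 1) / 2 - γ * (1 + Q) * (3 / 2) - (1 - Q) * (t - 1) / 2) * (k * e) +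
      (γ / 4 - (1 - Q) / 2) * e ^ 2 := by
    rw [hμd] at h6
    nlinarith
  have h8 : ε * k ^ 2 ≤ k * e := by nlinarith
  have h9 : ε ^ 2 * k ^ 2 ≤ e ^ 2 := by
    have : 0 ≤ ε * k := mul_nonneg hε hk.le
    nlinarith
  have h10 := mul_le_mul_of_nonpos_left h8 c3
  have h11 := mul_le_mul_of_nonpos_left h9 c4
  have h12 := mul_nonpos_of_nonpos_of_nonneg c2 (sq_nonneg k)
  nlinarith

/-- the excess of a cut is at most `ε k` if `n < t k` -/
lemma excess {t ε : ℝ} (hγ : 0 < γ) (hγ1 : γ ≤ 1) (hm : 4 ≤ m) (hk : 1 ≤ k) (hcl : NoCl A m)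
    (hbd : ∀ T : Finset V, Bd A γ T) (hbd' : ∀ T : Finset V, Bd (fun a b => A b a) γ T)
    (hout : ∀ v, (Finset.univ.filter fun u => A v u).card = k)
    (hin : ∀ v, (Finset.univ.filter fun u => A u v).card = k)
    (O S U : Finset V) (hO : O.Nonempty) (hU : U.Nonempty)
    (hn : (O.card : ℝ) + S.card + U.card < t * k)
    (hcut : ∀ a ∈ O, ∀ b, A a b → b ∈ O ∨ b ∈ S) (hcut' : ∀ b ∈ U, ∀ a, A a b → a ∈ U ∨ a ∈ S)
    (hε : 0 ≤ ε)
    (c1 : 0 ≤ γ * (t - 1) / 2 - γ * (1 + (1 - γ) ^ (m - 2)) + ε * (γ / 2 + (1 - γ) ^ (m - 2)))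
    (c2 : γ * ((t - 1) ^ 2 / 4 - (1 + (1 - γ) ^ (m - 2)) * (t - 1) / 2 + (1 + (1 - γ) ^ (m - 2))) +
      (γ * (t - 1) / 2 - γ * (1 + (1 - γ) ^ (m - 2)) * (3 / 2) -
        (1 - (1 - γ) ^ (m - 2)) * (t - 1) / 2) * ε + (γ / 4 - (1 - (1 - γ) ^ (m - 2)) / 2) * ε ^ 2 ≤ 0)
    (c3 : γ * (t - 1) / 2 - γ * (1 + (1 - γ) ^ (m - 2)) * (3 / 2) -
      (1 - (1 - γ) ^ (m - 2)) * (t - 1) / 2 ≤ 0)
    (c4 : γ / 4 - (1 - (1 - γ) ^ (m - 2)) / 2 ≤ 0) :
    (k : ℝ) - S.card ≤ ε * k := by
  by_contra hlt
  push Not at hlt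
  have hk0 : (0 : ℝ) < k := by exact_mod_cast (by omega : 0 < k)
  have hεk : 0 ≤ ε * k := mul_nonneg hε hk0.le
  have hS : S.card ≤ k := by
    have : (S.card : ℝ) ≤ k := by linarith
    exact_mod_cast this
  have hQ0 : 0 ≤ (1 - γ) ^ (m - 2) := pow_nonneg (by linarith) _
  have s1 := side hγ hγ1 (by omega) hcl hbd hout hin O S hO hS hcut
  have s2 := side (A := fun a b => A b a) hγ hγ1 (by omega) (CUT_.nocl_flip hcl) hbd' hin hout U S hU
    hS (fun b hb a hab => hcut' b hb a hab)
  have e1 : (k : ℝ) - (k - S.card) = S.card := by ring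
  rcases le_total (O.card : ℝ) (U.card : ℝ) with h | h
  · refine arith (o := (O.card : ℝ)) (e := (k : ℝ) - S.card) hγ hk0 hlt hε s1.1 ?_ ?_ hQ0 c1 c2 c3 c4
    · rw [e1]
      exact s1.2
    · linarith
  · refine arith (o := (U.card : ℝ)) (e := (k : ℝ) - S.card) hγ hk0 hlt hε s2.1 ?_ ?_ hQ0 c1 c2 c3 c4
    · rw [e1]
      exact s2.2
    · linarith

/-- the numerical conditions on the constants -/
structure Num (m : ℕ) (γ t ε : ℝ) : Prop where
  hγ : 0 < γ
  hγ1 : γ ≤ 1
  hm : 4 ≤ m
  hA : (1 - γ) ^ (m - 4) ≤ (1 + (1 - γ) ^ (m - 4)) * (γ * (2 - γ * (1 - γ)))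
  hε : 0 ≤ ε
  c1 : 0 ≤ γ * (t - 1) / 2 - γ * (1 + (1 - γ) ^ (m - 2)) + ε * (γ / 2 + (1 - γ) ^ (m - 2))
  c2 : γ * ((t - 1) ^ 2 / 4 - (1 + (1 - γ) ^ (m - 2)) * (t - 1) / 2 + (1 + (1 - γ) ^ (m - 2))) +
      (γ * (t - 1) / 2 - γ * (1 + (1 - γ) ^ (m - 2)) * (3 / 2) -
        (1 - (1 - γ) ^ (m - 2)) * (t - 1) / 2) * ε + (γ / 4 - (1 - (1 - γ) ^ (m - 2)) / 2) * ε ^ 2 ≤ 0
  c3 : γ * (t - 1) / 2 - γ * (1 + (1 - γ) ^ (m - 2)) * (3 / 2) -
      (1 - (1 - γ) ^ (m - 2)) * (t - 1) / 2 ≤ 0
  c4 : γ / 4 - (1 - (1 - γ) ^ (m - 2)) / 2 ≤ 0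

variable {t ε : ℝ}

/-- the numbers `ν_w` -/
lemma nu_le (hN : Num m γ t ε) (hk : 1 ≤ k) (hcl : NoCl A m)
    (hout : ∀ v, (Finset.univ.filter fun u => A v u).card = k)
    (hin : ∀ v, (Finset.univ.filter fun u => A u v).card = k)
    (hn : (Fintype.card V : ℝ) < t * k) (w : V) (X : Finset V) (ν : ℕ)
    (hX : ∀ x ∈ X, Far A x w) (hν : X.card = ((inN A X).filter fun u => Nad A u w).card + ν) :
    (ν : ℝ) ≤ ε * k := by
  classical
  have hm := hN.hm
  have hirr := LAY_.irr hcl (by omega)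
  have hor := LAY_.anti hcl (by omega)
  obtain ⟨c1, c2, c3⟩ := THA_.cut hirr hor w X ν hX hν
  rw [hin w] at c1 c2
  obtain ⟨U, hU⟩ : ∃ U, U = insert w X := ⟨_, rfl⟩
  rw [← hU] at c1 c2 c3
  have hUin : U ⊆ inN A U := fun u hu => FIN_.mem_inN.2 (Or.inl hu)
  have hsd : (inN A U \ U).card + U.card = (inN A U).card := Finset.card_sdiff_add_card_eq_card hUin
  have hOc : (Finset.univ \ inN A U).card + (inN A U).card = Fintype.card V :=
    Finset.card_sdiff_add_card_eq_card (Finset.subset_univ _)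
  obtain ⟨v, hv⟩ : ∃ v, A w v := by
    have h1 : 0 < (Finset.univ.filter fun u => A w u).card := by
      rw [hout w]
      omega
    obtain ⟨v, hv⟩ := Finset.card_pos.1 h1
    exact ⟨v, (Finset.mem_filter.1 hv).2⟩
  have h := excess (t := t) (ε := ε) hN.hγ hN.hγ1 hN.hm hk hcl
    (fun T => bd' hN.hγ hN.hγ1 hN.hm hN.hA hcl T)
    (fun T => bd' hN.hγ hN.hγ1 hN.hm hN.hA (CUT_.nocl_flip hcl) T) hout hin
    (Finset.univ \ inN A U) (inN A U \ U) U
    ⟨v, Finset.mem_sdiff.2 ⟨Finset.mem_univ _, c3 v hv⟩⟩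
    ⟨w, hU ▸ Finset.mem_insert_self _ _⟩ (by
      refine lt_of_eq_of_lt ?_ hn
      have : (Finset.univ \ inN A U).card + (inN A U \ U).card + U.card = Fintype.card V := by omega
      exact_mod_cast this)
    (by
      intro a ha b hab
      rw [Finset.mem_sdiff] at ha
      rw [Finset.mem_sdiff, Finset.mem_sdiff]
      by_cases hb : b ∈ inN A U
      · exact Or.inr ⟨hb, fun h => ha.2 (FIN_.mem_inN.2 (Or.inr ⟨b, h, hab⟩))⟩
      · exact Or.inl ⟨Finset.mem_univ _, hb⟩)
    (by
      intro b hb a hab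
      rw [Finset.mem_sdiff]
      by_cases ha : a ∈ U
      · exact Or.inl ha
      · exact Or.inr ⟨FIN_.mem_inN.2 (Or.inr ⟨b, hb, hab⟩), ha⟩)
    hN.hε hN.c1 hN.c2 hN.c3 hN.c4
  have h1 : ν + (inN A U \ U).card ≤ k := by omega
  have h2 : (ν : ℝ) + (inN A U \ U).card ≤ k := by exact_mod_cast h1
  linarith

/-- the growth of the balls -/
lemma grow' (hN : Num m γ t ε) (hk : 1 ≤ k) (hcl : NoCl A m)
    (hout : ∀ v, (Finset.univ.filter fun u => A v u).card = k)
    (hin : ∀ v, (Finset.univ.filter fun u => A u v).card = k)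
    (hn : (Fintype.card V : ℝ) < t * k) (x : V) (i : ℕ) (hi : i + 3 ≤ m) :
    ((LAY_.cb A x (i + 1)).card : ℝ) - 1 + (k - ε * k) ≤ (LAY_.cb A x (i + 2)).card - 1 := by
  classical
  have hm := hN.hm
  obtain ⟨E, hE⟩ : ∃ E, E = LAY_.cb A x (i + 1) := ⟨_, rfl⟩
  obtain ⟨E', hE'⟩ : ∃ E', E' = LAY_.cb A x (i + 2) := ⟨_, rfl⟩
  have hout' : ∀ a ∈ E, ∀ b, A a b → b ∈ E' := by
    intro a ha b hab
    rw [hE]at ha
    rw [hE']
    exact FIN_.mem_outN.2 (Or.inr ⟨a, ha, hab⟩)
  have hsub : E ⊆ E' := by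
    rw [hE, hE']
    exact LAY_.cb_sub x (i + 1)
  have hsd : (E' \ E).card + E.card = E'.card := Finset.card_sdiff_add_card_eq_card hsub
  have hUc : (Finset.univ \ E').card + E'.card = Fintype.card V :=
    Finset.card_sdiff_add_card_eq_card (Finset.subset_univ _)
  obtain ⟨v, hv⟩ : ∃ v, A v x := by
    have h1 : 0 < (Finset.univ.filter fun u => A u x).card := by
      rw [hin x]
      omega
    obtain ⟨v, hv⟩ := Finset.card_pos.1 h1
    exact ⟨v, (Finset.mem_filter.1 hv).2⟩
  have hvE : v ∉ E' := by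
    rw [hE']
    exact LAY_.in_notMem hcl x v hv (i + 2) (by omega)
  have h := excess (t := t) (ε := ε) hN.hγ hN.hγ1 hN.hm hk hcl
    (fun T => bd' hN.hγ hN.hγ1 hN.hm hN.hA hcl T)
    (fun T => bd' hN.hγ hN.hγ1 hN.hm hN.hA (CUT_.nocl_flip hcl) T) hout hin
    E (E' \ E) (Finset.univ \ E')
    ⟨x, hE ▸ LAY_.mem_cb_self x _⟩
    ⟨v, Finset.mem_sdiff.2 ⟨Finset.mem_univ _, hvE⟩⟩ (by
      refine lt_of_eq_of_lt ?_ hn
      have : E.card + (E' \ E).card + (Finset.univ \ E').card = Fintype.card V := by omega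
      exact_mod_cast this)
    (by
      intro a ha b hab
      rw [Finset.mem_sdiff]
      by_cases hb : b ∈ E
      · exact Or.inl hb
      · exact Or.inr ⟨hout' a ha b hab, hb⟩)
    (by
      intro b hb a hab
      rw [Finset.mem_sdiff] at hb
      rw [Finset.mem_sdiff, Finset.mem_sdiff]
      by_cases ha : a ∈ E'
      · exact Or.inr ⟨ha, fun h => hb.2 (hout' a h b hab)⟩
      · exact Or.inl ⟨Finset.mem_univ _, ha⟩)
    hN.hε hN.c1 hN.c2 hN.c3 hN.c4
  rw [← hE, ← hE']
  have h1 : ((E' \ E).card : ℝ) + E.card = E'.card := by exact_mod_cast hsd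
  linarith

/-- the average second neighbourhood -/
lemma avg {M a : ℕ} (hM : 1 ≤ M) (haM : a ≤ M) (hγM : γ = (a : ℝ) / M) (hN : Num m γ t ε) (hk : 1 ≤ k)
    (hcl : NoCl A m)
    (hout : ∀ v, (Finset.univ.filter fun u => A v u).card = k)
    (hin : ∀ v, (Finset.univ.filter fun u => A u v).card = k)
    (hn : (Fintype.card V : ℝ) < t * k) :
    (Fintype.card V : ℝ) * k ≤ (∑ x, ((sec A x).card : ℝ)) + Fintype.card V * (γ * (ε * k)) := by
  classical
  have hm := hN.hm
  have hirr := LAY_.irr hcl (by omega)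
  have hor := LAY_.anti hcl (by omega)
  have hM0 : (0 : ℝ) < M := by exact_mod_cast (by omega : 0 < M)
  have hγM' : γ * M = a := by
    rw [hγM]
    field_simp
  choose ν X hX hν hmax using fun w => THA_.exists_nu A w
  have hsec := THA_.second hirr hor hout M a hM haM ν (fun F hF => by
    -- the row condition
    obtain ⟨F1, hF1⟩ : ∃ F1, F1 = F.filter fun v => v ∈ BLOW_.nb A F := ⟨_, rfl⟩
    rw [← hF1]
    have hsub : F1 ⊆ BLOW_.nb A F := by
      intro v hv
      rw [hF1, Finset.mem_filter] at hv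
      exact hv.2
    have hsd : (BLOW_.nb A F \ F1).card + F1.card = (BLOW_.nb A F).card :=
      Finset.card_sdiff_add_card_eq_card hsub
    rcases Nat.lt_or_ge (BLOW_.nb A F).card (F1.card + k) with hlt | hge
    · obtain ⟨ex, hex⟩ : ∃ ex, ex = F1.card + k - (BLOW_.nb A F).card := ⟨_, rfl⟩
      have hin' : ∀ u ∈ F, ex ≤ (F1.filter fun v => A u v).card := by
        intro u hu
        have h1 : (Finset.univ.filter fun v => A u v) ⊆
            (F1.filter fun v => A u v) ∪ (BLOW_.nb A F \ F1) := by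
          intro v hv
          rw [Finset.mem_filter] at hv
          rw [Finset.mem_union, Finset.mem_filter, Finset.mem_sdiff]
          by_cases h : v ∈ F1
          · exact Or.inl ⟨h, hv.2⟩
          · exact Or.inr ⟨BLOW_.mem_nb.2 ⟨u, hu, hv.2⟩, h⟩
        have h2 := (Finset.card_le_card h1).trans (Finset.card_union_le _ _)
        rw [hout u] at h2
        omega
      obtain ⟨u, hu⟩ := hF
      have hne : F1.Nonempty := by
        have h1 := hin' u hu
        have h2 : 0 < (F1.filter fun v => A u v).card := by omega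
        obtain ⟨v, hv⟩ := Finset.card_pos.1 h2
        exact ⟨v, (Finset.mem_filter.1 hv).1⟩
      have h2 := bd' hN.hγ hN.hγ1 hN.hm hN.hA hcl F1 hne ex (fun u hu => hin' u (by
        rw [hF1, Finset.mem_filter] at hu
        exact hu.1))
      have h3 : (M : ℝ) * ex ≤ a * F1.card := by
        have h4 := mul_le_mul_of_nonneg_left h2 hM0.le
        calc (M : ℝ) * ex ≤ M * (γ * F1.card) := h4
          _ = γ * M * F1.card := by ring
          _ = a * F1.card := by rw [hγM']
      have h4 : M * ex ≤ a * F1.card := by exact_mod_cast h3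
      have h5 : F1.card + k = (BLOW_.nb A F).card + ex := by omega
      rw [h5, Nat.mul_add]
      omega
    · exact (Nat.mul_le_mul_left _ hge).trans (Nat.le_add_right _ _)) hmax
  have hν' : (∑ w, (ν w : ℝ)) ≤ Fintype.card V * (ε * k) := by
    have h1 := Finset.sum_le_sum fun w (_ : w ∈ (Finset.univ : Finset V)) =>
      nu_le hN hk hcl hout hin hn w (X w) (ν w) (hX w) (hν w)
    rwa [Finset.sum_const, Finset.card_univ, nsmul_eq_mul] at h1
  have hsec' : (M : ℝ) * (Fintype.card V * k) ≤ M * (∑ x, ((sec A x).card : ℝ)) + a * ∑ w, (ν w : ℝ) := by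
    exact_mod_cast hsec
  have h2 := mul_le_mul_of_nonneg_left hν' (Nat.cast_nonneg (α := ℝ) a)
  have h3 : (M : ℝ) * (Fintype.card V * k) ≤
      M * ((∑ x, ((sec A x).card : ℝ)) + Fintype.card V * (γ * (ε * k))) := by
    calc (M : ℝ) * (Fintype.card V * k) ≤ M * (∑ x, ((sec A x).card : ℝ)) + a * ∑ w, (ν w : ℝ) := hsec'
      _ ≤ M * (∑ x, ((sec A x).card : ℝ)) + a * (Fintype.card V * (ε * k)) := by linarith
      _ = M * ((∑ x, ((sec A x).card : ℝ)) + Fintype.card V * (γ * (ε * k))) := by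
          rw [← hγM']
          ring
  exact le_of_mul_le_mul_left h3 hM0

/-- two balls around `x` -/
lemma count2 (hcl : NoCl A m) (i j : ℕ) (hij : i + j ≤ m) (x : V) :
    ((LAY_.cb A x i).card : ℝ) - 1 + ((LAY_.cb (fun a b => A b a) x j).card - 1) ≤
      Fintype.card V - 1 := by
  classical
  have h1 : LAY_.cb A x i ∩ LAY_.cb (fun a b => A b a) x j ⊆ {x} := by
    intro z hz
    rw [Finset.mem_inter] at hz
    obtain ⟨p, f1, f2⟩ := LAY_.cb_walk x i z hz.1
    obtain ⟨q, f3, f4⟩ := LAY_.cb_walk x j z hz.2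
    have f5 := CUT_.wk_flip q x z f4
    have f6 := f2.trans f5
    rw [Finset.mem_singleton]
    rcases Nat.eq_zero_or_pos (p + q) with h | h
    · have hp : p = 0 := by omega
      rw [hp] at f2
      exact (show x = z from f2).symm
    · exact absurd f6 (hcl (p + q) h (by omega) x)
  have h2 := Finset.card_le_card h1
  rw [Finset.card_singleton] at h2
  have h3 := Finset.card_union_add_card_inter (LAY_.cb A x i) (LAY_.cb (fun a b => A b a) x j)
  have h4 := Finset.card_le_univ (LAY_.cb A x i ∪ LAY_.cb (fun a b => A b a) x j)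
  have h5 : (LAY_.cb A x i).card + (LAY_.cb (fun a b => A b a) x j).card ≤ Fintype.card V + 1 := by
    omega
  have h6 : ((LAY_.cb A x i).card : ℝ) + (LAY_.cb (fun a b => A b a) x j).card ≤
      Fintype.card V + 1 := by exact_mod_cast h5
  linarith

lemma two (hcl : NoCl A m) (hm : 4 ≤ m) (hout : ∀ v, (Finset.univ.filter fun u => A v u).card = k)
    (x : V) : (k : ℝ) + (sec A x).card ≤ (LAY_.cb A x 2).card - 1 := by
  have h1 := LAY_.cb_two (fun v => LAY_.irr hcl (by omega) v) hout x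
  have h2 : ((1 + k + (sec A x).card : ℕ) : ℝ) ≤ ((LAY_.cb A x 2).card : ℝ) := by exact_mod_cast h1
  push_cast at h2
  linarith

lemma sec_flip (x : V) : sec (fun a b => A b a) x = Dig_.secIn A x := by
  ext z
  simp only [sec, Dig_.secIn, Finset.mem_filter, Finset.mem_univ, true_and]
  constructor
  · rintro ⟨h1, h2, y, h3, h4⟩
    exact ⟨h1, h2, y, h4, h3⟩
  · rintro ⟨h1, h2, y, h3, h4⟩
    exact ⟨h1, h2, y, h4, h3⟩

/-- the final step -/
lemma fin [Nonempty V] {M a : ℕ} (hM : 1 ≤ M) (haM : a ≤ M) (hγM : γ = (a : ℝ) / M)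
    (hN : Num m γ t ε) (hk : 1 ≤ k) (hcl : NoCl A m)
    (hout : ∀ v, (Finset.univ.filter fun u => A v u).card = k)
    (hin : ∀ v, (Finset.univ.filter fun u => A u v).card = k) {α β : ℝ} (hα : 0 ≤ α)
    (hT : t ≤ 2 * α * (2 - γ * ε) + β)
    (hx : (Fintype.card V : ℝ) < t * k → ∀ x,
      α * (k + (sec A x).card + (k + (Dig_.secIn A x).card)) + β * k ≤ Fintype.card V - 1) :
    t * k ≤ (Fintype.card V : ℝ) := by
  by_contra hlt
  push Not at hlt
  have h1 := avg hM haM hγM hN hk hcl hout hin hlt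
  have h2 := Finset.sum_le_sum fun x (_ : x ∈ (Finset.univ : Finset V)) => hx hlt x
  have h3 : (∑ x, ((Dig_.secIn A x).card : ℝ)) = ∑ x, ((sec A x).card : ℝ) := by
    exact_mod_cast Dig_.sum_secIn
  simp only [Finset.sum_add_distrib, ← Finset.mul_sum, h3, Finset.sum_const, Finset.card_univ,
    nsmul_eq_mul] at h2
  obtain ⟨S, hS⟩ : ∃ S, S = ∑ x, ((sec A x).card : ℝ) := ⟨_, rfl⟩
  rw [← hS] at h1 h2
  obtain ⟨n, hn⟩ : ∃ n : ℝ, n = Fintype.card V := ⟨_, rfl⟩
  have hn0 : 0 < n := by
    rw [hn]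
    exact_mod_cast Fintype.card_pos
  rw [← hn] at h1 h2 hlt
  have hk0 : (0 : ℝ) < k := by exact_mod_cast (by omega : 0 < k)
  have h4 : α * (2 * (2 * (n * k) - n * (γ * (ε * k)))) ≤ α * (n * k + S + (n * k + S)) :=
    mul_le_mul_of_nonneg_left (by linarith) hα
  have h5 : n * ((2 * α * (2 - γ * ε) + β) * k) ≤ n * (n - 1) := by nlinarith
  have h6 := le_of_mul_le_mul_left h5 hn0
  have h7 := mul_le_mul_of_nonneg_right hT hk0.le
  linarith

end THB_

open THB_

variable {V : Type} [Fintype V] [Nonempty V] {A : V → V → Prop} {k : ℕ}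

/-- girth at least five -/
theorem thb4 (hk : 1 ≤ k) (hcl : NoCl A 4)
    (hout : ∀ v, (Finset.univ.filter fun u => A v u).card = k)
    (hin : ∀ v, (Finset.univ.filter fun u => A u v).card = k) :
    3.787 * (k : ℝ) ≤ Fintype.card V := by
  have hN : Num 4 0.2779 3.787 0.3818 := by
    constructor <;> norm_num
  refine fin (M := 10000) (a := 2779) (by norm_num) (by norm_num) (by norm_num) hN hk hcl hout hin
    (α := 1) (β := 0) (by norm_num) (by norm_num) ?_
  intro hn x
  have h1 := count2 hcl 2 2 (by norm_num) x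
  have h2 := two hcl (le_refl _) hout x
  have h3 := two (CUT_.nocl_flip hcl) (le_refl _) hin x
  rw [sec_flip] at h3
  linarith

/-- girth at least six -/
theorem thb5 (hk : 1 ≤ k) (hcl : NoCl A 5)
    (hout : ∀ v, (Finset.univ.filter fun u => A v u).card = k)
    (hin : ∀ v, (Finset.univ.filter fun u => A u v).card = k) :
    4.418 * (k : ℝ) ≤ Fintype.card V := by
  have hN : Num 5 0.2379 4.418 0.3938 := by
    constructor <;> norm_num
  refine fin (M := 10000) (a := 2379) (by norm_num) (by norm_num) (by norm_num) hN hk hcl hout hin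
    (α := 1) (β := 1 - 0.3938) (by norm_num) (by norm_num) ?_
  intro hn x
  have h1 := count2 hcl 3 2 (by norm_num) x
  have h2 := two hcl (by norm_num) hout x
  have h3 := two (CUT_.nocl_flip hcl) (by norm_num) hin x
  rw [sec_flip] at h3
  have h4 := grow' hN hk hcl hout hin hn x 1 (by norm_num)
  norm_num at h4
  linarith

/-- girth at least seven -/
theorem thb6 (hk : 1 ≤ k) (hcl : NoCl A 6)
    (hout : ∀ v, (Finset.univ.filter fun u => A v u).card = k)
    (hin : ∀ v, (Finset.univ.filter fun u => A u v).card = k) :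
    5.024 * (k : ℝ) ≤ Fintype.card V := by
  have hN : Num 6 0.2097 5.024 0.4118 := by
    constructor <;> norm_num
  refine fin (M := 10000) (a := 2097) (by norm_num) (by norm_num) (by norm_num) hN hk hcl hout hin
    (α := 1 - 0.2097) (β := 2) (by norm_num) (by norm_num) ?_
  intro hn x
  have h1 := count2 hcl 3 3 (by norm_num) x
  have h2 := two hcl (by norm_num) hout x
  have h3 := two (CUT_.nocl_flip hcl) (by norm_num) hin x
  rw [sec_flip] at h3
  have h4 := THA_.grow hk hout (fun T _ => bd' hN.hγ hN.hγ1 hN.hm hN.hA hcl T) hcl x 1 (by norm_num)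
  have h5 := THA_.grow hk hin
    (fun T _ => bd' hN.hγ hN.hγ1 hN.hm hN.hA (CUT_.nocl_flip hcl) T) (CUT_.nocl_flip hcl) x 1
    (by norm_num)
  norm_num at h4 h5 ⊢
  linarith

/-- girth at least eight -/
theorem thb7 (hk : 1 ≤ k) (hcl : NoCl A 7)
    (hout : ∀ v, (Finset.univ.filter fun u => A v u).card = k)
    (hin : ∀ v, (Finset.univ.filter fun u => A u v).card = k) :
    5.674 * (k : ℝ) ≤ Fintype.card V := by
  have hN : Num 7 0.1886 5.674 0.4371 := by
    constructor <;> norm_num
  refine fin (M := 10000) (a := 1886) (by norm_num) (by norm_num) (by norm_num) hN hk hcl hout hin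
    (α := 1 - 0.1886) (β := 3 - 0.4371) (by norm_num) (by norm_num) ?_
  intro hn x
  have h1 := count2 hcl 4 3 (by norm_num) x
  have h2 := two hcl (by norm_num) hout x
  have h3 := two (CUT_.nocl_flip hcl) (by norm_num) hin x
  rw [sec_flip] at h3
  have h4 := THA_.grow hk hout (fun T _ => bd' hN.hγ hN.hγ1 hN.hm hN.hA hcl T) hcl x 1 (by norm_num)
  have h5 := THA_.grow hk hin
    (fun T _ => bd' hN.hγ hN.hγ1 hN.hm hN.hA (CUT_.nocl_flip hcl) T) (CUT_.nocl_flip hcl) x 1
    (by norm_num)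
  have h6 := grow' hN hk hcl hout hin hn x 2 (by norm_num)
  norm_num at h4 h5 h6 ⊢
  linarith

/-- girth at least nine -/
theorem thb8 (hk : 1 ≤ k) (hcl : NoCl A 8)
    (hout : ∀ v, (Finset.univ.filter fun u => A v u).card = k)
    (hin : ∀ v, (Finset.univ.filter fun u => A u v).card = k) :
    6.289 * (k : ℝ) ≤ Fintype.card V := by
  have hN : Num 8 0.1721 6.289 0.4573 := by
    constructor <;> norm_num
  refine fin (M := 10000) (a := 1721) (by norm_num) (by norm_num) (by norm_num) hN hk hcl hout hin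
    (α := (1 - 0.1721) ^ 2) (β := 2 * (2 - 0.1721)) (by norm_num) (by norm_num) ?_
  intro hn x
  have h1 := count2 hcl 4 4 (by norm_num) x
  have h2 := two hcl (by norm_num) hout x
  have h3 := two (CUT_.nocl_flip hcl) (by norm_num) hin x
  rw [sec_flip] at h3
  have h4 := THA_.grow hk hout (fun T _ => bd' hN.hγ hN.hγ1 hN.hm hN.hA hcl T) hcl x 1 (by norm_num)
  have h5 := THA_.grow hk hin
    (fun T _ => bd' hN.hγ hN.hγ1 hN.hm hN.hA (CUT_.nocl_flip hcl) T) (CUT_.nocl_flip hcl) x 1
    (by norm_num)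
  have h6 := THA_.grow hk hout (fun T _ => bd' hN.hγ hN.hγ1 hN.hm hN.hA hcl T) hcl x 2 (by norm_num)
  have h7 := THA_.grow hk hin
    (fun T _ => bd' hN.hγ hN.hγ1 hN.hm hN.hA (CUT_.nocl_flip hcl) T) (CUT_.nocl_flip hcl) x 2
    (by norm_num)
  norm_num at h4 h5 h6 h7 ⊢
  linarith

end Pool.Agent.Lib.MP_83608f_co.CN
end
end

section
/-! MP_83608f_co, part CN, module THC (helper58): the out-degree theorem with balls on both sides.

If there is no closed walk of length `1, ..., m`, `i + j + 4 ≤ m`, all out-degrees are at least `e`, and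
`(1 - γ(2 - γ(1-γ))) ((1-γ)^i + (1-γ)^j) ≤ 1`, then `e ≤ γ n`. -/
set_option autoImplicit false

open Classical

noncomputable section

namespace Pool.Agent.Lib.MP_83608f_co.CN

open Pool.Agent.Lib.MP_83608f_co.EM (Wk)

namespace THC_

variable {V : Type} [Fintype V] {A : V → V → Prop} {k m : ℕ} {γ : ℝ}

lemma wk_cb (x : V) (j i : ℕ) (hij : i ≤ j) (z : V) (h : Wk (⟨A⟩ : Digraph V) i x z) :
    z ∈ LAY_.cb A x j := by
  induction j generalizing i z with
  | zero =>
    have h0 : i = 0 := by omega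
    rw [h0] at h
    have : x = z := h
    rw [← this]
    exact LAY_.mem_cb_self x 0
  | succ j ih =>
    rcases Nat.eq_zero_or_pos i with h0 | h0
    · rw [h0] at h
      have : x = z := h
      rw [← this]
      exact LAY_.mem_cb_self x _
    · obtain ⟨i', rfl⟩ : ∃ i', i = i' + 1 := ⟨i - 1, by omega⟩
      obtain ⟨y, h1, h2⟩ := EM.Wk.split h
      have h3 := EM.Wk.one.1 h2
      exact FIN_.mem_outN.2 (Or.inr ⟨y, ih i' (by omega) y h1, h3⟩)

lemma mem_cb (x : V) (j : ℕ) (z : V) :
    z ∈ LAY_.cb A x j ↔ ∃ i, i ≤ j ∧ Wk (⟨A⟩ : Digraph V) i x z :=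
  ⟨LAY_.cb_walk x j z, fun ⟨i, h1, h2⟩ => wk_cb x j i h1 z h2⟩

lemma mem_flip (x : V) (j : ℕ) (z : V) :
    z ∈ LAY_.cb (fun a b => A b a) x j ↔ x ∈ LAY_.cb A z j := by
  rw [mem_cb, mem_cb]
  constructor
  · rintro ⟨i, h1, h2⟩
    exact ⟨i, h1, CUT_.wk_flip i x z h2⟩
  · rintro ⟨i, h1, h2⟩
    exact ⟨i, h1, CUT_.wk_flip (A := fun a b => A b a) i z x h2⟩

lemma sum_flip (j : ℕ) : ∑ x, (LAY_.cb (fun a b => A b a) x j).card = ∑ x, (LAY_.cb A x j).card := by
  have h1 : ∀ x, (LAY_.cb (fun a b => A b a) x j).card =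
      (Finset.univ.filter fun z => x ∈ LAY_.cb A z j).card := by
    intro x
    congr 1
    ext z
    simp [mem_flip]
  have h2 : ∀ x, (LAY_.cb A x j).card = (Finset.univ.filter fun z => z ∈ LAY_.cb A x j).card := by
    intro x
    congr 1
    ext z
    simp
  rw [Finset.sum_congr rfl fun x _ => h1 x, Finset.sum_congr rfl fun x _ => h2 x]
  simp only [Finset.card_filter]
  exact Finset.sum_comm

/-- the theorem for out-regular digraphs, from the bound for smaller sets -/
lemma main (hγ : 0 < γ) (hγ1 : γ ≤ 1) (i j : ℕ) (hm : i + j + 4 ≤ m)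
    (hγm : (1 - γ * (2 - γ * (1 - γ))) * ((1 - γ) ^ i + (1 - γ) ^ j) ≤ 1) (hk : 1 ≤ k)
    (hout : ∀ v, (Finset.univ.filter fun u => A v u).card = k) (hne : Nonempty V)
    (hbd : ∀ T : Finset V, T.card < Fintype.card V → Bd A γ T) (hcl : NoCl A m) :
    (k : ℝ) ≤ γ * (Fintype.card V : ℝ) := by
  by_contra hlt
  push Not at hlt
  have hirr := LAY_.irr hcl (by omega)
  have hor := LAY_.anti hcl (by omega)
  obtain ⟨n, hn⟩ : ∃ n, n = Fintype.card V := ⟨_, rfl⟩
  have hn0 : 0 < n := by
    rw [hn]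
    exact Fintype.card_pos
  have hkn : k ≤ n := by
    obtain ⟨v⟩ := hne
    rw [← hout v, hn]
    exact Finset.card_le_univ _
  choose ν X hX hν hmax using fun w => THA_.exists_nu A w
  -- the sum of the `ν_w`
  have hsum : (∑ w, (ν w : ℝ)) ≤ γ * ((n : ℝ) * (n - 1 - k)) := by
    have h1 : ∑ w, ((k : ℝ) - (Finset.univ.filter fun u => A u w).card + ν w) ≤
        ∑ w, γ * ((Fintype.card V : ℝ) - 1 - (Finset.univ.filter fun u => A u w).card) :=
      Finset.sum_le_sum fun w _ => THA_.nu_bound hγ.le hirr hor hout hbd w (X w) (ν w) (hX w) (hν w)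
    have h2 : (∑ w, ((Finset.univ.filter fun u => A u w).card : ℝ)) = n * k := by
      have := THA_.sum_in hout
      rw [← hn] at this
      exact_mod_cast this
    rw [← Finset.mul_sum, Finset.sum_add_distrib, Finset.sum_sub_distrib, Finset.sum_sub_distrib,
      Finset.sum_sub_distrib, Finset.sum_const, Finset.sum_const, Finset.sum_const, Finset.card_univ,
      ← hn, h2, nsmul_eq_mul, nsmul_eq_mul, nsmul_eq_mul] at h1
    calc (∑ w, (ν w : ℝ)) = (n : ℝ) * k - n * k + ∑ w, (ν w : ℝ) := by ring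
      _ ≤ γ * ((n : ℝ) * n - n * 1 - n * k) := h1
      _ = γ * ((n : ℝ) * (n - 1 - k)) := by ring
  -- the average second neighbourhood
  have hsec := THA_.second hirr hor hout n k (by omega) hkn ν
    (fun F hF => by
      rw [hn]
      exact THA_.row hout hbd hlt F hF) hmax
  obtain ⟨S, hS⟩ : ∃ S : ℕ, S = ∑ x, (sec A x).card := ⟨_, rfl⟩
  rw [← hn, ← hS] at hsec
  have hsec' : (n : ℝ) * (n * k) ≤ n * S + k * ∑ w, (ν w : ℝ) := by exact_mod_cast hsec
  have hn0' : (0 : ℝ) < n := by exact_mod_cast hn0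
  have hk0 : (0 : ℝ) < k := by exact_mod_cast (by omega : 0 < k)
  have hS1 : (n : ℝ) * k ≤ S + k * (γ * (n - 1 - k)) := by
    have h1 := mul_le_mul_of_nonneg_left hsum hk0.le
    have h2 : (n : ℝ) * (n * k) ≤ n * (S + k * (γ * (n - 1 - k))) := by
      calc (n : ℝ) * (n * k) ≤ n * S + k * ∑ w, (ν w : ℝ) := hsec'
        _ ≤ n * S + k * (γ * ((n : ℝ) * (n - 1 - k))) := by linarith
        _ = n * (S + k * (γ * (n - 1 - k))) := by ring
    exact le_of_mul_le_mul_left h2 hn0'
  -- the balls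
  have hpow : ∀ i : ℕ, 0 ≤ (1 - γ) ^ i ∧ (1 - γ) ^ i ≤ 1 := fun i =>
    ⟨pow_nonneg (by linarith) _, pow_le_one₀ (by linarith) (by linarith)⟩
  have hsec3 : (∑ x, ((sec A x).card : ℝ)) = S := by
    rw [hS]
    push_cast
    rfl
  have hball : ∀ i, i + 2 ≤ m → γ * (1 - γ) ^ i * (n * k + S) + n * (k * (1 - (1 - γ) ^ i)) ≤
      γ * ((∑ x, ((LAY_.cb A x (i + 2)).card : ℝ)) - n) := by
    intro i hi
    have h1 := Finset.sum_le_sum fun x (_ : x ∈ (Finset.univ : Finset V)) =>
      THA_.ball hγ.le hγ1 hk hout hbd hcl x i hi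
    simp only [Finset.sum_add_distrib, Finset.sum_sub_distrib, ← Finset.mul_sum, hsec3,
      Finset.sum_const, Finset.card_univ, nsmul_eq_mul, ← hn, mul_one] at h1
    linarith
  obtain ⟨P, hP⟩ : ∃ P : ℝ, P = (∑ x, ((LAY_.cb A x (i + 2)).card : ℝ)) - n := ⟨_, rfl⟩
  obtain ⟨Q, hQ⟩ : ∃ Q : ℝ, Q = (∑ x, ((LAY_.cb A x (j + 2)).card : ℝ)) - n := ⟨_, rfl⟩
  have hPQ : P + Q ≤ n * (n - 1) := by
    have h1 := Finset.sum_le_sum fun x (_ : x ∈ (Finset.univ : Finset V)) =>
      THB_.count2 hcl (i + 2) (j + 2) (by omega) x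
    have h2 : (∑ x, ((LAY_.cb (fun a b => A b a) x (j + 2)).card : ℝ)) =
        ∑ x, ((LAY_.cb A x (j + 2)).card : ℝ) := by
      exact_mod_cast sum_flip (A := A) (j + 2)
    simp only [Finset.sum_add_distrib, Finset.sum_sub_distrib, h2, Finset.sum_const,
      Finset.card_univ, nsmul_eq_mul, ← hn, mul_one] at h1
    rw [hP, hQ]
    linarith
  have hb1 := hball i (by omega)
  have hb2 := hball j (by omega)
  rw [← hP] at hb1
  rw [← hQ] at hb2
  obtain ⟨G, hG⟩ : ∃ G : ℝ, G = (1 - γ) ^ i + (1 - γ) ^ j := ⟨_, rfl⟩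
  have hG0 : 0 ≤ G := by
    rw [hG]
    linarith [(hpow i).1, (hpow j).1]
  have hG1 : G ≤ 2 := by
    rw [hG]
    linarith [(hpow i).2, (hpow j).2]
  have hS2 : γ * G * (n * k + S) + n * k * (2 - G) ≤ γ * (n * (n - 1)) := by
    have h1 := mul_le_mul_of_nonneg_left hPQ hγ.le
    rw [hG]
    linarith
  rw [← hG] at hγm
  -- the final contradiction
  have h1 : 0 < k - γ * n := by
    rw [← hn] at hlt
    linarith
  have h2 : γ * G * (n * k - k * (γ * (n - 1 - k))) ≤ γ * G * (S : ℝ) :=
    mul_le_mul_of_nonneg_left (by linarith) (mul_nonneg hγ.le hG0)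
  have h3 : γ * G * (2 * (n * k) - k * (γ * (n - k))) + n * k * (2 - G) ≤ γ * (n * n) := by
    have h5 : 0 ≤ γ * G * (k * γ) :=
      mul_nonneg (mul_nonneg hγ.le hG0) (mul_nonneg hk0.le hγ.le)
    have h6 : 0 ≤ γ * (n : ℝ) := mul_nonneg hγ.le hn0'.le
    nlinarith
  have h4 : γ * (n * n) * ((1 - γ * (2 - γ * (1 - γ))) * G) ≤ γ * (n * n) * 1 :=
    mul_le_mul_of_nonneg_left hγm (mul_nonneg hγ.le (mul_nonneg hn0'.le hn0'.le))
  -- monotonicity
  have h5 : 0 < (k - γ * n) * (γ * G * (2 * n - γ * n + γ * (k + γ * n)) + n * (2 - G)) := by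
    apply mul_pos h1
    have e2 : 0 ≤ γ * (k + γ * n) := mul_nonneg hγ.le (by positivity)
    have e3 : 0 < (2 - γ) * n := mul_pos (by linarith) hn0'
    have e1 : 0 ≤ γ * G * (2 * n - γ * n + γ * (k + γ * n)) :=
      mul_nonneg (mul_nonneg hγ.le hG0) (by linarith)
    have e4 : 0 ≤ n * (2 - G) := mul_nonneg hn0'.le (by linarith)
    rcases hG0.eq_or_lt with hz | hz
    · rw [← hz]
      have : 0 < (n : ℝ) * (2 - 0) := mul_pos hn0' (by norm_num)
      linarith
    · have : 0 < γ * G * (2 * n - γ * n + γ * (k + γ * n)) :=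
        mul_pos (mul_pos hγ hz) (by linarith)
      linarith
  nlinarith

end THC_

/-- the out-degree theorem, balls on both sides -/
theorem bdAll2 {m : ℕ} {γ : ℝ} (hγ : 0 < γ) (hγ1 : γ ≤ 1) (i j : ℕ) (hm : i + j + 4 ≤ m)
    (hγm : (1 - γ * (2 - γ * (1 - γ))) * ((1 - γ) ^ i + (1 - γ) ^ j) ≤ 1) (n : ℕ) :
    BdAll m γ n := by
  induction n using Nat.strong_induction_on with
  | _ n ih =>
    intro V _ A hcl hV hne e hdeg
    rcases Nat.eq_zero_or_pos e with h0 | h0
    · rw [h0, Nat.cast_zero]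
      exact mul_nonneg hγ.le (Nat.cast_nonneg _)
    choose N hN1 hN2 using fun u => Finset.exists_subset_card_eq (hdeg u)
    have hcl' : NoCl (fun u v => v ∈ N u) m := THA_.nocl_map (A := A) id (fun a b hab =>
      (Finset.mem_filter.1 (hN1 a hab)).2) hcl
    have h := THC_.main (A := fun u v => v ∈ N u) hγ hγ1 i j hm hγm h0 (by
      intro v
      refine (congrArg Finset.card ?_).trans (hN2 v)
      ext u
      simp) hne (fun T hT => THA_.bd_of ih hcl' T (by rwa [hV] at hT)) hcl'
    rwa [hV] at h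

/-- the out-degree theorem for subsets -/
theorem bd2 {V : Type} [Fintype V] {A : V → V → Prop} {m : ℕ} {γ : ℝ} (hγ : 0 < γ) (hγ1 : γ ≤ 1)
    (i j : ℕ) (hm : i + j + 4 ≤ m)
    (hγm : (1 - γ * (2 - γ * (1 - γ))) * ((1 - γ) ^ i + (1 - γ) ^ j) ≤ 1)
    (hcl : NoCl A m) (T : Finset V) : Bd A γ T :=
  THA_.bd_of (n := T.card + 1) (fun n _ => bdAll2 hγ hγ1 i j hm hγm n) hcl T (by omega)

end Pool.Agent.Lib.MP_83608f_co.CN
end
end

section
/-! MP_83608f_co, part CN, module DCH (helper58): the Caccetta-Häggkvist bound with deficits.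

Every vertex `u` has a target degree `d u`, `0 < e ≤ d u ≤ K`.  The deficit `K - d u` is counted with the weight `lam`, where
`lam ε q = 1`, `q = 1 - γ (1 - ε/(2K))`, `ε ≤ e`.  If `i + j + 2 ≤ m` and `(q^i + q^j)(1 - γ e/K) ≤ 1` then in a digraph
without closed walks of length `1, ..., m` every nonempty set `T` has a vertex with at most `(γ/K) μ(T) d u` out-neighbours
in `T`, where `μ(T) = ∑_{u ∈ T} (1 + lam (K - d u))`. -/
set_option autoImplicit false

open Classical

noncomputable section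

namespace Pool.Agent.Lib.MP_83608f_co.CN

open Pool.Agent.Lib.MP_83608f_co.EM (Wk)

/-- the weight of a set -/
def mu {V : Type} (lam K : ℝ) (d : V → ℝ) (T : Finset V) : ℝ := ∑ u ∈ T, (1 + lam * (K - d u))

namespace DCH_

variable {V : Type} [Fintype V] {A : V → V → Prop} {m : ℕ} {K e ε γ q lam : ℝ} {d : V → ℝ}

/-- the total deficit of a set -/
def df (K : ℝ) (d : V → ℝ) (T : Finset V) : ℝ := ∑ u ∈ T, (K - d u)

omit [Fintype V] in
lemma mu_eq (T : Finset V) : mu lam K d T = T.card + lam * df K d T := by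
  unfold mu df
  rw [Finset.sum_add_distrib, Finset.sum_const, nsmul_eq_mul, mul_one, Finset.mul_sum]

omit [Fintype V] in
lemma df_mono (hdK : ∀ u, d u ≤ K) {S T : Finset V} (h : S ⊆ T) : df K d S ≤ df K d T :=
  Finset.sum_le_sum_of_subset_of_nonneg h fun u _ _ => by linarith [hdK u]

omit [Fintype V] in
lemma df_nonneg (hdK : ∀ u, d u ≤ K) (T : Finset V) : 0 ≤ df K d T :=
  Finset.sum_nonneg fun u _ => by linarith [hdK u]

omit [Fintype V] in
lemma w_pos (hlam : 0 ≤ lam) (hdK : ∀ u, d u ≤ K) (u : V) : 1 ≤ 1 + lam * (K - d u) := by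
  have := mul_nonneg hlam (by linarith [hdK u] : (0 : ℝ) ≤ K - d u)
  linarith

omit [Fintype V] in
lemma mu_mono (hlam : 0 ≤ lam) (hdK : ∀ u, d u ≤ K) {S T : Finset V} (h : S ⊆ T) :
    mu lam K d S ≤ mu lam K d T :=
  Finset.sum_le_sum_of_subset_of_nonneg h fun u _ _ => by linarith [w_pos hlam hdK u]

omit [Fintype V] in
/-- the removal of vertices of small degree -/
lemma remove {H : ℝ} (hK : 0 < K) (hεe : ε ≤ e) (hd : ∀ u, e ≤ d u) (he : 0 < e) (hlam : 0 ≤ lam)
    (hdK : ∀ u, d u ≤ K) (hγ : 0 < γ) (T P Q R : Finset V)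
    (ih : ∀ S, S ⊆ Q → S.Nonempty → ∃ u ∈ S, K * ((S.filter fun v => A u v).card : ℝ) ≤
      γ * mu lam K d S * d u)
    (hT : ∀ u ∈ T, H * d u ≤ K * ((T.filter fun v => A u v).card : ℝ)) (hQT : Q ⊆ T)
    (hP : ∀ u ∈ P, ∀ v ∈ T, A u v → v ∈ Q) (hQ : ∀ u ∈ Q, ∀ v ∈ T, A u v → v ∈ R)
    (Θ : ℝ) (hΘ : K * Θ = H - γ * mu lam K d Q) (hΘ0 : 0 < Θ)
    (hcard : Θ * ε ≤ Q.card) (t : ℕ) (ht : (t : ℝ) < Θ * ε + 1) :
    ∃ N : Finset V, N ⊆ Q \ P ∧ N.card = t ∧
      (t : ℝ) * (Θ * K - (R \ Q).card) - t * (t - 1) / 2 ≤ Θ * df K d N := by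
  classical
  induction t with
  | zero => exact ⟨∅, Finset.empty_subset _, rfl, by simp [df]⟩
  | succ t iht =>
    push_cast at ht
    obtain ⟨N, hN1, hN2, hN3⟩ := iht (by linarith)
    have hNQ : N ⊆ Q := hN1.trans Finset.sdiff_subset
    have htc : (t : ℝ) < Q.card := by linarith
    have htc' : N.card < Q.card := by
      rw [hN2]
      exact_mod_cast htc
    have hne : (Q \ N).Nonempty := by
      rw [← Finset.card_pos, Finset.card_sdiff_of_subset hNQ]
      omega
    obtain ⟨u, hu, hu2⟩ := ih _ Finset.sdiff_subset hne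
    rw [Finset.mem_sdiff] at hu
    have huT := hT u (hQT hu.1)
    have hdu := hd u
    have hdu0 : 0 < d u := by linarith
    -- the degree in `Q`
    have h1 : ((Q.filter fun v => A u v).card : ℝ) ≤ (((Q \ N).filter fun v => A u v).card : ℝ) + t := by
      have h2 : (Q.filter fun v => A u v) ⊆ ((Q \ N).filter fun v => A u v) ∪ N := by
        intro v hv
        rw [Finset.mem_filter] at hv
        rw [Finset.mem_union, Finset.mem_filter, Finset.mem_sdiff]
        by_cases hvN : v ∈ N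
        · exact Or.inr hvN
        · exact Or.inl ⟨⟨hv.1, hvN⟩, hv.2⟩
      have h3 := (Finset.card_le_card h2).trans (Finset.card_union_le _ _)
      rw [hN2] at h3
      exact_mod_cast h3
    have h2 : K * ((Q.filter fun v => A u v).card : ℝ) ≤ γ * mu lam K d Q * d u + K * t := by
      have h3 : mu lam K d (Q \ N) ≤ mu lam K d Q := mu_mono hlam hdK Finset.sdiff_subset
      have h4 := mul_le_mul_of_nonneg_right (mul_le_mul_of_nonneg_left h3 hγ.le) hdu0.le
      have h5 := mul_le_mul_of_nonneg_left h1 hK.le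
      linarith
    have e1 : K * (Θ * d u) = H * d u - γ * mu lam K d Q * d u := by
      rw [← mul_assoc, hΘ]
      ring
    have huP : u ∉ P := by
      intro huP
      have h3 : (T.filter fun v => A u v) ⊆ (Q.filter fun v => A u v) := by
        intro v hv
        rw [Finset.mem_filter] at hv ⊢
        exact ⟨hP u huP v hv.1 hv.2, hv.2⟩
      have h4 : ((T.filter fun v => A u v).card : ℝ) ≤ ((Q.filter fun v => A u v).card : ℝ) := by
        exact_mod_cast Finset.card_le_card h3
      have h5 := mul_le_mul_of_nonneg_left h4 hK.le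
      have h6 : K * (Θ * d u) ≤ K * t := by
        rw [e1]
        linarith
      have h7 := le_of_mul_le_mul_left h6 hK
      have h8 : Θ * ε ≤ Θ * d u := mul_le_mul_of_nonneg_left (by linarith) hΘ0.le
      linarith
    refine ⟨insert u N, ?_, ?_, ?_⟩
    · intro v hv
      rw [Finset.mem_insert] at hv
      rcases hv with h | h
      · rw [h, Finset.mem_sdiff]
        exact ⟨hu.1, huP⟩
      · exact hN1 h
    · rw [Finset.card_insert_of_notMem hu.2, hN2]
    · have h3 : ((T.filter fun v => A u v).card : ℝ) ≤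
          ((Q.filter fun v => A u v).card : ℝ) + (R \ Q).card := by
        have h4 : (T.filter fun v => A u v) ⊆ (Q.filter fun v => A u v) ∪ (R \ Q) := by
          intro v hv
          rw [Finset.mem_filter] at hv
          rw [Finset.mem_union, Finset.mem_filter, Finset.mem_sdiff]
          by_cases hvQ : v ∈ Q
          · exact Or.inl ⟨hvQ, hv.2⟩
          · exact Or.inr ⟨hQ u hu.1 v hv.1 hv.2, hvQ⟩
        exact_mod_cast (Finset.card_le_card h4).trans (Finset.card_union_le _ _)
      have h5 := mul_le_mul_of_nonneg_left h3 hK.le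
      have h6 : K * (Θ * d u) ≤ K * (t + (R \ Q).card) := by
        rw [e1]
        linarith
      have h7 := le_of_mul_le_mul_left h6 hK
      have h8 : df K d (insert u N) = (K - d u) + df K d N := by
        unfold df
        rw [Finset.sum_insert hu.2]
      rw [h8]
      push_cast
      nlinarith

omit [Fintype V] in
/-- the growth lemma -/
lemma growth {H : ℝ} (hK : 0 < K) (hε : 0 < ε) (hεK : ε ≤ K) (hεe : ε ≤ e) (hd : ∀ u, e ≤ d u) (hlam : 0 ≤ lam)
    (hdK : ∀ u, d u ≤ K) (hγ : 0 < γ) (T P Q R : Finset V)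
    (ih : γ * mu lam K d Q < H → ∀ S, S ⊆ Q → S.Nonempty →
      ∃ u ∈ S, K * ((S.filter fun v => A u v).card : ℝ) ≤ γ * mu lam K d S * d u)
    (hT : ∀ u ∈ T, H * d u ≤ K * ((T.filter fun v => A u v).card : ℝ)) (hQT : Q ⊆ T)
    (hP : ∀ u ∈ P, ∀ v ∈ T, A u v → v ∈ Q) (hQ : ∀ u ∈ Q, ∀ v ∈ T, A u v → v ∈ R)
    (hcard : H * ε ≤ K * Q.card) :
    ε * ((1 - ε / (2 * K)) * (H - γ * mu lam K d Q) - (R \ Q).card) ≤ df K d (Q \ P) := by
  classical
  have hdf := df_nonneg (d := d) hdK (Q \ P)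
  obtain ⟨Θ, hΘd⟩ : ∃ Θ, Θ = (H - γ * mu lam K d Q) / K := ⟨_, rfl⟩
  have hΘ : K * Θ = H - γ * mu lam K d Q := by
    rw [hΘd]
    field_simp
  obtain ⟨h, hh⟩ : ∃ h : ℝ, h = ((R \ Q).card : ℝ) := ⟨_, rfl⟩
  have hh0 : 0 ≤ h := by
    rw [hh]
    exact Nat.cast_nonneg _
  have e1 : (1 - ε / (2 * K)) * (H - γ * mu lam K d Q) = Θ * (K - ε / 2) := by
    rw [← hΘ]
    field_simp
  rw [e1, ← hh]
  rcases le_or_gt (Θ * (K - ε / 2) - h) 0 with hneg | hpos
  · have := mul_nonpos_of_nonneg_of_nonpos hε.le hneg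
    linarith
  rcases le_or_gt Θ 0 with hΘ0 | hΘ0
  · have := mul_nonpos_of_nonpos_of_nonneg hΘ0 (by linarith : (0 : ℝ) ≤ K - ε / 2)
    linarith
  have hmuQ : 0 ≤ mu lam K d Q := Finset.sum_nonneg fun u _ => by linarith [w_pos hlam hdK u]
  have hc : Θ * ε ≤ Q.card := by
    have h1 : K * (Θ * ε) ≤ K * Q.card := by
      rw [← mul_assoc, hΘ]
      have h2 : 0 ≤ γ * mu lam K d Q * ε := mul_nonneg (mul_nonneg hγ.le hmuQ) hε.le
      linarith
    exact le_of_mul_le_mul_left h1 hK
  have hE0 : 0 ≤ Θ * ε := mul_nonneg hΘ0.le hε.le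
  obtain ⟨t, htd⟩ : ∃ t : ℕ, t = ⌈Θ * ε⌉₊ := ⟨_, rfl⟩
  have ht1 : (t : ℝ) < Θ * ε + 1 := by
    rw [htd]
    exact Nat.ceil_lt_add_one hE0
  have ht2 : Θ * ε ≤ t := by
    rw [htd]
    exact Nat.le_ceil _
  have hlt : γ * mu lam K d Q < H := by
    have := mul_pos hK hΘ0
    linarith
  obtain ⟨N, hN1, -, hN3⟩ := remove hK hεe hd (by linarith) hlam hdK hγ T P Q R (ih hlt) hT hQT hP hQ
    Θ hΘ hΘ0 hc t ht1
  have hN4 : df K d N ≤ df K d (Q \ P) := df_mono hdK hN1
  rw [← hh] at hN3
  -- the quadratic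
  have h1 : Θ * (ε * (Θ * (K - ε / 2) - h)) ≤ Θ * df K d N := by
    refine le_trans ?_ hN3
    have h2 : 0 ≤ ((t : ℝ) - Θ * ε) * (Θ * (K - ε / 2) - h) :=
      mul_nonneg (by linarith) hpos.le
    have h3 : 0 ≤ (t : ℝ) * (Θ * ε + 1 - t) := mul_nonneg (Nat.cast_nonneg _) (by linarith)
    nlinarith
  have h2 := le_of_mul_le_mul_left h1 hΘ0
  linarith

/-- the digraph induced on `T` -/
def ind (A : V → V → Prop) (T : Finset V) (a b : V) : Prop := a ∈ T ∧ b ∈ T ∧ A a b

lemma cb_subT (T : Finset V) (v : V) (hv : v ∈ T) (l : ℕ) : LAY_.cb (ind A T) v l ⊆ T := by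
  induction l with
  | zero =>
    intro z hz
    rw [LAY_.cb, Finset.mem_singleton] at hz
    rw [hz]
    exact hv
  | succ l ih =>
    intro z hz
    rw [LAY_.cb, FIN_.mem_outN] at hz
    rcases hz with h | ⟨u, -, h⟩
    · exact ih h
    · exact h.2.1

lemma cb_next (T : Finset V) (v : V) (hv : v ∈ T) (l : ℕ) (u : V) (hu : u ∈ LAY_.cb (ind A T) v l)
    (z : V) (hz : z ∈ T) (h : A u z) : z ∈ LAY_.cb (ind A T) v (l + 1) :=
  FIN_.mem_outN.2 (Or.inr ⟨u, hu, cb_subT T v hv l hu, hz, h⟩)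

/-- the first ball -/
lemma cb_one (hcl : NoCl A m) (hm : 1 ≤ m) (T : Finset V) (v : V) (hv : v ∈ T) :
    1 + ((T.filter fun u => A v u).card : ℝ) ≤ (LAY_.cb (ind A T) v 1).card := by
  classical
  have h2 : {v} ∪ (T.filter fun u => A v u) ⊆ LAY_.cb (ind A T) v 1 := by
    intro z hz
    rw [Finset.mem_union, Finset.mem_singleton, Finset.mem_filter] at hz
    rcases hz with h | h
    · rw [h]
      exact LAY_.mem_cb_self v 1
    · exact FIN_.mem_outN.2 (Or.inr ⟨v, Finset.mem_singleton_self _, hv, h.1, h.2⟩)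
  have h3 : Disjoint {v} (T.filter fun u => A v u) := by
    rw [Finset.disjoint_singleton_left, Finset.mem_filter]
    exact fun h => hcl 1 (le_refl _) hm v (EM.Wk.one.2 h.2)
  have h4 := Finset.card_le_card h2
  rw [Finset.card_union_of_disjoint h3, Finset.card_singleton] at h4
  exact_mod_cast h4

/-- the size of the balls with deficits: the gap to `M = H/γ` -/
lemma gap {H M : ℝ} (hK : 0 < K) (hε : 0 < ε) (hεK : ε ≤ K) (hεe : ε ≤ e) (hd : ∀ u, e ≤ d u)
    (hlam : 0 ≤ lam) (hdK : ∀ u, d u ≤ K) (hγ : 0 < γ) (hH0 : 0 ≤ H) (hH : H = γ * M)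
    (hq : q = 1 - γ * (1 - ε / (2 * K))) (hq0 : 0 < q) (hlq : lam * (ε * q) = 1)
    (hcl : NoCl A m) (hm : 1 ≤ m) (T : Finset V)
    (ih : ∀ Q, Q ⊆ T → γ * mu lam K d Q < H → ∀ S, S ⊆ Q → S.Nonempty →
      ∃ u ∈ S, K * ((S.filter fun v => A u v).card : ℝ) ≤ γ * mu lam K d S * d u)
    (hT : ∀ u ∈ T, H * d u ≤ K * ((T.filter fun v => A u v).card : ℝ)) (v : V) (hv : v ∈ T) (l : ℕ) :
    M - (((LAY_.cb (ind A T) v (l + 1)).card : ℝ) + lam * df K d (LAY_.cb (ind A T) v l)) ≤
      q ^ l * (M - (1 + lam * (K - d v)) - ((T.filter fun u => A v u).card : ℝ)) := by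
  classical
  have h1 := cb_one hcl hm T v hv
  induction l with
  | zero =>
    have h2 : df K d (LAY_.cb (ind A T) v 0) = K - d v := by
      unfold df LAY_.cb
      rw [Finset.sum_singleton]
    rw [h2, pow_zero, one_mul]
    linarith
  | succ l ihl =>
    obtain ⟨P, hP⟩ : ∃ P, P = LAY_.cb (ind A T) v l := ⟨_, rfl⟩
    obtain ⟨Q, hQ⟩ : ∃ Q, Q = LAY_.cb (ind A T) v (l + 1) := ⟨_, rfl⟩
    obtain ⟨R, hR⟩ : ∃ R, R = LAY_.cb (ind A T) v (l + 2) := ⟨_, rfl⟩
    have hPQ : P ⊆ Q := by
      rw [hP, hQ]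
      exact LAY_.cb_sub v l
    have hQR : Q ⊆ R := by
      rw [hQ, hR]
      exact LAY_.cb_sub v (l + 1)
    have hQT : Q ⊆ T := by
      rw [hQ]
      exact cb_subT T v hv _
    have hQ1 : LAY_.cb (ind A T) v 1 ⊆ Q := by
      rw [hQ]
      clear ihl hP hR hPQ hQR hQT hQ
      induction l with
      | zero => exact Finset.Subset.refl _
      | succ l ih => exact ih.trans (LAY_.cb_sub v (l + 1))
    have hcard : H * ε ≤ K * Q.card := by
      have h2 : ((LAY_.cb (ind A T) v 1).card : ℝ) ≤ Q.card := by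
        exact_mod_cast Finset.card_le_card hQ1
      have h3 := hT v hv
      have h4 : H * ε ≤ H * d v := mul_le_mul_of_nonneg_left (by linarith [hd v]) hH0
      have h5 : K * ((T.filter fun u => A v u).card : ℝ) ≤ K * Q.card :=
        mul_le_mul_of_nonneg_left (by linarith) hK.le
      linarith
    have hg := growth (A := A) hK hε hεK hεe hd hlam hdK hγ T P Q R (ih Q hQT) hT hQT
      (fun u hu z hz h => by
        rw [hP] at hu
        rw [hQ]
        exact cb_next T v hv l u hu z hz h)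
      (fun u hu z hz h => by
        rw [hQ] at hu
        rw [hR]
        exact cb_next T v hv (l + 1) u hu z hz h) hcard
    have hdfQ : df K d (Q \ P) = df K d Q - df K d P := by
      unfold df
      rw [← Finset.sum_sdiff hPQ]
      ring
    have hRc : ((R \ Q).card : ℝ) = R.card - Q.card := by
      have h2 := Finset.card_sdiff_add_card_eq_card hQR
      have h3 : ((R \ Q).card : ℝ) + Q.card = R.card := by exact_mod_cast h2
      linarith
    rw [← hP, ← hQ] at ihl
    rw [← hQ, ← hR]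
    have hdf := df_nonneg (d := d) hdK (Q \ P)
    rw [hRc, mu_eq, hdfQ] at hg
    rw [hdfQ] at hdf
    obtain ⟨a, ha⟩ : ∃ a : ℝ, a = (Q.card : ℝ) + lam * df K d P := ⟨_, rfl⟩
    obtain ⟨D, hD⟩ : ∃ D : ℝ, D = lam * (df K d Q - df K d P) := ⟨_, rfl⟩
    obtain ⟨h, hh⟩ : ∃ h : ℝ, h = (R.card : ℝ) - Q.card := ⟨_, rfl⟩
    have e1 : (Q.card : ℝ) + lam * df K d Q = a + D := by
      rw [ha, hD]
      ring
    rw [e1, ← hh, hH] at hg
    -- `D + h ≥ (1 - q)(M - a)`
    have h3 : (1 - q) * (M - a - D) - h ≤ q * D := by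
      have h4 := mul_le_mul_of_nonneg_left hg (mul_nonneg hlam hq0.le)
      have h5 : lam * q * (ε * ((1 - ε / (2 * K)) * (γ * M - γ * (a + D)) - h)) =
          lam * (ε * q) * ((γ * (1 - ε / (2 * K))) * (M - a - D) - h) := by ring
      rw [h5, hlq, one_mul] at h4
      have h6 : γ * (1 - ε / (2 * K)) = 1 - q := by rw [hq]; ring
      rw [h6] at h4
      rw [hD]
      rw [hD] at h4
      linarith
    have h4 : (R.card : ℝ) + lam * df K d Q = a + D + h := by
      rw [ha, hD, hh]
      ring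
    rw [h4]
    rw [← ha] at ihl
    have h5 := mul_le_mul_of_nonneg_left ihl hq0.le
    have h6 : q ^ (l + 1) = q * q ^ l := by ring
    rw [h6]
    have h7 : M - (a + D + h) ≤ q * (M - a) := by linarith
    calc M - (a + D + h) ≤ q * (M - a) := h7
      _ ≤ q * (q ^ l * (M - (1 + lam * (K - d v)) - ((T.filter fun u => A v u).card : ℝ))) := h5
      _ = q * q ^ l * (M - (1 + lam * (K - d v)) - ((T.filter fun u => A v u).card : ℝ)) := by ring

/-- two balls, with weights -/
lemma count (hlam : 0 ≤ lam) (hdK : ∀ u, d u ≤ K) (hcl : NoCl A m) (i j : ℕ) (hij : i + j ≤ m)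
    (T : Finset V) (v : V) (hv : v ∈ T) :
    mu lam K d (LAY_.cb (ind A T) v i) + mu lam K d (LAY_.cb (fun a b => ind A T b a) v j) ≤
      mu lam K d T + (1 + lam * (K - d v)) := by
  classical
  have hclT : NoCl (ind A T) m := THA_.nocl_map (A := A) id (fun a b hab => hab.2.2) hcl
  have hsubj : LAY_.cb (fun a b => ind A T b a) v j ⊆ T := by
    intro z hz
    rw [THC_.mem_flip] at hz
    by_contra hzT
    -- a walk out of `z` needs `z ∈ T`
    have h1 : ∀ l (y : V), y ∈ LAY_.cb (ind A T) z l → y = z := by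
      intro l
      induction l with
      | zero =>
        intro y hy
        rwa [LAY_.cb, Finset.mem_singleton] at hy
      | succ l ih =>
        intro y hy
        rw [LAY_.cb, FIN_.mem_outN] at hy
        rcases hy with h | ⟨u, hu, h⟩
        · exact ih y h
        · rw [ih u hu] at h
          exact absurd h.1 hzT
    exact hzT ((h1 j v hz) ▸ hv)
  have h1 : LAY_.cb (ind A T) v i ∩ LAY_.cb (fun a b => ind A T b a) v j ⊆ {v} := by
    intro z hz
    rw [Finset.mem_inter] at hz
    obtain ⟨p, f1, f2⟩ := LAY_.cb_walk v i z hz.1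
    obtain ⟨r, f3, f4⟩ := LAY_.cb_walk v j z hz.2
    have f5 := CUT_.wk_flip r v z f4
    have f6 := f2.trans f5
    rw [Finset.mem_singleton]
    rcases Nat.eq_zero_or_pos (p + r) with h | h
    · have hp : p = 0 := by omega
      rw [hp] at f2
      exact (show v = z from f2).symm
    · exact absurd f6 (hclT (p + r) h (by omega) v)
  have h2 : mu lam K d (LAY_.cb (ind A T) v i) + mu lam K d (LAY_.cb (fun a b => ind A T b a) v j) =
      mu lam K d (LAY_.cb (ind A T) v i ∪ LAY_.cb (fun a b => ind A T b a) v j) +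
      mu lam K d (LAY_.cb (ind A T) v i ∩ LAY_.cb (fun a b => ind A T b a) v j) := by
    unfold mu
    rw [Finset.sum_union_inter]
  rw [h2]
  have h3 : mu lam K d (LAY_.cb (ind A T) v i ∪ LAY_.cb (fun a b => ind A T b a) v j) ≤
      mu lam K d T := mu_mono hlam hdK (Finset.union_subset (cb_subT T v hv i) hsubj)
  have h4 : mu lam K d (LAY_.cb (ind A T) v i ∩ LAY_.cb (fun a b => ind A T b a) v j) ≤
      mu lam K d {v} := mu_mono hlam hdK h1
  have h5 : mu lam K d {v} = 1 + lam * (K - d v) := by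
    unfold mu
    rw [Finset.sum_singleton]
  linarith

/-- the exchange of in-balls and out-balls -/
lemma flip (T : Finset V) (j : ℕ) :
    ∑ v ∈ T, (1 + lam * (K - d v)) * mu lam K d (T ∩ LAY_.cb (fun a b => ind A T b a) v j) =
      ∑ v ∈ T, (1 + lam * (K - d v)) * mu lam K d (T ∩ LAY_.cb (ind A T) v j) := by
  classical
  have h1 : ∀ (B : V → V → Prop) (v : V), mu lam K d (T ∩ LAY_.cb B v j) =
      ∑ u ∈ T, if u ∈ LAY_.cb B v j then (1 + lam * (K - d u)) else 0 := by
    intro B v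
    unfold mu
    rw [← Finset.sum_filter]
    apply Finset.sum_congr _ fun _ _ => rfl
    ext z
    simp [Finset.mem_inter]
  simp only [h1, Finset.mul_sum]
  rw [Finset.sum_comm]
  apply Finset.sum_congr rfl
  intro u _
  apply Finset.sum_congr rfl
  intro v _
  by_cases h : v ∈ LAY_.cb (ind A T) u j
  · rw [if_pos ((THC_.mem_flip v j u).2 h), if_pos h]
    ring
  · rw [if_neg (fun h' => h ((THC_.mem_flip v j u).1 h')), if_neg h]
    ring

/-- the sum over the centres -/
lemma closing {H M : ℝ} (hK : 0 < K) (hε : 0 < ε) (hεK : ε ≤ K) (hεe : ε ≤ e) (hd : ∀ u, e ≤ d u)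
    (hlam : 0 ≤ lam) (hdK : ∀ u, d u ≤ K) (hγ : 0 < γ) (hH0 : 0 ≤ H) (hH : H = γ * M)
    (hq : q = 1 - γ * (1 - ε / (2 * K))) (hq0 : 0 < q) (hlq : lam * (ε * q) = 1)
    (hcl : NoCl A m) (i j : ℕ) (hij : i + j + 2 ≤ m) (T : Finset V)
    (ih : ∀ Q, Q ⊆ T → γ * mu lam K d Q < H → ∀ S, S ⊆ Q → S.Nonempty →
      ∃ u ∈ S, K * ((S.filter fun v => A u v).card : ℝ) ≤ γ * mu lam K d S * d u)
    (hT : ∀ u ∈ T, H * d u ≤ K * ((T.filter fun v => A u v).card : ℝ)) :
    ∑ v ∈ T, (1 + lam * (K - d v)) * (2 * M - (q ^ i + q ^ j) *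
      (M - (1 + lam * (K - d v)) - ((T.filter fun u => A v u).card : ℝ))) ≤
      ∑ v ∈ T, (1 + lam * (K - d v)) * (mu lam K d T + (1 + lam * (K - d v))) := by
  classical
  have hball : ∀ l, ∀ v ∈ T, M - q ^ l *
      (M - (1 + lam * (K - d v)) - ((T.filter fun u => A v u).card : ℝ)) ≤
      mu lam K d (T ∩ LAY_.cb (ind A T) v (l + 1)) := by
    intro l v hv
    have h1 := gap hK hε hεK hεe hd hlam hdK hγ hH0 hH hq hq0 hlq hcl (by omega) T ih hT v hv l
    have h2 : T ∩ LAY_.cb (ind A T) v (l + 1) = LAY_.cb (ind A T) v (l + 1) :=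
      Finset.inter_eq_right.2 (cb_subT T v hv _)
    rw [h2, mu_eq]
    have h3 : df K d (LAY_.cb (ind A T) v l) ≤ df K d (LAY_.cb (ind A T) v (l + 1)) :=
      df_mono hdK (LAY_.cb_sub v l)
    have h4 := mul_le_mul_of_nonneg_left h3 hlam
    linarith
  have hw : ∀ v, 0 ≤ 1 + lam * (K - d v) := fun v => by linarith [w_pos hlam hdK v]
  have h1 : ∑ v ∈ T, (1 + lam * (K - d v)) *
      (mu lam K d (T ∩ LAY_.cb (ind A T) v (i + 1)) +
        mu lam K d (T ∩ LAY_.cb (fun a b => ind A T b a) v (j + 1))) ≤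
      ∑ v ∈ T, (1 + lam * (K - d v)) * (mu lam K d T + (1 + lam * (K - d v))) := by
    apply Finset.sum_le_sum
    intro v hv
    apply mul_le_mul_of_nonneg_left _ (hw v)
    have h2 := count hlam hdK hcl (i + 1) (j + 1) (by omega) T v hv
    have h3 : mu lam K d (T ∩ LAY_.cb (ind A T) v (i + 1)) ≤ mu lam K d (LAY_.cb (ind A T) v (i + 1)) :=
      mu_mono hlam hdK Finset.inter_subset_right
    have h4 : mu lam K d (T ∩ LAY_.cb (fun a b => ind A T b a) v (j + 1)) ≤
        mu lam K d (LAY_.cb (fun a b => ind A T b a) v (j + 1)) :=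
      mu_mono hlam hdK Finset.inter_subset_right
    linarith
  have e6 : ∑ v ∈ T, (1 + lam * (K - d v)) *
      (mu lam K d (T ∩ LAY_.cb (ind A T) v (i + 1)) +
        mu lam K d (T ∩ LAY_.cb (fun a b => ind A T b a) v (j + 1))) =
      ∑ v ∈ T, (1 + lam * (K - d v)) * mu lam K d (T ∩ LAY_.cb (ind A T) v (i + 1)) +
      ∑ v ∈ T, (1 + lam * (K - d v)) *
        mu lam K d (T ∩ LAY_.cb (fun a b => ind A T b a) v (j + 1)) := by
    rw [← Finset.sum_add_distrib]
    apply Finset.sum_congr rfl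
    intro v _
    ring
  rw [e6] at h1
  refine le_trans ?_ h1
  have h2 := flip (A := A) (d := d) (lam := lam) (K := K) T (j + 1)
  have h3 : ∑ v ∈ T, (1 + lam * (K - d v)) * (M - q ^ i *
      (M - (1 + lam * (K - d v)) - ((T.filter fun u => A v u).card : ℝ))) ≤
      ∑ v ∈ T, (1 + lam * (K - d v)) * mu lam K d (T ∩ LAY_.cb (ind A T) v (i + 1)) :=
    Finset.sum_le_sum fun v hv => mul_le_mul_of_nonneg_left (hball i v hv) (hw v)
  have h4 : ∑ v ∈ T, (1 + lam * (K - d v)) * (M - q ^ j *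
      (M - (1 + lam * (K - d v)) - ((T.filter fun u => A v u).card : ℝ))) ≤
      ∑ v ∈ T, (1 + lam * (K - d v)) * mu lam K d (T ∩ LAY_.cb (ind A T) v (j + 1)) :=
    Finset.sum_le_sum fun v hv => mul_le_mul_of_nonneg_left (hball j v hv) (hw v)
  have h5 : ∑ v ∈ T, (1 + lam * (K - d v)) * (2 * M - (q ^ i + q ^ j) *
      (M - (1 + lam * (K - d v)) - ((T.filter fun u => A v u).card : ℝ))) =
      ∑ v ∈ T, (1 + lam * (K - d v)) * (M - q ^ i *
      (M - (1 + lam * (K - d v)) - ((T.filter fun u => A v u).card : ℝ))) +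
      ∑ v ∈ T, (1 + lam * (K - d v)) * (M - q ^ j *
      (M - (1 + lam * (K - d v)) - ((T.filter fun u => A v u).card : ℝ))) := by
    rw [← Finset.sum_add_distrib]
    apply Finset.sum_congr rfl
    intro v _
    ring
  rw [h5, h2]
  exact add_le_add h3 h4

end DCH_

open DCH_ in
/-- **the Caccetta-Häggkvist bound with deficits** -/
theorem dch {V : Type} [Fintype V] {A : V → V → Prop} {m : ℕ} {K e ε γ q lam : ℝ} {d : V → ℝ}
    (hε : 0 < ε) (hεe : ε ≤ e) (heK : e ≤ K) (hd : ∀ u, e ≤ d u)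
    (hlam : 0 ≤ lam) (hdK : ∀ u, d u ≤ K) (hγ : 0 < γ)
    (hq : q = 1 - γ * (1 - ε / (2 * K))) (hq0 : 0 < q) (hlq : lam * (ε * q) = 1)
    (hcl : NoCl A m) (i j : ℕ) (hij : i + j + 2 ≤ m)
    (hQ : (q ^ i + q ^ j) * (1 - γ * (e / K)) ≤ 1) (T : Finset V) :
    T.Nonempty → ∃ u ∈ T, K * ((T.filter fun v => A u v).card : ℝ) ≤ γ * mu lam K d T * d u := by
  classical
  have hK : 0 < K := by linarith
  induction T using Finset.strongInduction with
  | _ T IH =>
    intro hne
    by_contra hcon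
    push Not at hcon
    obtain ⟨M, hM⟩ : ∃ M, M = mu lam K d T := ⟨_, rfl⟩
    obtain ⟨G, hG⟩ : ∃ G, G = q ^ i + q ^ j := ⟨_, rfl⟩
    have hG0 : 0 < G := by
      rw [hG]
      exact add_pos (pow_pos hq0 _) (pow_pos hq0 _)
    have hM0 : 0 < M := by
      rw [hM]
      exact Finset.sum_pos (fun u _ => by linarith [w_pos hlam hdK u]) hne
    have h1 := closing (H := γ * M) (M := M) hK hε (by linarith) hεe hd hlam hdK hγ
      (mul_nonneg hγ.le hM0.le) rfl hq hq0 hlq hcl i j hij T (by
        intro Q hQT hlt S hSQ hS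
        apply IH S _ hS
        rw [Finset.ssubset_iff_subset_ne]
        refine ⟨hSQ.trans hQT, fun h => ?_⟩
        have h2 : mu lam K d T ≤ mu lam K d Q := mu_mono hlam hdK (h ▸ hSQ)
        rw [← hM] at h2
        have h3 := mul_le_mul_of_nonneg_left h2 hγ.le
        linarith) (fun u hu => by
        rw [hM]
        exact (hcon u hu).le)
    rw [← hM, ← hG] at h1
    have h2 : ∑ v ∈ T, (1 + lam * (K - d v)) * (M + (1 + lam * (K - d v))) <
        ∑ v ∈ T, (1 + lam * (K - d v)) * (2 * M - G *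
        (M - (1 + lam * (K - d v)) - ((T.filter fun u => A v u).card : ℝ))) := by
      apply Finset.sum_lt_sum_of_nonempty hne
      intro v hv
      obtain ⟨w, hw⟩ : ∃ w, w = 1 + lam * (K - d v) := ⟨_, rfl⟩
      obtain ⟨D, hD⟩ : ∃ D : ℝ, D = ((T.filter fun u => A v u).card : ℝ) := ⟨_, rfl⟩
      have hw1 : 1 ≤ w := by
        rw [hw]
        exact w_pos hlam hdK v
      have hwM : w ≤ M := by
        rw [hM]
        have : mu lam K d {v} ≤ mu lam K d T := mu_mono hlam hdK (Finset.singleton_subset_iff.2 hv)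
        refine le_trans (le_of_eq ?_) this
        unfold mu
        rw [Finset.sum_singleton, hw]
      have h3 := hcon v hv
      rw [← hM, ← hD] at h3
      have h4 : γ * M * e ≤ γ * M * d v :=
        mul_le_mul_of_nonneg_left (hd v) (mul_nonneg hγ.le hM0.le)
      have h5 : γ * (e / K) * M < D := by
        have h6 : K * (γ * (e / K) * M) < K * D := by
          have : K * (γ * (e / K) * M) = γ * M * e := by field_simp
          rw [this]
          linarith
        exact lt_of_mul_lt_mul_left h6 hK.le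
      rw [← hw, ← hD]
      apply mul_lt_mul_of_pos_left _ (by linarith)
      have h6 : G * (γ * (e / K) * M) < G * D := mul_lt_mul_of_pos_left h5 hG0
      rcases le_or_gt G 1 with h7 | h7
      · have h8 : 0 ≤ (1 - G) * (M - w) := mul_nonneg (by linarith) (by linarith)
        have h9 : 0 ≤ G * (γ * (e / K) * M) :=
          mul_nonneg hG0.le (mul_nonneg (mul_nonneg hγ.le (div_nonneg (by linarith) hK.le)) hM0.le)
        nlinarith
      · have h8 : 0 ≤ (G - 1) * w := mul_nonneg (by linarith) (by linarith)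
        have h9 : M * (G * (1 - γ * (e / K))) ≤ M * 1 := mul_le_mul_of_nonneg_left (by rw [hG]; exact hQ) hM0.le
        nlinarith
    linarith

end Pool.Agent.Lib.MP_83608f_co.CN
end
end
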