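import Mathlib
import Pool.Agent.Lib.MP_83608f_co.CN.DCH

section
/-! MP_83608f_co, part CN, module E2A (helper91): uncrossing of pairs of sets without arcs from the first to the
second, minimal fragments, and a vertex without small cuts between its out- and in-neighbours (connectivity `k - 1`). -/
set_option autoImplicit false

open Classical

noncomputable section

namespace Pool.Agent.Lib.MP_83608f_co.CN

namespace E2_

variable {V : Type} [Fintype V] {A : V → V → Prop} {k : ℕ}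

/-- `X` and `Y` are disjoint and there are no arcs from `X` to `Y` -/
def Na (A : V → V → Prop) (X Y : Finset V) : Prop := ∀ x ∈ X, ∀ y ∈ Y, x ≠ y ∧ ¬ A x y

omit [Fintype V] in
lemma Na.flip {X Y : Finset V} (h : Na A X Y) : Na (fun x y => A y x) Y X :=
  fun y hy x hx => ⟨(h x hx y hy).1.symm, (h x hx y hy).2⟩

omit [Fintype V] in
lemma Na.meet {X Y X' Y' : Finset V} (h : Na A X Y) (h' : Na A X' Y') : Na A (X ∩ X') (Y ∪ Y') := by
  intro x hx y hy
  rw [Finset.mem_inter] at hx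
  rw [Finset.mem_union] at hy
  rcases hy with hy | hy
  · exact h x hx.1 y hy
  · exact h' x hx.2 y hy

omit [Fintype V] in
lemma Na.join {X Y X' Y' : Finset V} (h : Na A X Y) (h' : Na A X' Y') : Na A (X ∪ X') (Y ∩ Y') := by
  intro x hx y hy
  rw [Finset.mem_inter] at hy
  rw [Finset.mem_union] at hx
  rcases hx with hx | hx
  · exact h x hx y hy.1
  · exact h' x hx y hy.2

omit [Fintype V] in
lemma Na.mono {X Y X' Y' : Finset V} (h : Na A X Y) (hX : X' ⊆ X) (hY : Y' ⊆ Y) : Na A X' Y' :=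
  fun x hx y hy => h x (hX hx) y (hY hy)

omit [Fintype V] in
lemma Na.disj {X Y : Finset V} (h : Na A X Y) : Disjoint X Y :=
  Finset.disjoint_left.2 fun x hx hy => (h x hx x hy).1 rfl

lemma Na.card_le {X Y : Finset V} (h : Na A X Y) : X.card + Y.card ≤ Fintype.card V := by
  rw [← Finset.card_union_of_disjoint h.disj]
  exact Finset.card_le_univ _

omit [Fintype V] in
/-- the sizes in an uncrossing -/
lemma unc (X Y X' Y' : Finset V) :
    (X ∩ X').card + (Y ∪ Y').card + ((X ∪ X').card + (Y ∩ Y').card) =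
      X.card + Y.card + (X'.card + Y'.card) := by
  have h1 := Finset.card_union_add_card_inter X X'
  have h2 := Finset.card_union_add_card_inter Y Y'
  omega

/-- `Z` is a side of a pair with excess at least `j` -/
def Sd (A : V → V → Prop) (k j : ℕ) (Z : Finset V) : Prop :=
  Z.Nonempty ∧ ∃ Y : Finset V, Y.Nonempty ∧ (Na A Z Y ∨ Na A Y Z) ∧ Fintype.card V + j ≤ Z.card + Y.card + k

lemma Sd.flip {j : ℕ} {Z : Finset V} (h : Sd A k j Z) : Sd (fun x y => A y x) k j Z := by
  obtain ⟨h1, Y, h2, h3, h4⟩ := h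
  exact ⟨h1, Y, h2, h3.elim (fun h => Or.inr h.flip) (fun h => Or.inl h.flip), h4⟩

lemma sd_flip {j : ℕ} {Z : Finset V} : Sd (fun x y => A y x) k j Z ↔ Sd A k j Z :=
  ⟨fun h => h.flip, fun h => h.flip⟩

lemma Sd.first {j : ℕ} {X Y : Finset V} (hX : X.Nonempty) (hY : Y.Nonempty) (h : Na A X Y)
    (hw : Fintype.card V + j ≤ X.card + Y.card + k) : Sd A k j X := ⟨hX, Y, hY, Or.inl h, hw⟩

lemma Sd.second {j : ℕ} {X Y : Finset V} (hX : X.Nonempty) (hY : Y.Nonempty) (h : Na A X Y)
    (hw : Fintype.card V + j ≤ X.card + Y.card + k) : Sd A k j Y := ⟨hY, X, hX, Or.inr h, by omega⟩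

/-- for every vertex a pair which separates its out-neighbours from its in-neighbours and has a positive excess -/
def Bad (A : V → V → Prop) (k : ℕ) (a b : V → Finset V) : Prop :=
  ∀ v, Na A (a v) (b v) ∧ v ∈ a v ∧ (∀ u, A v u → u ∈ a v) ∧ (∀ u, A u v → u ∈ b v) ∧
    Fintype.card V + 1 ≤ (a v).card + (b v).card + k

lemma Bad.flip {a b : V → Finset V} (h : Bad A k a b) :
    Bad (fun x y => A y x) k (fun v => insert v (b v)) (fun v => (a v).erase v) := by
  intro v
  obtain ⟨h1, h2, h3, h4, h5⟩ := h v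
  have hvb : v ∉ b v := fun hb => (h1 v h2 v hb).1 rfl
  refine ⟨?_, Finset.mem_insert_self _ _, fun u hu => Finset.mem_insert_of_mem (h4 u hu), ?_, ?_⟩
  · intro x hx y hy
    rw [Finset.mem_insert] at hx
    rw [Finset.mem_erase] at hy
    rcases hx with rfl | hx
    · exact ⟨hy.1.symm, fun hA => (h1 y hy.2 y (h4 y hA)).1 rfl⟩
    · exact ⟨(h1 y hy.2 x hx).1.symm, (h1 y hy.2 x hx).2⟩
  · intro u hu
    rw [Finset.mem_erase]
    refine ⟨?_, h3 u hu⟩
    rintro rfl
    exact hvb (h4 u hu)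
  · have e1 := Finset.card_insert_of_notMem hvb
    have e2 := Finset.card_erase_of_mem h2
    have e3 : 0 < (a v).card := Finset.card_pos.2 ⟨v, h2⟩
    simp only
    omega

/-- every vertex of a first side with positive excess has an out-neighbour in it -/
lemma out_in (hout : ∀ v, (Finset.univ.filter fun u => A v u).card = k) {F Y : Finset V}
    (h : Na A F Y) (hw : Fintype.card V + 1 ≤ F.card + Y.card + k) {v : V} (hv : v ∈ F) :
    ∃ u ∈ F, A v u := by
  by_contra hcon
  push Not at hcon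
  have h1 : Disjoint (Finset.univ.filter fun u => A v u) (F ∪ Y) := by
    rw [Finset.disjoint_left]
    intro u hu hu'
    rw [Finset.mem_filter] at hu
    rw [Finset.mem_union] at hu'
    rcases hu' with h' | h'
    · exact hcon u h' hu.2
    · exact (h v hv u h').2 hu.2
  have h2 := Finset.card_le_univ ((Finset.univ.filter fun u => A v u) ∪ (F ∪ Y))
  rw [Finset.card_union_of_disjoint h1, Finset.card_union_of_disjoint h.disj, hout v] at h2
  omega

/-- **One level.**  If all pairs have excess at most `l`, then the vertices of a side `F` with excess `l`, such that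
all sides which meet `F` and have a positive excess are at least as large as `F`, are not all bad. -/
theorem core1 {a b : V → Finset V} (hbad : Bad A k a b)
    (hout : ∀ v, (Finset.univ.filter fun u => A v u).card = k) {l : ℕ} (hl : 1 ≤ l)
    (hmax : ∀ X Y : Finset V, X.Nonempty → Y.Nonempty → Na A X Y →
      X.card + Y.card + k ≤ Fintype.card V + l)
    {F Y : Finset V} (hF : F.Nonempty) (hY : Y.Nonempty) (hFY : Na A F Y)
    (hw : Fintype.card V + l ≤ F.card + Y.card + k)
    (hmin : ∀ Z, Sd A k 1 Z → (Z ∩ F).Nonempty → F.card ≤ Z.card) : False := by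
  obtain ⟨z, hz⟩ := hF
  obtain ⟨v, hv, hzv⟩ := out_in hout hFY (by omega) hz
  obtain ⟨h1, h2, h3, h4, h5⟩ := hbad v
  have hzb : z ∈ b v := h4 z hzv
  have hza : z ∉ a v := fun h => (h1 z h z hzb).1 rfl
  have hva : v ∈ a v ∩ F := Finset.mem_inter.2 ⟨h2, hv⟩
  have hlt : (a v ∩ F).card < F.card := by
    apply Finset.card_lt_card
    rw [Finset.ssubset_iff_of_subset Finset.inter_subset_right]
    exact ⟨z, hz, fun h => hza (Finset.mem_inter.1 h).1⟩
  have hn : ¬ Sd A k 1 (a v ∩ F) := fun h => by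
    have := hmin _ h ⟨v, Finset.mem_inter.2 ⟨hva, hv⟩⟩
    omega
  have hY' : (b v ∪ Y).Nonempty := ⟨z, Finset.mem_union_left _ hzb⟩
  have h6 : (a v ∩ F).card + (b v ∪ Y).card + k ≤ Fintype.card V := by
    by_contra h
    exact hn (Sd.first ⟨v, hva⟩ hY' (h1.meet hFY) (by omega))
  have h7 := unc (a v) (b v) F Y
  have h8 : ¬ (b v ∩ Y).Nonempty := fun h => by
    have := hmax _ _ ⟨v, Finset.mem_union_left _ h2⟩ h (h1.join hFY)
    omega
  rw [Finset.not_nonempty_iff_eq_empty] at h8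
  rw [h8, Finset.card_empty] at h7
  have h9 := Finset.card_union_add_card_inter (a v) F
  have h10 := hmin _ (Sd.second ⟨v, h2⟩ ⟨z, hzb⟩ h1 h5) ⟨z, Finset.mem_inter.2 ⟨hzb, hz⟩⟩
  have h11 : 0 < (a v ∩ F).card := Finset.card_pos.2 ⟨v, hva⟩
  omega

end E2_

end Pool.Agent.Lib.MP_83608f_co.CN
end
end

section
/-! MP_83608f_co, part CN, module E2B (helper91): the two cases of Theorem E2 (fragments of excess at most two). -/
set_option autoImplicit false

open Classical

noncomputable section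

namespace Pool.Agent.Lib.MP_83608f_co.CN

namespace E2_

variable {V : Type} [Fintype V] {A : V → V → Prop} {k s : ℕ} {a b : V → Finset V} {O F : Finset V}

/-- the situation: `O` is a smallest side of excess two, `F` is a smallest side of excess at least one which meets a
smallest side of excess two, and it is smaller than `O`; all vertices are bad -/
structure Hy (A : V → V → Prop) (k s : ℕ) (a b : V → Finset V) (O F : Finset V) : Prop where
  out : ∀ v, (Finset.univ.filter fun u => A v u).card = k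
  inn : ∀ v, (Finset.univ.filter fun u => A u v).card = k
  H2 : ∀ X Y : Finset V, X.Nonempty → Y.Nonempty → Na A X Y → X.card + Y.card + k ≤ Fintype.card V + 2
  bad : Bad A k a b
  s2 : ∀ Z, Sd A k 2 Z → s ≤ Z.card
  O2 : Sd A k 2 O
  Os : O.card = s
  meet : (F ∩ O).Nonempty
  lt : F.card < s
  mn : ∀ O' Z, Sd A k 2 O' → O'.card = s → Sd A k 1 Z → (Z ∩ O').Nonempty → F.card ≤ Z.card

lemma Hy.mnO (H : Hy A k s a b O F) (Z : Finset V) (h : Sd A k 1 Z) (h' : (Z ∩ O).Nonempty) :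
    F.card ≤ Z.card := H.mn O Z H.O2 H.Os h h'

/-- small first sides have excess at most one -/
lemma Hy.ex1 (H : Hy A k s a b O F) {X Y : Finset V} (hX : X.Nonempty) (hY : Y.Nonempty) (h : Na A X Y)
    (hs : X.card < s ∨ Y.card < s) : X.card + Y.card + k ≤ Fintype.card V + 1 := by
  by_contra hcon
  have h1 := H.s2 _ (Sd.first hX hY h (by omega : Fintype.card V + 2 ≤ _))
  have h2 := H.s2 _ (Sd.second hX hY h (by omega : Fintype.card V + 2 ≤ _))
  omega

lemma case1 (H : Hy A k s a b O F) {Y : Finset V} (hY : Y.Nonempty) (hFY : Na A F Y)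
    (hw : Fintype.card V + 1 ≤ F.card + Y.card + k) {U : Finset V} (hU : U.Nonempty) (hOU : Na A O U)
    (hwO : Fintype.card V + 2 ≤ O.card + U.card + k) : False := by
  obtain ⟨p, hp⟩ := H.meet
  rw [Finset.mem_inter] at hp
  have hFne : F.Nonempty := ⟨p, hp.1⟩
  have hOne : O.Nonempty := ⟨p, hp.2⟩
  have hwO' := H.H2 O U hOne hU hOU
  have hUs := H.s2 _ (Sd.second hOne hU hOU hwO)
  have hlt := H.lt
  have hOs := H.Os
  -- `F ⊆ O`
  have hFO : F ⊆ O := by
    by_contra hcon
    have h1 : (F ∩ O).card < F.card := by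
      apply Finset.card_lt_card
      rw [Finset.ssubset_iff_of_subset Finset.inter_subset_left]
      obtain ⟨q, hq, hq'⟩ := Finset.not_subset.1 hcon
      exact ⟨q, hq, fun h => hq' (Finset.mem_inter.1 h).2⟩
    have h2 : (F ∩ O).card + (Y ∪ U).card + k ≤ Fintype.card V := by
      by_contra h
      have := H.mnO _ (Sd.first H.meet (hY.mono Finset.subset_union_left) (hFY.meet hOU) (by omega))
        ⟨p, by simp [hp.1, hp.2]⟩
      omega
    have h3 := unc F Y O U
    have h4 : ¬ (Y ∩ U).Nonempty := fun h => by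
      have := H.H2 _ _ (hFne.mono Finset.subset_union_left) h (hFY.join hOU)
      omega
    rw [Finset.not_nonempty_iff_eq_empty] at h4
    rw [h4, Finset.card_empty] at h3
    have h5 := Finset.card_union_add_card_inter F O
    omega
  have hYF : Disjoint Y F := hFY.disj.symm
  have hUF : Disjoint U F := Finset.disjoint_left.2 fun u hu hu' => (hOU u (hFO hu') u hu).1 rfl
  -- an arc from `O \ F` to `F`
  obtain ⟨y, hyO, hyF, x, hxF, hyx⟩ : ∃ y ∈ O, y ∉ F ∧ ∃ x ∈ F, A y x := by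
    by_contra hcon
    push Not at hcon
    have h1 : Na A (O \ F) (U ∪ F) := by
      intro u hu w hw'
      rw [Finset.mem_sdiff] at hu
      rw [Finset.mem_union] at hw'
      rcases hw' with h | h
      · exact hOU u hu.1 w h
      · exact ⟨fun e => hu.2 (e ▸ h), hcon u hu.1 hu.2 w h⟩
    have h2 : (O \ F).card + F.card = O.card := Finset.card_sdiff_add_card_eq_card hFO
    have h3 := Finset.card_union_of_disjoint hUF
    have h4 : 0 < F.card := Finset.card_pos.2 hFne
    have h5 : (O \ F).Nonempty := Finset.card_pos.1 (by omega)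
    have := H.s2 _ (Sd.first h5 (hU.mono Finset.subset_union_left) h1 (by omega))
    omega
  -- an in-neighbour in `F`
  obtain ⟨z, hzF, hzx⟩ : ∃ z ∈ F, A z x := by
    set G := F.filter fun v => ∃ u ∈ F, A u v with hG
    have hGF : G ⊆ F := Finset.filter_subset _ _
    have h1 : Na A G (Y ∪ (F \ G)) := by
      intro u hu w hw'
      rw [Finset.mem_union] at hw'
      rcases hw' with h | h
      · exact hFY u (hGF hu) w h
      · rw [Finset.mem_sdiff] at h
        exact ⟨fun e => h.2 (e ▸ hu), fun hA => h.2 (Finset.mem_filter.2 ⟨h.1, u, hGF hu, hA⟩)⟩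
    have h2 : (F \ G).card + G.card = F.card := Finset.card_sdiff_add_card_eq_card hGF
    have h3 := Finset.card_union_of_disjoint
      (Finset.disjoint_of_subset_right (Finset.sdiff_subset (s := F) (t := G)) hYF)
    obtain ⟨q, hq, hpq⟩ := out_in H.out hFY hw hp.1
    have h4 : q ∈ G := Finset.mem_filter.2 ⟨hq, p, hp.1, hpq⟩
    have h5 := H.mnO _ (Sd.first ⟨q, h4⟩ (hY.mono Finset.subset_union_left) h1 (by omega))
      ⟨q, Finset.mem_inter.2 ⟨h4, hFO hq⟩⟩
    have h6 : G = F := Finset.eq_of_subset_of_card_le hGF h5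
    have h7 : x ∈ G := h6 ▸ hxF
    exact (Finset.mem_filter.1 h7).2
  obtain ⟨b1, b2, b3, b4, b5⟩ := H.bad x
  have hzb : z ∈ b x := b4 z hzx
  have hza : z ∉ a x := fun h => (b1 z h z hzb).1 rfl
  have hyb : y ∈ b x := b4 y hyx
  have hya : y ∉ a x := fun h => (b1 y h y hyb).1 rfl
  have h1 : (a x ∩ F).card < F.card := by
    apply Finset.card_lt_card
    rw [Finset.ssubset_iff_of_subset Finset.inter_subset_right]
    exact ⟨z, hzF, fun h => hza (Finset.mem_inter.1 h).1⟩
  have hxa : x ∈ a x ∩ F := Finset.mem_inter.2 ⟨b2, hxF⟩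
  have h2 : (a x ∩ F).card + (b x ∪ Y).card + k ≤ Fintype.card V := by
    by_contra h
    have := H.mnO _ (Sd.first ⟨x, hxa⟩ (hY.mono Finset.subset_union_right) (b1.meet hFY) (by omega))
      ⟨x, Finset.mem_inter.2 ⟨hxa, hFO hxF⟩⟩
    omega
  have h3 := unc (a x) (b x) F Y
  have hXne : (a x ∪ F).Nonempty := ⟨x, Finset.mem_union_left _ b2⟩
  have h4 : (b x ∩ Y).Nonempty := by
    by_contra h
    rw [Finset.not_nonempty_iff_eq_empty] at h
    rw [h, Finset.card_empty] at h3
    have h5 := Finset.card_union_add_card_inter (a x) F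
    have h6 := H.mnO _ (Sd.second ⟨x, b2⟩ ⟨z, hzb⟩ b1 b5) ⟨z, Finset.mem_inter.2 ⟨hzb, hFO hzF⟩⟩
    have h7 : 0 < (a x ∩ F).card := Finset.card_pos.2 ⟨x, hxa⟩
    omega
  have hjoin := b1.join hFY
  have h5 := H.H2 _ _ hXne h4 hjoin
  have h6 := H.s2 _ (Sd.second hXne h4 hjoin (by omega))
  -- uncross with `(O, U)`
  have h7 := unc (a x ∪ F) (b x ∩ Y) O U
  have hmm := hjoin.meet hOU
  have h8 : ((a x ∪ F) ∩ O).card < O.card := by
    apply Finset.card_lt_card
    rw [Finset.ssubset_iff_of_subset Finset.inter_subset_right]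
    refine ⟨y, hyO, fun h => ?_⟩
    rw [Finset.mem_inter, Finset.mem_union] at h
    exact h.1.elim hya hyF
  have h9 := H.ex1 ⟨x, Finset.mem_inter.2 ⟨Finset.mem_union_left _ b2, hFO hxF⟩⟩
    (hU.mono Finset.subset_union_right) hmm (Or.inl (by omega))
  have h10 : ¬ (b x ∩ Y ∩ U).Nonempty := fun h => by
    have := H.H2 _ _ (hXne.mono Finset.subset_union_left) h (hjoin.join hOU)
    omega
  rw [Finset.not_nonempty_iff_eq_empty] at h10
  rw [h10, Finset.card_empty] at h7
  have h11 := Finset.card_union_add_card_inter (a x ∪ F) O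
  have h12 : 0 < ((a x ∪ F) ∩ O).card :=
    Finset.card_pos.2 ⟨x, Finset.mem_inter.2 ⟨Finset.mem_union_left _ b2, hFO hxF⟩⟩
  omega

end E2_

end Pool.Agent.Lib.MP_83608f_co.CN
end
end

section
/-! MP_83608f_co, part CN, module E2C (helper91): Theorem E2, inclusion-minimal fragments `F` of excess one, and the
case of a minimal fragment `F` of the first type and a minimal fragment `O` of excess two of the second type. -/
set_option autoImplicit false

open Classical

noncomputable section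

namespace Pool.Agent.Lib.MP_83608f_co.CN

namespace E2_

variable {V : Type} [Fintype V] {A : V → V → Prop} {k s : ℕ} {a b : V → Finset V} {O F : Finset V}

/-- the facts about an inclusion-minimal first side `F` of excess one and the set `Fs` of the vertices outside of the
closed out-neighbourhood of `F` -/
structure Fx (A : V → V → Prop) (k : ℕ) (a b : V → Finset V) (F Fs : Finset V) : Prop where
  out : ∀ v, (Finset.univ.filter fun u => A v u).card = k
  inn : ∀ v, (Finset.univ.filter fun u => A u v).card = k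
  H2 : ∀ X Y : Finset V, X.Nonempty → Y.Nonempty → Na A X Y → X.card + Y.card + k ≤ Fintype.card V + 2
  bad : Bad A k a b
  fne : F.Nonempty
  na : Na A F Fs
  mx : ∀ Y, Na A F Y → Y ⊆ Fs
  ne : Fs.Nonempty
  w : F.card + Fs.card + k = Fintype.card V + 1
  e2 : ∀ Z, Sd A k 2 Z → F.card ≤ Z.card
  nd : ∀ Z, Sd A k 1 Z → Disjoint Z Fs → F.card ≤ Z.card ∨ Z.card < k
  inc : ∀ X : Finset V, X ⊆ F → X ≠ F → X.Nonempty → ∀ Y, Na A X Y → X.card + Y.card + k ≤ Fintype.card V

variable {Fs : Finset V}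

/-- a nonempty subset of `F` without arcs to the rest of `F` is `F` -/
lemma Fx.closed (h : Fx A k a b F Fs) {G : Finset V} (hG : G ⊆ F) (hne : G.Nonempty)
    (hcl : ∀ u ∈ G, ∀ w ∈ F, A u w → w ∈ G) : G = F := by
  by_contra hcon
  have h1 : Na A G (Fs ∪ (F \ G)) := by
    intro u hu w hw
    rw [Finset.mem_union] at hw
    rcases hw with hw | hw
    · exact h.na u (hG hu) w hw
    · rw [Finset.mem_sdiff] at hw
      exact ⟨fun e => hw.2 (e ▸ hu), fun hA => hw.2 (hcl u hu w hw.1 hA)⟩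
  have h2 : (F \ G).card + G.card = F.card := Finset.card_sdiff_add_card_eq_card hG
  have h3 := Finset.card_union_of_disjoint
    (Finset.disjoint_of_subset_right (Finset.sdiff_subset (s := F) (t := G)) h.na.disj.symm)
  have h4 := h.inc G hG hcon hne _ h1
  have h5 := h.w
  omega

lemma Fx.inF (h : Fx A k a b F Fs) {v : V} (hv : v ∈ F) : ∃ u ∈ F, A u v := by
  obtain ⟨p, hp⟩ := h.fne
  obtain ⟨q, hq, hpq⟩ := out_in h.out h.na (by have := h.w; omega) hp
  have h1 : (F.filter fun v => ∃ u ∈ F, A u v) = F := by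
    apply h.closed (Finset.filter_subset _ _) ⟨q, Finset.mem_filter.2 ⟨hq, p, hp, hpq⟩⟩
    intro u hu w hw hA
    exact Finset.mem_filter.2 ⟨hw, u, (Finset.mem_filter.1 hu).1, hA⟩
  rw [← h1] at hv
  exact (Finset.mem_filter.1 hv).2

/-- the vertices for which the pair `(a v, b v)` cuts `F` -/
def Kv (a b : V → Finset V) (F : Finset V) (v : V) : Prop := (∃ u ∈ F, u ∈ a v) ∧ ∃ u ∈ F, u ∈ b v

lemma Fx.kF (h : Fx A k a b F Fs) {v : V} (hv : v ∈ F) : Kv a b F v := by
  obtain ⟨u, hu, huv⟩ := h.inF hv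
  exact ⟨⟨v, hv, (h.bad v).2.1⟩, u, hu, (h.bad v).2.2.2.1 u huv⟩

lemma Fx.kT (h : Fx A k a b F Fs) {v u x : V} (hu : u ∈ F) (hx : x ∈ F) (huv : A u v) (hvx : A v x) :
    Kv a b F v := ⟨⟨x, hx, (h.bad v).2.2.1 x hvx⟩, u, hu, (h.bad v).2.2.2.1 u huv⟩

lemma Fx.p3 (h : Fx A k a b F Fs) {v : V} (hv : Kv a b F v) :
    (b v ∩ Fs).Nonempty ∧ (a v ∪ F).card + (b v ∩ Fs).card + k = Fintype.card V + 2 ∧
      (a v).card + (b v).card + k = Fintype.card V + 1 ∧ (b v \ Fs).card < F.card := by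
  obtain ⟨⟨u, hu, hua⟩, w, hw, hwb⟩ := hv
  obtain ⟨b1, b2, b3, b4, b5⟩ := h.bad v
  have hwa : w ∉ a v := fun h' => (b1 w h' w hwb).1 rfl
  have h1 : a v ∩ F ≠ F := fun e => by
    rw [← e] at hw
    exact hwa (Finset.mem_inter.1 hw).1
  have h2 := h.inc _ Finset.inter_subset_right h1 ⟨u, Finset.mem_inter.2 ⟨hua, hu⟩⟩ _ (b1.meet h.na)
  have h3 := unc (a v) (b v) F Fs
  have h4 := Finset.card_union_add_card_inter (a v) F
  have h5 : 0 < (a v ∩ F).card := Finset.card_pos.2 ⟨u, Finset.mem_inter.2 ⟨hua, hu⟩⟩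
  have h6 := h.w
  have h7 := Finset.card_sdiff_add_card_inter (b v) Fs
  have hin : k ≤ (b v).card := by
    rw [← h.inn v]
    exact Finset.card_le_card fun u hu => b4 u (Finset.mem_filter.1 hu).2
  have h8 : (b v ∩ Fs).Nonempty := by
    by_contra hcon
    rw [Finset.not_nonempty_iff_eq_empty] at hcon
    have h9 := h.nd _ (Sd.second ⟨v, b2⟩ ⟨w, hwb⟩ b1 b5) (Finset.disjoint_iff_inter_eq_empty.2 hcon)
    rw [hcon, Finset.card_empty] at h3
    omega
  have h9 := h.H2 _ _ ⟨v, Finset.mem_union_left _ b2⟩ h8 (b1.join h.na)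
  refine ⟨h8, ?_, ?_, ?_⟩ <;> omega

/-- the intersection of the extensions of the two ends of an arc has excess two -/
lemma Fx.p5 (h : Fx A k a b F Fs) {z v : V} (hv : v ∈ F) (hz : Kv a b F z) (hzv : A z v) :
    Fintype.card V + 2 ≤ ((a v ∪ F) ∩ (a z ∪ F)).card + ((b v ∩ Fs) ∪ (b z ∩ Fs)).card + k := by
  obtain ⟨v1, v2, v3, v4⟩ := h.p3 (h.kF hv)
  obtain ⟨z1, z2, z3, z4⟩ := h.p3 hz
  obtain ⟨b1, b2, b3, b4, b5⟩ := h.bad v
  obtain ⟨c1, c2, c3, c4, c5⟩ := h.bad z
  have hjv := b1.join h.na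
  have hjz := c1.join h.na
  by_cases hcon : ((b v ∩ Fs) ∩ (b z ∩ Fs)).Nonempty
  · have h1 := unc (a v ∪ F) (b v ∩ Fs) (a z ∪ F) (b z ∩ Fs)
    have h2 := h.H2 _ _ ⟨v, Finset.mem_union_left _ (Finset.mem_union_left _ b2)⟩ hcon (hjv.join hjz)
    omega
  rw [Finset.not_nonempty_iff_eq_empty] at hcon
  have hzb : z ∈ b v := b4 z hzv
  have hvz : v ∈ a z := c3 v hzv
  -- `Bc = b v ∩ b z`
  have hne : (b v ∩ b z).Nonempty := by
    by_contra hc
    rw [Finset.not_nonempty_iff_eq_empty] at hc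
    have h1 : Disjoint (Finset.univ.filter fun u => A u z) (a v ∪ b v) := by
      rw [Finset.disjoint_left]
      intro u hu hu'
      rw [Finset.mem_filter] at hu
      rw [Finset.mem_union] at hu'
      rcases hu' with h' | h'
      · exact (b1 u h' z hzb).2 hu.2
      · have : u ∈ b v ∩ b z := Finset.mem_inter.2 ⟨h', c4 u hu.2⟩
        rw [hc] at this
        exact Finset.notMem_empty _ this
    have h2 := Finset.card_le_univ ((Finset.univ.filter fun u => A u z) ∪ (a v ∪ b v))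
    rw [Finset.card_union_of_disjoint h1, Finset.card_union_of_disjoint b1.disj, h.inn z] at h2
    omega
  have hsub : (b v ∩ b z).card ≤ (b v \ Fs).card := by
    apply Finset.card_le_card
    intro u hu
    rw [Finset.mem_inter] at hu
    refine Finset.mem_sdiff.2 ⟨hu.1, fun hu' => ?_⟩
    have : u ∈ (b v ∩ Fs) ∩ (b z ∩ Fs) := by simp [hu.1, hu.2, hu']
    rw [hcon] at this
    exact Finset.notMem_empty _ this
  have h1 : (a v ∪ a z).card + (b v ∩ b z).card + k ≤ Fintype.card V + 1 := by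
    by_contra hc
    have h2 := h.e2 _ (Sd.second ⟨v, Finset.mem_union_left _ b2⟩ hne (b1.join c1) (by omega))
    omega
  have h2 := unc (a v) (b v) (a z) (b z)
  have hmeet := b1.meet c1
  obtain ⟨w, hw, hwv⟩ := h.inF hv
  have hvX : v ∈ a v ∩ a z := Finset.mem_inter.2 ⟨b2, hvz⟩
  have h3 : a v ∩ a z ∩ F ≠ F := fun e => by
    rw [← e] at hw
    have := (Finset.mem_inter.1 (Finset.mem_inter.1 hw).1).1
    exact (b1 w this w (b4 w hwv)).1 rfl
  have h4 := h.inc _ Finset.inter_subset_right h3 ⟨v, Finset.mem_inter.2 ⟨hvX, hv⟩⟩ _ (hmeet.meet h.na)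
  have h5 := unc (a v ∩ a z) (b v ∪ b z) F Fs
  have h6 := h.w
  have h7 : (a v ∪ F) ∩ (a z ∪ F) = (a v ∩ a z) ∪ F := by
    rw [Finset.inter_union_distrib_right]
  have h8 : (b v ∩ Fs) ∪ (b z ∩ Fs) = (b v ∪ b z) ∩ Fs := by
    rw [Finset.union_inter_distrib_right]
  rw [h7, h8]
  omega

/-- the conclusion of the connectivity argument: a set `Om` of excess two which contains `F`, without arcs from
`Om \ F` to the vertices of `F`; and there is no path of length two from `F` to `F` through a vertex outside. -/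
lemma Fx.om (h : Fx A k a b F Fs) : (∃ Om Um : Finset V, F ⊆ Om ∧ Um.Nonempty ∧ Na A Om Um ∧
    Om.card + Um.card + k = Fintype.card V + 2 ∧ (Om \ F).Nonempty ∧ (∀ v ∈ F, ∀ p ∈ Om \ F, ¬ A p v) ∧
    (∀ v ∈ F, Om ⊆ a v ∪ F) ∧ (∀ v ∈ F, b v ∩ Fs ⊆ Um) ∧
    ∀ X Y : Finset V, F ⊆ X → Na A X Y → Fintype.card V + 2 ≤ X.card + Y.card + k →
      (Y ∩ Um).Nonempty → Om ⊆ X) ∧
    ∀ y u x, y ∉ F → u ∈ F → x ∈ F → A u y → A y x → False := by
  obtain ⟨v0, hv0⟩ := h.fne
  -- a minimal set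
  set 𝒞 := (Finset.univ : Finset (Finset V)).filter fun X => F ⊆ X ∧ X ⊆ a v0 ∪ F ∧
    ∃ Y : Finset V, Y.Nonempty ∧ Na A X Y ∧ Fintype.card V + 2 ≤ X.card + Y.card + k with h𝒞
  obtain ⟨w1, w2, w3, w4⟩ := h.p3 (h.kF hv0)
  have hne : 𝒞.Nonempty := ⟨a v0 ∪ F, Finset.mem_filter.2 ⟨Finset.mem_univ _, Finset.subset_union_right,
    Finset.Subset.refl _, b v0 ∩ Fs, w1, (h.bad v0).1.join h.na, by omega⟩⟩
  obtain ⟨Om, hOm, hOmin⟩ := Finset.exists_min_image 𝒞 Finset.card hne
  obtain ⟨-, hFO, hOv, Um, hUm, hNa, hwm⟩ := Finset.mem_filter.1 hOm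
  have hOmne : Om.Nonempty := h.fne.mono hFO
  have key1 : ∀ v, Kv a b F v → Om ⊆ a v ∪ F → b v ∩ Fs ⊆ Um := by
    intro v hv hsub
    have h1 : Na A Om (Um ∪ (b v ∩ Fs)) := by
      intro p hp q hq
      rw [Finset.mem_union] at hq
      rcases hq with hq | hq
      · exact hNa p hp q hq
      · exact ((h.bad v).1.join h.na) p (hsub hp) q hq
    have h2 := h.H2 _ _ hOmne (hUm.mono Finset.subset_union_left) h1
    have h3 : Um = Um ∪ (b v ∩ Fs) := Finset.eq_of_subset_of_card_le Finset.subset_union_left (by omega)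
    rw [h3]
    exact Finset.subset_union_right
  have key2 : ∀ X Y : Finset V, F ⊆ X → Na A X Y → Fintype.card V + 2 ≤ X.card + Y.card + k →
      (Y ∩ Um).Nonempty → Om ⊆ X := by
    intro X Y hFX hXY hw hne'
    have h1 := unc X Y Om Um
    have h2 := h.H2 _ _ (hOmne.mono Finset.subset_union_right) hne' (hXY.join hNa)
    have h3 : X ∩ Om ∈ 𝒞 := by
      refine Finset.mem_filter.2 ⟨Finset.mem_univ _, Finset.subset_inter hFX hFO,
        Finset.inter_subset_right.trans hOv, _, hUm.mono Finset.subset_union_right, hXY.meet hNa, by omega⟩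
    have h4 := hOmin _ h3
    have h5 := Finset.eq_of_subset_of_card_le Finset.inter_subset_right h4
    rw [← h5]
    exact Finset.inter_subset_left
  -- invariance along arcs
  have key3 : ∀ z v, v ∈ F → Kv a b F z → A z v → (Om ⊆ a v ∪ F ↔ Om ⊆ a z ∪ F) := by
    intro z v hv hz hzv
    have h1 := h.p5 hv hz hzv
    have hNY := ((h.bad v).1.join h.na).meet ((h.bad z).1.join h.na)
    have hFX : F ⊆ (a v ∪ F) ∩ (a z ∪ F) :=
      Finset.subset_inter Finset.subset_union_right Finset.subset_union_right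
    constructor
    · intro h2
      have h3 := key1 v (h.kF hv) h2
      obtain ⟨q, hq⟩ := (h.p3 (h.kF hv)).1
      exact (key2 _ _ hFX hNY h1 ⟨q, Finset.mem_inter.2 ⟨Finset.mem_union_left _ hq, h3 hq⟩⟩).trans
        Finset.inter_subset_right
    · intro h2
      have h3 := key1 z hz h2
      obtain ⟨q, hq⟩ := (h.p3 hz).1
      exact (key2 _ _ hFX hNY h1 ⟨q, Finset.mem_inter.2 ⟨Finset.mem_union_right _ hq, h3 hq⟩⟩).trans
        Finset.inter_subset_left
  have hall : ∀ v ∈ F, Om ⊆ a v ∪ F := by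
    have h1 : (F.filter fun v => Om ⊆ a v ∪ F) = F := by
      apply h.closed (Finset.filter_subset _ _) ⟨v0, Finset.mem_filter.2 ⟨hv0, hOv⟩⟩
      intro p hp q hq hA
      rw [Finset.mem_filter] at hp
      exact Finset.mem_filter.2 ⟨hq, (key3 p q hq (h.kF hp.1) hA).2 hp.2⟩
    intro v hv
    rw [← h1] at hv
    exact (Finset.mem_filter.1 hv).2
  have key4 : ∀ v, Om ⊆ a v ∪ F → ∀ p ∈ Om \ F, ¬ A p v := by
    intro v hv p hp hA
    rw [Finset.mem_sdiff] at hp
    have h1 : p ∈ a v := by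
      have := hv hp.1
      rw [Finset.mem_union] at this
      exact this.resolve_right hp.2
    exact ((h.bad v).1 p h1 p ((h.bad v).2.2.2.1 p hA)).1 rfl
  have hFU : Disjoint F Um := Finset.disjoint_left.2 fun q hq hq' => (hNa q (hFO hq) q hq').1 rfl
  have h1 : (Om \ F).card + F.card = Om.card := Finset.card_sdiff_add_card_eq_card hFO
  have h3 : (Om \ F).Nonempty := by
    by_contra hc
    rw [Finset.not_nonempty_iff_eq_empty] at hc
    rw [hc, Finset.card_empty] at h1
    have h4 := Finset.card_le_card (h.mx Um (hNa.mono hFO (Finset.Subset.refl _)))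
    have h5 := h.w
    omega
  have hup := h.H2 _ _ hOmne hUm hNa
  refine ⟨⟨Om, Um, hFO, hUm, hNa, by omega, h3, fun v hv => key4 v (hall v hv), hall,
    fun v hv => key1 v (h.kF hv) (hall v hv), key2⟩, ?_⟩
  intro y u x hyF hu hx huy hyx
  have hyK : Kv a b F y := h.kT hu hx huy hyx
  have hyO : Om ⊆ a y ∪ F := (key3 y x hx hyK hyx).1 (hall x hx)
  -- the contradiction
  have hn1 : y ∉ Om := fun hy => key4 x (hall x hx) y (Finset.mem_sdiff.2 ⟨hy, hyF⟩) hyx
  have hn2 : y ∉ Um := fun hy => (hNa u (hFO hu) y hy).2 huy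
  have hcut : Na A (Om \ F) (Um ∪ insert y F) := by
    intro p hp q hq
    rw [Finset.mem_union, Finset.mem_insert] at hq
    rcases hq with hq | rfl | hq
    · exact hNa p (Finset.mem_sdiff.1 hp).1 q hq
    · exact ⟨fun e => hn1 (e ▸ (Finset.mem_sdiff.1 hp).1), key4 q hyO p hp⟩
    · exact ⟨fun e => (Finset.mem_sdiff.1 hp).2 (e ▸ hq), key4 q (hall q hq) p hp⟩
  have h2 : (Um ∪ insert y F).card = Um.card + (F.card + 1) := by
    rw [Finset.card_union_of_disjoint, Finset.card_insert_of_notMem hyF]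
    rw [Finset.disjoint_insert_right]
    exact ⟨hn2, hFU.symm⟩
  have h4 := h.H2 _ _ h3 (hUm.mono Finset.subset_union_left) hcut
  omega

/-- the set `Fs` -/
def star (A : V → V → Prop) (F : Finset V) : Finset V :=
  Finset.univ.filter fun v => v ∉ F ∧ ∀ u ∈ F, ¬ A u v

lemma na_star (F : Finset V) : Na A F (star A F) := by
  intro x hx y hy
  rw [star, Finset.mem_filter] at hy
  exact ⟨fun e => hy.2.1 (e ▸ hx), hy.2.2 x hx⟩

lemma star_mx {F Y : Finset V} (hY : Na A F Y) : Y ⊆ star A F := by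
  intro y hy
  rw [star, Finset.mem_filter]
  exact ⟨Finset.mem_univ _, fun h => (hY y h y hy).1 rfl, fun u hu => (hY u hu y hy).2⟩

lemma of_not_star {F : Finset V} {q : V} (h : q ∉ star A F) (h' : q ∉ F) : ∃ u ∈ F, A u q := by
  by_contra hcon
  push Not at hcon
  exact h (Finset.mem_filter.2 ⟨Finset.mem_univ _, h', hcon⟩)

/-- the extensions of a vertex which is good for `F` -/
lemma good_p3 (hinn : ∀ v, (Finset.univ.filter fun u => A u v).card = k)
    (H2 : ∀ X Y : Finset V, X.Nonempty → Y.Nonempty → Na A X Y → X.card + Y.card + k ≤ Fintype.card V + 2)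
    (bad : Bad A k a b) (na : Na A F Fs) (w : F.card + Fs.card + k = Fintype.card V + 1) (hFk : F.card ≤ k)
    {v u : V} (huF : u ∈ F) (hua : u ∈ a v)
    (hg : (a v ∩ F).card + (b v ∪ Fs).card + k ≤ Fintype.card V) :
    (b v ∩ Fs).Nonempty ∧ (a v ∪ F).card + (b v ∩ Fs).card + k = Fintype.card V + 2 ∧
      (a v).card + (b v).card + k = Fintype.card V + 1 ∧ (b v \ Fs).card < F.card := by
  obtain ⟨b1, b2, b3, b4, b5⟩ := bad v
  have h3 := unc (a v) (b v) F Fs
  have h4 := Finset.card_union_add_card_inter (a v) F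
  have h5 : 0 < (a v ∩ F).card := Finset.card_pos.2 ⟨u, Finset.mem_inter.2 ⟨hua, huF⟩⟩
  have h7 := Finset.card_sdiff_add_card_inter (b v) Fs
  have hin : k ≤ (b v).card := by
    rw [← hinn v]
    exact Finset.card_le_card fun u hu => b4 u (Finset.mem_filter.1 hu).2
  have h8 : (b v ∩ Fs).Nonempty := by
    by_contra hcon
    rw [Finset.not_nonempty_iff_eq_empty] at hcon
    rw [hcon, Finset.card_empty] at h3
    omega
  have h9 := H2 _ _ ⟨v, Finset.mem_union_left _ b2⟩ h8 (b1.join na)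
  refine ⟨h8, ?_, ?_, ?_⟩ <;> omega

/-- the intersection of the extensions of the two ends of an arc between good vertices -/
lemma good_p5 (hinn : ∀ v, (Finset.univ.filter fun u => A u v).card = k)
    (H2 : ∀ X Y : Finset V, X.Nonempty → Y.Nonempty → Na A X Y → X.card + Y.card + k ≤ Fintype.card V + 2)
    (bad : Bad A k a b) (na : Na A F Fs) (w : F.card + Fs.card + k = Fintype.card V + 1)
    (e2 : ∀ Z, Sd A k 2 Z → F.card ≤ Z.card) {z v : V}
    (hv : (b v ∩ Fs).Nonempty ∧ (a v ∪ F).card + (b v ∩ Fs).card + k = Fintype.card V + 2 ∧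
      (a v).card + (b v).card + k = Fintype.card V + 1 ∧ (b v \ Fs).card < F.card)
    (hz : (b z ∩ Fs).Nonempty ∧ (a z ∪ F).card + (b z ∩ Fs).card + k = Fintype.card V + 2 ∧
      (a z).card + (b z).card + k = Fintype.card V + 1 ∧ (b z \ Fs).card < F.card) (hzv : A z v)
    (hg : (a v ∩ a z ∩ F).card + (b v ∪ b z ∪ Fs).card + k ≤ Fintype.card V) :
    Fintype.card V + 2 ≤ ((a v ∪ F) ∩ (a z ∪ F)).card + ((b v ∩ Fs) ∪ (b z ∩ Fs)).card + k := by
  obtain ⟨v1, v2, v3, v4⟩ := hv
  obtain ⟨z1, z2, z3, z4⟩ := hz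
  obtain ⟨b1, b2, b3, b4, b5⟩ := bad v
  obtain ⟨c1, c2, c3, c4, c5⟩ := bad z
  have hjv := b1.join na
  have hjz := c1.join na
  by_cases hcon : ((b v ∩ Fs) ∩ (b z ∩ Fs)).Nonempty
  · have h1 := unc (a v ∪ F) (b v ∩ Fs) (a z ∪ F) (b z ∩ Fs)
    have h2 := H2 _ _ ⟨v, Finset.mem_union_left _ (Finset.mem_union_left _ b2)⟩ hcon (hjv.join hjz)
    omega
  rw [Finset.not_nonempty_iff_eq_empty] at hcon
  have hzb : z ∈ b v := b4 z hzv
  -- `Bc = b v ∩ b z`
  have hne : (b v ∩ b z).Nonempty := by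
    by_contra hc
    rw [Finset.not_nonempty_iff_eq_empty] at hc
    have h1 : Disjoint (Finset.univ.filter fun u => A u z) (a v ∪ b v) := by
      rw [Finset.disjoint_left]
      intro u hu hu'
      rw [Finset.mem_filter] at hu
      rw [Finset.mem_union] at hu'
      rcases hu' with h' | h'
      · exact (b1 u h' z hzb).2 hu.2
      · have : u ∈ b v ∩ b z := Finset.mem_inter.2 ⟨h', c4 u hu.2⟩
        rw [hc] at this
        exact Finset.notMem_empty _ this
    have h2 := Finset.card_le_univ ((Finset.univ.filter fun u => A u z) ∪ (a v ∪ b v))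
    rw [Finset.card_union_of_disjoint h1, Finset.card_union_of_disjoint b1.disj, hinn z] at h2
    omega
  have hsub : (b v ∩ b z).card ≤ (b v \ Fs).card := by
    apply Finset.card_le_card
    intro u hu
    rw [Finset.mem_inter] at hu
    refine Finset.mem_sdiff.2 ⟨hu.1, fun hu' => ?_⟩
    have : u ∈ (b v ∩ Fs) ∩ (b z ∩ Fs) := by simp [hu.1, hu.2, hu']
    rw [hcon] at this
    exact Finset.notMem_empty _ this
  have h1 : (a v ∪ a z).card + (b v ∩ b z).card + k ≤ Fintype.card V + 1 := by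
    by_contra hc
    have h2 := e2 _ (Sd.second ⟨v, Finset.mem_union_left _ b2⟩ hne (b1.join c1) (by omega))
    omega
  have h2 := unc (a v) (b v) (a z) (b z)
  have h5 := unc (a v ∩ a z) (b v ∪ b z) F Fs
  have h7 : (a v ∪ F) ∩ (a z ∪ F) = (a v ∩ a z) ∪ F := by
    rw [Finset.inter_union_distrib_right]
  have h8 : (b v ∩ Fs) ∪ (b z ∩ Fs) = (b v ∪ b z) ∩ Fs := by
    rw [Finset.union_inter_distrib_right]
  rw [h7, h8]
  omega

/-- in the situation of case 2 the set `F` is inclusion-minimal -/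
lemma inc2 (H : Hy A k s a b O F) (R : ∀ Z, Sd A k 1 Z → k ≤ 2 * Z.card + 1) {W : Finset V}
    (hW : W.Nonempty) (hWO : Na A W O) (hwO : Fintype.card V + 2 ≤ W.card + O.card + k)
    (hna : Na A F Fs) (hmx : ∀ Y, Na A F Y → Y ⊆ Fs) (hFsne : Fs.Nonempty)
    (hwF : F.card + Fs.card + k = Fintype.card V + 1) (hP1 : F ∩ W = ∅)
    (hsm : ∀ Z : Finset V, Disjoint Z Fs → Z ∩ O = ∅ → Z.card + 2 ≤ k) :
    ∀ X : Finset V, X ⊆ F → X ≠ F → X.Nonempty → ∀ Y, Na A X Y →
      X.card + Y.card + k ≤ Fintype.card V := by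
  by_contra hcon0
  push Not at hcon0
  obtain ⟨X₀, hX₀F, hX₀ne, hX₀n, Y₀, hX₀Y, hX₀w⟩ := hcon0
  have hFne : F.Nonempty := H.meet.mono Finset.inter_subset_left
  have hOne : O.Nonempty := H.meet.mono Finset.inter_subset_right
  have hlt := H.lt
  have hOs := H.Os
  have hwO' := H.H2 W O hW hOne hWO
  have hFs0 : 0 < Fs.card := Finset.card_pos.2 hFsne
  -- the family
  set L : Finset V → Prop := fun Z => Z ⊆ F ∧ Z.Nonempty ∧ ∃ Y, Na A Z Y ∧
    Fintype.card V + 1 ≤ Z.card + Y.card + k with hL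
  have hLsd : ∀ Z, L Z → Sd A k 1 Z := by
    rintro Z ⟨h1, h2, Y, h3, h4⟩
    have h5 := Finset.card_le_card h1
    exact Sd.first h2 (Finset.card_pos.1 (by omega)) h3 h4
  have hL0 : ∀ Z, L Z → Z ≠ F → Z ∩ O = ∅ := by
    intro Z hZ hne
    by_contra hc
    have h1 := H.mnO Z (hLsd Z hZ) (Finset.nonempty_iff_ne_empty.2 hc)
    have h2 : Z.card < F.card := Finset.card_lt_card (Finset.ssubset_iff_subset_ne.2 ⟨hZ.1, hne⟩)
    omega
  have hFFs : ∀ Z, Z ⊆ F → Disjoint Z Fs := fun Z hZ => Finset.disjoint_of_subset_left hZ hna.disj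
  -- a smallest member
  obtain ⟨X, hX, hXmin⟩ := Finset.exists_min_image ((Finset.univ : Finset (Finset V)).filter L) Finset.card
    ⟨X₀, Finset.mem_filter.2 ⟨Finset.mem_univ _, hX₀F, hX₀n, Y₀, hX₀Y, by omega⟩⟩
  rw [Finset.mem_filter] at hX
  replace hX := hX.2
  have hXmin' : ∀ Z, L Z → X.card ≤ Z.card := fun Z hZ => hXmin Z (Finset.mem_filter.2 ⟨Finset.mem_univ _, hZ⟩)
  have hXF := hX.1
  have hXn := hX.2.1
  have hXlt : X.card < F.card := by
    have h1 := hXmin' X₀ ⟨hX₀F, hX₀n, Y₀, hX₀Y, by omega⟩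
    have h2 : X₀.card < F.card := Finset.card_lt_card (Finset.ssubset_iff_subset_ne.2 ⟨hX₀F, hX₀ne⟩)
    omega
  have hXneF : X ≠ F := fun e => by rw [e] at hXlt; omega
  have hXO : X ∩ O = ∅ := hL0 X hX hXneF
  have hXO' : Disjoint X O := Finset.disjoint_iff_inter_eq_empty.2 hXO
  have hXk := hsm X (hFFs X hXF) hXO
  have hXW : Disjoint X W := Finset.disjoint_of_subset_left hXF (Finset.disjoint_iff_inter_eq_empty.2 hP1)
  have hXR := R X (hLsd X hX)
  have hnaX : ∀ Z, Z ⊆ F → Fs ⊆ star A Z := fun Z hZ => star_mx (hna.mono hZ (Finset.Subset.refl _))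
  -- all members contain `X`
  have huniq : ∀ Z, L Z → X ⊆ Z := by
    intro Z hZ
    by_cases hm : (X ∩ Z).Nonempty
    · have h1 : ((star A X) ∩ (star A Z)).Nonempty :=
        hFsne.mono (Finset.subset_inter (hnaX X hXF) (hnaX Z hZ.1))
      have h2 : (X ∪ Z).card ≤ F.card := Finset.card_le_card (Finset.union_subset hXF hZ.1)
      have h3 := H.ex1 (hXn.mono Finset.subset_union_left) h1 ((na_star X).join (na_star Z)) (Or.inl (by omega))
      have h4 := unc X (star A X) Z (star A Z)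
      obtain ⟨-, -, Y1, h5, h6⟩ := hX
      obtain ⟨hZF, hZn, Y2, h7, h8⟩ := hZ
      have h9 := Finset.card_le_card (star_mx h5)
      have h10 := Finset.card_le_card (star_mx h7)
      have h11 := hXmin' (X ∩ Z) ⟨Finset.inter_subset_left.trans hXF, hm, _, (na_star X).meet (na_star Z), by omega⟩
      have h12 := Finset.eq_of_subset_of_card_le Finset.inter_subset_left h11
      rw [← h12]
      exact Finset.inter_subset_right
    · exfalso
      rw [Finset.not_nonempty_iff_eq_empty] at hm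
      have hZne : Z ≠ F := by
        rintro rfl
        rw [Finset.inter_eq_left.2 hXF] at hm
        exact hXn.ne_empty hm
      have h1 := hL0 Z hZ hZne
      have h2 := hsm (X ∪ Z) (hFFs _ (Finset.union_subset hXF hZ.1))
        (by rw [Finset.union_inter_distrib_right, hXO, h1, Finset.empty_union])
      rw [Finset.card_union_of_disjoint (Finset.disjoint_iff_inter_eq_empty.2 hm)] at h2
      have h3 := R Z (hLsd Z hZ)
      omega
  -- the structure for `X`
  set Xs := star A X with hXs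
  obtain ⟨hXs1, hXs2⟩ : Xs.Nonempty ∧ X.card + Xs.card + k = Fintype.card V + 1 := by
    obtain ⟨-, -, Y1, h5, h6⟩ := hX
    have h1 : Xs.Nonempty := hFsne.mono (hnaX X hXF)
    have h2 : Y1.card ≤ Xs.card := Finset.card_le_card (star_mx h5)
    have h3 : X.card + Xs.card + k ≤ Fintype.card V + 1 := H.ex1 hXn h1 (na_star X) (Or.inl (by omega))
    exact ⟨h1, by omega⟩
  have hxx : Fx A k a b X Xs := by
    refine ⟨H.out, H.inn, H.H2, H.bad, hXn, na_star X, fun Y hY => star_mx hY, hXs1, hXs2,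
      fun Z hZ => ?_, fun Z hZ _ => ?_, ?_⟩
    · have := H.s2 Z hZ
      omega
    · rcases Nat.lt_or_ge Z.card k with h | h
      · exact Or.inr h
      · exact Or.inl (by omega)
    · intro X' hX' hne' hX'ne Y'' hXY''
      by_contra hc
      have h4 : X'.card < X.card := Finset.card_lt_card (Finset.ssubset_iff_subset_ne.2 ⟨hX', hne'⟩)
      have h6 := hXmin' X' ⟨hX'.trans hXF, hX'ne, Y'', hXY'', by omega⟩
      omega
  obtain ⟨⟨Om, Um, g1, g2, g3, g4, g5, g6, g7, g8, g9⟩, g10⟩ := hxx.om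
  have hUX : Disjoint Um X := Finset.disjoint_left.2 fun q hq hq' => (g3 q (g1 hq') q hq).1 rfl
  set G := Om \ X with hGdef
  have hGX : G.card + X.card = Om.card := Finset.card_sdiff_add_card_eq_card g1
  have hH := Finset.card_union_of_disjoint hUX
  have hG : Na A G (Um ∪ X) := by
    intro q hq r hr
    rw [Finset.mem_union] at hr
    rcases hr with hr | hr
    · exact g3 q (Finset.mem_sdiff.1 hq).1 r hr
    · exact ⟨fun e => (Finset.mem_sdiff.1 hq).2 (e ▸ hr), g6 r hr q hq⟩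
  have hHne : (Um ∪ X).Nonempty := g2.mono Finset.subset_union_left
  have hGs := H.s2 _ (Sd.first g5 hHne hG (by omega))
  have hOms := H.s2 _ (Sd.first (hXn.mono g1) g2 g3 (by omega : Fintype.card V + 2 ≤ _))
  have hUms := H.s2 _ (Sd.second (hXn.mono g1) g2 g3 (by omega : Fintype.card V + 2 ≤ _))
  -- an arc from `X` to `O`
  obtain ⟨x0, hx0⟩ := hXn
  obtain ⟨r, hrO, hxr⟩ : ∃ r ∈ O, A x0 r := by
    by_contra hc
    push Not at hc
    have hxW : x0 ∉ W := Finset.disjoint_left.1 hXW hx0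
    have hxO : x0 ∉ O := Finset.disjoint_left.1 hXO' hx0
    have h4 : Na A (insert x0 W) O := by
      intro q hq r hr
      rw [Finset.mem_insert] at hq
      rcases hq with rfl | hq
      · exact ⟨fun e => hxO (e ▸ hr), hc r hr⟩
      · exact hWO q hq r hr
    have h5 := H.H2 _ _ ⟨x0, Finset.mem_insert_self _ _⟩ hOne h4
    rw [Finset.card_insert_of_notMem hxW] at h5
    omega
  have hrU : r ∉ Um := fun h => (g3 x0 (g1 hx0) r h).2 hxr
  -- `Um` does not meet `O`
  have hUO' : O ∩ Um = ∅ := by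
    by_contra hc
    have h4 : (O ∩ Um).Nonempty := Finset.nonempty_iff_ne_empty.2 hc
    have h5 : (O ∩ Um).card < O.card := by
      apply Finset.card_lt_card
      rw [Finset.ssubset_iff_of_subset Finset.inter_subset_left]
      exact ⟨r, hrO, fun h => hrU (Finset.mem_inter.1 h).2⟩
    have h6 := H.ex1 (hW.mono Finset.subset_union_left) h4 (hWO.join g3) (Or.inr (by omega))
    have h7 := unc W O Om Um
    have h8 : ¬ (W ∩ Om).Nonempty := fun h' => by
      have := H.H2 _ _ h' (hOne.mono Finset.subset_union_left) (hWO.meet g3)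
      omega
    rw [Finset.not_nonempty_iff_eq_empty] at h8
    rw [h8, Finset.card_empty] at h7
    have h9 := Finset.card_union_add_card_inter O Um
    have h10 := Finset.card_pos.2 h4
    omega
  have hUnO : ∀ q ∈ Um, q ∉ O := fun q hq hqO => by
    have : q ∈ O ∩ Um := Finset.mem_inter.2 ⟨hqO, hq⟩
    rw [hUO'] at this
    exact Finset.notMem_empty _ this
  -- `Um` meets `Fs`
  have hFsU : (Fs ∩ Um).Nonempty := by
    by_contra hc
    rw [Finset.not_nonempty_iff_eq_empty] at hc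
    have h1 : Disjoint (Um ∪ X) Fs := by
      rw [Finset.disjoint_union_left]
      exact ⟨(Finset.disjoint_iff_inter_eq_empty.2 hc).symm, hFFs X hXF⟩
    have h2 : (Um ∪ X) ∩ O = ∅ := by
      rw [Finset.union_inter_distrib_right, hXO, Finset.inter_comm Um O, hUO', Finset.empty_union]
    have h3 := hsm _ h1 h2
    omega
  -- `F` does not meet `G`
  have hFG : Disjoint F G := by
    rw [Finset.disjoint_iff_inter_eq_empty]
    by_contra hc
    have h1 : (F ∩ G).Nonempty := Finset.nonempty_iff_ne_empty.2 hc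
    have h2 : (Fs ∩ (Um ∪ X)).Nonempty := hFsU.mono (Finset.inter_subset_inter_left Finset.subset_union_left)
    have h3 := H.H2 _ _ (hFne.mono Finset.subset_union_left) h2 (hna.join hG)
    have h4 := unc F Fs G (Um ∪ X)
    have h5 := huniq (F ∩ G) ⟨Finset.inter_subset_left, h1, _, hna.meet hG, by omega⟩
    exact (Finset.mem_sdiff.1 (Finset.mem_inter.1 (h5 hx0)).2).2 hx0
  -- `F` is small
  have hFk : F.card + 2 ≤ k := by
    have h1 : Fintype.card V + 2 ≤ (G ∪ W).card + k := by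
      have h2 := unc G (Um ∪ X) W O
      have h3 : (Um ∪ X) ∩ O = ∅ := by
        rw [Finset.union_inter_distrib_right, hXO, Finset.inter_comm Um O, hUO', Finset.empty_union]
      rw [h3, Finset.card_empty] at h2
      by_cases h4 : (G ∩ W).Nonempty
      · have h5 := H.H2 _ _ h4 (hHne.mono Finset.subset_union_left) (hG.meet hWO)
        omega
      · rw [Finset.not_nonempty_iff_eq_empty] at h4
        have h5 := Finset.card_union_add_card_inter G W
        rw [h4, Finset.card_empty] at h5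
        omega
    have h2 : Disjoint F (G ∪ W) := by
      rw [Finset.disjoint_union_right]
      exact ⟨hFG, Finset.disjoint_iff_inter_eq_empty.2 hP1⟩
    have h3 := Finset.card_le_univ (F ∪ (G ∪ W))
    rw [Finset.card_union_of_disjoint h2] at h3
    omega
  -- the cut `F ∪ Om`, `Fs ∩ Um`
  have hXom : Na A F Fs ∧ Na A Om Um := ⟨hna, g3⟩
  have hFOm : F ∩ Om = X := by
    apply Finset.Subset.antisymm
    · intro q hq
      rw [Finset.mem_inter] at hq
      by_contra hqX
      exact Finset.disjoint_left.1 hFG hq.1 (Finset.mem_sdiff.2 ⟨hq.2, hqX⟩)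
    · exact Finset.subset_inter hXF g1
  obtain ⟨hXsU, hFOw⟩ : Fs ∪ Um = Xs ∧ (F ∪ Om).card + (Fs ∩ Um).card + k = Fintype.card V + 2 := by
    have h1 := unc F Fs Om Um
    have h2 := H.H2 _ _ (hFne.mono Finset.subset_union_left) hFsU (hna.join g3)
    have h3 : Fs ∪ Um ⊆ Xs := Finset.union_subset (hnaX X hXF) (star_mx (g3.mono g1 (Finset.Subset.refl _)))
    rw [hFOm] at h1
    have h4 := Finset.card_le_card h3
    exact ⟨Finset.eq_of_subset_of_card_le h3 (by omega), by omega⟩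
  -- vertices of `F ∩ O` have in-neighbours in `X`
  have hpX : ∀ p ∈ F, p ∈ O → ∃ x ∈ X, A x p := by
    intro p hpF hpO
    refine of_not_star ?_ (fun h => Finset.disjoint_left.1 hXO' h hpO)
    intro h
    rw [← hXs, ← hXsU, Finset.mem_union] at h
    rcases h with h | h
    · exact (hna p hpF p h).1 rfl
    · exact hUnO p h hpO
  have hLF : ∀ Z, L Z → (Z ∩ O).Nonempty → Z = F := fun Z hZ h => by
    by_contra hc
    rw [hL0 Z hZ hc] at h
    exact Finset.not_nonempty_empty h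
  -- good vertices
  have hgood1 : ∀ C D : Finset V, Na A C D → (C ∩ F).Nonempty → (∃ x ∈ X, x ∉ C) →
      (C ∩ F).card + (D ∪ Fs).card + k ≤ Fintype.card V := by
    rintro C D hCD h1 ⟨x, hx, hxC⟩
    by_contra hc
    have h2 := huniq (C ∩ F) ⟨Finset.inter_subset_right, h1, _, hCD.meet hna, by omega⟩
    exact hxC (Finset.mem_inter.1 (h2 hx)).1
  have hgood2 : ∀ C D : Finset V, Na A C D → (C ∩ F ∩ O).Nonempty → (∃ u ∈ F, u ∉ C) →
      (C ∩ F).card + (D ∪ Fs).card + k ≤ Fintype.card V := by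
    rintro C D hCD h1 ⟨u, hu, huC⟩
    by_contra hc
    have h2 := hLF (C ∩ F) ⟨Finset.inter_subset_right, h1.mono Finset.inter_subset_left, _,
      hCD.meet hna, by omega⟩ h1
    rw [← h2] at hu
    exact huC (Finset.mem_inter.1 hu).1
  have hab : ∀ v w, A w v → w ∉ a v := fun v w h hw => ((H.bad v).1 w hw w ((H.bad v).2.2.2.1 w h)).1 rfl
  have he2 : ∀ Z, Sd A k 2 Z → F.card ≤ Z.card := fun Z hZ => by
    have := H.s2 Z hZ
    omega
  -- the vertices of `F` with an in-neighbour in `X`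
  have hp3 : ∀ v ∈ F, ∀ x ∈ X, A x v → (b v ∩ Fs).Nonempty ∧ (a v ∪ F).card + (b v ∩ Fs).card + k =
      Fintype.card V + 2 ∧ (a v).card + (b v).card + k = Fintype.card V + 1 ∧ (b v \ Fs).card < F.card := by
    intro v hv x hx hxv
    exact good_p3 H.inn H.H2 H.bad hna hwF (by omega) hv (H.bad v).2.1
      (hgood1 _ _ (H.bad v).1 ⟨v, Finset.mem_inter.2 ⟨(H.bad v).2.1, hv⟩⟩ ⟨x, hx, hab v x hxv⟩)
  have key1 : ∀ v, Om ⊆ a v ∪ F → b v ∩ Fs ⊆ Um := by
    intro v hsub
    have h1 : Na A Om (Um ∪ (b v ∩ Fs)) := by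
      intro p hp q hq
      rw [Finset.mem_union] at hq
      rcases hq with hq | hq
      · exact g3 p hp q hq
      · exact ((H.bad v).1.join hna) p (hsub hp) q hq
    have h2 := H.H2 _ _ ⟨x0, g1 hx0⟩ (g2.mono Finset.subset_union_left) h1
    have h3 : Um = Um ∪ (b v ∩ Fs) := Finset.eq_of_subset_of_card_le Finset.subset_union_left (by omega)
    rw [h3]
    exact Finset.subset_union_right
  -- for the vertices of `F` with an in-neighbour in `X`
  have hv1 : ∀ v ∈ F, ∀ x ∈ X, A x v → Om ⊆ a v ∪ F := by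
    intro v hv x hx hxv
    obtain ⟨y, hy, hyx⟩ := hxx.inF hx
    have e1 := hp3 v hv x hx hxv
    have e2 := hp3 x (hXF hx) y hy hyx
    have e3 : v ∈ a x := (H.bad x).2.2.1 v hxv
    have e4 := good_p5 H.inn H.H2 H.bad hna hwF he2 e1 e2 hxv
      (hgood1 _ _ ((H.bad v).1.meet (H.bad x).1)
        ⟨v, Finset.mem_inter.2 ⟨Finset.mem_inter.2 ⟨(H.bad v).2.1, e3⟩, hv⟩⟩
        ⟨x, hx, fun h => hab v x hxv (Finset.mem_inter.1 h).1⟩)
    have e5 : Om ⊆ a x ∪ F := (g7 x hx).trans (Finset.union_subset_union (Finset.Subset.refl _) hXF)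
    have e6 := key1 x e5
    obtain ⟨q, hq⟩ := e2.1
    exact (g9 _ _ (hXF.trans (Finset.subset_inter Finset.subset_union_right Finset.subset_union_right))
      (((H.bad v).1.join hna).meet ((H.bad x).1.join hna)) e4
      ⟨q, Finset.mem_inter.2 ⟨Finset.mem_union_right _ hq, e6 hq⟩⟩).trans Finset.inter_subset_left
  have hGv : ∀ v, Om ⊆ a v ∪ F → ∀ g ∈ G, ¬ A g v := by
    intro v hv g hg hA
    have h1 := hv (Finset.mem_sdiff.1 hg).1
    rw [Finset.mem_union] at h1
    rcases h1 with h1 | h1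
    · exact hab v g hA h1
    · exact Finset.disjoint_left.1 hFG h1 hg
  -- no arcs from `G` to `F`
  have hGF : ∀ v ∈ F, ∀ g ∈ G, ¬ A g v := by
    intro v hv g hg
    by_cases h1 : v ∈ X
    · exact g6 v h1 g hg
    by_cases h2 : v ∈ Xs
    · rw [← hXsU, Finset.mem_union] at h2
      rcases h2 with h2 | h2
      · exact absurd rfl (hna v hv v h2).1
      · exact (g3 g (Finset.mem_sdiff.1 hg).1 v h2).2
    · obtain ⟨x, hx, hxv⟩ := of_not_star h2 h1
      exact hGv v (hv1 v hv x hx hxv) g hg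
  -- an arc into `O ∩ F`
  obtain ⟨q, hqO, hqF, p, hpO, hpF, hqp⟩ : ∃ q ∈ O, q ∉ F ∧ ∃ p ∈ O, p ∈ F ∧ A q p := by
    by_contra hc
    push Not at hc
    have hcut : Na A (W ∪ (O \ F)) (O ∩ F) := by
      intro q hq x hx
      rw [Finset.mem_union] at hq
      rw [Finset.mem_inter] at hx
      rcases hq with hq | hq
      · exact hWO q hq x hx.1
      · rw [Finset.mem_sdiff] at hq
        exact ⟨fun e => hq.2 (e ▸ hx.2), hc q hq.1 hq.2 x hx.1 hx.2⟩
    have h1 := Finset.card_union_of_disjoint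
      (Finset.disjoint_of_subset_right (Finset.sdiff_subset (s := O) (t := F)) hWO.disj)
    have h2 := Finset.card_sdiff_add_card_inter O F
    obtain ⟨p, hp⟩ := H.meet
    rw [Finset.mem_inter] at hp
    have h3 := H.s2 _ (Sd.second (hW.mono Finset.subset_union_left) ⟨p, Finset.mem_inter.2 ⟨hp.2, hp.1⟩⟩
      hcut (by omega))
    have h4 := Finset.card_le_card (Finset.inter_subset_right (s₁ := O) (s₂ := F))
    omega
  obtain ⟨x, hx, hxp⟩ := hpX p hpF hpO
  have hp := hp3 p hpF x hx hxp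
  have hpFs : p ∉ Fs := fun h => (hna p hpF p h).1 rfl
  -- (P4)
  have hqFs : q ∉ Fs := by
    intro hqFs
    obtain ⟨v1, v2, v3, v4⟩ := hp
    have hj := (H.bad p).1.join hna
    have hqb : q ∈ b p := (H.bad p).2.2.2.1 q hqp
    have hne : (O ∩ (b p ∩ Fs)).Nonempty := ⟨q, by simp [hqO, hqb, hqFs]⟩
    have h1 : (O ∩ (b p ∩ Fs)).card < O.card := by
      apply Finset.card_lt_card
      rw [Finset.ssubset_iff_of_subset Finset.inter_subset_left]
      refine ⟨p, hpO, fun h' => hpFs ?_⟩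
      rw [Finset.mem_inter, Finset.mem_inter] at h'
      exact h'.2.2
    have hXne : (a p ∪ F).Nonempty := ⟨p, Finset.mem_union_right _ hpF⟩
    have h2 := H.ex1 (hW.mono Finset.subset_union_left) hne (hWO.join hj) (Or.inr (by omega))
    have h3 := unc W O (a p ∪ F) (b p ∩ Fs)
    have h4 := H.s2 _ (Sd.first hXne v1 hj (by omega))
    have h5 : ¬ (W ∩ (a p ∪ F)).Nonempty := fun h' => by
      have := H.H2 _ _ h' (hOne.mono Finset.subset_union_left) (hWO.meet hj)
      omega
    rw [Finset.not_nonempty_iff_eq_empty] at h5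
    rw [h5, Finset.card_empty] at h3
    have h6 := Finset.card_union_add_card_inter O (b p ∩ Fs)
    have h7 : 0 < (O ∩ (b p ∩ Fs)).card := Finset.card_pos.2 hne
    omega
  obtain ⟨u, hu, huq⟩ : ∃ u ∈ F, A u q := by
    by_contra hc
    push Not at hc
    have h1 : Na A F {q} := by
      intro w hw w' hw'
      rw [Finset.mem_singleton] at hw'
      subst hw'
      exact ⟨fun e => hqF (e ▸ hw), hc w hw⟩
    exact hqFs (hmx _ h1 (Finset.mem_singleton_self q))
  have hpq : p ∈ a q := (H.bad q).2.2.1 p hqp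
  have hpp : p ∈ a p := (H.bad p).2.1
  have hq3 := good_p3 H.inn H.H2 H.bad hna hwF (by omega) hpF hpq
    (hgood2 _ _ (H.bad q).1 ⟨p, by simp [hpq, hpF, hpO]⟩ ⟨u, hu, hab q u huq⟩)
  have hp5 := good_p5 H.inn H.H2 H.bad hna hwF he2 hp hq3 hqp
    (hgood2 _ _ ((H.bad p).1.meet (H.bad q).1) ⟨p, by simp [hpq, hpp, hpF, hpO]⟩
      ⟨u, hu, fun h => hab q u huq (Finset.mem_inter.1 h).2⟩)
  have hOp := hv1 p hpF x hx hxp
  have hOq : Om ⊆ a q ∪ F := by
    have e6 := key1 p hOp
    obtain ⟨w, hw⟩ := hp.1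
    exact (g9 _ _ (hXF.trans (Finset.subset_inter Finset.subset_union_right Finset.subset_union_right))
      (((H.bad p).1.join hna).meet ((H.bad q).1.join hna)) hp5
      ⟨w, Finset.mem_inter.2 ⟨Finset.mem_union_left _ hw, e6 hw⟩⟩).trans Finset.inter_subset_right
  have hGq := hGv q hOq
  have hqG : q ∉ G := fun h => hGF p hpF q h hqp
  -- the last cut
  have hlast : Na A G ((Fs ∩ Um) ∪ insert q F) := by
    intro g hg w hw
    rw [Finset.mem_union, Finset.mem_inter, Finset.mem_insert] at hw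
    rcases hw with hw | rfl | hw
    · exact g3 g (Finset.mem_sdiff.1 hg).1 w hw.2
    · exact ⟨fun e => hqG (e ▸ hg), hGq g hg⟩
    · exact ⟨fun e => Finset.disjoint_left.1 hFG hw (e ▸ hg), hGF w hw g hg⟩
  have h1 : Disjoint (Fs ∩ Um) (insert q F) := by
    rw [Finset.disjoint_insert_right]
    exact ⟨fun h => hqFs (Finset.mem_inter.1 h).1,
      Finset.disjoint_of_subset_left Finset.inter_subset_left hna.disj.symm⟩
  have h2 := Finset.card_union_of_disjoint h1
  rw [Finset.card_insert_of_notMem hqF] at h2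
  have h3 : (F ∪ Om).card = F.card + G.card := by
    rw [← Finset.card_union_of_disjoint hFG]
    congr 1
    ext w
    simp only [Finset.mem_union, hGdef, Finset.mem_sdiff]
    constructor
    · rintro (h | h)
      · exact Or.inl h
      · by_cases hw : w ∈ X
        · exact Or.inl (hXF hw)
        · exact Or.inr ⟨h, hw⟩
    · rintro (h | h)
      · exact Or.inl h
      · exact Or.inr h.1
  have h4 := H.H2 _ _ g5 (hFsU.mono Finset.subset_union_left) hlast
  omega

/-- **Case 2.** -/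
lemma case2 (H : Hy A k s a b O F) (R : ∀ Z, Sd A k 1 Z → k ≤ 2 * Z.card + 1) {Y : Finset V}
    (hY : Y.Nonempty) (hFY : Na A F Y) (hw : Fintype.card V + 1 ≤ F.card + Y.card + k) {W : Finset V}
    (hW : W.Nonempty) (hWO : Na A W O) (hwO : Fintype.card V + 2 ≤ W.card + O.card + k) : False := by
  obtain ⟨p, hp⟩ := H.meet
  rw [Finset.mem_inter] at hp
  have hFne : F.Nonempty := ⟨p, hp.1⟩
  have hOne : O.Nonempty := ⟨p, hp.2⟩
  have hlt := H.lt
  have hOs := H.Os
  have hwO' := H.H2 W O hW hOne hWO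
  set Fs := star A F with hFs
  have hna : Na A F Fs := na_star F
  have hFsne : Fs.Nonempty := hY.mono (star_mx hFY)
  have hle : Y.card ≤ Fs.card := Finset.card_le_card (star_mx hFY)
  have hup := H.ex1 hFne hFsne hna (Or.inl hlt)
  have hwF : F.card + Fs.card + k = Fintype.card V + 1 := by omega
  have hpFs : p ∉ Fs := fun h => (hna p hp.1 p h).1 rfl
  have hUO := Finset.card_union_add_card_inter Fs O
  have hcO : (Fs ∩ O).card < O.card := by
    apply Finset.card_lt_card
    rw [Finset.ssubset_iff_of_subset Finset.inter_subset_right]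
    exact ⟨p, hp.2, fun h => hpFs (Finset.mem_inter.1 h).1⟩
  have hFW := unc F Fs W O
  have hFWne : (F ∪ W).Nonempty := ⟨p, Finset.mem_union_left _ hp.1⟩
  have hFWle := Finset.card_le_card (Finset.inter_subset_left (s₁ := F) (s₂ := W))
  have hFsO : (Fs ∪ O).Nonempty := hFsne.mono Finset.subset_union_left
  have hFWu := Finset.card_union_add_card_inter F W
  -- (P1)
  have hP1 : F ∩ W = ∅ := by
    by_contra hcon
    have h4 : (F ∩ W).Nonempty := Finset.nonempty_iff_ne_empty.2 hcon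
    have h5 := H.ex1 h4 hFsO (hna.meet hWO) (Or.inl (by omega))
    by_cases hc : (Fs ∩ O).Nonempty
    · have h2 := H.ex1 hFWne hc (hna.join hWO) (Or.inr (by omega))
      omega
    · rw [Finset.not_nonempty_iff_eq_empty] at hc
      rw [hc, Finset.card_empty] at hFW
      omega
  -- (P2)
  have hP2 : Fintype.card V + 2 ≤ (Fs ∪ O).card + k := by
    rw [hP1, Finset.card_empty] at hFW
    by_cases hc : (Fs ∩ O).Nonempty
    · have h2 := H.ex1 hFWne hc (hna.join hWO) (Or.inr (by omega))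
      omega
    · rw [Finset.not_nonempty_iff_eq_empty] at hc
      rw [hc, Finset.card_empty] at hUO
      omega
  have hsm : ∀ Z : Finset V, Disjoint Z Fs → Z ∩ O = ∅ → Z.card + 2 ≤ k := by
    intro Z hZF hZO
    have h1 : Disjoint Z (Fs ∪ O) := by
      rw [Finset.disjoint_union_right]
      exact ⟨hZF, Finset.disjoint_iff_inter_eq_empty.2 hZO⟩
    have h2 := Finset.card_le_univ (Z ∪ (Fs ∪ O))
    rw [Finset.card_union_of_disjoint h1] at h2
    omega
  have hnd : ∀ Z, Sd A k 1 Z → Disjoint Z Fs → F.card ≤ Z.card ∨ Z.card < k := by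
    intro Z hZ hZF
    by_cases hZO : (Z ∩ O).Nonempty
    · exact Or.inl (H.mnO Z hZ hZO)
    · rw [Finset.not_nonempty_iff_eq_empty] at hZO
      have := hsm Z hZF hZO
      exact Or.inr (by omega)
  have hinc := inc2 H R hW hWO hwO hna (fun Y hY => star_mx hY) hFsne hwF hP1 hsm
  have h : Fx A k a b F Fs := ⟨H.out, H.inn, H.H2, H.bad, hFne, hna, fun Y hY => star_mx hY, hFsne, hwF,
    fun Z hZ => by have := H.s2 Z hZ; omega, hnd, hinc⟩
  -- (P4)
  have hp4 : ∀ v ∈ F, ∀ q ∈ b v, q ∈ Fs → q ∉ O := by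
    intro v hv q hq hqF hqO
    obtain ⟨v1, v2, v3, v4⟩ := h.p3 (h.kF hv)
    have hj := (H.bad v).1.join hna
    have hne : (O ∩ (b v ∩ Fs)).Nonempty := ⟨q, by simp [hq, hqF, hqO]⟩
    have h1 : (O ∩ (b v ∩ Fs)).card < O.card := by
      apply Finset.card_lt_card
      rw [Finset.ssubset_iff_of_subset Finset.inter_subset_left]
      refine ⟨p, hp.2, fun h' => hpFs ?_⟩
      rw [Finset.mem_inter, Finset.mem_inter] at h'
      exact h'.2.2
    have hXne : (a v ∪ F).Nonempty := ⟨p, Finset.mem_union_right _ hp.1⟩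
    have h2 := H.ex1 (hW.mono Finset.subset_union_left) hne (hWO.join hj) (Or.inr (by omega))
    have h3 := unc W O (a v ∪ F) (b v ∩ Fs)
    have h4 := H.s2 _ (Sd.first hXne v1 hj (by omega))
    have h5 : ¬ (W ∩ (a v ∪ F)).Nonempty := fun h' => by
      have := H.H2 _ _ h' (hOne.mono Finset.subset_union_left) (hWO.meet hj)
      omega
    rw [Finset.not_nonempty_iff_eq_empty] at h5
    rw [h5, Finset.card_empty] at h3
    have h6 := Finset.card_union_add_card_inter O (b v ∩ Fs)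
    have h7 : 0 < (O ∩ (b v ∩ Fs)).card := Finset.card_pos.2 hne
    omega
  -- (P8)
  have hcut : Na A (W ∪ (O \ F)) (O ∩ F) := by
    intro q hq x hx
    rw [Finset.mem_union] at hq
    rw [Finset.mem_inter] at hx
    rcases hq with hq | hq
    · exact hWO q hq x hx.1
    · rw [Finset.mem_sdiff] at hq
      refine ⟨fun e => hq.2 (e ▸ hx.2), fun hA => ?_⟩
      have h1 : q ∈ b x := (H.bad x).2.2.2.1 q hA
      have h2 : q ∉ Fs := fun hqF => hp4 x hx.2 q h1 hqF hq.1
      obtain ⟨u, hu, huq⟩ := of_not_star h2 hq.2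
      exact h.om.2 q u x hq.2 hu hx.2 huq hA
  have h1 := Finset.card_union_of_disjoint
    (Finset.disjoint_of_subset_right (Finset.sdiff_subset (s := O) (t := F)) hWO.disj)
  have h2 := Finset.card_sdiff_add_card_inter O F
  have h3 := H.s2 _ (Sd.second (hW.mono Finset.subset_union_left) ⟨p, Finset.mem_inter.2 ⟨hp.2, hp.1⟩⟩
    hcut (by omega))
  have h4 := Finset.card_le_card (Finset.inter_subset_right (s₁ := O) (s₂ := F))
  omega

end E2_

end Pool.Agent.Lib.MP_83608f_co.CN
end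
end

section
/-! MP_83608f_co, part CN, module E2D (helper91): **Theorem E2.**  If the connectivity is at least `k - 2` and
`k ≤ 2 m + 3` then `n ≥ m k + 1`. -/
set_option autoImplicit false

open Classical

noncomputable section

namespace Pool.Agent.Lib.MP_83608f_co.CN

open Pool.Agent.Lib.MP_83608f_co.EM (Wk)

namespace E2_

variable {V : Type} [Fintype V] {A : V → V → Prop} {k : ℕ}

/-- if all excesses are at most two and every side with a positive excess has at least `(k - 1) / 2` vertices then not all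
vertices are bad -/
theorem not_bad [Nonempty V] (hout : ∀ v, (Finset.univ.filter fun u => A v u).card = k)
    (hin : ∀ v, (Finset.univ.filter fun u => A u v).card = k)
    (H2 : ∀ X Y : Finset V, X.Nonempty → Y.Nonempty → Na A X Y →
      X.card + Y.card + k ≤ Fintype.card V + 2)
    (R : ∀ Z, Sd A k 1 Z → k ≤ 2 * Z.card + 1) (hk : 1 ≤ k) (a b : V → Finset V) : ¬ Bad A k a b := by
  intro hbad
  have hbad' := hbad.flip
  have H2' : ∀ X Y : Finset V, X.Nonempty → Y.Nonempty → Na (fun x y => A y x) X Y →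
      X.card + Y.card + k ≤ Fintype.card V + 2 := fun X Y hX hY h => by
    have := H2 Y X hY hX h.flip
    omega
  by_cases hex : ∃ Z, Sd A k 2 Z
  · -- a smallest side of excess two
    obtain ⟨O₀, hO₀, hOmin⟩ := Finset.exists_min_image
      ((Finset.univ : Finset (Finset V)).filter fun Z => Sd A k 2 Z) Finset.card
      (by obtain ⟨Z, hZ⟩ := hex; exact ⟨Z, Finset.mem_filter.2 ⟨Finset.mem_univ _, hZ⟩⟩)
    rw [Finset.mem_filter] at hO₀
    have hs : ∀ Z, Sd A k 2 Z → O₀.card ≤ Z.card := fun Z hZ =>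
      hOmin Z (Finset.mem_filter.2 ⟨Finset.mem_univ _, hZ⟩)
    -- a smallest pair
    have hsd1 : ∀ Z, Sd A k 2 Z → Sd A k 1 Z := fun Z ⟨h1, Y, h2, h3, h4⟩ => ⟨h1, Y, h2, h3, by omega⟩
    obtain ⟨⟨O, F⟩, hOF, hFmin⟩ := Finset.exists_min_image
      ((Finset.univ : Finset (Finset V × Finset V)).filter fun q => Sd A k 2 q.1 ∧ q.1.card = O₀.card ∧
        Sd A k 1 q.2 ∧ (q.2 ∩ q.1).Nonempty) (fun q => q.2.card)
      ⟨(O₀, O₀), Finset.mem_filter.2 ⟨Finset.mem_univ _, hO₀.2, rfl, hsd1 _ hO₀.2, by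
        rw [Finset.inter_self]
        exact hO₀.2.1⟩⟩
    rw [Finset.mem_filter] at hOF
    obtain ⟨-, hO2, hOc, hF1, hmeet⟩ := hOF
    simp only at hO2 hOc hF1 hmeet
    have hmn : ∀ O' Z, Sd A k 2 O' → O'.card = O₀.card → Sd A k 1 Z → (Z ∩ O').Nonempty →
        F.card ≤ Z.card := fun O' Z h1 h2 h3 h4 =>
      hFmin (O', Z) (Finset.mem_filter.2 ⟨Finset.mem_univ _, h1, h2, h3, h4⟩)
    rcases Nat.lt_or_ge F.card O₀.card with hlt | hge
    · obtain ⟨hFne, Y, hY, hFY, hw⟩ := hF1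
      obtain ⟨hOne, U, hU, hOU, hwO⟩ := hO2
      have hO2 : Sd A k 2 O := ⟨hOne, U, hU, hOU, hwO⟩
      rcases hFY with hFY | hFY
      · have H : Hy A k O₀.card a b O F := ⟨hout, hin, H2, hbad, hs, hO2, hOc, hmeet, hlt, hmn⟩
        rcases hOU with hOU | hOU
        · exact case1 H hY hFY (by omega) hU hOU (by omega)
        · exact case2 H R hY hFY (by omega) hU hOU (by omega)
      · have H : Hy (fun x y => A y x) k O₀.card _ _ O F := ⟨hin, hout, H2', hbad',
          fun Z hZ => hs Z (sd_flip.1 hZ), hO2.flip, hOc, hmeet, hlt,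
          fun O' Z h1 h2 h3 h4 => hmn O' Z (sd_flip.1 h1) h2 (sd_flip.1 h3) h4⟩
        rcases hOU with hOU | hOU
        · exact case2 H (fun Z hZ => R Z (sd_flip.1 hZ)) hY hFY.flip (by omega) hU hOU.flip (by omega)
        · exact case1 H hY hFY.flip (by omega) hU hOU.flip (by omega)
    · have hmn' : ∀ Z, Sd A k 1 Z → (Z ∩ O).Nonempty → O.card ≤ Z.card := fun Z h1 h2 => by
        have := hmn O Z hO2 hOc h1 h2
        omega
      obtain ⟨hOne, U, hU, hOU, hwO⟩ := hO2
      rcases hOU with hOU | hOU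
      · exact core1 hbad hout (by norm_num : 1 ≤ 2) H2 hOne hU hOU (by omega) hmn'
      · exact core1 hbad' hin (by norm_num : 1 ≤ 2) H2' hOne hU hOU.flip (by omega)
          fun Z h1 h2 => hmn' Z (sd_flip.1 h1) h2
  · have H1 : ∀ X Y : Finset V, X.Nonempty → Y.Nonempty → Na A X Y →
        X.card + Y.card + k ≤ Fintype.card V + 1 := by
      intro X Y hX hY h
      by_contra hcon
      exact hex ⟨X, Sd.first hX hY h (by omega)⟩
    have H1' : ∀ X Y : Finset V, X.Nonempty → Y.Nonempty → Na (fun x y => A y x) X Y →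
        X.card + Y.card + k ≤ Fintype.card V + 1 := fun X Y hX hY h => by
      have := H1 Y X hY hX h.flip
      omega
    obtain ⟨v⟩ := ‹Nonempty V›
    have hbne : (b v).Nonempty := by
      have h1 : (Finset.univ.filter fun u => A u v).Nonempty := by
        rw [← Finset.card_pos, hin v]
        exact hk
      obtain ⟨u, hu⟩ := h1
      exact ⟨u, (hbad v).2.2.2.1 u (Finset.mem_filter.1 hu).2⟩
    obtain ⟨F, hF, hFmin⟩ := Finset.exists_min_image
      ((Finset.univ : Finset (Finset V)).filter fun Z => Sd A k 1 Z) Finset.card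
      ⟨a v, Finset.mem_filter.2 ⟨Finset.mem_univ _, Sd.first ⟨v, (hbad v).2.1⟩ hbne (hbad v).1
        (hbad v).2.2.2.2⟩⟩
    rw [Finset.mem_filter] at hF
    have hmn : ∀ Z, Sd A k 1 Z → (Z ∩ F).Nonempty → F.card ≤ Z.card := fun Z hZ _ =>
      hFmin Z (Finset.mem_filter.2 ⟨Finset.mem_univ _, hZ⟩)
    obtain ⟨-, hFne, Y, hY, hFY, hw⟩ := hF
    rcases hFY with hFY | hFY
    · exact core1 hbad hout (le_refl 1) H1 hFne hY hFY (by omega) hmn
    · exact core1 hbad' hin (le_refl 1) H1' hFne hY hFY.flip (by omega)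
        fun Z h1 h2 => hmn Z (sd_flip.1 h1) h2

/-- a nonempty set in which every vertex has an out-neighbour has more than `m` elements -/
lemma card_of_out {m : ℕ} (hcl : NoCl A m) {Z : Finset V} (hne : Z.Nonempty)
    (h : ∀ v ∈ Z, ∃ u ∈ Z, A v u) : m + 1 ≤ Z.card := by
  obtain ⟨v₀, hv₀⟩ := hne
  choose! f hf using h
  set g : ℕ → V := fun i => f^[i] v₀ with hg
  have hgZ : ∀ i, g i ∈ Z := by
    intro i
    induction i with
    | zero => exact hv₀
    | succ i ih =>
      rw [hg]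
      simp only [Function.iterate_succ_apply']
      exact (hf _ ih).1
  have hgA : ∀ i, A (g i) (g (i + 1)) := by
    intro i
    have := (hf _ (hgZ i)).2
    rw [hg]
    simp only [Function.iterate_succ_apply']
    exact this
  have hW : ∀ i d, Wk (⟨A⟩ : Digraph V) d (g i) (g (i + d)) := by
    intro i d
    induction d with
    | zero => rfl
    | succ d ih => exact ih.snoc (hgA (i + d))
  obtain ⟨i, hi, j, hj, hij, he⟩ := Finset.exists_ne_map_eq_of_card_lt_of_maps_to
    (s := Finset.range (Z.card + 1)) (t := Z) (by rw [Finset.card_range]; omega) (f := g)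
    (fun i _ => hgZ i)
  rw [Finset.mem_range] at hi hj
  by_contra hcon
  rcases Nat.lt_or_ge i j with h1 | h1
  · have h2 := hW i (j - i)
    rw [show i + (j - i) = j by omega, ← he] at h2
    exact hcl (j - i) (by omega) (by omega) _ h2
  · have h2 := hW j (i - j)
    rw [show j + (i - j) = i by omega, he] at h2
    exact hcl (i - j) (by omega) (by omega) _ h2

/-- sides of pairs with a positive excess have more than `m` vertices -/
lemma sd_card {m : ℕ} (hcl : NoCl A m) (hout : ∀ v, (Finset.univ.filter fun u => A v u).card = k)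
    (hin : ∀ v, (Finset.univ.filter fun u => A u v).card = k) {Z : Finset V} (hZ : Sd A k 1 Z) :
    m + 1 ≤ Z.card := by
  obtain ⟨hne, Y, hY, h | h, hw⟩ := hZ
  · exact card_of_out hcl hne fun v hv => out_in hout h (by omega) hv
  · exact card_of_out (A := fun x y => A y x) (CUT_.nocl_flip hcl) hne
      fun v hv => out_in hin h.flip (by omega) hv

/-- in terms of the connectivity -/
lemma conn_na {c : ℕ} (h : Conn A c) {X Y : Finset V} (hX : X.Nonempty) (hY : Y.Nonempty) (hXY : Na A X Y) :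
    X.card + Y.card + c ≤ Fintype.card V := by
  by_contra hcon
  have h1 := Finset.card_union_of_disjoint hXY.disj
  have h2 := Finset.card_compl (X ∪ Y)
  have h3 := hXY.card_le
  obtain ⟨x, hx⟩ := hX
  obtain ⟨y, hy⟩ := hY
  have hp := h (X ∪ Y)ᶜ (by omega) x y (by simp [hx]) (by simp [hy])
  have key : ∀ z, Relation.ReflTransGen (fun p q => A p q ∧ q ∉ (X ∪ Y)ᶜ) x z → z ∈ X := by
    intro z hz
    induction hz with
    | refl => exact hx
    | tail _ hab ih =>
      have h4 := hab.2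
      rw [Finset.mem_compl, not_not, Finset.mem_union] at h4
      rcases h4 with h4 | h4
      · exact h4
      · exact absurd hab.1 (hXY _ ih _ h4).2
  exact (hXY y (key y hp) y hy).1 rfl

end E2_

/-- **Theorem E2.**  A `k`-diregular digraph without closed walks of length `1, ..., m`, `m ≥ 2`, `k ≤ 2 m + 3`, in which
every pair of nonempty disjoint sets `X`, `Y` without arcs from `X` to `Y` leaves out at least `k - 2` vertices, has at
least `m k + 1` vertices. -/
theorem e2y (V : Type) [Fintype V] [Nonempty V] (A : V → V → Prop) (k m : ℕ) (hk : 1 ≤ k) (hm : 2 ≤ m)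
    (hkm : k ≤ 2 * m + 3) (hout : ∀ v, (Finset.univ.filter fun u => A v u).card = k)
    (hin : ∀ v, (Finset.univ.filter fun u => A u v).card = k) (hcl : NoCl A m)
    (H2 : ∀ X Y : Finset V, X.Nonempty → Y.Nonempty → E2_.Na A X Y →
      X.card + Y.card + k ≤ Fintype.card V + 2) : m * k + 1 ≤ Fintype.card V := by
  have hR : ∀ Z, E2_.Sd A k 1 Z → k ≤ 2 * Z.card + 1 := fun Z hZ => by
    have := E2_.sd_card hcl hout hin hZ
    omega
  -- a vertex which is not bad
  obtain ⟨v, hv⟩ : ∃ v : V, ∀ X Y : Finset V, E2_.Na A X Y → v ∈ X → (∀ u, A v u → u ∈ X) →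
      (∀ u, A u v → u ∈ Y) → X.card + Y.card + k ≤ Fintype.card V := by
    by_contra hcon
    push Not at hcon
    choose a b h1 h2 h3 h4 h5 using hcon
    exact E2_.not_bad hout hin H2 hR hk a b fun v => ⟨h1 v, h2 v, h3 v, h4 v, h5 v⟩
  have hstep : ∀ i, i + 2 ≤ m → i * k + k + 1 ≤ (LAY_.cb A v (i + 1)).card := by
    intro i
    induction i with
    | zero =>
      intro _
      have h1 : insert v (Finset.univ.filter fun u => A v u) ⊆ LAY_.cb A v 1 := by
        intro u hu
        rw [Finset.mem_insert, Finset.mem_filter] at hu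
        rcases hu with rfl | hu
        · exact LAY_.mem_cb_self u 1
        · exact FIN_.mem_outN.2 (Or.inr ⟨v, Finset.mem_singleton_self _, hu.2⟩)
      have h2 := Finset.card_le_card h1
      rw [Finset.card_insert_of_notMem, hout v] at h2
      · rw [Nat.zero_add]
        omega
      · intro h
        exact LAY_.irr hcl (by omega) v (Finset.mem_filter.1 h).2
    | succ i ih =>
      intro hi
      have h1 := ih (by omega)
      have h2 : E2_.Na A (LAY_.cb A v (i + 1)) (LAY_.cb A v (i + 1 + 1))ᶜ := by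
        intro x hx y hy
        rw [Finset.mem_compl] at hy
        exact ⟨fun e => hy (e ▸ LAY_.cb_sub v (i + 1) hx), fun hA =>
          hy (FIN_.mem_outN.2 (Or.inr ⟨x, hx, hA⟩))⟩
      have h3 := hv _ _ h2 (LAY_.mem_cb_self v (i + 1))
        (fun u hu => by
          have : u ∈ LAY_.cb A v 1 := FIN_.mem_outN.2 (Or.inr ⟨v, Finset.mem_singleton_self _, hu⟩)
          clear h1 h2 ih hi
          induction i with
          | zero => exact this
          | succ i ih => exact LAY_.cb_sub v (i + 1) ih)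
        (fun u hu => Finset.mem_compl.2 (LAY_.in_notMem hcl v u hu (i + 1 + 1) (by omega)))
      rw [Finset.card_compl] at h3
      have h4 := Finset.card_le_univ (LAY_.cb A v (i + 1 + 1))
      have h5 : (i + 1) * k = i * k + k := by ring
      omega
  obtain ⟨i, rfl⟩ : ∃ i, m = i + 2 := ⟨m - 2, by omega⟩
  have h1 := hstep i (le_refl _)
  have h2 : Disjoint (LAY_.cb A v (i + 1)) (Finset.univ.filter fun u => A u v) := by
    rw [Finset.disjoint_left]
    intro u hu hu'
    exact LAY_.in_notMem hcl v u (Finset.mem_filter.1 hu').2 (i + 1) (by omega) hu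
  have h3 := Finset.card_le_univ (LAY_.cb A v (i + 1) ∪ (Finset.univ.filter fun u => A u v))
  rw [Finset.card_union_of_disjoint h2, hin v] at h3
  have h4 : (i + 2) * k = i * k + k + k := by ring
  omega

/-- **Theorem E2**, in terms of the connectivity. -/
theorem e2y_conn (V : Type) [Fintype V] [Nonempty V] (A : V → V → Prop) (k c m : ℕ) (hk : 1 ≤ k) (hm : 2 ≤ m)
    (hkm : k ≤ 2 * m + 3) (hout : ∀ v, (Finset.univ.filter fun u => A v u).card = k)
    (hin : ∀ v, (Finset.univ.filter fun u => A u v).card = k) (hcl : NoCl A m) (hconn : Conn A c)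
    (hc : k ≤ c + 2) : m * k + 1 ≤ Fintype.card V :=
  e2y V A k m hk hm hkm hout hin hcl fun X Y hX hY h => by
    have := E2_.conn_na hconn hX hY h
    omega

/-- **Theorem E2** for `k ≤ m + 3`. -/
theorem e2x (V : Type) [Fintype V] [Nonempty V] (A : V → V → Prop) (k m : ℕ) (hk : 1 ≤ k) (hm : 2 ≤ m)
    (hkm : k ≤ m + 3) (hout : ∀ v, (Finset.univ.filter fun u => A v u).card = k)
    (hin : ∀ v, (Finset.univ.filter fun u => A u v).card = k) (hcl : NoCl A m)
    (H2 : ∀ X Y : Finset V, X.Nonempty → Y.Nonempty → E2_.Na A X Y →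
      X.card + Y.card + k ≤ Fintype.card V + 2) : m * k + 1 ≤ Fintype.card V :=
  e2y V A k m hk hm (by omega) hout hin hcl H2

/-- **Theorem E2** for `k ≤ m + 3`, in terms of the connectivity. -/
theorem e2x_conn (V : Type) [Fintype V] [Nonempty V] (A : V → V → Prop) (k c m : ℕ) (hk : 1 ≤ k) (hm : 2 ≤ m)
    (hkm : k ≤ m + 3) (hout : ∀ v, (Finset.univ.filter fun u => A v u).card = k)
    (hin : ∀ v, (Finset.univ.filter fun u => A u v).card = k) (hcl : NoCl A m) (hconn : Conn A c)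
    (hc : k ≤ c + 2) : m * k + 1 ≤ Fintype.card V :=
  e2y_conn V A k c m hk hm (by omega) hout hin hcl hconn hc

/-- **Theorem E2** for `k ≤ m + 2`. -/
theorem e2 (V : Type) [Fintype V] [Nonempty V] (A : V → V → Prop) (k m : ℕ) (hk : 1 ≤ k) (hm : 2 ≤ m)
    (hkm : k ≤ m + 2) (hout : ∀ v, (Finset.univ.filter fun u => A v u).card = k)
    (hin : ∀ v, (Finset.univ.filter fun u => A u v).card = k) (hcl : NoCl A m)
    (H2 : ∀ X Y : Finset V, X.Nonempty → Y.Nonempty → E2_.Na A X Y →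
      X.card + Y.card + k ≤ Fintype.card V + 2) : m * k + 1 ≤ Fintype.card V :=
  e2x V A k m hk hm (by omega) hout hin hcl H2

/-- **Theorem E2** for `k ≤ m + 2`, in terms of the connectivity. -/
theorem e2_conn (V : Type) [Fintype V] [Nonempty V] (A : V → V → Prop) (k c m : ℕ) (hk : 1 ≤ k) (hm : 2 ≤ m)
    (hkm : k ≤ m + 2) (hout : ∀ v, (Finset.univ.filter fun u => A v u).card = k)
    (hin : ∀ v, (Finset.univ.filter fun u => A u v).card = k) (hcl : NoCl A m) (hconn : Conn A c)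
    (hc : k ≤ c + 2) : m * k + 1 ≤ Fintype.card V :=
  e2x_conn V A k c m hk hm (by omega) hout hin hcl hconn hc

end Pool.Agent.Lib.MP_83608f_co.CN
end
end

section
/-! MP_83608f_co, part CN, module LG1 (helper32): large girth, part 1.  The size of a side of a cut from `dch`, and the
exclusion of cuts with at most `k - 3` vertices for `k ≤ 0.66 m - 5.6`. -/
set_option autoImplicit false

open Classical

noncomputable section

namespace Pool.Agent.Lib.MP_83608f_co.CN

namespace LG_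

variable {V : Type} [Fintype V] {A : V → V → Prop} {k m : ℕ}

/-- the size of a side of a cut -/
lemma side {C q ε : ℝ} (i j : ℕ) (hij : i + j + 2 ≤ m) (hk : 1 ≤ k) (hcl : NoCl A m)
    (hout : ∀ v, (Finset.univ.filter fun u => A v u).card = k)
    (hin : ∀ v, (Finset.univ.filter fun u => A u v).card = k)
    (O S : Finset V) (hO : O.Nonempty) (e : ℕ) (hS : S.card + e ≤ k) (hε : 0 < ε) (hεe : ε ≤ e) (hC : 0 < C)
    (hq : q = 1 - 1 / C * (1 - ε / (2 * k))) (hq0 : 0 < q)
    (hG : (q ^ i + q ^ j) * (1 - 1 / C * (e / k)) ≤ 1)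
    (hcut : ∀ a ∈ O, ∀ b, A a b → b ∈ O ∨ b ∈ S) :
    C * k ≤ O.card + k * S.card / (ε * q) := by
  have hk0 : (0 : ℝ) < k := by exact_mod_cast (by omega : 0 < k)
  have hSe : (S.card : ℝ) + e ≤ k := by exact_mod_cast hS
  have hS0 : (0 : ℝ) ≤ S.card := Nat.cast_nonneg _
  -- out-degrees inside `O`
  obtain ⟨dO, hdO⟩ : ∃ dO : V → ℝ, dO = fun u => ((O.filter fun v => A u v).card : ℝ) := ⟨_, rfl⟩
  have hdOv : ∀ a, dO a = ((O.filter fun v => A a v).card : ℝ) := fun a => by rw [hdO]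
  have hsplit : ∀ a ∈ O, (k : ℝ) ≤ dO a + (S.filter fun v => A a v).card := by
    intro a ha
    have h1 : (Finset.univ.filter fun v => A a v) ⊆
        (O.filter fun v => A a v) ∪ (S.filter fun v => A a v) := by
      intro v hv
      rw [Finset.mem_filter] at hv
      rw [Finset.mem_union, Finset.mem_filter, Finset.mem_filter]
      rcases hcut a ha v hv.2 with h | h
      · exact Or.inl ⟨h, hv.2⟩
      · exact Or.inr ⟨h, hv.2⟩
    have h2 := (Finset.card_le_card h1).trans (Finset.card_union_le _ _)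
    rw [hout a] at h2
    rw [hdOv a]
    exact_mod_cast h2
  have hdeg : ∀ a ∈ O, (e : ℝ) ≤ dO a := by
    intro a ha
    have h1 := hsplit a ha
    have h2 : ((S.filter fun v => A a v).card : ℝ) ≤ S.card := by
      exact_mod_cast Finset.card_le_card (Finset.filter_subset (fun v => A a v) S)
    linarith
  have hdegk : ∀ a, dO a ≤ k := by
    intro a
    have h1 : (O.filter fun v => A a v) ⊆ (Finset.univ.filter fun v => A a v) := by
      intro v hv
      rw [Finset.mem_filter] at hv ⊢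
      exact ⟨Finset.mem_univ _, hv.2⟩
    have h2 := Finset.card_le_card h1
    rw [hout a] at h2
    rw [hdOv a]
    exact_mod_cast h2
  -- arcs from `O` to `S`
  have hdefS : ∑ a ∈ O, ((k : ℝ) - dO a) ≤ k * S.card := by
    have h0 : ∑ a ∈ O, ((k : ℝ) - dO a) ≤ ∑ a ∈ O, ((S.filter fun v => A a v).card : ℝ) :=
      Finset.sum_le_sum fun a ha => by linarith [hsplit a ha]
    have h1 : ∑ a ∈ O, (S.filter fun v => A a v).card = ∑ v ∈ S, (O.filter fun a => A a v).card := by
      simp only [Finset.card_filter]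
      exact Finset.sum_comm
    have h2 : ∑ v ∈ S, (O.filter fun a => A a v).card ≤ S.card * k := by
      rw [← smul_eq_mul, ← Finset.sum_const]
      apply Finset.sum_le_sum
      intro v _
      rw [← hin v]
      apply Finset.card_le_card
      intro a ha
      rw [Finset.mem_filter] at ha ⊢
      exact ⟨Finset.mem_univ _, ha.2⟩
    have h3 : (∑ a ∈ O, ((S.filter fun v => A a v).card : ℝ)) ≤ (S.card : ℝ) * k := by
      rw [← h1] at h2
      exact_mod_cast h2
    linarith
  -- the function `d`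
  obtain ⟨d, hd⟩ : ∃ d : V → ℝ, d = fun u => if u ∈ O then dO u else (k : ℝ) := ⟨_, rfl⟩
  have hdO' : ∀ u ∈ O, d u = dO u := fun u hu => by
    rw [hd]
    simp only [if_pos hu]
  have hd1 : ∀ u, (e : ℝ) ≤ d u := by
    intro u
    by_cases hu : u ∈ O
    · rw [hdO' u hu]
      exact hdeg u hu
    · rw [hd]
      simp only [if_neg hu]
      linarith
  have hd2 : ∀ u, d u ≤ k := by
    intro u
    by_cases hu : u ∈ O
    · rw [hdO' u hu]
      exact hdegk u
    · rw [hd]
      simp only [if_neg hu]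
      exact le_refl _
  obtain ⟨lam, hlam⟩ : ∃ lam, lam = 1 / (ε * q) := ⟨_, rfl⟩
  have hlam0 : 0 < lam := by
    rw [hlam]
    exact div_pos one_pos (mul_pos hε hq0)
  have hlq : lam * (ε * q) = 1 := by
    rw [hlam]
    exact div_mul_cancel₀ _ (mul_pos hε hq0).ne'
  have hγ0 : 0 < 1 / C := div_pos one_pos hC
  obtain ⟨u, hu, h1⟩ := dch (A := A) (m := m) (d := d) (K := (k : ℝ)) (e := (e : ℝ)) (ε := ε) (γ := 1 / C)
    (q := q) (lam := lam) hε hεe (by linarith) hd1 hlam0.le hd2 hγ0 hq hq0 hlq hcl i j hij hG O hO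
  have h2 : 0 < dO u := by linarith [hdeg u hu]
  rw [hdO' u hu, ← hdOv u] at h1
  have h4 := le_of_mul_le_mul_right h1 h2
  rw [one_div, inv_mul_eq_div, le_div_iff₀ hC, DCH_.mu_eq] at h4
  have h5 : DCH_.df (k : ℝ) d O = ∑ a ∈ O, ((k : ℝ) - dO a) := by
    unfold DCH_.df
    exact Finset.sum_congr rfl fun u hu => by rw [hdO' u hu]
  rw [h5] at h4
  have h6 := mul_le_mul_of_nonneg_left hdefS hlam0.le
  have h7 : lam * ((k : ℝ) * S.card) = k * S.card / (ε * q) := by
    rw [hlam]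
    ring
  rw [h7] at h6
  linarith

/-- `(1 - 1/x)^i (2 - z) ≤ 1` -/
lemma pow_aux {x z : ℝ} (i : ℕ) (hx : 1 < x) (hz1 : z ≤ 1)
    (h : 0.6931471808 ≤ 2 * i / (2 * x - 1) + z / 2) : (1 - 1 / x) ^ i * (2 - z) ≤ 1 := by
  have hx1 : 0 < x - 1 := by linarith
  have e1 : 1 - 1 / x = (1 + 1 / (x - 1))⁻¹ := by
    field_simp
    ring
  have hlog : 2 / (2 * x - 1) ≤ Real.log (1 + 1 / (x - 1)) := by
    have h1 := Real.le_log_one_add_of_nonneg (x := 1 / (x - 1)) (by positivity)
    have h2 : 2 * (1 / (x - 1)) / (1 / (x - 1) + 2) = 2 / (2 * x - 1) := by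
      have : 1 / (x - 1) + 2 = (2 * x - 1) / (x - 1) := by
        field_simp
        ring
      rw [this]
      have h3 : (2 : ℝ) * x - 1 ≠ 0 := by linarith
      field_simp
    rw [h2] at h1
    exact h1
  have hlogz : Real.log (2 - z) ≤ Real.log 2 - z / 2 := by
    have h1 : (2 : ℝ) - z = 2 * (1 - z / 2) := by ring
    rw [h1, Real.log_mul (by norm_num) (by linarith)]
    have h2 := Real.log_le_sub_one_of_pos (x := 1 - z / 2) (by linarith)
    linarith
  have hl2 := Real.log_two_lt_d9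
  have hpos : 0 < 1 + 1 / (x - 1) := by positivity
  have key : Real.log (2 - z) ≤ i * Real.log (1 + 1 / (x - 1)) := by
    have h1 : (i : ℝ) * (2 / (2 * x - 1)) ≤ i * Real.log (1 + 1 / (x - 1)) :=
      mul_le_mul_of_nonneg_left hlog (Nat.cast_nonneg _)
    have h2 : (i : ℝ) * (2 / (2 * x - 1)) = 2 * i / (2 * x - 1) := by ring
    linarith
  have h1 : 2 - z ≤ (1 + 1 / (x - 1)) ^ i := by
    rw [← Real.log_pow] at key
    exact (Real.log_le_log_iff (by linarith) (pow_pos hpos i)).1 key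
  rw [e1, inv_pow, inv_mul_le_iff₀ (pow_pos hpos i), mul_one]
  exact h1

/-- the numerical condition for `x = 0.72 m - 1` -/
lemma pow_cond {x : ℝ} (hm : 14 ≤ m) (hx : x = 0.72 * m - 1) :
    ∃ i j : ℕ, i + j + 2 ≤ m ∧ (1 - 1 / x) ^ i + (1 - 1 / x) ^ j ≤ 1 := by
  have hm' : (14 : ℝ) ≤ m := by exact_mod_cast hm
  have hx1 : 1 < x := by rw [hx]; linarith
  obtain ⟨i, hi | hi⟩ : ∃ i, m = 2 * i + 2 ∨ m = 2 * i + 3 := ⟨(m - 2) / 2, by omega⟩
  · refine ⟨i, i, by omega, ?_⟩
    have h1 : (m : ℝ) = 2 * i + 2 := by exact_mod_cast hi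
    have h0 : (6 : ℝ) ≤ i := by exact_mod_cast (by omega : 6 ≤ i)
    have h2 := pow_aux (x := x) (z := 0) i hx1 (by norm_num) (by
      have e : 2 * x - 1 = 2.88 * i - 0.12 := by rw [hx, h1]; ring
      rw [e, zero_div, add_zero, le_div_iff₀ (by linarith)]
      linarith)
    linarith
  · refine ⟨i, i + 1, by omega, ?_⟩
    have h1 : (m : ℝ) = 2 * i + 3 := by exact_mod_cast hi
    have h0 : (6 : ℝ) ≤ i := by exact_mod_cast (by omega : 6 ≤ i)
    have hx0 : 0 < x := by linarith
    have h2 := pow_aux (x := x) (z := 1 / x) i hx1 (by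
        rw [div_le_one hx0]
        linarith) (by
      have e : 2 * x - 1 = 2.88 * i + 1.32 := by rw [hx, h1]; ring
      have e2 : 1 / x / 2 = 1 / (2.88 * i + 2.32) := by
        rw [div_div, hx, h1]
        congr 1
        ring
      rw [e, e2]
      have h3 : (0 : ℝ) < 2.88 * i + 1.32 := by linarith
      have h4 : (0 : ℝ) < 2.88 * i + 2.32 := by linarith
      have h5 : 2 * (i : ℝ) / (2.88 * i + 1.32) + 1 / (2.88 * i + 2.32) =
          (2 * i * (2.88 * i + 2.32) + (2.88 * i + 1.32)) / ((2.88 * i + 1.32) * (2.88 * i + 2.32)) := by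
        field_simp
      rw [h5, le_div_iff₀ (mul_pos h3 h4)]
      nlinarith)
    have h3 : (1 - 1 / x) ^ i + (1 - 1 / x) ^ (i + 1) = (1 - 1 / x) ^ i * (2 - 1 / x) := by ring
    rw [h3]
    exact h2

/-- the size of a side for `x = 0.72 m - 1` -/
lemma side_x {x ε : ℝ} (hm : 14 ≤ m) (hk : 1 ≤ k) (hcl : NoCl A m)
    (hout : ∀ v, (Finset.univ.filter fun u => A v u).card = k)
    (hin : ∀ v, (Finset.univ.filter fun u => A u v).card = k)
    (O S : Finset V) (hO : O.Nonempty) (e : ℕ) (hS : S.card + e ≤ k) (hε : 0 < ε) (hεe : ε ≤ e)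
    (hx : x = 0.72 * m - 1) (hcut : ∀ a ∈ O, ∀ b, A a b → b ∈ O ∨ b ∈ S) :
    x * (k - ε / 2) ≤ O.card + k * S.card / ε * (1 + 1 / (x - 1)) := by
  have hk0 : (0 : ℝ) < k := by exact_mod_cast (by omega : 0 < k)
  have hm' : (14 : ℝ) ≤ m := by exact_mod_cast hm
  have hek : (e : ℝ) ≤ k := by exact_mod_cast (by omega : e ≤ k)
  have hx1 : 1 < x := by rw [hx]; linarith
  have hx0 : 0 < x := by linarith
  obtain ⟨i, j, hij, hG⟩ := pow_cond hm hx
  have hr : 0 < 1 - ε / (2 * k) := by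
    rw [sub_pos, div_lt_one (by linarith)]
    linarith
  have hC : 0 < x * (1 - ε / (2 * k)) := mul_pos hx0 hr
  have aux : ∀ r : ℝ, r ≠ 0 → 1 - 1 / x = 1 - 1 / (x * r) * r := fun r hr => by field_simp
  have hq := aux _ hr.ne'
  have hq0 : 0 < 1 - 1 / x := by
    rw [sub_pos, div_lt_one hx0]
    exact hx1
  have hG' : ((1 - 1 / x) ^ i + (1 - 1 / x) ^ j) * (1 - 1 / (x * (1 - ε / (2 * k))) * (e / k)) ≤ 1 := by
    have h1 : 0 ≤ (1 - 1 / x) ^ i + (1 - 1 / x) ^ j := add_nonneg (pow_nonneg hq0.le _) (pow_nonneg hq0.le _)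
    have h2 : 0 ≤ 1 / (x * (1 - ε / (2 * k))) * (e / k) := by positivity
    nlinarith
  have h := side (C := x * (1 - ε / (2 * k))) (q := 1 - 1 / x) (ε := ε) i j hij hk hcl hout hin O S hO e hS hε hεe hC
    hq hq0 hG' hcut
  have e1 : x * (1 - ε / (2 * k)) * k = x * (k - ε / 2) := by
    field_simp
  have hx1' : x - 1 ≠ 0 := by linarith
  have e2 : (k : ℝ) * S.card / (ε * (1 - 1 / x)) = k * S.card / ε * (1 + 1 / (x - 1)) := by
    have h3 : (1 : ℝ) - 1 / x = (x - 1) / x := by field_simp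
    have h4 : 1 + 1 / (x - 1) = x / (x - 1) := by field_simp; ring
    rw [h3, h4]
    field_simp
  rw [e1, e2] at h
  exact h

/-- **large girth, excess at least three**: there are no such cuts if `50 k + 280 ≤ 33 m` -/
theorem no3 [Nonempty V] (hm : 41 ≤ m) (hkm : 50 * k + 280 ≤ 33 * m) (hcl : NoCl A m)
    (hout : ∀ v, (Finset.univ.filter fun u => A v u).card = k)
    (hin : ∀ v, (Finset.univ.filter fun u => A u v).card = k)
    (O S U : Finset V) (hO : O.Nonempty) (hU : U.Nonempty) (hS : S.card + 3 ≤ k)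
    (hn : O.card + S.card + U.card = Fintype.card V)
    (hcO : ∀ a ∈ O, ∀ b, A a b → b ∈ O ∨ b ∈ S) (hcU : ∀ b ∈ U, ∀ a, A a b → a ∈ U ∨ a ∈ S) :
    m * k + 1 ≤ Fintype.card V := by
  by_contra hcon
  obtain ⟨x, hx⟩ : ∃ x : ℝ, x = 0.72 * m - 1 := ⟨_, rfl⟩
  have hm' : (41 : ℝ) ≤ m := by exact_mod_cast hm
  have hx1 : 28.52 ≤ x := by rw [hx]; linarith
  have hmx : (m : ℝ) = 25 / 18 * (x + 1) := by rw [hx]; ring
  have hkx : 12 / 11 * (k : ℝ) + 281 / 55 ≤ x := by
    have : (50 : ℝ) * k + 280 ≤ 33 * m := by exact_mod_cast hkm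
    rw [hx]
    linarith
  have hn' : (O.card : ℝ) + S.card + U.card ≤ m * k := by
    have h1 : O.card + S.card + U.card ≤ m * k := by omega
    exact_mod_cast h1
  obtain ⟨s, hs⟩ : ∃ s : ℝ, s = S.card := ⟨_, rfl⟩
  have hs0 : 0 ≤ s := by rw [hs]; exact Nat.cast_nonneg _
  have hsk : s ≤ k - 3 := by
    have : (S.card : ℝ) + 3 ≤ k := by exact_mod_cast hS
    rw [hs]; linarith
  obtain ⟨y, hy⟩ : ∃ y : ℝ, y = 1 / (x - 1) := ⟨_, rfl⟩
  have hy0 : 0 ≤ y := by rw [hy]; exact div_nonneg zero_le_one (by linarith)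
  have hy1 : y ≤ 1 / 27.5 := by
    rw [hy]
    exact one_div_le_one_div_of_le (by norm_num) (by linarith)
  have hyk : y * (k - 3) ≤ 11 / 12 := by
    rw [hy, one_div, inv_mul_le_iff₀ (by linarith)]
    linarith
  have hk3 : (3 : ℝ) ≤ k := by exact_mod_cast (by omega : 3 ≤ k)
  have key : ∀ ε : ℝ, 0 < ε → ε ≤ 3 →
      2 * (x * (k - ε / 2)) + s ≤ m * k + 2 * (k * s / ε * (1 + y)) := by
    intro ε h1 h2
    have g1 := side_x (ε := ε) (by omega) (by omega) hcl hout hin O S hO 3 hS h1 (by push_cast; linarith) hx hcO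
    have g2 := side_x (ε := ε) (A := fun a b => A b a) (by omega) (by omega) (CUT_.nocl_flip hcl) hin hout U S hU 3
      hS h1 (by push_cast; linarith) hx hcU
    rw [← hs, ← hy] at g1 g2
    rw [← hs] at hn'
    linarith
  rcases Nat.lt_or_ge k 8 with h8 | h8
  · have h1 := key 1 one_pos (by norm_num)
    rw [div_one] at h1
    have h2 : (k : ℝ) * s * (1 + y) ≤ k * (k - 3) * (1 + y) := by gcongr
    rw [hmx] at h1
    have hk7 : 3 ≤ k := by omega
    interval_cases k <;> push_cast at * <;> linarith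
  · have h1 := key 3 (by norm_num) (le_refl _)
    have h2 : s * (2 * k / 3 * (1 + y) - 1) ≤ (k - 3) * (2 * k / 3 * (1 + y) - 1) := by
      have : (8 : ℝ) ≤ k := by exact_mod_cast h8
      apply mul_le_mul_of_nonneg_right hsk
      nlinarith
    have h3 : 2 * ((k : ℝ) * s / 3 * (1 + y)) - s = s * (2 * k / 3 * (1 + y) - 1) := by ring
    have h4 : 2 * (x * (k - 3 / 2)) ≤ m * k + (k - 3) * (2 * k / 3 * (1 + y) - 1) := by linarith
    rw [hmx] at h4
    rcases Nat.lt_or_ge k 22 with h22 | h22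
    · interval_cases k <;> push_cast at * <;> linarith
    · have h5 : (k : ℝ) * (y * (k - 3)) ≤ k * (11 / 12) := by gcongr
      have h6 : (22 : ℝ) ≤ k := by exact_mod_cast h22
      have h7 : (11 / 18 * (k : ℝ) - 3) * (12 / 11 * k + 281 / 55) ≤ (11 / 18 * (k : ℝ) - 3) * x := by
        apply mul_le_mul_of_nonneg_left hkx
        linarith
      nlinarith

/-- **large girth**: the conjecture for `50 k + 280 ≤ 33 m`, `m ≥ 41` -/
theorem lg1 (V : Type) [Fintype V] [Nonempty V] (A : V → V → Prop) (k m : ℕ) (hk : 1 ≤ k) (hm : 41 ≤ m)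
    (hkm : 50 * k + 280 ≤ 33 * m) (hout : ∀ v, (Finset.univ.filter fun u => A v u).card = k)
    (hin : ∀ v, (Finset.univ.filter fun u => A u v).card = k) (hcl : NoCl A m) :
    m * k + 1 ≤ Fintype.card V := by
  obtain ⟨c, hck, hconn, O, S, U, hO, hU, hS, -, -, hn, hcO, hcU⟩ :=
    CUT_.exists_cut (k := k) hk (LAY_.anti hcl (by omega)) hout hin
  rcases Nat.lt_or_ge (c + 2) k with h | h
  · exact no3 hm hkm hcl hout hin O S U hO hU (by omega) hn hcO hcU
  · exact e2y_conn V A k c m hk (by omega) (by omega) hout hin hcl hconn h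

/-- **large girth**, as in the problem -/
theorem topLG1 (V : Type) [Finite V] [Nonempty V] (G : Digraph V) (k g : ℕ)
    (hout : ∀ v, Nat.card {u // G.Adj v u} = k) (hin : ∀ v, Nat.card {u // G.Adj u v} = k)
    (hgirth : EM.GirthGe G g) (hg : 42 ≤ g) (hkg : 50 * k + 313 ≤ 33 * g) :
    k * (g - 1) + 1 ≤ Nat.card V := by
  have := Fintype.ofFinite V
  have hpos : 1 ≤ Nat.card V := by
    rw [Nat.card_eq_fintype_card]
    exact Fintype.card_pos
  rcases Nat.eq_zero_or_pos k with hk | hk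
  · rw [hk, zero_mul]
    omega
  obtain ⟨m, rfl⟩ : ∃ m, g = m + 1 := ⟨g - 1, by omega⟩
  have h := lg1 V G.Adj k m hk (by omega) (by omega) (Top_.out_card hout) (Top_.in_card hin) (Top_.noCl hgirth)
  rw [Nat.card_eq_fintype_card, Nat.add_sub_cancel, Nat.mul_comm]
  exact h

/-- the conjecture for connectivity at least `k - 2` and `k ≤ 2 g + 1`, as in the problem -/
theorem topE2 (V : Type) [Finite V] [Nonempty V] (G : Digraph V) (k g c : ℕ)
    (hout : ∀ v, Nat.card {u // G.Adj v u} = k) (hin : ∀ v, Nat.card {u // G.Adj u v} = k)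
    (hgirth : EM.GirthGe G g) (hg : 3 ≤ g) (hkg : k ≤ 2 * g + 1) (hc : k ≤ c + 2)
    (hconn : ∀ S : Set V, Nat.card S < c → ∀ u v : V, u ∉ S → v ∉ S →
      Relation.ReflTransGen (fun a b => G.Adj a b ∧ b ∉ S) u v) :
    k * (g - 1) + 1 ≤ Nat.card V := by
  have := Fintype.ofFinite V
  have hpos : 1 ≤ Nat.card V := by
    rw [Nat.card_eq_fintype_card]
    exact Fintype.card_pos
  rcases Nat.eq_zero_or_pos k with hk | hk
  · rw [hk, zero_mul]
    omega
  obtain ⟨m, rfl⟩ : ∃ m, g = m + 1 := ⟨g - 1, by omega⟩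
  have h := e2y_conn V G.Adj k c m hk (by omega) (by omega) (Top_.out_card hout) (Top_.in_card hin)
    (Top_.noCl hgirth) (Top_.conn hconn) hc
  rw [Nat.card_eq_fintype_card, Nat.add_sub_cancel, Nat.mul_comm]
  exact h

end LG_

end Pool.Agent.Lib.MP_83608f_co.CN
end
end

section
/-! MP_83608f_co, part CN, module LIMA2 (helper58): balls in digraphs with minimum out-degree `r` and without closed walks
of length `1, ..., m` (for the asymptotic theorem of helper16).

* `ball_half`: a ball of radius `a ≤ m/2` has at least `(a - 21) r` vertices;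
* `ch_add`: there are at least `(m - 44) r` vertices;
* `ball_all`: a ball of radius `j ≤ m` has at least `(j - 45) r` vertices. -/
set_option autoImplicit false

open Classical

noncomputable section

namespace Pool.Agent.Lib.MP_83608f_co.CN

open Pool.Agent.Lib.MP_83608f_co.EM (Wk)

namespace LIMA2_

variable {V : Type} [Fintype V] {A : V → V → Prop} {m r : ℕ}

lemma num (hm : 40 ≤ m) : (0.12 : ℝ) * m ≤ (1 - 1 / (0.72 * m - 1)) * (0.9 * (0.72 * m - 1) - m / 2) := by
  have hm' : (40 : ℝ) ≤ m := by exact_mod_cast hm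
  obtain ⟨y, hy⟩ : ∃ y : ℝ, y = m := ⟨_, rfl⟩
  rw [← hy] at hm' ⊢
  have hx : (0 : ℝ) < 0.72 * y - 1 := by linarith
  have e1 : (1 : ℝ) - 1 / (0.72 * y - 1) = (0.72 * y - 2) / (0.72 * y - 1) := by
    field_simp
    ring
  rw [e1, div_mul_eq_mul_div, le_div_iff₀ hx]
  nlinarith

/-- the growth of a layer -/
lemma step (hr : 1 ≤ r) (hcl : NoCl A m) (hm : 40 ≤ m) (Q : Finset V)
    (hQ : ∀ u ∈ Q, r ≤ (Q.filter fun v => A u v).card) (x : V) (hx : x ∈ Q) (a : ℕ)
    (hT : ((LAY_.cb (DCH_.ind A Q) x (a + 1)).card : ℝ) ≤ m * r / 2) :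
    (r : ℝ) - 125 / (3 * m) * ((LAY_.cb (DCH_.ind A Q) x (a + 1)).card - (LAY_.cb (DCH_.ind A Q) x a).card) ≤
      (LAY_.cb (DCH_.ind A Q) x (a + 2)).card - (LAY_.cb (DCH_.ind A Q) x (a + 1)).card := by
  classical
  obtain ⟨P, hP⟩ : ∃ P, P = LAY_.cb (DCH_.ind A Q) x a := ⟨_, rfl⟩
  obtain ⟨T, hTd⟩ : ∃ T, T = LAY_.cb (DCH_.ind A Q) x (a + 1) := ⟨_, rfl⟩
  obtain ⟨R, hR⟩ : ∃ R, R = LAY_.cb (DCH_.ind A Q) x (a + 2) := ⟨_, rfl⟩
  have hPT : P ⊆ T := by
    rw [hP, hTd]
    exact LAY_.cb_sub x a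
  have hTR : T ⊆ R := by
    rw [hTd, hR]
    exact LAY_.cb_sub x (a + 1)
  have hTQ : T ⊆ Q := by
    rw [hTd]
    exact DCH_.cb_subT Q x hx _
  have hPQ : ∀ u ∈ P, ∀ v ∈ Q, A u v → v ∈ T := by
    intro u hu v hv h
    rw [hP] at hu
    rw [hTd]
    exact DCH_.cb_next Q x hx a u hu v hv h
  have hTQ2 : ∀ u ∈ T, ∀ v ∈ Q, A u v → v ∈ R := by
    intro u hu v hv h
    rw [hTd] at hu
    rw [hR]
    exact DCH_.cb_next Q x hx (a + 1) u hu v hv h
  rw [← hP, ← hTd, ← hR]
  rw [← hTd] at hT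
  have hne : T.Nonempty := ⟨x, by
    rw [hTd]
    exact LAY_.mem_cb_self x _⟩
  obtain ⟨h, hh⟩ : ∃ h : ℕ, h = (R \ T).card := ⟨_, rfl⟩
  obtain ⟨L, hL⟩ : ∃ L : ℕ, L = (T \ P).card := ⟨_, rfl⟩
  have eh : (R.card : ℝ) - T.card = h := by
    have h2 := Finset.card_sdiff_add_card_eq_card hTR
    rw [← hh] at h2
    have h3 : (h : ℝ) + T.card = R.card := by exact_mod_cast h2
    linarith
  have eL : (T.card : ℝ) - P.card = L := by
    have h2 := Finset.card_sdiff_add_card_eq_card hPT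
    rw [← hL] at h2
    have h3 : (L : ℝ) + P.card = T.card := by exact_mod_cast h2
    linarith
  rw [eh, eL]
  have hm' : (40 : ℝ) ≤ m := by exact_mod_cast hm
  have hL0 : (0 : ℝ) ≤ L := Nat.cast_nonneg _
  have hc0 : (0 : ℝ) ≤ 125 / (3 * m) := by positivity
  rcases Nat.lt_or_ge h r with hlt | hge
  swap
  · have h2 : (r : ℝ) ≤ h := by exact_mod_cast hge
    have h3 := mul_nonneg hc0 hL0
    linarith
  -- now `h < r`
  have hr' : (1 : ℝ) ≤ r := by exact_mod_cast hr
  have hh0 : (0 : ℝ) ≤ h := Nat.cast_nonneg _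
  have hhr : (h : ℝ) + 1 ≤ r := by exact_mod_cast hlt
  obtain ⟨e, he⟩ : ∃ e : ℝ, e = r - h := ⟨_, rfl⟩
  have he1 : 1 ≤ e := by rw [he]; linarith
  obtain ⟨ε, hε⟩ : ∃ ε : ℝ, ε = min e (r / 5) := ⟨_, rfl⟩
  have hε0 : 0 < ε := by
    rw [hε]
    exact lt_min (by linarith) (by linarith)
  have hεe : ε ≤ e := by rw [hε]; exact min_le_left _ _
  have hε5 : ε ≤ r / 5 := by rw [hε]; exact min_le_right _ _
  obtain ⟨X, hX⟩ : ∃ X : ℝ, X = 0.72 * m - 1 := ⟨_, rfl⟩
  have hX1 : 1 < X := by rw [hX]; linarith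
  have hX0 : 0 < X := by linarith
  obtain ⟨i, j, hij, hG⟩ := LG_.pow_cond (m := m) (by omega) hX
  obtain ⟨C, hC⟩ : ∃ C : ℝ, C = X * (1 - ε / (2 * r)) := ⟨_, rfl⟩
  have hr2 : 0.9 ≤ 1 - ε / (2 * r) := by
    have h2 : ε / (2 * r) ≤ 0.1 := by
      rw [div_le_iff₀ (by linarith)]
      linarith
    linarith
  have hC0 : 0 < C := by
    rw [hC]
    exact mul_pos hX0 (by linarith)
  obtain ⟨q, hq⟩ : ∃ q : ℝ, q = 1 - 1 / X := ⟨_, rfl⟩
  have hq0 : 0 < q := by
    rw [hq, sub_pos, div_lt_one hX0]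
    exact hX1
  have hq1 : q = 1 - 1 / C * (1 - ε / (2 * r)) := by
    have aux : ∀ y : ℝ, y ≠ 0 → 1 - 1 / X = 1 - 1 / (X * y) * y := fun y hy => by field_simp
    rw [hq, hC]
    exact aux _ (by linarith)
  rw [← hq] at hG
  have hG' : (q ^ i + q ^ j) * (1 - 1 / C * (e / r)) ≤ 1 := by
    have h1 : 0 ≤ q ^ i + q ^ j := add_nonneg (pow_nonneg hq0.le _) (pow_nonneg hq0.le _)
    have h2 : 0 ≤ 1 / C * (e / r) := by positivity
    nlinarith
  have hdch := dch (A := A) (m := m) (K := r) (e := e) (ε := ε) (γ := 1 / C) (q := q)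
    (lam := 1 / (ε * q)) (d := fun u => if u ∈ T \ P then e else (r : ℝ)) hε0 hεe
    (by rw [he]; linarith) (by
      intro u
      show e ≤ if u ∈ T \ P then e else (r : ℝ)
      split_ifs
      · exact le_refl _
      · rw [he]; linarith) (by positivity) (by
      intro u
      show (if u ∈ T \ P then e else (r : ℝ)) ≤ r
      split_ifs
      · rw [he]; linarith
      · exact le_refl _) (by positivity) hq1 hq0 (by field_simp) hcl i j hij hG' T hne
  obtain ⟨u, hu, hu2⟩ := hdch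
  -- the degree in `T`
  have hdu : (if u ∈ T \ P then e else (r : ℝ)) ≤ ((T.filter fun v => A u v).card : ℝ) := by
    have h1 := hQ u (hTQ hu)
    split_ifs with hc
    · have h2 : (Q.filter fun v => A u v) ⊆ (T.filter fun v => A u v) ∪ (R \ T) := by
        intro v hv
        rw [Finset.mem_filter] at hv
        rw [Finset.mem_union, Finset.mem_filter, Finset.mem_sdiff]
        by_cases hvT : v ∈ T
        · exact Or.inl ⟨hvT, hv.2⟩
        · exact Or.inr ⟨hTQ2 u hu v hv.1 hv.2, hvT⟩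
      have h3 := h1.trans ((Finset.card_le_card h2).trans (Finset.card_union_le _ _))
      rw [← hh] at h3
      have h4 : (r : ℝ) ≤ ((T.filter fun v => A u v).card : ℝ) + h := by exact_mod_cast h3
      rw [he]
      linarith
    · have huP : u ∈ P := by
        by_contra huP
        exact hc (Finset.mem_sdiff.2 ⟨hu, huP⟩)
      have h2 : (Q.filter fun v => A u v) ⊆ (T.filter fun v => A u v) := by
        intro v hv
        rw [Finset.mem_filter] at hv ⊢
        exact ⟨hPQ u huP v hv.1 hv.2, hv.2⟩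
      exact_mod_cast h1.trans (Finset.card_le_card h2)
  have hdu0 : 0 < (if u ∈ T \ P then e else (r : ℝ)) := by
    split_ifs
    · linarith
    · linarith
  have hmu : (r : ℝ) ≤ 1 / C * mu (1 / (ε * q)) r (fun u => if u ∈ T \ P then e else (r : ℝ)) T := by
    have h1 : (r : ℝ) * (if u ∈ T \ P then e else (r : ℝ)) ≤
        1 / C * mu (1 / (ε * q)) r (fun u => if u ∈ T \ P then e else (r : ℝ)) T *
          (if u ∈ T \ P then e else (r : ℝ)) := by
      refine le_trans ?_ hu2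
      exact mul_le_mul_of_nonneg_left hdu (by linarith)
    exact le_of_mul_le_mul_right h1 hdu0
  rw [DCH_.mu_eq] at hmu
  have hdf : DCH_.df r (fun u => if u ∈ T \ P then e else (r : ℝ)) T = h * L := by
    unfold DCH_.df
    have h1 : ∀ u ∈ T, (r : ℝ) - (if u ∈ T \ P then e else (r : ℝ)) = if u ∈ T \ P then (h : ℝ) else 0 := by
      intro u _
      split_ifs
      · rw [he]; ring
      · ring
    rw [Finset.sum_congr rfl h1, ← Finset.sum_filter]
    have h2 : (T.filter fun u => u ∈ T \ P) = T \ P := by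
      ext u
      rw [Finset.mem_filter, Finset.mem_sdiff]
      tauto
    rw [h2, Finset.sum_const, nsmul_eq_mul, ← hL]
    ring
  rw [hdf] at hmu
  -- `|T| + h L / (ε q) ≥ X (r - ε/2)`
  have h1 : C * r ≤ T.card + 1 / (ε * q) * (h * L) := by
    have h2 := mul_le_mul_of_nonneg_left hmu hC0.le
    rwa [← mul_assoc, mul_one_div_cancel hC0.ne', one_mul] at h2
  have h2 : 0.9 * X * r ≤ C * r := by
    apply mul_le_mul_of_nonneg_right _ (by linarith)
    rw [hC]
    nlinarith
  have h3 : (0.9 * X - m / 2) * r ≤ 1 / (ε * q) * (h * L) := by linarith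
  have h4 : ε * q * ((0.9 * X - m / 2) * r) ≤ h * L := by
    have h5 := mul_le_mul_of_nonneg_left h3 (mul_pos hε0 hq0).le
    have h6 : ε * q * (1 / (ε * q) * (h * L)) = h * L := by
      have := (mul_pos hε0 hq0).ne'
      field_simp
    rwa [h6] at h5
  have h5 : (0.12 : ℝ) * m ≤ q * (0.9 * X - m / 2) := by
    rw [hq, hX]
    exact num hm
  have h6 : ε * r * (0.12 * m) ≤ h * L := by
    refine le_trans ?_ h4
    have h7 := mul_le_mul_of_nonneg_left h5 (mul_pos hε0 (by linarith : (0 : ℝ) < r)).le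
    linarith
  have h7 : (h : ℝ) * L ≤ r * L := mul_le_mul_of_nonneg_right (by linarith) hL0
  have h8 : ε * (0.12 * m) ≤ L := by
    have h9 : (r : ℝ) * (ε * (0.12 * m)) ≤ r * L := by linarith
    exact le_of_mul_le_mul_left h9 (by linarith)
  have h9 : 5 * ε ≤ 125 / (3 * m) * L := by
    have h10 := mul_le_mul_of_nonneg_left h8 hc0
    have h11 : 125 / (3 * (m : ℝ)) * (ε * (0.12 * m)) = 5 * ε := by
      field_simp
      ring
    linarith
  rcases min_choice e (r / 5 : ℝ) with h10 | h10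
  · rw [← hε] at h10
    rw [h10, he] at h9
    rw [he] at he1
    linarith
  · rw [← hε] at h10
    rw [h10] at h9
    linarith

/-- the sum of the layers -/
lemma sum (hr : 1 ≤ r) (hcl : NoCl A m) (hm : 40 ≤ m) (Q : Finset V)
    (hQ : ∀ u ∈ Q, r ≤ (Q.filter fun v => A u v).card) (x : V) (hx : x ∈ Q) (a : ℕ) :
    ((LAY_.cb (DCH_.ind A Q) x a).card : ℝ) ≤ m * r / 2 →
    ((a : ℝ) + 1) * r + 1 - 125 / (3 * m) * ((LAY_.cb (DCH_.ind A Q) x a).card - 1) ≤
      (LAY_.cb (DCH_.ind A Q) x (a + 1)).card := by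
  induction a with
  | zero =>
    intro _
    have h1 := DCH_.cb_one hcl (by omega) Q x hx
    have h2 : (r : ℝ) ≤ ((Q.filter fun u => A x u).card : ℝ) := by exact_mod_cast hQ x hx
    have h3 : (LAY_.cb (DCH_.ind A Q) x 0).card = 1 := by
      rw [LAY_.cb, Finset.card_singleton]
    rw [h3]
    push_cast
    rw [zero_add] at *
    linarith
  | succ a ih =>
    intro h
    have h0 : ((LAY_.cb (DCH_.ind A Q) x a).card : ℝ) ≤ (LAY_.cb (DCH_.ind A Q) x (a + 1)).card := by
      exact_mod_cast Finset.card_le_card (LAY_.cb_sub x a)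
    have h1 := ih (h0.trans h)
    have h2 := step hr hcl hm Q hQ x hx a h
    have e : a + 1 + 1 = a + 2 := rfl
    rw [e]
    push_cast
    linarith

/-- **balls of radius at most `m / 2`** -/
theorem ball_half (hr : 1 ≤ r) (hcl : NoCl A m) (Q : Finset V)
    (hQ : ∀ u ∈ Q, r ≤ (Q.filter fun v => A u v).card) (x : V) (hx : x ∈ Q) (a : ℕ) (ha : 2 * a ≤ m) :
    ((a : ℝ) - 21) * r ≤ (LAY_.cb (DCH_.ind A Q) x a).card := by
  have hr' : (1 : ℝ) ≤ r := by exact_mod_cast hr
  have hc : (0 : ℝ) ≤ (LAY_.cb (DCH_.ind A Q) x a).card := Nat.cast_nonneg _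
  rcases Nat.lt_or_ge a 22 with h1 | h1
  · have h2 : (a : ℝ) ≤ 21 := by exact_mod_cast (by omega : a ≤ 21)
    nlinarith
  obtain ⟨b, rfl⟩ : ∃ b, a = b + 1 := ⟨a - 1, by omega⟩
  have hm : (0 : ℝ) < m := by exact_mod_cast (by omega : 0 < m)
  have ha' : 2 * ((b : ℝ) + 1) ≤ m := by exact_mod_cast ha
  have hb0 : ((LAY_.cb (DCH_.ind A Q) x b).card : ℝ) ≤ (LAY_.cb (DCH_.ind A Q) x (b + 1)).card := by
    exact_mod_cast Finset.card_le_card (LAY_.cb_sub x b)
  rcases le_or_gt ((LAY_.cb (DCH_.ind A Q) x b).card : ℝ) (m * r / 2) with h2 | h2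
  · have h3 := sum hr hcl (by omega) Q hQ x hx b h2
    have h4 : 125 / (3 * (m : ℝ)) * ((LAY_.cb (DCH_.ind A Q) x b).card - 1) ≤ 21 * r := by
      have h5 : 125 / (3 * (m : ℝ)) * ((LAY_.cb (DCH_.ind A Q) x b).card - 1) ≤
          125 / (3 * (m : ℝ)) * (m * r / 2) :=
        mul_le_mul_of_nonneg_left (by linarith) (by positivity)
      have h6 : 125 / (3 * (m : ℝ)) * (m * r / 2) = 125 / 6 * r := by
        field_simp
        ring
      rw [h6] at h5
      linarith
    push_cast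
    linarith
  · push_cast
    nlinarith

/-- **the Caccetta-Häggkvist bound with an additive constant** -/
theorem ch_add (hr : 1 ≤ r) (hcl : NoCl A m) (Q : Finset V) (hne : Q.Nonempty)
    (hQ : ∀ u ∈ Q, r ≤ (Q.filter fun v => A u v).card) : ((m : ℝ) - 44) * r ≤ Q.card := by
  have hr' : (1 : ℝ) ≤ r := by exact_mod_cast hr
  obtain ⟨i, hi⟩ : ∃ i, i = m / 2 := ⟨_, rfl⟩
  have hi2 : i + i ≤ m := by omega
  have hi3 : (m : ℝ) ≤ 2 * i + 1 := by exact_mod_cast (by omega : m ≤ 2 * i + 1)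
  have h1 : ∀ v ∈ Q, ((LAY_.cb (DCH_.ind A Q) v i).card : ℝ) +
      ((LAY_.cb (fun a b => DCH_.ind A Q b a) v i).card : ℝ) ≤ Q.card + 1 := by
    intro v hv
    have h2 := DCH_.count (K := 0) (d := fun _ => 0) (lam := 0) (le_refl _) (fun _ => le_refl _) hcl i i hi2 Q v hv
    rw [DCH_.mu_eq, DCH_.mu_eq, DCH_.mu_eq] at h2
    linarith
  have h2 := DCH_.flip (A := A) (K := 0) (d := fun _ => 0) (lam := 0) Q i
  have h3 : ∀ S : Finset V, mu 0 0 (fun _ => 0) S = (S.card : ℝ) := by
    intro S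
    rw [DCH_.mu_eq]
    ring
  simp only [h3] at h2
  have h4 : ∑ v ∈ Q, ((Q ∩ LAY_.cb (fun a b => DCH_.ind A Q b a) v i).card : ℝ) =
      ∑ v ∈ Q, ((LAY_.cb (DCH_.ind A Q) v i).card : ℝ) := by
    have h5 : ∀ v ∈ Q, Q ∩ LAY_.cb (DCH_.ind A Q) v i = LAY_.cb (DCH_.ind A Q) v i := fun v hv =>
      Finset.inter_eq_right.2 (DCH_.cb_subT Q v hv _)
    have h6 : ∑ v ∈ Q, ((Q ∩ LAY_.cb (DCH_.ind A Q) v i).card : ℝ) =
        ∑ v ∈ Q, ((LAY_.cb (DCH_.ind A Q) v i).card : ℝ) :=
      Finset.sum_congr rfl fun v hv => by rw [h5 v hv]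
    rw [← h6]
    simpa using h2
  have h5 : ∑ v ∈ Q, (((i : ℝ) - 21) * r + ((i : ℝ) - 21) * r) ≤ ∑ v ∈ Q, ((Q.card : ℝ) + 1) := by
    calc ∑ v ∈ Q, (((i : ℝ) - 21) * r + ((i : ℝ) - 21) * r)
        ≤ ∑ v ∈ Q, (((LAY_.cb (DCH_.ind A Q) v i).card : ℝ) + (LAY_.cb (DCH_.ind A Q) v i).card) :=
          Finset.sum_le_sum fun v hv => add_le_add (ball_half hr hcl Q hQ v hv i (by omega))
            (ball_half hr hcl Q hQ v hv i (by omega))
      _ = ∑ v ∈ Q, (((LAY_.cb (DCH_.ind A Q) v i).card : ℝ) +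
          (Q ∩ LAY_.cb (fun a b => DCH_.ind A Q b a) v i).card) := by
          rw [Finset.sum_add_distrib, Finset.sum_add_distrib, h4]
      _ ≤ ∑ v ∈ Q, ((Q.card : ℝ) + 1) := by
          apply Finset.sum_le_sum
          intro v hv
          have h6 := h1 v hv
          have h7 : ((Q ∩ LAY_.cb (fun a b => DCH_.ind A Q b a) v i).card : ℝ) ≤
              (LAY_.cb (fun a b => DCH_.ind A Q b a) v i).card := by
            exact_mod_cast Finset.card_le_card Finset.inter_subset_right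
          linarith
  rw [Finset.sum_const, Finset.sum_const, nsmul_eq_mul, nsmul_eq_mul] at h5
  have h6 : (0 : ℝ) < Q.card := by exact_mod_cast Finset.card_pos.2 hne
  have h7 := le_of_mul_le_mul_left h5 h6
  nlinarith

omit [Fintype V] in
lemma wk_succ {G : Digraph V} {l : ℕ} {u v : V} : Wk G (l + 1) u v ↔ ∃ z, G.Adj u z ∧ Wk G l z v := Iff.rfl

/-- the ball of radius `j` with a long way back to the first layer -/
def ext (A : V → V → Prop) (Q : Finset V) (x : V) (j p r : ℕ) :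
    V ⊕ (Fin p × Fin r) → V ⊕ (Fin p × Fin r) → Prop
  | .inl u, .inl v => u ∈ LAY_.cb (DCH_.ind A Q) x j ∧ v ∈ LAY_.cb (DCH_.ind A Q) x j ∧ A u v
  | .inl u, .inr t => u ∈ LAY_.cb (DCH_.ind A Q) x j ∧ u ∉ LAY_.cb (DCH_.ind A Q) x (j - 1) ∧ (t.1 : ℕ) = 0
  | .inr s, .inr t => (t.1 : ℕ) = s.1 + 1
  | .inr s, .inl v => (s.1 : ℕ) + 1 = p ∧ v ∈ Q ∧ A x v

lemma cb_mono (B : V → V → Prop) (x : V) {a b : ℕ} (h : a ≤ b) : LAY_.cb B x a ⊆ LAY_.cb B x b := by
  induction h with
  | refl => exact Finset.Subset.refl _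
  | step _ ih => exact ih.trans (LAY_.cb_sub x _)

/-- the state `i` steps after the first layer -/
def Inv (A : V → V → Prop) (Q : Finset V) (x : V) (j p r : ℕ) (i : ℕ) : V ⊕ (Fin p × Fin r) → Prop
  | .inl v => v ∈ LAY_.cb (DCH_.ind A Q) x (i + 1)
  | .inr t => j + t.1 ≤ i

lemma inv_step (Q : Finset V) (x : V) (hx : x ∈ Q) (j p i : ℕ) (z z' : V ⊕ (Fin p × Fin r))
    (h : Inv A Q x j p r i z) (hz : ext A Q x j p r z z') : Inv A Q x j p r (i + 1) z' := by
  rcases z with u | s <;> rcases z' with v | t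
  · exact DCH_.cb_next Q x hx (i + 1) u h v (DCH_.cb_subT Q x hx _ hz.2.1) hz.2.2
  · obtain ⟨h1, h2, h3⟩ := hz
    show j + (t.1 : ℕ) ≤ i + 1
    by_contra hcon
    exact h2 (cb_mono _ x (by omega) h)
  · obtain ⟨h1, h2, h3⟩ := hz
    have h4 := DCH_.cb_next Q x hx 0 x (LAY_.mem_cb_self x 0) v h2 h3
    exact cb_mono _ x (by omega) h4
  · have h1 : (t.1 : ℕ) = s.1 + 1 := hz
    have h2 : j + (s.1 : ℕ) ≤ i := h
    show j + (t.1 : ℕ) ≤ i + 1
    omega

lemma inv_walk (Q : Finset V) (x : V) (hx : x ∈ Q) (j p l : ℕ) : ∀ (i : ℕ) (z z' : V ⊕ (Fin p × Fin r)),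
    Inv A Q x j p r i z → Wk (⟨ext A Q x j p r⟩ : Digraph (V ⊕ (Fin p × Fin r))) l z z' →
      Inv A Q x j p r (i + l) z' := by
  induction l with
  | zero =>
    intro i z z' h hw
    have : z = z' := hw
    rw [← this]
    exact h
  | succ l ih =>
    intro i z z' h hw
    obtain ⟨y, hy, hw2⟩ := hw
    have := ih (i + 1) y z' (inv_step Q x hx j p i z y h hy) hw2
    rw [show i + (l + 1) = i + 1 + l by omega]
    exact this

lemma from_inr (Q : Finset V) (x : V) (hx : x ∈ Q) (j p l : ℕ) : ∀ (s : Fin p × Fin r) (z : V ⊕ (Fin p × Fin r)),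
    Wk (⟨ext A Q x j p r⟩ : Digraph (V ⊕ (Fin p × Fin r))) l (.inr s) z →
      (∃ t : Fin p × Fin r, z = .inr t ∧ (t.1 : ℕ) = s.1 + l) ∨
        (p ≤ l + s.1 ∧ Inv A Q x j p r (l + s.1 - p) z) := by
  induction l with
  | zero =>
    intro s z hw
    have : (.inr s : V ⊕ (Fin p × Fin r)) = z := hw
    exact Or.inl ⟨s, this.symm, rfl⟩
  | succ l ih =>
    intro s z hw
    obtain ⟨y, hy, hw2⟩ := hw
    rcases y with v | t
    · obtain ⟨h1, h2, h3⟩ : (s.1 : ℕ) + 1 = p ∧ v ∈ Q ∧ A x v := hy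
      right
      refine ⟨by omega, ?_⟩
      have h4 : Inv A Q x j p r 0 (.inl v) :=
        DCH_.cb_next Q x hx 0 x (LAY_.mem_cb_self x 0) v h2 h3
      have h5 := inv_walk Q x hx j p l 0 _ z h4 hw2
      rw [show l + 1 + (s.1 : ℕ) - p = 0 + l by omega]
      exact h5
    · have h1 : (t.1 : ℕ) = s.1 + 1 := hy
      rcases ih t z hw2 with ⟨t', h2, h3⟩ | ⟨h2, h3⟩
      · exact Or.inl ⟨t', h2, by omega⟩
      · right
        refine ⟨by omega, ?_⟩
        rw [show l + 1 + (s.1 : ℕ) - p = l + t.1 - p by omega]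
        exact h3

lemma from_inl (Q : Finset V) (x : V) (j p l : ℕ) : ∀ (u : V) (z : V ⊕ (Fin p × Fin r)),
    Wk (⟨ext A Q x j p r⟩ : Digraph (V ⊕ (Fin p × Fin r))) l (.inl u) z →
      (∃ v : V, z = .inl v ∧ Wk (⟨A⟩ : Digraph V) l u v) ∨
        (∃ (s : Fin p × Fin r) (a b : ℕ), a + b = l ∧
          Wk (⟨ext A Q x j p r⟩ : Digraph (V ⊕ (Fin p × Fin r))) a (.inl u) (.inr s) ∧
          Wk (⟨ext A Q x j p r⟩ : Digraph (V ⊕ (Fin p × Fin r))) b (.inr s) z) := by
  induction l with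
  | zero =>
    intro u z hw
    have : (.inl u : V ⊕ (Fin p × Fin r)) = z := hw
    exact Or.inl ⟨u, this.symm, rfl⟩
  | succ l ih =>
    intro u z hw
    obtain ⟨y, hy, hw2⟩ := hw
    rcases y with v | t
    · have h1 : A u v := (show _ ∧ _ ∧ A u v from hy).2.2
      rcases ih v z hw2 with ⟨v', h2, h3⟩ | ⟨s, a, b, h2, h3, h4⟩
      · exact Or.inl ⟨v', h2, ⟨v, h1, h3⟩⟩
      · exact Or.inr ⟨s, a + 1, b, by omega, ⟨.inl v, hy, h3⟩, h4⟩
    · exact Or.inr ⟨t, 1, l, by omega, ⟨.inr t, hy, rfl⟩, hw2⟩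

lemma ext_nocl (hcl : NoCl A m) (Q : Finset V) (x : V) (hx : x ∈ Q) (j p : ℕ) (hjp : m < j + p) :
    NoCl (ext A Q x j p r) m := by
  have hinr : ∀ l, 1 ≤ l → l ≤ m → ∀ s : Fin p × Fin r,
      ¬ Wk (⟨ext A Q x j p r⟩ : Digraph (V ⊕ (Fin p × Fin r))) l (.inr s) (.inr s) := by
    intro l h1 h2 s hw
    rcases from_inr Q x hx j p l s _ hw with ⟨t, h3, h4⟩ | ⟨h3, h4⟩
    · have h5 : s = t := Sum.inr.inj h3
      rw [← h5] at h4
      omega
    · have h5 : j + (s.1 : ℕ) ≤ l + s.1 - p := h4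
      omega
  intro l h1 h2 z hw
  rcases z with u | s
  · rcases from_inl Q x j p l u _ hw with ⟨v, h3, h4⟩ | ⟨s, a, b, h3, h4, h5⟩
    · have h5 : u = v := Sum.inl.inj h3
      rw [← h5] at h4
      exact hcl l h1 h2 u h4
    · exact hinr (b + a) (by omega) (by omega) s (h5.trans h4)
  · exact hinr l h1 h2 s hw

lemma ext_deg (Q : Finset V) (hQ : ∀ u ∈ Q, r ≤ (Q.filter fun v => A u v).card) (x : V) (hx : x ∈ Q)
    (j p : ℕ) (hj : 1 ≤ j) (hp : 1 ≤ p) :
    ∀ z ∈ (LAY_.cb (DCH_.ind A Q) x j).disjSum (Finset.univ : Finset (Fin p × Fin r)),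
      r ≤ (((LAY_.cb (DCH_.ind A Q) x j).disjSum (Finset.univ : Finset (Fin p × Fin r))).filter
        fun z' => ext A Q x j p r z z').card := by
  classical
  intro z hz
  -- a layer of new vertices
  have hlay : ∀ (t : Fin p), (∀ b : Fin r, ext A Q x j p r z (.inr (t, b))) →
      r ≤ (((LAY_.cb (DCH_.ind A Q) x j).disjSum (Finset.univ : Finset (Fin p × Fin r))).filter
        fun z' => ext A Q x j p r z z').card := by
    intro t ht
    have h1 : (Finset.univ : Finset (Fin r)).image (fun b => (.inr (t, b) : V ⊕ (Fin p × Fin r))) ⊆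
        (((LAY_.cb (DCH_.ind A Q) x j).disjSum (Finset.univ : Finset (Fin p × Fin r))).filter
        fun z' => ext A Q x j p r z z') := by
      intro y hy
      rw [Finset.mem_image] at hy
      obtain ⟨b, -, rfl⟩ := hy
      rw [Finset.mem_filter]
      exact ⟨by simp, ht b⟩
    have h2 := Finset.card_le_card h1
    rw [Finset.card_image_of_injective _ (fun b b' h => by simpa using h), Finset.card_univ,
      Fintype.card_fin] at h2
    exact h2
  -- old vertices
  have hold : ∀ N : Finset V, N ⊆ LAY_.cb (DCH_.ind A Q) x j → (∀ v ∈ N, ext A Q x j p r z (.inl v)) →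
      N.card ≤ (((LAY_.cb (DCH_.ind A Q) x j).disjSum (Finset.univ : Finset (Fin p × Fin r))).filter
        fun z' => ext A Q x j p r z z').card := by
    intro N hN hN2
    have h1 : N.image (fun v => (.inl v : V ⊕ (Fin p × Fin r))) ⊆
        (((LAY_.cb (DCH_.ind A Q) x j).disjSum (Finset.univ : Finset (Fin p × Fin r))).filter
        fun z' => ext A Q x j p r z z') := by
      intro y hy
      rw [Finset.mem_image] at hy
      obtain ⟨v, hv, rfl⟩ := hy
      rw [Finset.mem_filter]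
      exact ⟨by simpa using hN hv, hN2 v hv⟩
    have h2 := Finset.card_le_card h1
    rwa [Finset.card_image_of_injective _ Sum.inl_injective] at h2
  rcases z with u | s
  · have hu : u ∈ LAY_.cb (DCH_.ind A Q) x j := by simpa using hz
    have huQ := DCH_.cb_subT Q x hx _ hu
    by_cases h : u ∈ LAY_.cb (DCH_.ind A Q) x (j - 1)
    · have h1 : ∀ v ∈ Q.filter (fun v => A u v), v ∈ LAY_.cb (DCH_.ind A Q) x j := by
        intro v hv
        rw [Finset.mem_filter] at hv
        have h2 := DCH_.cb_next Q x hx (j - 1) u h v hv.1 hv.2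
        rwa [show j - 1 + 1 = j by omega] at h2
      refine (hQ u huQ).trans (hold _ (fun v hv => h1 v hv) fun v hv => ?_)
      exact ⟨hu, h1 v hv, (Finset.mem_filter.1 hv).2⟩
    · exact hlay ⟨0, by omega⟩ fun b => ⟨hu, h, rfl⟩
  · by_cases h : (s.1 : ℕ) + 1 = p
    · have h1 : ∀ v ∈ Q.filter (fun v => A x v), v ∈ LAY_.cb (DCH_.ind A Q) x j := by
        intro v hv
        rw [Finset.mem_filter] at hv
        exact cb_mono _ x hj (DCH_.cb_next Q x hx 0 x (LAY_.mem_cb_self x 0) v hv.1 hv.2)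
      refine (hQ x hx).trans (hold _ (fun v hv => h1 v hv) fun v hv => ?_)
      rw [Finset.mem_filter] at hv
      exact ⟨h, hv.1, hv.2⟩
    · have h2 := s.1.2
      exact hlay ⟨s.1 + 1, by omega⟩ fun b => rfl

/-- **all balls of radius at most `m`** -/
theorem ball_all (hr : 1 ≤ r) (hcl : NoCl A m) (Q : Finset V)
    (hQ : ∀ u ∈ Q, r ≤ (Q.filter fun v => A u v).card) (x : V) (hx : x ∈ Q) (j : ℕ) (hj : j ≤ m) :
    ((j : ℝ) - 45) * r ≤ (LAY_.cb (DCH_.ind A Q) x j).card := by
  classical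
  have hr' : (1 : ℝ) ≤ r := by exact_mod_cast hr
  have hc : (0 : ℝ) ≤ (LAY_.cb (DCH_.ind A Q) x j).card := Nat.cast_nonneg _
  rcases Nat.eq_zero_or_pos j with h0 | h0
  · rw [h0]
    push_cast
    have : (0 : ℝ) ≤ (LAY_.cb (DCH_.ind A Q) x 0).card := Nat.cast_nonneg _
    nlinarith
  obtain ⟨p, hp⟩ : ∃ p, p = m + 1 - j := ⟨_, rfl⟩
  have h1 := ch_add (V := V ⊕ (Fin p × Fin r)) (A := ext A Q x j p r) (m := m) hr
    (ext_nocl hcl Q x hx j p (by omega))
    ((LAY_.cb (DCH_.ind A Q) x j).disjSum (Finset.univ : Finset (Fin p × Fin r)))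
    ⟨.inl x, by simpa using LAY_.mem_cb_self x j⟩ (ext_deg Q hQ x hx j p h0 (by omega))
  rw [Finset.card_disjSum, Finset.card_univ, Fintype.card_prod, Fintype.card_fin, Fintype.card_fin] at h1
  push_cast at h1
  have h2 : (p : ℝ) = m + 1 - j := by
    have : p + j = m + 1 := by omega
    have h3 : (p : ℝ) + j = m + 1 := by exact_mod_cast this
    linarith
  rw [h2] at h1
  linarith

end LIMA2_

end Pool.Agent.Lib.MP_83608f_co.CN
end
end

section
/-! MP_83608f_co, part CN, module LIMA1 (helper32): the smallest inner out-degree of a small side of a cut is at most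
`6 k / m`. -/
set_option autoImplicit false

open Classical

noncomputable section

namespace Pool.Agent.Lib.MP_83608f_co.CN

namespace LG_

variable {V : Type} [Fintype V] {A : V → V → Prop} {k m : ℕ}

/-- the size of a side of a cut, in terms of the smallest inner out-degree -/
lemma side_deg {C q ε : ℝ} (i j : ℕ) (hij : i + j + 2 ≤ m) (hk : 1 ≤ k) (hcl : NoCl A m)
    (hout : ∀ v, (Finset.univ.filter fun u => A v u).card = k)
    (hin : ∀ v, (Finset.univ.filter fun u => A u v).card = k)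
    (O S : Finset V) (hO : O.Nonempty) (e : ℕ) (hε : 0 < ε) (hεe : ε ≤ e) (hC : 0 < C)
    (hq : q = 1 - 1 / C * (1 - ε / (2 * k))) (hq0 : 0 < q)
    (hG : (q ^ i + q ^ j) * (1 - 1 / C * (e / k)) ≤ 1)
    (hcut : ∀ a ∈ O, ∀ b, A a b → b ∈ O ∨ b ∈ S)
    (hdeg' : ∀ a ∈ O, e ≤ (O.filter fun v => A a v).card) :
    C * k ≤ O.card + k * S.card / (ε * q) := by
  have hk0 : (0 : ℝ) < k := by exact_mod_cast (by omega : 0 < k)
  have hS0 : (0 : ℝ) ≤ S.card := Nat.cast_nonneg _
  -- out-degrees inside `O`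
  obtain ⟨dO, hdO⟩ : ∃ dO : V → ℝ, dO = fun u => ((O.filter fun v => A u v).card : ℝ) := ⟨_, rfl⟩
  have hdOv : ∀ a, dO a = ((O.filter fun v => A a v).card : ℝ) := fun a => by rw [hdO]
  have hsplit : ∀ a ∈ O, (k : ℝ) ≤ dO a + (S.filter fun v => A a v).card := by
    intro a ha
    have h1 : (Finset.univ.filter fun v => A a v) ⊆
        (O.filter fun v => A a v) ∪ (S.filter fun v => A a v) := by
      intro v hv
      rw [Finset.mem_filter] at hv
      rw [Finset.mem_union, Finset.mem_filter, Finset.mem_filter]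
      rcases hcut a ha v hv.2 with h | h
      · exact Or.inl ⟨h, hv.2⟩
      · exact Or.inr ⟨h, hv.2⟩
    have h2 := (Finset.card_le_card h1).trans (Finset.card_union_le _ _)
    rw [hout a] at h2
    rw [hdOv a]
    exact_mod_cast h2
  have hdeg : ∀ a ∈ O, (e : ℝ) ≤ dO a := by
    intro a ha
    rw [hdOv a]
    exact_mod_cast hdeg' a ha
  have hdegk : ∀ a, dO a ≤ k := by
    intro a
    have h1 : (O.filter fun v => A a v) ⊆ (Finset.univ.filter fun v => A a v) := by
      intro v hv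
      rw [Finset.mem_filter] at hv ⊢
      exact ⟨Finset.mem_univ _, hv.2⟩
    have h2 := Finset.card_le_card h1
    rw [hout a] at h2
    rw [hdOv a]
    exact_mod_cast h2
  have hek : (e : ℝ) ≤ k := by
    obtain ⟨a, ha⟩ := hO
    exact (hdeg a ha).trans (hdegk a)
  -- arcs from `O` to `S`
  have hdefS : ∑ a ∈ O, ((k : ℝ) - dO a) ≤ k * S.card := by
    have h0 : ∑ a ∈ O, ((k : ℝ) - dO a) ≤ ∑ a ∈ O, ((S.filter fun v => A a v).card : ℝ) :=
      Finset.sum_le_sum fun a ha => by linarith [hsplit a ha]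
    have h1 : ∑ a ∈ O, (S.filter fun v => A a v).card = ∑ v ∈ S, (O.filter fun a => A a v).card := by
      simp only [Finset.card_filter]
      exact Finset.sum_comm
    have h2 : ∑ v ∈ S, (O.filter fun a => A a v).card ≤ S.card * k := by
      rw [← smul_eq_mul, ← Finset.sum_const]
      apply Finset.sum_le_sum
      intro v _
      rw [← hin v]
      apply Finset.card_le_card
      intro a ha
      rw [Finset.mem_filter] at ha ⊢
      exact ⟨Finset.mem_univ _, ha.2⟩
    have h3 : (∑ a ∈ O, ((S.filter fun v => A a v).card : ℝ)) ≤ (S.card : ℝ) * k := by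
      rw [← h1] at h2
      exact_mod_cast h2
    linarith
  -- the function `d`
  obtain ⟨d, hd⟩ : ∃ d : V → ℝ, d = fun u => if u ∈ O then dO u else (k : ℝ) := ⟨_, rfl⟩
  have hdO' : ∀ u ∈ O, d u = dO u := fun u hu => by
    rw [hd]
    simp only [if_pos hu]
  have hd1 : ∀ u, (e : ℝ) ≤ d u := by
    intro u
    by_cases hu : u ∈ O
    · rw [hdO' u hu]
      exact hdeg u hu
    · rw [hd]
      simp only [if_neg hu]
      linarith
  have hd2 : ∀ u, d u ≤ k := by
    intro u
    by_cases hu : u ∈ O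
    · rw [hdO' u hu]
      exact hdegk u
    · rw [hd]
      simp only [if_neg hu]
      exact le_refl _
  obtain ⟨lam, hlam⟩ : ∃ lam, lam = 1 / (ε * q) := ⟨_, rfl⟩
  have hlam0 : 0 < lam := by
    rw [hlam]
    exact div_pos one_pos (mul_pos hε hq0)
  have hlq : lam * (ε * q) = 1 := by
    rw [hlam]
    exact div_mul_cancel₀ _ (mul_pos hε hq0).ne'
  have hγ0 : 0 < 1 / C := div_pos one_pos hC
  obtain ⟨u, hu, h1⟩ := dch (A := A) (m := m) (d := d) (K := (k : ℝ)) (e := (e : ℝ)) (ε := ε) (γ := 1 / C)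
    (q := q) (lam := lam) hε hεe hek hd1 hlam0.le hd2 hγ0 hq hq0 hlq hcl i j hij hG O hO
  have h2 : 0 < dO u := by linarith [hdeg u hu]
  rw [hdO' u hu, ← hdOv u] at h1
  have h4 := le_of_mul_le_mul_right h1 h2
  rw [one_div, inv_mul_eq_div, le_div_iff₀ hC, DCH_.mu_eq] at h4
  have h5 : DCH_.df (k : ℝ) d O = ∑ a ∈ O, ((k : ℝ) - dO a) := by
    unfold DCH_.df
    exact Finset.sum_congr rfl fun u hu => by rw [hdO' u hu]
  rw [h5] at h4
  have h6 := mul_le_mul_of_nonneg_left hdefS hlam0.le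
  have h7 : lam * ((k : ℝ) * S.card) = k * S.card / (ε * q) := by
    rw [hlam]
    ring
  rw [h7] at h6
  linarith

/-- the size of a side for `x = 0.72 m - 1`, in terms of the smallest inner out-degree `e ≥ ε` -/
lemma side_deg_x {x ε : ℝ} (hm : 14 ≤ m) (hk : 1 ≤ k) (hcl : NoCl A m)
    (hout : ∀ v, (Finset.univ.filter fun u => A v u).card = k)
    (hin : ∀ v, (Finset.univ.filter fun u => A u v).card = k)
    (O S : Finset V) (hO : O.Nonempty) (e : ℕ) (hε : 0 < ε) (hεe : ε ≤ e)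
    (hx : x = 0.72 * m - 1) (hcut : ∀ a ∈ O, ∀ b, A a b → b ∈ O ∨ b ∈ S)
    (hdeg : ∀ a ∈ O, e ≤ (O.filter fun v => A a v).card) :
    x * (k - ε / 2) ≤ O.card + k * S.card / ε * (1 + 1 / (x - 1)) := by
  have hk0 : (0 : ℝ) < k := by exact_mod_cast (by omega : 0 < k)
  have hm' : (14 : ℝ) ≤ m := by exact_mod_cast hm
  have hek : (e : ℝ) ≤ k := by
    obtain ⟨a, ha⟩ := hO
    have h1 : (O.filter fun v => A a v).card ≤ k := by
      rw [← hout a]
      exact Finset.card_le_card (Finset.filter_subset_filter _ (Finset.subset_univ O))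
    exact_mod_cast (hdeg a ha).trans h1
  have hx1 : 1 < x := by rw [hx]; linarith
  have hx0 : 0 < x := by linarith
  obtain ⟨i, j, hij, hG⟩ := pow_cond hm hx
  have hr : 0 < 1 - ε / (2 * k) := by
    rw [sub_pos, div_lt_one (by linarith)]
    linarith
  have hC : 0 < x * (1 - ε / (2 * k)) := mul_pos hx0 hr
  have aux : ∀ r : ℝ, r ≠ 0 → 1 - 1 / x = 1 - 1 / (x * r) * r := fun r hr => by field_simp
  have hq := aux _ hr.ne'
  have hq0 : 0 < 1 - 1 / x := by
    rw [sub_pos, div_lt_one hx0]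
    exact hx1
  have hG' : ((1 - 1 / x) ^ i + (1 - 1 / x) ^ j) * (1 - 1 / (x * (1 - ε / (2 * k))) * (e / k)) ≤ 1 := by
    have h1 : 0 ≤ (1 - 1 / x) ^ i + (1 - 1 / x) ^ j := add_nonneg (pow_nonneg hq0.le _) (pow_nonneg hq0.le _)
    have h2 : 0 ≤ 1 / (x * (1 - ε / (2 * k))) * (e / k) := by positivity
    nlinarith
  have h := side_deg (C := x * (1 - ε / (2 * k))) (q := 1 - 1 / x) (ε := ε) i j hij hk hcl hout hin O S hO e hε hεe hC
    hq hq0 hG' hcut hdeg
  have e1 : x * (1 - ε / (2 * k)) * k = x * (k - ε / 2) := by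
    field_simp
  have hx1' : x - 1 ≠ 0 := by linarith
  have e2 : (k : ℝ) * S.card / (ε * (1 - 1 / x)) = k * S.card / ε * (1 + 1 / (x - 1)) := by
    have h3 : (1 : ℝ) - 1 / x = (x - 1) / x := by field_simp
    have h4 : 1 + 1 / (x - 1) = x / (x - 1) := by field_simp; ring
    rw [h3, h4]
    field_simp
  rw [e1, e2] at h
  exact h

/-- **the smallest inner out-degree of a small side of a cut is at most `6 k / m`** -/
theorem a1 (hm : 70 ≤ m) (hk : 1 ≤ k) (hcl : NoCl A m)
    (hout : ∀ v, (Finset.univ.filter fun u => A v u).card = k)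
    (hin : ∀ v, (Finset.univ.filter fun u => A u v).card = k)
    (O S : Finset V) (hO : O.Nonempty) (hS : S.card ≤ k) (h2 : 2 * O.card ≤ m * k)
    (hcut : ∀ a ∈ O, ∀ b, A a b → b ∈ O ∨ b ∈ S) (e : ℕ)
    (hdeg : ∀ a ∈ O, e ≤ (O.filter fun v => A a v).card) : m * e ≤ 6 * k := by
  by_contra hcon
  push Not at hcon
  have hk0 : (0 : ℝ) < k := by exact_mod_cast (by omega : 0 < k)
  have hm' : (70 : ℝ) ≤ m := by exact_mod_cast hm
  have hm0 : (0 : ℝ) < m := by linarith
  have hlt : 6 * (k : ℝ) < m * e := by exact_mod_cast hcon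
  obtain ⟨x, hx⟩ : ∃ x : ℝ, x = 0.72 * m - 1 := ⟨_, rfl⟩
  have hε : 0 < 6 * (k : ℝ) / m := by positivity
  have hεe : 6 * (k : ℝ) / m ≤ e := by
    rw [div_le_iff₀ hm0]
    linarith
  have h := side_deg_x (ε := 6 * k / m) (by omega) hk hcl hout hin O S hO e hε hεe hx hcut hdeg
  have hS' : (S.card : ℝ) ≤ k := by exact_mod_cast hS
  have hO2 : 2 * (O.card : ℝ) ≤ m * k := by exact_mod_cast h2
  have hx1 : 49.4 ≤ x := by rw [hx]; linarith
  have hy : 1 / (x - 1) ≤ 1 / 48.4 := one_div_le_one_div_of_le (by norm_num) (by linarith)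
  have hy0 : 0 ≤ 1 / (x - 1) := by
    have : 0 < x - 1 := by linarith
    positivity
  have e1 : (k : ℝ) * S.card / (6 * k / m) = m * S.card / 6 := by field_simp
  have h3 : (m : ℝ) * S.card / 6 ≤ m * k / 6 := by gcongr
  have h4 : (m : ℝ) * S.card / 6 * (1 + 1 / (x - 1)) ≤ m * k / 6 * (1 + 1 / 48.4) := by
    apply mul_le_mul h3 (by linarith) (by linarith) (by positivity)
  have h5 : x * (k - 6 * k / m / 2) = (x * k) - 3 * (x * k / m) := by
    field_simp
    ring
  have h6 : x * k / m ≤ 0.72 * k := by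
    rw [div_le_iff₀ hm0, hx]
    nlinarith
  rw [e1, h5] at h
  have h7 : x * k = 0.72 * (m * k) - k := by rw [hx]; ring
  have h8 : 70 * (k : ℝ) ≤ m * k := by gcongr
  rw [h7] at h h6
  nlinarith

end LG_

end Pool.Agent.Lib.MP_83608f_co.CN
end
end

section
/-! MP_83608f_co, part CN, module ONE (helper58): out-degree at least one. -/
set_option autoImplicit false

open Classical

noncomputable section

namespace Pool.Agent.Lib.MP_83608f_co.CN

open Pool.Agent.Lib.MP_83608f_co.EM (Wk)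

/-- all out-degrees positive, no closed walks of length `1, ..., m`: more than `m` vertices -/
theorem one {V : Type} [Fintype V] [Nonempty V] {A : V → V → Prop} {m : ℕ} (hcl : NoCl A m)
    (hout : ∀ v, 1 ≤ (Finset.univ.filter fun u => A v u).card) : m + 1 ≤ Fintype.card V := by
  classical
  have hs : ∀ v, ∃ u, A v u := fun v => by
    obtain ⟨u, hu⟩ := Finset.card_pos.1 (hout v)
    exact ⟨u, (Finset.mem_filter.1 hu).2⟩
  choose s hs using hs
  obtain ⟨v⟩ := ‹Nonempty V›
  have hwalk : ∀ (n : ℕ) (x : V), Wk (⟨A⟩ : Digraph V) n x (s^[n] x) := by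
    intro n
    induction n with
    | zero => intro x; rfl
    | succ n ih =>
      intro x
      rw [Function.iterate_succ_apply']
      exact (ih x).snoc (hs _)
  have hinj : Function.Injective (fun i : Fin (m + 1) => s^[(i : ℕ)] v) := by
    intro i j hij
    by_contra hne
    have key : ∀ a b : ℕ, a < b → b < m + 1 → s^[a] v = s^[b] v → False := by
      intro a b hab hb h
      have h1 := hwalk (b - a) (s^[a] v)
      rw [← Function.iterate_add_apply, Nat.sub_add_cancel hab.le, ← h] at h1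
      exact hcl (b - a) (by omega) (by omega) _ h1
    rcases lt_trichotomy (i : ℕ) (j : ℕ) with h | h | h
    · exact key i j h j.2 hij
    · exact hne (Fin.ext h)
    · exact key j i h i.2 hij.symm
  have := Fintype.card_le_of_injective _ hinj
  rwa [Fintype.card_fin] at this

end Pool.Agent.Lib.MP_83608f_co.CN
end
end
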