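import Pool.Agent.Lib.MP_83608f_co.CN.DCH
import Pool.Agent.Lib.MP_83608f_co.CN.ONE

section
/-! MP_83608f_co, part CN, module TE (helper56): Theorem E (helper91), the bound for every girth which gains one
unit in each layer: `n ≥ 1 + 2k + (m-2) min(k, c+1)`, `m = g - 1`. -/
set_option autoImplicit false

open Classical

noncomputable section

namespace Pool.Agent.Lib.MP_83608f_co.CN

namespace TE_

variable {V : Type} [Fintype V] {A : V → V → Prop} {k c m : ℕ}

/-- nonempty, and some vertex is outside the closed out-neighbourhood -/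
def Pr (A : V → V → Prop) (X : Finset V) : Prop := X.Nonempty ∧ ∃ u, u ∉ outN A X

lemma sub_outN (X : Finset V) : X ⊆ outN A X := fun _ h => FIN_.mem_outN.2 (Or.inl h)

lemma outN_mono {X Y : Finset V} (h : X ⊆ Y) : outN A X ⊆ outN A Y := by
  intro v hv
  rcases FIN_.mem_outN.1 hv with h1 | ⟨u, hu, h1⟩
  · exact FIN_.mem_outN.2 (Or.inl (h h1))
  · exact FIN_.mem_outN.2 (Or.inr ⟨u, h hu, h1⟩)

lemma outN_union (X Y : Finset V) : outN A (X ∪ Y) = outN A X ∪ outN A Y := by
  ext v
  rw [Finset.mem_union, FIN_.mem_outN, FIN_.mem_outN, FIN_.mem_outN, Finset.mem_union]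
  constructor
  · rintro ((h | h) | ⟨u, hu, h⟩)
    · exact Or.inl (Or.inl h)
    · exact Or.inr (Or.inl h)
    · rcases Finset.mem_union.1 hu with h1 | h1
      · exact Or.inl (Or.inr ⟨u, h1, h⟩)
      · exact Or.inr (Or.inr ⟨u, h1, h⟩)
  · rintro ((h | ⟨u, hu, h⟩) | (h | ⟨u, hu, h⟩))
    · exact Or.inl (Or.inl h)
    · exact Or.inr ⟨u, Finset.mem_union_left _ hu, h⟩
    · exact Or.inl (Or.inr h)
    · exact Or.inr ⟨u, Finset.mem_union_right _ hu, h⟩

/-- submodularity -/
lemma submod (X Y : Finset V) :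
    (outN A (X ∩ Y)).card + (outN A (X ∪ Y)).card ≤ (outN A X).card + (outN A Y).card := by
  have h1 : outN A (X ∩ Y) ⊆ outN A X ∩ outN A Y := by
    intro v hv
    exact Finset.mem_inter.2 ⟨outN_mono Finset.inter_subset_left hv,
      outN_mono Finset.inter_subset_right hv⟩
  have h2 := Finset.card_le_card h1
  rw [outN_union]
  have h3 := Finset.card_union_add_card_inter (outN A X) (outN A Y)
  omega

/-- connectivity and boundaries -/
lemma conn_bd (hconn : Conn A c) (X : Finset V) (hX : Pr A X) :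
    X.card + c ≤ (outN A X).card := by
  obtain ⟨⟨x, hx⟩, u, hu⟩ := hX
  have hcard : (outN A X \ X).card + X.card = (outN A X).card :=
    Finset.card_sdiff_add_card_eq_card (sub_outN X)
  by_contra hlt
  have h1 : (outN A X \ X).card < c := by omega
  have hpath := hconn _ h1 x u (fun h => (Finset.mem_sdiff.1 h).2 hx)
    (fun h => hu (Finset.mem_sdiff.1 h).1)
  have key : ∀ b, Relation.ReflTransGen (fun a b => A a b ∧ b ∉ outN A X \ X) x b → b ∈ X := by
    intro b hb
    induction hb with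
    | refl => exact hx
    | tail _ hab ih =>
      by_contra hb
      apply hab.2
      rw [Finset.mem_sdiff]
      exact ⟨FIN_.mem_outN.2 (Or.inr ⟨_, ih, hab.1⟩), hb⟩
  exact hu (sub_outN X (key u hpath))

/-- a set with minimal boundary and, among those, with the minimal number of elements -/
lemma exists_atom (hex : ∃ X, Pr A X) : ∃ (O : Finset V) (κ : ℕ), Pr A O ∧
    (outN A O).card = O.card + κ ∧ (∀ X, Pr A X → X.card + κ ≤ (outN A X).card) ∧
    (∀ X, Pr A X → X.card < O.card → X.card + κ + 1 ≤ (outN A X).card) := by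
  classical
  set P : Finset (Finset V) := Finset.univ.filter fun X => Pr A X with hP
  have memP : ∀ X, X ∈ P ↔ Pr A X := fun X => by simp [hP]
  obtain ⟨X0, hX0⟩ := hex
  obtain ⟨O1, hO1, hmin1⟩ := Finset.exists_min_image P
    (fun X => (outN A X).card - X.card) ⟨X0, (memP X0).2 hX0⟩
  set κ := (outN A O1).card - O1.card with hκ
  set P' := P.filter fun X => (outN A X).card = X.card + κ with hP'
  have hle : ∀ X : Finset V, X.card ≤ (outN A X).card := fun X => Finset.card_le_card (sub_outN X)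
  have hO1' : O1 ∈ P' := by
    rw [hP', Finset.mem_filter]
    refine ⟨hO1, ?_⟩
    have := hle O1
    omega
  obtain ⟨O, hO, hmin⟩ := Finset.exists_min_image P' (fun X => X.card) ⟨O1, hO1'⟩
  rw [hP', Finset.mem_filter] at hO
  have h1 : ∀ X, Pr A X → X.card + κ ≤ (outN A X).card := by
    intro X hX
    have h2 := hmin1 X ((memP X).2 hX)
    have h3 := hle X
    omega
  refine ⟨O, κ, (memP O).1 hO.1, hO.2, h1, ?_⟩
  intro X hX hlt
  have h2 := h1 X hX
  by_contra h3
  have h4 : X ∈ P' := by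
    rw [hP', Finset.mem_filter]
    exact ⟨(memP X).2 hX, by omega⟩
  have h5 := hmin X h4
  omega

lemma cb_one (hirr : ∀ v, ¬ A v v)
    (hout : ∀ v, (Finset.univ.filter fun u => A v u).card = k) (x : V) :
    (LAY_.cb A x 1).card = 1 + k := by
  classical
  have h1 : LAY_.cb A x 1 = insert x (Finset.univ.filter fun u => A x u) := by
    ext v
    rw [LAY_.cb, FIN_.mem_outN, LAY_.cb, Finset.mem_insert, Finset.mem_filter,
      Finset.mem_singleton]
    constructor
    · rintro (h | ⟨u, hu, h⟩)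
      · exact Or.inl h
      · rw [Finset.mem_singleton] at hu
        rw [hu] at h
        exact Or.inr ⟨Finset.mem_univ _, h⟩
    · rintro (h | ⟨-, h⟩)
      · exact Or.inl h
      · exact Or.inr ⟨x, Finset.mem_singleton_self _, h⟩
  rw [h1, Finset.card_insert_of_notMem, hout x]
  · ring
  · rw [Finset.mem_filter]
    exact fun h => hirr x h.2

/-- the growth of the balls gives the bound -/
lemma grow {d : ℕ} (hirr : ∀ v, ¬ A v v)
    (hout : ∀ v, (Finset.univ.filter fun u => A v u).card = k)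
    (hin : ∀ v, (Finset.univ.filter fun u => A u v).card = k) (hm : 2 ≤ m) (hcl : NoCl A m)
    (x : V) (hstep : ∀ i, 1 ≤ i → i ≤ m - 2 → (LAY_.cb A x i).card + d ≤ (LAY_.cb A x (i + 1)).card) :
    1 + 2 * k + (m - 2) * d ≤ Fintype.card V := by
  classical
  have h1 : ∀ j, j ≤ m - 2 → 1 + k + j * d ≤ (LAY_.cb A x (j + 1)).card := by
    intro j hj
    induction j with
    | zero =>
      rw [Nat.zero_mul, Nat.zero_add, cb_one hirr hout x]
      omega
    | succ j ih =>
      have h2 := ih (by omega)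
      have h3 := hstep (j + 1) (by omega) hj
      have h4 : (j + 1) * d = j * d + d := by ring
      rw [h4]
      omega
  have h2 := h1 (m - 2) (le_refl _)
  have d1 : Disjoint (LAY_.cb A x (m - 2 + 1)) (Finset.univ.filter fun u => A u x) := by
    rw [Finset.disjoint_right]
    intro v hv
    rw [Finset.mem_filter] at hv
    exact LAY_.in_notMem hcl x v hv.2 _ (by omega)
  have h3 := Finset.card_le_univ
    (LAY_.cb A x (m - 2 + 1) ∪ (Finset.univ.filter fun u => A u x))
  rw [Finset.card_union_of_disjoint d1, hin x] at h3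
  omega

/-- the special vertex -/
lemma special (hconn : Conn A c) (hc : 1 ≤ c) {O : Finset V} {κ : ℕ} (hO : Pr A O)
    (hκ : (outN A O).card = O.card + κ) (hmin : ∀ X, Pr A X → X.card + κ ≤ (outN A X).card)
    (hi : ∀ v ∈ O, ∃ w ∈ O, A w v) :
    ∃ x w u, w ∈ O ∧ A w x ∧ u ∉ outN A O ∧ A u x ∧ (x ∈ O ∨ ∃ v ∈ O, A x v) := by
  classical
  by_cases hA : ∃ u, u ∉ outN A O ∧ ∃ v ∈ O, A u v
  · obtain ⟨u, hu, v, hv, huv⟩ := hA
    obtain ⟨w, hw, hwv⟩ := hi v hv
    exact ⟨v, w, u, hw, hwv, hu, huv, Or.inl hv⟩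
  · push Not at hA
    obtain ⟨⟨v0, hv0⟩, u0, hu0⟩ := hO
    -- some arc enters `O`
    have henter : ∃ a, a ∉ O ∧ ∃ b ∈ O, A a b := by
      by_contra hno
      push Not at hno
      have hpath := hconn ∅ (by rw [Finset.card_empty]; exact hc) u0 v0 (Finset.notMem_empty _) (Finset.notMem_empty _)
      have key : ∀ b, Relation.ReflTransGen (fun a b => A a b ∧ b ∉ (∅ : Finset V)) u0 b → b ∉ O := by
        intro b hb
        induction hb with
        | refl => exact fun h => hu0 (sub_outN O h)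
        | tail _ hab ih => exact fun h => hno _ ih _ h hab.1
      exact key v0 hpath hv0
    obtain ⟨a, haO, b, hb, hab⟩ := henter
    have haN : a ∈ outN A O := by
      by_contra h
      exact hA a h b hb hab
    obtain ⟨w, hw, hwa⟩ : ∃ w ∈ O, A w a := by
      rcases FIN_.mem_outN.1 haN with h | h
      · exact absurd h haO
      · exact h
    -- the other side
    set U : Finset V := Finset.univ \ outN A O with hU
    have memU : ∀ z, z ∈ U ↔ z ∉ outN A O := fun z => by simp [hU]
    have hUO : ∀ z ∈ outN A U, z ∉ O := by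
      intro z hz hzO
      rcases FIN_.mem_outN.1 hz with h | ⟨u, hu, h⟩
      · exact (memU z).1 h (sub_outN O hzO)
      · exact hA u ((memU u).1 hu) z hzO h
    have hPr : Pr A U := ⟨⟨u0, (memU u0).2 hu0⟩, v0, fun h => hUO v0 h hv0⟩
    have h1 := hmin U hPr
    have hsub : outN A U ⊆ Finset.univ \ O := by
      intro z hz
      rw [Finset.mem_sdiff]
      exact ⟨Finset.mem_univ _, hUO z hz⟩
    have h2 : (Finset.univ \ O).card + O.card = Fintype.card V := by
      have := Finset.card_sdiff_add_card_eq_card (Finset.subset_univ O)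
      rwa [Finset.card_univ] at this
    have h3 : U.card + (outN A O).card = Fintype.card V := by
      have := Finset.card_sdiff_add_card_eq_card (Finset.subset_univ (outN A O))
      rwa [Finset.card_univ] at this
    have heq : outN A U = Finset.univ \ O := by
      apply Finset.eq_of_subset_of_card_le hsub
      omega
    have haU : a ∈ outN A U := by
      rw [heq, Finset.mem_sdiff]
      exact ⟨Finset.mem_univ _, haO⟩
    rcases FIN_.mem_outN.1 haU with h | ⟨u, hu, h⟩
    · exact absurd haN ((memU a).1 h)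
    · exact ⟨a, w, u, hw, hwa, (memU u).1 hu, h, Or.inr ⟨b, hb, hab⟩⟩

end TE_

open TE_ in
/-- Theorem E -/
theorem te (V : Type) [Fintype V] [Nonempty V] (A : V → V → Prop) (k c m : ℕ) (hk : 1 ≤ k)
    (hout : ∀ v, (Finset.univ.filter fun u => A v u).card = k)
    (hin : ∀ v, (Finset.univ.filter fun u => A u v).card = k)
    (hm : 2 ≤ m) (hcl : NoCl A m) (hc : 1 ≤ c) (hconn : Conn A c) :
    1 + 2 * k + (m - 2) * min k (c + 1) ≤ Fintype.card V := by
  classical
  have hirr := LAY_.irr hcl (by omega)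
  -- singletons are proper
  have hex : ∃ X, Pr A X := by
    obtain ⟨x⟩ := ‹Nonempty V›
    have hne : (Finset.univ.filter fun u => A u x).Nonempty := by
      rw [← Finset.card_pos, hin x]
      exact hk
    obtain ⟨v, hv⟩ := hne
    rw [Finset.mem_filter] at hv
    exact ⟨LAY_.cb A x 0, ⟨x, LAY_.mem_cb_self x 0⟩, v, LAY_.in_notMem hcl x v hv.2 1 hm⟩
  obtain ⟨O, κ, hO, hκ, hmin, hmin'⟩ := exists_atom hex
  have hcκ : c ≤ κ := by
    have := conn_bd hconn O hO
    omega
  by_cases hκk : k ≤ κ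
  · -- all boundaries have at least `k` elements
    obtain ⟨x⟩ := ‹Nonempty V›
    have hne : (Finset.univ.filter fun u => A u x).Nonempty := by
      rw [← Finset.card_pos, hin x]
      exact hk
    obtain ⟨v, hv⟩ := hne
    rw [Finset.mem_filter] at hv
    have h1 := grow (d := min k (c + 1)) hirr hout hin hm hcl x (fun i _ hi2 => by
      have h2 := hmin (LAY_.cb A x i) ⟨⟨x, LAY_.mem_cb_self x i⟩, v,
        LAY_.in_notMem hcl x v hv.2 (i + 1) (by omega)⟩
      have h3 : LAY_.cb A x (i + 1) = outN A (LAY_.cb A x i) := rfl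
      rw [h3]
      have h4 : min k (c + 1) ≤ k := min_le_left _ _
      omega)
    exact h1
  · push Not at hκk
    -- (i)
    have hi : ∀ v ∈ O, ∃ w ∈ O, A w v := by
      intro v hv
      by_contra hno
      push Not at hno
      have hcard : (O.erase v).card + 1 = O.card := Finset.card_erase_add_one hv
      rcases (O.erase v).eq_empty_or_nonempty with h0 | h0
      · have hOv : O = LAY_.cb A v 0 := by
          rw [LAY_.cb]
          ext z
          rw [Finset.mem_singleton]
          constructor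
          · intro hz
            by_contra hne
            have : z ∈ O.erase v := Finset.mem_erase.2 ⟨hne, hz⟩
            rw [h0] at this
            exact absurd this (Finset.notMem_empty _)
          · intro hz
            rw [hz]
            exact hv
        have h1 : outN A O = LAY_.cb A v 1 := by rw [hOv]; rfl
        have h2 := cb_one hirr hout v
        rw [← h1, hκ] at h2
        rw [h0, Finset.card_empty] at hcard
        omega
      · have hsub : outN A (O.erase v) ⊆ (outN A O).erase v := by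
          intro z hz
          rw [Finset.mem_erase]
          refine ⟨?_, outN_mono (Finset.erase_subset _ _) hz⟩
          intro hzv
          rw [hzv] at hz
          rcases FIN_.mem_outN.1 hz with h | ⟨u, hu, h⟩
          · exact (Finset.mem_erase.1 h).1 rfl
          · exact hno u (Finset.mem_erase.1 hu).2 h
        have h1 := Finset.card_le_card hsub
        have h2 : ((outN A O).erase v).card + 1 = (outN A O).card :=
          Finset.card_erase_add_one (sub_outN O hv)
        obtain ⟨-, u, hu⟩ := hO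
        have h3 := hmin' (O.erase v) ⟨h0, u, fun h => hu (outN_mono (Finset.erase_subset _ _) h)⟩
          (by omega)
        omega
    obtain ⟨x, w, u, hw, hwx, hu, hux, hx⟩ := special hconn hc hO hκ hmin hi
    have h1 := grow (d := min k (c + 1)) hirr hout hin hm hcl x (fun i hi1 hi2 => by
      set X := LAY_.cb A x i with hX
      have hOX : outN A X = LAY_.cb A x (i + 1) := rfl
      have hwX : w ∉ X := LAY_.in_notMem hcl x w hwx i (by omega)
      have huX : u ∉ outN A X := LAY_.in_notMem hcl x u hux (i + 1) (by omega)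
      have hne : (X ∩ O).Nonempty := by
        rcases hx with h | ⟨v, hv, h⟩
        · exact ⟨x, Finset.mem_inter.2 ⟨LAY_.mem_cb_self x i, h⟩⟩
        · refine ⟨v, Finset.mem_inter.2 ⟨?_, hv⟩⟩
          have h2 : v ∈ LAY_.cb A x 1 :=
            FIN_.mem_outN.2 (Or.inr ⟨x, Finset.mem_singleton_self _, h⟩)
          have h3 : ∀ j, LAY_.cb A x 1 ⊆ LAY_.cb A x (j + 1) := by
            intro j
            induction j with
            | zero => exact fun _ h => h
            | succ j ih => exact fun z hz => LAY_.cb_sub x (j + 1) (ih hz)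
          have h4 := h3 (i - 1) h2
          have h5 : i - 1 + 1 = i := by omega
          rwa [h5] at h4
      have hlt : (X ∩ O).card < O.card := by
        apply Finset.card_lt_card
        exact ⟨Finset.inter_subset_right, fun h => hwX (Finset.mem_inter.1 (h hw)).1⟩
      have e1 := hmin' (X ∩ O) ⟨hne, u, fun h => hu (outN_mono Finset.inter_subset_right h)⟩ hlt
      have e2 := hmin (X ∪ O) ⟨hne.mono (fun z hz => Finset.mem_union_left _
        (Finset.mem_inter.1 hz).1), u, fun h => by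
          rw [outN_union, Finset.mem_union] at h
          rcases h with h | h
          · exact huX h
          · exact hu h⟩
      have e3 := submod (A := A) X O
      have e4 := Finset.card_union_add_card_inter X O
      rw [← hOX]
      have h4 : min k (c + 1) ≤ c + 1 := min_le_right _ _
      omega)
    exact h1

end Pool.Agent.Lib.MP_83608f_co.CN
end
end

section
/-! MP_83608f_co, part CN, module SD1 (helper91): sets with a small out-boundary (fragments), balls inside them.

`Fr A k e X`: all arcs which leave `X` go to a set of at most `k - e` vertices.  Averages of balls inside `X`, the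
growth of the balls, and the slow vertices which a slow growth needs. -/
set_option autoImplicit false

open Classical

noncomputable section

namespace Pool.Agent.Lib.MP_83608f_co.CN

open Pool.Agent.Lib.MP_83608f_co.EM (Wk)

namespace SD_

open LAY_ (cb cb_walk cb_sub mem_cb_self)

variable {V : Type} [Fintype V] {A : V → V → Prop} {k m e : ℕ}

/-- the digraph inside `X` -/
def rs (A : V → V → Prop) (X : Finset V) (a b : V) : Prop := a ∈ X ∧ b ∈ X ∧ A a b

/-- the out-degree inside `X` -/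
def dg (A : V → V → Prop) (X : Finset V) (v : V) : ℕ := (X.filter fun w => A v w).card

/-- all arcs which leave `X` go to at most `k - e` vertices -/
def Fr (A : V → V → Prop) (k e : ℕ) (X : Finset V) : Prop :=
  ∃ S : Finset V, S.card + e ≤ k ∧ ∀ a ∈ X, ∀ b, A a b → b ∈ X ∨ b ∈ S

lemma mem_cb (x z : V) (i : ℕ) : z ∈ cb A x i ↔ ∃ j, j ≤ i ∧ Wk (⟨A⟩ : Digraph V) j x z := by
  constructor
  · exact cb_walk x i z
  · rintro ⟨j, h1, h2⟩
    induction i generalizing j z with
    | zero =>
      obtain rfl : j = 0 := by omega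
      have : x = z := h2
      rw [this, cb]
      exact Finset.mem_singleton_self _
    | succ i ih =>
      by_cases hj : j = 0
      · subst hj
        have : x = z := h2
        rw [this]
        exact mem_cb_self z (i + 1)
      · obtain ⟨j', rfl⟩ : ∃ j', j = j' + 1 := ⟨j - 1, by omega⟩
        obtain ⟨y, h4, h5⟩ := h2.split
        rw [cb, FIN_.mem_outN]
        exact Or.inr ⟨y, ih y j' (by omega) h4, EM.Wk.one.1 h5⟩

lemma cb_flip (x z : V) (i : ℕ) : z ∈ cb A x i ↔ x ∈ cb (fun a b => A b a) z i := by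
  rw [mem_cb, mem_cb]
  constructor
  · rintro ⟨j, h1, h2⟩
    exact ⟨j, h1, CUT_.wk_flip (A := fun a b => A b a) j x z h2⟩
  · rintro ⟨j, h1, h2⟩
    exact ⟨j, h1, CUT_.wk_flip j z x h2⟩

lemma cb_mono (x : V) {i j : ℕ} (h : i ≤ j) : cb A x i ⊆ cb A x j := by
  induction j with
  | zero =>
    obtain rfl : i = 0 := by omega
    exact Finset.Subset.refl _
  | succ j ih =>
    rcases Nat.lt_or_ge i (j + 1) with h1 | h1
    · exact (ih (by omega)).trans (cb_sub x j)
    · obtain rfl : i = j + 1 := by omega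
      exact Finset.Subset.refl _

omit [Fintype V] in
lemma wk_rs (X : Finset V) (j : ℕ) (x y : V) (h : Wk (⟨rs A X⟩ : Digraph V) j x y) :
    Wk (⟨A⟩ : Digraph V) j x y := by
  induction j generalizing x with
  | zero => exact h
  | succ j ih =>
    obtain ⟨z, h1, h2⟩ := h
    exact ⟨z, h1.2.2, ih z h2⟩

omit [Fintype V] in
lemma nocl_rs (hcl : NoCl A m) (X : Finset V) : NoCl (rs A X) m := fun j h1 h2 x h3 =>
  hcl j h1 h2 x (wk_rs X j x x h3)

lemma cb_rs_sub {X : Finset V} {x : V} (hx : x ∈ X) (i : ℕ) : cb (rs A X) x i ⊆ X := by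
  induction i with
  | zero =>
    intro z hz
    rw [cb, Finset.mem_singleton] at hz
    rw [hz]
    exact hx
  | succ i ih =>
    intro z hz
    rw [cb, FIN_.mem_outN] at hz
    rcases hz with h | ⟨y, _, h⟩
    · exact ih h
    · exact h.2.1

lemma cb_rs_sub' {X : Finset V} {x : V} (hx : x ∈ X) (i : ℕ) : cb (fun a b => rs A X b a) x i ⊆ X := by
  induction i with
  | zero =>
    intro z hz
    rw [cb, Finset.mem_singleton] at hz
    rw [hz]
    exact hx
  | succ i ih =>
    intro z hz
    rw [cb, FIN_.mem_outN] at hz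
    rcases hz with h | ⟨y, _, h⟩
    · exact ih h
    · exact h.1

lemma two_balls (hcl : NoCl A m) {X : Finset V} {x : V} (hx : x ∈ X) (i j : ℕ) (hij : i + j ≤ m) :
    (cb (rs A X) x i).card + (cb (fun a b => rs A X b a) x j).card ≤ X.card + 1 := by
  have h1 : cb (rs A X) x i ∩ cb (fun a b => rs A X b a) x j ⊆ {x} := by
    intro z hz
    rw [Finset.mem_inter] at hz
    obtain ⟨p, f1, f2⟩ := cb_walk x i z hz.1
    obtain ⟨q, f3, f4⟩ := cb_walk (A := fun a b => rs A X b a) x j z hz.2
    have f5 := CUT_.wk_flip (A := rs A X) q x z f4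
    have f6 := f2.trans f5
    rw [Finset.mem_singleton]
    rcases Nat.eq_zero_or_pos (p + q) with h | h
    · have hp : p = 0 := by omega
      rw [hp] at f2
      exact (show x = z from f2).symm
    · exact absurd f6 (nocl_rs hcl X (p + q) h (by omega) x)
  have h2 := Finset.card_le_card h1
  rw [Finset.card_singleton] at h2
  have h3 := Finset.card_union_add_card_inter (cb (rs A X) x i) (cb (fun a b => rs A X b a) x j)
  have h4 := Finset.card_le_card (Finset.union_subset (cb_rs_sub (A := A) hx i) (cb_rs_sub' (A := A) hx j))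
  omega

/-- double counting with weights -/
lemma sum_flip (X : Finset V) (f : V → ℕ) (i : ℕ) :
    ∑ v ∈ X, ∑ u ∈ cb (rs A X) v i, f u = ∑ u ∈ X, f u * (cb (fun a b => rs A X b a) u i).card := by
  have h1 : ∀ v ∈ X, ∑ u ∈ cb (rs A X) v i, f u = ∑ u ∈ X, if u ∈ cb (rs A X) v i then f u else 0 := by
    intro v hv
    rw [Finset.sum_ite_mem, Finset.inter_eq_right.2 (cb_rs_sub hv i)]
  have h2 : ∀ u ∈ X, f u * (cb (fun a b => rs A X b a) u i).card =
      ∑ v ∈ X, if u ∈ cb (rs A X) v i then f u else 0 := by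
    intro u hu
    have h3 : ∀ v ∈ X, (if u ∈ cb (rs A X) v i then f u else 0) =
        if v ∈ cb (fun a b => rs A X b a) u i then f u else 0 := by
      intro v _
      by_cases h : u ∈ cb (rs A X) v i
      · rw [if_pos h, if_pos ((cb_flip v u i).1 h)]
      · rw [if_neg h, if_neg fun h' => h ((cb_flip v u i).2 h')]
    rw [Finset.sum_congr rfl h3, Finset.sum_ite_mem, Finset.inter_eq_right.2 (cb_rs_sub' hu i),
      Finset.sum_const, smul_eq_mul, mul_comm]
  rw [Finset.sum_congr rfl h1, Finset.sum_congr rfl h2, Finset.sum_comm]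

lemma avg (hcl : NoCl A m) (X : Finset V) (i j : ℕ) (hij : i + j ≤ m) :
    ∑ v ∈ X, ((cb (rs A X) v i).card + (cb (rs A X) v j).card) ≤ X.card * (X.card + 1) := by
  have h1 : ∑ v ∈ X, (cb (rs A X) v j).card = ∑ v ∈ X, (cb (fun a b => rs A X b a) v j).card := by
    have := sum_flip (A := A) X (fun _ => 1) j
    simpa using this
  rw [Finset.sum_add_distrib, h1, ← Finset.sum_add_distrib]
  have h2 := Finset.sum_le_sum fun v (hv : v ∈ X) => two_balls hcl hv i j hij
  rwa [Finset.sum_const, smul_eq_mul] at h2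

/-- the total deficiency in the balls -/
lemma avg_w (hcl : NoCl A m) (X : Finset V) (f : V → ℕ) (i t M : ℕ) (hit : i + t ≤ m)
    (hM : ∀ u ∈ X, M ≤ (cb (rs A X) u t).card) :
    ∑ v ∈ X, ∑ u ∈ cb (rs A X) v i, f u + M * ∑ u ∈ X, f u ≤ (X.card + 1) * ∑ u ∈ X, f u := by
  rw [sum_flip, Finset.mul_sum, Finset.mul_sum, ← Finset.sum_add_distrib]
  refine Finset.sum_le_sum fun u hu => ?_
  have h1 := two_balls hcl hu t i (by omega)
  have h2 := hM u hu
  have h3 : M + (cb (fun a b => rs A X b a) u i).card ≤ X.card + 1 := by omega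
  calc f u * (cb (fun a b => rs A X b a) u i).card + M * f u
      = (M + (cb (fun a b => rs A X b a) u i).card) * f u := by ring
    _ ≤ (X.card + 1) * f u := Nat.mul_le_mul_right _ h3

lemma nb_le (X S : Finset V) (v : V) (h : ∀ b, A v b → b ∈ X ∨ b ∈ S) :
    (Finset.univ.filter fun u => A v u).card ≤ dg A X v + (S.filter fun u => A v u).card := by
  have h1 : (Finset.univ.filter fun u => A v u) ⊆ (X.filter fun w => A v w) ∪ (S.filter fun u => A v u) := by
    intro b hb
    have hb' := (Finset.mem_filter.1 hb).2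
    rw [Finset.mem_union, Finset.mem_filter, Finset.mem_filter]
    rcases h b hb' with h2 | h2
    · exact Or.inl ⟨h2, hb'⟩
    · exact Or.inr ⟨h2, hb'⟩
  exact (Finset.card_le_card h1).trans (Finset.card_union_le _ _)

lemma dg_ge (hout : ∀ v, (Finset.univ.filter fun u => A v u).card = k) {X : Finset V} (hX : Fr A k e X)
    {v : V} (hv : v ∈ X) : e ≤ dg A X v := by
  obtain ⟨S, h1, h2⟩ := hX
  have h3 := nb_le X S v (h2 v hv)
  rw [hout v] at h3
  have h4 := Finset.card_filter_le S fun u => A v u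
  omega

lemma dg_le (hout : ∀ v, (Finset.univ.filter fun u => A v u).card = k) (X : Finset V) (v : V) :
    dg A X v ≤ k := by
  rw [← hout v]
  exact Finset.card_le_card (Finset.filter_subset_filter _ (Finset.subset_univ X))

lemma sum_dg (hout : ∀ v, (Finset.univ.filter fun u => A v u).card = k)
    (hin : ∀ v, (Finset.univ.filter fun u => A u v).card = k) {X : Finset V} (hX : Fr A k e X) :
    k * X.card ≤ ∑ v ∈ X, dg A X v + k * (k - e) := by
  obtain ⟨S, h1, h2⟩ := hX
  have h3 : ∑ v ∈ X, k ≤ ∑ v ∈ X, (dg A X v + (S.filter fun u => A v u).card) := by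
    refine Finset.sum_le_sum fun v hv => ?_
    have := nb_le X S v (h2 v hv)
    rwa [hout v] at this
  rw [Finset.sum_const, smul_eq_mul, Finset.sum_add_distrib] at h3
  have h4 : ∑ v ∈ X, (S.filter fun u => A v u).card ≤ k * (k - e) := by
    have h5 : ∑ v ∈ X, (S.filter fun u => A v u).card = ∑ u ∈ S, (X.filter fun v => A v u).card := by
      simp only [Finset.card_filter]
      exact Finset.sum_comm
    rw [h5]
    have h6 : ∑ u ∈ S, (X.filter fun v => A v u).card ≤ ∑ _u ∈ S, k := by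
      refine Finset.sum_le_sum fun u _ => ?_
      rw [← hin u]
      exact Finset.card_le_card (Finset.filter_subset_filter _ (Finset.subset_univ X))
    refine h6.trans ?_
    rw [Finset.sum_const, smul_eq_mul, mul_comm]
    exact Nat.mul_le_mul_left k (by omega)
  rw [mul_comm]
  omega

lemma sum_def (hout : ∀ v, (Finset.univ.filter fun u => A v u).card = k)
    (hin : ∀ v, (Finset.univ.filter fun u => A u v).card = k) {X : Finset V} (hX : Fr A k e X) :
    ∑ v ∈ X, (k - dg A X v) ≤ k * (k - e) := by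
  have h1 := sum_dg hout hin hX
  have h2 : ∑ v ∈ X, (k - dg A X v) + ∑ v ∈ X, dg A X v = k * X.card := by
    rw [← Finset.sum_add_distrib, Finset.sum_congr rfl fun v _ => Nat.sub_add_cancel (dg_le hout X v),
      Finset.sum_const, smul_eq_mul, mul_comm]
  omega

lemma cb_one (hirr : ∀ v, ¬ A v v) {X : Finset V} {v : V} (hv : v ∈ X) :
    (cb (rs A X) v 1).card = 1 + dg A X v := by
  have h1 : cb (rs A X) v 1 = insert v (X.filter fun w => A v w) := by
    ext z
    rw [cb, FIN_.mem_outN, Finset.mem_insert, Finset.mem_filter]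
    constructor
    · rintro (h | ⟨y, hy, h⟩)
      · exact Or.inl (Finset.mem_singleton.1 h)
      · rw [cb, Finset.mem_singleton] at hy
        rw [hy] at h
        exact Or.inr ⟨h.2.1, h.2.2⟩
    · rintro (h | h)
      · exact Or.inl (Finset.mem_singleton.2 h)
      · exact Or.inr ⟨v, Finset.mem_singleton_self v, hv, h.1, h.2⟩
  rw [h1, Finset.card_insert_of_notMem, dg, add_comm]
  intro h
  exact hirr v (Finset.mem_filter.1 h).2

omit [Fintype V] in
lemma Fr.mono {e' : ℕ} {X : Finset V} (h : Fr A k e X) (he : e' ≤ e) : Fr A k e' X := by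
  obtain ⟨S, h1, h2⟩ := h
  exact ⟨S, by omega, h2⟩

/-- the balls are fragments if they grow slowly -/
lemma grow_fr {X : Finset V} (hX : Fr A k e X) {v : V} (hv : v ∈ X) (l h : ℕ)
    (hh : (cb (rs A X) v (l + 1)).card ≤ (cb (rs A X) v l).card + h) (he : h ≤ e) :
    Fr A k (e - h) (cb (rs A X) v l) := by
  obtain ⟨S, h1, h2⟩ := hX
  refine ⟨S ∪ (cb (rs A X) v (l + 1) \ cb (rs A X) v l), ?_, ?_⟩
  · have h3 := Finset.card_union_le S (cb (rs A X) v (l + 1) \ cb (rs A X) v l)
    have h4 := Finset.card_sdiff_add_card_eq_card (cb_sub (A := rs A X) v l)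
    omega
  · intro a ha b hab
    have haX := cb_rs_sub hv l ha
    rcases h2 a haX b hab with h3 | h3
    · have h4 : b ∈ cb (rs A X) v (l + 1) := FIN_.mem_outN.2 (Or.inr ⟨a, ha, haX, h3, hab⟩)
      by_cases h5 : b ∈ cb (rs A X) v l
      · exact Or.inl h5
      · exact Or.inr (Finset.mem_union_right _ (Finset.mem_sdiff.2 ⟨h4, h5⟩))
    · exact Or.inr (Finset.mem_union_left _ h3)

/-- the growth is more than `e - x` as long as the ball is smaller than all fragments of excess `x` -/
lemma grow_ge {X : Finset V} (hX : Fr A k e X) {v : V} (hv : v ∈ X) (l x M : ℕ) (hx : x ≤ e)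
    (hM : ∀ Y : Finset V, Y.Nonempty → Fr A k x Y → M ≤ Y.card) (hl : (cb (rs A X) v l).card < M) :
    (cb (rs A X) v l).card + (e - x) + 1 ≤ (cb (rs A X) v (l + 1)).card := by
  by_contra hcon
  have h1 := grow_fr hX hv l (e - x) (by omega) (by omega)
  have h2 := hM _ ⟨v, mem_cb_self v l⟩ (h1.mono (by omega))
  omega

/-- a minimal fragment -/
def Mi (A : V → V → Prop) (k e : ℕ) (X : Finset V) : Prop :=
  X.Nonempty ∧ Fr A k e X ∧ ∀ Z : Finset V, Z ⊆ X → Z.Nonempty → Fr A k e Z → Z = X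

omit [Fintype V] in
lemma exists_min {X : Finset V} (hX : X.Nonempty) (h : Fr A k e X) : ∃ Y ⊆ X, Mi A k e Y := by
  induction hn : X.card using Nat.strong_induction_on generalizing X with
  | _ n ih =>
    by_cases hmin : ∀ Z : Finset V, Z ⊆ X → Z.Nonempty → Fr A k e Z → Z = X
    · exact ⟨X, Finset.Subset.refl _, hX, h, hmin⟩
    · push Not at hmin
      obtain ⟨Z, h1, h2, h3, h4⟩ := hmin
      have h5 : Z.card < n := by
        rw [← hn]
        exact Finset.card_lt_card (Finset.ssubset_iff_subset_ne.2 ⟨h1, h4⟩)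
      obtain ⟨Y, h6, h7⟩ := ih Z.card h5 h2 h3 rfl
      exact ⟨Y, h6.trans h1, h7⟩

lemma min_in (hk : 1 ≤ k) (he : 1 ≤ e) (hirr : ∀ v, ¬ A v v)
    (hout : ∀ v, (Finset.univ.filter fun u => A v u).card = k) {X : Finset V} (hX : Mi A k e X)
    {v : V} (hv : v ∈ X) : ∃ y ∈ X, A y v := by
  obtain ⟨hne, hfr, hmin⟩ := hX
  by_contra hcon
  push Not at hcon
  obtain ⟨S, h1, h2⟩ := hfr
  have hne' : (X.erase v).Nonempty := by
    by_contra h
    rw [Finset.not_nonempty_iff_eq_empty] at h
    have h3 := dg_ge hout ⟨S, h1, h2⟩ hv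
    have h4 : (X.filter fun w => A v w).Nonempty := by
      rw [← Finset.card_pos]
      exact lt_of_lt_of_le (by omega) h3
    obtain ⟨w, hw⟩ := h4
    rw [Finset.mem_filter] at hw
    have hwv : w ≠ v := by
      rintro rfl
      exact hirr w hw.2
    have h5 : w ∈ X.erase v := Finset.mem_erase.2 ⟨hwv, hw.1⟩
    rw [h] at h5
    exact absurd h5 (Finset.notMem_empty w)
  have h3 := hmin (X.erase v) (Finset.erase_subset v X) hne' ⟨S, h1, fun a ha b hab => by
    have ha' := (Finset.mem_erase.1 ha).2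
    rcases h2 a ha' b hab with h | h
    · refine Or.inl (Finset.mem_erase.2 ⟨?_, h⟩)
      rintro rfl
      exact hcon a ha' hab
    · exact Or.inr h⟩
  have h4 : v ∈ X.erase v := by
    rw [h3]
    exact hv
  exact absurd h4 (Finset.notMem_erase v X)

/-- the balls in a minimal fragment grow -/
lemma grow_one (hk : 1 ≤ k) (he : 1 ≤ e) (hcl : NoCl A m)
    (hout : ∀ v, (Finset.univ.filter fun u => A v u).card = k) {X : Finset V} (hX : Mi A k e X)
    {v : V} (hv : v ∈ X) (l : ℕ) (hl : l + 1 ≤ m) :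
    (cb (rs A X) v l).card + 1 ≤ (cb (rs A X) v (l + 1)).card := by
  by_contra hcon
  have h1 := grow_fr hX.2.1 hv l 0 (by omega) (by omega)
  have h2 := hX.2.2 _ (cb_rs_sub hv l) ⟨v, mem_cb_self v l⟩ (by simpa using h1)
  obtain ⟨y, hy, hyv⟩ := min_in hk he (LAY_.irr hcl (by omega)) hout hX hv
  have h3 : y ∈ cb (rs A X) v l := by
    rw [h2]
    exact hy
  exact LAY_.in_notMem (nocl_rs hcl X) v y ⟨hy, hv, hyv⟩ l hl h3

end SD_

end Pool.Agent.Lib.MP_83608f_co.CN
end
end

section
/-! MP_83608f_co, part CN, module LIM4 (helper85): sections 4 and 5 of helper16's proof of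
`n ≥ (m - C / √m) k`.  `Q` is a fragment, `x` a vertex of least out-degree `δ` inside `Q`, `nr` is the set of near vertices;
the properties of `nr` (gap lemma) are hypotheses here. -/
set_option autoImplicit false

open Classical

noncomputable section

namespace Pool.Agent.Lib.MP_83608f_co.CN

open Pool.Agent.Lib.MP_83608f_co.EM (Wk)

open LAY_ (cb cb_walk cb_sub mem_cb_self)

namespace LIM4_

variable {V : Type} [Fintype V] {A : V → V → Prop} {k m e δ : ℕ}

/-- no return to `x` -/
lemma noret (hcl : NoCl A m) {x z : V} {i j : ℕ} (hij : i + j ≤ m) (h1 : z ∈ cb A x i) (h2 : x ∈ cb A z j) :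
    z = x := by
  obtain ⟨a, ha, wa⟩ := cb_walk x i z h1
  obtain ⟨b, hb, wb⟩ := cb_walk z j x h2
  rcases Nat.eq_zero_or_pos (a + b) with h0 | h0
  · have ha0 : a = 0 := by omega
    subst ha0
    exact wa.symm
  · exact absurd (wa.trans wb) (hcl (a + b) (by omega) (by omega) x)

lemma cb_mono (x : V) {i j : ℕ} (h : i ≤ j) : cb A x i ⊆ cb A x j := by
  induction j with
  | zero =>
    have : i = 0 := by omega
    rw [this]
  | succ j ih =>
    rcases Nat.lt_or_ge i (j + 1) with h1 | h1
    · exact (ih (by omega)).trans (cb_sub x j)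
    · have : i = j + 1 := by omega
      rw [this]

/-- the ball inside `Q` is contained in the ball and in `Q` -/
lemma cbQ_sub (Q : Finset V) {x : V} (hx : x ∈ Q) (i : ℕ) :
    cb (fun u v => A u v ∧ u ∈ Q ∧ v ∈ Q) x i ⊆ cb A x i ∩ Q := by
  induction i with
  | zero =>
    intro z hz
    rw [cb, Finset.mem_singleton] at hz
    rw [hz, Finset.mem_inter]
    exact ⟨mem_cb_self x 0, hx⟩
  | succ i ih =>
    intro z hz
    rw [cb, FIN_.mem_outN] at hz
    rw [Finset.mem_inter]
    rcases hz with h | ⟨y, hy, h⟩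
    · have := Finset.mem_inter.1 (ih h)
      exact ⟨cb_sub x i this.1, this.2⟩
    · have := Finset.mem_inter.1 (ih hy)
      exact ⟨FIN_.mem_outN.2 (Or.inr ⟨y, this.1, h.1⟩), h.2.2⟩

section

variable (A)

/-- the near vertices in `B_i ∩ Q` -/
def Ni (Q : Finset V) (nr : V → Prop) (x : V) (i : ℕ) : Finset V := (cb A x i ∩ Q).filter nr

/-- the far vertices in `B_i ∩ Q` -/
def Ai (Q : Finset V) (nr : V → Prop) (x : V) (i : ℕ) : Finset V := (cb A x i ∩ Q).filter fun z => ¬ nr z

end

variable {Q S : Finset V} {nr : V → Prop} {x : V}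

lemma mem_Ni {i : ℕ} {z : V} : z ∈ Ni A Q nr x i ↔ z ∈ cb A x i ∧ z ∈ Q ∧ nr z := by
  rw [Ni, Finset.mem_filter, Finset.mem_inter, and_assoc]

lemma mem_Ai {i : ℕ} {z : V} : z ∈ Ai A Q nr x i ↔ z ∈ cb A x i ∧ z ∈ Q ∧ ¬ nr z := by
  rw [Ai, Finset.mem_filter, Finset.mem_inter, and_assoc]

lemma Ni_mono {i j : ℕ} (h : i ≤ j) : Ni A Q nr x i ⊆ Ni A Q nr x j := fun _ hz =>
  mem_Ni.2 ⟨cb_mono x h (mem_Ni.1 hz).1, (mem_Ni.1 hz).2⟩

lemma Ai_mono {i j : ℕ} (h : i ≤ j) : Ai A Q nr x i ⊆ Ai A Q nr x j := fun _ hz =>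
  mem_Ai.2 ⟨cb_mono x h (mem_Ai.1 hz).1, (mem_Ai.1 hz).2⟩

/-- the vertices of `S` which are not out-neighbours of `x` -/
lemma card_S1 (hQS : Disjoint Q S) (hcut : ∀ a ∈ Q, ∀ b, A a b → b ∈ Q ∨ b ∈ S) (hS : S.card + e = k)
    (hx : x ∈ Q) (hδ : (Q.filter fun v => A x v).card = δ)
    (hout : (Finset.univ.filter fun v => A x v).card = k) :
    (S.filter fun s => ¬ A x s).card + e = δ := by
  have h1 := Finset.card_filter_add_card_filter_not (s := S) (fun s => A x s)
  have h2 : (Finset.univ.filter fun v => A x v) = (Q.filter fun v => A x v) ∪ (S.filter fun v => A x v) := by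
    ext v
    simp only [Finset.mem_filter, Finset.mem_univ, true_and, Finset.mem_union]
    constructor
    · intro h
      rcases hcut x hx v h with h3 | h3
      · exact Or.inl ⟨h3, h⟩
      · exact Or.inr ⟨h3, h⟩
    · rintro (h | h)
      · exact h.2
      · exact h.2
  have h3 : Disjoint (Q.filter fun v => A x v) (S.filter fun v => A x v) :=
    Finset.disjoint_filter_filter hQS
  rw [h2, Finset.card_union_of_disjoint h3, hδ] at hout
  omega

lemma card_inter_union (X Y : Finset V) : (X ∪ Y).card + (X ∩ Y).card = X.card + Y.card :=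
  Finset.card_union_add_card_inter X Y

/-- inequality (E) in terms of the near vertices -/
lemma stepE (hfr : ∀ F : Finset V, F.Nonempty → outN A F ≠ Finset.univ → F.card + k ≤ (outN A F).card + e)
    (hS1 : (S.filter fun s => ¬ A x s).card + e = δ)
    (hcut : ∀ a ∈ Q, ∀ b, A a b → b ∈ Q ∨ b ∈ S) {i : ℕ}
    (hne : outN A (cb A x i ∪ Q) ≠ Finset.univ) :
    (cb A x i).card + k + (Ni A Q nr x (i + 1)).card ≤
      (cb A x (i + 1)).card + (Ni A Q nr x i).card + δ := by
  have h1 := hfr (cb A x i ∪ Q) ⟨x, Finset.mem_union_left _ (mem_cb_self x i)⟩ hne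
  have h2 : outN A (cb A x i ∪ Q) ⊆ (cb A x (i + 1) ∪ Q) ∪ (S.filter fun s => ¬ A x s) := by
    intro v hv
    rw [FIN_.mem_outN] at hv
    simp only [Finset.mem_union, Finset.mem_filter] at hv ⊢
    rcases hv with (h | h) | ⟨u, h | h, h'⟩
    · exact Or.inl (Or.inl (cb_sub x i h))
    · exact Or.inl (Or.inr h)
    · exact Or.inl (Or.inl (FIN_.mem_outN.2 (Or.inr ⟨u, h, h'⟩)))
    · rcases hcut u h v h' with h3 | h3
      · exact Or.inl (Or.inr h3)
      · by_cases h4 : A x v
        · exact Or.inl (Or.inl (FIN_.mem_outN.2 (Or.inr ⟨x, mem_cb_self x i, h4⟩)))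
        · exact Or.inr ⟨h3, h4⟩
  have h3 := (Finset.card_le_card h2).trans (Finset.card_union_le _ _)
  have h4 := card_inter_union (cb A x i) Q
  have h5 := card_inter_union (cb A x (i + 1)) Q
  -- the near part
  have h6 : (Ni A Q nr x (i + 1)).card + (cb A x i ∩ Q).card ≤
      (Ni A Q nr x i).card + (cb A x (i + 1) ∩ Q).card := by
    have h7 : Ni A Q nr x (i + 1) ∪ (cb A x i ∩ Q) ⊆ cb A x (i + 1) ∩ Q := by
      intro z hz
      rw [Finset.mem_union] at hz
      rcases hz with h | h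
      · exact Finset.mem_inter.2 ⟨(mem_Ni.1 h).1, (mem_Ni.1 h).2.1⟩
      · rw [Finset.mem_inter] at h ⊢
        exact ⟨cb_sub x i h.1, h.2⟩
    have h8 : Ni A Q nr x (i + 1) ∩ (cb A x i ∩ Q) ⊆ Ni A Q nr x i := by
      intro z hz
      rw [Finset.mem_inter, Finset.mem_inter] at hz
      exact mem_Ni.2 ⟨hz.2.1, hz.2.2, (mem_Ni.1 hz.1).2.2⟩
    have h9 := card_inter_union (Ni A Q nr x (i + 1)) (cb A x i ∩ Q)
    have h10 := Finset.card_le_card h7
    have h11 := Finset.card_le_card h8
    omega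
  omega

/-- (S2) -/
lemma stepS2 (hcl : NoCl A m) {C' : ℕ} (nx : nr x)
    (n3 : ∀ z ∈ Q, nr z → ∀ z' ∈ Q, A z z' → nr z' ∨ x ∈ cb A z' C') {i : ℕ} (hi : i + 1 + C' ≤ m)
    {z z' : V} (hz : z ∈ Ni A Q nr x i) (hz' : z' ∈ Q) (h : A z z') : z' ∈ Ni A Q nr x (i + 1) := by
  rw [mem_Ni] at hz
  have h1 : z' ∈ cb A x (i + 1) := FIN_.mem_outN.2 (Or.inr ⟨z, hz.1, h⟩)
  refine mem_Ni.2 ⟨h1, hz', ?_⟩
  rcases n3 z hz.2.1 hz.2.2 z' hz' h with h2 | h2
  · exact h2
  · rw [noret hcl hi h1 h2]
    exact nx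

/-- (L) -/
lemma stepL (hcl : NoCl A m)
    (hfr : ∀ F : Finset V, F.Nonempty → outN A F ≠ Finset.univ → F.card + k ≤ (outN A F).card + e)
    (hS1 : (S.filter fun s => ¬ A x s).card + e = δ) (hQS : Disjoint Q S)
    (hcut : ∀ a ∈ Q, ∀ b, A a b → b ∈ Q ∨ b ∈ S) (hU : ∃ u, u ∉ Q ∧ u ∉ S) {C' : ℕ} (nx : nr x)
    (n1 : ∀ a ∈ Q, ∀ z ∈ Q, A a z → nr z → nr a ∨ x ∈ cb A a C')
    (n2 : ∀ a ∈ Q, ∀ s, s ∉ Q → A x s → A a s → nr a) {i : ℕ} (hi : i + C' ≤ m)
    (hA : (Ai A Q nr x i).Nonempty) :
    (cb A x i).card + k + (Ni A Q nr x (i + 1)).card ≤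
      (cb A x (i + 1)).card + (Ni A Q nr x i).card + δ := by
  obtain ⟨F, hF⟩ : ∃ F, F = Ai A Q nr x i := ⟨_, rfl⟩
  rw [← hF] at hA
  have hmemF : ∀ z, z ∈ F ↔ z ∈ cb A x i ∧ z ∈ Q ∧ ¬ nr z := fun z => by rw [hF, mem_Ai]
  -- a far vertex has no arc to a near vertex of `Q`
  have hS1' : ∀ a ∈ F, ∀ z ∈ Q, A a z → ¬ nr z := by
    intro a ha z hz haz hnz
    rw [hmemF] at ha
    rcases n1 a ha.2.1 z hz haz hnz with h | h
    · exact ha.2.2 h
    · have := noret hcl hi ha.1 h
      rw [this] at ha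
      exact ha.2.2 nx
  obtain ⟨G, hG⟩ : ∃ G, G = (outN A F ∩ Q) \ F := ⟨_, rfl⟩
  have hout2 : outN A F ⊆ (F ∪ G) ∪ (S.filter fun s => ¬ A x s) := by
    intro v hv
    by_cases hvF : v ∈ F
    · exact Finset.mem_union_left _ (Finset.mem_union_left _ hvF)
    · by_cases hvQ : v ∈ Q
      · refine Finset.mem_union_left _ (Finset.mem_union_right _ ?_)
        rw [hG, Finset.mem_sdiff, Finset.mem_inter]
        exact ⟨⟨hv, hvQ⟩, hvF⟩
      · refine Finset.mem_union_right _ ?_
        rw [FIN_.mem_outN] at hv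
        rcases hv with h | ⟨u, hu, h⟩
        · exact absurd h hvF
        · have hu' := (hmemF u).1 hu
          rw [Finset.mem_filter]
          refine ⟨(hcut u hu'.2.1 v h).resolve_left hvQ, fun hxv => ?_⟩
          exact hu'.2.2 (n2 u hu'.2.1 v hvQ hxv h)
  have hne : outN A F ≠ Finset.univ := by
    intro h
    obtain ⟨u, hu1, hu2⟩ := hU
    have hu : u ∈ outN A F := by rw [h]; exact Finset.mem_univ u
    have hu3 := hout2 hu
    rw [Finset.mem_union, Finset.mem_union, Finset.mem_filter, hG, Finset.mem_sdiff, Finset.mem_inter,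
      hmemF] at hu3
    rcases hu3 with (h4 | h4) | h4
    · exact hu1 h4.2.1
    · exact hu1 h4.1.2
    · exact hu2 h4.1
  have h1 := hfr F hA hne
  have h2 := ((Finset.card_le_card hout2).trans (Finset.card_union_le _ _)).trans
    (Nat.add_le_add_right (Finset.card_union_le _ _) _)
  have hkG : k ≤ G.card + δ := by omega
  -- disjointness
  have hsub : (cb A x i ∪ G) ∪ Ni A Q nr x (i + 1) ⊆ cb A x (i + 1) := by
    intro v hv
    rw [Finset.mem_union, Finset.mem_union] at hv
    rcases hv with (h | h) | h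
    · exact cb_sub x i h
    · rw [hG, Finset.mem_sdiff, Finset.mem_inter, FIN_.mem_outN] at h
      rcases h.1.1 with h3 | ⟨u, hu, h3⟩
      · exact absurd h3 h.2
      · exact FIN_.mem_outN.2 (Or.inr ⟨u, ((hmemF u).1 hu).1, h3⟩)
    · exact (mem_Ni.1 h).1
  have hGB : Disjoint (cb A x i) G := by
    rw [Finset.disjoint_left]
    intro v hv hvG
    rw [hG, Finset.mem_sdiff, Finset.mem_inter, FIN_.mem_outN] at hvG
    rcases hvG.1.1 with h3 | ⟨u, hu, h3⟩
    · exact hvG.2 h3
    · exact hvG.2 ((hmemF v).2 ⟨hv, hvG.1.2, hS1' u hu v hvG.1.2 h3⟩)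
  have hint : (cb A x i ∪ G) ∩ Ni A Q nr x (i + 1) ⊆ Ni A Q nr x i := by
    intro v hv
    rw [Finset.mem_inter, Finset.mem_union] at hv
    have hv2 := mem_Ni.1 hv.2
    rcases hv.1 with h | h
    · exact mem_Ni.2 ⟨h, hv2.2⟩
    · exfalso
      rw [hG, Finset.mem_sdiff, Finset.mem_inter, FIN_.mem_outN] at h
      rcases h.1.1 with h3 | ⟨u, hu, h3⟩
      · exact h.2 h3
      · exact hS1' u hu v h.1.2 h3 hv2.2.2
  have h3 := card_inter_union (cb A x i ∪ G) (Ni A Q nr x (i + 1))
  rw [Finset.card_union_of_disjoint hGB] at h3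
  have h4 := Finset.card_le_card hsub
  have h5 := Finset.card_le_card hint
  omega

/-- the growth of the near part when there are no far vertices and `V - Q - S` is in the ball -/
lemma stepT1 (hfr : ∀ F : Finset V, F.Nonempty → outN A F ≠ Finset.univ → F.card + k ≤ (outN A F).card + e)
    (hS1 : (S.filter fun s => ¬ A x s).card + e = δ) {i : ℕ} (hi : 1 ≤ i)
    (hne : cb A x (i + 1) ≠ Finset.univ) (hUB : ∀ u, u ∉ Q → u ∉ S → u ∈ cb A x i)
    (hA : ¬ (Ai A Q nr x (i + 1)).Nonempty) :
    (Ni A Q nr x i).card + k ≤ (Ni A Q nr x (i + 1)).card + δ := by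
  have h1 := hfr (cb A x i) ⟨x, mem_cb_self x i⟩ hne
  have h2 : outN A (cb A x i) ⊆ (cb A x i ∪ Ni A Q nr x (i + 1)) ∪ (S.filter fun s => ¬ A x s) := by
    intro v hv
    by_cases hvB : v ∈ cb A x i
    · exact Finset.mem_union_left _ (Finset.mem_union_left _ hvB)
    · by_cases hvQ : v ∈ Q
      · refine Finset.mem_union_left _ (Finset.mem_union_right _ (mem_Ni.2 ⟨hv, hvQ, ?_⟩))
        by_contra hn
        exact hA ⟨v, mem_Ai.2 ⟨hv, hvQ, hn⟩⟩
      · refine Finset.mem_union_right _ (Finset.mem_filter.2 ⟨?_, fun hxv => hvB ?_⟩)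
        · by_contra hvS
          exact hvB (hUB v hvQ hvS)
        · exact cb_mono x hi (FIN_.mem_outN.2 (Or.inr ⟨x, mem_cb_self x 0, hxv⟩))
  have h3 := (Finset.card_le_card h2).trans (Finset.card_union_le _ _)
  have h4 := card_inter_union (cb A x i) (Ni A Q nr x (i + 1))
  have h5 : Ni A Q nr x i ⊆ cb A x i ∩ Ni A Q nr x (i + 1) := fun z hz =>
    Finset.mem_inter.2 ⟨(mem_Ni.1 hz).1, Ni_mono (Nat.le_succ i) hz⟩
  have h6 := Finset.card_le_card h5
  omega

/-- (T) -/
lemma stepT2 (hcl : NoCl A m)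
    (hfr : ∀ F : Finset V, F.Nonempty → outN A F ≠ Finset.univ → F.card + k ≤ (outN A F).card + e)
    (hS1 : (S.filter fun s => ¬ A x s).card + e = δ)
    (hcut : ∀ a ∈ Q, ∀ b, A a b → b ∈ Q ∨ b ∈ S) {C' : ℕ} (nx : nr x)
    (n3 : ∀ z ∈ Q, nr z → ∀ z' ∈ Q, A z z' → nr z' ∨ x ∈ cb A z' C') {i j : ℕ} (hij : i ≤ j)
    (hj : j + 1 + C' ≤ m) (hne : cb A x (j + 1) ≠ Finset.univ) :
    (cb A x i).card + k + (Ni A Q nr x (i + 1)).card + (Ni A Q nr x j).card ≤
      (cb A x (i + 1)).card + (Ni A Q nr x i).card + δ + (Ni A Q nr x (j + 1)).card := by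
  have h2 : outN A (cb A x i ∪ Ni A Q nr x j) ⊆
      (cb A x (i + 1) ∪ Ni A Q nr x (j + 1)) ∪ (S.filter fun s => ¬ A x s) := by
    intro v hv
    rw [FIN_.mem_outN] at hv
    simp only [Finset.mem_union, Finset.mem_filter] at hv ⊢
    rcases hv with (h | h) | ⟨u, h | h, h'⟩
    · exact Or.inl (Or.inl (cb_sub x i h))
    · exact Or.inl (Or.inr (Ni_mono (Nat.le_succ j) h))
    · exact Or.inl (Or.inl (FIN_.mem_outN.2 (Or.inr ⟨u, h, h'⟩)))
    · rcases hcut u (mem_Ni.1 h).2.1 v h' with h3 | h3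
      · exact Or.inl (Or.inr (stepS2 hcl nx n3 hj h h3 h'))
      · by_cases h4 : A x v
        · exact Or.inl (Or.inl (FIN_.mem_outN.2 (Or.inr ⟨x, mem_cb_self x i, h4⟩)))
        · exact Or.inr ⟨h3, h4⟩
  have hne2 : outN A (cb A x i ∪ Ni A Q nr x j) ≠ Finset.univ := by
    intro h
    apply hne
    rw [← Finset.univ_subset_iff, ← h]
    intro v hv
    rw [FIN_.mem_outN] at hv
    simp only [Finset.mem_union] at hv
    rcases hv with (h | h) | ⟨u, h | h, h'⟩
    · exact cb_mono x (by omega) h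
    · exact cb_sub x j (mem_Ni.1 h).1
    · exact cb_mono x (by omega : i + 1 ≤ j + 1) (FIN_.mem_outN.2 (Or.inr ⟨u, h, h'⟩))
    · exact FIN_.mem_outN.2 (Or.inr ⟨u, (mem_Ni.1 h).1, h'⟩)
  have h1 := hfr (cb A x i ∪ Ni A Q nr x j) ⟨x, Finset.mem_union_left _ (mem_cb_self x i)⟩ hne2
  have h3 := (Finset.card_le_card h2).trans (Finset.card_union_le _ _)
  have h4 := card_inter_union (cb A x i) (Ni A Q nr x j)
  have h5 := card_inter_union (cb A x (i + 1)) (Ni A Q nr x (j + 1))
  have h6 : cb A x i ∩ Ni A Q nr x j ⊆ Ni A Q nr x i := fun z hz =>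
    mem_Ni.2 ⟨(Finset.mem_inter.1 hz).1, (mem_Ni.1 (Finset.mem_inter.1 hz).2).2⟩
  have h7 : Ni A Q nr x (i + 1) ⊆ cb A x (i + 1) ∩ Ni A Q nr x (j + 1) := fun z hz =>
    Finset.mem_inter.2 ⟨(mem_Ni.1 hz).1, Ni_mono (by omega) hz⟩
  have h8 := Finset.card_le_card h6
  have h9 := Finset.card_le_card h7
  omega

/-- telescoping -/
lemma tele (f : ℕ → ℝ) (c : ℝ) {a b : ℕ} (hab : a ≤ b) (h : ∀ i, a ≤ i → i < b → f i ≤ f (i + 1) + c) :
    f a ≤ f b + (b - a : ℕ) * c := by
  obtain ⟨t, rfl⟩ := Nat.exists_eq_add_of_le hab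
  clear hab
  induction t with
  | zero => simp
  | succ t ih =>
    have h1 := ih (fun i h1 h2 => h i h1 (by omega))
    have h2 := h (a + t) (by omega) (by omega)
    have h3 : a + (t + 1) = a + t + 1 := by ring
    have h4 : ((a + t + 1 - a : ℕ) : ℝ) = ((a + t - a : ℕ) : ℝ) + 1 := by
      have : a + t + 1 - a = (a + t - a) + 1 := by omega
      rw [this]
      push_cast
      ring
    rw [h3, h4]
    linarith

/-- sections 4 and 5 -/
theorem l4 {C' c3 c5 L : ℕ} (hcl : NoCl A m)
    (hfr : ∀ F : Finset V, F.Nonempty → outN A F ≠ Finset.univ → F.card + k ≤ (outN A F).card + e)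
    (hQS : Disjoint Q S) (hcut : ∀ a ∈ Q, ∀ b, A a b → b ∈ Q ∨ b ∈ S) (hS : S.card + e = k)
    (hU : ∃ u, u ∉ Q ∧ u ∉ S) (hx : x ∈ Q) (hδ : (Q.filter fun v => A x v).card = δ)
    (hout : (Finset.univ.filter fun v => A x v).card = k) (nx : nr x)
    (n1 : ∀ a ∈ Q, ∀ z ∈ Q, A a z → nr z → nr a ∨ x ∈ cb A a C')
    (n2 : ∀ a ∈ Q, ∀ s, s ∉ Q → A x s → A a s → nr a)
    (n3 : ∀ z ∈ Q, nr z → ∀ z' ∈ Q, A z z' → nr z' ∨ x ∈ cb A z' C')
    (n4 : (Q.filter nr).card ≤ c3 * k)
    (hball : ∀ j, j ≤ m → j * δ ≤ (cb (fun u v => A u v ∧ u ∈ Q ∧ v ∈ Q) x j).card + (1 + c5) * δ)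
    (hne : ∀ i, i + 1 ≤ m → cb A x i ≠ Finset.univ)
    (hC : 1 ≤ C') (hCm : C' ≤ m) (h2δ : 2 * δ ≤ k) (hk : 1 ≤ k) (hL : 2 + 2 * c3 < L) :
    ((m - C' : ℕ) : ℝ) * k ≤ (cb A x (m - C')).card + (1 + c5) * δ +
      (2 + 2 * c3) * (c3 * k / (L - (2 + 2 * c3))) + L * e := by
  obtain ⟨M, hM⟩ : ∃ M, M = m - C' := ⟨_, rfl⟩
  rw [← hM]
  have hMC : M + C' ≤ m := by omega
  have hS1 := card_S1 hQS hcut hS hx hδ hout
  have hed : (e : ℝ) ≤ δ := by exact_mod_cast (by omega : e ≤ δ)
  obtain ⟨b, hb⟩ : ∃ b : ℕ → ℝ, ∀ i, b i = ((cb A x i).card : ℝ) := ⟨_, fun _ => rfl⟩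
  obtain ⟨ν, hν⟩ : ∃ ν : ℕ → ℝ, ∀ i, ν i = ((Ni A Q nr x i).card : ℝ) := ⟨_, fun _ => rfl⟩
  have hνmono : ∀ i j, i ≤ j → ν i ≤ ν j := fun i j hij => by
    rw [hν, hν]
    exact_mod_cast Finset.card_le_card (Ni_mono (A := A) (Q := Q) (nr := nr) (x := x) hij)
  have hν0 : ∀ i, 0 ≤ ν i := fun i => by rw [hν]; exact Nat.cast_nonneg _
  have hνc : ∀ i, ν i ≤ c3 * k := fun i => by
    rw [hν]
    have h1 : Ni A Q nr x i ⊆ Q.filter nr := fun z hz =>
      Finset.mem_filter.2 (mem_Ni.1 hz).2
    exact_mod_cast (Finset.card_le_card h1).trans n4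
  have hνball : ∀ i, i ≤ M → (i : ℝ) * δ ≤ ν i + (1 + c5) * δ := by
    -- (S3)
    have hS3 : ∀ i, i ≤ M → cb (fun u v => A u v ∧ u ∈ Q ∧ v ∈ Q) x i ⊆ Ni A Q nr x i := by
      intro i
      induction i with
      | zero =>
        intro _ z hz
        rw [cb, Finset.mem_singleton] at hz
        rw [hz]
        exact mem_Ni.2 ⟨mem_cb_self x 0, hx, nx⟩
      | succ i ih =>
        intro hi z hz
        rw [cb, FIN_.mem_outN] at hz
        rcases hz with h | ⟨y, hy, h⟩
        · exact Ni_mono (Nat.le_succ i) (ih (by omega) h)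
        · exact stepS2 hcl nx n3 (by omega) (ih (by omega) hy) h.2.2 h.1
    intro i hi
    have h1 := hball i (by omega)
    have h2 := Finset.card_le_card (hS3 i hi)
    rw [hν]
    exact_mod_cast h1.trans (Nat.add_le_add_right h2 _)
  have hkδ : (k : ℝ) ≤ 2 * (k - δ) := by
    have : (2 : ℝ) * δ ≤ k := by exact_mod_cast h2δ
    linarith
  have hk1 : (1 : ℝ) ≤ k := by exact_mod_cast hk
  have hk0 : (0 : ℝ) ≤ k := by linarith
  -- the potential
  obtain ⟨g, hg⟩ : ∃ g : ℕ → ℝ, ∀ i, g i = b i - i * (k - δ) - ν i := ⟨_, fun _ => rfl⟩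
  have hgood : ∀ i, ((cb A x i).card + k + (Ni A Q nr x (i + 1)).card ≤
      (cb A x (i + 1)).card + (Ni A Q nr x i).card + δ) → g i ≤ g (i + 1) + 0 := by
    intro i h
    have h' : b i + k + ν (i + 1) ≤ b (i + 1) + ν i + δ := by
      rw [hb, hb, hν, hν]
      exact_mod_cast h
    rw [hg, hg]
    push_cast
    linarith
  -- thresholds
  have ex1 : ∃ i, outN A (cb A x i ∪ Q) = Finset.univ ∨ M ≤ i := ⟨M, Or.inr le_rfl⟩
  obtain ⟨i1, hi1⟩ : ∃ i1, i1 = Nat.find ex1 := ⟨_, rfl⟩
  have h1spec : outN A (cb A x i1 ∪ Q) = Finset.univ ∨ M ≤ i1 := by rw [hi1]; exact Nat.find_spec ex1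
  have h1min : ∀ i, i < i1 → outN A (cb A x i ∪ Q) ≠ Finset.univ := fun i hi h => by
    rw [hi1] at hi
    exact Nat.find_min ex1 hi (Or.inl h)
  have h1M : i1 ≤ M := by rw [hi1]; exact Nat.find_min' ex1 (Or.inr le_rfl)
  have ex3 : ∃ i, (i1 ≤ i ∧ (Ai A Q nr x i).Nonempty) ∨ M ≤ i := ⟨M, Or.inr le_rfl⟩
  obtain ⟨i3, hi3⟩ : ∃ i3, i3 = Nat.find ex3 := ⟨_, rfl⟩
  have h3spec : (i1 ≤ i3 ∧ (Ai A Q nr x i3).Nonempty) ∨ M ≤ i3 := by rw [hi3]; exact Nat.find_spec ex3
  have h3min : ∀ i, i < i3 → i1 ≤ i → ¬ (Ai A Q nr x i).Nonempty := fun i hi h h' => by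
    rw [hi3] at hi
    exact Nat.find_min ex3 hi (Or.inl ⟨h, h'⟩)
  have h3M : i3 ≤ M := by rw [hi3]; exact Nat.find_min' ex3 (Or.inr le_rfl)
  have h13 : i1 ≤ i3 := by
    rcases h3spec with h | h
    · exact h.1
    · omega
  -- part 1
  have p1 : g 0 ≤ g i1 + (i1 - 0 : ℕ) * 0 :=
    tele g 0 (Nat.zero_le _) fun i _ hi => hgood i (stepE hfr hS1 hcut (h1min i hi))
  have g0 : 0 ≤ g 0 := by
    have h1 : Ni A Q nr x 0 ⊆ cb A x 0 := fun z hz => (mem_Ni.1 hz).1
    have h2 : ν 0 ≤ b 0 := by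
      rw [hν, hb]
      exact_mod_cast Finset.card_le_card h1
    rw [hg]
    push_cast
    linarith
  have p1' : 0 ≤ g i1 := by
    have : ((i1 - 0 : ℕ) : ℝ) * 0 = 0 := mul_zero _
    linarith
  rcases Nat.lt_or_ge (i1 + L) M with hcase | hcase
  swap
  · -- Case I
    have q1 : ((i1 : ℝ)) * k ≤ b i1 + (1 + c5) * δ := by
      have h1 := hνball i1 h1M
      rw [hg] at p1'
      linarith
    have q2 : b i1 + 0 ≤ b M + (M - i1 : ℕ) * (e - k) + 0 := by
      have := tele b ((e : ℝ) - k) h1M fun i _ hi => by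
        have h1 := hfr (cb A x i) ⟨x, mem_cb_self x i⟩ (hne (i + 1) (by omega))
        have h2 : b i + k ≤ b (i + 1) + e := by
          rw [hb, hb]
          exact_mod_cast h1
        linarith
      linarith
    have q3 : ((M - i1 : ℕ) : ℝ) = M - i1 := by rw [Nat.cast_sub h1M]
    have q4 : ((M : ℝ) - i1) ≤ L := by
      have : (M : ℝ) ≤ i1 + L := by exact_mod_cast hcase
      linarith
    rw [q3] at q2
    have he0 : (0 : ℝ) ≤ e := Nat.cast_nonneg _
    have q5 : ((M : ℝ) - i1) * e ≤ L * e := mul_le_mul_of_nonneg_right q4 he0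
    have q6 : (0 : ℝ) ≤ (2 + 2 * c3) * (c3 * k / (L - (2 + 2 * c3))) := by
      have h1 : (0 : ℝ) < (L : ℝ) - (2 + 2 * c3) := by
        have : ((2 + 2 * c3 : ℕ) : ℝ) < L := by exact_mod_cast hL
        push_cast at this
        linarith
      positivity
    rw [← hb]
    nlinarith
  -- Case II
  have hL1 : (0 : ℝ) < (L : ℝ) - (2 + 2 * c3) := by
    have : ((2 + 2 * c3 : ℕ) : ℝ) < L := by exact_mod_cast hL
    push_cast at this
    linarith
  -- the transitional steps are few
  have hc4 : i3 ≤ i1 + (2 + 2 * c3) := by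
    by_contra hlt
    have hP : outN A (cb A x i1 ∪ Q) = Finset.univ := h1spec.resolve_right (by omega)
    have hUB : ∀ u, u ∉ Q → u ∉ S → u ∈ cb A x (i1 + 1) := by
      intro u h1 h2
      have h3 : u ∈ outN A (cb A x i1 ∪ Q) := by rw [hP]; exact Finset.mem_univ u
      rw [FIN_.mem_outN] at h3
      simp only [Finset.mem_union] at h3
      rcases h3 with (h | h) | ⟨w, h | h, h'⟩
      · exact cb_sub x i1 h
      · exact absurd h h1
      · exact FIN_.mem_outN.2 (Or.inr ⟨w, h, h'⟩)
      · rcases hcut w h u h' with h4 | h4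
        · exact absurd h4 h1
        · exact absurd h4 h2
    have t1 := tele ν (-((k : ℝ) - δ)) (by omega : i1 + 1 ≤ i3 - 1) fun i hi hi' => by
      have h1 := stepT1 (Q := Q) (S := S) (nr := nr) hfr hS1 (by omega : 1 ≤ i) (hne (i + 1) (by omega))
        (fun u h1 h2 => cb_mono x hi (hUB u h1 h2)) (h3min (i + 1) (by omega) (by omega))
      have h2 : ν i + k ≤ ν (i + 1) + δ := by
        rw [hν, hν]
        exact_mod_cast h1
      linarith
    have t2 := hνc (i3 - 1)
    have t3 := hν0 (i1 + 1)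
    have t4 : ((i3 - 1 - (i1 + 1) : ℕ) : ℝ) ≥ 2 * c3 + 1 := by
      have : 2 * c3 + 1 ≤ i3 - 1 - (i1 + 1) := by omega
      exact_mod_cast this
    have t5 : (2 * (c3 : ℝ) + 1) * ((k : ℝ) - δ) ≤ ((i3 - 1 - (i1 + 1) : ℕ) : ℝ) * ((k : ℝ) - δ) :=
      mul_le_mul_of_nonneg_right t4 (by linarith)
    have c30 : (0 : ℝ) ≤ c3 := Nat.cast_nonneg _
    nlinarith
  -- choice of `j`
  obtain ⟨j, hj1, hj2, hj3⟩ : ∃ j, i3 ≤ j ∧ j < M ∧ ν (j + 1) - ν j ≤ c3 * k / (L - (2 + 2 * c3)) := by
    by_contra hno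
    have hno' : ∀ i, i3 ≤ i → i < M → ν i ≤ ν (i + 1) + (-(c3 * k / (L - (2 + 2 * c3)))) := by
      intro i h1 h2
      by_contra h3
      exact hno ⟨i, h1, h2, by linarith⟩
    have t1 := tele ν (-(c3 * k / (L - (2 + 2 * c3)))) h3M hno'
    -- strictness
    have hno2 : ∀ i, i3 ≤ i → i < M → c3 * k / (L - (2 + 2 * c3)) < ν (i + 1) - ν i := by
      intro i h1 h2
      by_contra h3
      exact hno ⟨i, h1, h2, not_lt.1 h3⟩
    have t2 := hνc M
    have t3 := hν0 i3
    have hpos : (0 : ℝ) ≤ c3 * k / (L - (2 + 2 * c3)) := by positivity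
    have t4 : (L : ℝ) - (2 + 2 * c3) + 1 ≤ ((M - i3 : ℕ) : ℝ) := by
      have h1 : L + 1 ≤ (M - i3) + (2 + 2 * c3) := by omega
      have h2 : ((L + 1 : ℕ) : ℝ) ≤ ((M - i3 + (2 + 2 * c3) : ℕ) : ℝ) := by exact_mod_cast h1
      push_cast at h2
      linarith
    have t5 : ((L : ℝ) - (2 + 2 * c3)) * (c3 * k / (L - (2 + 2 * c3))) = c3 * k :=
      mul_div_cancel₀ _ hL1.ne'
    have t6 := mul_le_mul_of_nonneg_right t4 hpos
    have t7 : (c3 : ℝ) * k / (L - (2 + 2 * c3)) ≤ 0 := by nlinarith
    have t8 : c3 * k / ((L : ℝ) - (2 + 2 * c3)) = 0 := le_antisymm t7 hpos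
    have t9 : (c3 : ℝ) * k = 0 := by
      rw [t8, mul_zero] at t5
      linarith
    have t10 := hno2 i3 le_rfl (by omega)
    have t11 := hνc (i3 + 1)
    rw [t8] at t10
    have t12 : ν (i3 + 1) ≤ 0 := by rw [← t9]; exact t11
    linarith
  -- part 2
  obtain ⟨d, hd⟩ : ∃ d : ℝ, d = ν (j + 1) - ν j := ⟨_, rfl⟩
  have hd0 : 0 ≤ d := by rw [hd]; linarith [hνmono j (j + 1) (Nat.le_succ j)]
  have p2 := tele g d h13 fun i hi hi' => by
    have h1 := stepT2 hcl hfr hS1 hcut nx n3 (by omega : i ≤ j) (by omega : j + 1 + C' ≤ m)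
      (hne (j + 1) (by omega))
    have h2 : b i + k + ν (i + 1) + ν j ≤ b (i + 1) + ν i + δ + ν (j + 1) := by
      rw [hb, hb, hν, hν, hν, hν]
      exact_mod_cast h1
    rw [hg, hg, hd]
    push_cast
    linarith
  -- part 3
  have p3 := tele g 0 h3M fun i hi hi' => by
    have hA3 : (Ai A Q nr x i3).Nonempty := by
      rcases h3spec with h | h
      · exact h.2
      · omega
    exact hgood i (stepL hcl hfr hS1 hQS hcut hU nx n1 n2 (by omega) (hA3.mono (Ai_mono hi)))
  have p4 : ((i3 - i1 : ℕ) : ℝ) * d ≤ (2 + 2 * c3) * (c3 * k / (L - (2 + 2 * c3))) := by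
    have h1 : ((i3 - i1 : ℕ) : ℝ) ≤ 2 + 2 * c3 := by
      have : i3 - i1 ≤ 2 + 2 * c3 := by omega
      exact_mod_cast this
    rw [← hd] at hj3
    have h0 : (0 : ℝ) ≤ ((i3 - i1 : ℕ) : ℝ) := Nat.cast_nonneg _
    have h2 : (0 : ℝ) ≤ 2 + 2 * (c3 : ℝ) := by positivity
    exact mul_le_mul h1 hj3 hd0 h2
  have p5 := hνball M le_rfl
  have p6 : ((M - i3 : ℕ) : ℝ) * 0 = 0 := mul_zero _
  have he0 : (0 : ℝ) ≤ L * e := by positivity
  have p7 : g M = b M - M * (k - δ) - ν M := hg M
  rw [← hb]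
  nlinarith

end LIM4_

end Pool.Agent.Lib.MP_83608f_co.CN
end
end

section
/-! MP_83608f_co, part CN, module SD2 (helper91): vertices of small out-degree inside small sets; slow growth of the balls
needs slow vertices. -/
set_option autoImplicit false

open Classical

noncomputable section

namespace Pool.Agent.Lib.MP_83608f_co.CN

open Pool.Agent.Lib.MP_83608f_co.EM (Wk)

namespace SD_

open LAY_ (cb cb_walk cb_sub mem_cb_self)

variable {V : Type} [Fintype V] {A : V → V → Prop} {k m e : ℕ}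

omit [Fintype V] in
/-- a set of at most `m` vertices contains a vertex without out-neighbours in the set -/
lemma term0 (hcl : NoCl A m) {B : Finset V} (hB : B.Nonempty) (hm : B.card ≤ m) :
    ∃ u ∈ B, ∀ w ∈ B, ¬ A u w := by
  by_contra hcon
  push Not at hcon
  choose! f hf1 hf2 using hcon
  obtain ⟨x, hx⟩ := hB
  have h1 : ∀ i, f^[i] x ∈ B := by
    intro i
    induction i with
    | zero => exact hx
    | succ i ih =>
      rw [Function.iterate_succ_apply']
      exact hf1 _ ih
  have h2 : ∀ i j, Wk (⟨A⟩ : Digraph V) j (f^[i] x) (f^[i + j] x) := by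
    intro i j
    induction j with
    | zero => exact EM.Wk.zero _
    | succ j ih =>
      rw [← add_assoc, Function.iterate_succ_apply']
      exact ih.snoc (hf2 _ (h1 (i + j)))
  obtain ⟨a, ha, b, hb, hab, heq⟩ := Finset.exists_ne_map_eq_of_card_lt_of_maps_to
    (s := Finset.range (B.card + 1)) (t := B) (f := fun i => f^[i] x)
    (by rw [Finset.card_range]; exact Nat.lt_succ_self _) (fun i _ => h1 i)
  have key : ∀ a b : ℕ, a < b → b ≤ B.card → f^[a] x = f^[b] x → False := by
    intro a b hab hb heq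
    have h3 := h2 a (b - a)
    rw [Nat.add_sub_cancel' hab.le, ← heq] at h3
    exact hcl (b - a) (by omega) (by omega) _ h3
  rw [Finset.mem_range] at ha hb
  rcases Nat.lt_or_gt_of_ne hab with h | h
  · exact key a b h (by omega) heq
  · exact key b a h (by omega) heq.symm

/-- the out-neighbours in `X` of a vertex of a ball which are not in the ball -/
lemma dg_split (X : Finset V) {v : V} (hv : v ∈ X) (l : ℕ) {u : V} (hu : u ∈ cb (rs A X) v l) :
    dg A X u + (cb (rs A X) v l).card ≤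
      dg A (cb (rs A X) v l) u + (cb (rs A X) v (l + 1)).card := by
  have huX := cb_rs_sub hv l hu
  have h1 : (X.filter fun w => A u w) ⊆ ((cb (rs A X) v l).filter fun w => A u w) ∪
      (cb (rs A X) v (l + 1) \ cb (rs A X) v l) := by
    intro w hw
    rw [Finset.mem_filter] at hw
    rw [Finset.mem_union, Finset.mem_filter, Finset.mem_sdiff]
    by_cases h : w ∈ cb (rs A X) v l
    · exact Or.inl ⟨h, hw.2⟩
    · exact Or.inr ⟨FIN_.mem_outN.2 (Or.inr ⟨u, hu, huX, hw.1, hw.2⟩), h⟩
  have h2 := (Finset.card_le_card h1).trans (Finset.card_union_le _ _)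
  have h3 := Finset.card_sdiff_add_card_eq_card (cb_sub (A := rs A X) v l)
  unfold dg
  omega

/-- the vertices of the previous ball have all their out-neighbours in the ball -/
lemma dg_old (X : Finset V) {v : V} (hv : v ∈ X) (l : ℕ) {u : V} (hu : u ∈ cb (rs A X) v l) :
    dg A X u ≤ dg A (cb (rs A X) v (l + 1)) u := by
  have huX := cb_rs_sub hv l hu
  refine Finset.card_le_card fun w hw => ?_
  rw [Finset.mem_filter] at hw ⊢
  exact ⟨FIN_.mem_outN.2 (Or.inr ⟨u, hu, huX, hw.1, hw.2⟩), hw.2⟩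

/-- a set with at least two out-neighbours for each of its vertices has more than `2m` vertices -/
lemma term1 (hcl : NoCl A m) {B : Finset V} (hB : B.Nonempty) (hm : B.card ≤ 2 * m) :
    ∃ u ∈ B, dg A B u ≤ 1 := by
  classical
  induction hn : B.card using Nat.strong_induction_on generalizing B with
  | _ n ih =>
    by_contra hcon
    push Not at hcon
    have hm1 : 1 ≤ m := by
      have := Finset.card_pos.2 hB
      omega
    have hirr := LAY_.irr hcl hm1
    -- minimality
    have hmin : ∀ Z : Finset V, Z ⊆ B → Z.Nonempty → (∀ u ∈ Z, 2 ≤ dg A Z u) → Z = B := by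
      intro Z h1 h2 h3
      by_contra h4
      have h5 := Finset.card_lt_card (Finset.ssubset_iff_subset_ne.2 ⟨h1, h4⟩)
      obtain ⟨u, hu, h6⟩ := ih Z.card (by omega) h2 (by omega) rfl
      have := h3 u hu
      omega
    have hcon' : ∀ u ∈ B, 2 ≤ dg A B u := fun u hu => by
      have := hcon u hu
      omega
    -- growth by one
    have g1 : ∀ v ∈ B, ∀ l, l + 1 ≤ m → (cb (rs A B) v l).card + 1 ≤ (cb (rs A B) v (l + 1)).card := by
      intro v hv l hl
      by_contra h
      have h1 : cb (rs A B) v (l + 1) = cb (rs A B) v l :=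
        (Finset.eq_of_subset_of_card_le (cb_sub (A := rs A B) v l) (by omega)).symm
      have h2 := hmin _ (cb_rs_sub hv l) ⟨v, mem_cb_self v l⟩ (fun u hu => by
        have h3 := dg_old (A := A) B hv l hu
        rw [h1] at h3
        exact (hcon' u (cb_rs_sub hv l hu)).trans h3)
      -- `v` has an in-neighbour in `B`
      have h4 : ∃ y ∈ B, A y v := by
        by_contra h5
        push Not at h5
        have h6 := hmin (B.erase v) (Finset.erase_subset v B) (by
          have h7 := hcon' v hv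
          unfold dg at h7
          have h8 : (B.filter fun w => A v w).Nonempty := by
            rw [← Finset.card_pos]
            omega
          obtain ⟨w, hw⟩ := h8
          rw [Finset.mem_filter] at hw
          refine ⟨w, Finset.mem_erase.2 ⟨?_, hw.1⟩⟩
          rintro rfl
          exact hirr w hw.2) (fun u hu => by
            have hu' := (Finset.mem_erase.1 hu).2
            refine (hcon' u hu').trans (Finset.card_le_card fun w hw => ?_)
            rw [Finset.mem_filter] at hw ⊢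
            refine ⟨Finset.mem_erase.2 ⟨?_, hw.1⟩, hw.2⟩
            rintro rfl
            exact h5 u hu' hw.2)
        have h7 : v ∈ B.erase v := by
          rw [h6]
          exact hv
        exact absurd h7 (Finset.notMem_erase v B)
      obtain ⟨y, hy, hyv⟩ := h4
      have h3 : y ∈ cb (rs A B) v l := by
        rw [h2]
        exact hy
      exact LAY_.in_notMem (nocl_rs hcl B) v y ⟨hy, hv, hyv⟩ l hl h3
    -- growth by two
    have g2 : ∀ v ∈ B, ∀ l, (cb (rs A B) v l).card ≤ m →
        (cb (rs A B) v l).card + 2 ≤ (cb (rs A B) v (l + 1)).card := by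
      intro v hv l hl
      obtain ⟨u, hu, h1⟩ := term0 hcl ⟨v, mem_cb_self v l⟩ hl
      have h2 := dg_split (A := A) B hv l hu
      have h3 : dg A (cb (rs A B) v l) u = 0 := by
        unfold dg
        rw [Finset.card_eq_zero, Finset.filter_eq_empty_iff]
        exact fun w hw => h1 w hw
      have h4 := hcon' u (cb_rs_sub hv l hu)
      omega
    have g3 : ∀ v ∈ B, ∀ l, min (1 + 2 * l) (m + 1) ≤ (cb (rs A B) v l).card := by
      intro v hv l
      induction l with
      | zero =>
        have : (cb (rs A B) v 0).card = 1 := by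
          rw [cb]
          exact Finset.card_singleton v
        omega
      | succ l ihl =>
        rcases Nat.lt_or_ge m (cb (rs A B) v l).card with h | h
        · have h1 := Finset.card_le_card (cb_sub (A := rs A B) v l)
          omega
        · have h1 := g2 v hv l h
          omega
    have g4 : ∀ v ∈ B, 2 * m + 2 ≤ (cb (rs A B) v ((m + 1) / 2)).card + (cb (rs A B) v (m / 2)).card := by
      intro v hv
      rcases Nat.even_or_odd' m with ⟨p, hp | hp⟩
      · have e1 : (m + 1) / 2 = p := by omega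
        have e2 : m / 2 = p := by omega
        rw [e1, e2]
        have h1 := g3 v hv p
        omega
      · have e1 : (m + 1) / 2 = p + 1 := by omega
        have e2 : m / 2 = p := by omega
        rw [e1, e2]
        have h1 := g3 v hv p
        have h2 := g1 v hv p (by omega)
        rcases Nat.lt_or_ge m (cb (rs A B) v p).card with h | h
        · omega
        · have h3 := g2 v hv p h
          omega
    have h1 := avg hcl B ((m + 1) / 2) (m / 2) (by omega)
    have h2 := Finset.sum_le_sum g4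
    rw [Finset.sum_const, smul_eq_mul] at h2
    have h3 := h2.trans h1
    have h4 := Nat.le_of_mul_le_mul_left h3 (Finset.card_pos.2 hB)
    omega

/-- the new vertices -/
def nw (A : V → V → Prop) (X : Finset V) (v : V) (l : ℕ) : Finset V :=
  cb (rs A X) v (l + 1) \ cb (rs A X) v l

lemma mem_nw {X : Finset V} {v : V} (hv : v ∈ X) {l : ℕ} {u : V} (hu : u ∈ cb (rs A X) v (l + 1))
    (h : dg A (cb (rs A X) v (l + 1)) u < dg A X u) : u ∈ nw A X v l := by
  refine Finset.mem_sdiff.2 ⟨hu, fun h' => ?_⟩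
  have := dg_old (A := A) X hv l h'
  omega

/-- slow growth of a ball with at most `m` vertices needs two slow new vertices -/
lemma slow0 (hcl : NoCl A m) {X : Finset V} (hX : ∀ u ∈ X, 2 ≤ dg A X u) (hdk : ∀ u, dg A X u ≤ k)
    {v : V} (hv : v ∈ X) (l : ℕ) (hl : (cb (rs A X) v (l + 1)).card ≤ m)
    (h2 : 2 ≤ (cb (rs A X) v (l + 1)).card) :
    2 * k + 2 * (cb (rs A X) v (l + 1)).card ≤ 2 * (cb (rs A X) v (l + 2)).card + 1 +
      ∑ u ∈ nw A X v l, (k - dg A X u) := by
  classical
  set B := cb (rs A X) v (l + 1) with hB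
  have hBX : B ⊆ X := cb_rs_sub hv (l + 1)
  obtain ⟨u, hu, h3⟩ : ∃ u ∈ B, ∀ w ∈ B, ¬ A u w := term0 hcl ⟨v, mem_cb_self v (l + 1)⟩ hl
  have hne : (B.erase u).Nonempty := by
    have hc := Finset.card_erase_of_mem hu
    rw [← Finset.card_pos]
    omega
  obtain ⟨w, hw, h4⟩ := term0 hcl hne ((Finset.card_le_card (Finset.erase_subset u B)).trans hl)
  have hw' := Finset.mem_erase.1 hw
  have h5 : dg A B u = 0 := by
    unfold dg
    rw [Finset.card_eq_zero, Finset.filter_eq_empty_iff]
    exact fun w hw => h3 w hw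
  have h6 : dg A B w ≤ 1 := by
    unfold dg
    have : (B.filter fun z => A w z) ⊆ {u} := by
      intro z hz
      rw [Finset.mem_filter] at hz
      rw [Finset.mem_singleton]
      by_contra hzu
      exact h4 z (Finset.mem_erase.2 ⟨hzu, hz.1⟩) hz.2
    exact (Finset.card_le_card this).trans (by rw [Finset.card_singleton])
  have h7 := hX u (hBX hu)
  have h8 := hX w (hBX hw'.2)
  have h9 : u ∈ nw A X v l := mem_nw hv hu (by rw [← hB]; omega)
  have h10 : w ∈ nw A X v l := mem_nw hv hw'.2 (by rw [← hB]; omega)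
  have h11 : (k - dg A X u) + (k - dg A X w) ≤ ∑ u ∈ nw A X v l, (k - dg A X u) := by
    have h12 : ({u, w} : Finset V) ⊆ nw A X v l := by
      intro z hz
      rw [Finset.mem_insert, Finset.mem_singleton] at hz
      rcases hz with rfl | rfl
      · exact h9
      · exact h10
    refine le_trans (le_of_eq ?_) (Finset.sum_le_sum_of_subset h12)
    rw [Finset.sum_pair (Ne.symm hw'.1)]
  have h13 := dg_split (A := A) X hv (l + 1) hu
  have h14 := dg_split (A := A) X hv (l + 1) hw'.2
  rw [← hB] at h13 h14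
  have h15 := hdk u
  have h16 := hdk w
  have h17 : l + 1 + 1 = l + 2 := rfl
  rw [h17] at h13 h14
  omega

/-- slow growth of a ball with at most `2m` vertices needs a slow new vertex -/
lemma slow1 (hcl : NoCl A m) {X : Finset V} (hX : ∀ u ∈ X, 2 ≤ dg A X u) (hdk : ∀ u, dg A X u ≤ k)
    {v : V} (hv : v ∈ X) (l : ℕ) (hl : (cb (rs A X) v (l + 1)).card ≤ 2 * m) :
    k + (cb (rs A X) v (l + 1)).card ≤ (cb (rs A X) v (l + 2)).card + 1 +
      ∑ u ∈ nw A X v l, (k - dg A X u) := by
  classical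
  set B := cb (rs A X) v (l + 1) with hB
  have hBX : B ⊆ X := cb_rs_sub hv (l + 1)
  obtain ⟨u, hu, h3⟩ := term1 hcl ⟨v, mem_cb_self v (l + 1)⟩ hl
  rw [← hB] at h3
  have h7 := hX u (hBX hu)
  have h9 : u ∈ nw A X v l := mem_nw hv hu (by rw [← hB]; omega)
  have h11 : (k - dg A X u) ≤ ∑ u ∈ nw A X v l, (k - dg A X u) :=
    Finset.single_le_sum (f := fun u => k - dg A X u) (fun _ _ => Nat.zero_le _) h9
  have h13 := dg_split (A := A) X hv (l + 1) hu
  rw [← hB] at h13
  have h15 := hdk u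
  have h17 : l + 1 + 1 = l + 2 := rfl
  rw [h17] at h13
  omega

/-- the deficiency in a ball -/
def df (A : V → V → Prop) (k : ℕ) (X : Finset V) (v : V) (l : ℕ) : ℕ :=
  ∑ u ∈ cb (rs A X) v l, (k - dg A X u)

lemma df_succ (X : Finset V) (v : V) (l : ℕ) :
    df A k X v (l + 1) = df A k X v l + ∑ u ∈ nw A X v l, (k - dg A X u) := by
  unfold df nw
  exact (Finset.sum_sdiff (cb_sub (A := rs A X) v l)).symm.trans (add_comm _ _)

end SD_

end Pool.Agent.Lib.MP_83608f_co.CN
end
end

section
/-! MP_83608f_co, part CN, module K7A (helper90): degree 7, the fragments of excess at least 3 (boundary at most 4).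
The balls inside such a fragment: thresholds of growth for small girth, two slow vertices in a layer for large girth. -/
set_option autoImplicit false

open Classical

noncomputable section

namespace Pool.Agent.Lib.MP_83608f_co.CN

open Pool.Agent.Lib.MP_83608f_co.EM (Wk)

namespace K7_

open LAY_ (cb cb_walk cb_sub mem_cb_self)
open SD_

variable {V : Type} [Fintype V] {A : V → V → Prop} {k m e : ℕ}

/-- the average of two balls, from a bound for each vertex -/
lemma fin_avg (hcl : NoCl A m) (X : Finset V) (i j a b : ℕ) (hij : i + j ≤ m)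
    (h : ∀ v ∈ X, a + b * dg A X v ≤ (cb (rs A X) v i).card + (cb (rs A X) v j).card) :
    a * X.card + b * ∑ v ∈ X, dg A X v ≤ X.card * (X.card + 1) := by
  refine le_trans (le_of_eq ?_) ((Finset.sum_le_sum h).trans (avg hcl X i j hij))
  rw [Finset.sum_add_distrib, Finset.sum_const, smul_eq_mul, Finset.mul_sum, mul_comm]

/-- fragments of excess 1 have more than `m` vertices -/
lemma fr_one (hcl : NoCl A m) (hout : ∀ v, (Finset.univ.filter fun u => A v u).card = k) {X : Finset V}
    (hX : X.Nonempty) (h : Fr A k 1 X) : m + 1 ≤ X.card := by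
  by_contra hcon
  obtain ⟨u, hu, h2⟩ := term0 hcl hX (by omega : X.card ≤ m)
  have h3 := dg_ge hout h hu
  have h4 : dg A X u = 0 := by
    unfold dg
    rw [Finset.card_eq_zero, Finset.filter_eq_empty_iff]
    exact fun w hw => h2 w hw
  omega

/-- fragments of excess 2 have more than `2m` vertices -/
lemma fr_two (hcl : NoCl A m) (hout : ∀ v, (Finset.univ.filter fun u => A v u).card = k) {X : Finset V}
    (hX : X.Nonempty) (h : Fr A k 2 X) : 2 * m + 1 ≤ X.card := by
  by_contra hcon
  obtain ⟨u, hu, h2⟩ := term1 hcl hX (by omega : X.card ≤ 2 * m)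
  have h3 := dg_ge hout h hu
  omega

/-- fragments of excess 1, degree 7, girth at least 8 -/
lemma fr_one' (hcl : NoCl A m) (hm : 7 ≤ m) (hout : ∀ v, (Finset.univ.filter fun u => A v u).card = 7)
    (hin : ∀ v, (Finset.univ.filter fun u => A u v).card = 7) {X : Finset V} (hX : X.Nonempty)
    (h : Fr A 7 1 X) : m + 6 ≤ X.card := by
  obtain ⟨Y, hYX, hY⟩ := exists_min hX h
  have hle := Finset.card_le_card hYX
  have hirr := LAY_.irr hcl (by omega)
  have h1 := fr_one hcl hout hY.1 hY.2.1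
  have hg : ∀ v ∈ Y, ∀ l, l + 1 ≤ m → dg A Y v + (l + 1) ≤ (cb (rs A Y) v (l + 1)).card := by
    intro v hv l hl
    induction l with
    | zero =>
      rw [Nat.zero_add, cb_one hirr hv]
      omega
    | succ l ih =>
      have h2 := ih (by omega)
      have h3 := grow_one (by norm_num) (le_refl 1) hcl hout hY hv (l + 1) hl
      omega
  have h2 := fin_avg hcl Y 1 (m - 1) m 2 (by omega) (fun v hv => by
    have h3 := hg v hv 0 (by omega)
    have h4 := hg v hv (m - 2) (by omega)
    have h5 : m - 2 + 1 = m - 1 := by omega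
    rw [h5] at h4
    rw [Nat.zero_add] at h3
    omega)
  have h3 := sum_dg hout hin hY.2.1
  generalize hs : Y.card = s at *
  generalize ∑ v ∈ Y, dg A Y v = T at *
  have h4 : (m + 13) * s ≤ s * s + 84 := by nlinarith
  by_contra hcon
  obtain ⟨j, hj⟩ : ∃ j, s = m + 1 + j := ⟨s - (m + 1), by omega⟩
  have hj6 : j ≤ 4 := by omega
  subst hj
  interval_cases j <;> nlinarith

/-- one step of growth: `a + 1` below `p`, `a` below `q`, else 1 -/
def stp (p q a b : ℕ) : ℕ := if b < p then b + (a + 1) else if b < q then min (b + a) (q + 1) else b + 1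

lemma stp_mono {p q a b b' : ℕ} (ha : 1 ≤ a) (hpq : p + a ≤ q + 1) (h : b ≤ b') :
    stp p q a b ≤ stp p q a b' := by
  unfold stp
  split_ifs <;> omega

/-- the size of the balls in a minimal fragment -/
lemma ball_it (hk : 1 ≤ k) (he : 1 ≤ e) (hcl : NoCl A m)
    (hout : ∀ v, (Finset.univ.filter fun u => A v u).card = k) {X : Finset V} (hX : Mi A k e X) (p q a : ℕ)
    (ha : 1 ≤ a) (hpq : p + a ≤ q + 1) (hea : a + 2 ≤ e + 1)
    (hp : ∀ Y : Finset V, Y.Nonempty → Fr A k (e - a) Y → p ≤ Y.card)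
    (hq : ∀ Y : Finset V, Y.Nonempty → Fr A k (e - a + 1) Y → q ≤ Y.card)
    {v : V} (hv : v ∈ X) (l : ℕ) (hl : l + 1 ≤ m) :
    (stp p q a)^[l] (1 + dg A X v) ≤ (cb (rs A X) v (l + 1)).card := by
  have hirr := LAY_.irr hcl (by omega)
  induction l with
  | zero => rw [Function.iterate_zero_apply, Nat.zero_add, cb_one hirr hv]
  | succ l ih =>
    rw [Function.iterate_succ_apply']
    refine (stp_mono ha hpq (ih (by omega))).trans ?_
    have h1 := grow_one hk he hcl hout hX hv (l + 1) hl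
    have h2 := grow_ge hX.2.1 hv (l + 1) (e - a) p (by omega) hp
    have h3 := grow_ge hX.2.1 hv (l + 1) (e - a + 1) q (by omega) hq
    unfold stp
    split_ifs with g1 g2
    · have := h2 g1
      omega
    · have := h3 g2
      omega
    · exact h1

/-- fragments of excess 3, degree 7, girth at most 14 -/
lemma fr3s (hcl : NoCl A m) (hm : 3 ≤ m) (hm' : m ≤ 13)
    (hout : ∀ v, (Finset.univ.filter fun u => A v u).card = 7)
    (hin : ∀ v, (Finset.univ.filter fun u => A u v).card = 7) {X : Finset V} (hX : X.Nonempty)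
    (h : Fr A 7 3 X) : 7 * m ≤ 2 * X.card + 3 := by
  obtain ⟨Y, hYX, hY⟩ := exists_min hX h
  have hle := Finset.card_le_card hYX
  by_contra hcon
  have hd3 : ∀ v ∈ Y, 3 ≤ dg A Y v := fun v hv => dg_ge hout hY.2.1 hv
  have hd7 : ∀ v, dg A Y v ≤ 7 := fun v => dg_le hout Y v
  have hD := sum_dg hout hin hY.2.1
  have hlo := fr_two hcl hout hY.1 (hY.2.1.mono (by norm_num))
  obtain ⟨p, hp1, hp2⟩ : ∃ p, p = (if m < 7 then m + 1 else m + 6) ∧
      ∀ Z : Finset V, Z.Nonempty → Fr A 7 1 Z → p ≤ Z.card := by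
    refine ⟨_, rfl, fun Z hZ1 hZ2 => ?_⟩
    split_ifs with g
    · exact fr_one hcl hout hZ1 hZ2
    · exact fr_one' hcl (by omega) hout hin hZ1 hZ2
  have hb : ∀ v ∈ Y, ∀ l, l + 1 ≤ m →
      (stp p (2 * m + 1) 2)^[l] (1 + dg A Y v) ≤ (cb (rs A Y) v (l + 1)).card := fun v hv l hl =>
    ball_it (by norm_num) (by norm_num) hcl hout hY p (2 * m + 1) 2 (by norm_num)
      (by rw [hp1]; split_ifs <;> omega) (by norm_num) hp2
      (fun Z hZ1 hZ2 => fr_two hcl hout hZ1 hZ2) hv l hl
  have key : ∀ i j a b : ℕ, i + 1 + (j + 1) ≤ m →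
      (∀ d, 3 ≤ d → d ≤ 7 → a + b * d ≤ (stp p (2 * m + 1) 2)^[i] (1 + d) + (stp p (2 * m + 1) 2)^[j] (1 + d)) →
      a * Y.card + b * ∑ v ∈ Y, dg A Y v ≤ Y.card * (Y.card + 1) := by
    intro i j a b hij h1
    refine fin_avg hcl Y (i + 1) (j + 1) a b hij fun v hv => ?_
    have h2 := hb v hv i (by omega)
    have h3 := hb v hv j (by omega)
    have h4 := h1 _ (hd3 v hv) (hd7 v)
    omega
  obtain rfl | rfl | rfl | rfl | rfl | rfl | rfl | rfl | rfl | rfl | rfl : m = 3 ∨ m = 4 ∨ m = 5 ∨ m = 6 ∨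
    m = 7 ∨ m = 8 ∨ m = 9 ∨ m = 10 ∨ m = 11 ∨ m = 12 ∨ m = 13 := by omega
  all_goals
    norm_num at hp1
    subst hp1
  · have h2 := key 1 0 10 0 (by norm_num) (by decide)
    generalize Y.card = s at *
    generalize ∑ v ∈ Y, dg A Y v = T at *
    have h5 : s ≤ 8 := by omega
    interval_cases s <;> omega
  · have h2 := key 1 1 14 0 (by norm_num) (by decide)
    generalize Y.card = s at *
    generalize ∑ v ∈ Y, dg A Y v = T at *
    have h5 : s ≤ 12 := by omega
    interval_cases s <;> omega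
  · have h2 := key 2 1 13 1 (by norm_num) (by decide)
    generalize Y.card = s at *
    generalize ∑ v ∈ Y, dg A Y v = T at *
    have h5 : s ≤ 15 := by omega
    interval_cases s <;> omega
  · have h2 := key 2 2 15 1 (by norm_num) (by decide)
    generalize Y.card = s at *
    generalize ∑ v ∈ Y, dg A Y v = T at *
    have h5 : s ≤ 19 := by omega
    interval_cases s <;> omega
  · have h2 := key 3 2 20 1 (by norm_num) (by decide)
    generalize Y.card = s at *
    generalize ∑ v ∈ Y, dg A Y v = T at *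
    have h5 : s ≤ 22 := by omega
    interval_cases s <;> omega
  · have h2 := key 3 3 23 1 (by norm_num) (by decide)
    generalize Y.card = s at *
    generalize ∑ v ∈ Y, dg A Y v = T at *
    have h5 : s ≤ 26 := by omega
    interval_cases s <;> omega
  · have h2 := key 4 3 26 1 (by norm_num) (by decide)
    generalize Y.card = s at *
    generalize ∑ v ∈ Y, dg A Y v = T at *
    have h5 : s ≤ 29 := by omega
    interval_cases s <;> omega
  · have h2 := key 4 4 29 1 (by norm_num) (by decide)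
    generalize Y.card = s at *
    generalize ∑ v ∈ Y, dg A Y v = T at *
    have h5 : s ≤ 33 := by omega
    interval_cases s <;> omega
  · have h2 := key 5 4 32 1 (by norm_num) (by decide)
    generalize Y.card = s at *
    generalize ∑ v ∈ Y, dg A Y v = T at *
    have h5 : s ≤ 36 := by omega
    interval_cases s <;> omega
  · have h2 := key 5 5 35 1 (by norm_num) (by decide)
    generalize Y.card = s at *
    generalize ∑ v ∈ Y, dg A Y v = T at *
    have h5 : s ≤ 40 := by omega
    interval_cases s <;> omega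
  · have h2 := key 6 5 32 2 (by norm_num) (by decide)
    generalize Y.card = s at *
    generalize ∑ v ∈ Y, dg A Y v = T at *
    have h5 : s ≤ 43 := by omega
    interval_cases s <;> omega

/-- fragments of excess 4, degree 7, girth at most 14 -/
lemma fr4s (hcl : NoCl A m) (hm : 3 ≤ m) (hm' : m ≤ 13)
    (hout : ∀ v, (Finset.univ.filter fun u => A v u).card = 7) {X : Finset V} (hX : X.Nonempty)
    (h : Fr A 7 4 X) : 7 * m + 1 ≤ 2 * X.card := by
  obtain ⟨Y, hYX, hY⟩ := exists_min hX h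
  have hle := Finset.card_le_card hYX
  by_contra hcon
  have hd3 : ∀ v ∈ Y, 4 ≤ dg A Y v := fun v hv => dg_ge hout hY.2.1 hv
  have hd7 : ∀ v, dg A Y v ≤ 7 := fun v => dg_le hout Y v
  have hlo := fr_two hcl hout hY.1 (hY.2.1.mono (by norm_num))
  have hb : ∀ v ∈ Y, ∀ l, l + 1 ≤ m →
      (stp (m + 1) (2 * m + 1) 3)^[l] (1 + dg A Y v) ≤ (cb (rs A Y) v (l + 1)).card := fun v hv l hl =>
    ball_it (by norm_num) (by norm_num) hcl hout hY (m + 1) (2 * m + 1) 3 (by norm_num) (by omega) (by norm_num)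
      (fun Z hZ1 hZ2 => fr_one hcl hout hZ1 hZ2) (fun Z hZ1 hZ2 => fr_two hcl hout hZ1 hZ2) hv l hl
  have key : ∀ i j a : ℕ, i + 1 + (j + 1) ≤ m →
      (∀ d, 4 ≤ d → d ≤ 7 → a ≤ (stp (m + 1) (2 * m + 1) 3)^[i] (1 + d) + (stp (m + 1) (2 * m + 1) 3)^[j] (1 + d)) →
      a ≤ Y.card + 1 := by
    intro i j a hij h1
    have h5 := fin_avg hcl Y (i + 1) (j + 1) a 0 hij fun v hv => by
      have h2 := hb v hv i (by omega)
      have h3 := hb v hv j (by omega)
      have h4 := h1 _ (hd3 v hv) (hd7 v)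
      omega
    rw [Nat.zero_mul, Nat.add_zero, mul_comm] at h5
    exact Nat.le_of_mul_le_mul_left h5 (Finset.card_pos.2 hY.1)
  obtain rfl | rfl | rfl | rfl | rfl | rfl | rfl | rfl | rfl | rfl | rfl : m = 3 ∨ m = 4 ∨ m = 5 ∨ m = 6 ∨
    m = 7 ∨ m = 8 ∨ m = 9 ∨ m = 10 ∨ m = 11 ∨ m = 12 ∨ m = 13 := by omega
  · have h2 := key 1 0 13 (by norm_num) (by decide)
    omega
  · have h2 := key 1 1 16 (by norm_num) (by decide)
    omega
  · have h2 := key 2 1 21 (by norm_num) (by decide)
    omega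
  · have h2 := key 2 2 24 (by norm_num) (by decide)
    omega
  · have h2 := key 3 2 27 (by norm_num) (by decide)
    omega
  · have h2 := key 3 3 30 (by norm_num) (by decide)
    omega
  · have h2 := key 4 3 35 (by norm_num) (by decide)
    omega
  · have h2 := key 4 4 38 (by norm_num) (by decide)
    omega
  · have h2 := key 5 4 41 (by norm_num) (by decide)
    omega
  · have h2 := key 5 5 44 (by norm_num) (by decide)
    omega
  · have h2 := key 6 5 49 (by norm_num) (by decide)
    omega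

/-- slow growth of a ball with at most `2m` vertices needs two slow new vertices -/
lemma slow2 (hcl : NoCl A m) {X : Finset V} (hX : ∀ u ∈ X, 3 ≤ dg A X u) (hdk : ∀ u, dg A X u ≤ k)
    {v : V} (hv : v ∈ X) (l : ℕ) (hl : (cb (rs A X) v (l + 1)).card ≤ 2 * m)
    (h2 : 2 ≤ (cb (rs A X) v (l + 1)).card) :
    2 * k + 2 * (cb (rs A X) v (l + 1)).card ≤ 2 * (cb (rs A X) v (l + 2)).card + 3 +
      ∑ u ∈ nw A X v l, (k - dg A X u) := by
  classical
  set B := cb (rs A X) v (l + 1) with hB
  have hBX : B ⊆ X := cb_rs_sub hv (l + 1)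
  obtain ⟨u, hu, h3⟩ : ∃ u ∈ B, dg A B u ≤ 1 := term1 hcl ⟨v, mem_cb_self v (l + 1)⟩ hl
  have hne : (B.erase u).Nonempty := by
    have hc := Finset.card_erase_of_mem hu
    rw [← Finset.card_pos]
    omega
  obtain ⟨w, hw, h4⟩ := term1 hcl hne ((Finset.card_le_card (Finset.erase_subset u B)).trans hl)
  have hw' := Finset.mem_erase.1 hw
  have h6 : dg A B w ≤ 2 := by
    unfold dg at h4 ⊢
    have : (B.filter fun z => A w z) ⊆ insert u ((B.erase u).filter fun z => A w z) := by
      intro z hz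
      rw [Finset.mem_filter] at hz
      rw [Finset.mem_insert, Finset.mem_filter]
      by_cases hzu : z = u
      · exact Or.inl hzu
      · exact Or.inr ⟨Finset.mem_erase.2 ⟨hzu, hz.1⟩, hz.2⟩
    have h5 := (Finset.card_le_card this).trans (Finset.card_insert_le _ _)
    omega
  have h7 := hX u (hBX hu)
  have h8 := hX w (hBX hw'.2)
  have h9 : u ∈ nw A X v l := mem_nw hv hu (by rw [← hB]; omega)
  have h10 : w ∈ nw A X v l := mem_nw hv hw'.2 (by rw [← hB]; omega)
  have h11 : (k - dg A X u) + (k - dg A X w) ≤ ∑ u ∈ nw A X v l, (k - dg A X u) := by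
    have h12 : ({u, w} : Finset V) ⊆ nw A X v l := by
      intro z hz
      rw [Finset.mem_insert, Finset.mem_singleton] at hz
      rcases hz with rfl | rfl
      · exact h9
      · exact h10
    refine le_trans (le_of_eq ?_) (Finset.sum_le_sum_of_subset h12)
    rw [Finset.sum_pair (Ne.symm hw'.1)]
  have h13 := dg_split (A := A) X hv (l + 1) hu
  have h14 := dg_split (A := A) X hv (l + 1) hw'.2
  rw [← hB] at h13 h14
  have h15 := hdk u
  have h16 := hdk w
  have h17 : l + 1 + 1 = l + 2 := rfl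
  rw [h17] at h13 h14
  omega

/-- the balls in a set of small deficiency -/
lemma big (hcl : NoCl A m) (hm : 1 ≤ m) {X : Finset V} (hd3 : ∀ v ∈ X, 3 ≤ dg A X v) (hd7 : ∀ v, dg A X v ≤ 7)
    (D : ℕ) (hdef : ∑ v ∈ X, (7 - dg A X v) ≤ D) {v : V} (hv : v ∈ X) (l : ℕ) :
    2 * m + 1 ≤ (cb (rs A X) v (l + 1)).card ∨
      11 * l + 9 + dg A X v ≤ 2 * (cb (rs A X) v (l + 1)).card + D := by
  have hirr := LAY_.irr hcl hm
  have hdl : df A 7 X v l ≤ D := (Finset.sum_le_sum_of_subset (cb_rs_sub hv l)).trans hdef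
  have hst : ∀ l, 2 * m + 1 ≤ (cb (rs A X) v (l + 1)).card ∨
      2 * (1 + dg A X v) + 11 * l + df A 7 X v 0 ≤ 2 * (cb (rs A X) v (l + 1)).card + df A 7 X v l := by
    intro l
    induction l with
    | zero =>
      right
      rw [Nat.zero_add, cb_one hirr hv]
      omega
    | succ l ih =>
      rcases Nat.lt_or_ge (2 * m) (cb (rs A X) v (l + 1)).card with g | g
      · left
        have := Finset.card_le_card (cb_sub (A := rs A X) v (l + 1))
        omega
      · right
        have h0 := ih.resolve_left (by omega)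
        have hb2 : 2 ≤ (cb (rs A X) v (l + 1)).card := by
          have h3 := Finset.card_le_card (cb_mono (A := rs A X) v (show 1 ≤ l + 1 by omega))
          have h4 := cb_one hirr hv
          have h5 := hd3 v hv
          omega
        have h1 := slow2 hcl hd3 hd7 hv l g hb2
        rw [df_succ]
        have h17 : l + 1 + 1 = l + 2 := rfl
        rw [h17]
        omega
  rcases hst l with h1 | h1
  · exact Or.inl h1
  · right
    have h3 : df A 7 X v 0 = 7 - dg A X v := by
      unfold df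
      rw [cb, Finset.sum_singleton]
    have h5 := hd7 v
    omega

/-- fragments of excess 3, degree 7, girth at least 15 -/
lemma fr3l (hcl : NoCl A m) (hm : 14 ≤ m)
    (hout : ∀ v, (Finset.univ.filter fun u => A v u).card = 7)
    (hin : ∀ v, (Finset.univ.filter fun u => A u v).card = 7) {X : Finset V} (hX : X.Nonempty)
    (h : Fr A 7 3 X) : 7 * m ≤ 2 * X.card := by
  have hd3 : ∀ v ∈ X, 3 ≤ dg A X v := fun v hv => dg_ge hout h hv
  have hd7 : ∀ v, dg A X v ≤ 7 := fun v => dg_le hout X v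
  have hdef := sum_def hout hin h
  have h1 := avg hcl X ((m + 1) / 2) (m / 2) (by omega)
  have h2 : ∀ v ∈ X, (7 * m + 3) / 2 ≤
      (cb (rs A X) v ((m + 1) / 2)).card + (cb (rs A X) v (m / 2)).card := by
    intro v hv
    have h0 := hd3 v hv
    have h3 := big hcl (by omega) hd3 hd7 28 hdef hv ((m + 1) / 2 - 1)
    have h4 := big hcl (by omega) hd3 hd7 28 hdef hv (m / 2 - 1)
    have e1 : (m + 1) / 2 - 1 + 1 = (m + 1) / 2 := by omega
    have e2 : m / 2 - 1 + 1 = m / 2 := by omega
    rw [e1] at h3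
    rw [e2] at h4
    have e3 : (m + 1) / 2 + m / 2 = m := by omega
    obtain rfl | hm' : m = 14 ∨ 15 ≤ m := by omega
    · norm_num at h3 h4 ⊢
      omega
    · omega
  have h3 := (Finset.sum_le_sum h2).trans h1
  rw [Finset.sum_const, smul_eq_mul] at h3
  have h4 := Nat.le_of_mul_le_mul_left h3 (Finset.card_pos.2 hX)
  omega

/-- fragments of excess 4, degree 7, girth at least 15 -/
lemma fr4l (hcl : NoCl A m) (hm : 14 ≤ m)
    (hout : ∀ v, (Finset.univ.filter fun u => A v u).card = 7)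
    (hin : ∀ v, (Finset.univ.filter fun u => A u v).card = 7) {X : Finset V} (hX : X.Nonempty)
    (h : Fr A 7 4 X) : 7 * m + 1 ≤ 2 * X.card := by
  have hd4 : ∀ v ∈ X, 4 ≤ dg A X v := fun v hv => dg_ge hout h hv
  have hd3 : ∀ v ∈ X, 3 ≤ dg A X v := fun v hv => by
    have := hd4 v hv
    omega
  have hd7 : ∀ v, dg A X v ≤ 7 := fun v => dg_le hout X v
  have hdef := sum_def hout hin h
  have h1 := avg hcl X ((m + 1) / 2) (m / 2) (by omega)
  have h2 : ∀ v ∈ X, (7 * m + 4) / 2 ≤
      (cb (rs A X) v ((m + 1) / 2)).card + (cb (rs A X) v (m / 2)).card := by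
    intro v hv
    have h0 := hd4 v hv
    have h3 := big hcl (by omega) hd3 hd7 21 hdef hv ((m + 1) / 2 - 1)
    have h4 := big hcl (by omega) hd3 hd7 21 hdef hv (m / 2 - 1)
    have e1 : (m + 1) / 2 - 1 + 1 = (m + 1) / 2 := by omega
    have e2 : m / 2 - 1 + 1 = m / 2 := by omega
    rw [e1] at h3
    rw [e2] at h4
    have e3 : (m + 1) / 2 + m / 2 = m := by omega
    omega
  have h3 := (Finset.sum_le_sum h2).trans h1
  rw [Finset.sum_const, smul_eq_mul] at h3
  have h4 := Nat.le_of_mul_le_mul_left h3 (Finset.card_pos.2 hX)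
  omega

/-- **fragments of excess 3, degree 7** -/
theorem fr3 (hcl : NoCl A m) (hm : 3 ≤ m)
    (hout : ∀ v, (Finset.univ.filter fun u => A v u).card = 7)
    (hin : ∀ v, (Finset.univ.filter fun u => A u v).card = 7) {X : Finset V} (hX : X.Nonempty)
    (h : Fr A 7 3 X) : 7 * m ≤ 2 * X.card + 3 := by
  rcases Nat.lt_or_ge m 14 with g | g
  · exact fr3s hcl hm (by omega) hout hin hX h
  · have := fr3l hcl g hout hin hX h
    omega

/-- **fragments of excess 4, degree 7** -/
theorem fr4 (hcl : NoCl A m) (hm : 3 ≤ m)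
    (hout : ∀ v, (Finset.univ.filter fun u => A v u).card = 7)
    (hin : ∀ v, (Finset.univ.filter fun u => A u v).card = 7) {X : Finset V} (hX : X.Nonempty)
    (h : Fr A 7 4 X) : 7 * m + 1 ≤ 2 * X.card := by
  rcases Nat.lt_or_ge m 14 with g | g
  · exact fr4s hcl hm (by omega) hout hX h
  · exact fr4l hcl g hout hin hX h

end K7_

end Pool.Agent.Lib.MP_83608f_co.CN
end
end

section
/-! MP_83608f_co, part CN, module K7B (helper90): degree 7, the fragments of excess 2 (boundary at most 5) for the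
girths 4 and 5. -/
set_option autoImplicit false

open Classical

noncomputable section

namespace Pool.Agent.Lib.MP_83608f_co.CN

open Pool.Agent.Lib.MP_83608f_co.EM (Wk)

namespace K7_

open LAY_ (cb cb_walk cb_sub mem_cb_self)
open SD_

variable {V : Type} [Fintype V] {A : V → V → Prop} {k m e : ℕ}

omit [Fintype V] in
lemma no2 (hcl : NoCl A m) (hm : 2 ≤ m) {a b : V} (h1 : A a b) (h2 : A b a) : False :=
  hcl 2 (by norm_num) hm a ((EM.Wk.one.2 h1).trans (EM.Wk.one.2 h2))

omit [Fintype V] in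
lemma no3 (hcl : NoCl A m) (hm : 3 ≤ m) {a b c : V} (h1 : A a b) (h2 : A b c) (h3 : A c a) : False :=
  hcl 3 (by norm_num) hm a (((EM.Wk.one.2 h1).trans (EM.Wk.one.2 h2)).trans (EM.Wk.one.2 h3))

/-- the first ball -/
lemma cb1 {X : Finset V} {v : V} (hv : v ∈ X) : cb (rs A X) v 1 = insert v (X.filter fun w => A v w) := by
  ext z
  rw [cb, FIN_.mem_outN, Finset.mem_insert, Finset.mem_filter]
  constructor
  · rintro (h | ⟨y, hy, h⟩)
    · exact Or.inl (Finset.mem_singleton.1 h)
    · rw [cb, Finset.mem_singleton] at hy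
      rw [hy] at h
      exact Or.inr ⟨h.2.1, h.2.2⟩
  · rintro (h | h)
    · exact Or.inl (Finset.mem_singleton.2 h)
    · exact Or.inr ⟨v, Finset.mem_singleton_self v, hv, h.1, h.2⟩

/-- the growth from the first ball to the second one, from an out-neighbour -/
lemma gr_nb (hcl : NoCl A m) (hm : 2 ≤ m) {X : Finset V} {v : V} (hv : v ∈ X) {u : V}
    (hu : u ∈ X.filter fun w => A v w) :
    dg A X u + (cb (rs A X) v 1).card ≤ dg A (X.filter fun w => A v w) u + (cb (rs A X) v 2).card := by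
  have h1 : u ∈ cb (rs A X) v 1 := by
    rw [cb1 hv]
    exact Finset.mem_insert_of_mem hu
  have h2 := dg_split (A := A) X hv 1 h1
  have h3 : dg A (cb (rs A X) v 1) u ≤ dg A (X.filter fun w => A v w) u := by
    refine Finset.card_le_card fun z hz => ?_
    rw [Finset.mem_filter, cb1 hv, Finset.mem_insert] at hz
    rw [Finset.mem_filter]
    refine ⟨hz.1.resolve_left ?_, hz.2⟩
    rintro rfl
    exact no2 hcl hm (Finset.mem_filter.1 hu).2 hz.2
  have h4 : 1 + 1 = 2 := rfl
  rw [h4] at h2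
  omega

/-- small out-neighbourhoods: growth at least 2 -/
lemma gr_two (hcl : NoCl A m) (hm : 2 ≤ m) {X : Finset V} (hX : ∀ u ∈ X, 2 ≤ dg A X u) {v : V} (hv : v ∈ X)
    (hd : dg A X v ≤ m) : (cb (rs A X) v 1).card + 2 ≤ (cb (rs A X) v 2).card := by
  have h1 : (X.filter fun w => A v w).Nonempty := by
    rw [← Finset.card_pos]
    have := hX v hv
    unfold dg at this
    omega
  obtain ⟨u, hu, h2⟩ := term0 hcl h1 hd
  have h3 := gr_nb hcl hm hv hu
  have h4 : dg A (X.filter fun w => A v w) u = 0 := by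
    unfold dg
    rw [Finset.card_eq_zero, Finset.filter_eq_empty_iff]
    exact fun w hw => h2 w hw
  have h5 := hX u (Finset.mem_filter.1 hu).1
  omega

/-- **fragments of excess 2, degree 7, girth 5** -/
theorem fr2_4 (hcl : NoCl A 4) (hout : ∀ v, (Finset.univ.filter fun u => A v u).card = 7)
    (hin : ∀ v, (Finset.univ.filter fun u => A u v).card = 7) {X : Finset V} (hX : X.Nonempty)
    (h : Fr A 7 2 X) : 12 ≤ X.card := by
  obtain ⟨Y, hYX, hY⟩ := exists_min hX h
  have hle := Finset.card_le_card hYX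
  by_contra hcon
  have hd2 : ∀ v ∈ Y, 2 ≤ dg A Y v := fun v hv => dg_ge hout hY.2.1 hv
  have hD := sum_dg hout hin hY.2.1
  have hlo := fr_two hcl hout hY.1 hY.2.1
  have hirr := LAY_.irr hcl (by norm_num)
  have h1 : ∀ v ∈ Y, 11 + 2 * dg A Y v ≤ 3 * (cb (rs A Y) v 2).card := by
    intro v hv
    have h2 := cb_one hirr hv
    have h3 := grow_one (by norm_num) (by norm_num) hcl hout hY hv 1 (by norm_num)
    have h5 := hd2 v hv
    have e2 : 1 + 1 = 2 := rfl
    rw [e2] at h3
    rcases Nat.lt_or_ge 4 (dg A Y v) with g | g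
    · omega
    · have h4 := gr_two hcl (by norm_num) hd2 hv g
      omega
  have h2 := Finset.sum_le_sum h1
  rw [Finset.sum_add_distrib, Finset.sum_const, smul_eq_mul, ← Finset.mul_sum, ← Finset.mul_sum] at h2
  have h3 := avg hcl Y 2 2 (by norm_num)
  rw [Finset.sum_add_distrib] at h3
  generalize ∑ v ∈ Y, dg A Y v = T at *
  generalize ∑ v ∈ Y, (cb (rs A Y) v 2).card = P at *
  generalize Y.card = s at *
  have h5 : s ≤ 11 := by omega
  interval_cases s <;> omega

/-- four vertices with out-neighbours inside and girth at least 4: a cycle -/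
lemma four_cyc (hcl : NoCl A m) (hm : 3 ≤ m) {M : Finset V} (hM : M.card ≤ 4) (h : ∀ u ∈ M, 1 ≤ dg A M u)
    {u : V} (hu : u ∈ M) : dg A M u ≤ 1 := by
  have hirr := LAY_.irr hcl (by omega)
  have step : ∀ x ∈ M, ∃ t ∈ M, t ≠ x ∧ A t x := by
    intro x hx
    have h1 := h x hx
    unfold dg at h1
    obtain ⟨w, hw⟩ := Finset.card_pos.1 (lt_of_lt_of_le Nat.zero_lt_one h1)
    rw [Finset.mem_filter] at hw
    have hwx : w ≠ x := by
      rintro rfl
      exact hirr w hw.2
    have hc := Finset.card_erase_of_mem hx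
    obtain ⟨t, ht, h2⟩ := term0 hcl ⟨w, Finset.mem_erase.2 ⟨hwx, hw.1⟩⟩ (by omega : (M.erase x).card ≤ m)
    have ht' := Finset.mem_erase.1 ht
    refine ⟨t, ht'.2, ht'.1, ?_⟩
    have h3 := h t ht'.2
    unfold dg at h3
    obtain ⟨z, hz⟩ := Finset.card_pos.1 (lt_of_lt_of_le Nat.zero_lt_one h3)
    rw [Finset.mem_filter] at hz
    by_cases hzx : z = x
    · rw [← hzx]
      exact hz.2
    · exact absurd hz.2 (h2 z (Finset.mem_erase.2 ⟨hzx, hz.1⟩))
  obtain ⟨t, ht, htu, h1⟩ := step u hu
  obtain ⟨t', ht', htt, h2⟩ := step t ht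
  have hne : t' ≠ u := by
    rintro rfl
    exact no2 hcl (by omega) h1 h2
  have h3 : (M.filter fun w => A u w) ⊆ ((M.erase u).erase t).erase t' := by
    intro w hw
    rw [Finset.mem_filter] at hw
    refine Finset.mem_erase.2 ⟨?_, Finset.mem_erase.2 ⟨?_, Finset.mem_erase.2 ⟨?_, hw.1⟩⟩⟩
    · rintro rfl
      exact no3 hcl hm hw.2 h2 h1
    · rintro rfl
      exact no2 hcl (by omega) hw.2 h1
    · rintro rfl
      exact hirr w hw.2
  have h4 := Finset.card_le_card h3
  have c1 := Finset.card_erase_of_mem hu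
  have c2 := Finset.card_erase_of_mem (Finset.mem_erase.2 ⟨htu, ht⟩)
  have c3 := Finset.card_erase_of_mem (Finset.mem_erase.2 ⟨htt, Finset.mem_erase.2 ⟨hne, ht'⟩⟩)
  unfold dg
  omega

/-- a vertex with four out-neighbours and growth 1, in a set of 8 vertices: impossible -/
lemma no_eight (hcl : NoCl A 3) {Y : Finset V} (hY : ∀ u ∈ Y, 2 ≤ dg A Y u) (hc : Y.card = 8) {v : V} (hv : v ∈ Y)
    (hd : dg A Y v = 4) (hr : (cb (rs A Y) v 2).card ≤ (cb (rs A Y) v 1).card + 1) : False := by
  have hirr := LAY_.irr hcl (by norm_num)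
  set M := Y.filter fun w => A v w with hM
  have hMc : M.card = 4 := hd
  have hB1 : (cb (rs A Y) v 1).card = 5 := by rw [cb_one hirr hv, hd]
  have h1 : ∀ u ∈ M, 1 ≤ dg A M u := by
    intro u hu
    have h2 := gr_nb hcl (by norm_num) hv hu
    rw [← hM] at h2
    have h3 := hY u (Finset.mem_filter.1 hu).1
    omega
  have h2 : ∀ u ∈ M, dg A M u ≤ 1 := fun u hu => four_cyc hcl (le_refl 3) (by omega) h1 hu
  -- the vertex `y`
  have hMne : M.Nonempty := by
    rw [← Finset.card_pos]
    omega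
  have hout2 : ∀ u ∈ M, ∃ y, y ∈ cb (rs A Y) v 2 \ cb (rs A Y) v 1 ∧ A u y := by
    intro u hu
    have huY := (Finset.mem_filter.1 hu).1
    have h3 := hY u huY
    have h4 := h2 u hu
    have h5 : ¬ (Y.filter fun w => A u w) ⊆ M.filter fun w => A u w := by
      intro h6
      have h7 := Finset.card_le_card h6
      unfold dg at h3 h4
      omega
    obtain ⟨y, hy1, hy2⟩ := Finset.not_subset.1 h5
    rw [Finset.mem_filter] at hy1
    refine ⟨y, Finset.mem_sdiff.2 ⟨?_, ?_⟩, hy1.2⟩
    · have e2 : 2 = 1 + 1 := rfl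
      rw [e2, cb, FIN_.mem_outN]
      refine Or.inr ⟨u, ?_, huY, hy1.1, hy1.2⟩
      rw [cb1 hv]
      exact Finset.mem_insert_of_mem hu
    · rw [cb1 hv, Finset.mem_insert]
      rintro (rfl | h8)
      · exact no2 hcl (by norm_num) (Finset.mem_filter.1 hu).2 hy1.2
      · exact hy2 (Finset.mem_filter.2 ⟨h8, hy1.2⟩)
  have hsd := Finset.card_sdiff_add_card_eq_card (cb_sub (A := rs A Y) v 1)
  have e2 : 1 + 1 = 2 := rfl
  rw [e2] at hsd
  have hle1 : (cb (rs A Y) v 2 \ cb (rs A Y) v 1).card ≤ 1 := by omega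
  obtain ⟨u0, hu0⟩ := hMne
  obtain ⟨y, hy, -⟩ := hout2 u0 hu0
  have hMy : ∀ u ∈ M, A u y := by
    intro u hu
    obtain ⟨y', hy', h3⟩ := hout2 u hu
    have : y' = y := Finset.card_le_one.1 hle1 y' hy' y hy
    rw [← this]
    exact h3
  have hyY : y ∈ Y := cb_rs_sub hv 2 (Finset.mem_sdiff.1 hy).1
  have hyv : y ≠ v := by
    rintro rfl
    exact (Finset.mem_sdiff.1 hy).2 (mem_cb_self y 1)
  have hyM : y ∉ M := fun h => hirr y (hMy y h)
  have hvM : v ∉ M := fun h => hirr v (Finset.mem_filter.1 h).2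
  -- the remaining vertices
  set R := Y \ insert y (insert v M) with hR
  have hsub : insert y (insert v M) ⊆ Y := by
    intro z hz
    rw [Finset.mem_insert, Finset.mem_insert] at hz
    rcases hz with rfl | rfl | h
    · exact hyY
    · exact hv
    · exact (Finset.mem_filter.1 h).1
  have hRc : R.card = 2 := by
    have c1 := Finset.card_sdiff_add_card_eq_card hsub
    rw [← hR] at c1
    have c2 : (insert v M).card = M.card + 1 := Finset.card_insert_of_notMem hvM
    have c3 : (insert y (insert v M)).card = (insert v M).card + 1 := by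
      refine Finset.card_insert_of_notMem ?_
      rw [Finset.mem_insert]
      rintro (h | h)
      · exact hyv h
      · exact hyM h
    omega
  have hmemR : ∀ z ∈ Y, z ≠ y → z ≠ v → z ∉ M → z ∈ R := by
    intro z hz g1 g2 g3
    refine Finset.mem_sdiff.2 ⟨hz, ?_⟩
    rw [Finset.mem_insert, Finset.mem_insert]
    rintro (h | h | h)
    · exact g1 h
    · exact g2 h
    · exact g3 h
  have huv := (Finset.mem_filter.1 hu0).2
  have hN : (Y.filter fun w => A y w) ⊆ R := by
    intro z hz
    rw [Finset.mem_filter] at hz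
    refine hmemR z hz.1 ?_ ?_ ?_
    · rintro rfl
      exact hirr z hz.2
    · rintro rfl
      exact no3 hcl (le_refl 3) huv (hMy u0 hu0) hz.2
    · intro h
      exact no2 hcl (by norm_num) hz.2 (hMy z h)
  have hNR : (Y.filter fun w => A y w) = R := by
    refine Finset.eq_of_subset_of_card_le hN ?_
    have := hY y hyY
    unfold dg at this
    omega
  have hRy : ∀ z ∈ R, A y z := by
    intro z hz
    rw [← hNR, Finset.mem_filter] at hz
    exact hz.2
  have hRR : ∀ z ∈ R, ∀ z' ∈ R, z ≠ z' → A z z' := by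
    intro z hz z' hz' hzz
    by_contra hcon
    have hzY := (Finset.mem_sdiff.1 hz).1
    have h3 : (Y.filter fun w => A z w) ⊆ {v} := by
      intro w hw
      rw [Finset.mem_filter] at hw
      rw [Finset.mem_singleton]
      by_contra hwv
      have hwR : w ∈ R := by
        refine hmemR w hw.1 ?_ hwv ?_
        · rintro rfl
          exact no2 hcl (by norm_num) hw.2 (hRy z hz)
        · intro h
          exact no3 hcl (le_refl 3) (hMy w h) (hRy z hz) hw.2
      have hwz : w ≠ z := by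
        rintro rfl
        exact hirr w hw.2
      have hwz' : w ≠ z' := by
        rintro rfl
        exact hcon hw.2
      have h4 : ({w, z, z'} : Finset V) ⊆ R := by
        intro a ha
        rw [Finset.mem_insert, Finset.mem_insert, Finset.mem_singleton] at ha
        rcases ha with rfl | rfl | rfl
        · exact hwR
        · exact hz
        · exact hz'
      have h5 := Finset.card_le_card h4
      rw [Finset.card_eq_three.2 ⟨w, z, z', hwz, hwz', hzz, rfl⟩] at h5
      omega
    have h4 := Finset.card_le_card h3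
    rw [Finset.card_singleton] at h4
    have h5 := hY z hzY
    unfold dg at h5
    omega
  obtain ⟨z1, z2, hz12, hz⟩ := Finset.card_eq_two.1 hRc
  have m1 : z1 ∈ R := by
    rw [hz]
    exact Finset.mem_insert_self _ _
  have m2 : z2 ∈ R := by
    rw [hz]
    exact Finset.mem_insert_of_mem (Finset.mem_singleton_self _)
  exact no2 hcl (by norm_num) (hRR z1 m1 z2 m2 hz12) (hRR z2 m2 z1 m1 (Ne.symm hz12))

/-- minimal fragments of excess 2, degree 7, girth 4 -/
lemma mi2_3 (hcl : NoCl A 3) (hout : ∀ v, (Finset.univ.filter fun u => A v u).card = 7)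
    (hin : ∀ v, (Finset.univ.filter fun u => A u v).card = 7) {Y : Finset V} (hY : Mi A 7 2 Y) :
    9 ≤ Y.card ∨ (Y.card = 7 ∧ ∀ v ∈ Y, dg A Y v = 2) := by
  by_contra hcon
  push Not at hcon
  have hd2 : ∀ v ∈ Y, 2 ≤ dg A Y v := fun v hv => dg_ge hout hY.2.1 hv
  have hD := sum_dg hout hin hY.2.1
  have hlo := fr_two hcl hout hY.1 hY.2.1
  have hirr := LAY_.irr hcl (by norm_num)
  have h0 : ∀ v ∈ Y, (cb (rs A Y) v 1).card + 1 ≤ (cb (rs A Y) v 2).card := fun v hv =>
    grow_one (by norm_num) (by norm_num) hcl hout hY hv 1 (by norm_num)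
  have h1 : ∀ v ∈ Y, 8 + dg A Y v ≤ 2 * (cb (rs A Y) v 2).card := by
    intro v hv
    have h2 := cb_one hirr hv
    have h3 := h0 v hv
    have h5 := hd2 v hv
    rcases Nat.lt_or_ge 3 (dg A Y v) with g | g
    · omega
    · have h4 := gr_two hcl (by norm_num) hd2 hv g
      omega
  have h2 := Finset.sum_le_sum h1
  rw [Finset.sum_add_distrib, Finset.sum_const, smul_eq_mul, ← Finset.mul_sum] at h2
  have h3 := avg hcl Y 2 1 (by norm_num)
  rw [Finset.sum_add_distrib, Finset.sum_congr rfl fun v hv => cb_one hirr hv, Finset.sum_add_distrib,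
    Finset.sum_const, smul_eq_mul] at h3
  have h4 : Y.card = 7 ∨ Y.card = 8 := by omega
  rcases h4 with h4 | h4
  · -- 7 vertices
    obtain ⟨v, hv, h5⟩ := hcon.2 h4
    have h6 : ∑ v ∈ Y, 2 < ∑ v ∈ Y, dg A Y v :=
      Finset.sum_lt_sum hd2 ⟨v, hv, lt_of_le_of_ne (hd2 v hv) (Ne.symm h5)⟩
    rw [Finset.sum_const, smul_eq_mul] at h6
    rw [h4] at h2 h3 hD h6
    omega
  · -- 8 vertices
    rw [h4] at h2 h3 hD
    have h5 : ∑ v ∈ Y, dg A Y v = 21 := by omega
    have h6 : ∑ v ∈ Y, (cb (rs A Y) v 2).card ≤ 43 := by omega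
    -- a vertex with `d = 4` and growth 1
    have h7 : ∃ v ∈ Y, dg A Y v = 4 ∧ (cb (rs A Y) v 2).card ≤ (cb (rs A Y) v 1).card + 1 := by
      by_contra hno
      push Not at hno
      have h8 : ∀ v ∈ Y, 11 + 2 * dg A Y v ≤ 3 * (cb (rs A Y) v 2).card := by
        intro v hv
        have g2 := cb_one hirr hv
        have g3 := h0 v hv
        have g5 := hd2 v hv
        rcases Nat.lt_or_ge 3 (dg A Y v) with g | g
        · rcases Nat.lt_or_ge 4 (dg A Y v) with g' | g'
          · omega
          · have g6 := hno v hv (by omega)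
            omega
        · have g4 := gr_two hcl (by norm_num) hd2 hv g
          omega
      have h9 := Finset.sum_le_sum h8
      rw [Finset.sum_add_distrib, Finset.sum_const, smul_eq_mul, ← Finset.mul_sum, ← Finset.mul_sum, h4] at h9
      omega
    obtain ⟨v, hv, h8, h9⟩ := h7
    exact no_eight hcl hd2 h4 hv h8 h9

/-- seven vertices with two out-neighbours inside and five common out-neighbours outside: at least 22 vertices -/
lemma seven (hcl : NoCl A 3) (hout : ∀ v, (Finset.univ.filter fun u => A v u).card = 7)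
    (hin : ∀ v, (Finset.univ.filter fun u => A u v).card = 7) {Y : Finset V} (hY : Fr A 7 2 Y) (hc : Y.card = 7)
    (hd : ∀ v ∈ Y, dg A Y v = 2) : 22 ≤ Fintype.card V := by
  have hirr := LAY_.irr hcl (by norm_num)
  obtain ⟨S, hS, hcl'⟩ := hY
  have hS5 : S.card ≤ 5 := by omega
  -- all the arcs from `Y` to `S`
  have hYS : ∀ v ∈ Y, ((Finset.univ.filter fun u => A v u) \ Y) = S := by
    intro v hv
    have h1 : ((Finset.univ.filter fun u => A v u) \ Y) ⊆ S := by
      intro u hu
      rw [Finset.mem_sdiff, Finset.mem_filter] at hu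
      exact (hcl' v hv u hu.1.2).resolve_left hu.2
    refine Finset.eq_of_subset_of_card_le h1 ?_
    have h2 := Finset.card_sdiff_add_card_inter (Finset.univ.filter fun u => A v u) Y
    have h3 : (Finset.univ.filter fun u => A v u) ∩ Y = Y.filter fun u => A v u := by
      ext u
      rw [Finset.mem_inter, Finset.mem_filter, Finset.mem_filter]
      constructor
      · rintro ⟨⟨_, h⟩, h'⟩
        exact ⟨h', h⟩
      · rintro ⟨h, h'⟩
        exact ⟨⟨Finset.mem_univ _, h'⟩, h⟩
    rw [h3, hout v] at h2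
    have h4 := hd v hv
    unfold dg at h4
    omega
  have hS5' : S.card = 5 := by
    obtain ⟨v, hv⟩ : Y.Nonempty := by
      rw [← Finset.card_pos]
      omega
    have h2 := Finset.card_sdiff_add_card_inter (Finset.univ.filter fun u => A v u) Y
    rw [hYS v hv, hout v] at h2
    have h3 : ((Finset.univ.filter fun u => A v u) ∩ Y).card = dg A Y v := by
      unfold dg
      congr 1
      ext u
      rw [Finset.mem_inter, Finset.mem_filter, Finset.mem_filter]
      constructor
      · rintro ⟨⟨_, h⟩, h'⟩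
        exact ⟨h', h⟩
      · rintro ⟨h, h'⟩
        exact ⟨⟨Finset.mem_univ _, h'⟩, h⟩
    rw [h3, hd v hv] at h2
    omega
  have hA : ∀ v ∈ Y, ∀ s ∈ S, A v s ∧ s ∉ Y := by
    intro v hv s hs
    rw [← hYS v hv, Finset.mem_sdiff, Finset.mem_filter] at hs
    exact ⟨hs.1.2, hs.2⟩
  -- the in-neighbours of `S`
  have hinS : ∀ s ∈ S, ∀ x, A x s → x ∈ Y := by
    intro s hs x hx
    have h1 : Y ⊆ Finset.univ.filter fun u => A u s := fun v hv =>
      Finset.mem_filter.2 ⟨Finset.mem_univ _, (hA v hv s hs).1⟩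
    have h2 := Finset.eq_of_subset_of_card_le h1 (by rw [hin s, hc])
    rw [h2]
    exact Finset.mem_filter.2 ⟨Finset.mem_univ _, hx⟩
  -- a vertex of `Y` with at most two in-neighbours in `Y`
  obtain ⟨y, hy, hy2⟩ : ∃ y ∈ Y, (Y.filter fun x => A x y).card ≤ 2 := by
    by_contra hno
    push Not at hno
    have h1 : ∑ y ∈ Y, (Y.filter fun x => A x y).card = ∑ v ∈ Y, dg A Y v := by
      unfold dg
      simp only [Finset.card_filter]
      exact Finset.sum_comm
    have h2 := Finset.sum_le_sum fun y (hy : y ∈ Y) => (show 3 ≤ (Y.filter fun x => A x y).card from hno y hy)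
    rw [Finset.sum_const, smul_eq_mul, h1, Finset.sum_congr rfl hd, Finset.sum_const, smul_eq_mul] at h2
    omega
  obtain ⟨s, hs⟩ : S.Nonempty := by
    rw [← Finset.card_pos]
    omega
  set W := (Finset.univ.filter fun u => A u y) \ Y with hW
  set N := Finset.univ.filter fun u => A s u with hN
  have hNc : N.card = 7 := hout s
  have hWc : 5 ≤ W.card := by
    have h2 := Finset.card_sdiff_add_card_inter (Finset.univ.filter fun u => A u y) Y
    rw [← hW, hin y] at h2
    have h3 : ((Finset.univ.filter fun u => A u y) ∩ Y).card = (Y.filter fun x => A x y).card := by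
      congr 1
      ext u
      rw [Finset.mem_inter, Finset.mem_filter, Finset.mem_filter]
      constructor
      · rintro ⟨⟨_, h⟩, h'⟩
        exact ⟨h', h⟩
      · rintro ⟨h, h'⟩
        exact ⟨⟨Finset.mem_univ _, h'⟩, h⟩
    rw [h3] at h2
    omega
  have d1 : Disjoint Y S := by
    rw [Finset.disjoint_left]
    intro x hx hx'
    exact (hA x hx x hx').2 hx
  have d2 : Disjoint (Y ∪ S) N := by
    rw [Finset.disjoint_left]
    intro x hx hx'
    rw [hN, Finset.mem_filter] at hx'
    rcases Finset.mem_union.1 hx with h | h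
    · exact no2 hcl (by norm_num) (hA x h s hs).1 hx'.2
    · exact (hA y hy s hs).2 (hinS x h s hx'.2)
  have d3 : Disjoint (Y ∪ S ∪ N) W := by
    rw [Finset.disjoint_left]
    intro x hx hx'
    rw [hW, Finset.mem_sdiff, Finset.mem_filter] at hx'
    rcases Finset.mem_union.1 hx with h | h
    · rcases Finset.mem_union.1 h with h | h
      · exact hx'.2 h
      · exact no2 hcl (by norm_num) hx'.1.2 (hA y hy x h).1
    · rw [hN, Finset.mem_filter] at h
      exact no3 hcl (le_refl 3) (hA y hy s hs).1 h.2 hx'.1.2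
  have h1 := Finset.card_le_univ (Y ∪ S ∪ N ∪ W)
  rw [Finset.card_union_of_disjoint d3, Finset.card_union_of_disjoint d2, Finset.card_union_of_disjoint d1] at h1
  omega

/-- **fragments of excess 2, degree 7, girth 4** -/
theorem fr2_3 (hcl : NoCl A 3) (hout : ∀ v, (Finset.univ.filter fun u => A v u).card = 7)
    (hin : ∀ v, (Finset.univ.filter fun u => A u v).card = 7) {X : Finset V} (hX : X.Nonempty)
    (h : Fr A 7 2 X) : 9 ≤ X.card ∨ 22 ≤ Fintype.card V := by
  obtain ⟨Y, hYX, hY⟩ := exists_min hX h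
  rcases mi2_3 hcl hout hin hY with h1 | ⟨h1, h2⟩
  · exact Or.inl (h1.trans (Finset.card_le_card hYX))
  · exact Or.inr (seven hcl hout hin hY.2.1 h1 h2)

end K7_

end Pool.Agent.Lib.MP_83608f_co.CN
end
end

section
/-! MP_83608f_co, part CN, module K7C (helper90): the Behzad-Chartrand-Wall conjecture for the degree 7, every girth. -/
set_option autoImplicit false

open Classical

noncomputable section

namespace Pool.Agent.Lib.MP_83608f_co.CN

namespace K7_

open SD_

variable {V : Type} [Fintype V] {A : V → V → Prop} {k m e : ℕ}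

/-- girth 3: a vertex, its out-neighbours and its in-neighbours -/
lemma m_two [Nonempty V] (hcl : NoCl A 2) (hout : ∀ v, (Finset.univ.filter fun u => A v u).card = k)
    (hin : ∀ v, (Finset.univ.filter fun u => A u v).card = k) : 2 * k + 1 ≤ Fintype.card V := by
  have hirr := LAY_.irr hcl (by norm_num)
  obtain ⟨v⟩ := ‹Nonempty V›
  have d1 : Disjoint (Finset.univ.filter fun u => A v u) (Finset.univ.filter fun u => A u v) := by
    rw [Finset.disjoint_left]
    intro x hx hx'
    exact no2 hcl (le_refl 2) (Finset.mem_filter.1 hx).2 (Finset.mem_filter.1 hx').2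
  have d2 : v ∉ (Finset.univ.filter fun u => A v u) ∪ (Finset.univ.filter fun u => A u v) := by
    intro h
    rcases Finset.mem_union.1 h with h | h
    · exact hirr v (Finset.mem_filter.1 h).2
    · exact hirr v (Finset.mem_filter.1 h).2
  have h1 := Finset.card_le_univ (insert v
    ((Finset.univ.filter fun u => A v u) ∪ (Finset.univ.filter fun u => A u v)))
  rw [Finset.card_insert_of_notMem d2, Finset.card_union_of_disjoint d1, hout v, hin v] at h1
  omega

/-- **The Behzad-Chartrand-Wall conjecture for the degree 7.** -/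
theorem bcw7 (V : Type) [Fintype V] [Nonempty V] (A : V → V → Prop) (m : ℕ) (hm : 2 ≤ m)
    (hout : ∀ v, (Finset.univ.filter fun u => A v u).card = 7)
    (hin : ∀ v, (Finset.univ.filter fun u => A u v).card = 7) (hcl : NoCl A m) :
    7 * m + 1 ≤ Fintype.card V := by
  rcases Nat.lt_or_ge m 3 with hm2 | hm3
  · obtain rfl : m = 2 := by omega
    exact m_two hcl hout hin
  obtain ⟨c, hc7, hconn, O, S, U, hO, hU, hS, -, -, hn, hcO, hcU⟩ :=
    CUT_.exists_cut (k := 7) (by norm_num) (LAY_.anti hcl hm) hout hin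
  have hcl' : NoCl (fun a b => A b a) m := CUT_.nocl_flip hcl
  have hO' : ∀ e, c + e ≤ 7 → Fr A 7 e O := fun e he => ⟨S, by omega, hcO⟩
  have hU' : ∀ e, c + e ≤ 7 → Fr (fun a b => A b a) 7 e U := fun e he =>
    ⟨S, by omega, fun a ha b hab => hcU a ha b hab⟩
  rcases Nat.lt_or_ge c 6 with h6 | h6
  · rcases Nat.lt_or_ge c 5 with h5 | h5
    · rcases Nat.lt_or_ge c 4 with h4 | h4
      · -- excess at least 4
        have g1 := fr4 hcl hm3 hout hin hO (hO' 4 (by omega))
        have g2 := fr4 (A := fun a b => A b a) hcl' hm3 hin hout hU (hU' 4 (by omega))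
        omega
      · -- excess 3
        have g1 := fr3 hcl hm3 hout hin hO (hO' 3 (by omega))
        have g2 := fr3 (A := fun a b => A b a) hcl' hm3 hin hout hU (hU' 3 (by omega))
        omega
    · -- excess 2
      rcases Nat.lt_or_ge m 5 with hm5 | hm5
      · obtain rfl | rfl : m = 3 ∨ m = 4 := by omega
        · rcases fr2_3 hcl hout hin hO (hO' 2 (by omega)) with g1 | g1
          · rcases fr2_3 (A := fun a b => A b a) hcl' hin hout hU (hU' 2 (by omega)) with g2 | g2
            · omega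
            · omega
          · omega
        · have g1 := fr2_4 hcl hout hin hO (hO' 2 (by omega))
          have g2 := fr2_4 (A := fun a b => A b a) hcl' hin hout hU (hU' 2 (by omega))
          omega
      · have h1 := e2_conn V A 7 c m (by norm_num) hm (by omega) hout hin hcl hconn (by omega)
        omega
  · have h1 := te V A 7 c m (by norm_num) hout hin hm hcl (by omega) hconn
    have h2 : min 7 (c + 1) = 7 := by omega
    rw [h2] at h1
    omega

end K7_

end Pool.Agent.Lib.MP_83608f_co.CN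
end
end

section
/-! MP_83608f_co, part CN, module SD3 (helper91): the Behzad-Chartrand-Wall conjecture for the degree 6, every girth. -/
set_option autoImplicit false

open Classical

noncomputable section

namespace Pool.Agent.Lib.MP_83608f_co.CN

open Pool.Agent.Lib.MP_83608f_co.EM (Wk)

namespace SD_

open LAY_ (cb cb_walk cb_sub mem_cb_self)

variable {V : Type} [Fintype V] {A : V → V → Prop} {k m e : ℕ}

/-- the average of two balls, from a bound for each vertex -/
lemma fin_avg (hcl : NoCl A m) (X : Finset V) (i j a b : ℕ) (hij : i + j ≤ m)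
    (h : ∀ v ∈ X, a + b * dg A X v ≤ (cb (rs A X) v i).card + (cb (rs A X) v j).card) :
    a * X.card + b * ∑ v ∈ X, dg A X v ≤ X.card * (X.card + 1) := by
  refine le_trans (le_of_eq ?_) ((Finset.sum_le_sum h).trans (avg hcl X i j hij))
  rw [Finset.sum_add_distrib, Finset.sum_const, smul_eq_mul, Finset.mul_sum, mul_comm]

/-- the balls grow at least as fast as the excess allows -/
lemma ball_ge {X : Finset V} (hX : Fr A k e X) {v : V} (hv : v ∈ X) (x M : ℕ) (hx : x ≤ e)
    (hM : ∀ Y : Finset V, Y.Nonempty → Fr A k x Y → M ≤ Y.card) (l : ℕ) :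
    min ((cb (rs A X) v 1).card + (e - x + 1) * l) M ≤ (cb (rs A X) v (l + 1)).card := by
  induction l with
  | zero =>
    rw [Nat.mul_zero, Nat.add_zero]
    exact min_le_left _ _
  | succ l ih =>
    rcases Nat.lt_or_ge (cb (rs A X) v (l + 1)).card M with h | h
    · have h1 := grow_ge hX hv (l + 1) x M hx hM h
      have h2 : (e - x + 1) * (l + 1) = (e - x + 1) * l + (e - x + 1) := by ring
      rw [h2]
      omega
    · exact (min_le_right _ _).trans (h.trans (Finset.card_le_card (cb_sub _ _)))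

/-- minimal fragments of excess 1, degree 6 -/
lemma fr1 (hcl : NoCl A m) (hm : 2 ≤ m) (hout : ∀ v, (Finset.univ.filter fun u => A v u).card = 6)
    (hin : ∀ v, (Finset.univ.filter fun u => A u v).card = 6) {X : Finset V} (hX : X.Nonempty)
    (h : Fr A 6 1 X) :
    m + 1 ≤ X.card ∧ (m = 6 → 12 ≤ X.card) ∧ (m = 7 → 14 ≤ X.card) ∧ (m = 8 → 15 ≤ X.card) ∧
      (9 ≤ m → m + 8 ≤ X.card) := by
  obtain ⟨Y, hYX, hY⟩ := exists_min hX h
  have hle := Finset.card_le_card hYX
  have hirr := LAY_.irr hcl (by omega)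
  have h1 : m + 1 ≤ Y.card := by
    by_contra hcon
    obtain ⟨u, hu, h2⟩ := term0 hcl hY.1 (by omega : Y.card ≤ m)
    have h3 := dg_ge hout hY.2.1 hu
    have h4 : dg A Y u = 0 := by
      unfold dg
      rw [Finset.card_eq_zero, Finset.filter_eq_empty_iff]
      exact fun w hw => h2 w hw
    omega
  have hg : ∀ v ∈ Y, ∀ l, l + 1 ≤ m → dg A Y v + (l + 1) ≤ (cb (rs A Y) v (l + 1)).card := by
    intro v hv l hl
    induction l with
    | zero =>
      rw [Nat.zero_add, cb_one hirr hv]
      omega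
    | succ l ih =>
      have h2 := ih (by omega)
      have h3 := grow_one (by norm_num) (le_refl 1) hcl hout hY hv (l + 1) hl
      omega
  have h2 := fin_avg hcl Y 1 (m - 1) m 2 (by omega) (fun v hv => by
    have h3 := hg v hv 0 (by omega)
    have h4 := hg v hv (m - 2) (by omega)
    have h5 : m - 2 + 1 = m - 1 := by omega
    rw [h5] at h4
    rw [Nat.zero_add] at h3
    omega)
  have h3 := sum_dg hout hin hY.2.1
  generalize hs : Y.card = s at *
  generalize ∑ v ∈ Y, dg A Y v = T at *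
  have h4 : (m + 11) * s ≤ s * s + 60 := by nlinarith
  refine ⟨by omega, ?_, ?_, ?_, ?_⟩
  · rintro rfl
    by_contra hcon
    have h5 : s ≤ 11 := by omega
    interval_cases s <;> omega
  · rintro rfl
    by_contra hcon
    have h5 : s ≤ 13 := by omega
    interval_cases s <;> omega
  · rintro rfl
    by_contra hcon
    have h5 : s ≤ 14 := by omega
    interval_cases s <;> omega
  · intro h9
    by_contra hcon
    obtain ⟨j, hj⟩ : ∃ j, s = m + 1 + j := ⟨s - (m + 1), by omega⟩
    have hj6 : j ≤ 6 := by omega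
    subst hj
    interval_cases j <;> nlinarith

/-- the state of a ball: `b` vertices in the ball of radius `l + 1`, `C` the deficiency of the levels `1..l` -/
def St (m b C d l : ℕ) : Prop :=
  2 * m + 1 ≤ b ∨ (b ≤ m ∧ 3 * (1 + d) + 13 * l ≤ 3 * b + C) ∨
  (m + 1 ≤ b ∧ b ≤ m + 7 ∧ 27 * (1 + d) + 12 * (m + 1) + 117 * l ≤ 13 * (3 * b + C)) ∨
  (m + 8 ≤ b ∧ b ≤ 2 * m ∧ 189 * (1 + d) + 84 * (m + 1) + 78 * (m + 8) + 819 * l ≤ 117 * (3 * b + C))

lemma st_step (m b C d l b' c : ℕ) (h : St m b C d l) (h1 : b + 1 ≤ b') (h2 : b < m + 8 → b + 2 ≤ b')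
    (h3 : b ≤ m → 12 + 2 * b ≤ 2 * b' + 1 + c) (h4 : b ≤ 2 * m → 6 + b ≤ b' + 1 + c) :
    St m b' (C + c) d (l + 1) := by
  unfold St at *
  rcases Nat.lt_or_ge (2 * m) b' with g | g
  · exact Or.inl g
  refine Or.inr ?_
  rcases h with h | h | h | h
  · omega
  · have h5 := h2 (by omega)
    have h6 := h3 h.1
    rcases Nat.lt_or_ge m b' with g1 | g1
    · refine Or.inr ?_
      rcases Nat.lt_or_ge (m + 7) b' with g2 | g2
      · exact Or.inr ⟨g2, g, by omega⟩
      · exact Or.inl ⟨g1, g2, by omega⟩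
    · exact Or.inl ⟨g1, by omega⟩
  · have h5 := h2 (by omega)
    have h6 := h4 (by omega)
    refine Or.inr ?_
    rcases Nat.lt_or_ge (m + 7) b' with g2 | g2
    · exact Or.inr ⟨g2, g, by omega⟩
    · exact Or.inl ⟨by omega, g2, by omega⟩
  · have h6 := h4 h.2.1
    exact Or.inr (Or.inr ⟨by omega, g, by omega⟩)

lemma st_fin (m b C d l : ℕ) (hm : 10 ≤ m) (h : St m b C d l) (hd : 2 ≤ d) (hd6 : d ≤ 6)
    (h1 : 2 * (l + 1) ≤ m + 1) (h2 : m ≤ 2 * (l + 1) + 1) :
    189 * d + 162 * m + 819 * (l + 1) ≤ 117 * (3 * b + C) + 39 := by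
  unfold St at h
  obtain h3 | h3 | h3 : m = 2 * l + 1 ∨ m = 2 * l + 2 ∨ m = 2 * l + 3 := by omega
  all_goals
    subst h3
    rcases h with h | h | h | h
    · omega
    · omega
    · omega
    · omega

/-- minimal fragments of excess 2, degree 6 -/
lemma fr2 (hcl : NoCl A m) (hm : 2 ≤ m) (hout : ∀ v, (Finset.univ.filter fun u => A v u).card = 6)
    (hin : ∀ v, (Finset.univ.filter fun u => A u v).card = 6) {X : Finset V} (hX : X.Nonempty)
    (h : Fr A 6 2 X) : 3 * m ≤ X.card + 1 := by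
  obtain ⟨Y, hYX, hY⟩ := exists_min hX h
  have hle := Finset.card_le_card hYX
  have hirr := LAY_.irr hcl (by omega)
  by_contra hcon
  have hd2 : ∀ v ∈ Y, 2 ≤ dg A Y v := fun v hv => dg_ge hout hY.2.1 hv
  have hd6 : ∀ v, dg A Y v ≤ 6 := fun v => dg_le hout Y v
  have hs1 : 2 * m + 1 ≤ Y.card := by
    by_contra hcon
    obtain ⟨u, hu, h2⟩ := term1 hcl hY.1 (by omega : Y.card ≤ 2 * m)
    have h3 := hd2 u hu
    omega
  have hs2 : Y.card + 2 ≤ 3 * m := by omega
  have hone : ∀ v ∈ Y, (cb (rs A Y) v 1).card = 1 + dg A Y v := fun v hv => cb_one hirr hv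
  have g1 : ∀ v ∈ Y, ∀ l, l + 1 ≤ m → (cb (rs A Y) v l).card + 1 ≤ (cb (rs A Y) v (l + 1)).card :=
    fun v hv l hl => grow_one (by norm_num) (by norm_num) hcl hout hY hv l hl
  have hD := sum_dg hout hin hY.2.1
  have hM : ∀ M, (∀ Z : Finset V, Z.Nonempty → Fr A 6 1 Z → M ≤ Z.card) → ∀ v ∈ Y, ∀ l,
      (cb (rs A Y) v l).card < M → (cb (rs A Y) v l).card + 2 ≤ (cb (rs A Y) v (l + 1)).card := by
    intro M h1 v hv l hl
    have := grow_ge hY.2.1 hv l 1 M (by norm_num) h1 hl
    omega
  have hB : ∀ M, (∀ Z : Finset V, Z.Nonempty → Fr A 6 1 Z → M ≤ Z.card) → ∀ v ∈ Y, ∀ l,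
      min (1 + dg A Y v + 2 * l) M ≤ (cb (rs A Y) v (l + 1)).card := by
    intro M h1 v hv l
    have := ball_ge hY.2.1 hv 1 M (by norm_num) h1 l
    rw [hone v hv] at this
    exact this
  have hmid : ∀ M, (∀ Z : Finset V, Z.Nonempty → Fr A 6 1 Z → M ≤ Z.card) → m + 6 ≤ M →
      (2 * m - 2) * Y.card + 2 * ∑ v ∈ Y, dg A Y v ≤ Y.card * (Y.card + 1) := by
    intro M h1 h2
    refine fin_avg hcl Y ((m + 1) / 2) (m / 2) (2 * m - 2) 2 (by omega) fun v hv => ?_
    have h3 := hB M h1 v hv ((m + 1) / 2 - 1)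
    have h4 := hB M h1 v hv (m / 2 - 1)
    have e1 : (m + 1) / 2 - 1 + 1 = (m + 1) / 2 := by omega
    have e2 : m / 2 - 1 + 1 = m / 2 := by omega
    rw [e1] at h3
    rw [e2] at h4
    have h5 := hd6 v
    have h6 := hd2 v hv
    omega
  rcases Nat.lt_or_ge m 10 with hm10 | hm10
  · rcases Nat.lt_or_ge m 6 with hm6 | hm6
    · -- m = 2, 3, 4, 5
      have hM' := hM (m + 1) fun Z hZ1 hZ2 => (fr1 hcl hm hout hin hZ1 hZ2).1
      obtain rfl | rfl | rfl | rfl : m = 2 ∨ m = 3 ∨ m = 4 ∨ m = 5 := by omega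
      · omega
      · have h2 := fin_avg hcl Y 2 1 6 1 (by omega) (fun v hv => by
          have a1 := hM' v hv 1
          have a2 := g1 v hv 1 (by omega)
          have a3 := hone v hv
          have a4 := hd2 v hv
          norm_num at a1 a2
          omega)
        generalize Y.card = s at *
        generalize ∑ v ∈ Y, dg A Y v = T at *
        have h5 : s ≤ 7 := by omega
        interval_cases s
        omega
      · have h2 := fin_avg hcl Y 2 2 8 1 (by omega) (fun v hv => by
          have a1 := hM' v hv 1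
          have a2 := g1 v hv 1 (by omega)
          have a3 := hone v hv
          have a4 := hd2 v hv
          have a5 := hd6 v
          norm_num at a1 a2
          omega)
        generalize Y.card = s at *
        generalize ∑ v ∈ Y, dg A Y v = T at *
        have h5 : s ≤ 10 := by omega
        interval_cases s <;> omega
      · have h2 := fin_avg hcl Y 3 2 10 1 (by omega) (fun v hv => by
          have a1 := hM' v hv 1
          have a2 := g1 v hv 1 (by omega)
          have a3 := hone v hv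
          have a4 := hd2 v hv
          have a5 := hd6 v
          have a6 := hM' v hv 2
          have a7 := g1 v hv 2 (by omega)
          norm_num at a1 a2 a6 a7
          omega)
        generalize Y.card = s at *
        generalize ∑ v ∈ Y, dg A Y v = T at *
        have h5 : s ≤ 13 := by omega
        interval_cases s <;> omega
    · -- m = 6, 7, 8, 9
      obtain rfl | rfl | rfl | rfl : m = 6 ∨ m = 7 ∨ m = 8 ∨ m = 9 := by omega
      · have h2 := hmid 12 (fun Z hZ1 hZ2 => (fr1 hcl hm hout hin hZ1 hZ2).2.1 rfl) (by norm_num)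
        generalize Y.card = s at *
        generalize ∑ v ∈ Y, dg A Y v = T at *
        have h5 : s ≤ 16 := by omega
        interval_cases s <;> omega
      · have h2 := hmid 14 (fun Z hZ1 hZ2 => (fr1 hcl hm hout hin hZ1 hZ2).2.2.1 rfl) (by norm_num)
        generalize Y.card = s at *
        generalize ∑ v ∈ Y, dg A Y v = T at *
        have h5 : s ≤ 19 := by omega
        interval_cases s <;> omega
      · have h2 := hmid 15 (fun Z hZ1 hZ2 => (fr1 hcl hm hout hin hZ1 hZ2).2.2.2.1 rfl) (by norm_num)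
        generalize Y.card = s at *
        generalize ∑ v ∈ Y, dg A Y v = T at *
        have h5 : s ≤ 22 := by omega
        interval_cases s <;> omega
      · have h2 := hmid 17 (fun Z hZ1 hZ2 => (fr1 hcl hm hout hin hZ1 hZ2).2.2.2.2 (by norm_num))
          (by norm_num)
        generalize Y.card = s at *
        generalize ∑ v ∈ Y, dg A Y v = T at *
        have h5 : s ≤ 25 := by omega
        interval_cases s <;> omega
  -- m at least 10
  have hF1 : ∀ Z : Finset V, Z.Nonempty → Fr A 6 1 Z → m + 8 ≤ Z.card := fun Z hZ1 hZ2 =>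
    (fr1 hcl hm hout hin hZ1 hZ2).2.2.2.2 (by omega)
  have hst : ∀ v ∈ Y, ∀ l, l + 1 ≤ m → ∃ C, C + df A 6 Y v 0 = df A 6 Y v l ∧
      St m (cb (rs A Y) v (l + 1)).card C (dg A Y v) l := by
    intro v hv l hl
    induction l with
    | zero =>
      refine ⟨0, by omega, Or.inr (Or.inl ?_)⟩
      have h1 := hone v hv
      have h2 := hd6 v
      rw [Nat.zero_add]
      omega
    | succ l ih =>
      obtain ⟨C, hC, hS⟩ := ih (by omega)
      refine ⟨C + ∑ u ∈ nw A Y v l, (6 - dg A Y u), ?_, ?_⟩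
      · rw [df_succ]
        omega
      · have h1 := g1 v hv (l + 1) hl
        have h2 := hM (m + 8) hF1 v hv (l + 1)
        have hb2 : 2 ≤ (cb (rs A Y) v (l + 1)).card := by
          have h3 := Finset.card_le_card (cb_mono (A := rs A Y) v (show 1 ≤ l + 1 by omega))
          have h4 := hone v hv
          have h5 := hd2 v hv
          omega
        exact st_step m _ C _ l _ _ hS h1 h2
          (fun h3 => slow0 hcl hd2 hd6 hv l h3 hb2) (fun h3 => slow1 hcl hd2 hd6 hv l h3)
  have hper : ∀ v ∈ Y, ∀ i, 1 ≤ i → i + 1 ≤ m → 2 * i ≤ m + 1 → m ≤ 2 * i + 1 →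
      189 * dg A Y v + (162 * m + 819 * i) + 117 * (6 - dg A Y v) ≤
        351 * (cb (rs A Y) v i).card + 117 * df A 6 Y v (i - 1) + 39 := by
    intro v hv i h1 h2 h3 h4
    obtain ⟨C, hC, hS⟩ := hst v hv (i - 1) (by omega)
    have e1 : i - 1 + 1 = i := by omega
    rw [e1] at hS
    have h5 := st_fin m _ C _ (i - 1) hm10 hS (hd2 v hv) (hd6 v) (by omega) (by omega)
    rw [e1] at h5
    have h6 : df A 6 Y v 0 = 6 - dg A Y v := by
      unfold df
      rw [cb, Finset.sum_singleton]
    rw [h6] at hC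
    omega
  have hsum : ∀ i, 1 ≤ i → i + 1 ≤ m → 2 * i ≤ m + 1 → m ≤ 2 * i + 1 →
      189 * (∑ v ∈ Y, dg A Y v) + (162 * m + 819 * i) * Y.card + 117 * (∑ v ∈ Y, (6 - dg A Y v)) +
        117 * ((1 + 2 * (m + 1 - i)) * ∑ v ∈ Y, (6 - dg A Y v)) ≤
      351 * (∑ v ∈ Y, (cb (rs A Y) v i).card) + 117 * ((Y.card + 1) * ∑ v ∈ Y, (6 - dg A Y v)) +
        39 * Y.card := by
    intro i h1 h2 h3 h4
    have h5 := Finset.sum_le_sum fun v (hv : v ∈ Y) => hper v hv i h1 h2 h3 h4
    simp only [Finset.sum_add_distrib, ← Finset.mul_sum] at h5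
    rw [Finset.sum_const, Finset.sum_const, Finset.sum_const, smul_eq_mul, smul_eq_mul, smul_eq_mul] at h5
    have h6 := avg_w hcl Y (fun u => 6 - dg A Y u) (i - 1) (m + 1 - i) (1 + 2 * (m + 1 - i)) (by omega)
      (fun u hu => by
        have h7 := hB (m + 8) hF1 u hu (m - i)
        have e2 : m - i + 1 = m + 1 - i := by omega
        rw [e2] at h7
        have h8 := hd2 u hu
        omega)
    have h7 : ∑ v ∈ Y, df A 6 Y v (i - 1) = ∑ v ∈ Y, ∑ u ∈ cb (rs A Y) v (i - 1), (6 - dg A Y u) := rfl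
    rw [h7] at h5
    nlinarith
  have hi := hsum ((m + 1) / 2) (by omega) (by omega) (by omega) (by omega)
  have hj := hsum (m / 2) (by omega) (by omega) (by omega) (by omega)
  have hav := avg hcl Y ((m + 1) / 2) (m / 2) (by omega)
  rw [Finset.sum_add_distrib] at hav
  have hDD : ∑ v ∈ Y, (6 - dg A Y v) + ∑ v ∈ Y, dg A Y v = 6 * Y.card := by
    rw [← Finset.sum_add_distrib, Finset.sum_congr rfl fun v _ => Nat.sub_add_cancel (hd6 v),
      Finset.sum_const, smul_eq_mul, mul_comm]
  have hD24 : ∑ v ∈ Y, (6 - dg A Y v) ≤ 24 := by omega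
  have em : (m + 1) / 2 + m / 2 = m := by omega
  generalize ∑ v ∈ Y, (6 - dg A Y v) = D at *
  generalize ∑ v ∈ Y, dg A Y v = T at *
  generalize ∑ v ∈ Y, (cb (rs A Y) v ((m + 1) / 2)).card = P at *
  generalize ∑ v ∈ Y, (cb (rs A Y) v (m / 2)).card = Q at *
  generalize Y.card = s at *
  have ei : 1 + 2 * (m + 1 - (m + 1) / 2) + (1 + 2 * (m + 1 - m / 2)) = 2 * m + 6 := by omega
  generalize 1 + 2 * (m + 1 - (m + 1) / 2) = M1 at *
  generalize 1 + 2 * (m + 1 - m / 2) = M2 at *
  generalize (m + 1) / 2 = i at *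
  generalize m / 2 = j at *
  have h1 : 189 * (2 * T) + (324 * m + 819 * m) * s + 117 * ((2 * m + 6) * D) ≤
      351 * (s * (s + 1)) + 117 * (2 * s * D) + 78 * s := by
    rw [← ei, ← em]
    nlinarith
  have h2 : ((T : ℤ)) = 6 * s - D := by
    have : ((D : ℤ)) + T = 6 * s := by exact_mod_cast hDD
    linarith
  zify at h1 hs1 hs2 hD24 hm10
  rw [h2] at h1
  have hD0 : (0 : ℤ) ≤ D := by positivity
  have h3 : (0 : ℤ) ≤ (24 - D) * (234 * (s : ℤ) + 378 - 234 * m - 702) := by
    apply mul_nonneg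
    · linarith
    · linarith
  have h4 : (0 : ℤ) ≤ ((s : ℤ) - (2 * m + 1)) * ((3 * m - 2) - s) := by
    apply mul_nonneg <;> linarith
  have h5 : (0 : ℤ) ≤ (612 * (m : ℤ) + 3426) * ((3 * m - 2) - s) := by
    apply mul_nonneg <;> linarith
  nlinarith

end SD_

end Pool.Agent.Lib.MP_83608f_co.CN
end
end

section
/-! MP_83608f_co, part CN, module SD4 (helper91): the Behzad-Chartrand-Wall conjecture for the degree 6, every girth,
the main theorem. -/
set_option autoImplicit false

open Classical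

noncomputable section

namespace Pool.Agent.Lib.MP_83608f_co.CN

open Pool.Agent.Lib.MP_83608f_co.EM (Wk)

namespace SD_

open LAY_ (cb cb_walk cb_sub mem_cb_self)

variable {V : Type} [Fintype V] {A : V → V → Prop} {k m e : ℕ}

/-- minimal fragments of excess 4, degree 6 -/
lemma fr4 (hcl : NoCl A m) (hm : 2 ≤ m) (hout : ∀ v, (Finset.univ.filter fun u => A v u).card = 6)
    (hin : ∀ v, (Finset.univ.filter fun u => A u v).card = 6) {X : Finset V} (hX : X.Nonempty)
    (h : Fr A 6 4 X) : 3 * m + 1 ≤ X.card := by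
  obtain ⟨Y, hYX, hY⟩ := exists_min hX h
  have hle := Finset.card_le_card hYX
  have hirr := LAY_.irr hcl (by omega)
  by_contra hcon
  have hd4 : ∀ v ∈ Y, 4 ≤ dg A Y v := fun v hv => dg_ge hout hY.2.1 hv
  have hd6 : ∀ v, dg A Y v ≤ 6 := fun v => dg_le hout Y v
  have hs4 : 4 ≤ Y.card := by
    obtain ⟨v, hv⟩ := hY.1
    exact (hd4 v hv).trans (Finset.card_filter_le _ _)
  have hD := sum_dg hout hin hY.2.1
  have h1 : 3 * m * Y.card + 1 * ∑ v ∈ Y, dg A Y v ≤ Y.card * (Y.card + 1) := by
    refine fin_avg hcl Y ((m + 1) / 2) (m / 2) (3 * m) 1 (by omega) fun v hv => ?_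
    have hF : ∀ Z : Finset V, Z.Nonempty → Fr A 6 2 Z → 3 * m - 1 ≤ Z.card := fun Z hZ1 hZ2 => by
      have := fr2 hcl hm hout hin hZ1 hZ2
      omega
    have h3 := ball_ge hY.2.1 hv 2 (3 * m - 1) (by norm_num) hF ((m + 1) / 2 - 1)
    have h4 := ball_ge hY.2.1 hv 2 (3 * m - 1) (by norm_num) hF (m / 2 - 1)
    have e1 : (m + 1) / 2 - 1 + 1 = (m + 1) / 2 := by omega
    have e2 : m / 2 - 1 + 1 = m / 2 := by omega
    rw [e1, cb_one hirr hv] at h3
    rw [e2, cb_one hirr hv] at h4
    have h5 := hd6 v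
    have h6 := hd4 v hv
    obtain rfl | rfl | h7 : m = 2 ∨ m = 3 ∨ 4 ≤ m := by omega
    · norm_num at h3 h4 ⊢
      rw [cb_one hirr hv]
      omega
    · have e3 : (3 + 1) / 2 - 1 = 1 := by norm_num
      have e4 : 3 / 2 - 1 = 0 := by norm_num
      rw [e3] at h3
      rw [e4] at h4
      omega
    · omega
  generalize Y.card = s at *
  generalize ∑ v ∈ Y, dg A Y v = T at *
  have h2 : s ≤ 3 * m := by omega
  nlinarith

/-- **The Behzad-Chartrand-Wall conjecture for the degree 6.** -/
theorem bcw6 (V : Type) [Fintype V] [Nonempty V] (A : V → V → Prop) (m : ℕ) (hm : 2 ≤ m)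
    (hout : ∀ v, (Finset.univ.filter fun u => A v u).card = 6)
    (hin : ∀ v, (Finset.univ.filter fun u => A u v).card = 6) (hcl : NoCl A m) :
    6 * m + 1 ≤ Fintype.card V := by
  obtain ⟨c, hc6, hconn, O, S, U, hO, hU, hS, -, -, hn, hcO, hcU⟩ :=
    CUT_.exists_cut (k := 6) (by norm_num) (LAY_.anti hcl hm) hout hin
  rcases Nat.lt_or_ge c 5 with h5 | h5
  · rcases Nat.lt_or_ge c 3 with h3 | h3
    · have h1 : Fr A 6 4 O := ⟨S, by omega, hcO⟩
      have h2 : Fr (fun a b => A b a) 6 4 U := ⟨S, by omega, fun a ha b hab => hcU a ha b hab⟩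
      have h6 := fr4 hcl hm hout hin hO h1
      have h7 := fr4 (A := fun a b => A b a) (CUT_.nocl_flip hcl) hm hin hout hU h2
      omega
    · have h1 : Fr A 6 2 O := ⟨S, by omega, hcO⟩
      have h2 : Fr (fun a b => A b a) 6 2 U := ⟨S, by omega, fun a ha b hab => hcU a ha b hab⟩
      have h6 := fr2 hcl hm hout hin hO h1
      have h7 := fr2 (A := fun a b => A b a) (CUT_.nocl_flip hcl) hm hin hout hU h2
      omega
  · have h1 := te V A 6 c m (by norm_num) hout hin hm hcl (by omega) hconn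
    have h2 : min 6 (c + 1) = 6 := by omega
    rw [h2] at h1
    omega

end SD_

end Pool.Agent.Lib.MP_83608f_co.CN
end
end

section
/-! MP_83608f_co, part CN, module Top2 (helper56): the theorems for digraphs, in terms of the girth `g`. -/
set_option autoImplicit false

open Classical

noncomputable section

namespace Pool.Agent.Lib.MP_83608f_co.CN

open Top_

/-- part (2), in terms of `g` -/
theorem top2g (hKER : SpecKER) (hUNC : SpecUNC) (V : Type) [Finite V] [Nonempty V] (G : Digraph V)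
    (k c g : ℕ) (hk : 1 ≤ k)
    (hout : ∀ v, Nat.card {u // G.Adj v u} = k) (hin : ∀ v, Nat.card {u // G.Adj u v} = k)
    (hconn : ∀ S : Set V, Nat.card S < c → ∀ u v : V, u ∉ S → v ∉ S →
      Relation.ReflTransGen (fun a b => G.Adj a b ∧ b ∉ S) u v)
    (hg : 4 ≤ g) (hgirth : EM.GirthGe G g) (γ : ℝ) (hγ : 0 < γ) (hγ1 : γ ≤ 1)
    (hγm : (1 - γ) ^ (g - 2) ≤ γ) :
    (Nat.card V : ℝ) * k ≤ Nat.card {p : V × V // p.2 ≠ p.1 ∧ ¬ G.Adj p.1 p.2 ∧
      ∃ y, G.Adj p.1 y ∧ G.Adj y p.2} + γ * (k - c) * Nat.card V ∧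
    (g = 4 → 3 * (k : ℝ) + 1 - γ * (k - c) ≤ Nat.card V) ∧
    (5 ≤ g → ((g : ℝ) - 1) * k + 1 - (g - 5 + 2 * γ) * (k - c) ≤ Nat.card V) := by
  obtain ⟨m, rfl⟩ : ∃ m, g = m + 1 := ⟨g - 1, by omega⟩
  have h1 : m + 1 - 2 = m - 1 := by omega
  rw [h1] at hγm
  obtain ⟨h2, h3, h4⟩ := top2 hKER hUNC V G k c m hk hout hin hconn (by omega) hgirth γ hγ hγ1 hγm
  refine ⟨h2, fun h => h3 (by omega), fun h => ?_⟩
  have h5 := h4 (by omega)
  push_cast
  have e1 : ((m : ℝ) + 1 - 1) * k + 1 - ((m : ℝ) + 1 - 5 + 2 * γ) * (k - c) =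
      (m : ℝ) * k + 1 - (m - 4 + 2 * γ) * (k - c) := by ring
  rw [e1]
  exact h5

/-- part (3): Theorem E -/
theorem top4 (V : Type) [Finite V] [Nonempty V] (G : Digraph V) (k c g : ℕ) (hk : 1 ≤ k)
    (hout : ∀ v, Nat.card {u // G.Adj v u} = k) (hin : ∀ v, Nat.card {u // G.Adj u v} = k)
    (hconn : ∀ S : Set V, Nat.card S < c → ∀ u v : V, u ∉ S → v ∉ S →
      Relation.ReflTransGen (fun a b => G.Adj a b ∧ b ∉ S) u v)
    (hg : 3 ≤ g) (hgirth : EM.GirthGe G g) (hc : 1 ≤ c) :
    2 * k + 1 + (g - 3) * min k (c + 1) ≤ Nat.card V := by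
  have := Fintype.ofFinite V
  obtain ⟨m, rfl⟩ : ∃ m, g = m + 1 := ⟨g - 1, by omega⟩
  have h := te V G.Adj k c m hk (out_card hout) (in_card hin) (by omega) (noCl hgirth) hc
    (conn hconn)
  have h1 : m + 1 - 3 = m - 2 := by omega
  rw [Nat.card_eq_fintype_card, h1]
  omega

end Pool.Agent.Lib.MP_83608f_co.CN
end
end

section
/-! MP_83608f_co, part CN, module Top5 (helper91): degree 6, in terms of `Digraph` and the girth. -/
set_option autoImplicit false

open Classical

noncomputable section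

namespace Pool.Agent.Lib.MP_83608f_co.CN

open Top_

/-- the conjecture for the degree six, every girth -/
theorem top5 (V : Type) [Finite V] [Nonempty V] (G : Digraph V)
    (hout : ∀ v, Nat.card {u // G.Adj v u} = 6) (hin : ∀ v, Nat.card {u // G.Adj u v} = 6)
    (g : ℕ) (hgirth : EM.GirthGe G g) : 6 * (g - 1) + 1 ≤ Nat.card V := by
  have := Fintype.ofFinite V
  rw [Nat.card_eq_fintype_card]
  rcases Nat.lt_or_ge g 2 with hg | hg
  · have h1 : 1 ≤ Fintype.card V := Fintype.card_pos
    omega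
  obtain ⟨m, rfl⟩ : ∃ m, g = m + 1 := ⟨g - 1, by omega⟩
  rcases Nat.lt_or_ge m 2 with hm | hm
  · obtain rfl : m = 1 := by omega
    obtain ⟨x⟩ := ‹Nonempty V›
    have h1 := TE_.cb_one (LAY_.irr (noCl hgirth) (le_refl 1)) (out_card hout) x
    have h2 := Finset.card_le_univ (LAY_.cb G.Adj x 1)
    omega
  · have h := SD_.bcw6 V G.Adj m hm (out_card hout) (in_card hin) (noCl hgirth)
    omega

end Pool.Agent.Lib.MP_83608f_co.CN
end
end

section
/-! MP_83608f_co, part CN, module K7D (helper90): degrees 6 and 7, in terms of `Digraph` and the girth. -/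
set_option autoImplicit false

open Classical

noncomputable section

namespace Pool.Agent.Lib.MP_83608f_co.CN

open Top_

/-- the conjecture for the degree seven, every girth -/
theorem top_k7 (V : Type) [Finite V] [Nonempty V] (G : Digraph V)
    (hout : ∀ v, Nat.card {u // G.Adj v u} = 7) (hin : ∀ v, Nat.card {u // G.Adj u v} = 7)
    (g : ℕ) (hgirth : EM.GirthGe G g) : 7 * (g - 1) + 1 ≤ Nat.card V := by
  have := Fintype.ofFinite V
  rw [Nat.card_eq_fintype_card]
  rcases Nat.lt_or_ge g 2 with hg | hg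
  · have h1 : 1 ≤ Fintype.card V := Fintype.card_pos
    omega
  obtain ⟨m, rfl⟩ : ∃ m, g = m + 1 := ⟨g - 1, by omega⟩
  rcases Nat.lt_or_ge m 2 with hm | hm
  · obtain rfl : m = 1 := by omega
    obtain ⟨x⟩ := ‹Nonempty V›
    have h1 := TE_.cb_one (LAY_.irr (noCl hgirth) (le_refl 1)) (out_card hout) x
    have h2 := Finset.card_le_univ (LAY_.cb G.Adj x 1)
    omega
  · have h := K7_.bcw7 V G.Adj m hm (out_card hout) (in_card hin) (noCl hgirth)
    omega

/-- the conjecture for the degrees six and seven, every girth -/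
theorem top_67 (V : Type) [Finite V] [Nonempty V] (G : Digraph V) (k : ℕ) (hk : k = 6 ∨ k = 7)
    (hout : ∀ v, Nat.card {u // G.Adj v u} = k) (hin : ∀ v, Nat.card {u // G.Adj u v} = k)
    (g : ℕ) (hgirth : EM.GirthGe G g) : k * (g - 1) + 1 ≤ Nat.card V := by
  rcases hk with rfl | rfl
  · exact top5 V G hout hin g hgirth
  · exact top_k7 V G hout hin g hgirth

end Pool.Agent.Lib.MP_83608f_co.CN
end
end
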