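import Pool.Agent.Lib.MP_83608f_co.CN.SpecP
import Pool.Agent.Lib.MP_83608f_co.CN.DCH
import Pool.Agent.Lib.MP_83608f_co.CN.PKER

section
/-! MP_83608f_co, part CN, module PBL (helper58): the averaged pair estimate, by blowing up every vertex. -/
set_option autoImplicit false

open Classical

noncomputable section

namespace Pool.Agent.Lib.MP_83608f_co.CN

namespace PBL_

variable {V : Type} [Fintype V] {R B : V → V → Prop} {k M a : ℕ}

/-- the blown up relation -/
def bl (R : V → V → Prop) (M : ℕ) (p q : V × Fin M) : Prop := p = q ∨ (p.1 ≠ q.1 ∧ R p.1 q.1)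

/-- the set of the vertices which can be reached from another vertex of `F` -/
def nb (B : V → V → Prop) (F : Finset V) : Finset V :=
  Finset.univ.filter fun v => ∃ u ∈ F, u ≠ v ∧ B u v

omit [Fintype V] in
lemma comp_iff (S T : V → V → Prop) (hS : ∀ x, S x x) (hT : ∀ x, T x x)
    (hanti : ∀ w y, S w y → T y w → y = w) (p q : V × Fin M) :
    (∃ y, bl S M p y ∧ bl T M y q) ↔ p = q ∨ (p.1 ≠ q.1 ∧ ∃ y, S p.1 y ∧ T y q.1) := by
  constructor
  · rintro ⟨y, h1, h2⟩
    by_cases hpq : p = q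
    · exact Or.inl hpq
    right
    by_cases h : p.1 = q.1
    · exfalso
      rcases h1 with h1 | h1
      · rcases h2 with h2 | h2
        · exact hpq (h1.trans h2)
        · rw [← h1] at h2
          exact h2.1 h
      · rcases h2 with h2 | h2
        · rw [h2] at h1
          exact h1.1 h
        · have h3 := hanti p.1 y.1 h1.2 (h ▸ h2.2)
          exact h1.1 h3.symm
    · refine ⟨h, ?_⟩
      rcases h1 with h1 | h1
      · rcases h2 with h2 | h2
        · exact absurd (h1.trans h2) hpq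
        · rw [← h1] at h2
          exact ⟨p.1, hS _, h2.2⟩
      · rcases h2 with h2 | h2
        · rw [h2] at h1
          exact ⟨q.1, h1.2, hT _⟩
        · exact ⟨y.1, h1.2, h2.2⟩
  · rintro (h | ⟨h, y, h1, h2⟩)
    · exact ⟨p, Or.inl rfl, Or.inl h⟩
    · by_cases hy : y = p.1
      · refine ⟨p, Or.inl rfl, Or.inr ⟨h, ?_⟩⟩
        rw [← hy]
        exact h2
      · by_cases hy' : y = q.1
        · refine ⟨q, Or.inr ⟨h, ?_⟩, Or.inl rfl⟩
          rw [← hy']
          exact h1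
        · exact ⟨(y, p.2), Or.inr ⟨fun h3 => hy h3.symm, h1⟩, Or.inr ⟨hy', h2⟩⟩

omit [Fintype V] in
lemma far_irr (hR : ∀ x, R x x) (hB : ∀ x, B x x) (v : V) : ¬ FarP R B v v :=
  fun h => h v (hB v) (hR v)

omit [Fintype V] in
lemma far_iff (hR : ∀ x, R x x) (hB : ∀ x, B x x) (hanti : ∀ w y, B w y → R y w → y = w)
    (p q : V × Fin M) :
    FarP (bl R M) (bl B M) p q ↔ FarP R B p.1 q.1 ∨ (p.1 = q.1 ∧ p.2 ≠ q.2) := by
  have h1 : FarP (bl R M) (bl B M) p q ↔ ¬ ∃ y, bl B M q y ∧ bl R M y p := by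
    constructor
    · rintro h ⟨y, h2, h3⟩
      exact h y h2 h3
    · intro h y h2 h3
      exact h ⟨y, h2, h3⟩
  rw [h1, comp_iff B R hB hR hanti]
  by_cases h : p.1 = q.1
  · constructor
    · intro h2
      exact Or.inr ⟨h, fun h3 => h2 (Or.inl (Prod.ext h h3).symm)⟩
    · rintro (h2 | h2)
      · exact absurd (h ▸ h2) (far_irr hR hB _)
      · rintro (h3 | h3)
        · exact h2.2 (congrArg Prod.snd h3).symm
        · exact h3.1 h.symm
  · constructor
    · intro h2
      refine Or.inl fun y h3 h4 => h2 (Or.inr ⟨fun h5 => h h5.symm, y, h3, h4⟩)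
    · rintro (h2 | h2)
      · rintro (h3 | ⟨h3, y, h4, h5⟩)
        · exact h (congrArg Prod.fst h3).symm
        · exact h2 y h4 h5
      · exact absurd h2.1 h

omit [Fintype V] in
lemma nad_iff (hR : ∀ x, R x x) (p q : V × Fin M) :
    NadP (bl R M) (bl B M) p q ↔ NadP R B p.1 q.1 ∨ (p.1 = q.1 ∧ p.2 ≠ q.2) := by
  by_cases h : p.1 = q.1
  · constructor
    · intro h2
      exact Or.inr ⟨h, fun h3 => h2.1 (Or.inl (Prod.ext h h3))⟩
    · rintro (h2 | h2)
      · exact absurd (h ▸ hR p.1 : R p.1 q.1) h2.1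
      · refine ⟨?_, ?_⟩
        · rintro (h3 | h3)
          · exact h2.2 (congrArg Prod.snd h3)
          · exact h3.1 h
        · rintro (h3 | h3)
          · exact h2.2 (congrArg Prod.snd h3).symm
          · exact h3.1 h.symm
  · constructor
    · intro h2
      exact Or.inl ⟨fun h3 => h2.1 (Or.inr ⟨h, h3⟩), fun h3 => h2.2 (Or.inr ⟨fun h4 => h h4.symm, h3⟩)⟩
    · rintro (h2 | h2)
      · refine ⟨?_, ?_⟩
        · rintro (h3 | h3)
          · exact h (congrArg Prod.fst h3)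
          · exact h2.1 h3.2
        · rintro (h3 | h3)
          · exact h (congrArg Prod.fst h3).symm
          · exact h2.2 h3.2
      · exact absurd h2.1 h

lemma col (hR : ∀ x, R x x) (hB : ∀ x, B x x) (hanti : ∀ w y, B w y → R y w → y = w) (ν : V → ℕ)
    (hcol : ∀ w, ∀ X : Finset V, (∀ x ∈ X, FarP R B x w) →
      X.card ≤ (Finset.univ.filter fun u => (∃ x ∈ X, R u x) ∧ ¬ R u w).card + ν w)
    (q : V × Fin M) (X : Finset (V × Fin M)) (hX : ∀ x ∈ X, FarP (bl R M) (bl B M) x q) :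
    X.card ≤ (Finset.univ.filter fun u => (∃ x ∈ X, bl R M u x) ∧ ¬ bl R M u q).card + M * ν q.1 := by
  classical
  obtain ⟨X0, hX0⟩ : ∃ X0 : Finset V, X0 = (X.filter fun p => p.1 ≠ q.1).image Prod.fst := ⟨_, rfl⟩
  have hfar : ∀ x ∈ X0, FarP R B x q.1 := by
    intro x hx
    rw [hX0, Finset.mem_image] at hx
    obtain ⟨p, hp, rfl⟩ := hx
    rw [Finset.mem_filter] at hp
    rcases (far_iff hR hB hanti p q).1 (hX p hp.1) with h | h
    · exact h
    · exact absurd h.1 hp.2
  have hc := hcol q.1 X0 hfar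
  obtain ⟨T, hT⟩ : ∃ T : Finset V, T = Finset.univ.filter fun u => (∃ x ∈ X0, R u x) ∧ ¬ R u q.1 :=
    ⟨_, rfl⟩
  rw [← hT] at hc
  have memT : ∀ u, u ∈ T ↔ (∃ x ∈ X0, R u x) ∧ ¬ R u q.1 := by
    intro u
    rw [hT, Finset.mem_filter]
    simp
  have hTq : ∀ u ∈ T, u ≠ q.1 := by
    intro u hu h
    exact ((memT u).1 hu).2 (h ▸ hR u)
  obtain ⟨N0, hN0⟩ : ∃ N0 : Finset V, N0 = T.filter fun u => ∃ x ∈ X0, u ≠ x ∧ R u x := ⟨_, rfl⟩
  obtain ⟨B1, hB1⟩ : ∃ B1 : Finset V, B1 = T.filter fun u => ¬ ∃ x ∈ X0, u ≠ x ∧ R u x := ⟨_, rfl⟩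
  have hBc : N0.card + B1.card = T.card := by
    rw [hN0, hB1]
    exact Finset.card_filter_add_card_filter_not _
  have hB1X : B1 ⊆ X0 := by
    intro u hu
    rw [hB1, Finset.mem_filter, memT] at hu
    obtain ⟨⟨⟨x, hx, hux⟩, -⟩, h⟩ := hu
    by_cases hxu : u = x
    · rw [hxu]
      exact hx
    · exact absurd ⟨x, hx, hxu, hux⟩ h
  have hB1X' := Finset.card_sdiff_add_card_eq_card hB1X
  have s1 : (X.filter fun p => p.1 = q.1).card + (X.filter fun p => ¬ p.1 = q.1).card = X.card :=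
    Finset.card_filter_add_card_filter_not _
  have s2 : ((X.filter fun p => ¬ p.1 = q.1).filter fun p => p.1 ∈ B1).card +
      ((X.filter fun p => ¬ p.1 = q.1).filter fun p => ¬ p.1 ∈ B1).card =
      (X.filter fun p => ¬ p.1 = q.1).card := Finset.card_filter_add_card_filter_not _
  have s3 : ((X.filter fun p => ¬ p.1 = q.1).filter fun p => ¬ p.1 ∈ B1).card ≤
      (X0 \ B1).card * M := by
    have h1 : ((X.filter fun p => ¬ p.1 = q.1).filter fun p => ¬ p.1 ∈ B1) ⊆
        (X0 \ B1) ×ˢ (Finset.univ : Finset (Fin M)) := by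
      intro p hp
      rw [Finset.mem_filter] at hp
      rw [Finset.mem_product, Finset.mem_sdiff, hX0]
      exact ⟨⟨Finset.mem_image_of_mem _ hp.1, hp.2⟩, Finset.mem_univ _⟩
    have h2 := Finset.card_le_card h1
    rwa [Finset.card_product, Finset.card_univ, Fintype.card_fin] at h2
  have hsub : (X.filter fun p => p.1 = q.1) ∪
      (((X.filter fun p => ¬ p.1 = q.1).filter fun p => p.1 ∈ B1) ∪
        N0 ×ˢ (Finset.univ : Finset (Fin M))) ⊆
      Finset.univ.filter fun u => (∃ x ∈ X, bl R M u x) ∧ ¬ bl R M u q := by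
    intro p hp
    rw [Finset.mem_filter]
    refine ⟨Finset.mem_univ _, ?_⟩
    rw [Finset.mem_union, Finset.mem_union, Finset.mem_filter, Finset.mem_filter, Finset.mem_filter,
      Finset.mem_product] at hp
    rcases hp with h | h | h
    · refine ⟨⟨p, h.1, Or.inl rfl⟩, ?_⟩
      rintro (h3 | h3)
      · have h4 := hX p h.1
        rw [h3] at h4
        exact h4 q (Or.inl rfl) (Or.inl rfl)
      · exact h3.1 h.2
    · refine ⟨⟨p, h.1.1, Or.inl rfl⟩, ?_⟩
      have h2 := h.2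
      rw [hB1, Finset.mem_filter, memT] at h2
      rintro (h3 | h3)
      · exact h.1.2 (congrArg Prod.fst h3)
      · exact h2.1.2 h3.2
    · have h' := h.1
      rw [hN0, Finset.mem_filter] at h'
      have h'' := (memT _).1 h'.1
      refine ⟨?_, ?_⟩
      · obtain ⟨x, hx, hux, hux'⟩ := h'.2
        rw [hX0, Finset.mem_image] at hx
        obtain ⟨p', hp', rfl⟩ := hx
        exact ⟨p', (Finset.mem_filter.1 hp').1, Or.inr ⟨hux, hux'⟩⟩
      · rintro (h3 | h3)
        · exact hTq _ h'.1 (congrArg Prod.fst h3)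
        · exact h''.2 h3.2
  have d1 : Disjoint ((X.filter fun p => ¬ p.1 = q.1).filter fun p => p.1 ∈ B1)
      (N0 ×ˢ (Finset.univ : Finset (Fin M))) := by
    rw [Finset.disjoint_left]
    intro p hp hp'
    have h1 := (Finset.mem_filter.1 hp).2
    rw [hB1, Finset.mem_filter] at h1
    rw [Finset.mem_product, hN0, Finset.mem_filter] at hp'
    exact h1.2 hp'.1.2
  have d2 : Disjoint (X.filter fun p => p.1 = q.1)
      (((X.filter fun p => ¬ p.1 = q.1).filter fun p => p.1 ∈ B1) ∪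
        N0 ×ˢ (Finset.univ : Finset (Fin M))) := by
    rw [Finset.disjoint_left]
    intro p hp hp'
    rw [Finset.mem_filter] at hp
    rw [Finset.mem_union, Finset.mem_filter, Finset.mem_filter, Finset.mem_product] at hp'
    rcases hp' with h | h
    · exact h.1.2 hp.2
    · have h' := h.1
      rw [hN0, Finset.mem_filter] at h'
      exact hTq _ h'.1 hp.2
  have h4 := Finset.card_le_card hsub
  rw [Finset.card_union_of_disjoint d2, Finset.card_union_of_disjoint d1, Finset.card_product,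
    Finset.card_univ, Fintype.card_fin] at h4
  have h5 : (X0 \ B1).card ≤ N0.card + ν q.1 := by omega
  have h6 : (X0 \ B1).card * M ≤ N0.card * M + M * ν q.1 := by
    calc (X0 \ B1).card * M ≤ (N0.card + ν q.1) * M := Nat.mul_le_mul_right _ h5
      _ = N0.card * M + M * ν q.1 := by ring
  omega

lemma mem_nb {F : Finset V} {v : V} : v ∈ nb B F ↔ ∃ u ∈ F, u ≠ v ∧ B u v := by simp [nb]

lemma row (haM : a ≤ M)
    (hrow : ∀ F : Finset V, F.Nonempty →
      M * ((F.filter fun v => v ∈ nb B F).card + k) ≤ M * (nb B F).card +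
        a * (F.filter fun v => v ∈ nb B F).card)
    (F : Finset (V × Fin M)) (hF : F.Nonempty)
    (hd : Disjoint F (Finset.univ.filter fun p : V × Fin M => (p.2 : ℕ) < a)) :
    F.card + k * M ≤ (Finset.univ.filter fun v => ∃ u ∈ F, bl B M u v).card := by
  classical
  obtain ⟨F0, hF0⟩ : ∃ F0 : Finset V, F0 = F.image Prod.fst := ⟨_, rfl⟩
  have hne : F0.Nonempty := by
    rw [hF0]
    exact hF.image _
  have hr := hrow F0 hne
  obtain ⟨F1, hF1⟩ : ∃ F1 : Finset V, F1 = F0.filter fun v => v ∈ nb B F0 := ⟨_, rfl⟩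
  rw [← hF1] at hr
  have s1 : (F.filter fun p => p.1 ∈ nb B F0).card + (F.filter fun p => ¬ p.1 ∈ nb B F0).card = F.card :=
    Finset.card_filter_add_card_filter_not _
  have s2 : (F.filter fun p => p.1 ∈ nb B F0).card + F1.card * a ≤ F1.card * M := by
    have h1 : Disjoint (F.filter fun p => p.1 ∈ nb B F0)
        (F1 ×ˢ (Finset.univ.filter fun i : Fin M => (i : ℕ) < a)) := by
      rw [Finset.disjoint_left]
      intro p hp hp'
      rw [Finset.mem_filter] at hp
      rw [Finset.mem_product, Finset.mem_filter] at hp'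
      exact (Finset.disjoint_left.1 hd hp.1) (Finset.mem_filter.2 ⟨Finset.mem_univ _, hp'.2.2⟩)
    have h2 : (F.filter fun p => p.1 ∈ nb B F0) ∪
        (F1 ×ˢ (Finset.univ.filter fun i : Fin M => (i : ℕ) < a)) ⊆
        F1 ×ˢ (Finset.univ : Finset (Fin M)) := by
      intro p hp
      rw [Finset.mem_product]
      refine ⟨?_, Finset.mem_univ _⟩
      rw [Finset.mem_union, Finset.mem_filter, Finset.mem_product] at hp
      rcases hp with h | h
      · rw [hF1, Finset.mem_filter, hF0]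
        exact ⟨Finset.mem_image_of_mem _ h.1, hF0 ▸ h.2⟩
      · exact h.1
    have h3 := Finset.card_le_card h2
    have h4 : (Finset.univ.filter fun i : Fin M => (i : ℕ) < a).card = a := by
      rw [Fin.card_filter_val_lt]
      exact min_eq_right haM
    rw [Finset.card_union_of_disjoint h1, Finset.card_product, Finset.card_product, h4,
      Finset.card_univ, Fintype.card_fin] at h3
    exact h3
  have s3 : (nb B F0).card * M + (F.filter fun p => ¬ p.1 ∈ nb B F0).card ≤
      (Finset.univ.filter fun v => ∃ u ∈ F, bl B M u v).card := by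
    have h1 : Disjoint ((nb B F0) ×ˢ (Finset.univ : Finset (Fin M)))
        (F.filter fun p => ¬ p.1 ∈ nb B F0) := by
      rw [Finset.disjoint_left]
      intro p hp hp'
      rw [Finset.mem_filter] at hp'
      rw [Finset.mem_product] at hp
      exact hp'.2 hp.1
    have h2 : (nb B F0) ×ˢ (Finset.univ : Finset (Fin M)) ∪
        (F.filter fun p => ¬ p.1 ∈ nb B F0) ⊆ Finset.univ.filter fun v => ∃ u ∈ F, bl B M u v := by
      intro p hp
      rw [Finset.mem_filter]
      refine ⟨Finset.mem_univ _, ?_⟩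
      rw [Finset.mem_union, Finset.mem_filter, Finset.mem_product] at hp
      rcases hp with h | h
      · obtain ⟨u, hu, hup⟩ := mem_nb.1 h.1
        rw [hF0, Finset.mem_image] at hu
        obtain ⟨p', hp', rfl⟩ := hu
        exact ⟨p', hp', Or.inr hup⟩
      · exact ⟨p, h.1, Or.inl rfl⟩
    have h3 := Finset.card_le_card h2
    rwa [Finset.card_union_of_disjoint h1, Finset.card_product, Finset.card_univ,
      Fintype.card_fin] at h3
  have e1 : M * (F1.card + k) = F1.card * M + k * M := by ring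
  have e2 : M * (nb B F0).card = (nb B F0).card * M := by ring
  have e3 : a * F1.card = F1.card * a := by ring
  rw [e1, e2, e3] at hr
  omega

lemma deg (hB : ∀ x, B x x) (hdeg : ∀ x, (Finset.univ.filter fun v => B x v).card = k + 1)
    (p : V × Fin M) : (Finset.univ.filter fun q => bl B M p q).card = k * M + 1 := by
  classical
  have h1 : (Finset.univ.filter fun q => bl B M p q) =
      {p} ∪ ((Finset.univ.filter fun v => B p.1 v).erase p.1) ×ˢ (Finset.univ : Finset (Fin M)) := by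
    ext q
    rw [Finset.mem_filter, Finset.mem_union, Finset.mem_singleton, Finset.mem_product,
      Finset.mem_erase, Finset.mem_filter]
    constructor
    · rintro ⟨-, h | h⟩
      · exact Or.inl h.symm
      · exact Or.inr ⟨⟨fun h' => h.1 h'.symm, Finset.mem_univ _, h.2⟩, Finset.mem_univ _⟩
    · rintro (h | h)
      · exact ⟨Finset.mem_univ _, Or.inl h.symm⟩
      · exact ⟨Finset.mem_univ _, Or.inr ⟨fun h' => h.1.1 h'.symm, h.1.2.2⟩⟩
  have h2 : Disjoint {p} (((Finset.univ.filter fun v => B p.1 v).erase p.1) ×ˢ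
      (Finset.univ : Finset (Fin M))) := by
    rw [Finset.disjoint_singleton_left, Finset.mem_product, Finset.mem_erase]
    exact fun h => h.1.1 rfl
  rw [h1, Finset.card_union_of_disjoint h2, Finset.card_product,
    Finset.card_erase_of_mem (Finset.mem_filter.2 ⟨Finset.mem_univ _, hB _⟩), hdeg,
    Finset.card_univ, Fintype.card_fin, Finset.card_singleton]
  simp only [Nat.add_sub_cancel]
  ring

end PBL_

open PBL_

/-- the averaged pair estimate -/
theorem pblow (hPKER : SpecPKER) (V : Type) [Fintype V] (R B : V → V → Prop) (k M a : ℕ) (hM : 1 ≤ M)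
    (haM : a ≤ M) (ν ν' : V → ℕ)
    (hR : ∀ x, R x x) (hB : ∀ x, B x x)
    (hcomm : ∀ x w, (∃ y, R w y ∧ B y x) ↔ (∃ y, B w y ∧ R y x))
    (hanti : ∀ w y, B w y → R y w → y = w)
    (hdeg : ∀ x, (Finset.univ.filter fun v => B x v).card = k + 1)
    (hdeg' : ∀ x, (Finset.univ.filter fun v => B v x).card = k + 1)
    (hrow : ∀ F : Finset V, F.Nonempty →
      M * ((F.filter fun v => v ∈ nb B F).card + k) ≤ M * (nb B F).card +
        a * (F.filter fun v => v ∈ nb B F).card)
    (hrow' : ∀ F : Finset V, F.Nonempty →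
      M * ((F.filter fun v => v ∈ nb (fun x y => B y x) F).card + k) ≤
        M * (nb (fun x y => B y x) F).card + a * (F.filter fun v => v ∈ nb (fun x y => B y x) F).card)
    (hcol : ∀ w, ∀ X : Finset V, (∀ x ∈ X, FarP R B x w) →
      X.card ≤ (Finset.univ.filter fun u => (∃ x ∈ X, R u x) ∧ ¬ R u w).card + ν w)
    (hcol' : ∀ w, ∀ X : Finset V, (∀ x ∈ X, FarP R B w x) →
      X.card ≤ (Finset.univ.filter fun u => (∃ x ∈ X, R x u) ∧ ¬ R w u).card + ν' w) :
    2 * (M * Fintype.card {p : V × V // FarP R B p.1 p.2}) ≤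
      2 * (M * Fintype.card {p : V × V // NadP R B p.1 p.2}) + a * ((∑ w, ν w) + ∑ w, ν' w) := by
  classical
  -- the reversed relations
  have hfl : ∀ (S : V → V → Prop) (p q : V × Fin M), bl (fun x y => S y x) M p q ↔ bl S M q p := by
    intro S p q
    constructor
    · rintro (h | h)
      · exact Or.inl h.symm
      · exact Or.inr ⟨fun h' => h.1 h'.symm, h.2⟩
    · rintro (h | h)
      · exact Or.inl h.symm
      · exact Or.inr ⟨fun h' => h.1 h'.symm, h.2⟩
  have hfar : ∀ x w, FarP R B w x ↔ FarP (fun x y => R y x) (fun x y => B y x) x w := by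
    intro x w
    constructor
    · intro h y hy hy'
      obtain ⟨z, hz1, hz2⟩ := (hcomm w x).1 ⟨y, hy', hy⟩
      exact h z hz1 hz2
    · intro h y hy hy'
      obtain ⟨z, hz1, hz2⟩ := (hcomm w x).2 ⟨y, hy, hy'⟩
      exact h z hz2 hz1
  have hanti2 : ∀ w y, R w y → B y w → y = w := fun w y h1 h2 => (hanti y w h2 h1).symm
  have hcomm' : ∀ p q : V × Fin M, (∃ y, bl R M q y ∧ bl B M y p) ↔ (∃ y, bl B M q y ∧ bl R M y p) := by
    intro p q
    rw [comp_iff R B hR hB hanti2, comp_iff B R hB hR hanti]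
    constructor
    · rintro (h | h)
      · exact Or.inl h
      · exact Or.inr ⟨h.1, (hcomm p.1 q.1).1 h.2⟩
    · rintro (h | h)
      · exact Or.inl h
      · exact Or.inr ⟨h.1, (hcomm p.1 q.1).2 h.2⟩
  have hfar' : ∀ p q : V × Fin M, FarP (bl R M) (bl B M) q p ↔
      FarP (bl (fun x y => R y x) M) (bl (fun x y => B y x) M) p q := by
    intro p q
    constructor
    · intro h y hy hy'
      obtain ⟨z, hz1, hz2⟩ := (hcomm' q p).1 ⟨y, (hfl R y p).1 hy', (hfl B q y).1 hy⟩
      exact h z hz1 hz2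
    · intro h y hy hy'
      obtain ⟨z, hz1, hz2⟩ := (hcomm' q p).2 ⟨y, hy, hy'⟩
      exact h z ((hfl B q z).2 hz2) ((hfl R z p).2 hz1)
  have h := hPKER (V × Fin M) (bl R M) (bl B M) (k * M) (fun q => M * ν q.1) (fun q => M * ν' q.1)
    (Finset.univ.filter fun p : V × Fin M => (p.2 : ℕ) < a)
    (Finset.univ.filter fun p : V × Fin M => (p.2 : ℕ) < a)
    (fun p => Or.inl rfl) (fun p => Or.inl rfl) hcomm' (by
      rintro p q (h1 | h1) (h2 | h2)
      · exact h2
      · exact h1.symm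
      · exact h2
      · exact absurd (hanti p.1 q.1 h1.2 h2.2).symm h1.1)
    (fun p => deg hB hdeg p) (by
      intro p
      have h1 := deg (B := fun x y => B y x) (M := M) hB hdeg' p
      rw [← h1]
      congr 1
      ext q
      simp only [Finset.mem_filter, Finset.mem_univ, true_and, hfl B])
    (fun F hF hd => row haM hrow F hF hd) (by
      intro F hF hd
      have h1 := row (B := fun x y => B y x) haM hrow' F hF hd
      refine h1.trans (le_of_eq ?_)
      congr 1
      ext q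
      simp only [Finset.mem_filter, Finset.mem_univ, true_and, hfl B])
    (fun q _ X hX => col hR hB hanti ν hcol q X hX) (by
      intro q _ X hX
      have h1 := col (R := fun x y => R y x) (B := fun x y => B y x) hR hB
        (fun w y h1 h2 => hanti2 w y h2 h1) ν'
        (fun w X hX => by
          refine (hcol' w X fun x hx => (hfar x w).2 (hX x hx)).trans (le_of_eq ?_)
          rfl) q X (fun x hx => (hfar' x q).1 (hX x hx))
      refine h1.trans (le_of_eq ?_)
      congr 2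
      ext u
      simp only [Finset.mem_filter, Finset.mem_univ, true_and, hfl R])
  rw [BLOW_.card_rel (FarP R B) _ (far_irr hR hB) (far_iff hR hB hanti),
    BLOW_.card_rel (NadP R B) _ (fun v hv => hv.1 (hR v)) (nad_iff hR)] at h
  have hsum : ∀ μ : V → ℕ, ∑ q ∈ (Finset.univ.filter fun p : V × Fin M => (p.2 : ℕ) < a), M * μ q.1 =
      M * (a * ∑ w, μ w) := by
    intro μ
    have h3 : (Finset.univ.filter fun p : V × Fin M => (p.2 : ℕ) < a) =
        (Finset.univ : Finset V) ×ˢ (Finset.univ.filter fun i : Fin M => (i : ℕ) < a) := by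
      ext p
      simp
    rw [h3, Finset.sum_product]
    simp only [Finset.sum_const, smul_eq_mul]
    rw [Fin.card_filter_val_lt, min_eq_right haM, Finset.mul_sum, Finset.mul_sum]
    apply Finset.sum_congr rfl
    intro w _
    ring
  rw [hsum, hsum] at h
  have h4 : M * (2 * (M * Fintype.card {p : V × V // FarP R B p.1 p.2})) ≤
      M * (2 * (M * Fintype.card {p : V × V // NadP R B p.1 p.2}) +
        a * ((∑ w, ν w) + ∑ w, ν' w)) := by
    have e1 : M * (2 * (M * Fintype.card {p : V × V // FarP R B p.1 p.2})) =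
        2 * (M * (M * Fintype.card {p : V × V // FarP R B p.1 p.2})) := by ring
    have e2 : M * (2 * (M * Fintype.card {p : V × V // NadP R B p.1 p.2}) +
        a * ((∑ w, ν w) + ∑ w, ν' w)) =
        2 * (M * (M * Fintype.card {p : V × V // NadP R B p.1 p.2})) + M * (a * ∑ w, ν w) +
          M * (a * ∑ w, ν' w) := by ring
    rw [e1, e2]
    omega
  exact Nat.le_of_mul_le_mul_left h4 (by omega)

end Pool.Agent.Lib.MP_83608f_co.CN
end
end

section
/-! MP_83608f_co, part CN, module THD (helper58): the pair estimate for diregular digraphs.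

Let `D` be `k`-diregular without closed walks of length `1, ..., m`, and let `P a` be the number of pairs `(x, y)` with
`1 ≤ dist(x, y) ≤ a`.  If every cut has at least `(1-ε)k` vertices, then
`P (a+1) ≥ (1-γ) P a + nk + γ a (1-ε) n k` for `a + 1 ≤ m`. -/
set_option autoImplicit false

open Classical

noncomputable section

namespace Pool.Agent.Lib.MP_83608f_co.CN

open Pool.Agent.Lib.MP_83608f_co.EM (Wk)

/-- every cut `(O, S, U)` (no arc from `O` to `U`, both sides nonempty) has `k - |S| ≤ ε k` -/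
def CutB {V : Type} [Fintype V] (A : V → V → Prop) (k : ℕ) (ε : ℝ) : Prop :=
  ∀ O S U : Finset V, O.Nonempty → U.Nonempty → O.card + S.card + U.card = Fintype.card V →
    (∀ a ∈ O, ∀ b, A a b → b ∈ O ∨ b ∈ S) → (∀ b ∈ U, ∀ a, A a b → a ∈ U ∨ a ∈ S) →
    (k : ℝ) - S.card ≤ ε * k

namespace THD_

variable {V : Type} [Fintype V] {A : V → V → Prop} {k m : ℕ} {γ ε : ℝ}

lemma cut_flip (h : CutB A k ε) : CutB (fun a b => A b a) k ε :=
  fun O S U hO hU hc h1 h2 => h U S O hU hO (by omega) (fun a ha b hab => h2 a ha b hab)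
    (fun b hb a hab => h1 b hb a hab)

/-- the ball of radius `j` around a set -/
def bs (A : V → V → Prop) (W : Finset V) : ℕ → Finset V
  | 0 => W
  | j + 1 => outN A (bs A W j)

lemma mem_bs (W : Finset V) (j : ℕ) (z : V) : z ∈ bs A W j ↔ ∃ x ∈ W, z ∈ LAY_.cb A x j := by
  induction j generalizing z with
  | zero =>
    constructor
    · intro h
      exact ⟨z, h, Finset.mem_singleton_self _⟩
    · rintro ⟨x, hx, h⟩
      rw [LAY_.cb, Finset.mem_singleton] at h
      rw [h]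
      exact hx
  | succ j ih =>
    rw [bs, FIN_.mem_outN, ih]
    constructor
    · rintro (⟨x, hx, h⟩ | ⟨u, hu, h⟩)
      · exact ⟨x, hx, FIN_.mem_outN.2 (Or.inl h)⟩
      · obtain ⟨x, hx, h'⟩ := (ih u).1 hu
        exact ⟨x, hx, FIN_.mem_outN.2 (Or.inr ⟨u, h', h⟩)⟩
    · rintro ⟨x, hx, h⟩
      rw [LAY_.cb, FIN_.mem_outN] at h
      rcases h with h | ⟨u, hu, h⟩
      · exact Or.inl ⟨x, hx, h⟩
      · exact Or.inr ⟨u, (ih u).2 ⟨x, hx, hu⟩, h⟩

lemma bs_sub (W : Finset V) (j : ℕ) : bs A W j ⊆ bs A W (j + 1) :=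
  fun _ h => FIN_.mem_outN.2 (Or.inl h)

/-- the growth of the balls around a set -/
lemma bs_grow (hcut : CutB A k ε) (W : Finset V) (hW : W.Nonempty) (v : V) (a : ℕ)
    (hv : v ∉ bs A W a) : (W.card : ℝ) + a * (k - ε * k) ≤ (bs A W a).card := by
  classical
  induction a with
  | zero => simp [bs]
  | succ a ih =>
    have hsub := bs_sub (A := A) W a
    have hva : v ∉ bs A W a := fun h => hv (hsub h)
    have h1 := ih hva
    have hsd : (bs A W (a + 1) \ bs A W a).card + (bs A W a).card = (bs A W (a + 1)).card :=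
      Finset.card_sdiff_add_card_eq_card hsub
    have hUc : (Finset.univ \ bs A W (a + 1)).card + (bs A W (a + 1)).card = Fintype.card V :=
      Finset.card_sdiff_add_card_eq_card (Finset.subset_univ _)
    have hWs : W ⊆ bs A W a := by
      intro x hx
      exact (mem_bs W a x).2 ⟨x, hx, LAY_.mem_cb_self x a⟩
    have hout' : ∀ x ∈ bs A W a, ∀ b, A x b → b ∈ bs A W (a + 1) := fun x hx b hab =>
      FIN_.mem_outN.2 (Or.inr ⟨x, hx, hab⟩)
    have h2 := hcut (bs A W a) (bs A W (a + 1) \ bs A W a) (Finset.univ \ bs A W (a + 1))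
      (hW.mono hWs) ⟨v, Finset.mem_sdiff.2 ⟨Finset.mem_univ _, hv⟩⟩ (by omega)
      (by
        intro x hx b hab
        rw [Finset.mem_sdiff]
        by_cases hb : b ∈ bs A W a
        · exact Or.inl hb
        · exact Or.inr ⟨hout' x hx b hab, hb⟩)
      (by
        intro b hb x hab
        rw [Finset.mem_sdiff] at hb
        rw [Finset.mem_sdiff, Finset.mem_sdiff]
        by_cases hx : x ∈ bs A W (a + 1)
        · exact Or.inr ⟨hx, fun h => hb.2 (hout' x h b hab)⟩
        · exact Or.inl ⟨Finset.mem_univ _, hx⟩)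
    have h3 : ((bs A W (a + 1) \ bs A W a).card : ℝ) + (bs A W a).card = (bs A W (a + 1)).card := by
      exact_mod_cast hsd
    push_cast
    linarith

lemma cb_bs (w : V) (j : ℕ) : bs A {w} j = LAY_.cb A w j := by
  ext z
  rw [mem_bs]
  constructor
  · rintro ⟨x, hx, h⟩
    rw [Finset.mem_singleton] at hx
    rwa [hx] at h
  · intro h
    exact ⟨w, Finset.mem_singleton_self _, h⟩

/-- the number `ν_w`, as a real number; `A` is the REVERSED relation here: `R u x` means `u ∈ cb A x a` -/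
lemma nu (hk : 1 ≤ k) (hcl : NoCl A m) (hcut : CutB A k ε)
    (hin : ∀ v, (Finset.univ.filter fun u => A u v).card = k) (a : ℕ) (ha : a + 1 ≤ m) (w : V)
    (X : Finset V) (hX : ∀ x ∈ X, ∀ y, (w = y ∨ A y w) → y ∉ LAY_.cb A x a) :
    (X.card : ℝ) ≤ ((Finset.univ.filter fun u => (∃ x ∈ X, u ∈ LAY_.cb A x a) ∧
      ¬ u ∈ LAY_.cb A w a).card : ℝ) + ((LAY_.cb A w a).card - 1 - a * (k - ε * k)) := by
  classical
  obtain ⟨v, hv⟩ : ∃ v, A v w := by
    have h1 : 0 < (Finset.univ.filter fun u => A u w).card := by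
      rw [hin w]
      omega
    obtain ⟨v, hv⟩ := Finset.card_pos.1 h1
    exact ⟨v, (Finset.mem_filter.1 hv).2⟩
  have hwX : w ∉ X := fun h => hX w h w (Or.inl rfl) (LAY_.mem_cb_self w a)
  have hW : (insert w X).card = X.card + 1 := Finset.card_insert_of_notMem hwX
  have hvW : v ∉ bs A (insert w X) a := by
    rw [mem_bs]
    rintro ⟨x, hx, h⟩
    rw [Finset.mem_insert] at hx
    rcases hx with hx | hx
    · rw [hx] at h
      obtain ⟨i, h1, h2⟩ := LAY_.cb_walk w a v h
      exact hcl (i + 1) (by omega) (by omega) w (h2.snoc hv)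
    · exact hX x hx v (Or.inr hv) h
  have h1 := bs_grow hcut (insert w X) ⟨w, Finset.mem_insert_self _ _⟩ v a hvW
  have h2 : (bs A (insert w X) a) ⊆ (Finset.univ.filter fun u => (∃ x ∈ X, u ∈ LAY_.cb A x a) ∧
      ¬ u ∈ LAY_.cb A w a) ∪ LAY_.cb A w a := by
    intro u hu
    rw [Finset.mem_union, Finset.mem_filter]
    by_cases huw : u ∈ LAY_.cb A w a
    · exact Or.inr huw
    · refine Or.inl ⟨Finset.mem_univ _, ?_, huw⟩
      obtain ⟨x, hx, h⟩ := (mem_bs _ a u).1 hu
      rw [Finset.mem_insert] at hx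
      rcases hx with hx | hx
      · rw [hx] at h
        exact absurd h huw
      · exact ⟨x, hx, h⟩
  have h3 := (Finset.card_le_card h2).trans (Finset.card_union_le _ _)
  have h4 : ((bs A (insert w X) a).card : ℝ) ≤ ((Finset.univ.filter fun u =>
      (∃ x ∈ X, u ∈ LAY_.cb A x a) ∧ ¬ u ∈ LAY_.cb A w a).card : ℝ) + (LAY_.cb A w a).card := by
    exact_mod_cast h3
  rw [hW] at h1
  push_cast at h1
  linarith

/-- the row condition -/
lemma row {M a : ℕ} (hM : 1 ≤ M) (hγM : γ * M = a) (hbd : ∀ T : Finset V, Bd A γ T)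
    (hout : ∀ v, (Finset.univ.filter fun u => A v u).card = k) (F : Finset V) (hF : F.Nonempty) :
    M * ((F.filter fun v => v ∈ BLOW_.nb A F).card + k) ≤ M * (BLOW_.nb A F).card +
      a * (F.filter fun v => v ∈ BLOW_.nb A F).card := by
  classical
  have hM0 : (0 : ℝ) < M := by exact_mod_cast (by omega : 0 < M)
  obtain ⟨F1, hF1⟩ : ∃ F1, F1 = F.filter fun v => v ∈ BLOW_.nb A F := ⟨_, rfl⟩
  rw [← hF1]
  have hsub : F1 ⊆ BLOW_.nb A F := by
    intro v hv
    rw [hF1, Finset.mem_filter] at hv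
    exact hv.2
  have hsd : (BLOW_.nb A F \ F1).card + F1.card = (BLOW_.nb A F).card :=
    Finset.card_sdiff_add_card_eq_card hsub
  rcases Nat.lt_or_ge (BLOW_.nb A F).card (F1.card + k) with hlt | hge
  · obtain ⟨ex, hex⟩ : ∃ ex, ex = F1.card + k - (BLOW_.nb A F).card := ⟨_, rfl⟩
    have hin' : ∀ u ∈ F, ex ≤ (F1.filter fun v => A u v).card := by
      intro u hu
      have h1 : (Finset.univ.filter fun v => A u v) ⊆
          (F1.filter fun v => A u v) ∪ (BLOW_.nb A F \ F1) := by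
        intro v hv
        rw [Finset.mem_filter] at hv
        rw [Finset.mem_union, Finset.mem_filter, Finset.mem_sdiff]
        by_cases h : v ∈ F1
        · exact Or.inl ⟨h, hv.2⟩
        · exact Or.inr ⟨BLOW_.mem_nb.2 ⟨u, hu, hv.2⟩, h⟩
      have h2 := (Finset.card_le_card h1).trans (Finset.card_union_le _ _)
      rw [hout u] at h2
      omega
    obtain ⟨u, hu⟩ := hF
    have hne : F1.Nonempty := by
      have h1 := hin' u hu
      have h2 : 0 < (F1.filter fun v => A u v).card := by omega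
      obtain ⟨v, hv⟩ := Finset.card_pos.1 h2
      exact ⟨v, (Finset.mem_filter.1 hv).1⟩
    have h2 := hbd F1 hne ex (fun u hu => hin' u (by
      rw [hF1, Finset.mem_filter] at hu
      exact hu.1))
    have h3 : (M : ℝ) * ex ≤ a * F1.card := by
      have h4 := mul_le_mul_of_nonneg_left h2 hM0.le
      calc (M : ℝ) * ex ≤ M * (γ * F1.card) := h4
        _ = γ * M * F1.card := by ring
        _ = a * F1.card := by rw [hγM]
    have h4 : M * ex ≤ a * F1.card := by exact_mod_cast h3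
    have h5 : F1.card + k = (BLOW_.nb A F).card + ex := by omega
    rw [h5, Nat.mul_add]
    omega
  · exact (Nat.mul_le_mul_left _ hge).trans (Nat.le_add_right _ _)

lemma nb_eq (hirr : ∀ v, ¬ A v v) (F : Finset V) :
    PBL_.nb (fun x y => x = y ∨ A x y) F = BLOW_.nb A F := by
  ext v
  rw [PBL_.mem_nb, BLOW_.mem_nb]
  constructor
  · rintro ⟨u, h1, h2, h3⟩
    exact ⟨u, h1, h3.resolve_left h2⟩
  · rintro ⟨u, h1, h2⟩
    exact ⟨u, h1, fun h => hirr v (h ▸ h2), Or.inr h2⟩

lemma deg (hirr : ∀ v, ¬ A v v) (hout : ∀ v, (Finset.univ.filter fun u => A v u).card = k) (x : V) :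
    (Finset.univ.filter fun v => x = v ∨ A x v).card = k + 1 := by
  classical
  have h1 : (Finset.univ.filter fun v => x = v ∨ A x v) = {x} ∪ (Finset.univ.filter fun v => A x v) := by
    ext v
    simp only [Finset.mem_filter, Finset.mem_univ, true_and, Finset.mem_union, Finset.mem_singleton,
      eq_comm]
  have h2 : Disjoint {x} (Finset.univ.filter fun v => A x v) := by
    rw [Finset.disjoint_singleton_left, Finset.mem_filter]
    exact fun h => hirr x h.2
  rw [h1, Finset.card_union_of_disjoint h2, Finset.card_singleton, hout x]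
  ring

/-- a walk of length at most `a + 1`, last step -/
lemma comp_last (w x : V) (a : ℕ) :
    (∃ y, y ∈ LAY_.cb A w a ∧ (y = x ∨ A y x)) ↔ x ∈ LAY_.cb A w (a + 1) := by
  constructor
  · rintro ⟨y, h1, h2 | h2⟩
    · rw [← h2]
      exact LAY_.cb_sub w a h1
    · exact FIN_.mem_outN.2 (Or.inr ⟨y, h1, h2⟩)
  · intro h
    rw [LAY_.cb, FIN_.mem_outN] at h
    rcases h with h | ⟨y, h1, h2⟩
    · exact ⟨x, h, Or.inl rfl⟩
    · exact ⟨y, h1, Or.inr h2⟩

/-- a walk of length at most `a + 1`, first step -/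
lemma comp_first (w x : V) (a : ℕ) :
    (∃ y, (w = y ∨ A w y) ∧ x ∈ LAY_.cb A y a) ↔ x ∈ LAY_.cb A w (a + 1) := by
  rw [THC_.mem_cb]
  constructor
  · rintro ⟨y, h1 | h1, h2⟩
    · obtain ⟨i, h3, h4⟩ := (THC_.mem_cb y a x).1 h2
      rw [h1]
      exact ⟨i, by omega, h4⟩
    · obtain ⟨i, h3, h4⟩ := (THC_.mem_cb y a x).1 h2
      exact ⟨i + 1, by omega, EM.Wk.cons h1 h4⟩
  · rintro ⟨i, h1, h2⟩
    rcases Nat.eq_zero_or_pos i with h0 | h0
    · rw [h0] at h2
      have : w = x := h2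
      exact ⟨w, Or.inl rfl, this ▸ LAY_.mem_cb_self w a⟩
    · obtain ⟨i', rfl⟩ : ∃ i', i = i' + 1 := ⟨i - 1, by omega⟩
      obtain ⟨y, h3, h4⟩ := h2
      exact ⟨y, Or.inr h3, (THC_.mem_cb y a x).2 ⟨i', by omega, h4⟩⟩

/-- the number of pairs at distance `1, ..., a` -/
def P (A : V → V → Prop) (a : ℕ) : ℝ := (∑ x, ((LAY_.cb A x a).card : ℝ)) - Fintype.card V

lemma card_pairs (Q : V → V → Prop) : Fintype.card {p : V × V // Q p.1 p.2} +
    ∑ x, (Finset.univ.filter fun y => ¬ Q x y).card = Fintype.card V * Fintype.card V := by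
  classical
  have h1 : Fintype.card {p : V × V // Q p.1 p.2} =
      ∑ x, (Finset.univ.filter fun y => Q x y).card := by
    rw [Fintype.card_subtype]
    simp only [Finset.card_filter]
    rw [← Finset.univ_product_univ, Finset.sum_product]
  rw [h1, ← Finset.sum_add_distrib]
  have h2 : ∀ x ∈ (Finset.univ : Finset V), (Finset.univ.filter fun y => Q x y).card +
      (Finset.univ.filter fun y => ¬ Q x y).card = Fintype.card V := fun x _ => by
    rw [Finset.card_filter_add_card_filter_not, Finset.card_univ]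
  rw [Finset.sum_congr rfl h2, Finset.sum_const, Finset.card_univ, smul_eq_mul]

/-- the pair estimate -/
lemma step (hPKER : SpecPKER) {M c : ℕ} (hM : 1 ≤ M) (hcM : c ≤ M) (hγM : γ * M = c) (hk : 1 ≤ k)
    (hcl : NoCl A m) (hbd : ∀ T : Finset V, Bd A γ T)
    (hbd' : ∀ T : Finset V, Bd (fun a b => A b a) γ T) (hcut : CutB A k ε)
    (hout : ∀ v, (Finset.univ.filter fun u => A v u).card = k)
    (hin : ∀ v, (Finset.univ.filter fun u => A u v).card = k) (a : ℕ) (ha : a + 1 ≤ m) :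
    (1 - γ) * P A a + Fintype.card V * k + γ * (a * (k - ε * k) * Fintype.card V) ≤ P A (a + 1) := by
  classical
  have hM0 : (0 : ℝ) < M := by exact_mod_cast (by omega : 0 < M)
  have hirr : ∀ v, ¬ A v v := fun v hv => hcl 1 (le_refl _) (by omega) v (EM.Wk.one.2 hv)
  obtain ⟨r, hr⟩ : ∃ r : V → ℝ, r = fun w =>
    ((LAY_.cb (fun a b => A b a) w a).card : ℝ) - 1 - a * (k - ε * k) := ⟨_, rfl⟩
  obtain ⟨r', hr'⟩ : ∃ r' : V → ℝ, r' = fun w =>
    ((LAY_.cb A w a).card : ℝ) - 1 - a * (k - ε * k) := ⟨_, rfl⟩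
  have hclf := CUT_.nocl_flip hcl
  have hcutf := cut_flip hcut
  have hnu : ∀ w, ∀ X : Finset V,
      (∀ x ∈ X, ∀ y, (w = y ∨ A w y) → y ∉ LAY_.cb (fun a b => A b a) x a) →
      (X.card : ℝ) ≤ ((Finset.univ.filter fun u => (∃ x ∈ X, u ∈ LAY_.cb (fun a b => A b a) x a) ∧
      ¬ u ∈ LAY_.cb (fun a b => A b a) w a).card : ℝ) + r w := by
    intro w X hX
    rw [hr]
    exact nu (A := fun a b => A b a) hk hclf hcutf hout a ha w X hX
  have hnu' : ∀ w, ∀ X : Finset V, (∀ x ∈ X, ∀ y, (w = y ∨ A y w) → y ∉ LAY_.cb A x a) →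
      (X.card : ℝ) ≤ ((Finset.univ.filter fun u => (∃ x ∈ X, u ∈ LAY_.cb A x a) ∧
      ¬ u ∈ LAY_.cb A w a).card : ℝ) + r' w := by
    intro w X hX
    rw [hr']
    exact nu hk hcl hcut hin a ha w X hX
  have hr0 : ∀ w, 0 ≤ r w := by
    intro w
    have := hnu w ∅ (fun x hx => absurd hx (Finset.notMem_empty _))
    simpa using this
  have hr0' : ∀ w, 0 ≤ r' w := by
    intro w
    have := hnu' w ∅ (fun x hx => absurd hx (Finset.notMem_empty _))
    simpa using this
  have hfl : ∀ (c X : ℕ) (s : ℝ), (X : ℝ) ≤ c + s → X ≤ c + ⌊s⌋₊ := by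
    intro c X s h
    rcases Nat.le_total X c with h1 | h1
    · omega
    · have h2 : ((X - c : ℕ) : ℝ) ≤ s := by
        rw [Nat.cast_sub h1]
        linarith
      have h3 := Nat.le_floor h2
      omega
  have hfar : ∀ x w, FarP (fun x y => y ∈ LAY_.cb A x a) (fun x y => x = y ∨ A x y) x w ↔
      ¬ x ∈ LAY_.cb A w (a + 1) := by
    intro x w
    rw [← comp_first]
    constructor
    · rintro h ⟨y, h1, h2⟩
      exact h y h1 h2
    · intro h y h1 h2
      exact h ⟨y, h1, h2⟩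
  have hdisj : ∀ u w, w ∈ LAY_.cb A u a → (w = u ∨ A w u) → w = u := by
    intro u w h1 h2
    rcases h2 with h2 | h2
    · exact h2
    · obtain ⟨i, h3, h4⟩ := (THC_.mem_cb u a w).1 h1
      exact absurd (h4.snoc h2) (hcl (i + 1) (by omega) (by omega) u)
  have key := pblow hPKER V (fun x y => y ∈ LAY_.cb A x a) (fun x y => x = y ∨ A x y) k M c hM hcM
    (fun w => ⌊r w⌋₊) (fun w => ⌊r' w⌋₊) (fun x => LAY_.mem_cb_self x a) (fun x => Or.inl rfl)
    (fun x w => (comp_last w x a).trans (comp_first w x a).symm)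
    (by
      intro w y h1 h2
      exact (hdisj y w h2 (h1.imp (fun h => h) (fun h => h))).symm)
    (fun x => by convert deg hirr hout x)
    (by
      intro x
      have h := deg (A := fun a b => A b a) hirr hin x
      rw [← h]
      congr 1
      ext v
      simp only [Finset.mem_filter, Finset.mem_univ, true_and, eq_comm])
    (by
      intro F hF
      rw [nb_eq hirr]
      exact row hM hγM hbd hout F hF)
    (by
      intro F hF
      have e1 : PBL_.nb (fun x y => y = x ∨ A y x) F = BLOW_.nb (fun a b => A b a) F := by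
        rw [← nb_eq (A := fun a b => A b a) hirr]
        ext v
        rw [PBL_.mem_nb, PBL_.mem_nb]
        simp only [eq_comm]
      rw [e1]
      exact row (A := fun a b => A b a) hM hγM hbd' hin F hF)
    (by
      intro w X hX
      apply hfl
      refine (hnu w X ?_).trans (le_of_eq ?_)
      · intro x hx y hy hyx
        exact hX x hx y hy ((THC_.mem_flip x a y).1 hyx)
      · congr 3
        ext u
        simp only [Finset.mem_filter, Finset.mem_univ, true_and, THC_.mem_flip])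
    (by
      intro w X hX
      apply hfl
      have h := hnu' w X (by
        intro x hx y hy hyx
        have h1 := hX x hx
        rw [hfar] at h1
        apply h1
        rw [← comp_last]
        exact ⟨y, hyx, hy.imp Eq.symm (fun h => h)⟩)
      refine h.trans (le_of_eq ?_)
      congr 3
      ext u
      simp only [Finset.mem_filter, Finset.mem_univ, true_and])
  -- the numbers of pairs
  have hF := card_pairs (FarP (fun x y => y ∈ LAY_.cb A x a) (fun x y => x = y ∨ A x y))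
  have hN := card_pairs (NadP (fun x y => y ∈ LAY_.cb A x a) (fun x y => x = y ∨ A x y))
  have hF' : ∑ x, (Finset.univ.filter fun y =>
      ¬ FarP (fun x y => y ∈ LAY_.cb A x a) (fun x y => x = y ∨ A x y) x y).card =
      ∑ x, (LAY_.cb A x (a + 1)).card := by
    rw [← THC_.sum_flip (A := A) (a + 1)]
    apply Finset.sum_congr rfl
    intro x _
    congr 1
    ext y
    rw [Finset.mem_filter, hfar, THC_.mem_flip]
    simp
  have hN' : ∑ x, (Finset.univ.filter fun y =>
      ¬ NadP (fun x y => y ∈ LAY_.cb A x a) (fun x y => x = y ∨ A x y) x y).card =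
      ∑ x, (LAY_.cb A x a).card + Fintype.card V * k := by
    have h1 : ∀ x ∈ (Finset.univ : Finset V), (Finset.univ.filter fun y =>
        ¬ NadP (fun x y => y ∈ LAY_.cb A x a) (fun x y => x = y ∨ A x y) x y).card =
        (LAY_.cb A x a).card + k := by
      intro x _
      have h2 : (Finset.univ.filter fun y =>
          ¬ NadP (fun x y => y ∈ LAY_.cb A x a) (fun x y => x = y ∨ A x y) x y) =
          LAY_.cb A x a ∪ (Finset.univ.filter fun y => A y x) := by
        ext y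
        rw [Finset.mem_filter, Finset.mem_union, Finset.mem_filter]
        unfold NadP
        constructor
        · rintro ⟨-, h⟩
          by_cases h3 : y ∈ LAY_.cb A x a
          · exact Or.inl h3
          · by_cases h4 : y = x ∨ A y x
            · rcases h4 with h4 | h4
              · rw [h4] at h3
                exact absurd (LAY_.mem_cb_self x a) h3
              · exact Or.inr ⟨Finset.mem_univ _, h4⟩
            · exact absurd ⟨h3, h4⟩ h
        · rintro (h | h)
          · exact ⟨Finset.mem_univ _, fun h3 => h3.1 h⟩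
          · exact ⟨Finset.mem_univ _, fun h3 => h3.2 (Or.inr h.2)⟩
      have h3 : Disjoint (LAY_.cb A x a) (Finset.univ.filter fun y => A y x) := by
        rw [Finset.disjoint_left]
        intro y hy hy'
        rw [Finset.mem_filter] at hy'
        have := hdisj x y hy (Or.inr hy'.2)
        exact hirr x (this ▸ hy'.2)
      rw [h2, Finset.card_union_of_disjoint h3, hin x]
    rw [Finset.sum_congr rfl h1, Finset.sum_add_distrib, Finset.sum_const, Finset.card_univ,
      smul_eq_mul]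
  rw [hF'] at hF
  rw [hN'] at hN
  -- the real form
  have hsr : (∑ w, ((⌊r w⌋₊ : ℕ) : ℝ)) ≤ P A a - Fintype.card V * (a * (k - ε * k)) := by
    have h1 : (∑ w, ((⌊r w⌋₊ : ℕ) : ℝ)) ≤ ∑ w, r w :=
      Finset.sum_le_sum fun w _ => Nat.floor_le (hr0 w)
    refine h1.trans (le_of_eq ?_)
    have h2 : (∑ x, ((LAY_.cb (fun a b => A b a) x a).card : ℝ)) =
        ∑ x, ((LAY_.cb A x a).card : ℝ) := by
      exact_mod_cast THC_.sum_flip (A := A) a
    rw [hr]
    simp only [Finset.sum_sub_distrib, h2, Finset.sum_const, Finset.card_univ, nsmul_eq_mul, P]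
    ring
  have hsr' : (∑ w, ((⌊r' w⌋₊ : ℕ) : ℝ)) ≤ P A a - Fintype.card V * (a * (k - ε * k)) := by
    have h1 : (∑ w, ((⌊r' w⌋₊ : ℕ) : ℝ)) ≤ ∑ w, r' w :=
      Finset.sum_le_sum fun w _ => Nat.floor_le (hr0' w)
    refine h1.trans (le_of_eq ?_)
    rw [hr']
    simp only [Finset.sum_sub_distrib, Finset.sum_const, Finset.card_univ, nsmul_eq_mul, P]
    ring
  obtain ⟨FF, hFF⟩ : ∃ FF, FF = Fintype.card {p : V × V // FarP (fun x y => y ∈ LAY_.cb A x a)
      (fun x y => x = y ∨ A x y) p.1 p.2} := ⟨_, rfl⟩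
  obtain ⟨NN, hNN⟩ : ∃ NN, NN = Fintype.card {p : V × V // NadP (fun x y => y ∈ LAY_.cb A x a)
      (fun x y => x = y ∨ A x y) p.1 p.2} := ⟨_, rfl⟩
  have key' : 2 * (M * FF) ≤ 2 * (M * NN) + c * ((∑ w, ⌊r w⌋₊) + ∑ w, ⌊r' w⌋₊) := by
    rw [hFF, hNN]
    exact key
  rw [← hFF] at hF
  rw [← hNN] at hN
  have k1 : 2 * ((M : ℝ) * FF) ≤ 2 * (M * NN) + c * ((∑ w, ((⌊r w⌋₊ : ℕ) : ℝ)) +
      ∑ w, ((⌊r' w⌋₊ : ℕ) : ℝ)) := by exact_mod_cast key'
  have k2 : (FF : ℝ) + ∑ x, ((LAY_.cb A x (a + 1)).card : ℝ) = Fintype.card V * Fintype.card V := by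
    exact_mod_cast hF
  have k3 : (NN : ℝ) + ((∑ x, ((LAY_.cb A x a).card : ℝ)) + Fintype.card V * k) =
      Fintype.card V * Fintype.card V := by
    exact_mod_cast hN
  have k4 : (c : ℝ) * ((∑ w, ((⌊r w⌋₊ : ℕ) : ℝ)) + ∑ w, ((⌊r' w⌋₊ : ℕ) : ℝ)) ≤
      c * (2 * (P A a - Fintype.card V * (a * (k - ε * k)))) :=
    mul_le_mul_of_nonneg_left (by linarith) (Nat.cast_nonneg _)
  have k5 : (M : ℝ) * FF ≤ M * (NN + γ * (P A a - Fintype.card V * (a * (k - ε * k)))) := by
    rw [← hγM] at k4 k1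
    nlinarith
  have k6 := le_of_mul_le_mul_left k5 hM0
  have k7 : P A a = (∑ x, ((LAY_.cb A x a).card : ℝ)) - Fintype.card V := rfl
  have k8 : P A (a + 1) = (∑ x, ((LAY_.cb A x (a + 1)).card : ℝ)) - Fintype.card V := rfl
  nlinarith

/-- the coefficients `p_a = a - ε l_a` -/
def p (γ ε : ℝ) : ℕ → ℝ
  | 0 => 0
  | a + 1 => (1 - γ) * p γ ε a + 1 + γ * (a * (1 - ε))

/-- the number of pairs at distance `1, ..., a` -/
lemma P_ge (hPKER : SpecPKER) {M c : ℕ} (hM : 1 ≤ M) (hcM : c ≤ M) (hγM : γ * M = c) (hk : 1 ≤ k)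
    (hγ1 : γ ≤ 1)
    (hcl : NoCl A m) (hbd : ∀ T : Finset V, Bd A γ T)
    (hbd' : ∀ T : Finset V, Bd (fun a b => A b a) γ T) (hcut : CutB A k ε)
    (hout : ∀ v, (Finset.univ.filter fun u => A v u).card = k)
    (hin : ∀ v, (Finset.univ.filter fun u => A u v).card = k) (a : ℕ) (ha : a ≤ m) :
    p γ ε a * (Fintype.card V * k) ≤ P A a := by
  induction a with
  | zero =>
    have h1 : P A 0 = 0 := by
      unfold P LAY_.cb
      simp
    rw [h1, p]
    simp
  | succ a ih =>
    have h1 := step hPKER hM hcM hγM hk hcl hbd hbd' hcut hout hin a ha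
    have h2 := ih (by omega)
    have h3 := mul_le_mul_of_nonneg_left h2 (by linarith : (0 : ℝ) ≤ 1 - γ)
    have h4 : p γ ε (a + 1) = (1 - γ) * p γ ε a + 1 + γ * (a * (1 - ε)) := rfl
    rw [h4]
    nlinarith

/-- the order of a diregular digraph in terms of its cuts -/
theorem order [Nonempty V] (hPKER : SpecPKER) {M c : ℕ} (hM : 1 ≤ M) (hcM : c ≤ M) (hγM : γ * M = c)
    (hk : 1 ≤ k) (hγ1 : γ ≤ 1)
    (hcl : NoCl A m) (hbd : ∀ T : Finset V, Bd A γ T)
    (hbd' : ∀ T : Finset V, Bd (fun a b => A b a) γ T) (hcut : CutB A k ε)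
    (hout : ∀ v, (Finset.univ.filter fun u => A v u).card = k)
    (hin : ∀ v, (Finset.univ.filter fun u => A u v).card = k) (i j : ℕ) (hij : i + j ≤ m) :
    (p γ ε i + p γ ε j) * k + 1 ≤ (Fintype.card V : ℝ) := by
  classical
  have h1 := P_ge hPKER hM hcM hγM hk hγ1 hcl hbd hbd' hcut hout hin i (by omega)
  have h2 := P_ge hPKER hM hcM hγM hk hγ1 hcl hbd hbd' hcut hout hin j (by omega)
  have h3 := Finset.sum_le_sum fun x (_ : x ∈ (Finset.univ : Finset V)) =>
    THB_.count2 hcl i j hij x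
  have h4 : (∑ x, ((LAY_.cb (fun a b => A b a) x j).card : ℝ)) =
      ∑ x, ((LAY_.cb A x j).card : ℝ) := by
    exact_mod_cast THC_.sum_flip (A := A) j
  obtain ⟨n, hn⟩ : ∃ n : ℝ, n = (Fintype.card V : ℝ) := ⟨_, rfl⟩
  simp only [Finset.sum_add_distrib, Finset.sum_sub_distrib, h4, Finset.sum_const,
    Finset.card_univ, nsmul_eq_mul, mul_one] at h3
  unfold P at h1 h2
  rw [← hn] at h1 h2 h3 ⊢
  have hn0 : 0 < n := by
    rw [hn]
    exact_mod_cast Fintype.card_pos
  have h5 : n * ((p γ ε i + p γ ε j) * k + 1) ≤ n * n := by nlinarith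
  exact le_of_mul_le_mul_left h5 hn0

end THD_

end Pool.Agent.Lib.MP_83608f_co.CN
end
end

section
/-! MP_83608f_co, part CN, module THF (helper58): cuts of diregular digraphs, balls on both sides inside a side of the cut,
and the final step: if all the numerical conditions hold, a `k`-diregular digraph without closed walks of length `1, ..., m`
has at least `t k` vertices. -/
set_option autoImplicit false

open Classical

noncomputable section

namespace Pool.Agent.Lib.MP_83608f_co.CN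

open Pool.Agent.Lib.MP_83608f_co.EM (Wk)

namespace THF_

variable {V : Type} [Fintype V] {A : V → V → Prop} {k m : ℕ} {γ ε t : ℝ}

/-- a ball grows (minimum out-degree `e`) -/
lemma grow (hbd : ∀ T : Finset V, Bd A γ T) (hcl : NoCl A m) (e : ℕ)
    (he : ∀ v, e ≤ (Finset.univ.filter fun u => A v u).card) (x : V) (i : ℕ) (hi : i + 1 ≤ m) :
    ((LAY_.cb A x i).card : ℝ) - 1 + e - γ * ((LAY_.cb A x i).card - 1) ≤
      (LAY_.cb A x (i + 1)).card - 1 := by
  classical
  obtain ⟨B, hB⟩ : ∃ B, B = LAY_.cb A x i := ⟨_, rfl⟩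
  obtain ⟨T, hT⟩ : ∃ T, T = B.erase x := ⟨_, rfl⟩
  have hxB : x ∈ B := by
    rw [hB]
    exact LAY_.mem_cb_self x _
  have hTB : T.card + 1 = B.card := by
    rw [hT]
    exact Finset.card_erase_add_one hxB
  have h6 : (T.card : ℝ) = (B.card : ℝ) - 1 := by
    have : ((T.card + 1 : ℕ) : ℝ) = (B.card : ℝ) := by exact_mod_cast hTB
    push_cast at this
    linarith
  -- one vertex of the ball
  have main : ∀ u ∈ B, e + B.card ≤ (T.filter fun v => A u v).card + (LAY_.cb A x (i + 1)).card := by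
    intro u huB
    have hsub : (Finset.univ.filter fun v => A u v) ⊆
        (T.filter fun v => A u v) ∪ (LAY_.cb A x (i + 1) \ B) := by
      intro v hv
      rw [Finset.mem_filter] at hv
      rw [Finset.mem_union, Finset.mem_filter, Finset.mem_sdiff, hT, Finset.mem_erase]
      by_cases hvB : v ∈ B
      · refine Or.inl ⟨⟨?_, hvB⟩, hv.2⟩
        intro hvx
        rw [hB] at huB
        obtain ⟨j, f1, f2⟩ := LAY_.cb_walk x i u huB
        have f3 := f2.snoc hv.2
        rw [hvx] at f3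
        exact hcl (j + 1) (by omega) (by omega) x f3
      · refine Or.inr ⟨?_, hvB⟩
        rw [hB] at huB
        exact FIN_.mem_outN.2 (Or.inr ⟨u, huB, hv.2⟩)
    have h2 := (he u).trans ((Finset.card_le_card hsub).trans (Finset.card_union_le _ _))
    have h3 : (LAY_.cb A x (i + 1) \ B).card + B.card = (LAY_.cb A x (i + 1)).card := by
      rw [hB]
      exact Finset.card_sdiff_add_card_eq_card (LAY_.cb_sub x i)
    omega
  rw [← hB]
  rcases T.eq_empty_or_nonempty with h0 | hne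
  · have h1 := main x hxB
    rw [h0] at h1 h6
    have h2 : (e : ℝ) + B.card ≤ (LAY_.cb A x (i + 1)).card := by
      have : e + B.card ≤ (LAY_.cb A x (i + 1)).card := by simpa using h1
      exact_mod_cast this
    have h7 : (B.card : ℝ) - 1 = 0 := by
      rw [← h6]
      simp
    rw [h7]
    linarith
  · obtain ⟨u, hu, hmin⟩ := Finset.exists_min_image T (fun u => (T.filter fun v => A u v).card) hne
    have h1 := hbd T hne (T.filter fun v => A u v).card hmin
    have huB : u ∈ B := by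
      rw [hT] at hu
      exact Finset.mem_of_mem_erase hu
    have h4 := main u huB
    have h5 : (e : ℝ) + B.card ≤ ((T.filter fun v => A u v).card : ℝ) +
        (LAY_.cb A x (i + 1)).card := by
      exact_mod_cast h4
    rw [h6] at h1
    linarith

/-- the number of pairs at distance `1, ..., i + 1` -/
lemma ballsum (hγ : 0 ≤ γ) (hγ1 : γ ≤ 1) (hbd : ∀ T : Finset V, Bd A γ T) (hcl : NoCl A m) (e : ℕ)
    (he : ∀ v, e ≤ (Finset.univ.filter fun u => A v u).card) (i : ℕ) (hi : i + 1 ≤ m) :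
    γ * (1 - γ) ^ i * (∑ v, ((Finset.univ.filter fun u => A v u).card : ℝ)) +
      (e : ℝ) * Fintype.card V * (1 - (1 - γ) ^ i) ≤ γ * THD_.P A (i + 1) := by
  classical
  induction i with
  | zero =>
    have h1 : ∀ x ∈ (Finset.univ : Finset V), ((Finset.univ.filter fun u => A x u).card : ℝ) + 1 ≤
        ((LAY_.cb A x 1).card : ℝ) := by
      intro x _
      have h2 : {x} ∪ (Finset.univ.filter fun u => A x u) ⊆ LAY_.cb A x 1 := by
        intro z hz
        rw [Finset.mem_union, Finset.mem_singleton, Finset.mem_filter] at hz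
        rcases hz with h | h
        · rw [h]
          exact LAY_.mem_cb_self x 1
        · exact FIN_.mem_outN.2 (Or.inr ⟨x, Finset.mem_singleton_self _, h.2⟩)
      have h3 : Disjoint {x} (Finset.univ.filter fun u => A x u) := by
        rw [Finset.disjoint_singleton_left, Finset.mem_filter]
        exact fun h => hcl 1 (le_refl _) (by omega) x (EM.Wk.one.2 h.2)
      have h4 := Finset.card_le_card h2
      rw [Finset.card_union_of_disjoint h3, Finset.card_singleton] at h4
      have h5 : (Finset.univ.filter fun u => A x u).card + 1 ≤ (LAY_.cb A x 1).card := by omega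
      exact_mod_cast h5
    have h2 := Finset.sum_le_sum h1
    rw [Finset.sum_add_distrib, Finset.sum_const, Finset.card_univ, nsmul_eq_mul, mul_one] at h2
    simp only [pow_zero, mul_one, sub_self, mul_zero, add_zero, Nat.zero_add]
    unfold THD_.P
    exact mul_le_mul_of_nonneg_left (by linarith) hγ
  | succ i ih =>
    have h1 := ih (by omega)
    have h2 := Finset.sum_le_sum fun x (_ : x ∈ (Finset.univ : Finset V)) =>
      grow hbd hcl e he x (i + 1) (by omega)
    simp only [Finset.sum_add_distrib, Finset.sum_sub_distrib, ← Finset.mul_sum, Finset.sum_const,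
      Finset.card_univ, nsmul_eq_mul, mul_one] at h2
    have h3 : THD_.P A (i + 1) + Fintype.card V * e - γ * THD_.P A (i + 1) ≤ THD_.P A (i + 1 + 1) := by
      unfold THD_.P
      linarith
    have h4 := mul_le_mul_of_nonneg_left h3 hγ
    have h5 := mul_le_mul_of_nonneg_left h1 (by linarith : (0 : ℝ) ≤ 1 - γ)
    have e1 : (1 - γ) ^ (i + 1) = (1 - γ) ^ i * (1 - γ) := pow_succ _ _
    rw [e1]
    nlinarith

/-- minimum out-degree `e`, `E` arcs -/
lemma inside [Nonempty V] (hγ : 0 ≤ γ) (hγ1 : γ ≤ 1) (hbd : ∀ T : Finset V, Bd A γ T)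
    (hcl : NoCl A m) (e : ℕ) (he : ∀ v, e ≤ (Finset.univ.filter fun u => A v u).card) (i j : ℕ)
    (hij : i + j + 2 ≤ m) (E : ℝ)
    (hE : E ≤ ∑ v, ((Finset.univ.filter fun u => A v u).card : ℝ)) :
    γ * ((1 - γ) ^ i + (1 - γ) ^ j) * E +
      (e : ℝ) * (2 - ((1 - γ) ^ i + (1 - γ) ^ j)) * Fintype.card V + γ * Fintype.card V ≤
      γ * ((Fintype.card V : ℝ) * Fintype.card V) := by
  classical
  have h1 := ballsum hγ hγ1 hbd hcl e he i (by omega)
  have h2 := ballsum hγ hγ1 hbd hcl e he j (by omega)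
  have h3 := Finset.sum_le_sum fun x (_ : x ∈ (Finset.univ : Finset V)) =>
    THB_.count2 hcl (i + 1) (j + 1) (by omega) x
  have h4 : (∑ x, ((LAY_.cb (fun a b => A b a) x (j + 1)).card : ℝ)) =
      ∑ x, ((LAY_.cb A x (j + 1)).card : ℝ) := by
    exact_mod_cast THC_.sum_flip (A := A) (j + 1)
  simp only [Finset.sum_add_distrib, Finset.sum_sub_distrib, h4, Finset.sum_const,
    Finset.card_univ, nsmul_eq_mul, mul_one] at h3
  have h5 : THD_.P A (i + 1) + THD_.P A (j + 1) ≤
      (Fintype.card V : ℝ) * (Fintype.card V - 1) := by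
    unfold THD_.P
    linarith
  have h6 := mul_le_mul_of_nonneg_left h5 hγ
  have hp : ∀ i : ℕ, 0 ≤ (1 - γ) ^ i := fun i => pow_nonneg (by linarith) _
  have h7 : γ * ((1 - γ) ^ i + (1 - γ) ^ j) * E ≤ γ * ((1 - γ) ^ i + (1 - γ) ^ j) *
      ∑ v, ((Finset.univ.filter fun u => A v u).card : ℝ) :=
    mul_le_mul_of_nonneg_left hE (mul_nonneg hγ (add_nonneg (hp i) (hp j)))
  linarith

/-- one side of a cut -/
lemma side (hγ : 0 < γ) (hγ1 : γ ≤ 1) (hB : ∀ n, BdAll m γ n) (hcl : NoCl A m) (i j : ℕ)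
    (hij : i + j + 2 ≤ m)
    (hout : ∀ v, (Finset.univ.filter fun u => A v u).card = k)
    (hin : ∀ v, (Finset.univ.filter fun u => A u v).card = k)
    (O S : Finset V) (hO : O.Nonempty) (hS : S.card ≤ k)
    (hcut : ∀ a ∈ O, ∀ b, A a b → b ∈ O ∨ b ∈ S) :
    ((k : ℝ) - S.card) ≤ γ * O.card ∧
    γ * ((1 - γ) ^ i + (1 - γ) ^ j) * (k * O.card - k * S.card) +
      ((k : ℝ) - S.card) * (2 - ((1 - γ) ^ i + (1 - γ) ^ j)) * O.card <
      γ * ((O.card : ℝ) * O.card) := by
  classical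
  -- out-degrees inside `O`
  have hsplit : ∀ a ∈ O, k ≤ (O.filter fun v => A a v).card + (S.filter fun v => A a v).card := by
    intro a ha
    have h1 : (Finset.univ.filter fun v => A a v) ⊆
        (O.filter fun v => A a v) ∪ (S.filter fun v => A a v) := by
      intro v hv
      rw [Finset.mem_filter] at hv
      rw [Finset.mem_union, Finset.mem_filter, Finset.mem_filter]
      rcases hcut a ha v hv.2 with h | h
      · exact Or.inl ⟨h, hv.2⟩
      · exact Or.inr ⟨h, hv.2⟩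
    have h2 := (Finset.card_le_card h1).trans (Finset.card_union_le _ _)
    rwa [hout a] at h2
  have hdeg : ∀ a ∈ O, k - S.card ≤ (O.filter fun v => A a v).card := by
    intro a ha
    have h1 := hsplit a ha
    have h2 := Finset.card_le_card (Finset.filter_subset (fun v => A a v) S)
    omega
  have hbdO : Bd A γ O := THA_.bd_of (n := O.card + 1) (fun j _ => hB j) hcl O (by omega)
  constructor
  · have h1 := hbdO hO _ hdeg
    rw [Nat.cast_sub hS] at h1
    exact h1
  -- arcs from `O` to `S`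
  have harcs : ∑ a ∈ O, (S.filter fun v => A a v).card ≤ S.card * k := by
    have h1 : ∑ a ∈ O, (S.filter fun v => A a v).card = ∑ v ∈ S, (O.filter fun a => A a v).card := by
      simp only [Finset.card_filter]
      exact Finset.sum_comm
    rw [h1, ← smul_eq_mul, ← Finset.sum_const]
    apply Finset.sum_le_sum
    intro v _
    rw [← hin v]
    apply Finset.card_le_card
    intro a ha
    rw [Finset.mem_filter] at ha ⊢
    exact ⟨Finset.mem_univ _, ha.2⟩
  have hE1 : O.card * k ≤ (∑ a ∈ O, (O.filter fun v => A a v).card) + S.card * k := by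
    have h2 : ∑ _a ∈ O, k ≤ ∑ a ∈ O, ((O.filter fun v => A a v).card + (S.filter fun v => A a v).card) :=
      Finset.sum_le_sum hsplit
    rw [Finset.sum_const, smul_eq_mul, Finset.sum_add_distrib] at h2
    omega
  have hE2 : (O.card : ℝ) * k ≤ (∑ a ∈ O, ((O.filter fun v => A a v).card : ℝ)) + S.card * k := by
    exact_mod_cast hE1
  -- the induced digraph
  obtain ⟨x0, hx0⟩ := hO
  have : Nonempty {x // x ∈ O} := ⟨⟨x0, hx0⟩⟩
  have hclO : NoCl (fun a b : {x // x ∈ O} => A a.1 b.1) m :=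
    THA_.nocl_map Subtype.val (fun a b hab => hab) hcl
  have hdO : ∀ a : {x // x ∈ O}, (Finset.univ.filter fun b : {x // x ∈ O} => A a.1 b.1).card =
      (O.filter fun v => A a.1 v).card := by
    intro a
    have h2 : (O.filter fun v => A a.1 v) =
        (Finset.univ.filter fun v : {x // x ∈ O} => A a.1 v.1).map (Function.Embedding.subtype _) := by
      ext v
      rw [Finset.mem_filter, Finset.mem_map]
      constructor
      · intro hv
        exact ⟨⟨v, hv.1⟩, Finset.mem_filter.2 ⟨Finset.mem_univ _, hv.2⟩, rfl⟩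
      · rintro ⟨w, hw, rfl⟩
        exact ⟨w.2, (Finset.mem_filter.1 hw).2⟩
    rw [h2, Finset.card_map]
  have hsumO : (∑ a : {x // x ∈ O},
      ((Finset.univ.filter fun b : {x // x ∈ O} => A a.1 b.1).card : ℝ)) =
      ∑ a ∈ O, ((O.filter fun v => A a v).card : ℝ) := by
    rw [← Finset.sum_coe_sort O]
    apply Finset.sum_congr rfl
    intro a _
    rw [hdO a]
  have h1 := inside (A := fun a b : {x // x ∈ O} => A a.1 b.1) hγ.le hγ1
    (fun T => THA_.bd_of (n := T.card + 1) (fun j _ => hB j) hclO T (by omega)) hclO (k - S.card)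
    (fun a => by
      rw [hdO a]
      exact hdeg a.1 a.2) i j hij ((k : ℝ) * O.card - k * S.card) (by
      rw [hsumO]
      linarith)
  rw [Fintype.card_coe, Nat.cast_sub hS] at h1
  have h2 : 0 < γ * (O.card : ℝ) := mul_pos hγ (by
    exact_mod_cast Finset.card_pos.2 ⟨x0, hx0⟩)
  linarith

/-- the arithmetic: the smaller side -/
lemma arith {γ H t ε k e o : ℝ} (hk : 0 < k) (he : ε * k < e) (hε : 0 ≤ ε)
    (ho : e ≤ γ * o)
    (hF : γ * H * (k * o - k * (k - e)) + e * (2 - H) * o < γ * (o * o))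
    (hμ : 2 * o < (t - 1) * k + e) (c0 : 0 ≤ γ / 2 + (H - 1))
    (c1 : 0 ≤ γ * (t - 1) / 2 - γ * H + ε * (γ / 2 + (H - 1)))
    (c2 : γ * ((t - 1) ^ 2 / 4 - H * (t - 1) / 2 + H) +
      (γ * (t - 1) / 2 - γ * H * (3 / 2) - (2 - H) * (t - 1) / 2) * ε +
      (γ / 4 - (2 - H) / 2) * ε ^ 2 ≤ 0)
    (c3 : γ * (t - 1) / 2 - γ * H * (3 / 2) - (2 - H) * (t - 1) / 2 ≤ 0)
    (c4 : γ / 4 - (2 - H) / 2 ≤ 0) : False := by
  obtain ⟨μ, hμd⟩ : ∃ μ, μ = ((t - 1) * k + e) / 2 := ⟨_, rfl⟩
  have h1 : o < μ := by rw [hμd]; linarith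
  have h2 : 0 ≤ (γ * o - e) * (μ - o) := mul_nonneg (by linarith) (by linarith)
  -- the slope
  have hs : 0 ≤ γ * μ + e - γ * H * k - e * (2 - H) := by
    have h3 : 0 ≤ (e - ε * k) * (γ / 2 + (H - 1)) := mul_nonneg (by linarith) c0
    have h4 := mul_nonneg hk.le c1
    rw [hμd]
    nlinarith
  have h5 : (γ * μ + e - γ * H * k - e * (2 - H)) * o ≤
      (γ * μ + e - γ * H * k - e * (2 - H)) * μ := mul_le_mul_of_nonneg_left h1.le hs
  -- the value at `μ`
  have h6 : 0 < γ * (μ * μ) - γ * H * (k * μ - k * (k - e)) - e * (2 - H) * μ := by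
    nlinarith
  have h7 : 0 < γ * ((t - 1) ^ 2 / 4 - H * (t - 1) / 2 + H) * k ^ 2 +
      (γ * (t - 1) / 2 - γ * H * (3 / 2) - (2 - H) * (t - 1) / 2) * (k * e) +
      (γ / 4 - (2 - H) / 2) * e ^ 2 := by
    rw [hμd] at h6
    nlinarith
  have h8 : ε * k ^ 2 ≤ k * e := by nlinarith
  have h9 : ε ^ 2 * k ^ 2 ≤ e ^ 2 := by
    have : 0 ≤ ε * k := mul_nonneg hε hk.le
    nlinarith
  have h10 := mul_le_mul_of_nonpos_left h8 c3
  have h11 := mul_le_mul_of_nonpos_left h9 c4
  have h12 := mul_nonpos_of_nonpos_of_nonneg c2 (sq_nonneg k)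
  nlinarith

/-- the numerical conditions on the constants, `H = (1-γ)^i + (1-γ)^j` -/
structure Num (γ H t ε : ℝ) : Prop where
  hγ : 0 < γ
  hγ1 : γ ≤ 1
  hε : 0 ≤ ε
  c0 : 0 ≤ γ / 2 + (H - 1)
  c1 : 0 ≤ γ * (t - 1) / 2 - γ * H + ε * (γ / 2 + (H - 1))
  c2 : γ * ((t - 1) ^ 2 / 4 - H * (t - 1) / 2 + H) +
      (γ * (t - 1) / 2 - γ * H * (3 / 2) - (2 - H) * (t - 1) / 2) * ε +
      (γ / 4 - (2 - H) / 2) * ε ^ 2 ≤ 0
  c3 : γ * (t - 1) / 2 - γ * H * (3 / 2) - (2 - H) * (t - 1) / 2 ≤ 0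
  c4 : γ / 4 - (2 - H) / 2 ≤ 0

/-- the excess of a cut is at most `ε k` if `n < t k` -/
lemma cutB (hB : ∀ n, BdAll m γ n) (hk : 1 ≤ k) (hcl : NoCl A m) (i j : ℕ) (hij : i + j + 2 ≤ m)
    (hN : Num γ ((1 - γ) ^ i + (1 - γ) ^ j) t ε)
    (hout : ∀ v, (Finset.univ.filter fun u => A v u).card = k)
    (hin : ∀ v, (Finset.univ.filter fun u => A u v).card = k)
    (hn : (Fintype.card V : ℝ) < t * k) : CutB A k ε := by
  intro O S U hO hU hc hcut hcut'
  by_contra hlt
  push Not at hlt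
  have hk0 : (0 : ℝ) < k := by exact_mod_cast (by omega : 0 < k)
  have hεk : 0 ≤ ε * k := mul_nonneg hN.hε hk0.le
  have hS : S.card ≤ k := by
    have : (S.card : ℝ) ≤ k := by linarith
    exact_mod_cast this
  have hc' : (O.card : ℝ) + S.card + U.card = Fintype.card V := by exact_mod_cast hc
  have s1 := side hN.hγ hN.hγ1 hB hcl i j hij hout hin O S hO hS hcut
  have s2 := side (A := fun a b => A b a) hN.hγ hN.hγ1 hB (CUT_.nocl_flip hcl) i j hij hin hout U S
    hU hS (fun b hb a hab => hcut' b hb a hab)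
  have e1 : (k : ℝ) - (k - S.card) = S.card := by ring
  rcases le_total (O.card : ℝ) (U.card : ℝ) with h | h
  · refine arith (o := (O.card : ℝ)) (e := (k : ℝ) - S.card) hk0 hlt hN.hε s1.1 ?_ ?_ hN.c0
      hN.c1 hN.c2 hN.c3 hN.c4
    · rw [e1]
      exact s1.2
    · linarith
  · refine arith (o := (U.card : ℝ)) (e := (k : ℝ) - S.card) hk0 hlt hN.hε s2.1 ?_ ?_ hN.c0
      hN.c1 hN.c2 hN.c3 hN.c4
    · rw [e1]
      exact s2.2
    · linarith

/-- the final step -/
theorem fin [Nonempty V] (hPKER : SpecPKER) {M c : ℕ} (hM : 1 ≤ M) (hcM : c ≤ M)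
    (hγM : γ * M = c) (hB : ∀ n, BdAll m γ n) (hk : 1 ≤ k) (hcl : NoCl A m) (i j : ℕ)
    (hij : i + j + 2 ≤ m) (hN : Num γ ((1 - γ) ^ i + (1 - γ) ^ j) t ε)
    (hout : ∀ v, (Finset.univ.filter fun u => A v u).card = k)
    (hin : ∀ v, (Finset.univ.filter fun u => A u v).card = k)
    (i' j' : ℕ) (hij' : i' + j' ≤ m) (ht : t ≤ THD_.p γ ε i' + THD_.p γ ε j') :
    t * k ≤ (Fintype.card V : ℝ) := by
  by_contra hlt
  push Not at hlt
  have hcut := cutB hB hk hcl i j hij hN hout hin hlt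
  have hclf := CUT_.nocl_flip hcl
  have h1 := THD_.order hPKER hM hcM hγM hk hN.hγ1 hcl
    (fun T => THA_.bd_of (n := T.card + 1) (fun j _ => hB j) hcl T (by omega))
    (fun T => THA_.bd_of (n := T.card + 1) (fun j _ => hB j) hclf T (by omega)) hcut hout hin
    i' j' hij'
  have hk0 : (0 : ℝ) ≤ k := Nat.cast_nonneg _
  have h2 := mul_le_mul_of_nonneg_right ht hk0
  linarith

end THF_

end Pool.Agent.Lib.MP_83608f_co.CN
end
end

section
/-! MP_83608f_co, part CN, module THG (helper58, formula of helper91): the bounds for `k`-diregular digraphs.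

`thg_closed`: no closed walk of length `1, ..., m`, `i + j = m`, `i, j ≥ 2`, `(1-γ)^i + (1-γ)^j ≤ 1` imply
`(2m-1)k + 2 - γ ≤ n (1 + (m-1)γ)`.  `thg4, ..., thg10`: the constants for `m = 4, ..., 10`. -/
set_option autoImplicit false

open Classical

noncomputable section

namespace Pool.Agent.Lib.MP_83608f_co.CN

open Pool.Agent.Lib.MP_83608f_co.EM (Wk)

namespace THG_

variable {V : Type} [Fintype V] {A : V → V → Prop} {k m : ℕ} {γ ε t : ℝ}

/-- `p_a = a - ε (a - (1 - (1-γ)^a)/γ)` -/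
lemma p_eq (a : ℕ) : γ * THD_.p γ ε a = γ * a - ε * (γ * a - (1 - (1 - γ) ^ a)) := by
  induction a with
  | zero => simp [THD_.p]
  | succ a ih =>
    have h : THD_.p γ ε (a + 1) = (1 - γ) * THD_.p γ ε a + 1 + γ * (a * (1 - ε)) := rfl
    have e1 : (1 - γ) ^ (a + 1) = (1 - γ) ^ a * (1 - γ) := pow_succ _ _
    rw [h, e1]
    push_cast
    have h2 : γ * ((1 - γ) * THD_.p γ ε a + 1 + γ * (a * (1 - ε))) =
        (1 - γ) * (γ * THD_.p γ ε a) + γ + γ * (γ * (a * (1 - ε))) := by ring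
    rw [h2, ih]
    ring

/-- the cut bound from the two sides -/
lemma cut (hγ : 0 < γ) (hγ1 : γ ≤ 1) (hB : ∀ n, BdAll m γ n) (hcl : NoCl A m)
    (hout : ∀ v, (Finset.univ.filter fun u => A v u).card = k)
    (hin : ∀ v, (Finset.univ.filter fun u => A u v).card = k)
    (hkn : (k : ℝ) ≤ Fintype.card V) (hm : 2 ≤ m)
    (hε : ε * k = (Fintype.card V - k) * γ / (2 - γ)) : CutB A k ε := by
  intro O S U hO hU hc hcut hcut'
  rw [hε, le_div_iff₀ (by linarith)]
  have hc' : (O.card : ℝ) + S.card + U.card = Fintype.card V := by exact_mod_cast hc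
  have h0 : 0 ≤ ((Fintype.card V : ℝ) - k) * γ := mul_nonneg (by linarith) hγ.le
  rcases le_total S.card k with hS | hS
  · have s1 := (THF_.side hγ hγ1 hB hcl 0 0 (by omega) hout hin O S hO hS hcut).1
    have s2 := (THF_.side (A := fun a b => A b a) hγ hγ1 hB (CUT_.nocl_flip hcl) 0 0 (by omega) hin
      hout U S hU hS (fun b hb a hab => hcut' b hb a hab)).1
    have h1 : 2 * ((k : ℝ) - S.card) ≤ γ * (Fintype.card V - S.card) := by
      rw [← hc']
      linarith
    nlinarith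
  · have h1 : (k : ℝ) - S.card ≤ 0 := by
      have : (k : ℝ) ≤ S.card := by exact_mod_cast hS
      linarith
    have h2 := mul_nonpos_of_nonpos_of_nonneg h1 (by linarith : (0 : ℝ) ≤ 2 - γ)
    linarith

/-- the closed form, rational `γ` -/
theorem closed_rat [Nonempty V] {M c : ℕ} (hM : 1 ≤ M) (hcM : c ≤ M)
    (hγM : γ * M = c) (hγ : 0 < γ) (hγ1 : γ ≤ 1) (hB : ∀ n, BdAll m γ n) (hk : 1 ≤ k)
    (hcl : NoCl A m) (hm : 2 ≤ m)
    (hout : ∀ v, (Finset.univ.filter fun u => A v u).card = k)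
    (hin : ∀ v, (Finset.univ.filter fun u => A u v).card = k)
    (i j : ℕ) (hij : i + j = m) (hG : (1 - γ) ^ i + (1 - γ) ^ j ≤ 1) :
    (2 * (m : ℝ) - 1) * k + (2 - γ) ≤ Fintype.card V * (1 + ((m : ℝ) - 1) * γ) := by
  have hk0 : (0 : ℝ) < k := by exact_mod_cast (by omega : 0 < k)
  have hkn : (k : ℝ) ≤ Fintype.card V := by
    obtain ⟨v⟩ := ‹Nonempty V›
    have := Finset.card_le_univ (Finset.univ.filter fun u => A v u)
    rw [hout v] at this
    exact_mod_cast this
  obtain ⟨ε, hε⟩ : ∃ ε : ℝ, ε * k = (Fintype.card V - k) * γ / (2 - γ) :=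
    ⟨(Fintype.card V - k) * γ / (2 - γ) / k, by field_simp⟩
  have hcut := cut hγ hγ1 hB hcl hout hin hkn hm hε
  have hclf := CUT_.nocl_flip hcl
  have h1 := THD_.order specPKER hM hcM hγM hk hγ1 hcl
    (fun T => THA_.bd_of (n := T.card + 1) (fun j _ => hB j) hcl T (by omega))
    (fun T => THA_.bd_of (n := T.card + 1) (fun j _ => hB j) hclf T (by omega)) hcut hout hin
    i j hij.le
  have e1 := p_eq (γ := γ) (ε := ε) i
  have e2 := p_eq (γ := γ) (ε := ε) j
  have hijR : (i : ℝ) + j = m := by exact_mod_cast hij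
  -- Bernoulli
  have hb1 := one_add_mul_le_pow (by linarith : (-2 : ℝ) ≤ -γ) i
  have hb2 := one_add_mul_le_pow (by linarith : (-2 : ℝ) ≤ -γ) j
  have e3 : (1 : ℝ) + -γ = 1 - γ := by ring
  rw [e3] at hb1 hb2
  obtain ⟨G, hGd⟩ : ∃ G, G = (1 - γ) ^ i + (1 - γ) ^ j := ⟨_, rfl⟩
  rw [← hGd] at hG
  have hb : 2 - γ * m ≤ G := by
    rw [hGd, ← hijR]
    linarith
  obtain ⟨n, hn⟩ : ∃ n : ℝ, n = Fintype.card V := ⟨_, rfl⟩
  rw [← hn] at hkn h1 hε ⊢
  -- `γ (p_i + p_j) = γ m - ε (γ m - 2 + G)`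
  have e4 : γ * (THD_.p γ ε i + THD_.p γ ε j) = γ * m - ε * (γ * m - 2 + G) := by
    rw [mul_add, e1, e2, hGd, ← hijR]
    ring
  have h2 : (γ * m - ε * (γ * m - 2 + G)) * k + γ ≤ γ * n := by
    have h3 := mul_le_mul_of_nonneg_left h1 hγ.le
    calc (γ * m - ε * (γ * m - 2 + G)) * k + γ
        = γ * ((THD_.p γ ε i + THD_.p γ ε j) * k + 1) := by
          rw [← e4]
          ring
      _ ≤ γ * n := h3
  have h4 : ε * k * (2 - γ) = (n - k) * γ := by
    rw [hε]
    exact div_mul_cancel₀ _ (by linarith)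
  -- multiply by `2 - γ`
  have h5 := mul_le_mul_of_nonneg_right h2 (by linarith : (0 : ℝ) ≤ 2 - γ)
  have h6 : (γ * m * k + γ) * (2 - γ) - (γ * m - 2 + G) * ((n - k) * γ) ≤ γ * n * (2 - γ) := by
    rw [← h4]
    linarith
  have h7 : γ * (((m : ℝ) * k + 1) * (2 - γ)) ≤ γ * (n * (2 - γ) + (γ * m - 2 + G) * (n - k)) := by
    linarith
  have h8 := le_of_mul_le_mul_left h7 hγ
  have h9 : (γ * m - 2 + G) * (n - k) ≤ (γ * m - 1) * (n - k) :=
    mul_le_mul_of_nonneg_right (by linarith) (by linarith)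
  linarith

end THG_

open THG_

variable {V : Type} [Fintype V] [Nonempty V] {A : V → V → Prop} {k m : ℕ}

/-- the closed form for all girths -/
theorem thg_closed {γ : ℝ} (hγ : 0 < γ) (hγ1 : γ ≤ 1) (hk : 1 ≤ k) (hcl : NoCl A m)
    (hout : ∀ v, (Finset.univ.filter fun u => A v u).card = k)
    (hin : ∀ v, (Finset.univ.filter fun u => A u v).card = k)
    (i j : ℕ) (hij : i + j = m) (hi : 2 ≤ i) (hj : 2 ≤ j) (hG : (1 - γ) ^ i + (1 - γ) ^ j ≤ 1) :
    (2 * (m : ℝ) - 1) * k + (2 - γ) ≤ Fintype.card V * (1 + ((m : ℝ) - 1) * γ) := by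
  have key : ∀ q : ℚ, γ ≤ q → (q : ℝ) ≤ 1 →
      (2 * (m : ℝ) - 1) * k + (2 - (q : ℝ)) ≤ Fintype.card V * (1 + ((m : ℝ) - 1) * q) := by
    intro q hq hq1
    have hq0 : (0 : ℝ) < q := lt_of_lt_of_le hγ hq
    have hq0' : 0 < q := by exact_mod_cast hq0
    have hpow : ∀ n : ℕ, (1 - (q : ℝ)) ^ n ≤ (1 - γ) ^ n := fun n =>
      pow_le_pow_left₀ (by linarith) (by linarith) n
    have hGq : (1 - (q : ℝ)) ^ i + (1 - (q : ℝ)) ^ j ≤ 1 := by linarith [hpow i, hpow j]
    obtain ⟨i', rfl⟩ : ∃ i', i = i' + 2 := ⟨i - 2, by omega⟩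
    obtain ⟨j', rfl⟩ : ∃ j', j = j' + 2 := ⟨j - 2, by omega⟩
    have hnum : (0 : ℤ) < q.num := Rat.num_pos.2 hq0'
    obtain ⟨c, hc⟩ : ∃ c : ℕ, q.num = c := ⟨q.num.toNat, by omega⟩
    have hqe : (q : ℝ) * (q.den : ℕ) = (c : ℕ) := by
      have h1 : q * q.den = q.num := Rat.mul_den_eq_num q
      rw [hc] at h1
      exact_mod_cast h1
    have hcM : c ≤ q.den := by
      have h1 : ((c : ℕ) : ℝ) ≤ (q.den : ℕ) := by
        rw [← hqe]
        have : (0 : ℝ) ≤ (q.den : ℕ) := Nat.cast_nonneg _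
        nlinarith
      exact_mod_cast h1
    refine closed_rat (M := q.den) (c := c) q.pos hcM hqe hq0 hq1 (fun n => ?_) hk hcl (by omega)
      hout hin (i' + 2) (j' + 2) hij hGq
    refine bdAll2 hq0 hq1 i' j' (by omega) ?_ n
    have e1 : (1 - (q : ℝ)) ^ (i' + 2) = (1 - q) ^ 2 * (1 - q) ^ i' := by ring
    have e2 : (1 - (q : ℝ)) ^ (j' + 2) = (1 - q) ^ 2 * (1 - q) ^ j' := by ring
    rw [e1, e2, ← mul_add] at hGq
    refine le_trans (mul_le_mul_of_nonneg_right ?_ ?_) hGq
    · have : 0 ≤ (q : ℝ) ^ 3 := by positivity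
      nlinarith
    · have h1 : ∀ n : ℕ, 0 ≤ (1 - (q : ℝ)) ^ n := fun n => pow_nonneg (by linarith) n
      exact add_nonneg (h1 _) (h1 _)
  rcases hγ1.eq_or_lt with h1 | h1
  · have := key 1 (by rw [h1]; norm_num) (by norm_num)
    rw [h1]
    push_cast at this
    linarith
  · by_contra hlt
    push Not at hlt
    obtain ⟨n, hn⟩ : ∃ n : ℝ, n = Fintype.card V := ⟨_, rfl⟩
    rw [← hn] at hlt key
    have hn0 : 0 ≤ n := by
      rw [hn]
      exact Nat.cast_nonneg _
    have hm1 : (0 : ℝ) ≤ (m : ℝ) - 1 := by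
      have : (1 : ℝ) ≤ m := by exact_mod_cast (by omega : 1 ≤ m)
      linarith
    -- the slack
    obtain ⟨δ, hδ⟩ : ∃ δ, δ = (2 * (m : ℝ) - 1) * k + (2 - γ) - n * (1 + ((m : ℝ) - 1) * γ) :=
      ⟨_, rfl⟩
    have hδ0 : 0 < δ := by rw [hδ]; linarith
    have hD : 0 < 1 + n * ((m : ℝ) - 1) := by
      have := mul_nonneg hn0 hm1
      linarith
    obtain ⟨q, hq1, hq2⟩ := exists_rat_btwn (show γ < min 1 (γ + δ / (1 + n * ((m : ℝ) - 1))) from
      lt_min h1 (by
        have := div_pos hδ0 hD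
        linarith))
    have h2 := key q hq1.le (hq2.le.trans (min_le_left _ _))
    have h3 : (q : ℝ) < γ + δ / (1 + n * ((m : ℝ) - 1)) := lt_of_lt_of_le hq2 (min_le_right _ _)
    have h4 : ((q : ℝ) - γ) * (1 + n * ((m : ℝ) - 1)) < δ := by
      rw [← lt_div_iff₀ hD]
      linarith
    nlinarith

/-- girth at least five -/
theorem thg4 (hk : 1 ≤ k) (hcl : NoCl A 4)
    (hout : ∀ v, (Finset.univ.filter fun u => A v u).card = k)
    (hin : ∀ v, (Finset.univ.filter fun u => A u v).card = k) :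
    3.799 * (k : ℝ) ≤ Fintype.card V := by
  have hN : THF_.Num (0.2779 : ℝ) ((1 - 0.2779) ^ 1 + (1 - 0.2779) ^ 1) 3.799 0.3602 := by
    constructor <;> norm_num
  exact THF_.fin (ε := 0.3602) specPKER (M := 10000) (c := 2779) (by norm_num) (by norm_num)
    (by norm_num) (fun n => bdAll2 (by norm_num) (by norm_num) 0 0 (by norm_num)
      (by norm_num) n) hk hcl 1 1 (by norm_num) hN hout hin 2 2 (by norm_num) (by
      norm_num [THD_.p])

/-- girth at least six -/
theorem thg5 (hk : 1 ≤ k) (hcl : NoCl A 5)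
    (hout : ∀ v, (Finset.univ.filter fun u => A v u).card = k)
    (hin : ∀ v, (Finset.univ.filter fun u => A u v).card = k) :
    4.649 * (k : ℝ) ≤ Fintype.card V := by
  have hN : THF_.Num (0.2379 : ℝ) ((1 - 0.2379) ^ 2 + (1 - 0.2379) ^ 1) 4.649 0.3917 := by
    constructor <;> norm_num
  exact THF_.fin (ε := 0.3917) specPKER (M := 10000) (c := 2379) (by norm_num) (by norm_num)
    (by norm_num) (fun n => bdAll2 (by norm_num) (by norm_num) 1 0 (by norm_num)
      (by norm_num) n) hk hcl 2 1 (by norm_num) hN hout hin 3 2 (by norm_num) (by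
      norm_num [THD_.p])

/-- girth at least seven -/
theorem thg6 (hk : 1 ≤ k) (hcl : NoCl A 6)
    (hout : ∀ v, (Finset.univ.filter fun u => A v u).card = k)
    (hin : ∀ v, (Finset.univ.filter fun u => A u v).card = k) :
    5.526 * (k : ℝ) ≤ Fintype.card V := by
  have hN : THF_.Num (0.2028 : ℝ) ((1 - 0.2028) ^ 2 + (1 - 0.2028) ^ 2) 5.526 0.4174 := by
    constructor <;> norm_num
  exact THF_.fin (ε := 0.4174) specPKER (M := 10000) (c := 2028) (by norm_num) (by norm_num)
    (by norm_num) (fun n => bdAll2 (by norm_num) (by norm_num) 1 1 (by norm_num)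
      (by norm_num) n) hk hcl 2 2 (by norm_num) hN hout hin 3 3 (by norm_num) (by
      norm_num [THD_.p])

/-- girth at least eight -/
theorem thg7 (hk : 1 ≤ k) (hcl : NoCl A 7)
    (hout : ∀ v, (Finset.univ.filter fun u => A v u).card = k)
    (hin : ∀ v, (Finset.univ.filter fun u => A u v).card = k) :
    6.356 * (k : ℝ) ≤ Fintype.card V := by
  have hN : THF_.Num (0.1789 : ℝ) ((1 - 0.1789) ^ 3 + (1 - 0.1789) ^ 2) 6.356 0.4420 := by
    constructor <;> norm_num
  exact THF_.fin (ε := 0.4420) specPKER (M := 10000) (c := 1789) (by norm_num) (by norm_num)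
    (by norm_num) (fun n => bdAll2 (by norm_num) (by norm_num) 2 1 (by norm_num)
      (by norm_num) n) hk hcl 3 2 (by norm_num) hN hout hin 4 3 (by norm_num) (by
      norm_num [THD_.p])

/-- girth at least nine -/
theorem thg8 (hk : 1 ≤ k) (hcl : NoCl A 8)
    (hout : ∀ v, (Finset.univ.filter fun u => A v u).card = k)
    (hin : ∀ v, (Finset.univ.filter fun u => A u v).card = k) :
    7.218 * (k : ℝ) ≤ Fintype.card V := by
  have hN : THF_.Num (0.1580 : ℝ) ((1 - 0.1580) ^ 3 + (1 - 0.1580) ^ 3) 7.218 0.4583 := by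
    constructor <;> norm_num
  exact THF_.fin (ε := 0.4583) specPKER (M := 10000) (c := 1580) (by norm_num) (by norm_num)
    (by norm_num) (fun n => bdAll2 (by norm_num) (by norm_num) 2 2 (by norm_num)
      (by norm_num) n) hk hcl 3 3 (by norm_num) hN hout hin 4 4 (by norm_num) (by
      norm_num [THD_.p])

/-- girth at least ten -/
theorem thg9 (hk : 1 ≤ k) (hcl : NoCl A 9)
    (hout : ∀ v, (Finset.univ.filter fun u => A v u).card = k)
    (hin : ∀ v, (Finset.univ.filter fun u => A u v).card = k) :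
    8.046 * (k : ℝ) ≤ Fintype.card V := by
  have hN : THF_.Num (0.1426 : ℝ) ((1 - 0.1426) ^ 4 + (1 - 0.1426) ^ 3) 8.046 0.4734 := by
    constructor <;> norm_num
  exact THF_.fin (ε := 0.4734) specPKER (M := 10000) (c := 1426) (by norm_num) (by norm_num)
    (by norm_num) (fun n => bdAll2 (by norm_num) (by norm_num) 3 2 (by norm_num)
      (by norm_num) n) hk hcl 4 3 (by norm_num) hN hout hin 5 4 (by norm_num) (by
      norm_num [THD_.p])

/-- girth at least eleven -/
theorem thg10 (hk : 1 ≤ k) (hcl : NoCl A 10)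
    (hout : ∀ v, (Finset.univ.filter fun u => A v u).card = k)
    (hin : ∀ v, (Finset.univ.filter fun u => A u v).card = k) :
    8.902 * (k : ℝ) ≤ Fintype.card V := by
  have hN : THF_.Num (0.1290 : ℝ) ((1 - 0.1290) ^ 4 + (1 - 0.1290) ^ 4) 8.902 0.4838 := by
    constructor <;> norm_num
  exact THF_.fin (ε := 0.4838) specPKER (M := 10000) (c := 1290) (by norm_num) (by norm_num)
    (by norm_num) (fun n => bdAll2 (by norm_num) (by norm_num) 3 3 (by norm_num)
      (by norm_num) n) hk hcl 4 4 (by norm_num) hN hout hin 5 5 (by norm_num) (by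
      norm_num [THD_.p])

end Pool.Agent.Lib.MP_83608f_co.CN
end
end

section
/-! MP_83608f_co, part CN, module FRA (helper58): the sides of a cut of excess more than `η k` in a `k`-diregular digraph. -/
set_option autoImplicit false

open Classical

noncomputable section

namespace Pool.Agent.Lib.MP_83608f_co.CN

/-- if `(O, S, U)` is a cut with `k - |S| > η k` then `O` has at least `X k` vertices -/
def FragB {V : Type} [Fintype V] (A : V → V → Prop) (k : ℕ) (η X : ℝ) : Prop :=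
  ∀ O S U : Finset V, O.Nonempty → U.Nonempty → O.card + S.card + U.card = Fintype.card V →
    (∀ a ∈ O, ∀ b, A a b → b ∈ O ∨ b ∈ S) → (∀ b ∈ U, ∀ a, A a b → a ∈ U ∨ a ∈ S) →
    η * k < (k : ℝ) - S.card → X * k ≤ O.card

/-- the numerical conditions for a fragment bound: `C` is the constant of the bound with deficits -/
structure NumF (C η X : ℝ) (i j : ℕ) : Prop where
  hC : 0 < C
  hη : 0 < η
  hη1 : η ≤ 1
  hq : 0 < 1 - (1 - η / 2) / C
  g1 : 1 ≤ (1 - (1 - η / 2) / C) ^ i + (1 - (1 - η / 2) / C) ^ j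
  g2 : ((1 - (1 - η / 2) / C) ^ i + (1 - (1 - η / 2) / C) ^ j) * (1 - η / C) ≤ 1
  c1 : C ^ 2 - ((2 - ((1 - (1 - η / 2) / C) ^ i + (1 - (1 - η / 2) / C) ^ j)) * C +
      ((1 - (1 - η / 2) / C) ^ i + (1 - (1 - η / 2) / C) ^ j)) * C +
      ((1 - (1 - η / 2) / C) ^ i + (1 - (1 - η / 2) / C) ^ j) *
      ((1 - η) / (η * (1 - (1 - η / 2) / C))) < 0
  c2 : (X + (1 - η) / (η * (1 - (1 - η / 2) / C))) ^ 2 -
      ((2 - ((1 - (1 - η / 2) / C) ^ i + (1 - (1 - η / 2) / C) ^ j)) * C +
      ((1 - (1 - η / 2) / C) ^ i + (1 - (1 - η / 2) / C) ^ j)) *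
      (X + (1 - η) / (η * (1 - (1 - η / 2) / C))) +
      ((1 - (1 - η / 2) / C) ^ i + (1 - (1 - η / 2) / C) ^ j) *
      ((1 - η) / (η * (1 - (1 - η / 2) / C))) ≤ 0

namespace FRA_

variable {V : Type} [Fintype V] {A : V → V → Prop} {k m : ℕ}

/-- the quadratic -/
lemma quad {C G y b X s : ℝ} (hs : C ≤ s) (h1 : C ^ 2 - b * C + G * y < 0)
    (h2 : (X + y) ^ 2 - b * (X + y) + G * y ≤ 0) (h3 : 0 ≤ s ^ 2 - b * s + G * y) : X + y ≤ s := by
  by_contra hlt
  push Not at hlt
  have h4 : 0 < X + y - C := by linarith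
  -- convexity
  have h5 : (X + y - C) * (s ^ 2 - b * s + G * y) =
      (X + y - s) * (C ^ 2 - b * C + G * y) + (s - C) * ((X + y) ^ 2 - b * (X + y) + G * y) -
        (X + y - C) * ((X + y - s) * (s - C)) := by ring
  have h6 : 0 ≤ (X + y - C) * (s ^ 2 - b * s + G * y) := mul_nonneg h4.le h3
  have h7 : (X + y - s) * (C ^ 2 - b * C + G * y) < 0 := mul_neg_of_pos_of_neg (by linarith) h1
  have h8 : (s - C) * ((X + y) ^ 2 - b * (X + y) + G * y) ≤ 0 :=
    mul_nonpos_of_nonneg_of_nonpos (by linarith) h2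
  have h9 : 0 ≤ (X + y - C) * ((X + y - s) * (s - C)) :=
    mul_nonneg h4.le (mul_nonneg (by linarith) (by linarith))
  linarith

/-- the weight of one side of a cut -/
lemma side2 {C η X : ℝ} (i j : ℕ) (hN : NumF C η X i j) (hij : i + j + 2 ≤ m) (hk : 1 ≤ k)
    (hcl : NoCl A m)
    (hout : ∀ v, (Finset.univ.filter fun u => A v u).card = k)
    (hin : ∀ v, (Finset.univ.filter fun u => A u v).card = k)
    (O S : Finset V) (hO : O.Nonempty) (hS : η * k < (k : ℝ) - S.card)
    (hcut : ∀ a ∈ O, ∀ b, A a b → b ∈ O ∨ b ∈ S) :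
    (X + (1 - η) / (η * (1 - (1 - η / 2) / C))) * k ≤
      O.card + S.card / (η * (1 - (1 - η / 2) / C)) := by
  classical
  have hk0 : (0 : ℝ) < k := by exact_mod_cast (by omega : 0 < k)
  have hC := hN.hC
  have hη := hN.hη
  obtain ⟨q, hq⟩ : ∃ q, q = 1 - (1 - η / 2) / C := ⟨_, rfl⟩
  have hq0 : 0 < q := by
    rw [hq]
    exact hN.hq
  have hq1 : q ≤ 1 := by
    rw [hq]
    have : 0 ≤ (1 - η / 2) / C := div_nonneg (by linarith [hN.hη1]) hC.le
    linarith
  obtain ⟨y, hy⟩ : ∃ y, y = (1 - η) / (η * q) := ⟨_, rfl⟩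
  obtain ⟨G, hG⟩ : ∃ G, G = q ^ i + q ^ j := ⟨_, rfl⟩
  have g1 := hN.g1
  have g2 := hN.g2
  have c1 := hN.c1
  have c2 := hN.c2
  rw [← hq, ← hG] at g1 g2 c1 c2
  rw [← hy] at c1 c2
  rw [← hq, ← hy]
  -- out-degrees inside `O`
  obtain ⟨dO, hdO⟩ : ∃ dO : V → ℝ, dO = fun u => ((O.filter fun v => A u v).card : ℝ) := ⟨_, rfl⟩
  have hdOv : ∀ a, dO a = ((O.filter fun v => A a v).card : ℝ) := fun a => by rw [hdO]
  have hsplit : ∀ a ∈ O, (k : ℝ) ≤ dO a + (S.filter fun v => A a v).card := by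
    intro a ha
    have h1 : (Finset.univ.filter fun v => A a v) ⊆
        (O.filter fun v => A a v) ∪ (S.filter fun v => A a v) := by
      intro v hv
      rw [Finset.mem_filter] at hv
      rw [Finset.mem_union, Finset.mem_filter, Finset.mem_filter]
      rcases hcut a ha v hv.2 with h | h
      · exact Or.inl ⟨h, hv.2⟩
      · exact Or.inr ⟨h, hv.2⟩
    have h2 := (Finset.card_le_card h1).trans (Finset.card_union_le _ _)
    rw [hout a] at h2
    rw [hdOv a]
    exact_mod_cast h2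
  have hdeg : ∀ a ∈ O, η * k ≤ dO a := by
    intro a ha
    have h1 := hsplit a ha
    have h2 : ((S.filter fun v => A a v).card : ℝ) ≤ S.card := by
      exact_mod_cast Finset.card_le_card (Finset.filter_subset (fun v => A a v) S)
    linarith
  have hdegk : ∀ a, dO a ≤ k := by
    intro a
    have h1 : (O.filter fun v => A a v) ⊆ (Finset.univ.filter fun v => A a v) := by
      intro v hv
      rw [Finset.mem_filter] at hv ⊢
      exact ⟨Finset.mem_univ _, hv.2⟩
    have h2 := Finset.card_le_card h1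
    rw [hout a] at h2
    rw [hdOv a]
    exact_mod_cast h2
  -- arcs from `O` to `S`
  have hdefS : ∑ a ∈ O, ((k : ℝ) - dO a) ≤ k * S.card := by
    have h0 : ∑ a ∈ O, ((k : ℝ) - dO a) ≤ ∑ a ∈ O, ((S.filter fun v => A a v).card : ℝ) :=
      Finset.sum_le_sum fun a ha => by linarith [hsplit a ha]
    have h1 : ∑ a ∈ O, (S.filter fun v => A a v).card = ∑ v ∈ S, (O.filter fun a => A a v).card := by
      simp only [Finset.card_filter]
      exact Finset.sum_comm
    have h2 : ∑ v ∈ S, (O.filter fun a => A a v).card ≤ S.card * k := by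
      rw [← smul_eq_mul, ← Finset.sum_const]
      apply Finset.sum_le_sum
      intro v _
      rw [← hin v]
      apply Finset.card_le_card
      intro a ha
      rw [Finset.mem_filter] at ha ⊢
      exact ⟨Finset.mem_univ _, ha.2⟩
    have h3 : (∑ a ∈ O, ((S.filter fun v => A a v).card : ℝ)) ≤ (S.card : ℝ) * k := by
      rw [← h1] at h2
      exact_mod_cast h2
    linarith
  -- the function `d`
  obtain ⟨d, hd⟩ : ∃ d : V → ℝ, d = fun u => if u ∈ O then dO u else (k : ℝ) := ⟨_, rfl⟩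
  have hdO' : ∀ u ∈ O, d u = dO u := fun u hu => by
    rw [hd]
    simp only [if_pos hu]
  have hd1 : ∀ u, η * k ≤ d u := by
    intro u
    by_cases hu : u ∈ O
    · rw [hdO' u hu]
      exact hdeg u hu
    · rw [hd]
      simp only [if_neg hu]
      nlinarith [hN.hη1]
  have hd2 : ∀ u, d u ≤ k := by
    intro u
    by_cases hu : u ∈ O
    · rw [hdO' u hu]
      exact hdegk u
    · rw [hd]
      simp only [if_neg hu]
      exact le_refl _
  obtain ⟨lam, hlam⟩ : ∃ lam, lam = 1 / (η * k * q) := ⟨_, rfl⟩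
  have hε0 : 0 < η * k := mul_pos hη hk0
  have hlam0 : 0 < lam := by
    rw [hlam]
    exact div_pos one_pos (mul_pos hε0 hq0)
  have hlq : lam * (η * k * q) = 1 := by
    rw [hlam]
    exact div_mul_cancel₀ _ (mul_pos hε0 hq0).ne'
  have hγ0 : 0 < 1 / C := div_pos one_pos hC
  have hqe : q = 1 - 1 / C * (1 - η * k / (2 * k)) := by
    rw [hq]
    field_simp
  have hek : η * k ≤ k := by nlinarith [hN.hη1]
  have hgk : (q ^ i + q ^ j) * (1 - 1 / C * (η * k / k)) ≤ 1 := by
    rw [← hG]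
    have : 1 - 1 / C * (η * k / k) = 1 - η / C := by field_simp
    rw [this]
    exact g2
  have hdch := dch (A := A) (m := m) (d := d) (K := (k : ℝ)) (e := η * k) (ε := η * k) (γ := 1 / C)
    (q := q) (lam := lam) hε0 (le_refl _) hek hd1 hlam0.le hd2 hγ0 hqe hq0 hlq hcl i j hij hgk
  obtain ⟨μ, hμ⟩ : ∃ μ, μ = mu lam (k : ℝ) d O := ⟨_, rfl⟩
  have hμ1 : C * k ≤ μ := by
    obtain ⟨u, hu, h1⟩ := hdch O hO
    rw [← hμ, hdO' u hu] at h1
    have h2 : 0 < dO u := by linarith [hdeg u hu]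
    have h3 : ((O.filter fun v => A u v).card : ℝ) = dO u := (hdOv u).symm
    rw [h3] at h1
    have h4 := le_of_mul_le_mul_right h1 h2
    rw [one_div, inv_mul_eq_div, le_div_iff₀ hC] at h4
    linarith
  have hclo := DCH_.closing (A := A) (m := m) (d := d) (K := (k : ℝ)) (e := η * k) (ε := η * k)
    (γ := 1 / C) (q := q) (lam := lam) (H := (k : ℝ)) (M := C * k) hk0 hε0 hek (le_refl _) hd1
    hlam0.le hd2 hγ0 hk0.le (by field_simp) hqe hq0 hlq hcl i j hij O
    (fun Q _ _ S' _ hS' => hdch S' hS') (fun u hu => by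
      rw [hdO' u hu, hdOv u])
  rw [← hμ, ← hG] at hclo
  -- weights
  have hμe : μ = O.card + lam * ∑ a ∈ O, ((k : ℝ) - dO a) := by
    rw [hμ, DCH_.mu_eq]
    unfold DCH_.df
    rw [Finset.sum_congr rfl fun u hu => by rw [hdO' u hu]]
  have hwsum : ∑ v ∈ O, (1 + lam * ((k : ℝ) - d v)) = μ := by
    rw [hμ]
    rfl
  have hwd : (k : ℝ) * O.card ≤ ∑ v ∈ O, (1 + lam * ((k : ℝ) - d v)) *
      ((O.filter fun u => A v u).card : ℝ) := by
    rw [mul_comm, ← nsmul_eq_mul, ← Finset.sum_const]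
    apply Finset.sum_le_sum
    intro v hv
    have h1 : ((O.filter fun u => A v u).card : ℝ) = dO v := (hdOv v).symm
    rw [h1, hdO' v hv]
    have h2 := hdeg v hv
    have h3 := hdegk v
    have h4 : 1 ≤ lam * dO v := by
      have h5 : lam * (η * k * q) ≤ lam * dO v := by
        apply mul_le_mul_of_nonneg_left _ hlam0.le
        have : η * k * q ≤ η * k * 1 := mul_le_mul_of_nonneg_left hq1 hε0.le
        linarith
      linarith
    nlinarith
  have hbig : (2 - G) * (C * k) * μ + G * (k * O.card) ≤ μ * μ := by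
    have h1 : ∑ v ∈ O, (1 + lam * ((k : ℝ) - d v)) * (2 * (C * k) - G *
        (C * k - (1 + lam * ((k : ℝ) - d v)) - ((O.filter fun u => A v u).card : ℝ))) =
        (2 - G) * (C * k) * (∑ v ∈ O, (1 + lam * ((k : ℝ) - d v))) +
        G * (∑ v ∈ O, (1 + lam * ((k : ℝ) - d v)) * (1 + lam * ((k : ℝ) - d v))) +
        G * (∑ v ∈ O, (1 + lam * ((k : ℝ) - d v)) * ((O.filter fun u => A v u).card : ℝ)) := by
      rw [Finset.mul_sum, Finset.mul_sum, Finset.mul_sum, ← Finset.sum_add_distrib,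
        ← Finset.sum_add_distrib]
      apply Finset.sum_congr rfl
      intro v _
      ring
    have h2 : ∑ v ∈ O, (1 + lam * ((k : ℝ) - d v)) * (μ + (1 + lam * ((k : ℝ) - d v))) =
        μ * (∑ v ∈ O, (1 + lam * ((k : ℝ) - d v))) +
        ∑ v ∈ O, (1 + lam * ((k : ℝ) - d v)) * (1 + lam * ((k : ℝ) - d v)) := by
      rw [Finset.mul_sum, ← Finset.sum_add_distrib]
      apply Finset.sum_congr rfl
      intro v _
      ring
    rw [h1, h2, hwsum] at hclo
    have h3 : 0 ≤ ∑ v ∈ O, (1 + lam * ((k : ℝ) - d v)) * (1 + lam * ((k : ℝ) - d v)) :=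
      Finset.sum_nonneg fun v _ => mul_self_nonneg _
    have h4 := mul_nonneg (by linarith : (0 : ℝ) ≤ G - 1) h3
    have h5 := mul_le_mul_of_nonneg_left hwd (by linarith : (0 : ℝ) ≤ G)
    linarith
  -- normalise
  obtain ⟨s, hs⟩ : ∃ s, s = μ / k := ⟨_, rfl⟩
  have hsk : s * k = μ := by
    rw [hs]
    exact div_mul_cancel₀ _ hk0.ne'
  have hy0 : 0 ≤ y := by
    rw [hy]
    exact div_nonneg (by linarith [hN.hη1]) (mul_pos hη hq0).le
  -- `μ ≤ |O| + y k`
  have hμy : μ ≤ O.card + y * k := by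
    rw [hμe]
    have h1 : lam * ∑ a ∈ O, ((k : ℝ) - dO a) ≤ lam * (k * (k - η * k)) := by
      apply mul_le_mul_of_nonneg_left _ hlam0.le
      refine hdefS.trans ?_
      exact mul_le_mul_of_nonneg_left (by linarith) hk0.le
    have h2 : lam * (k * (k - η * k)) = y * k := by
      rw [hy, hlam]
      field_simp
    linarith
  have hs1 : C ≤ s := by
    have : C * k ≤ s * k := by rw [hsk]; exact hμ1
    exact le_of_mul_le_mul_right this hk0
  have h3 : 0 ≤ s ^ 2 - ((2 - G) * C + G) * s + G * y := by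
    have h4 : (2 - G) * (C * k) * μ + G * (k * (μ - y * k)) ≤ μ * μ := by
      have h5 : G * (k * (μ - y * k)) ≤ G * (k * O.card) :=
        mul_le_mul_of_nonneg_left (mul_le_mul_of_nonneg_left (by linarith) hk0.le) (by linarith)
      linarith
    rw [← hsk] at h4
    have h5 : 0 ≤ (s ^ 2 - ((2 - G) * C + G) * s + G * y) * (k * k) := by
      have : (s ^ 2 - ((2 - G) * C + G) * s + G * y) * (k * k) =
          s * k * (s * k) - ((2 - G) * (C * k) * (s * k) + G * (k * (s * k - y * k))) := by ring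
      rw [this]
      linarith
    exact nonneg_of_mul_nonneg_left h5 (mul_pos hk0 hk0)
  have h4 := quad hs1 c1 c2 h3
  have h5 : (X + y) * k ≤ s * k := mul_le_mul_of_nonneg_right h4 hk0.le
  rw [hsk] at h5
  have h6 : μ ≤ O.card + S.card / (η * q) := by
    rw [hμe]
    have h1 : lam * ∑ a ∈ O, ((k : ℝ) - dO a) ≤ lam * (k * S.card) :=
      mul_le_mul_of_nonneg_left hdefS hlam0.le
    have h2 : lam * (k * S.card) = S.card / (η * q) := by
      rw [hlam]
      field_simp
    linarith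
  linarith

/-- the size of one side of a cut -/
lemma side {C η X : ℝ} (i j : ℕ) (hN : NumF C η X i j) (hij : i + j + 2 ≤ m) (hk : 1 ≤ k)
    (hcl : NoCl A m)
    (hout : ∀ v, (Finset.univ.filter fun u => A v u).card = k)
    (hin : ∀ v, (Finset.univ.filter fun u => A u v).card = k)
    (O S : Finset V) (hO : O.Nonempty) (hS : η * k < (k : ℝ) - S.card)
    (hcut : ∀ a ∈ O, ∀ b, A a b → b ∈ O ∨ b ∈ S) : X * k ≤ O.card := by
  have h1 := side2 i j hN hij hk hcl hout hin O S hO hS hcut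
  have hp : 0 < η * (1 - (1 - η / 2) / C) := mul_pos hN.hη hN.hq
  have h2 : (S.card : ℝ) / (η * (1 - (1 - η / 2) / C)) ≤
      (1 - η) / (η * (1 - (1 - η / 2) / C)) * k := by
    rw [div_mul_eq_mul_div]
    apply div_le_div_of_nonneg_right _ hp.le
    linarith
  linarith

end FRA_

/-- no cut has excess more than `η k` if `n ≤ t k`, `t < 2X + 1 - η` -/
theorem cutF {V : Type} [Fintype V] {A : V → V → Prop} {k m : ℕ} {C η X t : ℝ} (i j : ℕ)
    (hN : NumF C η X i j) (hij : i + j + 2 ≤ m) (hk : 1 ≤ k) (hcl : NoCl A m)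
    (hout : ∀ v, (Finset.univ.filter fun u => A v u).card = k)
    (hin : ∀ v, (Finset.univ.filter fun u => A u v).card = k)
    (hn : (Fintype.card V : ℝ) ≤ t * k) (ht : t < 2 * X + 1 - η) : CutB A k η := by
  intro O S U hO hU hc hcut hcut'
  by_contra hlt
  push Not at hlt
  have hk0 : (0 : ℝ) < k := by exact_mod_cast (by omega : 0 < k)
  have s1 := FRA_.side2 i j hN hij hk hcl hout hin O S hO hlt hcut
  have s2 := FRA_.side2 (A := fun a b => A b a) i j hN hij hk (CUT_.nocl_flip hcl) hin hout U S hU hlt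
    (fun b hb a hab => hcut' b hb a hab)
  have hc' : (O.card : ℝ) + S.card + U.card = Fintype.card V := by exact_mod_cast hc
  obtain ⟨z, hz⟩ : ∃ z, z = 1 / (η * (1 - (1 - η / 2) / C)) := ⟨_, rfl⟩
  have hp : 0 < η * (1 - (1 - η / 2) / C) := mul_pos hN.hη hN.hq
  have hC := hN.hC
  have hz1 : 1 ≤ z := by
    rw [hz, le_div_iff₀ hp, one_mul]
    have h1 : 1 - (1 - η / 2) / C ≤ 1 := by
      have : 0 ≤ (1 - η / 2) / C := div_nonneg (by linarith [hN.hη1]) hC.le
      linarith
    calc η * (1 - (1 - η / 2) / C) ≤ η * 1 := mul_le_mul_of_nonneg_left h1 hN.hη.le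
      _ ≤ 1 := by linarith [hN.hη1]
  have e1 : (1 - η) / (η * (1 - (1 - η / 2) / C)) = (1 - η) * z := by
    rw [hz]
    ring
  have e2 : (S.card : ℝ) / (η * (1 - (1 - η / 2) / C)) = S.card * z := by
    rw [hz]
    ring
  rw [e1, e2] at s1 s2
  have h1 : (S.card : ℝ) * (2 * z - 1) ≤ (1 - η) * k * (2 * z - 1) :=
    mul_le_mul_of_nonneg_right (by linarith) (by linarith)
  have h2 : (2 * X + 1 - η) * k ≤ t * k := by nlinarith
  have h3 := le_of_mul_le_mul_right h2 hk0
  linarith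

/-- the bound for the sides of a cut -/
theorem frag {V : Type} [Fintype V] {A : V → V → Prop} {k m : ℕ} {C η X : ℝ} (i j : ℕ)
    (hN : NumF C η X i j) (hij : i + j + 2 ≤ m) (hk : 1 ≤ k) (hcl : NoCl A m)
    (hout : ∀ v, (Finset.univ.filter fun u => A v u).card = k)
    (hin : ∀ v, (Finset.univ.filter fun u => A u v).card = k) : FragB A k η X :=
  fun O S _ hO _ _ hcut _ hS => FRA_.side i j hN hij hk hcl hout hin O S hO hS hcut

end Pool.Agent.Lib.MP_83608f_co.CN
end
end

section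
/-! MP_83608f_co, part CN, module CHN (helper90): the growth of a chain of balls when large excesses only occur in the
middle.  `η 0 ≤ η 1 ≤ ... ≤ η r`; all cuts have excess at most `η r k`, a cut of excess more than `η p k` has at least
`X p k` vertices on both sides; `n ≤ t k`, `t - 2 X p < (N p + 1)(1 - η r)`.  Then at most `N p` of the layers of a chain
have excess more than `η p k`, so `|B_a(W)| ≥ |W| + a k - E a k` with
`E a = a η 0 + ∑_{p<r} (η (p+1) - η p) min a (N p)`. -/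
set_option autoImplicit false

open Classical

noncomputable section

namespace Pool.Agent.Lib.MP_83608f_co.CN

namespace CHN_

variable {V : Type} [Fintype V] {A : V → V → Prop} {k : ℕ}

/-- the excess bound of a chain -/
def Ech (η : ℕ → ℝ) (N : ℕ → ℕ) (r : ℕ) (a : ℕ) : ℝ :=
  a * η 0 + ∑ p ∈ Finset.range r, (η (p + 1) - η p) * (min a (N p) : ℕ)

/-- a telescoping bound of `x` by the steps `η` -/
lemma layer (η : ℕ → ℝ) (hη : Monotone η) (r : ℕ) (x : ℝ) (hx : x ≤ η r) :
    x ≤ η 0 + ∑ p ∈ Finset.range r, (η (p + 1) - η p) * (if η p < x then 1 else 0) := by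
  induction r with
  | zero => simpa using hx
  | succ r ih =>
    rw [Finset.sum_range_succ]
    by_cases h : η r < x
    · rw [if_pos h]
      have h1 : ∑ p ∈ Finset.range r, (η (p + 1) - η p) * (if η p < x then (1:ℝ) else 0) =
          ∑ p ∈ Finset.range r, (η (p + 1) - η p) := by
        refine Finset.sum_congr rfl fun p hp => ?_
        rw [Finset.mem_range] at hp
        have h2 : η p ≤ η r := hη hp.le
        rw [if_pos (by linarith), mul_one]
      rw [h1, Finset.sum_range_sub]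
      linarith
    · rw [if_neg h, mul_zero, add_zero]
      exact ih (by linarith)

/-- a set of natural numbers between two bounds -/
lemma card_le_of_gap (s : Finset ℕ) (N : ℕ) (h : ∀ a ∈ s, ∀ b ∈ s, a ≤ b → b - a + 1 ≤ N) :
    s.card ≤ N := by
  rcases s.eq_empty_or_nonempty with h0 | h0
  · rw [h0]; simp
  · have h1 := h _ (s.min'_mem h0) _ (s.max'_mem h0) (s.min'_le _ (s.max'_mem h0))
    have h2 : s ⊆ Finset.Icc (s.min' h0) (s.max' h0) := fun x hx =>
      Finset.mem_Icc.2 ⟨s.min'_le x hx, s.le_max' x hx⟩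
    have h3 := Finset.card_le_card h2
    rw [Nat.card_Icc] at h3
    have h4 := s.min'_le _ (s.max'_mem h0)
    omega

open THD_ in
/-- the data of one level of a chain -/
lemma level (W : Finset V) (hW : W.Nonempty) (v : V) (l : ℕ) (hv : v ∉ bs A W (l + 1)) :
    ∃ S U : Finset V, U.Nonempty ∧ S.card + (bs A W l).card = (bs A W (l + 1)).card ∧
      (bs A W l).card + S.card + U.card = Fintype.card V ∧ (bs A W l).Nonempty ∧
      (∀ a ∈ bs A W l, ∀ b, A a b → b ∈ bs A W l ∨ b ∈ S) ∧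
      (∀ b ∈ U, ∀ a, A a b → a ∈ U ∨ a ∈ S) := by
  classical
  have hsub := bs_sub (A := A) W l
  have hsd : (bs A W (l + 1) \ bs A W l).card + (bs A W l).card = (bs A W (l + 1)).card :=
    Finset.card_sdiff_add_card_eq_card hsub
  have hUc : (Finset.univ \ bs A W (l + 1)).card + (bs A W (l + 1)).card = Fintype.card V :=
    Finset.card_sdiff_add_card_eq_card (Finset.subset_univ _)
  have hWs : W ⊆ bs A W l := by
    intro x hx
    exact (mem_bs W l x).2 ⟨x, hx, LAY_.mem_cb_self x l⟩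
  have hout' : ∀ x ∈ bs A W l, ∀ b, A x b → b ∈ bs A W (l + 1) := fun x hx b hab =>
    FIN_.mem_outN.2 (Or.inr ⟨x, hx, hab⟩)
  refine ⟨bs A W (l + 1) \ bs A W l, Finset.univ \ bs A W (l + 1),
    ⟨v, Finset.mem_sdiff.2 ⟨Finset.mem_univ _, hv⟩⟩, hsd, by omega, hW.mono hWs, ?_, ?_⟩
  · intro x hx b hab
    rw [Finset.mem_sdiff]
    by_cases hb : b ∈ bs A W l
    · exact Or.inl hb
    · exact Or.inr ⟨hout' x hx b hab, hb⟩
  · intro b hb x hab
    rw [Finset.mem_sdiff] at hb
    rw [Finset.mem_sdiff, Finset.mem_sdiff]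
    by_cases hx : x ∈ bs A W (l + 1)
    · exact Or.inr ⟨hx, fun h => hb.2 (hout' x h b hab)⟩
    · exact Or.inl ⟨Finset.mem_univ _, hx⟩

end CHN_

open CHN_ THD_ in
/-- the growth of a chain -/
theorem chain {V : Type} [Fintype V] {A : V → V → Prop} {k : ℕ} (hk : 1 ≤ k) (r : ℕ) (η X : ℕ → ℝ)
    (N : ℕ → ℕ) (t : ℝ) (hη : Monotone η) (hη1 : η r < 1) (hcut : CutB A k (η r))
    (hfr : ∀ p < r, FragB A k (η p) (X p)) (hfr' : ∀ p < r, FragB (fun a b => A b a) k (η p) (X p))
    (hn : (Fintype.card V : ℝ) ≤ t * k) (hN : ∀ p < r, t - 2 * X p < (N p + 1) * (1 - η r))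
    (W : Finset V) (hW : W.Nonempty) (v : V) (a : ℕ) (hv : v ∉ bs A W a) :
    (W.card : ℝ) + a * k - Ech η N r a * k ≤ (bs A W a).card := by
  classical
  have hk0 : (0 : ℝ) < k := by exact_mod_cast (by omega : 0 < k)
  -- monotonicity of the balls
  have hmono : ∀ l l' : ℕ, l ≤ l' → bs A W l ⊆ bs A W l' := by
    intro l l' h
    induction l' with
    | zero =>
      have : l = 0 := by omega
      rw [this]
    | succ l' ih =>
      rcases Nat.lt_or_ge l (l' + 1) with h1 | h1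
      · exact (ih (by omega)).trans (bs_sub W l')
      · have : l = l' + 1 := by omega
        rw [this]
  have hvl : ∀ l, l ≤ a → v ∉ bs A W l := fun l hl h => hv (hmono l a hl h)
  -- the excess of the level `l`
  obtain ⟨x, hx⟩ : ∃ x : ℕ → ℝ, ∀ l, x l * k = k - (((bs A W (l + 1)).card : ℝ) - (bs A W l).card) :=
    ⟨fun l => (k - (((bs A W (l + 1)).card : ℝ) - (bs A W l).card)) / k, fun l => by
      field_simp⟩
  have hxr : ∀ l, l < a → x l ≤ η r := by
    intro l hl
    obtain ⟨S, U, hU, h1, h2, h3, h4, h5⟩ := level (A := A) W hW v l (hvl (l + 1) hl)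
    have h6 := hcut (bs A W l) S U h3 hU h2 h4 h5
    have h7 : (S.card : ℝ) + (bs A W l).card = (bs A W (l + 1)).card := by exact_mod_cast h1
    have h8 : x l * k ≤ η r * k := by rw [hx l]; linarith
    exact le_of_mul_le_mul_right h8 hk0
  -- the growth of the chain between two levels
  have hgrow : ∀ l d : ℕ, l + d ≤ a →
      ((bs A W l).card : ℝ) + d * ((1 - η r) * k) ≤ (bs A W (l + d)).card := by
    intro l d
    induction d with
    | zero => intro _; simp
    | succ d ih =>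
      intro h
      have h1 := ih (by omega)
      have h2 := mul_le_mul_of_nonneg_right (hxr (l + d) (by omega)) hk0.le
      rw [hx (l + d)] at h2
      rw [show l + (d + 1) = l + d + 1 from rfl]
      push_cast
      linarith
  -- the number of levels of excess more than `η p`
  have hcount : ∀ p < r, ((Finset.range a).filter fun l => η p < x l).card ≤ min a (N p) := by
    intro p hp
    refine le_min ((Finset.card_filter_le _ _).trans (by rw [Finset.card_range])) ?_
    apply card_le_of_gap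
    intro l1 h1 l2 h2 h12
    rw [Finset.mem_filter, Finset.mem_range] at h1 h2
    obtain ⟨S, U, hU, a1, a2, a3, a4, a5⟩ := level (A := A) W hW v l1 (hvl (l1 + 1) h1.1)
    obtain ⟨S', U', hU', b1, b2, b3, b4, b5⟩ := level (A := A) W hW v l2 (hvl (l2 + 1) h2.1)
    have a6 : (S.card : ℝ) + (bs A W l1).card = (bs A W (l1 + 1)).card := by exact_mod_cast a1
    have b6 : (S'.card : ℝ) + (bs A W l2).card = (bs A W (l2 + 1)).card := by exact_mod_cast b1
    have hp0 : η p * k < (k : ℝ) - S.card := by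
      have := mul_lt_mul_of_pos_right h1.2 hk0
      rw [hx l1] at this
      linarith
    have hp1 : η p * k < (k : ℝ) - S'.card := by
      have := mul_lt_mul_of_pos_right h2.2 hk0
      rw [hx l2] at this
      linarith
    have c1 : X p * k ≤ (bs A W l1).card := hfr p hp _ S U a3 hU a2 a4 a5 hp0
    have c2 : X p * k ≤ U'.card := hfr' p hp U' S' (bs A W l2) hU' b3 (by omega)
      (fun b hb y hy => b5 b hb y hy) (fun y hy b hb => b4 y hy b hb) hp1
    have c3 : ((bs A W l2).card : ℝ) + S'.card + U'.card = Fintype.card V := by exact_mod_cast b2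
    have c4 := hgrow l1 (l2 - l1) (by omega)
    rw [show l1 + (l2 - l1) = l2 by omega] at c4
    have c5 := mul_le_mul_of_nonneg_right (hxr l2 h2.1) hk0.le
    rw [hx l2] at c5
    have c6 : ((l2 - l1 : ℕ) : ℝ) * ((1 - η r) * k) + (1 - η r) * k ≤ (t - 2 * X p) * k := by linarith
    have c7 : (((l2 - l1 : ℕ) : ℝ) + 1) * (1 - η r) ≤ t - 2 * X p := by
      have c8 : ((((l2 - l1 : ℕ) : ℝ) + 1) * (1 - η r)) * k ≤ (t - 2 * X p) * k := by linarith
      exact le_of_mul_le_mul_right c8 hk0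
    have c9 : (((l2 - l1 : ℕ) : ℝ) + 1) * (1 - η r) < (N p + 1) * (1 - η r) := c7.trans_lt (hN p hp)
    have c10 : ((l2 - l1 : ℕ) : ℝ) + 1 < N p + 1 := lt_of_mul_lt_mul_right c9 (by linarith)
    have c11 : l2 - l1 + 1 < N p + 1 := by exact_mod_cast c10
    omega
  -- the sum of the excesses
  have hsum : ∑ l ∈ Finset.range a, x l ≤ Ech η N r a := by
    have h1 : ∑ l ∈ Finset.range a, x l ≤ ∑ l ∈ Finset.range a,
        (η 0 + ∑ p ∈ Finset.range r, (η (p + 1) - η p) * (if η p < x l then 1 else 0)) :=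
      Finset.sum_le_sum fun l hl => layer η hη r (x l) (hxr l (Finset.mem_range.1 hl))
    refine h1.trans ?_
    rw [Finset.sum_add_distrib, Finset.sum_const, Finset.card_range, nsmul_eq_mul, Finset.sum_comm]
    unfold Ech
    apply add_le_add le_rfl
    apply Finset.sum_le_sum
    intro p hp
    rw [← Finset.mul_sum]
    apply mul_le_mul_of_nonneg_left _ (by linarith [hη (Nat.le_succ p)])
    rw [Finset.sum_boole]
    exact_mod_cast hcount p (Finset.mem_range.1 hp)
  -- the telescoping sum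
  have htel : ∀ b : ℕ, (W.card : ℝ) + b * k - (∑ l ∈ Finset.range b, x l) * k = (bs A W b).card := by
    intro b
    induction b with
    | zero => simp [bs]
    | succ b ih =>
      rw [Finset.sum_range_succ, add_mul, hx b]
      push_cast
      linarith
  rw [← htel a]
  have h1 := mul_le_mul_of_nonneg_right hsum hk0.le
  linarith

end Pool.Agent.Lib.MP_83608f_co.CN
end
end

section
/-! MP_83608f_co, part CN, module CHB (statement helper91, Lean helper90): the growth of a chain of balls, sharp form.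
`S 0 = 0`, `S (N+1) = S N + φ (N+1)`.  If any two of `N` consecutive levels with excesses more than `φ N k` at both ends
are impossible, then `N` consecutive levels have total excess at most `S N k`. -/
set_option autoImplicit false

open Classical

noncomputable section

namespace Pool.Agent.Lib.MP_83608f_co.CN

open CHN_ THD_ in
/-- the growth of a chain, sharp form -/
theorem chainS {V : Type} [Fintype V] {A : V → V → Prop} {k : ℕ} (hk : 1 ≤ k) (M : ℕ)
    (φ S X : ℕ → ℝ) (t : ℝ) (hφ : ∀ N, 1 ≤ N → N ≤ M → 0 ≤ φ N) (hS0 : S 0 = 0)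
    (hS : ∀ N, N + 1 ≤ M → S (N + 1) = S N + φ (N + 1)) (hn : (Fintype.card V : ℝ) ≤ t * k)
    (hcut : CutB A k (φ 1))
    (hfr : ∀ N, 2 ≤ N → N ≤ M → FragB A k (φ N) (X N))
    (hfr' : ∀ N, 2 ≤ N → N ≤ M → FragB (fun a b => A b a) k (φ N) (X N))
    (hN : ∀ N, 1 ≤ N → N + 1 ≤ M → t - 1 + φ 1 - (N - S N) < 2 * X (N + 1))
    (W : Finset V) (hW : W.Nonempty) (v : V) (a : ℕ) (haM : a ≤ M) (hv : v ∉ bs A W a) :
    (W.card : ℝ) + a * k - S a * k ≤ (bs A W a).card := by
  classical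
  have hk0 : (0 : ℝ) < k := by exact_mod_cast (by omega : 0 < k)
  -- monotonicity of the balls
  have hmono : ∀ l l' : ℕ, l ≤ l' → bs A W l ⊆ bs A W l' := by
    intro l l' h
    induction l' with
    | zero =>
      have : l = 0 := by omega
      rw [this]
    | succ l' ih =>
      rcases Nat.lt_or_ge l (l' + 1) with h1 | h1
      · exact (ih (by omega)).trans (bs_sub W l')
      · have : l = l' + 1 := by omega
        rw [this]
  have hvl : ∀ l, l ≤ a → v ∉ bs A W l := fun l hl h => hv (hmono l a hl h)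
  -- sizes
  obtain ⟨b, hb⟩ : ∃ b : ℕ → ℝ, ∀ l, b l = (bs A W l).card := ⟨_, fun _ => rfl⟩
  -- the excess of one level
  have hone : ∀ l, l < a → k - (b (l + 1) - b l) ≤ φ 1 * k := by
    intro l hl
    obtain ⟨S', U, hU, h1, h2, h3, h4, h5⟩ := level (A := A) W hW v l (hvl (l + 1) hl)
    have h6 := hcut (bs A W l) S' U h3 hU h2 h4 h5
    have h7 : (S'.card : ℝ) + b l = b (l + 1) := by rw [hb, hb]; exact_mod_cast h1
    linarith
  -- `N` consecutive levels
  have hcons : ∀ N : ℕ, N ≤ M → ∀ l, l + N ≤ a → N * k - (b (l + N) - b l) ≤ S N * k := by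
    intro N
    induction N with
    | zero =>
      intro _ l _
      rw [hS0]
      simp
    | succ N ih =>
      intro hNM l hl
      rw [hS N (by omega), add_mul]
      have i1 := ih (by omega) l (by omega)
      have i2 := ih (by omega) (l + 1) (by omega)
      rw [show l + 1 + N = l + (N + 1) by omega] at i2
      rw [show l + (N + 1) = l + N + 1 by omega] at i2 ⊢
      push_cast
      -- enough: the first or the last excess is small
      by_cases hfirst : k - (b (l + 1) - b l) ≤ φ (N + 1) * k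
      · linarith
      by_cases hlast : k - (b (l + N + 1) - b (l + N)) ≤ φ (N + 1) * k
      · linarith
      exfalso
      push Not at hfirst hlast
      have hN0 : N ≠ 0 := by
        intro h0
        rw [h0] at hfirst
        have := hone l (by omega)
        rw [zero_add] at hfirst
        linarith
      obtain ⟨S1, U1, hU1, a1, a2, a3, a4, a5⟩ := level (A := A) W hW v l (hvl (l + 1) (by omega))
      obtain ⟨S2, U2, hU2, b1, b2, b3, b4, b5⟩ :=
        level (A := A) W hW v (l + N) (hvl (l + N + 1) (by omega))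
      have a6 : (S1.card : ℝ) + b l = b (l + 1) := by rw [hb, hb]; exact_mod_cast a1
      have b6 : (S2.card : ℝ) + b (l + N) = b (l + N + 1) := by rw [hb, hb]; exact_mod_cast b1
      have c1 : X (N + 1) * k ≤ (bs A W l).card :=
        hfr (N + 1) (by omega) hNM _ S1 U1 a3 hU1 a2 a4 a5 (by linarith)
      have c2 : X (N + 1) * k ≤ U2.card := hfr' (N + 1) (by omega) hNM U2 S2 (bs A W (l + N)) hU2 b3
        (by omega) (fun x hx y hy => b5 x hx y hy) (fun y hy x hx => b4 y hy x hx) (by linarith)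
      rw [← hb] at c1
      have c3 : b (l + N) + S2.card + U2.card = Fintype.card V := by
        rw [hb]; exact_mod_cast b2
      have c4 := hone (l + N) (by omega)
      have c5 := mul_lt_mul_of_pos_right (hN N (by omega) hNM) hk0
      linarith
  have h1 := hcons a haM 0 (by omega)
  rw [zero_add, hb a, hb 0] at h1
  have h2 : bs A W 0 = W := rfl
  rw [h2] at h1
  linarith

end Pool.Agent.Lib.MP_83608f_co.CN
end
end

section
/-! MP_83608f_co, part CN, module FRB (helper91, after FRA of helper58): the sides of a cut of excess more than `η k` in a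
`k`-diregular digraph; the version with `q^i + q^j ≤ 1`. -/
set_option autoImplicit false

open Classical

noncomputable section

namespace Pool.Agent.Lib.MP_83608f_co.CN

/-- the numerical conditions for a fragment bound, `q^i + q^j ≤ 1` -/
structure NumL (C η X : ℝ) (i j : ℕ) : Prop where
  hC3 : 3 ≤ C
  hη : 0 < η
  hη1 : η ≤ 1
  hq : 0 < 1 - (1 - η / 2) / C
  g1 : (1 - (1 - η / 2) / C) ^ i + (1 - (1 - η / 2) / C) ^ j ≤ 1
  c1 : (1 - η) / (η * (1 - (1 - η / 2) / C)) < C
  c2 : (X + (1 - η) / (η * (1 - (1 - η / 2) / C))) ^ 2 -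
      C * (X + (1 - η) / (η * (1 - (1 - η / 2) / C))) - X ≤ 0

namespace FRB_

variable {V : Type} [Fintype V] {A : V → V → Prop} {k m : ℕ}

/-- the weight of one side of a cut -/
lemma side2 {C η X : ℝ} (i j : ℕ) (hN : NumL C η X i j) (hij : i + j + 2 ≤ m) (hk : 2 ≤ k)
    (hcl : NoCl A m)
    (hout : ∀ v, (Finset.univ.filter fun u => A v u).card = k)
    (hin : ∀ v, (Finset.univ.filter fun u => A u v).card = k)
    (O S : Finset V) (hO : O.Nonempty) (hS : η * k < (k : ℝ) - S.card)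
    (hcut : ∀ a ∈ O, ∀ b, A a b → b ∈ O ∨ b ∈ S) :
    (X + (1 - η) / (η * (1 - (1 - η / 2) / C))) * k ≤
      O.card + S.card / (η * (1 - (1 - η / 2) / C)) := by
  classical
  have hk0 : (0 : ℝ) < k := by exact_mod_cast (by omega : 0 < k)
  have hC3 := hN.hC3
  have hC : 0 < C := by linarith
  have hη := hN.hη
  obtain ⟨q, hq⟩ : ∃ q, q = 1 - (1 - η / 2) / C := ⟨_, rfl⟩
  have hq0 : 0 < q := by
    rw [hq]
    exact hN.hq
  have hq1 : q ≤ 1 := by
    rw [hq]
    have : 0 ≤ (1 - η / 2) / C := div_nonneg (by linarith [hN.hη1]) hC.le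
    linarith
  obtain ⟨y, hy⟩ : ∃ y, y = (1 - η) / (η * q) := ⟨_, rfl⟩
  obtain ⟨G, hG⟩ : ∃ G, G = q ^ i + q ^ j := ⟨_, rfl⟩
  have g1 := hN.g1
  have c1 := hN.c1
  have c2 := hN.c2
  rw [← hq] at g1 c1 c2
  rw [← hG] at g1
  rw [← hy] at c1 c2
  rw [← hq, ← hy]
  -- out-degrees inside `O`
  obtain ⟨dO, hdO⟩ : ∃ dO : V → ℝ, dO = fun u => ((O.filter fun v => A u v).card : ℝ) := ⟨_, rfl⟩
  have hdOv : ∀ a, dO a = ((O.filter fun v => A a v).card : ℝ) := fun a => by rw [hdO]
  have hsplit : ∀ a ∈ O, (k : ℝ) ≤ dO a + (S.filter fun v => A a v).card := by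
    intro a ha
    have h1 : (Finset.univ.filter fun v => A a v) ⊆
        (O.filter fun v => A a v) ∪ (S.filter fun v => A a v) := by
      intro v hv
      rw [Finset.mem_filter] at hv
      rw [Finset.mem_union, Finset.mem_filter, Finset.mem_filter]
      rcases hcut a ha v hv.2 with h | h
      · exact Or.inl ⟨h, hv.2⟩
      · exact Or.inr ⟨h, hv.2⟩
    have h2 := (Finset.card_le_card h1).trans (Finset.card_union_le _ _)
    rw [hout a] at h2
    rw [hdOv a]
    exact_mod_cast h2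
  have hdeg : ∀ a ∈ O, η * k ≤ dO a := by
    intro a ha
    have h1 := hsplit a ha
    have h2 : ((S.filter fun v => A a v).card : ℝ) ≤ S.card := by
      exact_mod_cast Finset.card_le_card (Finset.filter_subset (fun v => A a v) S)
    linarith
  have hdegk : ∀ a, dO a ≤ k := by
    intro a
    have h1 : (O.filter fun v => A a v) ⊆ (Finset.univ.filter fun v => A a v) := by
      intro v hv
      rw [Finset.mem_filter] at hv ⊢
      exact ⟨Finset.mem_univ _, hv.2⟩
    have h2 := Finset.card_le_card h1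
    rw [hout a] at h2
    rw [hdOv a]
    exact_mod_cast h2
  -- arcs from `O` to `S`
  have hdefS : ∑ a ∈ O, ((k : ℝ) - dO a) ≤ k * S.card := by
    have h0 : ∑ a ∈ O, ((k : ℝ) - dO a) ≤ ∑ a ∈ O, ((S.filter fun v => A a v).card : ℝ) :=
      Finset.sum_le_sum fun a ha => by linarith [hsplit a ha]
    have h1 : ∑ a ∈ O, (S.filter fun v => A a v).card = ∑ v ∈ S, (O.filter fun a => A a v).card := by
      simp only [Finset.card_filter]
      exact Finset.sum_comm
    have h2 : ∑ v ∈ S, (O.filter fun a => A a v).card ≤ S.card * k := by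
      rw [← smul_eq_mul, ← Finset.sum_const]
      apply Finset.sum_le_sum
      intro v _
      rw [← hin v]
      apply Finset.card_le_card
      intro a ha
      rw [Finset.mem_filter] at ha ⊢
      exact ⟨Finset.mem_univ _, ha.2⟩
    have h3 : (∑ a ∈ O, ((S.filter fun v => A a v).card : ℝ)) ≤ (S.card : ℝ) * k := by
      rw [← h1] at h2
      exact_mod_cast h2
    linarith
  -- the function `d`
  obtain ⟨d, hd⟩ : ∃ d : V → ℝ, d = fun u => if u ∈ O then dO u else (k : ℝ) := ⟨_, rfl⟩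
  have hdO' : ∀ u ∈ O, d u = dO u := fun u hu => by
    rw [hd]
    simp only [if_pos hu]
  have hd1 : ∀ u, η * k ≤ d u := by
    intro u
    by_cases hu : u ∈ O
    · rw [hdO' u hu]
      exact hdeg u hu
    · rw [hd]
      simp only [if_neg hu]
      nlinarith [hN.hη1]
  have hd2 : ∀ u, d u ≤ k := by
    intro u
    by_cases hu : u ∈ O
    · rw [hdO' u hu]
      exact hdegk u
    · rw [hd]
      simp only [if_neg hu]
      exact le_refl _
  obtain ⟨lam, hlam⟩ : ∃ lam, lam = 1 / (η * k * q) := ⟨_, rfl⟩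
  have hε0 : 0 < η * k := mul_pos hη hk0
  have hlam0 : 0 < lam := by
    rw [hlam]
    exact div_pos one_pos (mul_pos hε0 hq0)
  have hlq : lam * (η * k * q) = 1 := by
    rw [hlam]
    exact div_mul_cancel₀ _ (mul_pos hε0 hq0).ne'
  have hγ0 : 0 < 1 / C := div_pos one_pos hC
  have hqe : q = 1 - 1 / C * (1 - η * k / (2 * k)) := by
    rw [hq]
    field_simp
  have hek : η * k ≤ k := by nlinarith [hN.hη1]
  have hgk : (q ^ i + q ^ j) * (1 - 1 / C * (η * k / k)) ≤ 1 := by
    rw [← hG]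
    have : 1 - 1 / C * (η * k / k) = 1 - η / C := by field_simp
    rw [this]
    have h1 : 0 ≤ η / C := div_nonneg hη.le hC.le
    have h2 : 0 ≤ G := by
      rw [hG]
      exact (add_pos (pow_pos hq0 _) (pow_pos hq0 _)).le
    nlinarith
  have hdch := dch (A := A) (m := m) (d := d) (K := (k : ℝ)) (e := η * k) (ε := η * k) (γ := 1 / C)
    (q := q) (lam := lam) hε0 (le_refl _) hek hd1 hlam0.le hd2 hγ0 hqe hq0 hlq hcl i j hij hgk
  obtain ⟨μ, hμ⟩ : ∃ μ, μ = mu lam (k : ℝ) d O := ⟨_, rfl⟩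
  have hμ1 : C * k ≤ μ := by
    obtain ⟨u, hu, h1⟩ := hdch O hO
    rw [← hμ, hdO' u hu] at h1
    have h2 : 0 < dO u := by linarith [hdeg u hu]
    have h3 : ((O.filter fun v => A u v).card : ℝ) = dO u := (hdOv u).symm
    rw [h3] at h1
    have h4 := le_of_mul_le_mul_right h1 h2
    rw [one_div, inv_mul_eq_div, le_div_iff₀ hC] at h4
    linarith
  have hclo := DCH_.closing (A := A) (m := m) (d := d) (K := (k : ℝ)) (e := η * k) (ε := η * k)
    (γ := 1 / C) (q := q) (lam := lam) (H := (k : ℝ)) (M := C * k) hk0 hε0 hek (le_refl _) hd1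
    hlam0.le hd2 hγ0 hk0.le (by field_simp) hqe hq0 hlq hcl i j hij O
    (fun Q _ _ S' _ hS' => hdch S' hS') (fun u hu => by
      rw [hdO' u hu, hdOv u])
  rw [← hμ, ← hG] at hclo
  -- weights
  have hμe : μ = O.card + lam * ∑ a ∈ O, ((k : ℝ) - dO a) := by
    rw [hμ, DCH_.mu_eq]
    unfold DCH_.df
    rw [Finset.sum_congr rfl fun u hu => by rw [hdO' u hu]]
  have hwsum : ∑ v ∈ O, (1 + lam * ((k : ℝ) - d v)) = μ := by
    rw [hμ]
    rfl
  have hwd : (k : ℝ) * O.card ≤ ∑ v ∈ O, (1 + lam * ((k : ℝ) - d v)) *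
      ((O.filter fun u => A v u).card : ℝ) := by
    rw [mul_comm, ← nsmul_eq_mul, ← Finset.sum_const]
    apply Finset.sum_le_sum
    intro v hv
    have h1 : ((O.filter fun u => A v u).card : ℝ) = dO v := (hdOv v).symm
    rw [h1, hdO' v hv]
    have h2 := hdeg v hv
    have h3 := hdegk v
    have h4 : 1 ≤ lam * dO v := by
      have h5 : lam * (η * k * q) ≤ lam * dO v := by
        apply mul_le_mul_of_nonneg_left _ hlam0.le
        have : η * k * q ≤ η * k * 1 := mul_le_mul_of_nonneg_left hq1 hε0.le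
        linarith
      linarith
    nlinarith
  have hwM : ∀ v ∈ O, (1 + lam * ((k : ℝ) - d v)) + ((O.filter fun u => A v u).card : ℝ) ≤ C * k := by
    intro v hv
    have h1 : ((O.filter fun u => A v u).card : ℝ) = dO v := (hdOv v).symm
    rw [h1, hdO' v hv]
    have h2 := hdeg v hv
    have h3 := hdegk v
    have h4 : lam * ((k : ℝ) - dO v) ≤ lam * (k - η * k) :=
      mul_le_mul_of_nonneg_left (by linarith) hlam0.le
    have h5 : lam * (k - η * k) = y := by
      rw [hy, hlam]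
      field_simp
    have h6 : (2 : ℝ) ≤ k := by exact_mod_cast hk
    nlinarith
  have hbig : C * k * μ + k * O.card ≤ μ * μ := by
    have h1 : ∑ v ∈ O, (1 + lam * ((k : ℝ) - d v)) * (2 * (C * k) - G *
        (C * k - (1 + lam * ((k : ℝ) - d v)) - ((O.filter fun u => A v u).card : ℝ))) =
        ∑ v ∈ O, (1 + lam * ((k : ℝ) - d v)) * (C * k + (1 + lam * ((k : ℝ) - d v)) +
          ((O.filter fun u => A v u).card : ℝ)) + (1 - G) * ∑ v ∈ O, (1 + lam * ((k : ℝ) - d v)) *
          (C * k - (1 + lam * ((k : ℝ) - d v)) - ((O.filter fun u => A v u).card : ℝ)) := by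
      rw [Finset.mul_sum, ← Finset.sum_add_distrib]
      apply Finset.sum_congr rfl
      intro v _
      ring
    have h1' : ∑ v ∈ O, (1 + lam * ((k : ℝ) - d v)) * (C * k + (1 + lam * ((k : ℝ) - d v)) +
          ((O.filter fun u => A v u).card : ℝ)) =
        C * k * (∑ v ∈ O, (1 + lam * ((k : ℝ) - d v))) +
        (∑ v ∈ O, (1 + lam * ((k : ℝ) - d v)) * (1 + lam * ((k : ℝ) - d v))) +
        (∑ v ∈ O, (1 + lam * ((k : ℝ) - d v)) * ((O.filter fun u => A v u).card : ℝ)) := by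
      rw [Finset.mul_sum, ← Finset.sum_add_distrib, ← Finset.sum_add_distrib]
      apply Finset.sum_congr rfl
      intro v _
      ring
    have h2 : ∑ v ∈ O, (1 + lam * ((k : ℝ) - d v)) * (μ + (1 + lam * ((k : ℝ) - d v))) =
        μ * (∑ v ∈ O, (1 + lam * ((k : ℝ) - d v))) +
        ∑ v ∈ O, (1 + lam * ((k : ℝ) - d v)) * (1 + lam * ((k : ℝ) - d v)) := by
      rw [Finset.mul_sum, ← Finset.sum_add_distrib]
      apply Finset.sum_congr rfl
      intro v _
      ring
    have h3 : 0 ≤ ∑ v ∈ O, (1 + lam * ((k : ℝ) - d v)) *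
          (C * k - (1 + lam * ((k : ℝ) - d v)) - ((O.filter fun u => A v u).card : ℝ)) := by
      apply Finset.sum_nonneg
      intro v hv
      apply mul_nonneg (by linarith [DCH_.w_pos hlam0.le hd2 v])
      linarith [hwM v hv]
    rw [h1, h1', h2, hwsum] at hclo
    have h4 := mul_nonneg (by linarith : (0 : ℝ) ≤ 1 - G) h3
    linarith
  -- normalise
  obtain ⟨s, hs⟩ : ∃ s, s = μ / k := ⟨_, rfl⟩
  have hsk : s * k = μ := by
    rw [hs]
    exact div_mul_cancel₀ _ hk0.ne'
  have hy0 : 0 ≤ y := by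
    rw [hy]
    exact div_nonneg (by linarith [hN.hη1]) (mul_pos hη hq0).le
  -- `μ ≤ |O| + y k`
  have hμy : μ ≤ O.card + y * k := by
    rw [hμe]
    have h1 : lam * ∑ a ∈ O, ((k : ℝ) - dO a) ≤ lam * (k * (k - η * k)) := by
      apply mul_le_mul_of_nonneg_left _ hlam0.le
      refine hdefS.trans ?_
      exact mul_le_mul_of_nonneg_left (by linarith) hk0.le
    have h2 : lam * (k * (k - η * k)) = y * k := by
      rw [hy, hlam]
      field_simp
    linarith
  have hs1 : C ≤ s := by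
    have : C * k ≤ s * k := by rw [hsk]; exact hμ1
    exact le_of_mul_le_mul_right this hk0
  have h3 : 0 ≤ s ^ 2 - (C + 1) * s + 1 * y := by
    have h4 : C * k * μ + k * (μ - y * k) ≤ μ * μ := by
      have h5 : k * (μ - y * k) ≤ k * (O.card : ℝ) := mul_le_mul_of_nonneg_left (by linarith) hk0.le
      linarith
    rw [← hsk] at h4
    have h5 : 0 ≤ (s ^ 2 - (C + 1) * s + 1 * y) * (k * k) := by
      have : (s ^ 2 - (C + 1) * s + 1 * y) * (k * k) =
          s * k * (s * k) - (C * k * (s * k) + k * (s * k - y * k)) := by ring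
      rw [this]
      linarith
    exact nonneg_of_mul_nonneg_left h5 (mul_pos hk0 hk0)
  have h4 := FRA_.quad hs1 (by nlinarith) (by nlinarith) h3
  have h5 : (X + y) * k ≤ s * k := mul_le_mul_of_nonneg_right h4 hk0.le
  rw [hsk] at h5
  have h6 : μ ≤ O.card + S.card / (η * q) := by
    rw [hμe]
    have h1 : lam * ∑ a ∈ O, ((k : ℝ) - dO a) ≤ lam * (k * S.card) :=
      mul_le_mul_of_nonneg_left hdefS hlam0.le
    have h2 : lam * (k * S.card) = S.card / (η * q) := by
      rw [hlam]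
      field_simp
    linarith
  linarith

/-- the size of one side of a cut -/
lemma side {C η X : ℝ} (i j : ℕ) (hN : NumL C η X i j) (hij : i + j + 2 ≤ m) (hk : 2 ≤ k)
    (hcl : NoCl A m)
    (hout : ∀ v, (Finset.univ.filter fun u => A v u).card = k)
    (hin : ∀ v, (Finset.univ.filter fun u => A u v).card = k)
    (O S : Finset V) (hO : O.Nonempty) (hS : η * k < (k : ℝ) - S.card)
    (hcut : ∀ a ∈ O, ∀ b, A a b → b ∈ O ∨ b ∈ S) : X * k ≤ O.card := by
  have h1 := side2 i j hN hij hk hcl hout hin O S hO hS hcut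
  have hp : 0 < η * (1 - (1 - η / 2) / C) := mul_pos hN.hη hN.hq
  have h2 : (S.card : ℝ) / (η * (1 - (1 - η / 2) / C)) ≤
      (1 - η) / (η * (1 - (1 - η / 2) / C)) * k := by
    rw [div_mul_eq_mul_div]
    apply div_le_div_of_nonneg_right _ hp.le
    linarith
  linarith

end FRB_

/-- no cut has excess more than `η k` if `n ≤ t k`, `t < 2X + 1 - η` -/
theorem cutL {V : Type} [Fintype V] {A : V → V → Prop} {k m : ℕ} {C η X t : ℝ} (i j : ℕ)
    (hN : NumL C η X i j) (hij : i + j + 2 ≤ m) (hk : 2 ≤ k) (hcl : NoCl A m)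
    (hout : ∀ v, (Finset.univ.filter fun u => A v u).card = k)
    (hin : ∀ v, (Finset.univ.filter fun u => A u v).card = k)
    (hn : (Fintype.card V : ℝ) ≤ t * k) (ht : t < 2 * X + 1 - η) : CutB A k η := by
  intro O S U hO hU hc hcut hcut'
  by_contra hlt
  push Not at hlt
  have hk0 : (0 : ℝ) < k := by exact_mod_cast (by omega : 0 < k)
  have s1 := FRB_.side2 i j hN hij hk hcl hout hin O S hO hlt hcut
  have s2 := FRB_.side2 (A := fun a b => A b a) i j hN hij hk (CUT_.nocl_flip hcl) hin hout U S hU hlt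
    (fun b hb a hab => hcut' b hb a hab)
  have hc' : (O.card : ℝ) + S.card + U.card = Fintype.card V := by exact_mod_cast hc
  obtain ⟨z, hz⟩ : ∃ z, z = 1 / (η * (1 - (1 - η / 2) / C)) := ⟨_, rfl⟩
  have hp : 0 < η * (1 - (1 - η / 2) / C) := mul_pos hN.hη hN.hq
  have hC : 0 < C := by linarith [hN.hC3]
  have hz1 : 1 ≤ z := by
    rw [hz, le_div_iff₀ hp, one_mul]
    have h1 : 1 - (1 - η / 2) / C ≤ 1 := by
      have : 0 ≤ (1 - η / 2) / C := div_nonneg (by linarith [hN.hη1]) hC.le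
      linarith
    calc η * (1 - (1 - η / 2) / C) ≤ η * 1 := mul_le_mul_of_nonneg_left h1 hN.hη.le
      _ ≤ 1 := by linarith [hN.hη1]
  have e1 : (1 - η) / (η * (1 - (1 - η / 2) / C)) = (1 - η) * z := by
    rw [hz]
    ring
  have e2 : (S.card : ℝ) / (η * (1 - (1 - η / 2) / C)) = S.card * z := by
    rw [hz]
    ring
  rw [e1, e2] at s1 s2
  have h1 : (S.card : ℝ) * (2 * z - 1) ≤ (1 - η) * k * (2 * z - 1) :=
    mul_le_mul_of_nonneg_right (by linarith) (by linarith)
  have h2 : (2 * X + 1 - η) * k ≤ t * k := by nlinarith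
  have h3 := le_of_mul_le_mul_right h2 hk0
  linarith

/-- the bound for the sides of a cut -/
theorem fragL {V : Type} [Fintype V] {A : V → V → Prop} {k m : ℕ} {C η X : ℝ} (i j : ℕ)
    (hN : NumL C η X i j) (hij : i + j + 2 ≤ m) (hk : 2 ≤ k) (hcl : NoCl A m)
    (hout : ∀ v, (Finset.univ.filter fun u => A v u).card = k)
    (hin : ∀ v, (Finset.univ.filter fun u => A u v).card = k) : FragB A k η X :=
  fun O S _ hO _ _ hcut _ hS => FRB_.side i j hN hij hk hcl hout hin O S hO hS hcut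

end Pool.Agent.Lib.MP_83608f_co.CN
end
end

section
/-! MP_83608f_co, part CN, module CertG (helper58): the numerical certificate for the bound `n ≥ (m-1) k + 1`.

`γ` is a Caccetta-Häggkvist constant for `m`; `φ 1 ≥ φ 2 ≥ ...` are bounds for the excesses, `S N = φ 1 + ... + φ N`, a side
of a cut with excess more than `φ N k` has at least `X N k` vertices. -/
set_option autoImplicit false

open Classical

noncomputable section

namespace Pool.Agent.Lib.MP_83608f_co.CN

/-- the coefficients of the pair estimate with losses `E` -/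
def pE (γ : ℝ) (E : ℕ → ℝ) : ℕ → ℝ
  | 0 => 0
  | a + 1 => (1 - γ) * pE γ E a + 1 + γ * (a - E a)

/-- the numerical certificate for `m` -/
structure CertG (m : ℕ) (γ : ℝ) (M c i j J a b : ℕ) (C φ X S : ℕ → ℝ) : Prop where
  hM : 1 ≤ M
  hcM : c ≤ M
  hγM : γ * M = c
  hγ : 0 < γ
  hγ1 : γ ≤ 1
  hB : ∀ n, BdAll m γ n
  hij : i + j + 2 ≤ m
  hJ : 1 ≤ J
  hnum : ∀ N, 1 ≤ N → N ≤ J → NumL (C N) (φ N) (X N) i j
  htop : (m : ℝ) - 1 < 2 * X 1 + 1 - φ 1
  hS0 : S 0 = 0
  hS : ∀ N, N + 1 ≤ J → S (N + 1) = S N + φ (N + 1)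
  hch : ∀ N, 1 ≤ N → N + 1 ≤ J → (m : ℝ) - 1 - 1 + φ 1 - (N - S N) < 2 * X (N + 1)
  hab : a + b = m
  ha : a ≤ J + 1
  hb : b ≤ J + 1
  hp : (m : ℝ) - 1 ≤ pE γ S a + pE γ S b

/-- there is a numerical certificate for `m` -/
def HasCert (m : ℕ) : Prop :=
  ∃ (γ : ℝ) (M c i j J a b : ℕ) (C φ X S : ℕ → ℝ), CertG m γ M c i j J a b C φ X S

end Pool.Agent.Lib.MP_83608f_co.CN
end
end

section
/-! MP_83608f_co, part CN, module PWR (helper85): the power trick for the out-degree theorem.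

Apply a bound `e ≤ γ' n` for digraphs without closed walks of length `1, ..., m'` to the relation
of being reachable by a walk of length `1, ..., p`: if `γ' ≤ 1 - (1-γ)^p` then `e ≤ γ n` for digraphs without closed walks of
length `1, ..., p m'`. -/
set_option autoImplicit false

open Classical

noncomputable section

namespace Pool.Agent.Lib.MP_83608f_co.CN

open Pool.Agent.Lib.MP_83608f_co.EM (Wk)

namespace PWR_

variable {V : Type} [Fintype V] {A : V → V → Prop} {m m' p : ℕ} {γ : ℝ}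

/-- the power relation: reachable by a walk of length `1, ..., p` -/
def pw (A : V → V → Prop) (p : ℕ) (u v : V) : Prop := v ∈ GM_.ball A Finset.univ u p

lemma wk_pw (j : ℕ) (x y : V) (h : Wk (⟨pw A p⟩ : Digraph V) j x y) :
    ∃ i, j ≤ i ∧ i ≤ p * j ∧ Wk (⟨A⟩ : Digraph V) i x y := by
  induction j generalizing x with
  | zero =>
    have h0 : x = y := h
    exact ⟨0, le_refl _, by omega, h0⟩
  | succ j ih =>
    obtain ⟨z, h1, h2⟩ := h
    obtain ⟨i, f1, f2, f3⟩ := ih z h2
    obtain ⟨i', g1, g2, g3⟩ := GM_.ball_walk Finset.univ x p z h1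
    exact ⟨i' + i, by omega, by rw [Nat.mul_succ]; omega, g3.trans f3⟩

lemma nocl_pw (hcl : NoCl A m) (hp : p * m' ≤ m) : NoCl (pw A p) m' := by
  intro j h1 h2 x h3
  obtain ⟨i, f1, f2, f3⟩ := wk_pw j x x h3
  have h4 := Nat.mul_le_mul_left p h2
  exact hcl i (by omega) (by omega) x f3

end PWR_

open PWR_

/-- the power trick -/
theorem pwr {m m' p : ℕ} {γ γ' : ℝ} (hγ : 0 < γ) (hγ1 : γ ≤ 1) (hγ' : 0 < γ') (hp : p * m' ≤ m)
    (hpm : p ≤ m) (h : γ' ≤ 1 - (1 - γ) ^ p) (hB : ∀ n, BdAll m' γ' n) (n : ℕ) : BdAll m γ n := by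
  induction n using Nat.strong_induction_on with
  | _ n ih =>
    intro V _ A hcl hV hne e hdeg
    have hbd : ∀ T : Finset V, T.card < n → Bd A γ T := fun T hT => THA_.bd_of ih hcl T hT
    have hball : ∀ u, (e : ℝ) * γ' / γ ≤ (GM_.ball A Finset.univ u p).card := by
      intro u
      have h1 := GM_.ball_card hγ hγ1 hcl Finset.univ e (fun u _ => hdeg u)
        (fun T _ hT => hbd T (by rwa [Finset.card_univ, hV] at hT)) u (Finset.mem_univ _) p hpm
      have h2 : (e : ℝ) * γ' ≤ e * (1 - (1 - γ) ^ p) := mul_le_mul_of_nonneg_left h (Nat.cast_nonneg _)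
      rw [div_le_iff₀ hγ]
      linarith
    have h3 := hB n V (pw A p) (nocl_pw hcl hp) hV hne ⌈(e : ℝ) * γ' / γ⌉₊ (by
      intro u
      have h4 : (Finset.univ.filter fun v => pw A p u v) = GM_.ball A Finset.univ u p := by
        ext v
        simp [pw]
      rw [h4]
      exact Nat.ceil_le.2 (hball u))
    have h5 : (e : ℝ) * γ' / γ ≤ γ' * n := (Nat.le_ceil _).trans h3
    rw [div_le_iff₀ hγ] at h5
    have h6 : γ' * (e : ℝ) ≤ γ' * (γ * n) := by linarith
    exact le_of_mul_le_mul_left h6 hγ'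

/-- the base `m' = 4` of the power trick: `γ' = 0.27794` -/
theorem bdAll4 (n : ℕ) : BdAll 4 0.27794 n :=
  bdAll2 (by norm_num) (by norm_num) 0 0 (by norm_num) (by norm_num) n

/-- `1 - γ ≤ exp(-0.3255/p)` suffices for `m = 4p` (`-log(1 - 0.27794) = 0.32564...`) -/
theorem pwr4 {m p : ℕ} {γ : ℝ} (hγ : 0 < γ) (hγ1 : γ ≤ 1) (hp : p * 4 ≤ m)
    (h : 0.27794 ≤ 1 - (1 - γ) ^ p) (n : ℕ) : BdAll m γ n :=
  pwr hγ hγ1 (by norm_num) hp (by omega) h bdAll4 n

/-- closed form: `e ≤ (0.3257/p) n` without closed walks of length `1, ..., 4p` (that is `C ≥ 0.7675 m`) -/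
theorem pwr4_exp {m p : ℕ} (hp1 : 1 ≤ p) (hp : p * 4 ≤ m) (n : ℕ) : BdAll m (0.3257 / p) n := by
  have hp0 : (0 : ℝ) < p := by exact_mod_cast hp1
  have hp1' : (1 : ℝ) ≤ p := by exact_mod_cast hp1
  have h1 : (0.3257 : ℝ) / p ≤ 1 := by
    rw [div_le_one hp0]
    linarith
  refine pwr4 (by positivity) h1 hp ?_ n
  have h2 : (1 - 0.3257 / (p : ℝ)) ^ p ≤ Real.exp (-0.3257) := by
    have h3 : 1 - 0.3257 / (p : ℝ) ≤ Real.exp (-(0.3257 / p)) := by
      have := Real.add_one_le_exp (-(0.3257 / (p : ℝ)))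
      linarith
    have h4 : (1 - 0.3257 / (p : ℝ)) ^ p ≤ Real.exp (-(0.3257 / p)) ^ p :=
      pow_le_pow_left₀ (by linarith) h3 p
    rw [← Real.exp_nat_mul] at h4
    have h5 : (p : ℝ) * -(0.3257 / p) = -0.3257 := by
      field_simp
    rwa [h5] at h4
  have h6 : Real.exp (-0.3257) ≤ 0.72206 := by
    rw [Real.exp_neg, inv_le_comm₀ (Real.exp_pos _) (by norm_num)]
    have h8 : (1.38495 : ℝ) ≤ Real.exp 0.3257 := by
      have h9 := Real.sum_le_exp_of_nonneg (x := 0.3257) (by norm_num) 6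
      refine le_trans ?_ h9
      simp only [Finset.sum_range_succ, Finset.sum_range_zero, Nat.factorial]
      norm_num
    refine le_trans ?_ h8
    norm_num
  linarith

end Pool.Agent.Lib.MP_83608f_co.CN
end
end

section
/-! MP_83608f_co, part CN, module NBL (helper94): the numerical conditions of `n ≥ (g-2) k` for all `m ≥ 300`.

`B = 0.42 m`, `φ N = 2 / (B + N)`, `S N = φ 1 + ... + φ N ≤ 0.1902 + (1.25 / B) N`, `h = (m-2)/2`, `R = 1.4426 h`,
`C N = (1 - φ N / 2) R`, `γ = 0.3257 / p` with `p = m/4`. -/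
set_option autoImplicit false

open Classical

noncomputable section

namespace Pool.Agent.Lib.MP_83608f_co.CN

namespace NBL_

/-- the solution of the recursion of the pair estimate if `S` is below a line -/
lemma rec_lower {γ α β : ℝ} (hγ : 0 < γ) (hγ1 : γ ≤ 1) (S P : ℕ → ℝ) (hP0 : P 0 = 0)
    (hP : ∀ a : ℕ, P (a + 1) = (1 - γ) * P a + 1 + γ * (a - S a))
    (hS : ∀ a : ℕ, S a ≤ α + β * a) (a : ℕ) :
    (a : ℝ) - α * (1 - (1 - γ) ^ a) - β * (a - (1 - (1 - γ) ^ a) / γ) ≤ P a := by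
  induction a with
  | zero =>
    rw [hP0]
    simp
  | succ a ih =>
    rw [hP a]
    have h1 := mul_le_mul_of_nonneg_left ih (by linarith : (0 : ℝ) ≤ 1 - γ)
    have h3 : ((a + 1 : ℕ) : ℝ) - α * (1 - (1 - γ) ^ (a + 1)) -
        β * (((a + 1 : ℕ) : ℝ) - (1 - (1 - γ) ^ (a + 1)) / γ) =
        (1 - γ) * ((a : ℝ) - α * (1 - (1 - γ) ^ a) - β * (a - (1 - (1 - γ) ^ a) / γ)) + 1 +
          γ * (a - (α + β * a)) := by
      push_cast
      rw [pow_succ]
      field_simp
      ring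
    rw [h3]
    have h4 : γ * (a - (α + β * a)) ≤ γ * (a - S a) :=
      mul_le_mul_of_nonneg_left (by linarith [hS a]) hγ.le
    linarith

/-- `S N = ∑_(l ≤ N) 2 / (B + l)` -/
def Sf (B : ℝ) (N : ℕ) : ℝ := ∑ l ∈ Finset.range N, 2 / (B + ((l : ℝ) + 1))

lemma Sf_zero (B : ℝ) : Sf B 0 = 0 := by
  unfold Sf
  exact Finset.sum_range_zero _

lemma Sf_succ (B : ℝ) (N : ℕ) : Sf B (N + 1) = Sf B N + 2 / (B + ((N + 1 : ℕ) : ℝ)) := by
  unfold Sf
  rw [Finset.sum_range_succ]
  push_cast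
  rfl

lemma Sf_log {B : ℝ} (hB : 0 < B) (N : ℕ) : Sf B N ≤ 2 * Real.log ((B + N) / B) := by
  induction N with
  | zero =>
    rw [Sf_zero]
    simp [div_self hB.ne']
  | succ N ih =>
    rw [Sf_succ]
    have hN : (0 : ℝ) ≤ N := Nat.cast_nonneg _
    have h1 : 0 < B + N := by linarith
    have h2 : 0 < B + ((N + 1 : ℕ) : ℝ) := by
      push_cast
      linarith
    have h3 := Real.one_sub_inv_le_log_of_pos (div_pos h2 h1)
    have h4 : (B + ((N + 1 : ℕ) : ℝ)) / B = (B + N) / B * ((B + ((N + 1 : ℕ) : ℝ)) / (B + N)) := by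
      field_simp
    rw [h4, Real.log_mul (div_pos h1 hB).ne' (div_pos h2 h1).ne']
    have h5 : 1 - ((B + ((N + 1 : ℕ) : ℝ)) / (B + N))⁻¹ = 1 / (B + ((N + 1 : ℕ) : ℝ)) := by
      rw [inv_div]
      rw [eq_div_iff h2.ne', sub_mul, div_mul_cancel₀ _ h2.ne']
      push_cast
      ring
    rw [h5] at h3
    have h6 : 2 / (B + ((N + 1 : ℕ) : ℝ)) = 2 * (1 / (B + ((N + 1 : ℕ) : ℝ))) := by ring
    rw [h6]
    linarith

lemma log16 : Real.log 1.6 ≤ 0.4701 := by
  rw [Real.log_le_iff_le_exp (by norm_num)]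
  have h9 := Real.sum_le_exp_of_nonneg (x := 0.4701) (by norm_num) 8
  refine le_trans ?_ h9
  simp only [Finset.sum_range_succ, Finset.sum_range_zero, Nat.factorial]
  norm_num

lemma Sf_line {B : ℝ} (hB : 0 < B) (N : ℕ) : Sf B N ≤ 0.1902 + 1.25 / B * N := by
  have h1 := Sf_log hB N
  have hN : (0 : ℝ) ≤ N := Nat.cast_nonneg _
  have h2 : 0 < (B + N) / B := div_pos (by linarith) hB
  have h3 : Real.log ((B + N) / B) = Real.log 1.6 + Real.log ((B + N) / B / 1.6) := by
    rw [← Real.log_mul (by norm_num) (div_pos h2 (by norm_num)).ne']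
    congr 1
    field_simp
  have h4 := Real.log_le_sub_one_of_pos (div_pos h2 (by norm_num : (0 : ℝ) < 1.6))
  have h5 : (B + N) / B / 1.6 = 0.625 + 0.625 / B * N := by
    field_simp
    ring
  have h6 : 2 * (0.625 / B * N) = 1.25 / B * N := by ring
  rw [h3] at h1
  rw [h5] at h1 h4
  linarith [log16]

/-- the main inequality `X + y ≤ C` -/
lemma key {m B t R S' φ1 : ℝ} (hm : 300 ≤ m) (hB : B = 0.42 * m) (ht1 : B ≤ t)
    (ht2 : t ≤ 0.92 * m) (hR1 : 0.7213 * (m - 3) ≤ R) (hR2 : R ≤ 0.7213 * (m - 2))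
    (hS' : S' ≤ 0.1902 + 1.25 / B * (t - B)) (hφ : φ1 ≤ 2 / B) :
    (m - 1 + B + φ1 + S') / 2 - 1 + 1 / 1000 + (t / 2 - 1) / (R - 1) + R / t ≤ R := by
  have hm0 : 0 < m := by linarith
  obtain ⟨s, hs⟩ : ∃ s, s = t / m := ⟨_, rfl⟩
  have hts : t = s * m := by
    rw [hs]
    exact (div_mul_cancel₀ _ hm0.ne').symm
  have hs1 : 0.42 ≤ s := by
    rw [hs, le_div_iff₀ hm0]
    linarith
  have hs2 : s ≤ 0.92 := by
    rw [hs, div_le_iff₀ hm0]
    linarith
  have hs0 : 0 < s := by linarith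
  have hR0 : 0 < R - 1 := by linarith
  have e1 : 1.25 / B * (t - B) = 1.25 / 0.42 * s - 1.25 := by
    rw [hB, hts]
    field_simp
  have e2 : φ1 ≤ 2 / 126 := by
    refine hφ.trans ?_
    apply div_le_div_of_nonneg_left (by norm_num) (by norm_num)
    rw [hB]
    linarith
  have e3 : (t / 2 - 1) / (R - 1) ≤ 0.7035 * s := by
    rw [div_le_iff₀ hR0, hts]
    have h1 : 0.71074 * m ≤ R - 1 := by linarith
    have h2 := mul_le_mul_of_nonneg_left h1 (by linarith : (0 : ℝ) ≤ 0.7035 * s)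
    nlinarith [mul_pos hs0 hm0]
  have e4 : R / t ≤ 0.7213 * ((1.34 - s) / 0.3864) := by
    have ht0 : 0 < t := by
      rw [hts]
      exact mul_pos hs0 hm0
    rw [div_le_iff₀ ht0, hts]
    have h1 : 0.3864 ≤ s * (1.34 - s) := by nlinarith
    have h2 : 0.7213 * ((1.34 - s) / 0.3864) * (s * m) = 0.7213 * m * (s * (1.34 - s) / 0.3864) := by
      ring
    rw [h2]
    have h3 : 1 ≤ s * (1.34 - s) / 0.3864 := by
      rw [le_div_iff₀ (by norm_num)]
      linarith
    have h4 := mul_le_mul_of_nonneg_left h3 (by linarith : (0 : ℝ) ≤ 0.7213 * m)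
    linarith
  rw [e1] at hS'
  rw [hB]
  have e5 : (m - 1 + 0.42 * m + φ1 + S') / 2 ≤
      (m - 1 + 0.42 * m + 2 / 126 + (0.1902 + (1.25 / 0.42 * s - 1.25))) / 2 := by linarith
  have e6 : (1.34 - s) / 0.3864 = 1.34 / 0.3864 - s / 0.3864 := by ring
  rw [e6] at e4
  norm_num at e4 e5 ⊢
  linarith

/-- `exp` bounds -/
lemma exp1 : Real.exp (-0.6514) ≤ 0.5214 := by
  rw [Real.exp_neg, inv_le_comm₀ (Real.exp_pos _) (by norm_num)]
  have h9 := Real.sum_le_exp_of_nonneg (x := 0.6514) (by norm_num) 9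
  refine le_trans ?_ h9
  simp only [Finset.sum_range_succ, Finset.sum_range_zero, Nat.factorial]
  norm_num

lemma exp2 : Real.exp (-0.6492) ≤ 0.5226 := by
  rw [Real.exp_neg, inv_le_comm₀ (Real.exp_pos _) (by norm_num)]
  have h9 := Real.sum_le_exp_of_nonneg (x := 0.6492) (by norm_num) 9
  refine le_trans ?_ h9
  simp only [Finset.sum_range_succ, Finset.sum_range_zero, Nat.factorial]
  norm_num

lemma pow_le_exp {γ x : ℝ} (hγ1 : γ ≤ 1) (a : ℕ) (h : x ≤ γ * a) : (1 - γ) ^ a ≤ Real.exp (-x) := by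
  have h1 : 1 - γ ≤ Real.exp (-γ) := by
    have := Real.add_one_le_exp (-γ)
    linarith
  have h2 : (1 - γ) ^ a ≤ Real.exp (-γ) ^ a := pow_le_pow_left₀ (by linarith) h1 a
  rw [← Real.exp_nat_mul] at h2
  refine h2.trans (Real.exp_le_exp.2 ?_)
  nlinarith

/-- the condition `NumL` for one `N` -/
lemma numL {m h N : ℕ} {B R φN φ1 S' XN : ℝ} (hm' : (300 : ℝ) ≤ m) (hB : B = 0.42 * m)
    (hh1' : 2 * (h : ℝ) + 2 ≤ m) (hh2' : (m : ℝ) ≤ 2 * h + 3) (hR : R = 1.4426 * h)
    (hN1' : (1 : ℝ) ≤ N) (hN2' : 2 * (N : ℝ) + 1 ≤ m) (hφN : φN = 2 / (B + N))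
    (hφ1 : φ1 = 2 / (B + 1)) (hS1 : S' ≤ 0.1902 + 1.25 / B * N) (hS0 : 0 ≤ S')
    (hX : XN = ((m : ℝ) - 2 + φ1 - (((N : ℝ) - 1) - S')) / 2 + 1 / 1000) :
    NumL ((1 - φN / 2) * R) φN XN h h := by
  have hm0 : (0 : ℝ) < m := by linarith
  have hR1 : 0.7213 * ((m : ℝ) - 3) ≤ R := by
    rw [hR]
    linarith
  have hR2 : R ≤ 0.7213 * ((m : ℝ) - 2) := by
    rw [hR]
    linarith
  have hR0 : 0 < R := by linarith
  have hB0 : 0 < B := by
    rw [hB]
    linarith
  obtain ⟨t, ht⟩ : ∃ t : ℝ, t = B + N := ⟨_, rfl⟩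
  have ht0 : 0 < t := by linarith
  have htB : 120 ≤ t := by
    rw [ht, hB]
    linarith
  rw [← ht] at hφN
  have hφ1B : φ1 ≤ 2 / B := by
    rw [hφ1]
    exact div_le_div_of_nonneg_left (by norm_num) hB0 (by linarith)
  have hφ10 : 0 ≤ φ1 := by
    rw [hφ1]
    exact div_nonneg (by norm_num) (by linarith)
  have hφ0 : 0 < φN := by
    rw [hφN]
    exact div_pos (by norm_num) ht0
  have hφle : φN ≤ 1 / 60 := by
    rw [hφN, div_le_div_iff₀ ht0 (by norm_num)]
    linarith
  have hcR : (1 - φN / 2) / ((1 - φN / 2) * R) = 1 / R := by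
    have h1 : 1 - φN / 2 ≠ 0 := by
      have : 0 < 1 - φN / 2 := by linarith
      exact this.ne'
    rw [← div_div, div_self h1]
  have hR10 : 0 < R - 1 := by linarith
  have hqR : (1 - 1 / R) = (R - 1) / R := by
    rw [sub_div, div_self hR0.ne']
  have hq0 : 0 < 1 - 1 / R := by
    rw [hqR]
    exact div_pos hR10 hR0
  have hy : (1 - φN) / (φN * (1 - 1 / R)) = (t / 2 - 1) + (t / 2 - 1) / (R - 1) := by
    have h2 : R - 1 ≠ 0 := hR10.ne'
    have h3 : t ≠ 0 := ht0.ne'
    have h4 : R ≠ 0 := hR0.ne'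
    rw [hqR, hφN]
    field_simp
    ring
  have hCt : (1 - φN / 2) * R = R - R / t := by
    rw [hφN]
    field_simp
  have hSN : S' ≤ 0.1902 + 1.25 / B * (t - B) := by
    have h1 : t - B = N := by
      rw [ht]
      ring
    rw [h1]
    exact hS1
  have hk := key (m := (m : ℝ)) (B := B) (t := t) (R := R) (S' := S') (φ1 := φ1) hm' hB
    (by linarith) (by rw [ht, hB]; linarith) hR1 hR2 hSN hφ1B
  have hXt : XN = ((m : ℝ) - 1 + B + φ1 + S') / 2 - t / 2 + 1 / 1000 := by
    rw [hX, ht]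
    ring
  have hX0 : 0 < XN := by
    rw [hX]
    linarith
  have hy0 : 0 ≤ (t / 2 - 1) + (t / 2 - 1) / (R - 1) := by
    have h1 : 0 ≤ t / 2 - 1 := by linarith
    have h2 : 0 ≤ (t / 2 - 1) / (R - 1) := div_nonneg h1 hR10.le
    linarith
  obtain ⟨Y, hY⟩ : ∃ Y, Y = (t / 2 - 1) + (t / 2 - 1) / (R - 1) := ⟨_, rfl⟩
  obtain ⟨C, hC⟩ : ∃ C, C = R - R / t := ⟨_, rfl⟩
  have hXy : XN + Y ≤ C := by
    rw [hXt, hY, hC]
    linarith
  rw [← hY] at hy hy0
  rw [← hC] at hCt
  refine ⟨?_, hφ0, by linarith, ?_, ?_, ?_, ?_⟩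
  · have h1 : (59 / 60 : ℝ) ≤ 1 - φN / 2 := by linarith
    have h2 : (200 : ℝ) ≤ R := by linarith
    have h3 := mul_le_mul h1 h2 (by norm_num) (by linarith)
    linarith
  · rw [hcR]
    exact hq0
  · rw [hcR]
    have hh0 : 0 < (h : ℝ) := by linarith
    have h1 : (1 - 1 / R) ^ h ≤ Real.exp (-Real.log 2) := by
      apply pow_le_exp
      · rw [div_le_one hR0]
        linarith
      · have h2 : 1 / R * h = 1 / 1.4426 := by
          rw [hR, one_div_mul_eq_div, div_mul_cancel_right₀ hh0.ne', one_div]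
        rw [h2]
        have := Real.log_two_lt_d9
        refine le_trans this.le ?_
        norm_num
    rw [Real.exp_neg, Real.exp_log (by norm_num)] at h1
    linarith
  · rw [hcR, hy, hCt]
    linarith
  · rw [hcR, hy, hCt]
    have h1 := mul_nonneg (by linarith : (0 : ℝ) ≤ XN + Y) (by linarith : (0 : ℝ) ≤ C - (XN + Y))
    nlinarith

/-- the final inequality -/
lemma loss {m p a b : ℕ} {B γ : ℝ} {S P : ℕ → ℝ} (hm' : (300 : ℝ) ≤ m) (hB : B = 0.42 * m)
    (hp1' : (p : ℝ) * 4 ≤ m) (hp2' : (m : ℝ) ≤ p * 4 + 3) (hp0' : (0 : ℝ) < p)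
    (hγ : γ = 0.3257 / p) (hγ0 : 0 < γ) (hγ1 : γ ≤ 1) (hab' : (a : ℝ) + b = m)
    (ha1 : (m : ℝ) ≤ 2 * a) (hb1 : (m : ℝ) ≤ 2 * b + 1) (hSl : ∀ N : ℕ, S N ≤ 0.1902 + 1.25 / B * N)
    (hP0 : P 0 = 0) (hP : ∀ x : ℕ, P (x + 1) = (1 - γ) * P x + 1 + γ * (x - S x)) :
    (m : ℝ) - 1 ≤ P a + P b := by
  have hm0 : (0 : ℝ) < m := by linarith
  have l1 := rec_lower (α := 0.1902) (β := 1.25 / B) hγ0 hγ1 S P hP0 hP hSl a
  have l2 := rec_lower (α := 0.1902) (β := 1.25 / B) hγ0 hγ1 S P hP0 hP hSl b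
  have hγm : 1.3028 / (m : ℝ) ≤ γ := by
    rw [hγ, div_le_div_iff₀ hm0 hp0']
    linarith
  have hγa : 0.6514 ≤ γ * a := by
    have h1 : 0.6514 ≤ 1.3028 / (m : ℝ) * (m / 2) := by
      rw [div_mul_eq_mul_div, le_div_iff₀ hm0]
      linarith
    refine h1.trans ?_
    exact mul_le_mul hγm (by linarith) (by linarith) hγ0.le
  have hγb : 0.6492 ≤ γ * b := by
    have h1 : 0.6492 ≤ 1.3028 / (m : ℝ) * ((m - 1) / 2) := by
      rw [div_mul_eq_mul_div, le_div_iff₀ hm0]
      linarith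
    refine h1.trans ?_
    exact mul_le_mul hγm (by linarith) (by linarith) hγ0.le
  have r1 := (pow_le_exp hγ1 a hγa).trans exp1
  have r2 := (pow_le_exp hγ1 b hγb).trans exp2
  obtain ⟨u, hu⟩ : ∃ u, u = (1 - γ) ^ a := ⟨_, rfl⟩
  obtain ⟨v, hv⟩ : ∃ v, v = (1 - γ) ^ b := ⟨_, rfl⟩
  rw [← hu] at l1 r1
  rw [← hv] at l2 r2
  obtain ⟨β, hβ⟩ : ∃ β, β = 1.25 / B := ⟨_, rfl⟩
  rw [← hβ] at l1 l2
  have hB0 : 0 < B := by
    rw [hB]
    linarith
  have hBm : β * m = 1.25 / 0.42 := by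
    rw [hβ, hB, ← div_div, div_mul_cancel₀ _ hm0.ne']
  obtain ⟨w, hw⟩ : ∃ w, w = β / γ := ⟨_, rfl⟩
  have hw1 : 2.2616 ≤ w := by
    have h1 : w * 0.3257 = β * p := by
      rw [hw, hγ]
      field_simp
    have h2 : β * p * m = 1.25 / 0.42 * p := by
      rw [← hBm]
      ring
    by_contra hlt
    push Not at hlt
    have h3 : β * p < 2.2616 * 0.3257 := by
      rw [← h1]
      linarith
    have h4 := mul_lt_mul_of_pos_right h3 hm0
    rw [h2] at h4
    norm_num at h4
    linarith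
  have e1 : β * ((a : ℝ) - (1 - u) / γ) = β * a - w * (1 - u) := by
    rw [hw]
    ring
  have e2 : β * ((b : ℝ) - (1 - v) / γ) = β * b - w * (1 - v) := by
    rw [hw]
    ring
  rw [e1] at l1
  rw [e2] at l2
  have e3 : β * (a : ℝ) + β * b = 1.25 / 0.42 := by
    rw [← mul_add, hab', hBm]
  have e4 : 0.956 ≤ 2 - u - v := by linarith
  have e5 : (2.2616 - 0.1902) * 0.956 ≤ (w - 0.1902) * (2 - u - v) :=
    mul_le_mul (by linarith) e4 (by norm_num) (by linarith)
  have e6 : (w - 0.1902) * (2 - u - v) = w * (1 - u) + w * (1 - v) - 0.1902 * (1 - u) -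
      0.1902 * (1 - v) := by ring
  rw [e6] at e5
  norm_num at e3 e5 l1 l2 ⊢
  linarith

end NBL_

open NBL_

/-- the numerical conditions of the theorem `n ≥ (g-2) k` hold for all `m ≥ 300` -/
theorem nblTail {m : ℕ} (hm : 300 ≤ m) : ∃ (γ : ℝ) (M c i j J a b : ℕ) (C φ X S : ℕ → ℝ),
    γ * M = c ∧ 1 ≤ M ∧ c ≤ M ∧ 0 < γ ∧ γ ≤ 1 ∧ (∀ n, BdAll m γ n) ∧ i + j + 2 ≤ m ∧
    1 ≤ J ∧ (∀ N, 1 ≤ N → N ≤ J → NumL (C N) (φ N) (X N) i j) ∧ (m : ℝ) - 1 < 2 * X 1 + 1 - φ 1 ∧
    S 0 = 0 ∧ (∀ N, S (N + 1) = S N + φ (N + 1)) ∧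
    (∀ N, 1 ≤ N → (m : ℝ) - 1 - 1 + φ 1 - (N - S N) < 2 * X (N + 1)) ∧
    a + b = m ∧ a ≤ J + 1 ∧ b ≤ J + 1 ∧
    ∀ P : ℕ → ℝ, P 0 = 0 → (∀ x : ℕ, P (x + 1) = (1 - γ) * P x + 1 + γ * (x - S x)) →
      (m : ℝ) - 1 ≤ P a + P b := by
  have hm' : (300 : ℝ) ≤ m := by exact_mod_cast hm
  have hm0 : (0 : ℝ) < m := by linarith
  -- `γ`
  obtain ⟨p, hp⟩ : ∃ p, p = m / 4 := ⟨_, rfl⟩
  have hp1 : p * 4 ≤ m := by omega
  have hp2 : m ≤ p * 4 + 3 := by omega
  have hp1' : (p : ℝ) * 4 ≤ m := by exact_mod_cast hp1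
  have hp2' : (m : ℝ) ≤ p * 4 + 3 := by exact_mod_cast hp2
  have hp0 : 1 ≤ p := by omega
  have hp0' : (0 : ℝ) < p := by linarith
  obtain ⟨γ, hγ⟩ : ∃ γ : ℝ, γ = 0.3257 / p := ⟨_, rfl⟩
  have hγ0 : 0 < γ := by
    rw [hγ]
    exact div_pos (by norm_num) hp0'
  have hγ1 : γ ≤ 1 := by
    rw [hγ, div_le_one hp0']
    linarith
  -- `h`, `R`
  obtain ⟨h, hh⟩ : ∃ h, h = (m - 2) / 2 := ⟨_, rfl⟩
  have hh1 : 2 * h + 2 ≤ m := by omega
  have hh2 : m ≤ 2 * h + 3 := by omega
  have hh1' : 2 * (h : ℝ) + 2 ≤ m := by exact_mod_cast hh1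
  have hh2' : (m : ℝ) ≤ 2 * h + 3 := by exact_mod_cast hh2
  obtain ⟨B, hB⟩ : ∃ B : ℝ, B = 0.42 * m := ⟨_, rfl⟩
  have hB0 : 0 < B := by
    rw [hB]
    linarith
  obtain ⟨φ, hφ⟩ : ∃ φ : ℕ → ℝ, φ = fun N : ℕ => 2 / (B + (N : ℝ)) := ⟨_, rfl⟩
  have hφN : ∀ N : ℕ, φ N = 2 / (B + N) := fun N => by rw [hφ]
  have hφ1 : φ 1 = 2 / (B + 1) := by
    rw [hφN, Nat.cast_one]
  obtain ⟨S, hS⟩ : ∃ S : ℕ → ℝ, S = Sf B := ⟨_, rfl⟩
  have hS0 : S 0 = 0 := by
    rw [hS]
    exact Sf_zero B
  have hSs : ∀ N : ℕ, S (N + 1) = S N + φ (N + 1) := by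
    intro N
    rw [hS, hφN]
    exact Sf_succ B N
  have hSl : ∀ N : ℕ, S N ≤ 0.1902 + 1.25 / B * N := by
    intro N
    rw [hS]
    exact Sf_line hB0 N
  have hSn : ∀ N : ℕ, 0 ≤ S N := by
    intro N
    rw [hS]
    unfold Sf
    apply Finset.sum_nonneg
    intro l _
    exact div_nonneg (by norm_num) (by
      have : (0 : ℝ) ≤ l := Nat.cast_nonneg _
      linarith)
  obtain ⟨X, hX⟩ : ∃ X : ℕ → ℝ, X = fun N : ℕ =>
    ((m : ℝ) - 2 + φ 1 - (((N : ℝ) - 1) - S (N - 1))) / 2 + 1 / 1000 := ⟨_, rfl⟩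
  have hXN : ∀ N : ℕ, X N = ((m : ℝ) - 2 + φ 1 - (((N : ℝ) - 1) - S (N - 1))) / 2 + 1 / 1000 :=
    fun N => by rw [hX]
  refine ⟨γ, 10000 * p, 3257, h, h, (m + 1) / 2 - 1, (m + 1) / 2, m / 2,
    fun N => (1 - φ N / 2) * (1.4426 * h), φ, X, S, ?_, by omega, by omega, hγ0, hγ1, ?_, by omega,
    by omega, ?_, ?_, hS0, hSs, ?_, by omega, by omega, by omega, ?_⟩
  · rw [hγ, div_mul_eq_mul_div, div_eq_iff hp0'.ne']
    push_cast
    ring
  · intro n
    rw [hγ]
    exact pwr4_exp hp0 hp1 n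
  · -- NumL
    intro N hN1 hN2
    have hN1' : (1 : ℝ) ≤ N := by exact_mod_cast hN1
    have hN2' : 2 * (N : ℝ) + 1 ≤ m := by
      have : 2 * N + 1 ≤ m := by omega
      exact_mod_cast this
    have hS1 : S (N - 1) ≤ 0.1902 + 1.25 / B * N := by
      refine (hSl (N - 1)).trans ?_
      have h1 : ((N - 1 : ℕ) : ℝ) ≤ N := by exact_mod_cast Nat.sub_le _ _
      have h2 := mul_le_mul_of_nonneg_left h1 (div_nonneg (by norm_num) hB0.le : (0 : ℝ) ≤ 1.25 / B)
      linarith
    exact numL hm' hB hh1' hh2' rfl hN1' hN2' (hφN N) hφ1 hS1 (hSn (N - 1)) (hXN N)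
  · rw [hXN]
    have : S (1 - 1) = 0 := hS0
    rw [this, Nat.cast_one]
    linarith
  · intro N _
    rw [hXN]
    have : S (N + 1 - 1) = S N := rfl
    rw [this]
    push_cast
    linarith
  · intro P hP0 hP
    have hab : (m + 1) / 2 + m / 2 = m := by omega
    have hab' : (((m + 1) / 2 : ℕ) : ℝ) + ((m / 2 : ℕ) : ℝ) = m := by exact_mod_cast hab
    have ha1 : (m : ℝ) ≤ 2 * (((m + 1) / 2 : ℕ) : ℝ) := by
      have : m ≤ 2 * ((m + 1) / 2) := by omega
      exact_mod_cast this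
    have hb1 : (m : ℝ) ≤ 2 * ((m / 2 : ℕ) : ℝ) + 1 := by
      have : m ≤ 2 * (m / 2) + 1 := by omega
      exact_mod_cast this
    exact loss hm' hB hp1' hp2' hp0' hγ hγ0 hγ1 hab' ha1 hb1 hSl hP0 hP

/-- a numerical certificate exists for all `m ≥ 300` -/
theorem hasCert_tail {m : ℕ} (hm : 300 ≤ m) : HasCert m := by
  obtain ⟨γ, M, c, i, j, J, a, b, C, φ, X, S, h1, h2, h3, h4, h5, h6, h7, hJ, h8, h9, h10, h11, h12, h13,
    h14, h15, h16⟩ := nblTail hm
  exact ⟨γ, M, c, i, j, J, a, b, C, φ, X, S, ⟨h2, h3, h1, h4, h5, h6, h7, hJ, h8, h9, h10, fun N _ => h11 N,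
    fun N hN _ => h12 N hN, h13, h14, h15, h16 (pE γ S) rfl (fun _ => rfl)⟩⟩

end Pool.Agent.Lib.MP_83608f_co.CN
end
end
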