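import Pool.Agent.Lib.MP_83608f_co.CN.SpecW
import Pool.Agent.Lib.MP_83608f_co.CN.NBL
import Pool.Agent.Lib.MP_83608f_co.CN.ONE
import Pool.Agent.Lib.MP_83608f_co.CN.DCH

section
/-! MP_83608f_co, part CN, module WTH: Theorem W (weighted Caccetta-Haggkvist with a flux term). -/
set_option autoImplicit false

open Classical

noncomputable section

namespace Pool.Agent.Lib.MP_83608f_co.CN

open Pool.Agent.Lib.MP_83608f_co.EM (Wk)

namespace WTH_

variable {V : Type} {A : V → V → Prop} {k : ℕ}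

lemma dT_le [Fintype V] (hout : ∀ v, (Finset.univ.filter fun u => A v u).card = k) (T : Finset V)
    (v : V) : dT A T v ≤ k := by
  rw [← hout v, dT]
  exact Finset.card_le_card (Finset.filter_subset_filter _ (Finset.subset_univ T))

lemma flux_nonneg [Fintype V] (hout : ∀ v, (Finset.univ.filter fun u => A v u).card = k)
    (T : Finset V) : 0 ≤ flux A k T := by
  refine Finset.sum_nonneg fun v _ => ?_
  have h : (dT A T v : ℝ) ≤ k := by exact_mod_cast dT_le hout T v
  linarith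

lemma wt_sum (τ : ℝ) (T X : Finset V) : ∑ v ∈ X, wt A k τ T {v} = wt A k τ T X := by
  simp only [wt, df, Finset.card_singleton, Finset.sum_singleton]
  rw [Finset.sum_add_distrib, Finset.sum_const, ← Finset.sum_div, nsmul_eq_mul]
  push_cast
  ring

lemma wt_pos [Fintype V] (hk : 1 ≤ k) (hout : ∀ v, (Finset.univ.filter fun u => A v u).card = k)
    {τ : ℝ} (hτ : 0 < τ) (T : Finset V) (v : V) : 0 < wt A k τ T {v} := by
  have hk0 : (0 : ℝ) < k := by exact_mod_cast hk
  have h : (dT A T v : ℝ) ≤ k := by exact_mod_cast dT_le hout T v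
  simp only [wt, df, Finset.card_singleton, Finset.sum_singleton]
  have h1 : (0 : ℝ) < ((1 : ℕ) : ℝ) / k := by positivity
  have h2 : 0 ≤ ((k : ℝ) - dT A T v) / (k * τ) := div_nonneg (by linarith) (by positivity)
  linarith

/-- the value of a pair -/
def val (A : V → V → Prop) (k : ℕ) (c₁ : ℝ) (p : Finset V × ℕ) : ℝ :=
  (p.1.card : ℝ) / k + (flux A k p.1 + (k : ℝ) ^ 2 / 4) / (k * min (p.2 : ℝ) (c₁ * k))

/-- admissible pairs -/
def Adm (A : V → V → Prop) (p : Finset V × ℕ) : Prop :=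
  p.1.Nonempty ∧ 0 < p.2 ∧ ∀ v ∈ p.1, p.2 ≤ dT A p.1 v

/-- a set with large out-degrees gives an admissible pair -/
lemma exists_adm (W : Finset V) (hne : W.Nonempty) (σ : ℝ) (hσ : 0 < σ)
    (h : ∀ v ∈ W, σ ≤ dT A W v) : ∃ d : ℕ, Adm A (W, d) ∧ σ ≤ d := by
  obtain ⟨v₀, hv₀, hmin⟩ := Finset.exists_min_image W (fun v => dT A W v) hne
  refine ⟨dT A W v₀, ⟨hne, ?_, hmin⟩, h v₀ hv₀⟩
  have := hσ.trans_le (h v₀ hv₀)
  exact_mod_cast this

lemma exists_min [Fintype V] (hout : ∀ v, (Finset.univ.filter fun u => A v u).card = k) (c₁ : ℝ)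
    (p₀ : Finset V × ℕ) (h₀ : Adm A p₀) :
    ∃ p, Adm A p ∧ ∀ q, Adm A q → val A k c₁ p ≤ val A k c₁ q := by
  have hle : ∀ q : Finset V × ℕ, Adm A q → q ∈ (((Finset.univ : Finset (Finset V)) ×ˢ
      Finset.range (k + 1)).filter fun q => Adm A q) := by
    intro q hq
    rw [Finset.mem_filter, Finset.mem_product, Finset.mem_range]
    refine ⟨⟨Finset.mem_univ _, ?_⟩, hq⟩
    obtain ⟨v, hv⟩ := hq.1
    have := hq.2.2 v hv
    have h2 := dT_le hout q.1 v
    omega
  obtain ⟨p, hp, hmin⟩ := Finset.exists_min_image _ (val A k c₁) ⟨p₀, hle p₀ h₀⟩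
  rw [Finset.mem_filter] at hp
  exact ⟨p, hp.2, fun q hq => hmin q (hle q hq)⟩

/-- monotonicity of the value in the out-degree -/
lemma val_le [Fintype V] (hk : 1 ≤ k) (hout : ∀ v, (Finset.univ.filter fun u => A v u).card = k)
    {c₁ s : ℝ} (W : Finset V) (d : ℕ) (hs : 0 < s) (h1 : s ≤ d) (h2 : s ≤ c₁ * k) :
    val A k c₁ (W, d) ≤ (W.card : ℝ) / k + (flux A k W + (k : ℝ) ^ 2 / 4) / (k * s) := by
  have hk0 : (0 : ℝ) < k := by exact_mod_cast hk
  have hF := flux_nonneg hout W
  rw [val]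
  refine add_le_add (le_refl _) ?_
  refine div_le_div_of_nonneg_left (by positivity) (by positivity) ?_
  exact mul_le_mul_of_nonneg_left (le_min h1 h2) hk0.le

end WTH_

open WTH_ in
theorem specWTH (hWCA : SpecWCA) (hWBD : SpecWBD) (hWTB : SpecWTB) (hWNE : SpecWNE) : SpecWTH := by
  intro V _ A k m t s c₁ G τ₀ W₀ hk hcl hout hin hts hc₁ hc₁2 hnum hne₀ hτ₀ hτ₀c hW₀
  by_contra hcon
  push Not at hcon
  have hk0 : (0 : ℝ) < k := by exact_mod_cast hk
  obtain ⟨d₀, hadm₀, hd₀⟩ := exists_adm W₀ hne₀ τ₀ hτ₀ hW₀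
  obtain ⟨⟨W, d⟩, hadm, hmin⟩ := exists_min hout c₁ (W₀, d₀) hadm₀
  obtain ⟨hne, hd0, hdeg⟩ := hadm
  simp only at hne hd0 hdeg
  set Γ : ℝ := val A k c₁ (W, d) with hΓ
  have hΓG : Γ ≤ G :=
    ((hmin _ hadm₀).trans (val_le hk hout W₀ d₀ hτ₀ hd₀ hτ₀c)).trans hcon.le
  set τ : ℝ := min (d : ℝ) (c₁ * k) with hτd
  have hd0' : (0 : ℝ) < d := by exact_mod_cast hd0
  have hτ : 0 < τ := lt_min hd0' (by positivity)
  have hτc : τ ≤ c₁ * k := min_le_right _ _
  have hW : ∀ v ∈ W, τ ≤ dT A W v := fun v hv =>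
    (min_le_left _ _).trans (by exact_mod_cast hdeg v hv)
  have hWk : ∀ v ∈ W, dT A W v ≤ k := fun v _ => dT_le hout W v
  have hΓeq : Γ = (W.card : ℝ) / k + (flux A k W + (k : ℝ) ^ 2 / 4) / (k * τ) := rfl
  have hF := flux_nonneg hout W
  have hcard : (0 : ℝ) < W.card := by exact_mod_cast hne.card_pos
  obtain ⟨c, hc⟩ : ∃ c : ℝ, c = τ / k := ⟨_, rfl⟩
  have hck : c * k = τ := by rw [hc]; field_simp
  have hc0 : 0 < c := by rw [hc]; positivity
  have hcc₁ : c ≤ c₁ := by
    rw [hc, div_le_iff₀ hk0]; exact hτc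
  have hΩ : wt A k τ W W = Γ - 1 / (4 * c) := by
    rw [hΓeq, wt, hc, ← flux]
    field_simp
    ring
  have hΩpos : 0 < wt A k τ W W := by
    rw [wt, ← flux]
    positivity
  have hΓc : 1 < 4 * c * Γ := by
    rw [hΩ] at hΩpos
    have h1 : 1 / (4 * c) < Γ := by linarith
    rw [div_lt_iff₀ (by positivity)] at h1
    linarith
  have hΓpos : 0 < Γ := by
    by_contra h
    push Not at h
    have : 4 * c * Γ ≤ 0 := mul_nonpos_of_nonneg_of_nonpos (by positivity) h
    linarith
  have hWΓ : (W.card : ℝ) < Γ * k := by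
    have h1 : (W.card : ℝ) / k < Γ := by
      rw [hΓeq]
      have : 0 < (flux A k W + (k : ℝ) ^ 2 / 4) / (k * τ) := by positivity
      linarith
    rwa [div_lt_iff₀ hk0] at h1
  obtain ⟨κ, hκ⟩ : ∃ κ : ℝ, κ = 1 / (4 * c * Γ) := ⟨_, rfl⟩
  have hκ1 : κ * (4 * c * Γ) = 1 := by
    rw [hκ]; field_simp
  have hMini : Mini A k W τ Γ := by
    intro B σ hB hσ hστ hT₀
    obtain ⟨T₀, hT₀B, hT₀ne, hT₀d⟩ := hT₀
    obtain ⟨A', hA'0, hA'B, hA'd, hA'F⟩ := hWCA V A k hin σ T₀ B hσ hT₀B hT₀d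
    have hA'ne : A'.Nonempty := hT₀ne.mono hA'0
    obtain ⟨d', hadm', hd'⟩ := exists_adm A' hA'ne σ hσ hA'd
    have h1 : Γ ≤ (A'.card : ℝ) / k + (flux A k A' + (k : ℝ) ^ 2 / 4) / (k * σ) :=
      (hmin _ hadm').trans (val_le hk hout A' d' hσ hd' (hστ.trans hτc))
    have h2 : Γ * (k * σ) ≤ ((A'.card : ℝ) / k + (flux A k A' + (k : ℝ) ^ 2 / 4) / (k * σ)) *
        (k * σ) := mul_le_mul_of_nonneg_right h1 (by positivity)
    have h3 : ((A'.card : ℝ) / k + (flux A k A' + (k : ℝ) ^ 2 / 4) / (k * σ)) * (k * σ) =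
        σ * A'.card + (flux A k A' + (k : ℝ) ^ 2 / 4) := by
      field_simp
    rw [h3] at h2
    nlinarith [h2, hA'F]
  have hirr : ∀ v, ¬ A v v := fun v h => hcl 1 (le_refl _) (by omega) v (EM.Wk.one.2 h)
  obtain ⟨r, hr, hball⟩ := hWTB V A m (t + 1) (s + 1) W (fun v => wt A k τ W {v}) hcl hts hne
    (fun v _ => wt_pos hk hout hτ W v)
  rw [wt_sum, wt_sum, wt_sum] at hball
  obtain ⟨P, P₁, hP₁, hPw, hPP, hPi⟩ := hWBD V A k W τ Γ c κ r t hk hτ hW hWk hin hirr hWΓ hMini hr
    hck (hcc₁.trans hc₁2) hΓc hκ1 hΩ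
  obtain ⟨P', P₁', hP₁', hPw', hPP', hPi'⟩ := hWBD V A k W τ Γ c κ r s hk hτ hW hWk hin hirr hWΓ
    hMini hr hck (hcc₁.trans hc₁2) hΓc hκ1 hΩ
  have hPe : P₁' = P₁ := by rw [hP₁', hP₁]
  rw [hPe] at hPP' hPi'
  have hwr : 0 < wt A k τ W {r} := wt_pos hk hout hτ W r
  obtain ⟨Or, hOr⟩ : ∃ Or : ℝ, Or = Γ - 1 / (4 * c) - wt A k τ W {r} := ⟨_, rfl⟩
  have hOr0 : 0 < Or := by
    rw [hOr, ← hΩ, ← wt_sum τ W W]
    have hex : ∃ u ∈ W, A r u := by
      have h1 : (0 : ℝ) < dT A W r := hτ.trans_le (hW r hr)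
      have h2 : 0 < dT A W r := by exact_mod_cast h1
      rw [dT, Finset.card_pos] at h2
      obtain ⟨u, hu⟩ := h2
      rw [Finset.mem_filter] at hu
      exact ⟨u, hu.1, hu.2⟩
    obtain ⟨u, hu, hru⟩ := hex
    have hur : u ≠ r := by
      rintro rfl
      exact hirr _ hru
    rw [← Finset.add_sum_erase W _ hr]
    have h3 : 0 < ∑ x ∈ W.erase r, wt A k τ W {x} :=
      Finset.sum_pos (fun v _ => wt_pos hk hout hτ W v) ⟨u, Finset.mem_erase.2 ⟨hur, hu⟩⟩
    linarith
  have hdr : c ≤ (dT A W r : ℝ) / k := by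
    rw [hc]
    exact div_le_div_of_nonneg_right (hW r hr) hk0.le
  have hfin := hWNE t s c₁ G Γ c κ Or P P' P₁ ((dT A W r : ℝ) / k) hc0 hcc₁ hc₁2 hΓc hΓG hκ1 hnum
    hOr0 (by rw [hOr]; linarith) hdr (by rw [hP₁, hOr]) hPP hPP' hPi hPi'
  rw [hΩ] at hball
  rw [hOr] at hfin
  linarith

end Pool.Agent.Lib.MP_83608f_co.CN
end
end

section
/-! MP_83608f_co, part CN, module THH (helper71): the pair estimate for diregular digraphs with a sequence of losses.

`D` is `k`-diregular without closed walks of length `1, ..., m`; `P a` is the number of pairs `(x, y)` with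
`1 ≤ dist(x, y) ≤ a`.  If every ball of radius `a ≤ J` around a nonempty set `W` which is not everything has at least
`|W| + (a - E a) k` points (`ChainB`), then `P (a+1) ≥ (1-γ) P a + nk + γ (a - E a) n k` for `a ≤ J`, `a + 1 ≤ m`.
This is `THD` with `ε a` replaced by `E a`. -/
set_option autoImplicit false

open Classical

noncomputable section

namespace Pool.Agent.Lib.MP_83608f_co.CN

open Pool.Agent.Lib.MP_83608f_co.EM (Wk)

/-- the balls of radius `a ≤ J` around a nonempty set `W` which miss a vertex have at least `|W| + (a - E a) k` points -/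
def ChainB {V : Type} [Fintype V] (A : V → V → Prop) (k J : ℕ) (E : ℕ → ℝ) : Prop :=
  ∀ (W : Finset V), W.Nonempty → ∀ a : ℕ, a ≤ J → ∀ v : V, v ∉ THD_.bs A W a →
    (W.card : ℝ) + a * k - E a * k ≤ ((THD_.bs A W a).card : ℝ)

namespace THH_

open THD_ (bs mem_bs P row nb_eq deg comp_last comp_first card_pairs)

variable {V : Type} [Fintype V] {A : V → V → Prop} {k m J : ℕ} {γ : ℝ} {E : ℕ → ℝ}

/-- a bound for all cuts gives a chain bound -/
lemma chain_of_cut {ε : ℝ} (hcut : CutB A k ε) (J : ℕ) : ChainB A k J fun a => ε * a := by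
  intro W hW a _ v hv
  have h := THD_.bs_grow hcut W hW v a hv
  have e : (W.card : ℝ) + a * k - ε * a * k = W.card + a * (k - ε * k) := by ring
  rw [e]
  exact h

/-- the number `ν_w`, as a real number; `A` is the REVERSED relation here: `R u x` means `u ∈ cb A x a` -/
lemma nu (hk : 1 ≤ k) (hcl : NoCl A m) (hch : ChainB A k J E)
    (hin : ∀ v, (Finset.univ.filter fun u => A u v).card = k) (a : ℕ) (ha : a + 1 ≤ m) (haJ : a ≤ J) (w : V)
    (X : Finset V) (hX : ∀ x ∈ X, ∀ y, (w = y ∨ A y w) → y ∉ LAY_.cb A x a) :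
    (X.card : ℝ) ≤ ((Finset.univ.filter fun u => (∃ x ∈ X, u ∈ LAY_.cb A x a) ∧
      ¬ u ∈ LAY_.cb A w a).card : ℝ) + ((LAY_.cb A w a).card - 1 - (a * k - E a * k)) := by
  classical
  obtain ⟨v, hv⟩ : ∃ v, A v w := by
    have h1 : 0 < (Finset.univ.filter fun u => A u w).card := by
      rw [hin w]
      omega
    obtain ⟨v, hv⟩ := Finset.card_pos.1 h1
    exact ⟨v, (Finset.mem_filter.1 hv).2⟩
  have hwX : w ∉ X := fun h => hX w h w (Or.inl rfl) (LAY_.mem_cb_self w a)
  have hW : (insert w X).card = X.card + 1 := Finset.card_insert_of_notMem hwX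
  have hvW : v ∉ bs A (insert w X) a := by
    rw [mem_bs]
    rintro ⟨x, hx, h⟩
    rw [Finset.mem_insert] at hx
    rcases hx with hx | hx
    · rw [hx] at h
      obtain ⟨i, h1, h2⟩ := LAY_.cb_walk w a v h
      exact hcl (i + 1) (by omega) (by omega) w (h2.snoc hv)
    · exact hX x hx v (Or.inr hv) h
  have h1 := hch (insert w X) ⟨w, Finset.mem_insert_self _ _⟩ a haJ v hvW
  have h2 : (bs A (insert w X) a) ⊆ (Finset.univ.filter fun u => (∃ x ∈ X, u ∈ LAY_.cb A x a) ∧
      ¬ u ∈ LAY_.cb A w a) ∪ LAY_.cb A w a := by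
    intro u hu
    rw [Finset.mem_union, Finset.mem_filter]
    by_cases huw : u ∈ LAY_.cb A w a
    · exact Or.inr huw
    · refine Or.inl ⟨Finset.mem_univ _, ?_, huw⟩
      obtain ⟨x, hx, h⟩ := (mem_bs _ a u).1 hu
      rw [Finset.mem_insert] at hx
      rcases hx with hx | hx
      · rw [hx] at h
        exact absurd h huw
      · exact ⟨x, hx, h⟩
  have h3 := (Finset.card_le_card h2).trans (Finset.card_union_le _ _)
  have h4 : ((bs A (insert w X) a).card : ℝ) ≤ ((Finset.univ.filter fun u =>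
      (∃ x ∈ X, u ∈ LAY_.cb A x a) ∧ ¬ u ∈ LAY_.cb A w a).card : ℝ) + (LAY_.cb A w a).card := by
    exact_mod_cast h3
  rw [hW] at h1
  push_cast at h1
  linarith

/-- the pair estimate -/
lemma step (hPKER : SpecPKER) {M c : ℕ} (hM : 1 ≤ M) (hcM : c ≤ M) (hγM : γ * M = c) (hk : 1 ≤ k)
    (hcl : NoCl A m) (hbd : ∀ T : Finset V, Bd A γ T)
    (hbd' : ∀ T : Finset V, Bd (fun a b => A b a) γ T) (hch : ChainB A k J E)
    (hch' : ChainB (fun a b => A b a) k J E)
    (hout : ∀ v, (Finset.univ.filter fun u => A v u).card = k)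
    (hin : ∀ v, (Finset.univ.filter fun u => A u v).card = k) (a : ℕ) (ha : a + 1 ≤ m)
    (haJ : a ≤ J) :
    (1 - γ) * P A a + Fintype.card V * k + γ * ((a * k - E a * k) * Fintype.card V) ≤ P A (a + 1) := by
  classical
  have hM0 : (0 : ℝ) < M := by exact_mod_cast (by omega : 0 < M)
  have hirr : ∀ v, ¬ A v v := fun v hv => hcl 1 (le_refl _) (by omega) v (EM.Wk.one.2 hv)
  obtain ⟨r, hr⟩ : ∃ r : V → ℝ, r = fun w =>
    ((LAY_.cb (fun a b => A b a) w a).card : ℝ) - 1 - (a * k - E a * k) := ⟨_, rfl⟩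
  obtain ⟨r', hr'⟩ : ∃ r' : V → ℝ, r' = fun w =>
    ((LAY_.cb A w a).card : ℝ) - 1 - (a * k - E a * k) := ⟨_, rfl⟩
  have hclf := CUT_.nocl_flip hcl
  have hnu : ∀ w, ∀ X : Finset V,
      (∀ x ∈ X, ∀ y, (w = y ∨ A w y) → y ∉ LAY_.cb (fun a b => A b a) x a) →
      (X.card : ℝ) ≤ ((Finset.univ.filter fun u => (∃ x ∈ X, u ∈ LAY_.cb (fun a b => A b a) x a) ∧
      ¬ u ∈ LAY_.cb (fun a b => A b a) w a).card : ℝ) + r w := by
    intro w X hX
    rw [hr]
    exact nu (A := fun a b => A b a) hk hclf hch' hout a ha haJ w X hX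
  have hnu' : ∀ w, ∀ X : Finset V, (∀ x ∈ X, ∀ y, (w = y ∨ A y w) → y ∉ LAY_.cb A x a) →
      (X.card : ℝ) ≤ ((Finset.univ.filter fun u => (∃ x ∈ X, u ∈ LAY_.cb A x a) ∧
      ¬ u ∈ LAY_.cb A w a).card : ℝ) + r' w := by
    intro w X hX
    rw [hr']
    exact nu hk hcl hch hin a ha haJ w X hX
  have hr0 : ∀ w, 0 ≤ r w := by
    intro w
    have := hnu w ∅ (fun x hx => absurd hx (Finset.notMem_empty _))
    simpa using this
  have hr0' : ∀ w, 0 ≤ r' w := by
    intro w
    have := hnu' w ∅ (fun x hx => absurd hx (Finset.notMem_empty _))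
    simpa using this
  have hfl : ∀ (c X : ℕ) (s : ℝ), (X : ℝ) ≤ c + s → X ≤ c + ⌊s⌋₊ := by
    intro c X s h
    rcases Nat.le_total X c with h1 | h1
    · omega
    · have h2 : ((X - c : ℕ) : ℝ) ≤ s := by
        rw [Nat.cast_sub h1]
        linarith
      have h3 := Nat.le_floor h2
      omega
  have hfar : ∀ x w, FarP (fun x y => y ∈ LAY_.cb A x a) (fun x y => x = y ∨ A x y) x w ↔
      ¬ x ∈ LAY_.cb A w (a + 1) := by
    intro x w
    rw [← comp_first]
    constructor
    · rintro h ⟨y, h1, h2⟩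
      exact h y h1 h2
    · intro h y h1 h2
      exact h ⟨y, h1, h2⟩
  have hdisj : ∀ u w, w ∈ LAY_.cb A u a → (w = u ∨ A w u) → w = u := by
    intro u w h1 h2
    rcases h2 with h2 | h2
    · exact h2
    · obtain ⟨i, h3, h4⟩ := (THC_.mem_cb u a w).1 h1
      exact absurd (h4.snoc h2) (hcl (i + 1) (by omega) (by omega) u)
  have key := pblow hPKER V (fun x y => y ∈ LAY_.cb A x a) (fun x y => x = y ∨ A x y) k M c hM hcM
    (fun w => ⌊r w⌋₊) (fun w => ⌊r' w⌋₊) (fun x => LAY_.mem_cb_self x a) (fun x => Or.inl rfl)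
    (fun x w => (comp_last w x a).trans (comp_first w x a).symm)
    (by
      intro w y h1 h2
      exact (hdisj y w h2 (h1.imp (fun h => h) (fun h => h))).symm)
    (fun x => by convert deg hirr hout x)
    (by
      intro x
      have h := deg (A := fun a b => A b a) hirr hin x
      rw [← h]
      congr 1
      ext v
      simp only [Finset.mem_filter, Finset.mem_univ, true_and, eq_comm])
    (by
      intro F hF
      rw [nb_eq hirr]
      exact row hM hγM hbd hout F hF)
    (by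
      intro F hF
      have e1 : PBL_.nb (fun x y => y = x ∨ A y x) F = BLOW_.nb (fun a b => A b a) F := by
        rw [← nb_eq (A := fun a b => A b a) hirr]
        ext v
        rw [PBL_.mem_nb, PBL_.mem_nb]
        simp only [eq_comm]
      rw [e1]
      exact row (A := fun a b => A b a) hM hγM hbd' hin F hF)
    (by
      intro w X hX
      apply hfl
      refine (hnu w X ?_).trans (le_of_eq ?_)
      · intro x hx y hy hyx
        exact hX x hx y hy ((THC_.mem_flip x a y).1 hyx)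
      · congr 3
        ext u
        simp only [Finset.mem_filter, Finset.mem_univ, true_and, THC_.mem_flip])
    (by
      intro w X hX
      apply hfl
      have h := hnu' w X (by
        intro x hx y hy hyx
        have h1 := hX x hx
        rw [hfar] at h1
        apply h1
        rw [← comp_last]
        exact ⟨y, hyx, hy.imp Eq.symm (fun h => h)⟩)
      refine h.trans (le_of_eq ?_)
      congr 3
      ext u
      simp only [Finset.mem_filter, Finset.mem_univ, true_and])
  -- the numbers of pairs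
  have hF := card_pairs (FarP (fun x y => y ∈ LAY_.cb A x a) (fun x y => x = y ∨ A x y))
  have hN := card_pairs (NadP (fun x y => y ∈ LAY_.cb A x a) (fun x y => x = y ∨ A x y))
  have hF' : ∑ x, (Finset.univ.filter fun y =>
      ¬ FarP (fun x y => y ∈ LAY_.cb A x a) (fun x y => x = y ∨ A x y) x y).card =
      ∑ x, (LAY_.cb A x (a + 1)).card := by
    rw [← THC_.sum_flip (A := A) (a + 1)]
    apply Finset.sum_congr rfl
    intro x _
    congr 1
    ext y
    rw [Finset.mem_filter, hfar, THC_.mem_flip]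
    simp
  have hN' : ∑ x, (Finset.univ.filter fun y =>
      ¬ NadP (fun x y => y ∈ LAY_.cb A x a) (fun x y => x = y ∨ A x y) x y).card =
      ∑ x, (LAY_.cb A x a).card + Fintype.card V * k := by
    have h1 : ∀ x ∈ (Finset.univ : Finset V), (Finset.univ.filter fun y =>
        ¬ NadP (fun x y => y ∈ LAY_.cb A x a) (fun x y => x = y ∨ A x y) x y).card =
        (LAY_.cb A x a).card + k := by
      intro x _
      have h2 : (Finset.univ.filter fun y =>
          ¬ NadP (fun x y => y ∈ LAY_.cb A x a) (fun x y => x = y ∨ A x y) x y) =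
          LAY_.cb A x a ∪ (Finset.univ.filter fun y => A y x) := by
        ext y
        rw [Finset.mem_filter, Finset.mem_union, Finset.mem_filter]
        unfold NadP
        constructor
        · rintro ⟨-, h⟩
          by_cases h3 : y ∈ LAY_.cb A x a
          · exact Or.inl h3
          · by_cases h4 : y = x ∨ A y x
            · rcases h4 with h4 | h4
              · rw [h4] at h3
                exact absurd (LAY_.mem_cb_self x a) h3
              · exact Or.inr ⟨Finset.mem_univ _, h4⟩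
            · exact absurd ⟨h3, h4⟩ h
        · rintro (h | h)
          · exact ⟨Finset.mem_univ _, fun h3 => h3.1 h⟩
          · exact ⟨Finset.mem_univ _, fun h3 => h3.2 (Or.inr h.2)⟩
      have h3 : Disjoint (LAY_.cb A x a) (Finset.univ.filter fun y => A y x) := by
        rw [Finset.disjoint_left]
        intro y hy hy'
        rw [Finset.mem_filter] at hy'
        have := hdisj x y hy (Or.inr hy'.2)
        exact hirr x (this ▸ hy'.2)
      rw [h2, Finset.card_union_of_disjoint h3, hin x]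
    rw [Finset.sum_congr rfl h1, Finset.sum_add_distrib, Finset.sum_const, Finset.card_univ,
      smul_eq_mul]
  rw [hF'] at hF
  rw [hN'] at hN
  -- the real form
  have hsr : (∑ w, ((⌊r w⌋₊ : ℕ) : ℝ)) ≤ P A a - Fintype.card V * ((a * k - E a * k)) := by
    have h1 : (∑ w, ((⌊r w⌋₊ : ℕ) : ℝ)) ≤ ∑ w, r w :=
      Finset.sum_le_sum fun w _ => Nat.floor_le (hr0 w)
    refine h1.trans (le_of_eq ?_)
    have h2 : (∑ x, ((LAY_.cb (fun a b => A b a) x a).card : ℝ)) =
        ∑ x, ((LAY_.cb A x a).card : ℝ) := by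
      exact_mod_cast THC_.sum_flip (A := A) a
    rw [hr]
    simp only [Finset.sum_sub_distrib, h2, Finset.sum_const, Finset.card_univ, nsmul_eq_mul, P]
    ring
  have hsr' : (∑ w, ((⌊r' w⌋₊ : ℕ) : ℝ)) ≤ P A a - Fintype.card V * ((a * k - E a * k)) := by
    have h1 : (∑ w, ((⌊r' w⌋₊ : ℕ) : ℝ)) ≤ ∑ w, r' w :=
      Finset.sum_le_sum fun w _ => Nat.floor_le (hr0' w)
    refine h1.trans (le_of_eq ?_)
    rw [hr']
    simp only [Finset.sum_sub_distrib, Finset.sum_const, Finset.card_univ, nsmul_eq_mul, P]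
    ring
  obtain ⟨FF, hFF⟩ : ∃ FF, FF = Fintype.card {p : V × V // FarP (fun x y => y ∈ LAY_.cb A x a)
      (fun x y => x = y ∨ A x y) p.1 p.2} := ⟨_, rfl⟩
  obtain ⟨NN, hNN⟩ : ∃ NN, NN = Fintype.card {p : V × V // NadP (fun x y => y ∈ LAY_.cb A x a)
      (fun x y => x = y ∨ A x y) p.1 p.2} := ⟨_, rfl⟩
  have key' : 2 * (M * FF) ≤ 2 * (M * NN) + c * ((∑ w, ⌊r w⌋₊) + ∑ w, ⌊r' w⌋₊) := by
    rw [hFF, hNN]
    exact key
  rw [← hFF] at hF
  rw [← hNN] at hN
  have k1 : 2 * ((M : ℝ) * FF) ≤ 2 * (M * NN) + c * ((∑ w, ((⌊r w⌋₊ : ℕ) : ℝ)) +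
      ∑ w, ((⌊r' w⌋₊ : ℕ) : ℝ)) := by exact_mod_cast key'
  have k2 : (FF : ℝ) + ∑ x, ((LAY_.cb A x (a + 1)).card : ℝ) = Fintype.card V * Fintype.card V := by
    exact_mod_cast hF
  have k3 : (NN : ℝ) + ((∑ x, ((LAY_.cb A x a).card : ℝ)) + Fintype.card V * k) =
      Fintype.card V * Fintype.card V := by
    exact_mod_cast hN
  have k4 : (c : ℝ) * ((∑ w, ((⌊r w⌋₊ : ℕ) : ℝ)) + ∑ w, ((⌊r' w⌋₊ : ℕ) : ℝ)) ≤
      c * (2 * (P A a - Fintype.card V * ((a * k - E a * k)))) :=
    mul_le_mul_of_nonneg_left (by linarith) (Nat.cast_nonneg _)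
  have k5 : (M : ℝ) * FF ≤ M * (NN + γ * (P A a - Fintype.card V * ((a * k - E a * k)))) := by
    rw [← hγM] at k4 k1
    nlinarith
  have k6 := le_of_mul_le_mul_left k5 hM0
  have k7 : P A a = (∑ x, ((LAY_.cb A x a).card : ℝ)) - Fintype.card V := rfl
  have k8 : P A (a + 1) = (∑ x, ((LAY_.cb A x (a + 1)).card : ℝ)) - Fintype.card V := rfl
  nlinarith

/-- the coefficients `p_a` -/
def pE (γ : ℝ) (E : ℕ → ℝ) : ℕ → ℝ
  | 0 => 0
  | a + 1 => (1 - γ) * pE γ E a + 1 + γ * (a - E a)

/-- the number of pairs at distance `1, ..., a` -/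
lemma P_ge (hPKER : SpecPKER) {M c : ℕ} (hM : 1 ≤ M) (hcM : c ≤ M) (hγM : γ * M = c) (hk : 1 ≤ k)
    (hγ1 : γ ≤ 1)
    (hcl : NoCl A m) (hbd : ∀ T : Finset V, Bd A γ T)
    (hbd' : ∀ T : Finset V, Bd (fun a b => A b a) γ T) (hch : ChainB A k J E)
    (hch' : ChainB (fun a b => A b a) k J E)
    (hout : ∀ v, (Finset.univ.filter fun u => A v u).card = k)
    (hin : ∀ v, (Finset.univ.filter fun u => A u v).card = k) (a : ℕ) (ha : a ≤ m)
    (haJ : a ≤ J + 1) :
    pE γ E a * (Fintype.card V * k) ≤ P A a := by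
  induction a with
  | zero =>
    have h1 : P A 0 = 0 := by
      unfold P LAY_.cb
      simp
    rw [h1, pE]
    simp
  | succ a ih =>
    have h1 := step hPKER hM hcM hγM hk hcl hbd hbd' hch hch' hout hin a ha (by omega)
    have h2 := ih (by omega) (by omega)
    have h3 := mul_le_mul_of_nonneg_left h2 (by linarith : (0 : ℝ) ≤ 1 - γ)
    have h4 : pE γ E (a + 1) = (1 - γ) * pE γ E a + 1 + γ * (a - E a) := rfl
    rw [h4]
    nlinarith

/-- the order of a diregular digraph in terms of its cuts -/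
theorem order [Nonempty V] (hPKER : SpecPKER) {M c : ℕ} (hM : 1 ≤ M) (hcM : c ≤ M) (hγM : γ * M = c)
    (hk : 1 ≤ k) (hγ1 : γ ≤ 1)
    (hcl : NoCl A m) (hbd : ∀ T : Finset V, Bd A γ T)
    (hbd' : ∀ T : Finset V, Bd (fun a b => A b a) γ T) (hch : ChainB A k J E)
    (hch' : ChainB (fun a b => A b a) k J E)
    (hout : ∀ v, (Finset.univ.filter fun u => A v u).card = k)
    (hin : ∀ v, (Finset.univ.filter fun u => A u v).card = k) (i j : ℕ) (hij : i + j ≤ m)
    (hi : i ≤ J + 1) (hj : j ≤ J + 1) :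
    (pE γ E i + pE γ E j) * k + 1 ≤ (Fintype.card V : ℝ) := by
  classical
  have h1 := P_ge hPKER hM hcM hγM hk hγ1 hcl hbd hbd' hch hch' hout hin i (by omega) hi
  have h2 := P_ge hPKER hM hcM hγM hk hγ1 hcl hbd hbd' hch hch' hout hin j (by omega) hj
  have h3 := Finset.sum_le_sum fun x (_ : x ∈ (Finset.univ : Finset V)) =>
    THB_.count2 hcl i j hij x
  have h4 : (∑ x, ((LAY_.cb (fun a b => A b a) x j).card : ℝ)) =
      ∑ x, ((LAY_.cb A x j).card : ℝ) := by
    exact_mod_cast THC_.sum_flip (A := A) j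
  obtain ⟨n, hn⟩ : ∃ n : ℝ, n = (Fintype.card V : ℝ) := ⟨_, rfl⟩
  simp only [Finset.sum_add_distrib, Finset.sum_sub_distrib, h4, Finset.sum_const,
    Finset.card_univ, nsmul_eq_mul, mul_one] at h3
  unfold P at h1 h2
  rw [← hn] at h1 h2 h3 ⊢
  have hn0 : 0 < n := by
    rw [hn]
    exact_mod_cast Fintype.card_pos
  have h5 : n * ((pE γ E i + pE γ E j) * k + 1) ≤ n * n := by nlinarith
  exact le_of_mul_le_mul_left h5 hn0

end THH_

end Pool.Agent.Lib.MP_83608f_co.CN
end
end

section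
/-! MP_83608f_co, part CN, module TOPG (helper58): a numerical certificate for `m` gives `n ≥ (m-1) k + 1`. -/
set_option autoImplicit false

open Classical

noncomputable section

namespace Pool.Agent.Lib.MP_83608f_co.CN

lemma pE_eq (γ : ℝ) (E : ℕ → ℝ) (a : ℕ) : THH_.pE γ E a = pE γ E a := by
  induction a with
  | zero => rfl
  | succ a ih =>
    rw [THH_.pE, pE, ih]

/-- a numerical certificate gives the bound -/
theorem topG {V : Type} [Fintype V] [Nonempty V] {A : V → V → Prop} {k m : ℕ} (hm : 1 ≤ m)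
    (hk : 1 ≤ k) (hcl : NoCl A m) (hout : ∀ v, (Finset.univ.filter fun u => A v u).card = k)
    (hin : ∀ v, (Finset.univ.filter fun u => A u v).card = k) (hc : HasCert m) :
    (m - 1) * k + 1 ≤ Fintype.card V := by
  classical
  rcases Nat.eq_or_lt_of_le hk with hk1 | hk2
  · have h1 := one hcl (fun v => by rw [hout v]; exact hk)
    rw [← hk1]
    omega
  obtain ⟨γ, M, c, i, j, J, a, b, C, φ, X, S, h⟩ := hc
  by_contra hlt
  have hn : Fintype.card V ≤ (m - 1) * k := by omega
  have hm1 : ((m - 1 : ℕ) : ℝ) = (m : ℝ) - 1 := by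
    rw [Nat.cast_sub hm]
    simp
  have hnR : (Fintype.card V : ℝ) ≤ ((m : ℝ) - 1) * k := by
    rw [← hm1]
    exact_mod_cast hn
  have hclf := CUT_.nocl_flip hcl
  have hcut : CutB A k (φ 1) :=
    cutL i j (h.hnum 1 (le_refl _) h.hJ) h.hij hk2 hcl hout hin hnR h.htop
  have hcutf : CutB (fun a b => A b a) k (φ 1) := THD_.cut_flip hcut
  have hfr : ∀ N, 2 ≤ N → N ≤ J → FragB A k (φ N) (X N) := fun N h1 h2 =>
    fragL i j (h.hnum N (by omega) h2) h.hij hk2 hcl hout hin
  have hfrf : ∀ N, 2 ≤ N → N ≤ J → FragB (fun a b => A b a) k (φ N) (X N) := fun N h1 h2 =>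
    fragL i j (h.hnum N (by omega) h2) h.hij hk2 hclf hin hout
  have hφ : ∀ N, 1 ≤ N → N ≤ J → 0 ≤ φ N := fun N h1 h2 => (h.hnum N h1 h2).hη.le
  have h1 := THH_.order (J := J) (E := S) specPKER h.hM h.hcM h.hγM hk h.hγ1 hcl
    (fun T => THA_.bd_of (n := T.card + 1) (fun j _ => h.hB j) hcl T (by omega))
    (fun T => THA_.bd_of (n := T.card + 1) (fun j _ => h.hB j) hclf T (by omega))
    (fun W hW a ha v hv => chainS hk J φ S X ((m : ℝ) - 1) hφ h.hS0 h.hS hnR hcut hfr hfrf h.hch W hW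
      v a ha hv)
    (fun W hW a ha v hv => chainS hk J φ S X ((m : ℝ) - 1) hφ h.hS0 h.hS hnR hcutf hfrf hfr h.hch W hW
      v a ha hv) hout hin a b h.hab.le h.ha h.hb
  rw [pE_eq, pE_eq] at h1
  have hk0 : (0 : ℝ) ≤ k := Nat.cast_nonneg _
  have h2 := mul_le_mul_of_nonneg_right h.hp hk0
  linarith

end Pool.Agent.Lib.MP_83608f_co.CN
end
end

section
/-! MP_83608f_co, part CN, module TOPH (helper58): `n ≥ (m-1) k + 1` for all `m`, from the certificates for `m ≥ 10`. -/
set_option autoImplicit false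

open Classical

noncomputable section

namespace Pool.Agent.Lib.MP_83608f_co.CN

open Top_

namespace TOPH_

variable {V : Type} [Fintype V] [Nonempty V] {A : V → V → Prop} {k m : ℕ}

omit [Nonempty V] in
lemma of_real {t : ℝ} (hm : 1 ≤ m) (hk : 1 ≤ k) (ht : (m : ℝ) - 1 < t) (h : t * k ≤ Fintype.card V) :
    (m - 1) * k + 1 ≤ Fintype.card V := by
  have hk0 : (0 : ℝ) < k := by exact_mod_cast (by omega : 0 < k)
  have h1 : ((m : ℝ) - 1) * k < Fintype.card V := lt_of_lt_of_le (mul_lt_mul_of_pos_right ht hk0) h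
  have h2 : (((m - 1) * k : ℕ) : ℝ) < Fintype.card V := by
    rw [Nat.cast_mul, Nat.cast_sub hm, Nat.cast_one]
    exact h1
  have h3 : (m - 1) * k < Fintype.card V := by exact_mod_cast h2
  omega

omit [Nonempty V] in
lemma cb_one_card (hcl : NoCl A m) (hm : 1 ≤ m) (hout : ∀ v, (Finset.univ.filter fun u => A v u).card = k) (x : V) :
    (k : ℝ) + 1 ≤ (LAY_.cb A x 1).card := by
  classical
  have h2 : {x} ∪ (Finset.univ.filter fun u => A x u) ⊆ LAY_.cb A x 1 := by
    intro z hz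
    rw [Finset.mem_union, Finset.mem_singleton, Finset.mem_filter] at hz
    rcases hz with h | h
    · rw [h]
      exact LAY_.mem_cb_self x 1
    · exact FIN_.mem_outN.2 (Or.inr ⟨x, Finset.mem_singleton_self _, h.2⟩)
  have h3 : Disjoint {x} (Finset.univ.filter fun u => A x u) := by
    rw [Finset.disjoint_singleton_left, Finset.mem_filter]
    exact fun h => hcl 1 (le_refl _) hm x (EM.Wk.one.2 h.2)
  have h4 := Finset.card_le_card h2
  rw [Finset.card_union_of_disjoint h3, Finset.card_singleton, hout x] at h4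
  have h5 : k + 1 ≤ (LAY_.cb A x 1).card := by omega
  exact_mod_cast h5

/-- small `m` -/
lemma small (hm : 1 ≤ m) (hm9 : m ≤ 9) (hk : 1 ≤ k) (hcl : NoCl A m)
    (hout : ∀ v, (Finset.univ.filter fun u => A v u).card = k)
    (hin : ∀ v, (Finset.univ.filter fun u => A u v).card = k) : (m - 1) * k + 1 ≤ Fintype.card V := by
  obtain ⟨x⟩ := ‹Nonempty V›
  have : Nonempty V := ⟨x⟩
  have hn : 1 ≤ Fintype.card V := Fintype.card_pos
  interval_cases m
  · simpa using hn
  · have h1 := cb_one_card hcl (by norm_num) hout x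
    have h2 : ((LAY_.cb A x 1).card : ℝ) ≤ Fintype.card V := by
      exact_mod_cast Finset.card_le_univ _
    have h3 : ((k + 1 : ℕ) : ℝ) ≤ Fintype.card V := by
      push_cast
      linarith
    have h4 : k + 1 ≤ Fintype.card V := by exact_mod_cast h3
    omega
  · have h1 := cb_one_card hcl (by norm_num) hout x
    have h2 := cb_one_card (A := fun a b => A b a) (CUT_.nocl_flip hcl) (by norm_num) hin x
    have h3 := THB_.count2 hcl 1 1 (by norm_num) x
    have h4 : ((2 * k + 1 : ℕ) : ℝ) ≤ Fintype.card V := by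
      push_cast
      linarith
    have h5 : 2 * k + 1 ≤ Fintype.card V := by exact_mod_cast h4
    omega
  · exact of_real (by norm_num) hk (by norm_num) (thg4 hk hcl hout hin)
  · exact of_real (by norm_num) hk (by norm_num) (thg5 hk hcl hout hin)
  · exact of_real (by norm_num) hk (by norm_num) (thg6 hk hcl hout hin)
  · exact of_real (by norm_num) hk (by norm_num) (thg7 hk hcl hout hin)
  · exact of_real (by norm_num) hk (by norm_num) (thg8 hk hcl hout hin)
  · exact of_real (by norm_num) hk (by norm_num) (thg9 hk hcl hout hin)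

end TOPH_

/-- all `m`, from the certificates -/
theorem allm (hcert : ∀ m, 10 ≤ m → HasCert m) {V : Type} [Fintype V] [Nonempty V] {A : V → V → Prop}
    {k m : ℕ} (hm : 1 ≤ m) (hk : 1 ≤ k) (hcl : NoCl A m)
    (hout : ∀ v, (Finset.univ.filter fun u => A v u).card = k)
    (hin : ∀ v, (Finset.univ.filter fun u => A u v).card = k) : (m - 1) * k + 1 ≤ Fintype.card V := by
  rcases Nat.lt_or_ge m 10 with h | h
  · exact TOPH_.small hm (by omega) hk hcl hout hin
  · exact topG hm hk hcl hout hin (hcert m h)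

/-- every `k`-diregular digraph without directed cycles of length less than `g` has at least `(g-2) k + 1` vertices -/
theorem top8 (hcert : ∀ m, 10 ≤ m → HasCert m) (V : Type) [Finite V] [Nonempty V] (G : Digraph V) (k g : ℕ)
    (hout : ∀ v, Nat.card {u // G.Adj v u} = k) (hin : ∀ v, Nat.card {u // G.Adj u v} = k)
    (hgirth : EM.GirthGe G g) : (g - 2) * k + 1 ≤ Nat.card V := by
  have := Fintype.ofFinite V
  have hpos : 1 ≤ Nat.card V := by
    rw [Nat.card_eq_fintype_card]
    exact Fintype.card_pos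
  rcases Nat.lt_or_ge g 2 with hg | hg
  · have : g - 2 = 0 := by omega
    rw [this, zero_mul]
    omega
  rcases Nat.eq_zero_or_pos k with hk | hk
  · rw [hk, mul_zero]
    omega
  obtain ⟨m, rfl⟩ : ∃ m, g = m + 1 := ⟨g - 1, by omega⟩
  have h := allm hcert (A := G.Adj) (m := m) (by omega) hk (noCl hgirth) (out_card hout) (in_card hin)
  rw [Nat.card_eq_fintype_card]
  have e : m + 1 - 2 = m - 1 := by omega
  rw [e]
  exact h

end Pool.Agent.Lib.MP_83608f_co.CN
end
end

section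
/-! MP_83608f_co, part CN, module TOPT (helper56): bounds `n ≥ t k` from chains of cuts, three kinds of bounds for the
sides of a cut. -/
set_option autoImplicit false

open Classical

noncomputable section

namespace Pool.Agent.Lib.MP_83608f_co.CN

/-- the numerical conditions for a fragment bound from the subgraph induced by a side, `H = (1-γ)^i + (1-γ)^j` -/
structure NumS (γ H η X : ℝ) : Prop where
  hη : 0 ≤ η
  hH : 0 ≤ H
  hH2 : H ≤ 2
  hX : η ≤ γ * X
  c1 : η ^ 2 - (γ * H + η * (2 - H)) * η + γ ^ 2 * H * (1 - η) ≤ 0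
  c2 : γ * X ^ 2 - (γ * H + η * (2 - H)) * X + γ * H * (1 - η) ≤ 0

namespace TOPT_

/-- the arithmetic -/
lemma arith {γ H η X k e o : ℝ} (hγ : 0 < γ) (hk : 0 < k) (he : η * k < e)
    (ho : e ≤ γ * o) (hF : γ * H * (k * o - k * (k - e)) + e * (2 - H) * o < γ * (o * o))
    (hN : NumS γ H η X) : X * k ≤ o := by
  by_contra hlt
  push Not at hlt
  have hη := hN.hη
  have hηk : 0 ≤ η * k := mul_nonneg hη hk.le
  have ho0 : 0 < o := by
    have : 0 < γ * o := by linarith
    exact (mul_pos_iff_of_pos_left hγ).1 this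
  -- the value at `o`
  have h1 : 0 ≤ (e - η * k) * (2 - H) * o :=
    mul_nonneg (mul_nonneg (by linarith) (by linarith [hN.hH2])) ho0.le
  have h2 : 0 ≤ γ * H * (k * (e - η * k)) :=
    mul_nonneg (mul_nonneg hγ.le hN.hH) (mul_nonneg hk.le (by linarith))
  have h3 : 0 < γ * o ^ 2 - (γ * H + η * (2 - H)) * k * o + γ * H * (1 - η) * k ^ 2 := by nlinarith
  -- the value at the left end, times `γ`
  have h4 : (η * k) ^ 2 - (γ * H + η * (2 - H)) * k * (η * k) + γ ^ 2 * H * (1 - η) * k ^ 2 ≤ 0 := by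
    have := mul_nonpos_of_nonpos_of_nonneg hN.c1 (sq_nonneg k)
    nlinarith
  have h5 : γ * (X * k) ^ 2 - (γ * H + η * (2 - H)) * k * (X * k) + γ * H * (1 - η) * k ^ 2 ≤ 0 := by
    have := mul_nonpos_of_nonpos_of_nonneg hN.c2 (sq_nonneg k)
    nlinarith
  obtain ⟨b, hb⟩ : ∃ b, b = (γ * H + η * (2 - H)) * k := ⟨_, rfl⟩
  obtain ⟨c, hc⟩ : ∃ c, c = γ * H * (1 - η) * k ^ 2 := ⟨_, rfl⟩
  obtain ⟨L, hL⟩ : ∃ L, L = η * k := ⟨_, rfl⟩
  obtain ⟨R, hR⟩ : ∃ R, R = X * k := ⟨_, rfl⟩
  rw [← hb, ← hc] at h3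
  have h4' : L ^ 2 - b * L + γ * c ≤ 0 := by
    rw [hL, hb, hc]
    nlinarith
  rw [← hb, ← hc, ← hR] at h5
  rw [← hR] at hlt
  rw [← hL] at he
  have h6 : L < γ * o := by linarith
  -- convexity
  have h7 : γ * ((γ * R - L) * (γ * o ^ 2 - b * o + c)) =
      γ * (R - o) * (L ^ 2 - b * L + γ * c) + γ * (γ * o - L) * (γ * R ^ 2 - b * R + c) -
        γ * γ * ((γ * R - L) * ((R - o) * (o - L / γ))) := by
    field_simp
    ring
  have h8 : 0 < γ * R - L := by nlinarith
  have h9 : 0 < γ * ((γ * R - L) * (γ * o ^ 2 - b * o + c)) := mul_pos hγ (mul_pos h8 h3)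
  have h10 : γ * (R - o) * (L ^ 2 - b * L + γ * c) ≤ 0 :=
    mul_nonpos_of_nonneg_of_nonpos (mul_nonneg hγ.le (by linarith)) h4'
  have h11 : γ * (γ * o - L) * (γ * R ^ 2 - b * R + c) ≤ 0 :=
    mul_nonpos_of_nonneg_of_nonpos (mul_nonneg hγ.le (by linarith)) h5
  have h12 : 0 ≤ o - L / γ := by
    rw [sub_nonneg, div_le_iff₀ hγ]
    linarith
  have h13 : 0 ≤ γ * γ * ((γ * R - L) * ((R - o) * (o - L / γ))) :=
    mul_nonneg (mul_nonneg hγ.le hγ.le) (mul_nonneg h8.le (mul_nonneg (by linarith) h12))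
  linarith

end TOPT_

/-- the bound for the sides of a cut, from the induced subgraph -/
theorem fragS {V : Type} [Fintype V] {A : V → V → Prop} {k m : ℕ} {γ η X : ℝ} (hγ : 0 < γ) (hγ1 : γ ≤ 1)
    (hB : ∀ n, BdAll m γ n) (i j : ℕ) (hN : NumS γ ((1 - γ) ^ i + (1 - γ) ^ j) η X)
    (hij : i + j + 2 ≤ m) (hk : 1 ≤ k) (hcl : NoCl A m)
    (hout : ∀ v, (Finset.univ.filter fun u => A v u).card = k)
    (hin : ∀ v, (Finset.univ.filter fun u => A u v).card = k) : FragB A k η X := by
  intro O S U hO _ _ hcut _ hlt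
  have hk0 : (0 : ℝ) < k := by exact_mod_cast (by omega : 0 < k)
  have hηk : 0 ≤ η * k := mul_nonneg hN.hη hk0.le
  have hS : S.card ≤ k := by
    have : (S.card : ℝ) ≤ k := by linarith
    exact_mod_cast this
  have s1 := THF_.side hγ hγ1 hB hcl i j hij hout hin O S hO hS hcut
  have e1 : (k : ℝ) - (k - S.card) = S.card := by ring
  refine TOPT_.arith (e := (k : ℝ) - S.card) hγ hk0 hlt s1.1 ?_ hN
  rw [e1]
  exact s1.2

/-- a bound for the sides of the cuts of excess more than `η k`, one of two kinds -/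
def NumA (m : ℕ) (γ η X : ℝ) : Prop :=
  (∃ i j, i + j + 2 ≤ m ∧ NumS γ ((1 - γ) ^ i + (1 - γ) ^ j) η X) ∨
  (∃ (C : ℝ) (i j : ℕ), i + j + 2 ≤ m ∧ NumF C η X i j)

/-- the bound for the sides -/
theorem fragA {V : Type} [Fintype V] {A : V → V → Prop} {k m : ℕ} {γ η X : ℝ} (hγ : 0 < γ) (hγ1 : γ ≤ 1)
    (hB : ∀ n, BdAll m γ n) (hN : NumA m γ η X) (hk : 1 ≤ k) (hcl : NoCl A m)
    (hout : ∀ v, (Finset.univ.filter fun u => A v u).card = k)
    (hin : ∀ v, (Finset.univ.filter fun u => A u v).card = k) : FragB A k η X := by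
  rcases hN with ⟨i, j, hij, h⟩ | ⟨C, i, j, hij, h⟩
  · exact fragS hγ hγ1 hB i j h hij hk hcl hout hin
  · exact frag i j h hij hk hcl hout hin

/-- no cut has excess more than `η k` if `n < t k`, numerical conditions -/
def NumC (m : ℕ) (γ t η : ℝ) : Prop :=
  (∃ i j, i + j + 2 ≤ m ∧ THF_.Num γ ((1 - γ) ^ i + (1 - γ) ^ j) t η) ∨
  (∃ (C X : ℝ) (i j : ℕ), i + j + 2 ≤ m ∧ NumF C η X i j ∧ t < 2 * X + 1 - η)

/-- the bound for the excess of the cuts -/
theorem cutA {V : Type} [Fintype V] {A : V → V → Prop} {k m : ℕ} {γ η t : ℝ}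
    (hB : ∀ n, BdAll m γ n) (hN : NumC m γ t η) (hk : 1 ≤ k) (hcl : NoCl A m)
    (hout : ∀ v, (Finset.univ.filter fun u => A v u).card = k)
    (hin : ∀ v, (Finset.univ.filter fun u => A u v).card = k)
    (hn : (Fintype.card V : ℝ) < t * k) : CutB A k η := by
  rcases hN with ⟨i, j, hij, h⟩ | ⟨C, X, i, j, hij, h, ht⟩
  · exact THF_.cutB hB hk hcl i j hij h hout hin hn
  · exact cutF i j h hij hk hcl hout hin hn.le ht

/-- the numerical certificate for `n ≥ t k` -/
structure CertT (m : ℕ) (t γ : ℝ) (M c J a b : ℕ) (φ X S : ℕ → ℝ) : Prop where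
  hM : 1 ≤ M
  hcM : c ≤ M
  hγM : γ * M = c
  hγ : 0 < γ
  hγ1 : γ ≤ 1
  hB : ∀ n, BdAll m γ n
  hφ : ∀ N, 1 ≤ N → N ≤ J → 0 ≤ φ N
  hcut : NumC m γ t (φ 1)
  hnum : ∀ N, 2 ≤ N → N ≤ J → NumA m γ (φ N) (X N)
  hS0 : S 0 = 0
  hS : ∀ N, N + 1 ≤ J → S (N + 1) = S N + φ (N + 1)
  hch : ∀ N, 1 ≤ N → N + 1 ≤ J → t - 1 + φ 1 - (N - S N) < 2 * X (N + 1)
  hab : a + b ≤ m
  ha : a ≤ J + 1
  hb : b ≤ J + 1
  hp : t ≤ pE γ S a + pE γ S b

/-- a numerical certificate gives the bound -/
theorem topT {V : Type} [Fintype V] [Nonempty V] {A : V → V → Prop} {k m : ℕ} {t γ : ℝ}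
    {M c J a b : ℕ} {φ X S : ℕ → ℝ} (h : CertT m t γ M c J a b φ X S)
    (hk : 1 ≤ k) (hcl : NoCl A m) (hout : ∀ v, (Finset.univ.filter fun u => A v u).card = k)
    (hin : ∀ v, (Finset.univ.filter fun u => A u v).card = k) : t * k ≤ (Fintype.card V : ℝ) := by
  classical
  by_contra hlt
  push Not at hlt
  have hclf := CUT_.nocl_flip hcl
  have hcut : CutB A k (φ 1) := cutA h.hB h.hcut hk hcl hout hin hlt
  have hcutf : CutB (fun a b => A b a) k (φ 1) := THD_.cut_flip hcut
  have hfr : ∀ N, 2 ≤ N → N ≤ J → FragB A k (φ N) (X N) := fun N h1 h2 =>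
    fragA h.hγ h.hγ1 h.hB (h.hnum N h1 h2) hk hcl hout hin
  have hfrf : ∀ N, 2 ≤ N → N ≤ J → FragB (fun a b => A b a) k (φ N) (X N) := fun N h1 h2 =>
    fragA h.hγ h.hγ1 h.hB (h.hnum N h1 h2) hk hclf hin hout
  have h1 := THH_.order (J := J) (E := S) specPKER h.hM h.hcM h.hγM hk h.hγ1 hcl
    (fun T => THA_.bd_of (n := T.card + 1) (fun j _ => h.hB j) hcl T (by omega))
    (fun T => THA_.bd_of (n := T.card + 1) (fun j _ => h.hB j) hclf T (by omega))
    (fun W hW a ha v hv => chainS hk J φ S X t h.hφ h.hS0 h.hS hlt.le hcut hfr hfrf h.hch W hW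
      v a ha hv)
    (fun W hW a ha v hv => chainS hk J φ S X t h.hφ h.hS0 h.hS hlt.le hcutf hfrf hfr h.hch W hW
      v a ha hv) hout hin a b h.hab h.ha h.hb
  rw [pE_eq, pE_eq] at h1
  have hk0 : (0 : ℝ) ≤ k := Nat.cast_nonneg _
  have h2 := mul_le_mul_of_nonneg_right h.hp hk0
  linarith

end Pool.Agent.Lib.MP_83608f_co.CN
end
end

section
/-! MP_83608f_co, part CN, module TOPU (helper56): the certificates for the girths `5, ..., 14`. -/
set_option autoImplicit false

open Classical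

noncomputable section

namespace Pool.Agent.Lib.MP_83608f_co.CN

namespace TOPU_

/-- a finite list as a sequence -/
def sq (l : List ℝ) (N : ℕ) : ℝ := l.getD N 0

variable {V : Type} [Fintype V] [Nonempty V] {A : V → V → Prop} {k : ℕ}

/-- no closed walks of length `1, ..., 4` -/
lemma cert4 : CertT 4 3.799 0.27789 100000 27789 1 2 2 (sq [0, 0.3603])
    (sq [0, 1.5801]) (sq [0, 0.3603]) where
  hM := by norm_num
  hcM := by norm_num
  hγM := by norm_num
  hγ := by norm_num
  hγ1 := by norm_num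
  hB := fun n => bdAll2 (by norm_num) (by norm_num) 0 0 (by norm_num) (by norm_num) n
  hφ := fun N h1 h2 => by interval_cases N <;> norm_num [sq]
  hcut := Or.inl ⟨1, 1, by norm_num, by constructor <;> norm_num [sq]⟩
  hnum := fun N h1 h2 => by omega
  hS0 := by norm_num [sq]
  hS := fun N h => by
    have : N < 1 := by omega
    interval_cases N <;> norm_num [sq]
  hch := fun N h1 h2 => by omega
  hab := by norm_num
  ha := by norm_num
  hb := by norm_num
  hp := by norm_num [pE, sq]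

/-- no closed walks of length `1, ..., 5` -/
lemma cert5 : CertT 5 4.663 0.23782 100000 23782 2 2 3 (sq [0, 0.3935, 0.3278])
    (sq [0, 2.0284, 1.7252]) (sq [0, 0.3935, 0.7213]) where
  hM := by norm_num
  hcM := by norm_num
  hγM := by norm_num
  hγ := by norm_num
  hγ1 := by norm_num
  hB := fun n => bdAll2 (by norm_num) (by norm_num) 1 0 (by norm_num) (by norm_num) n
  hφ := fun N h1 h2 => by interval_cases N <;> norm_num [sq]
  hcut := Or.inl ⟨2, 1, by norm_num, by constructor <;> norm_num [sq]⟩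
  hnum := fun N h1 h2 => by
    interval_cases N
    · exact Or.inl ⟨2, 1, by norm_num, by constructor <;> norm_num [sq]⟩
  hS0 := by norm_num [sq]
  hS := fun N h => by
    have : N < 2 := by omega
    interval_cases N <;> norm_num [sq]
  hch := fun N h1 h2 => by
    have : N < 2 := by omega
    interval_cases N <;> norm_num [sq]
  hab := by norm_num
  ha := by norm_num
  hb := by norm_num
  hp := by norm_num [pE, sq]

/-- no closed walks of length `1, ..., 6` -/
lemma cert6 : CertT 6 5.547 0.2028 100000 20280 2 3 3 (sq [0, 0.42, 0.3599])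
    (sq [0, 2.4839, 2.1938]) (sq [0, 0.42, 0.7799]) where
  hM := by norm_num
  hcM := by norm_num
  hγM := by norm_num
  hγ := by norm_num
  hγ1 := by norm_num
  hB := fun n => bdAll2 (by norm_num) (by norm_num) 1 1 (by norm_num) (by norm_num) n
  hφ := fun N h1 h2 => by interval_cases N <;> norm_num [sq]
  hcut := Or.inl ⟨2, 2, by norm_num, by constructor <;> norm_num [sq]⟩
  hnum := fun N h1 h2 => by
    interval_cases N
    · exact Or.inl ⟨2, 2, by norm_num, by constructor <;> norm_num [sq]⟩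
  hS0 := by norm_num [sq]
  hS := fun N h => by
    have : N < 2 := by omega
    interval_cases N <;> norm_num [sq]
  hch := fun N h1 h2 => by
    have : N < 2 := by omega
    interval_cases N <;> norm_num [sq]
  hab := by norm_num
  ha := by norm_num
  hb := by norm_num
  hp := by norm_num [pE, sq]

/-- no closed walks of length `1, ..., 7` -/
lemma cert7 : CertT 7 6.396 0.17881 100000 17881 3 3 4 (sq [0, 0.4462, 0.3934, 0.3383])
    (sq [0, 2.9214, 2.6446, 2.3413]) (sq [0, 0.4462, 0.8396, 1.1779]) where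
  hM := by norm_num
  hcM := by norm_num
  hγM := by norm_num
  hγ := by norm_num
  hγ1 := by norm_num
  hB := fun n => bdAll2 (by norm_num) (by norm_num) 2 1 (by norm_num) (by norm_num) n
  hφ := fun N h1 h2 => by interval_cases N <;> norm_num [sq]
  hcut := Or.inl ⟨3, 2, by norm_num, by constructor <;> norm_num [sq]⟩
  hnum := fun N h1 h2 => by
    interval_cases N
    · exact Or.inl ⟨3, 2, by norm_num, by constructor <;> norm_num [sq]⟩
    · exact Or.inl ⟨3, 2, by norm_num, by constructor <;> norm_num [sq]⟩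
  hS0 := by norm_num [sq]
  hS := fun N h => by
    have : N < 3 := by omega
    interval_cases N <;> norm_num [sq]
  hch := fun N h1 h2 => by
    have : N < 3 := by omega
    interval_cases N <;> norm_num [sq]
  hab := by norm_num
  ha := by norm_num
  hb := by norm_num
  hp := by norm_num [pE, sq]

/-- no closed walks of length `1, ..., 8` -/
lemma cert8 : CertT 8 7.267 0.15794 100000 15794 3 4 4 (sq [0, 0.4629, 0.417, 0.3685])
    (sq [0, 3.3654, 3.0969, 2.8055]) (sq [0, 0.4629, 0.8799, 1.2484]) where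
  hM := by norm_num
  hcM := by norm_num
  hγM := by norm_num
  hγ := by norm_num
  hγ1 := by norm_num
  hB := fun n => bdAll2 (by norm_num) (by norm_num) 2 2 (by norm_num) (by norm_num) n
  hφ := fun N h1 h2 => by interval_cases N <;> norm_num [sq]
  hcut := Or.inl ⟨3, 3, by norm_num, by constructor <;> norm_num [sq]⟩
  hnum := fun N h1 h2 => by
    interval_cases N
    · exact Or.inl ⟨3, 3, by norm_num, by constructor <;> norm_num [sq]⟩
    · exact Or.inl ⟨3, 3, by norm_num, by constructor <;> norm_num [sq]⟩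
  hS0 := by norm_num [sq]
  hS := fun N h => by
    have : N < 3 := by omega
    interval_cases N <;> norm_num [sq]
  hch := fun N h1 h2 => by
    have : N < 3 := by omega
    interval_cases N <;> norm_num [sq]
  hab := by norm_num
  ha := by norm_num
  hb := by norm_num
  hp := by norm_num [pE, sq]

/-- no closed walks of length `1, ..., 9` -/
lemma cert9 : CertT 9 8.159 0.14257 100000 14257 4 4 5 (sq [0, 0.4603, 0.4105, 0.3698, 0.3362])
    (sq [0, 3.8097, 3.5405, 3.246, 2.9311]) (sq [0, 0.4603, 0.8708, 1.2406, 1.5768]) where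
  hM := by norm_num
  hcM := by norm_num
  hγM := by norm_num
  hγ := by norm_num
  hγ1 := by norm_num
  hB := fun n => bdAll2 (by norm_num) (by norm_num) 3 2 (by norm_num) (by norm_num) n
  hφ := fun N h1 h2 => by interval_cases N <;> norm_num [sq]
  hcut := Or.inr ⟨4.9, 3.8097, 4, 3, by norm_num, by constructor <;> norm_num [sq], by norm_num [sq]⟩
  hnum := fun N h1 h2 => by
    interval_cases N
    · exact Or.inr ⟨4.96, 4, 3, by norm_num, by constructor <;> norm_num [sq]⟩
    · exact Or.inr ⟨5.015, 4, 3, by norm_num, by constructor <;> norm_num [sq]⟩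
    · exact Or.inr ⟨5.06, 4, 3, by norm_num, by constructor <;> norm_num [sq]⟩
  hS0 := by norm_num [sq]
  hS := fun N h => by
    have : N < 4 := by omega
    interval_cases N <;> norm_num [sq]
  hch := fun N h1 h2 => by
    have : N < 4 := by omega
    interval_cases N <;> norm_num [sq]
  hab := by norm_num
  ha := by norm_num
  hb := by norm_num
  hp := by norm_num [pE, sq]

/-- no closed walks of length `1, ..., 10` -/
lemma cert10 : CertT 10 9.144 0.12896 100000 12896 4 5 5 (sq [0, 0.4231, 0.3754, 0.3375, 0.3065])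
    (sq [0, 4.2838, 3.9958, 3.6836, 3.3523]) (sq [0, 0.4231, 0.7985, 1.136, 1.4425]) where
  hM := by norm_num
  hcM := by norm_num
  hγM := by norm_num
  hγ := by norm_num
  hγ1 := by norm_num
  hB := fun n => bdAll2 (by norm_num) (by norm_num) 3 3 (by norm_num) (by norm_num) n
  hφ := fun N h1 h2 => by interval_cases N <;> norm_num [sq]
  hcut := Or.inr ⟨5.54, 4.2838, 4, 4, by norm_num, by constructor <;> norm_num [sq], by norm_num [sq]⟩
  hnum := fun N h1 h2 => by
    interval_cases N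
    · exact Or.inr ⟨5.62, 4, 4, by norm_num, by constructor <;> norm_num [sq]⟩
    · exact Or.inr ⟨5.685, 4, 4, by norm_num, by constructor <;> norm_num [sq]⟩
    · exact Or.inr ⟨5.74, 4, 4, by norm_num, by constructor <;> norm_num [sq]⟩
  hS0 := by norm_num [sq]
  hS := fun N h => by
    have : N < 4 := by omega
    interval_cases N <;> norm_num [sq]
  hch := fun N h1 h2 => by
    have : N < 4 := by omega
    interval_cases N <;> norm_num [sq]
  hab := by norm_num
  ha := by norm_num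
  hb := by norm_num
  hp := by norm_num [pE, sq]

/-- no closed walks of length `1, ..., 11` -/
lemma cert11 : CertT 11 10.109 0.11839 100000 11839 5 5 6 (sq [0, 0.3965, 0.3507, 0.3151, 0.2862, 0.2621])
    (sq [0, 4.7533, 4.4514, 4.1267, 3.7851, 3.4273]) (sq [0, 0.3965, 0.7472, 1.0623, 1.3485, 1.6106]) where
  hM := by norm_num
  hcM := by norm_num
  hγM := by norm_num
  hγ := by norm_num
  hγ1 := by norm_num
  hB := fun n => bdAll2 (by norm_num) (by norm_num) 4 3 (by norm_num) (by norm_num) n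
  hφ := fun N h1 h2 => by interval_cases N <;> norm_num [sq]
  hcut := Or.inr ⟨6.145, 4.7533, 5, 4, by norm_num, by constructor <;> norm_num [sq], by norm_num [sq]⟩
  hnum := fun N h1 h2 => by
    interval_cases N
    · exact Or.inr ⟨6.24, 5, 4, by norm_num, by constructor <;> norm_num [sq]⟩
    · exact Or.inr ⟨6.31, 5, 4, by norm_num, by constructor <;> norm_num [sq]⟩
    · exact Or.inr ⟨6.37, 5, 4, by norm_num, by constructor <;> norm_num [sq]⟩
    · exact Or.inr ⟨6.42, 5, 4, by norm_num, by constructor <;> norm_num [sq]⟩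
  hS0 := by norm_num [sq]
  hS := fun N h => by
    have : N < 5 := by omega
    interval_cases N <;> norm_num [sq]
  hch := fun N h1 h2 => by
    have : N < 5 := by omega
    interval_cases N <;> norm_num [sq]
  hab := by norm_num
  ha := by norm_num
  hb := by norm_num
  hp := by norm_num [pE, sq]

/-- no closed walks of length `1, ..., 12` -/
lemma cert12 : CertT 12 11.105 0.10886 100000 10886 5 6 6 (sq [0, 0.3667, 0.3245, 0.2918, 0.2653, 0.2435])
    (sq [0, 5.2364, 4.9199, 4.5824, 4.2275, 3.8612]) (sq [0, 0.3667, 0.6912, 0.983, 1.2483, 1.4918]) where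
  hM := by norm_num
  hcM := by norm_num
  hγM := by norm_num
  hγ := by norm_num
  hγ1 := by norm_num
  hB := fun n => bdAll2 (by norm_num) (by norm_num) 4 4 (by norm_num) (by norm_num) n
  hφ := fun N h1 h2 => by interval_cases N <;> norm_num [sq]
  hcut := Or.inr ⟨6.815, 5.2364, 5, 5, by norm_num, by constructor <;> norm_num [sq], by norm_num [sq]⟩
  hnum := fun N h1 h2 => by
    interval_cases N
    · exact Or.inr ⟨6.92, 5, 5, by norm_num, by constructor <;> norm_num [sq]⟩
    · exact Or.inr ⟨7.0, 5, 5, by norm_num, by constructor <;> norm_num [sq]⟩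
    · exact Or.inr ⟨7.065, 5, 5, by norm_num, by constructor <;> norm_num [sq]⟩
    · exact Or.inr ⟨7.115, 5, 5, by norm_num, by constructor <;> norm_num [sq]⟩
  hS0 := by norm_num [sq]
  hS := fun N h => by
    have : N < 5 := by omega
    interval_cases N <;> norm_num [sq]
  hch := fun N h1 h2 => by
    have : N < 5 := by omega
    interval_cases N <;> norm_num [sq]
  hab := by norm_num
  ha := by norm_num
  hb := by norm_num
  hp := by norm_num [pE, sq]

/-- no closed walks of length `1, ..., 13` -/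
lemma cert13 : CertT 13 12.085 0.10117 100000 10117 6 6 7 (sq [0, 0.3448, 0.3055, 0.275, 0.2504, 0.23, 0.2127])
    (sq [0, 5.715, 5.3884, 5.0413, 4.6779, 4.3048, 3.92]) (sq [0, 0.3448, 0.6503, 0.9253, 1.1757, 1.4057, 1.6184]) where
  hM := by norm_num
  hcM := by norm_num
  hγM := by norm_num
  hγ := by norm_num
  hγ1 := by norm_num
  hB := fun n => bdAll2 (by norm_num) (by norm_num) 5 4 (by norm_num) (by norm_num) n
  hφ := fun N h1 h2 => by interval_cases N <;> norm_num [sq]
  hcut := Or.inr ⟨7.45, 5.715, 6, 5, by norm_num, by constructor <;> norm_num [sq], by norm_num [sq]⟩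
  hnum := fun N h1 h2 => by
    interval_cases N
    · exact Or.inr ⟨7.56, 6, 5, by norm_num, by constructor <;> norm_num [sq]⟩
    · exact Or.inr ⟨7.645, 6, 5, by norm_num, by constructor <;> norm_num [sq]⟩
    · exact Or.inr ⟨7.71, 6, 5, by norm_num, by constructor <;> norm_num [sq]⟩
    · exact Or.inr ⟨7.77, 6, 5, by norm_num, by constructor <;> norm_num [sq]⟩
    · exact Or.inr ⟨7.82, 6, 5, by norm_num, by constructor <;> norm_num [sq]⟩
  hS0 := by norm_num [sq]
  hS := fun N h => by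
    have : N < 6 := by omega
    interval_cases N <;> norm_num [sq]
  hch := fun N h1 h2 => by
    have : N < 6 := by omega
    interval_cases N <;> norm_num [sq]
  hab := by norm_num
  ha := by norm_num
  hb := by norm_num
  hp := by norm_num [pE, sq]

end TOPU_

end Pool.Agent.Lib.MP_83608f_co.CN
end
end

section
/-! MP_83608f_co, part CN, module TOPV (helper56): the table for the girths `5, ..., 14` in terms of `Digraph`. -/
set_option autoImplicit false

open Classical

noncomputable section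

namespace Pool.Agent.Lib.MP_83608f_co.CN

open Top_

/-- the table for the girths `5, ..., 14` -/
theorem topV (V : Type) [Finite V] [Nonempty V] (G : Digraph V) (k g : ℕ)
    (hout : ∀ v, Nat.card {u // G.Adj v u} = k) (hin : ∀ v, Nat.card {u // G.Adj u v} = k)
    (hgirth : EM.GirthGe G g) :
    (5 ≤ g → 3.799 * (k : ℝ) ≤ Nat.card V) ∧ (6 ≤ g → 4.663 * (k : ℝ) ≤ Nat.card V) ∧
    (7 ≤ g → 5.547 * (k : ℝ) ≤ Nat.card V) ∧ (8 ≤ g → 6.396 * (k : ℝ) ≤ Nat.card V) ∧
    (9 ≤ g → 7.267 * (k : ℝ) ≤ Nat.card V) ∧ (10 ≤ g → 8.159 * (k : ℝ) ≤ Nat.card V) ∧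
    (11 ≤ g → 9.144 * (k : ℝ) ≤ Nat.card V) ∧ (12 ≤ g → 10.109 * (k : ℝ) ≤ Nat.card V) ∧
    (13 ≤ g → 11.105 * (k : ℝ) ≤ Nat.card V) ∧ (14 ≤ g → 12.085 * (k : ℝ) ≤ Nat.card V) := by
  have := Fintype.ofFinite V
  rcases Nat.eq_zero_or_pos k with hk | hk
  · rw [hk]
    have : (0 : ℝ) ≤ Nat.card V := Nat.cast_nonneg _
    simp
  rw [Nat.card_eq_fintype_card]
  have ho := out_card hout
  have hi := in_card hin
  have hmono : ∀ m : ℕ, m + 1 ≤ g → NoCl G.Adj m := fun m hm =>
    noCl fun l h1 h2 => hgirth l h1 (by omega)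
  exact ⟨fun h => topT TOPU_.cert4 hk (hmono 4 h) ho hi, fun h => topT TOPU_.cert5 hk (hmono 5 h) ho hi,
    fun h => topT TOPU_.cert6 hk (hmono 6 h) ho hi, fun h => topT TOPU_.cert7 hk (hmono 7 h) ho hi,
    fun h => topT TOPU_.cert8 hk (hmono 8 h) ho hi, fun h => topT TOPU_.cert9 hk (hmono 9 h) ho hi,
    fun h => topT TOPU_.cert10 hk (hmono 10 h) ho hi, fun h => topT TOPU_.cert11 hk (hmono 11 h) ho hi,
    fun h => topT TOPU_.cert12 hk (hmono 12 h) ho hi, fun h => topT TOPU_.cert13 hk (hmono 13 h) ho hi⟩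

end Pool.Agent.Lib.MP_83608f_co.CN
end
end
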