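import Mathlib

/-!
# MP_83608f_co, part CN (connectivity): definitions

`A` is the adjacency relation of a digraph on `V`.
-/

set_option autoImplicit false

open Classical

noncomputable section

namespace Pool.Agent.Lib.MP_83608f_co.CN

variable {V : Type*}

/-- `u` and `w` are different and not adjacent. -/
def Nad (A : V → V → Prop) (u w : V) : Prop := u ≠ w ∧ ¬ A u w ∧ ¬ A w u

/-- The distance from `w` to `x` is at least three (possibly infinite). -/
def Far (A : V → V → Prop) (x w : V) : Prop := x ≠ w ∧ ¬ A w x ∧ ∀ y, A w y → ¬ A y x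

/-- The matrix of the linear map `Z ↦ (PZ, ZQ)`, `Z` supported on the pairs `(x, w)` with `Far A x w`, the results
restricted to the pairs of nonadjacent vertices. -/
def M0 {K : Type*} [Zero K] (A : V → V → Prop) (P Q : Matrix V V K) :
    Matrix ({p : V × V // Nad A p.1 p.2} ⊕ {p : V × V // Nad A p.1 p.2}) {p : V × V // Far A p.1 p.2} K :=
  fun r c => Sum.elim (fun r : {p : V × V // Nad A p.1 p.2} => if r.1.2 = c.1.2 then P r.1.1 c.1.1 else 0)
    (fun r : {p : V × V // Nad A p.1 p.2} => if r.1.1 = c.1.1 then Q c.1.2 r.1.2 else 0) r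

/-- The closed out-neighbourhood of a set. -/
def outN [Fintype V] (A : V → V → Prop) (F : Finset V) : Finset V :=
  Finset.univ.filter fun v => v ∈ F ∨ ∃ u ∈ F, A u v

/-- The closed in-neighbourhood of a set. -/
def inN [Fintype V] (A : V → V → Prop) (F : Finset V) : Finset V :=
  Finset.univ.filter fun v => v ∈ F ∨ ∃ u ∈ F, A v u

/-- The second out-neighbourhood of `x`: the vertices at distance exactly two from `x`. -/
def sec [Fintype V] (A : V → V → Prop) (x : V) : Finset V :=
  Finset.univ.filter fun z => z ≠ x ∧ ¬ A x z ∧ ∃ y, A x y ∧ A y z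

/-- `A` is connected to the order `c`: after deletion of fewer than `c` vertices every remaining vertex can be reached
from every remaining vertex. -/
def Conn (A : V → V → Prop) (c : ℕ) : Prop :=
  ∀ S : Finset V, S.card < c → ∀ u v : V, u ∉ S → v ∉ S →
    Relation.ReflTransGen (fun a b => A a b ∧ b ∉ S) u v

end Pool.Agent.Lib.MP_83608f_co.CN
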