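import Pool.Agent.Lib.MP_83608f_co.CN.K7D
import Pool.Agent.Lib.MP_83608f_co.CN.ONE

section
/-! MP_83608f_co, part CN, module K8A (helper90): a checker for lower bounds of fragments.

`X` a minimal fragment of excess `e` of a `k`-diregular digraph without closed walks of length `1..m`.  For `v ∈ X` let `b_l` be the size of the
ball of radius `l` around `v` in `X` and `C_l` the deficiency of the vertices at distance `1..l-1`.  Slow growth of a ball needs
deficiency in its last layer (`sinks`), so that `C_l` is at least the entry `b_l` of a table (`tab`) which is computed by dynamic programming.  The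
averages of `b_i + b_(m-i)` and of `C_l` over `X` give an inequality for the size of `X` (`frag_chk`). -/
set_option autoImplicit false

open Classical

noncomputable section

namespace Pool.Agent.Lib.MP_83608f_co.CN

open Pool.Agent.Lib.MP_83608f_co.EM (Wk)

namespace K8_

open LAY_ (cb cb_walk cb_sub mem_cb_self)
open SD_

variable {V : Type} [Fintype V] {A : V → V → Prop} {k m e q : ℕ}

/-- `q`: every nonempty set of at most `q` vertices has a vertex with at most two out-neighbours inside -/
def Q3 (A : V → V → Prop) (q : ℕ) : Prop :=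
  ∀ B : Finset V, B.Nonempty → B.card ≤ q → ∃ u ∈ B, dg A B u ≤ 2

/-- the bound for the least inner out-degree of a set of `n` vertices -/
def tt (m q n : ℕ) : ℕ := if n ≤ m then 0 else if n ≤ 2 * m then 1 else if n ≤ q then 2 else n

lemma tt_spec (hcl : NoCl A m) (hq : Q3 A q) {B : Finset V} (hB : B.Nonempty) :
    ∃ u ∈ B, dg A B u ≤ tt m q B.card := by
  unfold tt
  split_ifs with h1 h2 h3
  · obtain ⟨u, hu, h⟩ := term0 hcl hB h1
    refine ⟨u, hu, ?_⟩
    unfold dg
    rw [Nat.le_zero, Finset.card_eq_zero, Finset.filter_eq_empty_iff]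
    exact fun w hw => h w hw
  · exact term1 hcl hB h2
  · exact hq B hB h3
  · obtain ⟨u, hu⟩ := hB
    exact ⟨u, hu, Finset.card_filter_le _ _⟩

/-- the deficiency which is needed for the growth `h` of a ball with `b` vertices; `j` sinks with total inner degree at most `τ` are
already used, `f` more may be used -/
def sk (m q k e b h : ℕ) : ℕ → ℕ → ℕ → ℕ
  | 0, _, _ => 0
  | f + 1, j, τ =>
    if tt m q (b - j) + j < e then
      max ((j + 1) * k - ((j + 1) * h + (τ + (tt m q (b - j) + j)))) (sk m q k e b h f (j + 1) (τ + (tt m q (b - j) + j)))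
    else 0

/-- the sinks of a ball -/
lemma sinks (hcl : NoCl A m) (hq : Q3 A q) {X : Finset V} (hX : ∀ u ∈ X, e ≤ dg A X u) (hdk : ∀ u, dg A X u ≤ k)
    {v : V} (hv : v ∈ X) (l h : ℕ) (hh : (cb (rs A X) v (l + 2)).card ≤ (cb (rs A X) v (l + 1)).card + h) (f : ℕ) :
    ∀ j τ (R : Finset V), R ⊆ nw A X v l → R.card = j → j * k ≤ j * h + τ + ∑ u ∈ R, (k - dg A X u) →
      sk m q k e (cb (rs A X) v (l + 1)).card h f j τ ≤ ∑ u ∈ nw A X v l, (k - dg A X u) := by
  induction f with
  | zero =>
    intro j τ R _ _ _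
    exact Nat.zero_le _
  | succ f ih =>
    intro j τ R hR hRj hsum
    rw [sk]
    set B := cb (rs A X) v (l + 1) with hB
    have hBX : B ⊆ X := cb_rs_sub hv (l + 1)
    have hRB : R ⊆ B := fun u hu => (Finset.mem_sdiff.1 (hR hu)).1
    split_ifs with hlt
    swap
    · exact Nat.zero_le _
    have hvB : v ∈ B \ R := by
      refine Finset.mem_sdiff.2 ⟨mem_cb_self v (l + 1), fun h' => ?_⟩
      exact (Finset.mem_sdiff.1 (hR h')).2 (mem_cb_self v l)
    have hc := Finset.card_sdiff_add_card_eq_card hRB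
    obtain ⟨u, hu, h1⟩ := tt_spec (q := q) hcl hq ⟨v, hvB⟩
    have hcard : (B \ R).card = B.card - j := by omega
    rw [hcard] at h1
    have huB := (Finset.mem_sdiff.1 hu).1
    have huR := (Finset.mem_sdiff.1 hu).2
    have h2 : dg A B u ≤ tt m q (B.card - j) + j := by
      have h3 : (B.filter fun w => A u w) ⊆ ((B \ R).filter fun w => A u w) ∪ R := by
        intro w hw
        rw [Finset.mem_filter] at hw
        rw [Finset.mem_union, Finset.mem_filter, Finset.mem_sdiff]
        by_cases hwR : w ∈ R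
        · exact Or.inr hwR
        · exact Or.inl ⟨⟨hw.1, hwR⟩, hw.2⟩
      have h4 := (Finset.card_le_card h3).trans (Finset.card_union_le _ _)
      unfold dg at h1 ⊢
      omega
    have h5 := hX u (hBX huB)
    have h6 : u ∈ nw A X v l := mem_nw hv huB (by rw [← hB]; omega)
    have h7 := dg_split (A := A) X hv (l + 1) huB
    have h17 : l + 1 + 1 = l + 2 := rfl
    rw [h17, ← hB] at h7
    have h8 := hdk u
    have hR' : insert u R ⊆ nw A X v l := by
      intro w hw
      rcases Finset.mem_insert.1 hw with rfl | h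
      · exact h6
      · exact hR h
    have hsum' : (j + 1) * k ≤ (j + 1) * h + (τ + (tt m q (B.card - j) + j)) + ∑ u ∈ insert u R, (k - dg A X u) := by
      rw [Finset.sum_insert huR]
      have e1 : (j + 1) * k = j * k + k := by ring
      have e2 : (j + 1) * h = j * h + h := by ring
      rw [e1, e2]
      omega
    refine max_le ?_ (ih (j + 1) _ (insert u R) hR' (by rw [Finset.card_insert_of_notMem huR, hRj]) hsum')
    have h9 := Finset.sum_le_sum_of_subset (f := fun u => k - dg A X u) hR'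
    omega

/-- the least growth -/
def gm (m q e b : ℕ) : ℕ := max 1 (e - tt m q b)

lemma gm_le (hcl : NoCl A m) (hq : Q3 A q) (hk : 1 ≤ k) (he : 1 ≤ e)
    (hout : ∀ v, (Finset.univ.filter fun u => A v u).card = k) {X : Finset V} (hX : Mi A k e X)
    {v : V} (hv : v ∈ X) (l : ℕ) (hl : l + 1 ≤ m) :
    (cb (rs A X) v l).card + gm m q e (cb (rs A X) v l).card ≤ (cb (rs A X) v (l + 1)).card := by
  have h1 := grow_one hk he hcl hout hX hv l hl
  obtain ⟨u, hu, h2⟩ := tt_spec (q := q) hcl hq ⟨v, mem_cb_self (A := rs A X) v l⟩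
  have h3 := dg_split (A := A) X hv l hu
  have h4 := dg_ge hout hX.2.1 (cb_rs_sub hv l hu)
  unfold gm
  omega

/-- a large number -/
def INF : ℕ := 1000000

/-- the entry `b'` of the next table -/
def inn (m q k e b' : ℕ) : List ℕ → ℕ → ℕ
  | [], _ => INF
  | g :: G, b =>
    if b < b' then
      min (if b' < b + gm m q e b then INF else if INF ≤ g then INF else g + sk m q k e b (b' - b) e 0 0)
        (inn m q k e b' G (b + 1))
    else INF

/-- the next table -/
def nxt (m q k e : ℕ) (G : List ℕ) : List ℕ := (List.range G.length).map fun b' => inn m q k e b' G 0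

/-- the first table: the ball of radius 1 around a vertex of out-degree `d` -/
def fst (d L : ℕ) : List ℕ := (List.range L).map fun b => if b = 1 + d then 0 else INF

/-- the table for the radius `l + 1` -/
def tab (m q k e d L : ℕ) : ℕ → List ℕ
  | 0 => fst d L
  | l + 1 => nxt m q k e (tab m q k e d L l)

/-- the pair `(x, C)` respects the table -/
def Ok (G : List ℕ) (x C : ℕ) : Prop := ∀ h : x < G.length, G[x] ≤ C

lemma fst_ok (d L C : ℕ) : Ok (fst d L) (1 + d) C := by
  intro h
  unfold fst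
  rw [List.getElem_map, List.getElem_range, if_pos rfl]
  exact Nat.zero_le _

lemma inn_le (b' : ℕ) (C : ℕ) (hC : C < INF) (G : List ℕ) : ∀ (b n : ℕ) (hn : n < G.length), G[n] ≤ C →
    b + n + gm m q e (b + n) ≤ b' → inn m q k e b' G b ≤ C + sk m q k e (b + n) (b' - (b + n)) e 0 0 := by
  induction G with
  | nil => intro b n hn; exact absurd hn (by simp)
  | cons g G ih =>
    intro b n hn h1 h2
    have hg : 1 ≤ gm m q e (b + n) := le_max_left _ _
    rw [inn, if_pos (by omega)]
    rcases Nat.eq_zero_or_pos n with h0 | h0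
    · subst h0
      refine (min_le_left _ _).trans ?_
      simp only [List.getElem_cons_zero] at h1
      rw [Nat.add_zero] at h2 ⊢
      rw [if_neg (by omega), if_neg (by omega)]
      omega
    · obtain ⟨n', rfl⟩ : ∃ n', n = n' + 1 := ⟨n - 1, by omega⟩
      refine (min_le_right _ _).trans ?_
      simp only [List.getElem_cons_succ] at h1
      have e1 : b + (n' + 1) = b + 1 + n' := by ring
      rw [e1] at h2 ⊢
      exact ih (b + 1) n' (by simpa using hn) h1 h2

lemma nxt_ok {G : List ℕ} {x C x' δ : ℕ} (h : Ok G x C) (hC : C < INF) (h1 : x + gm m q e x ≤ x')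
    (h2 : sk m q k e x (x' - x) e 0 0 ≤ δ) : Ok (nxt m q k e G) x' (C + δ) := by
  intro hx'
  have hg : 1 ≤ gm m q e x := le_max_left _ _
  unfold nxt at hx' ⊢
  rw [List.length_map, List.length_range] at hx'
  rw [List.getElem_map, List.getElem_range]
  have h3 := inn_le (m := m) (q := q) (k := k) (e := e) x' C hC G 0 x (by omega) (h (by omega)) (by rw [Nat.zero_add]; exact h1)
  rw [Nat.zero_add] at h3
  omega

/-- the table is respected by the balls -/
lemma tab_ok (hcl : NoCl A m) (hq : Q3 A q) (hk : 1 ≤ k) (he : 1 ≤ e)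
    (hout : ∀ v, (Finset.univ.filter fun u => A v u).card = k) {X : Finset V} (hX : Mi A k e X)
    (hdef : ∑ v ∈ X, (k - dg A X v) < INF) (L : ℕ) {v : V} (hv : v ∈ X) (l : ℕ) (hl : l + 1 ≤ m) :
    Ok (tab m q k e (dg A X v) L l) (cb (rs A X) v (l + 1)).card (df A k X v l - df A k X v 0) := by
  have hirr := LAY_.irr hcl (by omega)
  have hmono : ∀ l, df A k X v 0 ≤ df A k X v l := by
    intro l
    induction l with
    | zero => exact le_refl _
    | succ l ih =>
      rw [df_succ]
      omega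
  have hlt : ∀ l, df A k X v l < INF := fun l =>
    lt_of_le_of_lt (Finset.sum_le_sum_of_subset (cb_rs_sub hv l)) hdef
  induction l with
  | zero =>
    have h1 : (cb (rs A X) v (0 + 1)).card = 1 + dg A X v := cb_one hirr hv
    rw [h1]
    exact fst_ok _ _ _
  | succ l ih =>
    have h1 := ih (by omega)
    have h2 := gm_le hcl hq hk he hout hX hv (l + 1) hl
    have h3 : sk m q k e (cb (rs A X) v (l + 1)).card ((cb (rs A X) v (l + 2)).card - (cb (rs A X) v (l + 1)).card) e 0 0 ≤
        ∑ u ∈ nw A X v l, (k - dg A X u) := by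
      have h4 := Finset.card_le_card (cb_sub (A := rs A X) v (l + 1))
      refine sinks hcl hq (fun u hu => dg_ge hout hX.2.1 hu) (fun u => dg_le hout X u) hv l _ (by
        have h17 : l + 1 + 1 = l + 2 := rfl
        rw [h17] at h4
        omega) e 0 0 ∅ (Finset.empty_subset _) rfl (by simp)
    have h5 := nxt_ok (δ := ∑ u ∈ nw A X v l, (k - dg A X u)) h1 (lt_of_le_of_lt (Nat.sub_le _ _) (hlt l)) h2 h3
    have h6 : df A k X v (l + 1) - df A k X v 0 = df A k X v l - df A k X v 0 + ∑ u ∈ nw A X v l, (k - dg A X u) := by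
      have := hmono l
      rw [df_succ]
      omega
    rw [h6]
    exact h5

/-- the least value of `w b + μ C` for a table -/
def mn (w μ : ℕ) : List ℕ → ℕ → ℕ
  | [], b => w * b
  | g :: G, b => min (w * b + μ * g) (mn w μ G (b + 1))

lemma mn_le (w μ C : ℕ) (G : List ℕ) : ∀ (b x : ℕ), (∀ h : x < G.length, G[x] ≤ C) →
    mn w μ G b ≤ w * (b + x) + μ * C := by
  induction G with
  | nil =>
    intro b x _
    rw [mn, Nat.mul_add]
    omega
  | cons g G ih =>
    intro b x h
    rw [mn]
    rcases Nat.eq_zero_or_pos x with h0 | h0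
    · subst h0
      refine (min_le_left _ _).trans ?_
      have h1 := h (by simp)
      simp only [List.getElem_cons_zero] at h1
      have h2 := Nat.mul_le_mul_left μ h1
      rw [Nat.add_zero]
      omega
    · obtain ⟨x', rfl⟩ : ∃ x', x = x' + 1 := ⟨x - 1, by omega⟩
      refine (min_le_right _ _).trans ?_
      have h2 := ih (b + 1) x' (fun h' => by
        have h3 := h (by simpa using h')
        simpa only [List.getElem_cons_succ] using h3)
      have e1 : b + (x' + 1) = b + 1 + x' := by ring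
      rw [e1]
      exact h2

/-- the number of entries at the beginning of a table which are infinite -/
def ld : List ℕ → ℕ
  | [] => 0
  | g :: G => if INF ≤ g then ld G + 1 else 0

lemma ld_le (C : ℕ) (hC : C < INF) (G : List ℕ) : ∀ x : ℕ, (∀ h : x < G.length, G[x] ≤ C) → ld G ≤ x := by
  induction G with
  | nil =>
    intro x _
    exact Nat.zero_le _
  | cons g G ih =>
    intro x h
    rw [ld]
    split_ifs with hg
    · rcases Nat.eq_zero_or_pos x with h0 | h0
      · subst h0
        have h1 := h (by simp)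
        simp only [List.getElem_cons_zero] at h1
        omega
      · obtain ⟨x', rfl⟩ : ∃ x', x = x' + 1 := ⟨x - 1, by omega⟩
        have h2 := ih x' (fun h' => by
          have h3 := h (by simpa using h')
          simpa only [List.getElem_cons_succ] using h3)
        omega
    · exact Nat.zero_le _

/-- a certificate -/
structure Crt where
  i : ℕ
  j : ℕ
  w : ℕ
  μi : ℕ
  μj : ℕ
  α : ℕ
  β : ℕ
  Mi : ℕ
  Mj : ℕ

/-- the conditions for one out-degree; `L` = length of the tables -/
def chk1 (m q k e L : ℕ) (c : Crt) (d : ℕ) : Bool :=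
  decide (c.α + c.β * d ≤ mn c.w c.μi (tab m q k e d L (c.i - 1)) 0 + mn c.w c.μj (tab m q k e d L (c.j - 1)) 0) &&
  decide (c.Mi ≤ ld (tab m q k e d L (m - c.i))) && decide (c.Mj ≤ ld (tab m q k e d L (m - c.j)))

/-- the condition for one size -/
def chk2 (k e : ℕ) (c : Crt) (s : ℕ) : Bool :=
  decide (c.w * (s * (s + 1)) + (c.μi * (s - c.Mi) + c.μj * (s - c.Mj) + c.β) * (k * (k - e)) < (c.α + c.β * k) * s)

/-- the check of a certificate for the sizes `lo..N-1` -/
def chk (m q k e L lo N : ℕ) (c : Crt) : Bool :=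
  decide (1 ≤ c.i) && decide (1 ≤ c.j) && decide (c.i + c.j = m) &&
  (List.range (k + 1 - e)).all (fun d => chk1 m q k e L c (e + d)) &&
  (List.range (N - lo)).all (fun s => chk2 k e c (lo + s))

/-- **the size of a minimal fragment** -/
theorem frag_chk (hcl : NoCl A m) (hq : Q3 A q) (hk : 1 ≤ k) (he : 1 ≤ e) (hke : k * (k - e) < INF)
    (hout : ∀ v, (Finset.univ.filter fun u => A v u).card = k)
    (hin : ∀ v, (Finset.univ.filter fun u => A u v).card = k) {X : Finset V} (hX : Mi A k e X) (L lo N : ℕ)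
    (hlo : lo ≤ X.card) (c : Crt) (hc : chk m q k e L lo N c = true) : N ≤ X.card := by
  unfold chk at hc
  simp only [Bool.and_eq_true, decide_eq_true_eq, List.all_eq_true, List.mem_range] at hc
  obtain ⟨⟨⟨⟨hi, hj⟩, hij⟩, h1⟩, h2⟩ := hc
  by_contra hcon
  have hsdef := sum_def hout hin hX.2.1
  have hdef : ∑ v ∈ X, (k - dg A X v) < INF := lt_of_le_of_lt hsdef hke
  have hdk : ∀ v, dg A X v ≤ k := fun v => dg_le hout X v
  have hde : ∀ v ∈ X, e ≤ dg A X v := fun v hv => dg_ge hout hX.2.1 hv
  have hlt : ∀ v ∈ X, ∀ l, df A k X v l < INF := fun v hv l =>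
    lt_of_le_of_lt (Finset.sum_le_sum_of_subset (cb_rs_sub hv l)) hdef
  have hone : ∀ v ∈ X, chk1 m q k e L c (dg A X v) = true := by
    intro v hv
    have h3 := h1 (dg A X v - e) (by
      have := hde v hv
      have := hdk v
      omega)
    rwa [Nat.add_sub_cancel' (hde v hv)] at h3
  have hok : ∀ v ∈ X, ∀ l, l + 1 ≤ m → Ok (tab m q k e (dg A X v) L l) (cb (rs A X) v (l + 1)).card
      (df A k X v l - df A k X v 0) := fun v hv l hl => tab_ok hcl hq hk he hout hX hdef L hv l hl
  have hd0 : ∀ v ∈ X, df A k X v 0 = k - dg A X v := by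
    intro v _
    unfold df
    rw [cb, Finset.sum_singleton]
  have hmono : ∀ v l, df A k X v 0 ≤ df A k X v l := by
    intro v l
    induction l with
    | zero => exact le_refl _
    | succ l ih =>
      rw [df_succ]
      omega
  -- the bounds for each vertex
  have hper : ∀ v ∈ X, c.α + c.β * dg A X v + (c.μi + c.μj) * (k - dg A X v) ≤
      c.w * ((cb (rs A X) v c.i).card + (cb (rs A X) v c.j).card) +
        (c.μi * df A k X v (c.i - 1) + c.μj * df A k X v (c.j - 1)) := by
    intro v hv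
    have h3 := hone v hv
    unfold chk1 at h3
    simp only [Bool.and_eq_true, decide_eq_true_eq] at h3
    have h4 := mn_le c.w c.μi _ _ 0 _ (hok v hv (c.i - 1) (by omega))
    have h5 := mn_le c.w c.μj _ _ 0 _ (hok v hv (c.j - 1) (by omega))
    rw [Nat.zero_add, Nat.sub_add_cancel hi] at h4
    rw [Nat.zero_add, Nat.sub_add_cancel hj] at h5
    have h6 := h3.1.1
    have h7 := hmono v (c.i - 1)
    have h8 := hmono v (c.j - 1)
    have h9 : c.μi * (df A k X v (c.i - 1) - df A k X v 0) + c.μi * (k - dg A X v) = c.μi * df A k X v (c.i - 1) := by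
      rw [← Nat.mul_add, ← hd0 v hv, Nat.sub_add_cancel h7]
    have h10 : c.μj * (df A k X v (c.j - 1) - df A k X v 0) + c.μj * (k - dg A X v) = c.μj * df A k X v (c.j - 1) := by
      rw [← Nat.mul_add, ← hd0 v hv, Nat.sub_add_cancel h8]
    rw [Nat.mul_add, Nat.add_mul]
    omega
  have hMi : ∀ u ∈ X, c.Mi ≤ (cb (rs A X) u (m + 1 - c.i)).card := by
    intro u hu
    have h3 := hone u hu
    unfold chk1 at h3
    simp only [Bool.and_eq_true, decide_eq_true_eq] at h3
    have h4 := ld_le _ (lt_of_le_of_lt (Nat.sub_le _ _) (hlt u hu _)) _ _ (hok u hu (m - c.i) (by omega))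
    have e1 : m - c.i + 1 = m + 1 - c.i := by omega
    rw [e1] at h4
    exact h3.1.2.trans h4
  have hMj : ∀ u ∈ X, c.Mj ≤ (cb (rs A X) u (m + 1 - c.j)).card := by
    intro u hu
    have h3 := hone u hu
    unfold chk1 at h3
    simp only [Bool.and_eq_true, decide_eq_true_eq] at h3
    have h4 := ld_le _ (lt_of_le_of_lt (Nat.sub_le _ _) (hlt u hu _)) _ _ (hok u hu (m - c.j) (by omega))
    have e1 : m - c.j + 1 = m + 1 - c.j := by omega
    rw [e1] at h4
    exact h3.2.trans h4
  have hsum := Finset.sum_le_sum hper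
  simp only [Finset.sum_add_distrib, ← Finset.mul_sum] at hsum
  rw [Finset.sum_const, smul_eq_mul] at hsum
  have hav := avg hcl X c.i c.j (by omega)
  rw [Finset.sum_add_distrib] at hav
  have hwi := avg_w hcl X (fun u => k - dg A X u) (c.i - 1) (m + 1 - c.i) c.Mi (by omega) hMi
  have hwj := avg_w hcl X (fun u => k - dg A X u) (c.j - 1) (m + 1 - c.j) c.Mj (by omega) hMj
  have e3 : ∀ l, ∑ v ∈ X, df A k X v l = ∑ v ∈ X, ∑ u ∈ cb (rs A X) v l, (k - dg A X u) := fun l => rfl
  rw [e3, e3] at hsum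
  have hDT : ∑ v ∈ X, (k - dg A X v) + ∑ v ∈ X, dg A X v = k * X.card := by
    rw [← Finset.sum_add_distrib, Finset.sum_congr rfl fun v _ => Nat.sub_add_cancel (hdk v),
      Finset.sum_const, smul_eq_mul, mul_comm]
  obtain ⟨x, hx⟩ := hX.1
  have hMis : c.Mi ≤ X.card := (hMi x hx).trans (Finset.card_le_card (cb_rs_sub hx _))
  have hMjs : c.Mj ≤ X.card := (hMj x hx).trans (Finset.card_le_card (cb_rs_sub hx _))
  have h3 := h2 (X.card - lo) (by omega)
  rw [Nat.add_sub_cancel' hlo] at h3
  unfold chk2 at h3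
  rw [decide_eq_true_eq] at h3
  generalize ∑ v ∈ X, (k - dg A X v) = D at *
  generalize ∑ v ∈ X, dg A X v = T at *
  generalize ∑ v ∈ X, (cb (rs A X) v c.i).card = P at *
  generalize ∑ v ∈ X, (cb (rs A X) v c.j).card = Q at *
  generalize ∑ v ∈ X, ∑ u ∈ cb (rs A X) v (c.i - 1), (k - dg A X u) = Ei at *
  generalize ∑ v ∈ X, ∑ u ∈ cb (rs A X) v (c.j - 1), (k - dg A X u) = Ej at *
  generalize X.card = s at *
  obtain ⟨a, ha⟩ : ∃ a, s = c.Mi + a := ⟨s - c.Mi, by omega⟩
  obtain ⟨b, hb⟩ : ∃ b, s = c.Mj + b := ⟨s - c.Mj, by omega⟩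
  have ea : s - c.Mi = a := by omega
  have eb : s - c.Mj = b := by omega
  rw [ea, eb] at h3
  have hEi : Ei ≤ a * D + D := by
    have h4 : (s + 1) * D = c.Mi * D + (a * D + D) := by
      rw [ha]
      ring
    omega
  have hEj : Ej ≤ b * D + D := by
    have h4 : (s + 1) * D = c.Mj * D + (b * D + D) := by
      rw [hb]
      ring
    omega
  have h4 : c.w * (P + Q) ≤ c.w * (s * (s + 1)) := Nat.mul_le_mul_left _ hav
  have h5 : c.μi * Ei ≤ c.μi * (a * D + D) := Nat.mul_le_mul_left _ hEi
  have h6 : c.μj * Ej ≤ c.μj * (b * D + D) := Nat.mul_le_mul_left _ hEj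
  have h7 : (c.μi * a + c.μj * b + c.β) * D ≤ (c.μi * a + c.μj * b + c.β) * (k * (k - e)) :=
    Nat.mul_le_mul_left _ hsdef
  have h8 : c.β * T + c.β * D = c.β * (k * s) := by
    rw [← hDT]
    ring
  nlinarith

end K8_

end Pool.Agent.Lib.MP_83608f_co.CN
end
end

section
/-! MP_83608f_co, part CN, module K8B (helper90): degree 8, the fragments of excess at least 3 (boundary at most 5). -/
set_option autoImplicit false

open Classical

noncomputable section

namespace Pool.Agent.Lib.MP_83608f_co.CN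

open Pool.Agent.Lib.MP_83608f_co.EM (Wk)

namespace K8_

open LAY_ (cb cb_walk cb_sub mem_cb_self)
open SD_

variable {V : Type} [Fintype V] {A : V → V → Prop} {k m e q : ℕ}

omit [Fintype V] in
lemma q3_zero : Q3 A 0 := fun B hB h => absurd (Finset.card_pos.2 hB) (by omega)

/-- fragments of excess 3, degree 8, girth at most 16 -/
lemma fr3s (hcl : NoCl A m) (hm : 3 ≤ m) (hm' : m ≤ 15)
    (hout : ∀ v, (Finset.univ.filter fun u => A v u).card = 8)
    (hin : ∀ v, (Finset.univ.filter fun u => A u v).card = 8) {X : Finset V} (hX : X.Nonempty)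
    (h : Fr A 8 3 X) : 8 * m ≤ 2 * X.card + 4 := by
  obtain ⟨Y, hYX, hY⟩ := exists_min hX h
  have hle := Finset.card_le_card hYX
  have hq : Q3 A 0 := q3_zero
  have hlo := K7_.fr_two hcl hout hY.1 (hY.2.1.mono (by norm_num))
  obtain rfl | rfl | rfl | rfl | rfl | rfl | rfl | rfl | rfl | rfl | rfl | rfl | rfl : m = 3 ∨ m = 4 ∨ m = 5 ∨ m = 6 ∨ m = 7 ∨ m = 8 ∨ m = 9 ∨ m = 10 ∨ m = 11 ∨ m = 12 ∨ m = 13 ∨ m = 14 ∨ m = 15 := by omega
  · have := frag_chk hcl hq (by norm_num) (by norm_num) (by unfold INF; norm_num) hout hin hY 9 7 10 (by omega)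
      ⟨2, 1, 10, 1, 1, 90, 8, 6, 8⟩ (by decide +kernel)
    omega
  · have := frag_chk hcl hq (by norm_num) (by norm_num) (by unfold INF; norm_num) hout hin hY 9 9 14 (by omega)
      ⟨2, 2, 10, 1, 1, 161, 1, 9, 9⟩ (by decide +kernel)
    omega
  · have := frag_chk hcl hq (by norm_num) (by norm_num) (by unfold INF; norm_num) hout hin hY 11 11 18 (by omega)
      ⟨3, 2, 20, 1, 1, 315, 14, 9, 11⟩ (by decide +kernel)
    omega
  · have := frag_chk hcl hq (by norm_num) (by norm_num) (by unfold INF; norm_num) hout hin hY 15 13 22 (by omega)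
      ⟨3, 3, 6, 1, 1, 146, 4, 11, 11⟩ (by decide +kernel)
    omega
  · have := frag_chk hcl hq (by norm_num) (by norm_num) (by unfold INF; norm_num) hout hin hY 17 15 26 (by omega)
      ⟨4, 3, 10, 1, 1, 249, 8, 12, 14⟩ (by decide +kernel)
    omega
  · have := frag_chk hcl hq (by norm_num) (by norm_num) (by unfold INF; norm_num) hout hin hY 19 17 30 (by omega)
      ⟨4, 4, 6, 1, 1, 204, 3, 14, 14⟩ (by decide +kernel)
    omega
  · have := frag_chk hcl hq (by norm_num) (by norm_num) (by unfold INF; norm_num) hout hin hY 21 19 34 (by omega)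
      ⟨5, 4, 12, 2, 2, 448, 7, 14, 16⟩ (by decide +kernel)
    omega
  · have := frag_chk hcl hq (by norm_num) (by norm_num) (by unfold INF; norm_num) hout hin hY 23 21 38 (by omega)
      ⟨5, 5, 6, 1, 1, 265, 1, 17, 17⟩ (by decide +kernel)
    omega
  · have := frag_chk hcl hq (by norm_num) (by norm_num) (by unfold INF; norm_num) hout hin hY 25 23 42 (by omega)
      ⟨6, 5, 6, 1, 1, 276, 3, 17, 19⟩ (by decide +kernel)
    omega
  · have := frag_chk hcl hq (by norm_num) (by norm_num) (by unfold INF; norm_num) hout hin hY 27 25 46 (by omega)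
      ⟨6, 6, 6, 1, 1, 316, 1, 19, 19⟩ (by decide +kernel)
    omega
  · have := frag_chk hcl hq (by norm_num) (by norm_num) (by unfold INF; norm_num) hout hin hY 29 27 50 (by omega)
      ⟨7, 6, 6, 1, 1, 332, 2, 20, 22⟩ (by decide +kernel)
    omega
  · have := frag_chk hcl hq (by norm_num) (by norm_num) (by unfold INF; norm_num) hout hin hY 31 29 54 (by omega)
      ⟨7, 7, 6, 1, 1, 372, 0, 22, 22⟩ (by decide +kernel)
    omega
  · have := frag_chk hcl hq (by norm_num) (by norm_num) (by unfold INF; norm_num) hout hin hY 33 31 58 (by omega)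
      ⟨8, 7, 10, 1, 2, 615, 5, 22, 24⟩ (by decide +kernel)
    omega

/-- fragments of excess 4, degree 8, girth at most 16 -/
lemma fr4s (hcl : NoCl A m) (hm : 3 ≤ m) (hm' : m ≤ 15)
    (hout : ∀ v, (Finset.univ.filter fun u => A v u).card = 8)
    (hin : ∀ v, (Finset.univ.filter fun u => A u v).card = 8) {X : Finset V} (hX : X.Nonempty)
    (h : Fr A 8 4 X) : 8 * m + 1 ≤ 2 * X.card := by
  obtain ⟨Y, hYX, hY⟩ := exists_min hX h
  have hle := Finset.card_le_card hYX
  have hq : Q3 A 0 := q3_zero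
  have hlo := K7_.fr_two hcl hout hY.1 (hY.2.1.mono (by norm_num))
  obtain rfl | rfl | rfl | rfl | rfl | rfl | rfl | rfl | rfl | rfl | rfl | rfl | rfl : m = 3 ∨ m = 4 ∨ m = 5 ∨ m = 6 ∨ m = 7 ∨ m = 8 ∨ m = 9 ∨ m = 10 ∨ m = 11 ∨ m = 12 ∨ m = 13 ∨ m = 14 ∨ m = 15 := by omega
  · have := frag_chk hcl hq (by norm_num) (by norm_num) (by unfold INF; norm_num) hout hin hY 10 7 13 (by omega)
      ⟨2, 1, 12, 1, 1, 144, 6, 8, 9⟩ (by decide +kernel)
    omega
  · have := frag_chk hcl hq (by norm_num) (by norm_num) (by unfold INF; norm_num) hout hin hY 10 9 17 (by omega)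
      ⟨2, 2, 20, 1, 1, 294, 13, 10, 10⟩ (by decide +kernel)
    omega
  · have := frag_chk hcl hq (by norm_num) (by norm_num) (by unfold INF; norm_num) hout hin hY 12 11 21 (by omega)
      ⟨3, 2, 20, 1, 1, 383, 10, 12, 12⟩ (by decide +kernel)
    omega
  · have := frag_chk hcl hq (by norm_num) (by norm_num) (by unfold INF; norm_num) hout hin hY 14 13 25 (by omega)
      ⟨3, 3, 10, 1, 1, 280, 0, 14, 14⟩ (by decide +kernel)
    omega
  · have := frag_chk hcl hq (by norm_num) (by norm_num) (by unfold INF; norm_num) hout hin hY 16 15 29 (by omega)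
      ⟨4, 3, 20, 1, 1, 542, 10, 15, 16⟩ (by decide +kernel)
    omega
  · have := frag_chk hcl hq (by norm_num) (by norm_num) (by unfold INF; norm_num) hout hin hY 18 17 33 (by omega)
      ⟨4, 4, 10, 1, 1, 360, 0, 18, 18⟩ (by decide +kernel)
    omega
  · have := frag_chk hcl hq (by norm_num) (by norm_num) (by unfold INF; norm_num) hout hin hY 20 19 37 (by omega)
      ⟨5, 4, 12, 1, 1, 439, 5, 19, 20⟩ (by decide +kernel)
    omega
  · have := frag_chk hcl hq (by norm_num) (by norm_num) (by unfold INF; norm_num) hout hin hY 22 21 41 (by omega)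
      ⟨5, 5, 10, 1, 1, 440, 0, 22, 22⟩ (by decide +kernel)
    omega
  · have := frag_chk hcl hq (by norm_num) (by norm_num) (by unfold INF; norm_num) hout hin hY 24 23 45 (by omega)
      ⟨6, 5, 12, 1, 1, 536, 5, 22, 24⟩ (by decide +kernel)
    omega
  · have := frag_chk hcl hq (by norm_num) (by norm_num) (by unfold INF; norm_num) hout hin hY 26 25 49 (by omega)
      ⟨6, 6, 12, 1, 1, 624, 0, 25, 25⟩ (by decide +kernel)
    omega
  · have := frag_chk hcl hq (by norm_num) (by norm_num) (by unfold INF; norm_num) hout hin hY 28 27 53 (by omega)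
      ⟨7, 6, 12, 1, 1, 647, 3, 26, 28⟩ (by decide +kernel)
    omega
  · have := frag_chk hcl hq (by norm_num) (by norm_num) (by unfold INF; norm_num) hout hin hY 30 29 57 (by omega)
      ⟨7, 7, 12, 1, 1, 720, 0, 29, 29⟩ (by decide +kernel)
    omega
  · have := frag_chk hcl hq (by norm_num) (by norm_num) (by unfold INF; norm_num) hout hin hY 32 31 61 (by omega)
      ⟨8, 7, 12, 1, 1, 744, 3, 29, 32⟩ (by decide +kernel)
    omega

/-- the balls in a set of small deficiency -/
lemma big (hcl : NoCl A m) (hm : 1 ≤ m) (hk : 2 ≤ k) {X : Finset V} (hd3 : ∀ v ∈ X, 3 ≤ dg A X v)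
    (hdk : ∀ v, dg A X v ≤ k) (D : ℕ) (hdef : ∑ v ∈ X, (k - dg A X v) ≤ D) {v : V} (hv : v ∈ X) (l : ℕ) :
    2 * m + 1 ≤ (cb (rs A X) v (l + 1)).card ∨
      (2 * k - 3) * l + 2 + k + dg A X v ≤ 2 * (cb (rs A X) v (l + 1)).card + D := by
  have hirr := LAY_.irr hcl hm
  have hdl : df A k X v l ≤ D := (Finset.sum_le_sum_of_subset (cb_rs_sub hv l)).trans hdef
  have hst : ∀ l, 2 * m + 1 ≤ (cb (rs A X) v (l + 1)).card ∨
      2 * (1 + dg A X v) + (2 * k - 3) * l + df A k X v 0 ≤ 2 * (cb (rs A X) v (l + 1)).card + df A k X v l := by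
    intro l
    induction l with
    | zero =>
      right
      rw [Nat.zero_add, cb_one hirr hv]
      omega
    | succ l ih =>
      rcases Nat.lt_or_ge (2 * m) (cb (rs A X) v (l + 1)).card with g | g
      · left
        have := Finset.card_le_card (cb_sub (A := rs A X) v (l + 1))
        omega
      · right
        have h0 := ih.resolve_left (by omega)
        have hb2 : 2 ≤ (cb (rs A X) v (l + 1)).card := by
          have h3 := Finset.card_le_card (cb_mono (A := rs A X) v (show 1 ≤ l + 1 by omega))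
          have h4 := cb_one hirr hv
          have h5 := hd3 v hv
          omega
        have h1 := K7_.slow2 hcl hd3 hdk hv l g hb2
        rw [df_succ]
        have h17 : l + 1 + 1 = l + 2 := rfl
        rw [h17]
        have e1 : (2 * k - 3) * (l + 1) = (2 * k - 3) * l + (2 * k - 3) := by ring
        rw [e1]
        generalize (2 * k - 3) * l = z at *
        omega
  rcases hst l with h1 | h1
  · exact Or.inl h1
  · right
    have h3 : df A k X v 0 = k - dg A X v := by
      unfold df
      rw [cb, Finset.sum_singleton]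
    have h5 := hdk v
    generalize (2 * k - 3) * l = z at *
    omega

/-- fragments of excess 3, degree 8, girth at least 17 -/
lemma fr3l (hcl : NoCl A m) (hm : 16 ≤ m)
    (hout : ∀ v, (Finset.univ.filter fun u => A v u).card = 8)
    (hin : ∀ v, (Finset.univ.filter fun u => A u v).card = 8) {X : Finset V} (hX : X.Nonempty)
    (h : Fr A 8 3 X) : 8 * m ≤ 2 * X.card + 4 := by
  have hd3 : ∀ v ∈ X, 3 ≤ dg A X v := fun v hv => dg_ge hout h hv
  have hd8 : ∀ v, dg A X v ≤ 8 := fun v => dg_le hout X v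
  have hdef := sum_def hout hin h
  have h1 := avg hcl X ((m + 1) / 2) (m / 2) (by omega)
  have h2 : ∀ v ∈ X, 4 * m - 1 ≤ (cb (rs A X) v ((m + 1) / 2)).card + (cb (rs A X) v (m / 2)).card := by
    intro v hv
    have h0 := hd3 v hv
    have h3 := big hcl (by omega) (by norm_num) hd3 hd8 40 hdef hv ((m + 1) / 2 - 1)
    have h4 := big hcl (by omega) (by norm_num) hd3 hd8 40 hdef hv (m / 2 - 1)
    have e1 : (m + 1) / 2 - 1 + 1 = (m + 1) / 2 := by omega
    have e2 : m / 2 - 1 + 1 = m / 2 := by omega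
    rw [e1] at h3
    rw [e2] at h4
    have e3 : (m + 1) / 2 + m / 2 = m := by omega
    norm_num at h3 h4
    omega
  have h3 := (Finset.sum_le_sum h2).trans h1
  rw [Finset.sum_const, smul_eq_mul] at h3
  have h4 := Nat.le_of_mul_le_mul_left h3 (Finset.card_pos.2 hX)
  omega

/-- fragments of excess 4, degree 8, girth at least 17 -/
lemma fr4l (hcl : NoCl A m) (hm : 16 ≤ m)
    (hout : ∀ v, (Finset.univ.filter fun u => A v u).card = 8)
    (hin : ∀ v, (Finset.univ.filter fun u => A u v).card = 8) {X : Finset V} (hX : X.Nonempty)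
    (h : Fr A 8 4 X) : 8 * m + 1 ≤ 2 * X.card := by
  have hd4 : ∀ v ∈ X, 4 ≤ dg A X v := fun v hv => dg_ge hout h hv
  have hd3 : ∀ v ∈ X, 3 ≤ dg A X v := fun v hv => by
    have := hd4 v hv
    omega
  have hd8 : ∀ v, dg A X v ≤ 8 := fun v => dg_le hout X v
  have hdef := sum_def hout hin h
  have h1 := avg hcl X ((m + 1) / 2) (m / 2) (by omega)
  have h2 : ∀ v ∈ X, 4 * m + 2 ≤ (cb (rs A X) v ((m + 1) / 2)).card + (cb (rs A X) v (m / 2)).card := by
    intro v hv
    have h0 := hd4 v hv
    have h3 := big hcl (by omega) (by norm_num) hd3 hd8 32 hdef hv ((m + 1) / 2 - 1)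
    have h4 := big hcl (by omega) (by norm_num) hd3 hd8 32 hdef hv (m / 2 - 1)
    have e1 : (m + 1) / 2 - 1 + 1 = (m + 1) / 2 := by omega
    have e2 : m / 2 - 1 + 1 = m / 2 := by omega
    rw [e1] at h3
    rw [e2] at h4
    have e3 : (m + 1) / 2 + m / 2 = m := by omega
    norm_num at h3 h4
    omega
  have h3 := (Finset.sum_le_sum h2).trans h1
  rw [Finset.sum_const, smul_eq_mul] at h3
  have h4 := Nat.le_of_mul_le_mul_left h3 (Finset.card_pos.2 hX)
  omega

/-- **fragments of excess 3, degree 8** -/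
theorem fr3 (hcl : NoCl A m) (hm : 3 ≤ m)
    (hout : ∀ v, (Finset.univ.filter fun u => A v u).card = 8)
    (hin : ∀ v, (Finset.univ.filter fun u => A u v).card = 8) {X : Finset V} (hX : X.Nonempty)
    (h : Fr A 8 3 X) : 8 * m ≤ 2 * X.card + 4 := by
  rcases Nat.lt_or_ge m 16 with g | g
  · exact fr3s hcl hm (by omega) hout hin hX h
  · exact fr3l hcl g hout hin hX h

/-- **fragments of excess 4, degree 8** -/
theorem fr4 (hcl : NoCl A m) (hm : 3 ≤ m)
    (hout : ∀ v, (Finset.univ.filter fun u => A v u).card = 8)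
    (hin : ∀ v, (Finset.univ.filter fun u => A u v).card = 8) {X : Finset V} (hX : X.Nonempty)
    (h : Fr A 8 4 X) : 8 * m + 1 ≤ 2 * X.card := by
  rcases Nat.lt_or_ge m 16 with g | g
  · exact fr4s hcl hm (by omega) hout hin hX h
  · exact fr4l hcl g hout hin hX h

end K8_

end Pool.Agent.Lib.MP_83608f_co.CN
end
end

section
/-! MP_83608f_co, part CN, module K8C (helper90): the Behzad-Chartrand-Wall conjecture for the degree 8, every girth. -/
set_option autoImplicit false

open Classical

noncomputable section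

namespace Pool.Agent.Lib.MP_83608f_co.CN

namespace K8_

open SD_

variable {V : Type} [Fintype V] {A : V → V → Prop} {k m e : ℕ}

/-- the assembly: connectivity at least `k - 2` by uncrossing, otherwise the two sides of a minimum cut -/
lemma assemble [Nonempty V] (hk : 2 ≤ k) (hm : 2 ≤ m) (hkm : k ≤ 2 * m + 3)
    (hout : ∀ v, (Finset.univ.filter fun u => A v u).card = k)
    (hin : ∀ v, (Finset.univ.filter fun u => A u v).card = k) (hcl : NoCl A m)
    (h3 : ∀ (B : V → V → Prop), NoCl B m → (∀ v, (Finset.univ.filter fun u => B v u).card = k) →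
      (∀ v, (Finset.univ.filter fun u => B u v).card = k) → ∀ X : Finset V, X.Nonempty → Fr B k 3 X →
      k * m + 4 ≤ 2 * X.card + k)
    (h4 : ∀ (B : V → V → Prop), NoCl B m → (∀ v, (Finset.univ.filter fun u => B v u).card = k) →
      (∀ v, (Finset.univ.filter fun u => B u v).card = k) → ∀ X : Finset V, X.Nonempty → Fr B k 4 X →
      k * m + 1 ≤ 2 * X.card) : k * m + 1 ≤ Fintype.card V := by
  obtain ⟨c, hc, hconn, O, S, U, hO, hU, hS, -, -, hn, hcO, hcU⟩ :=
    CUT_.exists_cut (k := k) (by omega) (LAY_.anti hcl hm) hout hin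
  have hcl' : NoCl (fun a b => A b a) m := CUT_.nocl_flip hcl
  have hO' : ∀ e, c + e ≤ k → Fr A k e O := fun e he => ⟨S, by omega, hcO⟩
  have hU' : ∀ e, c + e ≤ k → Fr (fun a b => A b a) k e U := fun e he =>
    ⟨S, by omega, fun a ha b hab => hcU a ha b hab⟩
  rcases Nat.lt_or_ge k (c + 3) with h2 | h2
  · have h1 := e2y_conn V A k c m (by omega) hm hkm hout hin hcl hconn (by omega)
    rw [Nat.mul_comm]
    exact h1
  · rcases Nat.lt_or_ge k (c + 4) with h5 | h5
    · have g1 := h3 A hcl hout hin O hO (hO' 3 (by omega))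
      have g2 := h3 (fun a b => A b a) hcl' hin hout U hU (hU' 3 (by omega))
      omega
    · have g1 := h4 A hcl hout hin O hO (hO' 4 (by omega))
      have g2 := h4 (fun a b => A b a) hcl' hin hout U hU (hU' 4 (by omega))
      omega

/-- **The Behzad-Chartrand-Wall conjecture for the degree 8.** -/
theorem bcw8 (V : Type) [Fintype V] [Nonempty V] (A : V → V → Prop) (m : ℕ) (hm : 2 ≤ m)
    (hout : ∀ v, (Finset.univ.filter fun u => A v u).card = 8)
    (hin : ∀ v, (Finset.univ.filter fun u => A u v).card = 8) (hcl : NoCl A m) :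
    8 * m + 1 ≤ Fintype.card V := by
  rcases Nat.lt_or_ge m 3 with hm2 | hm3
  · obtain rfl : m = 2 := by omega
    exact K7_.m_two hcl hout hin
  refine assemble (by norm_num) hm (by omega) hout hin hcl ?_ ?_
  · intro B hB h1 h2 X hX hF
    have := fr3 hB hm3 h1 h2 hX hF
    omega
  · intro B hB h1 h2 X hX hF
    exact fr4 hB hm3 h1 h2 hX hF

end K8_

open Top_

/-- from the degree condition to `Digraph` -/
theorem top_of (k : ℕ) (h : ∀ (V : Type) [Fintype V] [Nonempty V] (A : V → V → Prop) (m : ℕ), 2 ≤ m →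
      (∀ v, (Finset.univ.filter fun u => A v u).card = k) →
      (∀ v, (Finset.univ.filter fun u => A u v).card = k) → NoCl A m → k * m + 1 ≤ Fintype.card V)
    (V : Type) [Finite V] [Nonempty V] (G : Digraph V)
    (hout : ∀ v, Nat.card {u // G.Adj v u} = k) (hin : ∀ v, Nat.card {u // G.Adj u v} = k)
    (g : ℕ) (hgirth : EM.GirthGe G g) : k * (g - 1) + 1 ≤ Nat.card V := by
  have := Fintype.ofFinite V
  rw [Nat.card_eq_fintype_card]
  rcases Nat.lt_or_ge g 2 with hg | hg
  · have h1 : 1 ≤ Fintype.card V := Fintype.card_pos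
    have h2 : g - 1 = 0 := by omega
    rw [h2, Nat.mul_zero]
    omega
  obtain ⟨m, rfl⟩ : ∃ m, g = m + 1 := ⟨g - 1, by omega⟩
  rcases Nat.lt_or_ge m 2 with hm | hm
  · obtain rfl : m = 1 := by omega
    obtain ⟨x⟩ := ‹Nonempty V›
    have h1 := TE_.cb_one (LAY_.irr (noCl hgirth) (le_refl 1)) (out_card hout) x
    have h2 := Finset.card_le_univ (LAY_.cb G.Adj x 1)
    omega
  · exact h V G.Adj m hm (out_card hout) (in_card hin) (noCl hgirth)

/-- the conjecture for the degrees six, seven and eight, every girth -/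
theorem top_68 (V : Type) [Finite V] [Nonempty V] (G : Digraph V) (k : ℕ) (hk : 6 ≤ k) (hk' : k ≤ 8)
    (hout : ∀ v, Nat.card {u // G.Adj v u} = k) (hin : ∀ v, Nat.card {u // G.Adj u v} = k)
    (g : ℕ) (hgirth : EM.GirthGe G g) : k * (g - 1) + 1 ≤ Nat.card V := by
  obtain rfl | rfl | rfl : k = 6 ∨ k = 7 ∨ k = 8 := by omega
  · exact top5 V G hout hin g hgirth
  · exact top_k7 V G hout hin g hgirth
  · exact top_of 8 (fun V _ _ A m => K8_.bcw8 V A m) V G hout hin g hgirth

end Pool.Agent.Lib.MP_83608f_co.CN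
end
end

section
/-! MP_83608f_co, part CN, module K9A (helper90): a finer checker for lower bounds of fragments.

As in K8A, but with the weighted sums of all the balls and all the deficiencies along the growth of a ball, and a better first step (the
sinks of the out-neighbourhood). -/
set_option autoImplicit false

open Classical

noncomputable section

namespace Pool.Agent.Lib.MP_83608f_co.CN

open Pool.Agent.Lib.MP_83608f_co.EM (Wk)

namespace K9_

open LAY_ (cb cb_walk cb_sub mem_cb_self)
open SD_ K8_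

variable {V : Type} [Fintype V] {A : V → V → Prop} {k m e q : ℕ}

/-- the deficiency of the out-neighbours which is needed for the growth `h` in the first step -/
def sk1 (m q k d h : ℕ) : ℕ → ℕ → ℕ → ℕ
  | 0, _, _ => 0
  | f + 1, j, τ =>
    if j < d then
      max ((j + 1) * k - ((j + 1) * h + (τ + (tt m q (d - j) + j)))) (sk1 m q k d h f (j + 1) (τ + (tt m q (d - j) + j)))
    else 0

lemma nw_zero (hirr : ∀ v, ¬ A v v) {X : Finset V} {v : V} (hv : v ∈ X) :
    nw A X v 0 = X.filter fun w => A v w := by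
  unfold nw
  rw [K7_.cb1 hv]
  ext z
  rw [Finset.mem_sdiff, Finset.mem_insert, cb, Finset.mem_singleton]
  constructor
  · rintro ⟨h1 | h1, h2⟩
    · exact absurd h1 h2
    · exact h1
  · intro h
    refine ⟨Or.inr h, ?_⟩
    rintro rfl
    exact hirr z (Finset.mem_filter.1 h).2

/-- the sinks of the out-neighbourhood -/
lemma sinks1 (hcl : NoCl A m) (hm : 2 ≤ m) (hq : Q3 A q) {X : Finset V} (hdk : ∀ u, dg A X u ≤ k)
    {v : V} (hv : v ∈ X) (h : ℕ) (hh : (cb (rs A X) v 2).card ≤ (cb (rs A X) v 1).card + h) (f : ℕ) :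
    ∀ j τ (R : Finset V), R ⊆ X.filter (fun w => A v w) → R.card = j →
      j * k ≤ j * h + τ + ∑ u ∈ R, (k - dg A X u) →
      sk1 m q k (dg A X v) h f j τ ≤ ∑ u ∈ X.filter (fun w => A v w), (k - dg A X u) := by
  induction f with
  | zero =>
    intro j τ R _ _ _
    exact Nat.zero_le _
  | succ f ih =>
    intro j τ R hR hRj hsum
    rw [sk1]
    split_ifs with hlt
    swap
    · exact Nat.zero_le _
    have hc := Finset.card_sdiff_add_card_eq_card hR
    have hcN : (X.filter fun w => A v w).card = dg A X v := rfl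
    have hne : ((X.filter fun w => A v w) \ R).Nonempty := by
      rw [← Finset.card_pos]
      omega
    obtain ⟨u, hu, h1⟩ := tt_spec (q := q) hcl hq hne
    have hcard : ((X.filter fun w => A v w) \ R).card = dg A X v - j := by omega
    rw [hcard] at h1
    have huN := (Finset.mem_sdiff.1 hu).1
    have huR := (Finset.mem_sdiff.1 hu).2
    have h2 : dg A (X.filter fun w => A v w) u ≤ tt m q (dg A X v - j) + j := by
      have h3 : ((X.filter fun w => A v w).filter fun w => A u w) ⊆
          (((X.filter fun w => A v w) \ R).filter fun w => A u w) ∪ R := by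
        intro w hw
        rw [Finset.mem_filter] at hw
        rw [Finset.mem_union, Finset.mem_filter, Finset.mem_sdiff]
        by_cases hwR : w ∈ R
        · exact Or.inr hwR
        · exact Or.inl ⟨⟨hw.1, hwR⟩, hw.2⟩
      have h4 := (Finset.card_le_card h3).trans (Finset.card_union_le _ _)
      have h5 : dg A (X.filter fun w => A v w) u = ((X.filter fun w => A v w).filter fun w => A u w).card := rfl
      have h6 : dg A ((X.filter fun w => A v w) \ R) u =
          (((X.filter fun w => A v w) \ R).filter fun w => A u w).card := rfl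
      omega
    have h7 := K7_.gr_nb hcl hm hv huN
    have h8 := hdk u
    have hR' : insert u R ⊆ X.filter fun w => A v w := by
      intro w hw
      rcases Finset.mem_insert.1 hw with rfl | h
      · exact huN
      · exact hR h
    have hsum' : (j + 1) * k ≤ (j + 1) * h + (τ + (tt m q (dg A X v - j) + j)) + ∑ u ∈ insert u R, (k - dg A X u) := by
      rw [Finset.sum_insert huR]
      have e1 : (j + 1) * k = j * k + k := by ring
      have e2 : (j + 1) * h = j * h + h := by ring
      rw [e1, e2]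
      omega
    refine max_le ?_ (ih (j + 1) _ (insert u R) hR' (by rw [Finset.card_insert_of_notMem huR, hRj]) hsum')
    have h9 := Finset.sum_le_sum_of_subset (f := fun u => k - dg A X u) hR'
    omega

/-- the least growth in the first step -/
def gm1 (m q e d : ℕ) : ℕ := max 1 (e - tt m q d)

lemma gm1_le (hcl : NoCl A m) (hm : 2 ≤ m) (hq : Q3 A q) (hk : 1 ≤ k) (he : 1 ≤ e)
    (hout : ∀ v, (Finset.univ.filter fun u => A v u).card = k) {X : Finset V} (hX : Mi A k e X)
    {v : V} (hv : v ∈ X) :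
    (cb (rs A X) v 1).card + gm1 m q e (dg A X v) ≤ (cb (rs A X) v 2).card := by
  have h1 := grow_one hk he hcl hout hX hv 1 hm
  have hd := dg_ge hout hX.2.1 hv
  have hne : (X.filter fun w => A v w).Nonempty := by
    rw [← Finset.card_pos]
    unfold dg at hd
    omega
  obtain ⟨u, hu, h2⟩ := tt_spec (q := q) hcl hq hne
  have hcN : (X.filter fun w => A v w).card = dg A X v := rfl
  rw [hcN] at h2
  have h3 := K7_.gr_nb hcl hm hv hu
  have h4 := dg_ge hout hX.2.1 (Finset.mem_filter.1 hu).1
  have e2 : 1 + 1 = 2 := rfl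
  rw [e2] at h1
  unfold gm1
  omega

/-- a large number -/
def INF2 : ℕ := 1000000000

/-- the least entry -/
def mm : List ℕ → ℕ
  | [] => INF2
  | g :: G => min g (mm G)

lemma mm_le (G : List ℕ) : ∀ (x : ℕ) (h : x < G.length), mm G ≤ G[x] := by
  induction G with
  | nil => intro x h; exact absurd h (by simp)
  | cons g G ih =>
    intro x h
    rw [mm]
    rcases Nat.eq_zero_or_pos x with h0 | h0
    · subst h0
      exact min_le_left _ _
    · obtain ⟨x', rfl⟩ : ∃ x', x = x' + 1 := ⟨x - 1, by omega⟩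
      exact (min_le_right _ _).trans (ih x' (by simpa using h))

/-- the entry `b'` of the next table, without the weight of the new ball -/
def inn (m q k e ν b' : ℕ) : List ℕ → ℕ → ℕ
  | [], _ => INF2
  | g :: G, b =>
    if b < b' then
      min (if b' < b + gm m q e b then INF2 else if INF2 ≤ g then g else g + ν * sk m q k e b (b' - b) e 0 0)
        (inn m q k e ν b' G (b + 1))
    else INF2

lemma inn_le (ν b' : ℕ) (G : List ℕ) : ∀ (b n : ℕ) (hn : n < G.length),
    b + n + gm m q e (b + n) ≤ b' →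
      inn m q k e ν b' G b ≤ G[n] + ν * sk m q k e (b + n) (b' - (b + n)) e 0 0 := by
  induction G with
  | nil => intro b n hn; exact absurd hn (by simp)
  | cons g G ih =>
    intro b n hn h2
    have hg : 1 ≤ gm m q e (b + n) := le_max_left _ _
    rw [inn, if_pos (by omega)]
    rcases Nat.eq_zero_or_pos n with h0 | h0
    · subst h0
      refine (min_le_left _ _).trans ?_
      simp only [List.getElem_cons_zero]
      rw [Nat.add_zero] at h2 ⊢
      rw [if_neg (by omega)]
      split_ifs
      · exact Nat.le_add_right _ _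
      · exact le_refl _
    · obtain ⟨n', rfl⟩ : ∃ n', n = n' + 1 := ⟨n - 1, by omega⟩
      refine (min_le_right _ _).trans ?_
      simp only [List.getElem_cons_succ]
      have e1 : b + (n' + 1) = b + 1 + n' := by ring
      rw [e1] at h2 ⊢
      exact ih (b + 1) n' (by simpa using hn) h2

/-- the first step: the table for the radius 2 -/
def nx1 (m q k e d L w0 w1 ν : ℕ) : List ℕ := (List.range (L + 1)).map fun b' =>
  if b' < L then
    (if b' < 1 + d + gm1 m q e d then INF2 else w0 * (1 + d) + ν * sk1 m q k d (b' - (1 + d)) d 0 0 + w1 * b')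
  else w0 * (1 + d) + w1 * b'

/-- the next table -/
def nxt (m q k e L w ν : ℕ) (G : List ℕ) : List ℕ := (List.range (L + 1)).map fun b' =>
  (if b' < L then inn m q k e ν b' G 0 else mm G) + w * b'

/-- the pair `(x, C)` respects the table -/
def Ok (L : ℕ) (G : List ℕ) (x C : ℕ) : Prop := ∀ h : min x L < G.length, G[min x L] ≤ C

lemma nx1_ok {L d x' δ w0 w1 ν : ℕ} (h1 : 1 + d + gm1 m q e d ≤ x')
    (h2 : sk1 m q k d (x' - (1 + d)) d 0 0 ≤ δ) :
    Ok L (nx1 m q k e d L w0 w1 ν) x' (w0 * (1 + d) + ν * δ + w1 * x') := by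
  intro hx
  unfold nx1
  rw [List.getElem_map, List.getElem_range]
  rcases Nat.lt_or_ge x' L with h | h
  · rw [Nat.min_eq_left h.le, if_pos h, if_neg (by omega)]
    have := Nat.mul_le_mul_left ν h2
    omega
  · rw [Nat.min_eq_right h, if_neg (lt_irrefl _)]
    have := Nat.mul_le_mul_left w1 h
    omega

lemma nxt_ok {L w ν : ℕ} {G : List ℕ} (hG : G.length = L + 1) {x C x' δ : ℕ} (h : Ok L G x C)
    (h1 : x + gm m q e x ≤ x') (h2 : sk m q k e x (x' - x) e 0 0 ≤ δ) :
    Ok L (nxt m q k e L w ν G) x' (C + ν * δ + w * x') := by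
  intro hx
  unfold nxt
  rw [List.getElem_map, List.getElem_range]
  have hg : 1 ≤ gm m q e x := le_max_left _ _
  have h3 : min x L < G.length := by omega
  have h4 := h h3
  rcases Nat.lt_or_ge x' L with h5 | h5
  · rw [Nat.min_eq_left h5.le, if_pos h5]
    have h6 : min x L = x := Nat.min_eq_left (by omega)
    have h7 : x < G.length := by omega
    have h8 : G[x] ≤ C := by
      have h9 : G[min x L] = G[x] := by
        congr 1
      rw [← h9]
      exact h4
    have h9 := inn_le (m := m) (q := q) (k := k) (e := e) ν x' G 0 x h7 (by rw [Nat.zero_add]; exact h1)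
    rw [Nat.zero_add] at h9
    have := Nat.mul_le_mul_left ν h2
    omega
  · rw [Nat.min_eq_right h5, if_neg (lt_irrefl _)]
    have h6 := mm_le G _ h3
    have := Nat.mul_le_mul_left w h5
    omega

lemma len_nx1 (m q k e d L w0 w1 ν : ℕ) : (nx1 m q k e d L w0 w1 ν).length = L + 1 := by
  unfold nx1
  rw [List.length_map, List.length_range]

lemma len_nxt (m q k e L w ν : ℕ) (G : List ℕ) : (nxt m q k e L w ν G).length = L + 1 := by
  unfold nxt
  rw [List.length_map, List.length_range]

/-- `∑ i < n, M (a + i)` -/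
def nuS (M : ℕ → ℕ) : ℕ → ℕ → ℕ
  | 0, _ => 0
  | n + 1, a => M a + nuS M n (a + 1)

/-- the weights of the radii `≥ l + 2` -/
def nu (M : ℕ → ℕ) (m l : ℕ) : ℕ := nuS M (m - (l + 2)) (l + 2)

lemma nu_succ (M : ℕ → ℕ) (m l : ℕ) (h : l + 2 < m) : nu M m l = M (l + 2) + nu M m (l + 1) := by
  unfold nu
  obtain ⟨n, hn⟩ : ∃ n, m - (l + 2) = n + 1 := ⟨m - (l + 2) - 1, by omega⟩
  have h2 : m - (l + 1 + 2) = n := by omega
  rw [hn, nuS, h2]

lemma nu_last (M : ℕ → ℕ) (m : ℕ) (h : 2 ≤ m) : nu M m (m - 2) = 0 := by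
  unfold nu
  have h2 : m - (m - 2 + 2) = 0 := by omega
  rw [h2, nuS]

/-- the weight of the ball of radius `l + 1` -/
def Wd (W M : ℕ → ℕ) (m l f : ℕ) : ℕ := W (l + 1) + M (m - l) * f

/-- the table for the radius `l + 2` -/
def tab (m q k e d L : ℕ) (W M : ℕ → ℕ) : ℕ → List ℕ
  | 0 => nx1 m q k e d L (Wd W M m 0 (k - d)) (Wd W M m 1 (k - d)) (nu M m 0)
  | l + 1 => nxt m q k e L (Wd W M m (l + 2) (k - d)) (nu M m (l + 1)) (tab m q k e d L W M l)

lemma len_tab (m q k e d L : ℕ) (W M : ℕ → ℕ) (l : ℕ) : (tab m q k e d L W M l).length = L + 1 := by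
  cases l with
  | zero => exact len_nx1 _ _ _ _ _ _ _ _ _
  | succ l => exact len_nxt _ _ _ _ _ _ _ _

/-- the deficiency of the distances `1..i-1` -/
def Cd (A : V → V → Prop) (k : ℕ) (X : Finset V) (v : V) (i : ℕ) : ℕ := df A k X v (i - 1) - df A k X v 0

lemma df_mono (X : Finset V) (v : V) (l : ℕ) : df A k X v 0 ≤ df A k X v l := by
  induction l with
  | zero => exact le_refl _
  | succ l ih =>
    rw [df_succ]
    omega

lemma Cd_one (X : Finset V) (v : V) : Cd A k X v 1 = 0 := Nat.sub_self _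

lemma Cd_zero (X : Finset V) (v : V) : Cd A k X v 0 = 0 := Nat.sub_self _

lemma Cd_succ (X : Finset V) (v : V) (l : ℕ) :
    Cd A k X v (l + 2) = Cd A k X v (l + 1) + ∑ u ∈ nw A X v l, (k - dg A X u) := by
  have h1 := df_mono (A := A) (k := k) X v l
  have h2 := df_succ (A := A) (k := k) X v l
  unfold Cd
  have e1 : l + 2 - 1 = l + 1 := rfl
  have e2 : l + 1 - 1 = l := rfl
  rw [e1, e2]
  omega

/-- the cost of the balls up to the radius `l + 1` -/
def cst (A : V → V → Prop) (k m : ℕ) (W M : ℕ → ℕ) (X : Finset V) (v : V) (l : ℕ) : ℕ :=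
  ∑ i ∈ Finset.range (l + 1), Wd W M m i (k - dg A X v) * (cb (rs A X) v (i + 1)).card +
    ∑ i ∈ Finset.range (l + 2), M i * Cd A k X v i + nu M m l * Cd A k X v (l + 1)

lemma cst_zero (hirr : ∀ v, ¬ A v v) (W M : ℕ → ℕ) {X : Finset V} {v : V} (hv : v ∈ X) :
    cst A k m W M X v 0 = Wd W M m 0 (k - dg A X v) * (1 + dg A X v) := by
  unfold cst
  rw [Finset.sum_range_one, Finset.sum_range_succ, Finset.sum_range_one, Nat.zero_add, Cd_one, Cd_zero,
    cb_one hirr hv]
  ring

lemma cst_succ (W M : ℕ → ℕ) (X : Finset V) (v : V) (l : ℕ) (hl : l + 2 < m) :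
    cst A k m W M X v (l + 1) = cst A k m W M X v l + nu M m l * (∑ u ∈ nw A X v l, (k - dg A X u)) +
      Wd W M m (l + 1) (k - dg A X v) * (cb (rs A X) v (l + 2)).card := by
  have h1 := Cd_succ (A := A) (k := k) X v l
  have h2 := nu_succ M m l hl
  unfold cst
  rw [Finset.sum_range_succ _ (l + 1), Finset.sum_range_succ _ (l + 2)]
  have e1 : l + 1 + 1 = l + 2 := rfl
  rw [e1, h1, h2]
  ring

/-- the table is respected by the balls -/
lemma tab_ok (hcl : NoCl A m) (hq : Q3 A q) (hk : 1 ≤ k) (he : 1 ≤ e)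
    (hout : ∀ v, (Finset.univ.filter fun u => A v u).card = k) {X : Finset V} (hX : Mi A k e X)
    (L : ℕ) (W M : ℕ → ℕ) {v : V} (hv : v ∈ X) (l : ℕ) (hl : l + 2 < m) :
    Ok L (tab m q k e (dg A X v) L W M l) (cb (rs A X) v (l + 2)).card (cst A k m W M X v (l + 1)) := by
  have hirr := LAY_.irr hcl (by omega)
  have hdk : ∀ u, dg A X u ≤ k := fun u => dg_le hout X u
  induction l with
  | zero =>
    have h1 := gm1_le hcl (by omega) hq hk he hout hX hv
    have h2 : sk1 m q k (dg A X v) ((cb (rs A X) v 2).card - (cb (rs A X) v 1).card) (dg A X v) 0 0 ≤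
        ∑ u ∈ nw A X v 0, (k - dg A X u) := by
      rw [nw_zero hirr hv]
      exact sinks1 hcl (by omega) hq hdk hv _ (by omega) (dg A X v) 0 0 ∅ (Finset.empty_subset _) rfl (by simp)
    rw [cb_one hirr hv] at h1 h2
    have h3 := nx1_ok (L := L) (w0 := Wd W M m 0 (k - dg A X v)) (w1 := Wd W M m 1 (k - dg A X v)) (ν := nu M m 0) h1 h2
    rw [cst_succ W M X v 0 (by omega), cst_zero hirr W M hv]
    exact h3
  | succ l ih =>
    have h1 := ih (by omega)
    have h2 := gm_le hcl hq hk he hout hX hv (l + 2) (by omega)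
    have h3 : sk m q k e (cb (rs A X) v (l + 2)).card ((cb (rs A X) v (l + 3)).card - (cb (rs A X) v (l + 2)).card) e 0 0 ≤
        ∑ u ∈ nw A X v (l + 1), (k - dg A X u) := by
      have h4 := Finset.card_le_card (cb_sub (A := rs A X) v (l + 2))
      refine sinks hcl hq (fun u hu => dg_ge hout hX.2.1 hu) hdk hv (l + 1) _ (by
        have h17 : l + 2 + 1 = l + 3 := rfl
        have h18 : l + 1 + 1 = l + 2 := rfl
        have h19 : l + 1 + 2 = l + 3 := rfl
        rw [h17] at h4
        rw [h18, h19]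
        omega) e 0 0 ∅ (Finset.empty_subset _) rfl (by simp)
    have h5 := nxt_ok (L := L) (w := Wd W M m (l + 2) (k - dg A X v)) (ν := nu M m (l + 1))
      (len_tab m q k e (dg A X v) L W M l) h1 h2 h3
    rw [cst_succ W M X v (l + 1) (by omega)]
    exact h5

/-- the averages of the deficiencies, with the sizes of the out-balls -/
lemma avg_f (hcl : NoCl A m) (X : Finset V) (f : V → ℕ) (i t : ℕ) (hit : i + t ≤ m) :
    ∑ v ∈ X, ∑ u ∈ cb (rs A X) v i, f u + ∑ u ∈ X, f u * (cb (rs A X) u t).card ≤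
      (X.card + 1) * ∑ u ∈ X, f u := by
  rw [sum_flip, Finset.mul_sum, ← Finset.sum_add_distrib]
  refine Finset.sum_le_sum fun u hu => ?_
  have h1 := two_balls hcl hu t i (by omega)
  calc f u * (cb (fun a b => rs A X b a) u i).card + f u * (cb (rs A X) u t).card
      = ((cb (rs A X) u t).card + (cb (fun a b => rs A X b a) u i).card) * f u := by ring
    _ ≤ (X.card + 1) * f u := Nat.mul_le_mul_right _ h1

/-- a certificate: the weights of the balls and of the deficiencies (index = radius) -/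
structure C2 where
  w : List ℕ
  μ : List ℕ
  lam : ℕ
  A : ℕ

/-- the weights -/
def C2.W (c : C2) (l : ℕ) : ℕ := c.w.getD l 0

/-- the weights of the deficiencies -/
def C2.M (c : C2) (i : ℕ) : ℕ := c.μ.getD i 0

/-- the check of a certificate for the sizes `lo..N-1` -/
def chk (m q k e L lo N : ℕ) (c : C2) : Bool :=
  decide (3 ≤ m) && decide (c.M 0 = 0) && decide (c.M 1 = 0) && decide (c.M m = 0) &&
  (List.range (m - 1)).all (fun l => decide (c.W (l + 1) = c.W (m - 1 - l))) &&
  (List.range (k + 1 - e)).all (fun x => decide (c.A + nuS c.M m 0 * (N - 1) * (k - (e + x)) ≤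
    mm (tab m q k e (e + x) L c.W c.M (m - 3)) + c.lam * (k - (e + x)))) &&
  (List.range (N - lo)).all (fun x => decide (nuS c.W (m - 1) 1 * ((lo + x) * (lo + x + 1)) + 2 * c.lam * (k * (k - e)) <
    2 * c.A * (lo + x)))

lemma nuS_eq (M : ℕ → ℕ) (n : ℕ) : ∀ a, nuS M n a = ∑ i ∈ Finset.range n, M (a + i) := by
  induction n with
  | zero => intro a; rfl
  | succ n ih =>
    intro a
    rw [nuS, ih (a + 1), Finset.sum_range_succ', Nat.add_zero, add_comm]
    congr 1
    refine Finset.sum_congr rfl fun i _ => ?_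
    congr 1
    ring

/-- **the size of a minimal fragment** -/
theorem frag_chk (hcl : NoCl A m) (hq : Q3 A q) (hk : 1 ≤ k) (he : 1 ≤ e)
    (hout : ∀ v, (Finset.univ.filter fun u => A v u).card = k)
    (hin : ∀ v, (Finset.univ.filter fun u => A u v).card = k) {X : Finset V} (hX : Mi A k e X) (L lo N : ℕ)
    (hlo : lo ≤ X.card) (c : C2) (hc : chk m q k e L lo N c = true) : N ≤ X.card := by
  unfold chk at hc
  simp only [Bool.and_eq_true, decide_eq_true_eq, List.all_eq_true, List.mem_range] at hc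
  obtain ⟨⟨⟨⟨⟨⟨hm, hM0⟩, hM1⟩, hMm⟩, hsym⟩, h1⟩, h2⟩ := hc
  by_contra hcon
  have hsdef := sum_def hout hin hX.2.1
  have hdk : ∀ v, dg A X v ≤ k := fun v => dg_le hout X v
  have hde : ∀ v ∈ X, e ≤ dg A X v := fun v hv => dg_ge hout hX.2.1 hv
  set s := X.card with hs
  set D := ∑ v ∈ X, (k - dg A X v) with hD
  -- the bound for each vertex
  have hper : ∀ v ∈ X, c.A + nuS c.M m 0 * s * (k - dg A X v) ≤
      cst A k m c.W c.M X v (m - 2) + c.lam * (k - dg A X v) := by
    intro v hv
    have h3 := h1 (dg A X v - e) (by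
      have := hde v hv
      have := hdk v
      omega)
    rw [Nat.add_sub_cancel' (hde v hv)] at h3
    have h4 := tab_ok hcl hq hk he hout hX L c.W c.M hv (m - 3) (by omega)
    have h5 : min (cb (rs A X) v (m - 3 + 2)).card L < (tab m q k e (dg A X v) L c.W c.M (m - 3)).length := by
      rw [len_tab]
      omega
    have h6 := (mm_le _ _ h5).trans (h4 h5)
    have e1 : m - 3 + 1 = m - 2 := by omega
    rw [e1] at h6
    have h7 : nuS c.M m 0 * s * (k - dg A X v) ≤ nuS c.M m 0 * (N - 1) * (k - dg A X v) :=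
      Nat.mul_le_mul_right _ (Nat.mul_le_mul_left _ (by omega))
    omega
  have hsum := Finset.sum_le_sum hper
  rw [Finset.sum_add_distrib, Finset.sum_add_distrib, Finset.sum_const, smul_eq_mul, ← Finset.mul_sum,
    ← Finset.mul_sum, ← hD, ← hs] at hsum
  -- the total cost
  have hF : ∀ v, cst A k m c.W c.M X v (m - 2) =
      ∑ i ∈ Finset.range (m - 1), c.W (i + 1) * (cb (rs A X) v (i + 1)).card +
        (∑ i ∈ Finset.range (m - 1), c.M (m - i) * ((k - dg A X v) * (cb (rs A X) v (i + 1)).card) +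
        ∑ i ∈ Finset.range m, c.M i * Cd A k X v i) := by
    intro v
    unfold cst
    rw [nu_last c.M m (by omega), Nat.zero_mul, Nat.add_zero]
    have e1 : m - 2 + 1 = m - 1 := by omega
    have e2 : m - 2 + 2 = m := by omega
    rw [e1, e2, ← add_assoc, ← Finset.sum_add_distrib]
    congr 1
    refine Finset.sum_congr rfl fun i _ => ?_
    unfold Wd
    ring
  rw [Finset.sum_congr rfl fun v _ => hF v, Finset.sum_add_distrib, Finset.sum_add_distrib] at hsum
  -- part 1
  set P : ℕ → ℕ := fun i => ∑ v ∈ X, (cb (rs A X) v i).card with hP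
  have hpart1 : 2 * ∑ v ∈ X, ∑ i ∈ Finset.range (m - 1), c.W (i + 1) * (cb (rs A X) v (i + 1)).card ≤
      nuS c.W (m - 1) 1 * (s * (s + 1)) := by
    have h3 : ∑ v ∈ X, ∑ i ∈ Finset.range (m - 1), c.W (i + 1) * (cb (rs A X) v (i + 1)).card =
        ∑ i ∈ Finset.range (m - 1), c.W (i + 1) * P (i + 1) := by
      rw [Finset.sum_comm]
      exact Finset.sum_congr rfl fun i _ => (Finset.mul_sum _ _ _).symm
    have h4 : ∑ i ∈ Finset.range (m - 1), c.W (i + 1) * P (i + 1) =
        ∑ i ∈ Finset.range (m - 1), c.W (i + 1) * P (m - 1 - i) := by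
      rw [← Finset.sum_range_reflect]
      refine Finset.sum_congr rfl fun i hi => ?_
      have hi' := Finset.mem_range.1 hi
      have e1 : m - 1 - 1 - i + 1 = m - 1 - i := by omega
      rw [e1, ← hsym i hi']
    have h5 : 2 * ∑ i ∈ Finset.range (m - 1), c.W (i + 1) * P (i + 1) =
        ∑ i ∈ Finset.range (m - 1), c.W (i + 1) * (P (i + 1) + P (m - 1 - i)) := by
      rw [two_mul]
      nth_rewrite 2 [h4]
      rw [← Finset.sum_add_distrib]
      exact Finset.sum_congr rfl fun i _ => by ring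
    rw [h3, h5, nuS_eq, Finset.sum_mul]
    refine Finset.sum_le_sum fun i hi => ?_
    have hi' := Finset.mem_range.1 hi
    have h6 := avg hcl X (i + 1) (m - 1 - i) (by omega)
    rw [Finset.sum_add_distrib] at h6
    have e1 : 1 + i = i + 1 := by ring
    rw [e1]
    exact Nat.mul_le_mul_left _ h6
  -- part 2
  set F : ℕ → ℕ := fun i => ∑ v ∈ X, (k - dg A X v) * (cb (rs A X) v i).card with hFF
  have hpart2 : ∑ v ∈ X, ∑ i ∈ Finset.range (m - 1), c.M (m - i) * ((k - dg A X v) * (cb (rs A X) v (i + 1)).card) +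
      ∑ v ∈ X, ∑ i ∈ Finset.range m, c.M i * Cd A k X v i ≤ nuS c.M m 0 * (s * D) := by
    have h3 : ∑ v ∈ X, ∑ i ∈ Finset.range (m - 1), c.M (m - i) * ((k - dg A X v) * (cb (rs A X) v (i + 1)).card) =
        ∑ i ∈ Finset.range (m - 1), c.M (m - i) * F (m + 1 - (m - i)) := by
      rw [Finset.sum_comm]
      refine Finset.sum_congr rfl fun i hi => ?_
      have hi' := Finset.mem_range.1 hi
      have e1 : m + 1 - (m - i) = i + 1 := by omega
      rw [e1]
      exact (Finset.mul_sum _ _ _).symm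
    have h4 : ∑ i ∈ Finset.range (m - 1), c.M (m - i) * F (m + 1 - (m - i)) =
        ∑ i ∈ Finset.range m, c.M i * F (m + 1 - i) := by
      obtain ⟨g, hg⟩ : ∃ g : ℕ → ℕ, ∀ i, g i = c.M i * F (m + 1 - i) := ⟨fun i => c.M i * F (m + 1 - i), fun _ => rfl⟩
      have g0 : g 0 = 0 := by rw [hg, hM0, Nat.zero_mul]
      have g1 : g 1 = 0 := by rw [hg, hM1, Nat.zero_mul]
      have gm' : g m = 0 := by rw [hg, hMm, Nat.zero_mul]
      have k1 : ∑ i ∈ Finset.range (m - 1), c.M (m - i) * F (m + 1 - (m - i)) =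
          ∑ i ∈ Finset.range (m - 1), g (m - i) := Finset.sum_congr rfl fun i _ => (hg (m - i)).symm
      have k2 : ∑ i ∈ Finset.range m, c.M i * F (m + 1 - i) = ∑ i ∈ Finset.range m, g i :=
        Finset.sum_congr rfl fun i _ => (hg i).symm
      have k3 : ∑ j ∈ Finset.range (m + 1), g (m - j) = ∑ j ∈ Finset.range (m + 1), g j :=
        Finset.sum_range_reflect g (m + 1)
      have k4 : ∑ j ∈ Finset.range (m + 1), g j = ∑ j ∈ Finset.range m, g j := by
        rw [Finset.sum_range_succ, gm', Nat.add_zero]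
      have k5 : ∑ j ∈ Finset.range (m + 1), g (m - j) = ∑ j ∈ Finset.range (m - 1), g (m - j) := by
        obtain ⟨m', hm'⟩ : ∃ m', m = m' + 1 := ⟨m - 1, by omega⟩
        have e2 : m - 1 = m' := by omega
        rw [Finset.sum_range_succ, Nat.sub_self, g0, Nat.add_zero, e2]
        nth_rewrite 1 [hm']
        rw [Finset.sum_range_succ]
        have e3 : m - m' = 1 := by omega
        rw [e3, g1, Nat.add_zero]
      rw [k1, k2, ← k5, k3, k4]
    have h5 : ∑ v ∈ X, ∑ i ∈ Finset.range m, c.M i * Cd A k X v i =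
        ∑ i ∈ Finset.range m, c.M i * ∑ v ∈ X, Cd A k X v i := by
      rw [Finset.sum_comm]
      exact Finset.sum_congr rfl fun i _ => (Finset.mul_sum _ _ _).symm
    rw [h3, h4, h5, ← Finset.sum_add_distrib, nuS_eq, Finset.sum_mul]
    refine Finset.sum_le_sum fun i hi => ?_
    have hi' := Finset.mem_range.1 hi
    rw [Nat.zero_add, ← Nat.mul_add]
    refine Nat.mul_le_mul_left _ ?_
    rcases Nat.eq_zero_or_pos i with h0 | h0
    · subst h0
      -- not needed: the weight is zero, but the bound is true only for `i ≥ 1`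
      have h6 : ∑ v ∈ X, Cd A k X v 0 = 0 := Finset.sum_eq_zero fun v _ => Cd_zero X v
      rw [h6, Nat.add_zero]
      have h7 : F (m + 1 - 0) ≤ s * D := by
        rw [hFF, hD, Finset.mul_sum]
        refine Finset.sum_le_sum fun v hv => ?_
        rw [Nat.mul_comm]
        exact Nat.mul_le_mul_right _ (Finset.card_le_card (cb_rs_sub hv _))
      exact h7
    · have h6 : ∑ v ∈ X, ∑ u ∈ cb (rs A X) v (i - 1), (k - dg A X u) + F (m + 1 - i) ≤ (X.card + 1) *
          ∑ u ∈ X, (k - dg A X u) := avg_f hcl X (fun u => k - dg A X u) (i - 1) (m + 1 - i) (by omega)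
      have h7 : ∑ v ∈ X, Cd A k X v i + D = ∑ v ∈ X, ∑ u ∈ cb (rs A X) v (i - 1), (k - dg A X u) := by
        rw [hD, ← Finset.sum_add_distrib]
        refine Finset.sum_congr rfl fun v _ => ?_
        have h8 := df_mono (A := A) (k := k) X v (i - 1)
        have h9 : df A k X v 0 = k - dg A X v := by
          unfold df
          rw [cb, Finset.sum_singleton]
        have h10 : df A k X v (i - 1) = ∑ u ∈ cb (rs A X) v (i - 1), (k - dg A X u) := rfl
        unfold Cd
        rw [← h9, ← h10]
        omega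
      rw [← h7, ← hD, ← hs] at h6
      have h8 : (s + 1) * D = s * D + D := by ring
      rw [h8] at h6
      omega
  have h3 := h2 (s - lo) (by omega)
  rw [Nat.add_sub_cancel' hlo] at h3
  have h4 : 2 * c.lam * D ≤ 2 * c.lam * (k * (k - e)) := Nat.mul_le_mul_left _ hsdef
  nlinarith

end K9_

end Pool.Agent.Lib.MP_83608f_co.CN
end
end

section
/-! MP_83608f_co, part CN, module K9B (helper90): a fast checker for lower bounds of fragments (backward dynamic programming),
and sets with at least three out-neighbours inside. -/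
set_option autoImplicit false

open Classical

noncomputable section

namespace Pool.Agent.Lib.MP_83608f_co.CN

open Pool.Agent.Lib.MP_83608f_co.EM (Wk)

namespace K9B_

open LAY_ (cb cb_walk cb_sub mem_cb_self)
open SD_ K8_

variable {V : Type} [Fintype V] {A : V → V → Prop} {k m e q : ℕ}

/-- evaluate the number first -/
def force {α : Type} (n : ℕ) (f : ℕ → α) : α :=
  match n with
  | 0 => f 0
  | n + 1 => f (n + 1)

lemma force_eq {α : Type} (n : ℕ) (f : ℕ → α) : force n f = f n := by
  cases n <;> rfl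

/-- the value for the ball size `b`; the list contains the values of the next radius for the sizes `b + h, b + h + 1, ...` -/
def ent (m q k e μ top b : ℕ) : List ℕ → ℕ → ℕ
  | [], _ => top
  | f :: G, h =>
    if k ≤ h then f
    else min (if h < gm m q e b then top else μ * sk m q k e b h e 0 0 + f) (ent m q k e μ top b G (h + 1))

/-- the values are monotone and at most `top` -/
def Mono (top : ℕ) (G : List ℕ) : Prop := ∀ n, G.getD n top ≤ G.getD (n + 1) top

lemma Mono.le {top : ℕ} {G : List ℕ} (h : Mono top G) {a b : ℕ} (hab : a ≤ b) : G.getD a top ≤ G.getD b top := by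
  induction b with
  | zero =>
    obtain rfl : a = 0 := by omega
    exact le_refl _
  | succ b ih =>
    rcases Nat.lt_or_ge a (b + 1) with h1 | h1
    · exact (ih (by omega)).trans (h b)
    · obtain rfl : a = b + 1 := by omega
      exact le_refl _

lemma Mono.tail {top g : ℕ} {G : List ℕ} (h : Mono top (g :: G)) : Mono top G := fun n => by
  have := h (n + 1)
  simpa using this

lemma ent_le (μ top b : ℕ) (G : List ℕ) (hG : Mono top G) : ∀ h h' : ℕ, h ≤ h' → gm m q e b ≤ h' →
    ent m q k e μ top b G h ≤ μ * sk m q k e b h' e 0 0 + G.getD (h' - h) top := by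
  induction G with
  | nil =>
    intro h h' _ _
    rw [ent]
    simp
  | cons f G ih =>
    intro h h' h1 h2
    rw [ent]
    split_ifs with g1 g2
    · have h3 := hG.le (Nat.zero_le (h' - h))
      have h4 : (f :: G).getD 0 top = f := rfl
      rw [h4] at h3
      exact h3.trans (Nat.le_add_left _ _)
    · rcases Nat.lt_or_ge h h' with h3 | h3
      · refine (min_le_right _ _).trans ((ih hG.tail (h + 1) h' h3 h2).trans (Nat.add_le_add_left (le_of_eq ?_) _))
        obtain ⟨x, hx⟩ : ∃ x, h' - h = x + 1 := ⟨h' - h - 1, by omega⟩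
        have hx' : h' - (h + 1) = x := by omega
        rw [hx, hx']
        simp
      · omega
    · rcases Nat.lt_or_ge h h' with h3 | h3
      · refine (min_le_right _ _).trans ((ih hG.tail (h + 1) h' h3 h2).trans (Nat.add_le_add_left (le_of_eq ?_) _))
        obtain ⟨x, hx⟩ : ∃ x, h' - h = x + 1 := ⟨h' - h - 1, by omega⟩
        have hx' : h' - (h + 1) = x := by omega
        rw [hx, hx']
        simp
      · obtain rfl : h = h' := by omega
        refine (min_le_left _ _).trans ?_
        rw [Nat.sub_self]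
        exact le_refl _

/-- the table for the previous radius -/
def bk (m q k e μ top : ℕ) : List ℕ → ℕ → List ℕ
  | [], _ => []
  | _ :: G, b =>
    match bk m q k e μ top G (b + 1) with
    | [] => force (min (ent m q k e μ top b G 1) top) fun y => [y]
    | r :: R => force (min (ent m q k e μ top b G 1) r) fun y => y :: r :: R

lemma bk_cons (μ top g : ℕ) (G : List ℕ) (b : ℕ) :
    ∃ y, bk m q k e μ top (g :: G) b = y :: bk m q k e μ top G (b + 1) ∧ y ≤ ent m q k e μ top b G 1 ∧
      y ≤ (bk m q k e μ top G (b + 1)).getD 0 top := by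
  rw [bk]
  rcases hR : bk m q k e μ top G (b + 1) with _ | ⟨r, R⟩
  · refine ⟨_, force_eq _ _, min_le_left _ _, ?_⟩
    simp
  · refine ⟨_, force_eq _ _, min_le_left _ _, ?_⟩
    simp

lemma bk_mono (μ top : ℕ) (G : List ℕ) : ∀ b, Mono top (bk m q k e μ top G b) := by
  induction G with
  | nil =>
    intro b n
    rw [bk]
    simp
  | cons g G ih =>
    intro b n
    obtain ⟨y, h1, -, h3⟩ := bk_cons (m := m) (q := q) (k := k) (e := e) μ top g G b
    rw [h1]
    cases n with
    | zero => simpa using h3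
    | succ n =>
      have := ih (b + 1) n
      simpa using this

lemma bk_le (μ top : ℕ) (G : List ℕ) (hG : Mono top G) : ∀ b n x' : ℕ, b + n + gm m q e (b + n) ≤ x' →
    (bk m q k e μ top G b).getD n top ≤ μ * sk m q k e (b + n) (x' - (b + n)) e 0 0 + G.getD (x' - b) top := by
  induction G with
  | nil =>
    intro b n x' _
    rw [bk]
    simp
  | cons g G ih =>
    intro b n x' h
    obtain ⟨y, h1, h2, -⟩ := bk_cons (m := m) (q := q) (k := k) (e := e) μ top g G b
    have hg : 1 ≤ gm m q e (b + n) := le_max_left _ _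
    rw [h1]
    obtain ⟨z, hz⟩ : ∃ z, x' - b = z + 1 := ⟨x' - b - 1, by omega⟩
    have e0 : (g :: G).getD (x' - b) top = G.getD z top := by
      rw [hz]
      simp
    rw [e0]
    cases n with
    | zero =>
      have h3 := ent_le (m := m) (q := q) (k := k) (e := e) μ top b G hG.tail 1 (x' - b) (by omega) (by
        rw [Nat.add_zero] at h
        omega)
      have e1 : x' - b - 1 = z := by omega
      rw [e1] at h3
      rw [Nat.add_zero]
      simpa using h2.trans h3
    | succ n =>
      have h3 := ih hG.tail (b + 1) n x' (by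
        have e2 : b + 1 + n = b + (n + 1) := by ring
        rw [e2]
        exact h)
      have e1 : x' - (b + 1) = z := by omega
      have e2 : b + 1 + n = b + (n + 1) := by ring
      rw [e1, e2] at h3
      simpa using h3

/-- the last table -/
def base (w L : ℕ) : List ℕ := (List.range (L + 1)).map fun b => w * b

lemma base_getD (w L n : ℕ) : (base w L).getD n (w * (L + 1)) = w * min n (L + 1) := by
  unfold base
  rcases Nat.lt_or_ge n (L + 1) with h | h
  · rw [Nat.min_eq_left h.le, List.getD_eq_getElem _ _ (by simpa using h), List.getElem_map, List.getElem_range]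
  · rw [Nat.min_eq_right h, List.getD_eq_default _ _ (by simpa using h)]

/-- the tables -/
def Tb (m q k e L w μ : ℕ) : ℕ → List ℕ
  | 0 => base w L
  | r + 1 => bk m q k e μ (w * (L + 1)) (Tb m q k e L w μ r) 0

lemma Tb_mono (L w μ r : ℕ) : Mono (w * (L + 1)) (Tb m q k e L w μ r) := by
  cases r with
  | zero =>
    intro n
    rw [Tb, base_getD, base_getD]
    exact Nat.mul_le_mul_left _ (by omega)
  | succ r => exact bk_mono _ _ _ _

/-- the table is respected by the balls -/
lemma Tb_le (hcl : NoCl A m) (hq : Q3 A q) (hk : 1 ≤ k) (he : 1 ≤ e)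
    (hout : ∀ v, (Finset.univ.filter fun u => A v u).card = k) {X : Finset V} (hX : Mi A k e X)
    (L w μ : ℕ) {v : V} (hv : v ∈ X) (r : ℕ) : ∀ l, l + 1 + r ≤ m →
      (Tb m q k e L w μ r).getD (cb (rs A X) v (l + 1)).card (w * (L + 1)) + μ * df A k X v l ≤
        w * (cb (rs A X) v (l + 1 + r)).card + μ * df A k X v (l + r) := by
  induction r with
  | zero =>
    intro l _
    rw [Tb, base_getD, Nat.add_zero, Nat.add_zero]
    exact Nat.add_le_add_right (Nat.mul_le_mul_left _ (min_le_left _ _)) _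
  | succ r ih =>
    intro l hl
    have h1 := ih (l + 1) (by omega)
    have h2 := gm_le hcl hq hk he hout hX hv (l + 1) (by omega)
    have h3 : sk m q k e (cb (rs A X) v (l + 1)).card ((cb (rs A X) v (l + 2)).card - (cb (rs A X) v (l + 1)).card) e 0 0 ≤
        ∑ u ∈ nw A X v l, (k - dg A X u) := by
      have h4 := Finset.card_le_card (cb_sub (A := rs A X) v (l + 1))
      refine sinks hcl hq (fun u hu => dg_ge hout hX.2.1 hu) (fun u => dg_le hout X u) hv l _ (by
        have h17 : l + 1 + 1 = l + 2 := rfl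
        rw [h17] at h4
        omega) e 0 0 ∅ (Finset.empty_subset _) rfl (by simp)
    have h4 := bk_le (m := m) (q := q) (k := k) (e := e) μ (w * (L + 1)) _ (Tb_mono (m := m) (q := q) (k := k) (e := e) L w μ r)
      0 (cb (rs A X) v (l + 1)).card (cb (rs A X) v (l + 2)).card (by rw [Nat.zero_add]; exact h2)
    rw [Nat.zero_add, Nat.sub_zero] at h4
    have h5 := Nat.mul_le_mul_left μ h3
    have h6 : μ * df A k X v (l + 1) = μ * df A k X v l + μ * ∑ u ∈ nw A X v l, (k - dg A X u) := by
      rw [df_succ, Nat.mul_add]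
    have e1 : l + 1 + 1 + r = l + 1 + (r + 1) := by ring
    have e2 : l + 1 + r = l + (r + 1) := by ring
    have e3 : l + 1 + 1 = l + 2 := rfl
    rw [e1, e2, e3] at h1
    rw [Tb]
    omega

/-- the least size of the next ball -/
def ms (m q e b : ℕ) : ℕ := b + gm m q e b

lemma ms_mono (hm : 3 ≤ m) (he : e ≤ 3 ∨ (e ≤ 4 ∧ 2 * m < q)) {b b' : ℕ} (h : b ≤ b') : ms m q e b ≤ ms m q e b' := by
  unfold ms gm tt
  rcases he with he | ⟨he, hq⟩
  · split_ifs <;> omega
  · split_ifs <;> omega

/-- a certificate -/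
structure Cr where
  i : ℕ
  j : ℕ
  w : ℕ
  μi : ℕ
  μj : ℕ
  α : ℕ
  β : ℕ
  Mi : ℕ
  Mj : ℕ

/-- the check of a certificate for the sizes `lo..N-1` -/
def chk (m q k e L lo N : ℕ) (c : Cr) : Bool :=
  decide (3 ≤ m) && decide (e ≤ 3 ∨ (e ≤ 4 ∧ 2 * m < q)) &&
  decide (1 ≤ c.i) && decide (1 ≤ c.j) && decide (c.i + c.j = m) &&
  (List.range (k + 1 - e)).all (fun x => decide (c.α + c.β * (e + x) ≤
    (Tb m q k e L c.w c.μi (c.i - 1)).getD (1 + (e + x)) (c.w * (L + 1)) +
    (Tb m q k e L c.w c.μj (c.j - 1)).getD (1 + (e + x)) (c.w * (L + 1)))) &&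
  decide (c.Mi ≤ (ms m q e)^[m - c.i] (1 + e)) && decide (c.Mj ≤ (ms m q e)^[m - c.j] (1 + e)) &&
  (List.range (N - lo)).all (fun x => decide (c.w * ((lo + x) * (lo + x + 1)) +
    (c.μi * (lo + x - c.Mi) + c.μj * (lo + x - c.Mj) + c.β) * (k * (k - e)) < (c.α + c.β * k) * (lo + x)))

/-- the balls are not small -/
lemma ms_le (hcl : NoCl A m) (hq : Q3 A q) (hk : 1 ≤ k) (he : 1 ≤ e) (he4 : e ≤ 3 ∨ (e ≤ 4 ∧ 2 * m < q)) (hm : 3 ≤ m)
    (hout : ∀ v, (Finset.univ.filter fun u => A v u).card = k) {X : Finset V} (hX : Mi A k e X)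
    {v : V} (hv : v ∈ X) (l : ℕ) (hl : l + 1 ≤ m) :
    (ms m q e)^[l] (1 + e) ≤ (cb (rs A X) v (l + 1)).card := by
  have hirr := LAY_.irr hcl (by omega)
  induction l with
  | zero =>
    have h1 := dg_ge hout hX.2.1 hv
    have h2 := cb_one hirr hv
    rw [Function.iterate_zero_apply, Nat.zero_add, h2]
    omega
  | succ l ih =>
    rw [Function.iterate_succ_apply']
    have h1 := gm_le hcl hq hk he hout hX hv (l + 1) hl
    have h2 := ms_mono hm he4 (ih (by omega))
    have h3 : ms m q e (cb (rs A X) v (l + 1)).card ≤ (cb (rs A X) v (l + 1 + 1)).card := h1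
    exact h2.trans h3

/-- **the size of a minimal fragment** -/
theorem frag_chk (hcl : NoCl A m) (hq : Q3 A q) (hk : 1 ≤ k) (he : 1 ≤ e)
    (hout : ∀ v, (Finset.univ.filter fun u => A v u).card = k)
    (hin : ∀ v, (Finset.univ.filter fun u => A u v).card = k) {X : Finset V} (hX : Mi A k e X) (L lo N : ℕ)
    (hlo : lo ≤ X.card) (c : Cr) (hc : chk m q k e L lo N c = true) : N ≤ X.card := by
  unfold chk at hc
  simp only [Bool.and_eq_true, decide_eq_true_eq, List.all_eq_true, List.mem_range] at hc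
  obtain ⟨⟨⟨⟨⟨⟨⟨⟨hm, he4⟩, hi⟩, hj⟩, hij⟩, h1⟩, hMi0⟩, hMj0⟩, h2⟩ := hc
  by_contra hcon
  have hsdef := sum_def hout hin hX.2.1
  have hdk : ∀ v, dg A X v ≤ k := fun v => dg_le hout X v
  have hde : ∀ v ∈ X, e ≤ dg A X v := fun v hv => dg_ge hout hX.2.1 hv
  have hirr := LAY_.irr hcl (by omega)
  have hd0 : ∀ v, df A k X v 0 = k - dg A X v := by
    intro v
    unfold df
    rw [cb, Finset.sum_singleton]
  -- the bounds for each vertex
  have hper : ∀ v ∈ X, c.α + c.β * dg A X v + (c.μi + c.μj) * (k - dg A X v) ≤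
      c.w * ((cb (rs A X) v c.i).card + (cb (rs A X) v c.j).card) +
        (c.μi * df A k X v (c.i - 1) + c.μj * df A k X v (c.j - 1)) := by
    intro v hv
    have h3 := h1 (dg A X v - e) (by
      have := hde v hv
      have := hdk v
      omega)
    rw [Nat.add_sub_cancel' (hde v hv)] at h3
    have h4 := Tb_le hcl hq hk he hout hX L c.w c.μi hv (c.i - 1) 0 (by omega)
    have h5 := Tb_le hcl hq hk he hout hX L c.w c.μj hv (c.j - 1) 0 (by omega)
    have e1 : 0 + 1 + (c.i - 1) = c.i := by omega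
    have e2 : 0 + 1 + (c.j - 1) = c.j := by omega
    rw [e1, Nat.zero_add, Nat.zero_add, hd0, cb_one hirr hv] at h4
    rw [e2, Nat.zero_add, Nat.zero_add, hd0, cb_one hirr hv] at h5
    rw [Nat.mul_add, Nat.add_mul]
    omega
  have hMi : ∀ u ∈ X, c.Mi ≤ (cb (rs A X) u (m + 1 - c.i)).card := by
    intro u hu
    have h4 := ms_le hcl hq hk he he4 hm hout hX hu (m - c.i) (by omega)
    have e1 : m - c.i + 1 = m + 1 - c.i := by omega
    rw [e1] at h4
    exact hMi0.trans h4
  have hMj : ∀ u ∈ X, c.Mj ≤ (cb (rs A X) u (m + 1 - c.j)).card := by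
    intro u hu
    have h4 := ms_le hcl hq hk he he4 hm hout hX hu (m - c.j) (by omega)
    have e1 : m - c.j + 1 = m + 1 - c.j := by omega
    rw [e1] at h4
    exact hMj0.trans h4
  have hsum := Finset.sum_le_sum hper
  simp only [Finset.sum_add_distrib, ← Finset.mul_sum] at hsum
  rw [Finset.sum_const, smul_eq_mul] at hsum
  have hav := avg hcl X c.i c.j (by omega)
  rw [Finset.sum_add_distrib] at hav
  have hwi := avg_w hcl X (fun u => k - dg A X u) (c.i - 1) (m + 1 - c.i) c.Mi (by omega) hMi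
  have hwj := avg_w hcl X (fun u => k - dg A X u) (c.j - 1) (m + 1 - c.j) c.Mj (by omega) hMj
  have e3 : ∀ l, ∑ v ∈ X, df A k X v l = ∑ v ∈ X, ∑ u ∈ cb (rs A X) v l, (k - dg A X u) := fun l => rfl
  rw [e3, e3] at hsum
  have hDT : ∑ v ∈ X, (k - dg A X v) + ∑ v ∈ X, dg A X v = k * X.card := by
    rw [← Finset.sum_add_distrib, Finset.sum_congr rfl fun v _ => Nat.sub_add_cancel (hdk v),
      Finset.sum_const, smul_eq_mul, mul_comm]
  obtain ⟨x, hx⟩ := hX.1
  have hMis : c.Mi ≤ X.card := (hMi x hx).trans (Finset.card_le_card (cb_rs_sub hx _))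
  have hMjs : c.Mj ≤ X.card := (hMj x hx).trans (Finset.card_le_card (cb_rs_sub hx _))
  have h3 := h2 (X.card - lo) (by omega)
  rw [Nat.add_sub_cancel' hlo] at h3
  generalize ∑ v ∈ X, (k - dg A X v) = D at *
  generalize ∑ v ∈ X, dg A X v = T at *
  generalize ∑ v ∈ X, (cb (rs A X) v c.i).card = P at *
  generalize ∑ v ∈ X, (cb (rs A X) v c.j).card = Q at *
  generalize ∑ v ∈ X, ∑ u ∈ cb (rs A X) v (c.i - 1), (k - dg A X u) = Ei at *
  generalize ∑ v ∈ X, ∑ u ∈ cb (rs A X) v (c.j - 1), (k - dg A X u) = Ej at *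
  generalize X.card = s at *
  obtain ⟨a, ha⟩ : ∃ a, s = c.Mi + a := ⟨s - c.Mi, by omega⟩
  obtain ⟨b, hb⟩ : ∃ b, s = c.Mj + b := ⟨s - c.Mj, by omega⟩
  have ea : s - c.Mi = a := by omega
  have eb : s - c.Mj = b := by omega
  rw [ea, eb] at h3
  have hEi : Ei ≤ a * D + D := by
    have h4 : (s + 1) * D = c.Mi * D + (a * D + D) := by
      rw [ha]
      ring
    omega
  have hEj : Ej ≤ b * D + D := by
    have h4 : (s + 1) * D = c.Mj * D + (b * D + D) := by
      rw [hb]
      ring
    omega
  have h4 : c.w * (P + Q) ≤ c.w * (s * (s + 1)) := Nat.mul_le_mul_left _ hav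
  have h5 : c.μi * Ei ≤ c.μi * (a * D + D) := Nat.mul_le_mul_left _ hEi
  have h6 : c.μj * Ej ≤ c.μj * (b * D + D) := Nat.mul_le_mul_left _ hEj
  have h7 : (c.μi * a + c.μj * b + c.β) * D ≤ (c.μi * a + c.μj * b + c.β) * (k * (k - e)) :=
    Nat.mul_le_mul_left _ hsdef
  have h8 : c.β * T + c.β * D = c.β * (k * s) := by
    rw [← hDT]
    ring
  nlinarith

end K9B_

end Pool.Agent.Lib.MP_83608f_co.CN
end
end

section
/-! MP_83608f_co, part CN, module K9C (helper90): sets in which every vertex has at least three out-neighbours. -/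
set_option autoImplicit false

open Classical

noncomputable section

namespace Pool.Agent.Lib.MP_83608f_co.CN

open Pool.Agent.Lib.MP_83608f_co.EM (Wk)

namespace K9B_

open LAY_ (cb cb_walk cb_sub mem_cb_self)
open SD_ K8_

variable {V : Type} [Fintype V] {A : V → V → Prop} {k m e q : ℕ}

/-- a lower bound for the next ball -/
def s3 (m b : ℕ) : ℕ := if b ≤ m then b + 3 else if b ≤ 2 * m then b + 2 else b + 1

lemma s3_mono (hm : 1 ≤ m) {b b' : ℕ} (h : b ≤ b') : s3 m b ≤ s3 m b' := by
  unfold s3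
  split_ifs <;> omega

/-- a set with at least three out-neighbours inside for each vertex -/
lemma term2 (hcl : NoCl A m) (hm : 1 ≤ m) (i j : ℕ) (hij : i + 1 + (j + 1) ≤ m) {B : Finset V} (hB : B.Nonempty)
    (h3 : ∀ u ∈ B, 3 ≤ dg A B u) : (s3 m)^[i] 4 + (s3 m)^[j] 4 ≤ B.card + 1 := by
  classical
  induction hn : B.card using Nat.strong_induction_on generalizing B with
  | _ n ih =>
    have hirr := LAY_.irr hcl hm
    by_cases hmin : ∀ Z : Finset V, Z ⊆ B → Z.Nonempty → (∀ u ∈ Z, 3 ≤ dg A Z u) → Z = B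
    swap
    · push Not at hmin
      obtain ⟨Z, h1, h2, h4, h5⟩ := hmin
      have h6 := Finset.card_lt_card (Finset.ssubset_iff_subset_ne.2 ⟨h1, h5⟩)
      have h7 := ih Z.card (by omega) h2 h4 rfl
      omega
    -- growth by one
    have g1 : ∀ v ∈ B, ∀ l, l + 1 ≤ m → (cb (rs A B) v l).card + 1 ≤ (cb (rs A B) v (l + 1)).card := by
      intro v hv l hl
      by_contra h
      have h1 : cb (rs A B) v (l + 1) = cb (rs A B) v l :=
        (Finset.eq_of_subset_of_card_le (cb_sub (A := rs A B) v l) (by omega)).symm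
      have h2 := hmin _ (cb_rs_sub hv l) ⟨v, mem_cb_self v l⟩ (fun u hu => by
        have h3' := dg_old (A := A) B hv l hu
        rw [h1] at h3'
        exact (h3 u (cb_rs_sub hv l hu)).trans h3')
      have h4 : ∃ y ∈ B, A y v := by
        by_contra h5
        push Not at h5
        have h6 := hmin (B.erase v) (Finset.erase_subset v B) (by
          have h7 := h3 v hv
          unfold dg at h7
          have h8 : (B.filter fun w => A v w).Nonempty := by
            rw [← Finset.card_pos]
            omega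
          obtain ⟨w, hw⟩ := h8
          rw [Finset.mem_filter] at hw
          refine ⟨w, Finset.mem_erase.2 ⟨?_, hw.1⟩⟩
          rintro rfl
          exact hirr w hw.2) (fun u hu => by
            have hu' := (Finset.mem_erase.1 hu).2
            refine (h3 u hu').trans (Finset.card_le_card fun w hw => ?_)
            rw [Finset.mem_filter] at hw ⊢
            refine ⟨Finset.mem_erase.2 ⟨?_, hw.1⟩, hw.2⟩
            rintro rfl
            exact h5 u hu' hw.2)
        have h7 : v ∈ B.erase v := by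
          rw [h6]
          exact hv
        exact absurd h7 (Finset.notMem_erase v B)
      obtain ⟨y, hy, hyv⟩ := h4
      have h5 : y ∈ cb (rs A B) v l := by
        rw [h2]
        exact hy
      exact LAY_.in_notMem (nocl_rs hcl B) v y ⟨hy, hv, hyv⟩ l hl h5
    have g2 : ∀ v ∈ B, ∀ l, l + 1 ≤ m → s3 m (cb (rs A B) v l).card ≤ (cb (rs A B) v (l + 1)).card := by
      intro v hv l hl
      unfold s3
      split_ifs with c1 c2
      · obtain ⟨u, hu, h1⟩ := term0 hcl ⟨v, mem_cb_self v l⟩ c1
        have h2 := dg_split (A := A) B hv l hu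
        have h4 : dg A (cb (rs A B) v l) u = 0 := by
          unfold dg
          rw [Finset.card_eq_zero, Finset.filter_eq_empty_iff]
          exact fun w hw => h1 w hw
        have h5 := h3 u (cb_rs_sub hv l hu)
        omega
      · obtain ⟨u, hu, h1⟩ := term1 hcl ⟨v, mem_cb_self v l⟩ c2
        have h2 := dg_split (A := A) B hv l hu
        have h5 := h3 u (cb_rs_sub hv l hu)
        omega
      · exact g1 v hv l hl
    have g3 : ∀ v ∈ B, ∀ l, l + 1 ≤ m → (s3 m)^[l] 4 ≤ (cb (rs A B) v (l + 1)).card := by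
      intro v hv l
      induction l with
      | zero =>
        intro _
        rw [Function.iterate_zero_apply, Nat.zero_add, cb_one hirr hv]
        have := h3 v hv
        omega
      | succ l ihl =>
        intro hl
        rw [Function.iterate_succ_apply']
        exact (s3_mono hm (ihl (by omega))).trans (g2 v hv (l + 1) hl)
    have h1 := avg hcl B (i + 1) (j + 1) hij
    have h2 := Finset.sum_le_sum fun v (hv : v ∈ B) =>
      Nat.add_le_add (g3 v hv i (by omega)) (g3 v hv j (by omega))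
    rw [Finset.sum_const, smul_eq_mul] at h2
    have h4 := Nat.le_of_mul_le_mul_left (h2.trans h1) (Finset.card_pos.2 hB)
    omega

/-- the hypothesis `Q3` -/
lemma q3 (hcl : NoCl A m) (hm : 1 ≤ m) (i j : ℕ) (hij : i + 1 + (j + 1) ≤ m) (hq : q + 2 ≤ (s3 m)^[i] 4 + (s3 m)^[j] 4) :
    Q3 A q := by
  intro B hB hc
  by_contra hcon
  push Not at hcon
  have := term2 hcl hm i j hij hB fun u hu => by
    have := hcon u hu
    omega
  omega

end K9B_

end Pool.Agent.Lib.MP_83608f_co.CN
end
end

section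
/-! MP_83608f_co, part CN, module K9D (helper90): degree 9, the fragments of excess 4 (boundary at most 5), girth 4 to 41. -/
set_option autoImplicit false

open Classical

noncomputable section

namespace Pool.Agent.Lib.MP_83608f_co.CN

namespace K9B_

open SD_ K8_

variable {V : Type} [Fintype V] {A : V → V → Prop} {m q : ℕ}

/-- degree 9, fragments of excess 4, girth 4 to 25 -/
lemma f9e4a (hcl : NoCl A m) (hm : 3 ≤ m) (hm' : m ≤ 24)
    (hout : ∀ v, (Finset.univ.filter fun u => A v u).card = 9)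
    (hin : ∀ v, (Finset.univ.filter fun u => A u v).card = 9) {X : Finset V} (hX : X.Nonempty)
    (h : Fr A 9 4 X) : 9 * m + 1 ≤ 2 * X.card := by
  obtain ⟨Y, hYX, hY⟩ := exists_min hX h
  have hle := Finset.card_le_card hYX
  have hlo := K7_.fr_two hcl hout hY.1 (hY.2.1.mono (by norm_num))
  obtain rfl | rfl | rfl | rfl | rfl | rfl | rfl | rfl | rfl | rfl | rfl | rfl | rfl | rfl | rfl | rfl | rfl | rfl | rfl | rfl | rfl | rfl : m = 3 ∨ m = 4 ∨ m = 5 ∨ m = 6 ∨ m = 7 ∨ m = 8 ∨ m = 9 ∨ m = 10 ∨ m = 11 ∨ m = 12 ∨ m = 13 ∨ m = 14 ∨ m = 15 ∨ m = 16 ∨ m = 17 ∨ m = 18 ∨ m = 19 ∨ m = 20 ∨ m = 21 ∨ m = 22 ∨ m = 23 ∨ m = 24 := by omega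
  · have hq : Q3 A 8 := q3 hcl (by norm_num) 1 0 (by norm_num) (by decide)
    have := frag_chk hcl hq (by norm_num) (by norm_num) hout hin hY 12 7 14 (by omega)
      ⟨2, 1, 20, 1, 1, 192, 21, 8, 10⟩ (by decide +kernel)
    omega
  · have hq : Q3 A 12 := q3 hcl (by norm_num) 1 1 (by norm_num) (by decide)
    have := frag_chk hcl hq (by norm_num) (by norm_num) hout hin hY 14 9 19 (by omega)
      ⟨2, 2, 12, 1, 1, 166, 15, 11, 11⟩ (by decide +kernel)
    omega
  · have hq : Q3 A 14 := q3 hcl (by norm_num) 2 1 (by norm_num) (by decide)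
    have := frag_chk hcl hq (by norm_num) (by norm_num) hout hin hY 16 11 23 (by omega)
      ⟨3, 2, 12, 1, 1, 238, 12, 12, 14⟩ (by decide +kernel)
    omega
  · have hq : Q3 A 16 := q3 hcl (by norm_num) 2 2 (by norm_num) (by decide)
    have := frag_chk hcl hq (by norm_num) (by norm_num) hout hin hY 19 13 28 (by omega)
      ⟨3, 3, 6, 1, 1, 188, 3, 15, 15⟩ (by decide +kernel)
    omega
  · have hq : Q3 A 20 := q3 hcl (by norm_num) 3 2 (by norm_num) (by decide)
    have := frag_chk hcl hq (by norm_num) (by norm_num) hout hin hY 21 15 32 (by omega)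
      ⟨4, 3, 6, 1, 1, 216, 3, 15, 17⟩ (by decide +kernel)
    omega
  · have hq : Q3 A 22 := q3 hcl (by norm_num) 3 3 (by norm_num) (by decide)
    have := frag_chk hcl hq (by norm_num) (by norm_num) hout hin hY 23 17 37 (by omega)
      ⟨4, 4, 6, 1, 1, 262, 1, 18, 18⟩ (by decide +kernel)
    omega
  · have hq : Q3 A 24 := q3 hcl (by norm_num) 4 3 (by norm_num) (by decide)
    have := frag_chk hcl hq (by norm_num) (by norm_num) hout hin hY 25 19 41 (by omega)
      ⟨5, 4, 6, 1, 1, 277, 2, 19, 21⟩ (by decide +kernel)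
    omega
  · have hq : Q3 A 28 := q3 hcl (by norm_num) 4 4 (by norm_num) (by decide)
    have := frag_chk hcl hq (by norm_num) (by norm_num) hout hin hY 28 21 46 (by omega)
      ⟨5, 5, 6, 1, 1, 334, 0, 22, 22⟩ (by decide +kernel)
    omega
  · have hq : Q3 A 30 := q3 hcl (by norm_num) 5 4 (by norm_num) (by decide)
    have := frag_chk hcl hq (by norm_num) (by norm_num) hout hin hY 30 23 50 (by omega)
      ⟨6, 5, 6, 1, 1, 350, 0, 22, 25⟩ (by decide +kernel)
    omega
  · have hq : Q3 A 32 := q3 hcl (by norm_num) 5 5 (by norm_num) (by decide)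
    have := frag_chk hcl hq (by norm_num) (by norm_num) hout hin hY 32 25 55 (by omega)
      ⟨6, 6, 6, 1, 1, 384, 0, 25, 25⟩ (by decide +kernel)
    omega
  · have hq : Q3 A 36 := q3 hcl (by norm_num) 6 5 (by norm_num) (by decide)
    have := frag_chk hcl hq (by norm_num) (by norm_num) hout hin hY 34 27 59 (by omega)
      ⟨7, 6, 6, 1, 1, 407, 0, 26, 29⟩ (by decide +kernel)
    omega
  · have hq : Q3 A 38 := q3 hcl (by norm_num) 6 6 (by norm_num) (by decide)
    have := frag_chk hcl hq (by norm_num) (by norm_num) hout hin hY 37 29 64 (by omega)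
      ⟨7, 7, 6, 1, 1, 444, 0, 29, 29⟩ (by decide +kernel)
    omega
  · have hq : Q3 A 40 := q3 hcl (by norm_num) 7 6 (by norm_num) (by decide)
    have := frag_chk hcl hq (by norm_num) (by norm_num) hout hin hY 39 31 68 (by omega)
      ⟨8, 7, 6, 1, 1, 468, 0, 29, 32⟩ (by decide +kernel)
    omega
  · have hq : Q3 A 44 := q3 hcl (by norm_num) 7 7 (by norm_num) (by decide)
    have := frag_chk hcl hq (by norm_num) (by norm_num) hout hin hY 41 33 73 (by omega)
      ⟨8, 8, 6, 1, 1, 492, 0, 32, 32⟩ (by decide +kernel)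
    omega
  · have hq : Q3 A 46 := q3 hcl (by norm_num) 8 7 (by norm_num) (by decide)
    have := frag_chk hcl hq (by norm_num) (by norm_num) hout hin hY 43 35 77 (by omega)
      ⟨9, 8, 6, 1, 1, 516, 0, 33, 36⟩ (by decide +kernel)
    omega
  · have hq : Q3 A 48 := q3 hcl (by norm_num) 8 8 (by norm_num) (by decide)
    have := frag_chk hcl hq (by norm_num) (by norm_num) hout hin hY 46 37 82 (by omega)
      ⟨9, 9, 6, 1, 1, 552, 0, 36, 36⟩ (by decide +kernel)
    omega
  · have hq : Q3 A 52 := q3 hcl (by norm_num) 9 8 (by norm_num) (by decide)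
    have := frag_chk hcl hq (by norm_num) (by norm_num) hout hin hY 48 39 86 (by omega)
      ⟨10, 9, 6, 1, 1, 576, 0, 36, 39⟩ (by decide +kernel)
    omega
  · have hq : Q3 A 54 := q3 hcl (by norm_num) 9 9 (by norm_num) (by decide)
    have := frag_chk hcl hq (by norm_num) (by norm_num) hout hin hY 50 41 91 (by omega)
      ⟨10, 10, 6, 1, 1, 600, 0, 39, 39⟩ (by decide +kernel)
    omega
  · have hq : Q3 A 56 := q3 hcl (by norm_num) 10 9 (by norm_num) (by decide)
    have := frag_chk hcl hq (by norm_num) (by norm_num) hout hin hY 52 43 95 (by omega)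
      ⟨11, 10, 6, 1, 1, 624, 0, 40, 43⟩ (by decide +kernel)
    omega
  · have hq : Q3 A 60 := q3 hcl (by norm_num) 10 10 (by norm_num) (by decide)
    have := frag_chk hcl hq (by norm_num) (by norm_num) hout hin hY 55 45 100 (by omega)
      ⟨11, 11, 6, 1, 1, 660, 0, 43, 43⟩ (by decide +kernel)
    omega
  · have hq : Q3 A 62 := q3 hcl (by norm_num) 11 10 (by norm_num) (by decide)
    have := frag_chk hcl hq (by norm_num) (by norm_num) hout hin hY 57 47 104 (by omega)
      ⟨12, 11, 6, 1, 1, 684, 0, 43, 46⟩ (by decide +kernel)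
    omega
  · have hq : Q3 A 64 := q3 hcl (by norm_num) 11 11 (by norm_num) (by decide)
    have := frag_chk hcl hq (by norm_num) (by norm_num) hout hin hY 59 49 109 (by omega)
      ⟨12, 12, 6, 1, 1, 708, 0, 46, 46⟩ (by decide +kernel)
    omega

end K9B_

end Pool.Agent.Lib.MP_83608f_co.CN
end
end

section
/-! MP_83608f_co, part CN, module K9E (helper90): degree 9, the fragments of excess 4 (boundary at most 5), girth 26 to 41. -/
set_option autoImplicit false

open Classical

noncomputable section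

namespace Pool.Agent.Lib.MP_83608f_co.CN

namespace K9B_

open SD_ K8_

variable {V : Type} [Fintype V] {A : V → V → Prop} {m q : ℕ}

/-- degree 9, fragments of excess 4, girth 26 to 41 -/
lemma f9e4b (hcl : NoCl A m) (hm : 25 ≤ m) (hm' : m ≤ 40)
    (hout : ∀ v, (Finset.univ.filter fun u => A v u).card = 9)
    (hin : ∀ v, (Finset.univ.filter fun u => A u v).card = 9) {X : Finset V} (hX : X.Nonempty)
    (h : Fr A 9 4 X) : 9 * m + 1 ≤ 2 * X.card := by
  obtain ⟨Y, hYX, hY⟩ := exists_min hX h
  have hle := Finset.card_le_card hYX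
  have hlo := K7_.fr_two hcl hout hY.1 (hY.2.1.mono (by norm_num))
  obtain rfl | rfl | rfl | rfl | rfl | rfl | rfl | rfl | rfl | rfl | rfl | rfl | rfl | rfl | rfl | rfl : m = 25 ∨ m = 26 ∨ m = 27 ∨ m = 28 ∨ m = 29 ∨ m = 30 ∨ m = 31 ∨ m = 32 ∨ m = 33 ∨ m = 34 ∨ m = 35 ∨ m = 36 ∨ m = 37 ∨ m = 38 ∨ m = 39 ∨ m = 40 := by omega
  · have hq : Q3 A 68 := q3 hcl (by norm_num) 12 11 (by norm_num) (by decide)
    have := frag_chk hcl hq (by norm_num) (by norm_num) hout hin hY 61 51 113 (by omega)
      ⟨13, 12, 6, 1, 1, 732, 0, 47, 50⟩ (by decide +kernel)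
    omega
  · have hq : Q3 A 70 := q3 hcl (by norm_num) 12 12 (by norm_num) (by decide)
    have := frag_chk hcl hq (by norm_num) (by norm_num) hout hin hY 64 53 118 (by omega)
      ⟨13, 13, 6, 1, 1, 768, 0, 50, 50⟩ (by decide +kernel)
    omega
  · have hq : Q3 A 72 := q3 hcl (by norm_num) 13 12 (by norm_num) (by decide)
    have := frag_chk hcl hq (by norm_num) (by norm_num) hout hin hY 66 55 122 (by omega)
      ⟨14, 13, 6, 1, 1, 792, 0, 50, 53⟩ (by decide +kernel)
    omega
  · have hq : Q3 A 76 := q3 hcl (by norm_num) 13 13 (by norm_num) (by decide)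
    have := frag_chk hcl hq (by norm_num) (by norm_num) hout hin hY 68 57 127 (by omega)
      ⟨14, 14, 6, 1, 1, 816, 0, 53, 53⟩ (by decide +kernel)
    omega
  · have hq : Q3 A 78 := q3 hcl (by norm_num) 14 13 (by norm_num) (by decide)
    have := frag_chk hcl hq (by norm_num) (by norm_num) hout hin hY 70 59 131 (by omega)
      ⟨15, 14, 6, 1, 1, 840, 0, 54, 57⟩ (by decide +kernel)
    omega
  · have hq : Q3 A 80 := q3 hcl (by norm_num) 14 14 (by norm_num) (by decide)
    have := frag_chk hcl hq (by norm_num) (by norm_num) hout hin hY 73 61 136 (by omega)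
      ⟨15, 15, 6, 1, 1, 876, 0, 57, 57⟩ (by decide +kernel)
    omega
  · have hq : Q3 A 84 := q3 hcl (by norm_num) 15 14 (by norm_num) (by decide)
    have := frag_chk hcl hq (by norm_num) (by norm_num) hout hin hY 75 63 140 (by omega)
      ⟨16, 15, 6, 1, 1, 900, 0, 57, 60⟩ (by decide +kernel)
    omega
  · have hq : Q3 A 86 := q3 hcl (by norm_num) 15 15 (by norm_num) (by decide)
    have := frag_chk hcl hq (by norm_num) (by norm_num) hout hin hY 77 65 145 (by omega)
      ⟨16, 16, 6, 1, 1, 924, 0, 60, 60⟩ (by decide +kernel)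
    omega
  · have hq : Q3 A 88 := q3 hcl (by norm_num) 16 15 (by norm_num) (by decide)
    have := frag_chk hcl hq (by norm_num) (by norm_num) hout hin hY 79 67 149 (by omega)
      ⟨17, 16, 6, 1, 1, 948, 0, 61, 64⟩ (by decide +kernel)
    omega
  · have hq : Q3 A 92 := q3 hcl (by norm_num) 16 16 (by norm_num) (by decide)
    have := frag_chk hcl hq (by norm_num) (by norm_num) hout hin hY 82 69 154 (by omega)
      ⟨17, 17, 6, 1, 1, 984, 0, 64, 64⟩ (by decide +kernel)
    omega
  · have hq : Q3 A 94 := q3 hcl (by norm_num) 17 16 (by norm_num) (by decide)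
    have := frag_chk hcl hq (by norm_num) (by norm_num) hout hin hY 84 71 158 (by omega)
      ⟨18, 17, 6, 1, 1, 1008, 0, 64, 67⟩ (by decide +kernel)
    omega
  · have hq : Q3 A 96 := q3 hcl (by norm_num) 17 17 (by norm_num) (by decide)
    have := frag_chk hcl hq (by norm_num) (by norm_num) hout hin hY 86 73 163 (by omega)
      ⟨18, 18, 6, 1, 1, 1032, 0, 67, 67⟩ (by decide +kernel)
    omega
  · have hq : Q3 A 100 := q3 hcl (by norm_num) 18 17 (by norm_num) (by decide)
    have := frag_chk hcl hq (by norm_num) (by norm_num) hout hin hY 88 75 167 (by omega)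
      ⟨19, 18, 6, 1, 1, 1056, 0, 68, 71⟩ (by decide +kernel)
    omega
  · have hq : Q3 A 102 := q3 hcl (by norm_num) 18 18 (by norm_num) (by decide)
    have := frag_chk hcl hq (by norm_num) (by norm_num) hout hin hY 91 77 172 (by omega)
      ⟨19, 19, 6, 1, 1, 1092, 0, 71, 71⟩ (by decide +kernel)
    omega
  · have hq : Q3 A 104 := q3 hcl (by norm_num) 19 18 (by norm_num) (by decide)
    have := frag_chk hcl hq (by norm_num) (by norm_num) hout hin hY 93 79 176 (by omega)
      ⟨20, 19, 6, 1, 1, 1116, 0, 71, 74⟩ (by decide +kernel)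
    omega
  · have hq : Q3 A 108 := q3 hcl (by norm_num) 19 19 (by norm_num) (by decide)
    have := frag_chk hcl hq (by norm_num) (by norm_num) hout hin hY 95 81 181 (by omega)
      ⟨20, 20, 6, 1, 1, 1140, 0, 74, 74⟩ (by decide +kernel)
    omega

end K9B_

end Pool.Agent.Lib.MP_83608f_co.CN
end
end

section
/-! MP_83608f_co, part CN, module K9F (helper90): degree 9, the fragments of excess 3 (boundary at most 6), girth 14 to 31. -/
set_option autoImplicit false

open Classical

noncomputable section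

namespace Pool.Agent.Lib.MP_83608f_co.CN

namespace K9B_

open SD_ K8_

variable {V : Type} [Fintype V] {A : V → V → Prop} {m q : ℕ}

/-- degree 9, fragments of excess 3, girth 14 to 29 -/
lemma f9e3b (hcl : NoCl A m) (hm : 13 ≤ m) (hm' : m ≤ 28)
    (hout : ∀ v, (Finset.univ.filter fun u => A v u).card = 9)
    (hin : ∀ v, (Finset.univ.filter fun u => A u v).card = 9) {X : Finset V} (hX : X.Nonempty)
    (h : Fr A 9 3 X) : 9 * m ≤ 2 * X.card + 5 := by
  obtain ⟨Y, hYX, hY⟩ := exists_min hX h
  have hle := Finset.card_le_card hYX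
  have hlo := K7_.fr_two hcl hout hY.1 (hY.2.1.mono (by norm_num))
  obtain rfl | rfl | rfl | rfl | rfl | rfl | rfl | rfl | rfl | rfl | rfl | rfl | rfl | rfl | rfl | rfl : m = 13 ∨ m = 14 ∨ m = 15 ∨ m = 16 ∨ m = 17 ∨ m = 18 ∨ m = 19 ∨ m = 20 ∨ m = 21 ∨ m = 22 ∨ m = 23 ∨ m = 24 ∨ m = 25 ∨ m = 26 ∨ m = 27 ∨ m = 28 := by omega
  · have hq : Q3 A 36 := q3 hcl (by norm_num) 6 5 (by norm_num) (by decide)
    have := frag_chk hcl hq (by norm_num) (by norm_num) hout hin hY 37 27 56 (by omega)
      ⟨7, 6, 6, 1, 1, 355, 6, 20, 22⟩ (by decide +kernel)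
    omega
  · have hq : Q3 A 38 := q3 hcl (by norm_num) 6 6 (by norm_num) (by decide)
    have := frag_chk hcl hq (by norm_num) (by norm_num) hout hin hY 39 29 61 (by omega)
      ⟨7, 7, 6, 1, 1, 386, 6, 22, 22⟩ (by decide +kernel)
    omega
  · have hq : Q3 A 40 := q3 hcl (by norm_num) 7 6 (by norm_num) (by decide)
    have := frag_chk hcl hq (by norm_num) (by norm_num) hout hin hY 41 31 65 (by omega)
      ⟨8, 7, 6, 1, 1, 420, 5, 22, 24⟩ (by decide +kernel)
    omega
  · have hq : Q3 A 44 := q3 hcl (by norm_num) 7 7 (by norm_num) (by decide)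
    have := frag_chk hcl hq (by norm_num) (by norm_num) hout hin hY 44 33 70 (by omega)
      ⟨8, 8, 6, 1, 1, 449, 5, 25, 25⟩ (by decide +kernel)
    omega
  · have hq : Q3 A 46 := q3 hcl (by norm_num) 8 7 (by norm_num) (by decide)
    have := frag_chk hcl hq (by norm_num) (by norm_num) hout hin hY 46 35 74 (by omega)
      ⟨9, 8, 6, 1, 1, 478, 5, 25, 27⟩ (by decide +kernel)
    omega
  · have hq : Q3 A 48 := q3 hcl (by norm_num) 8 8 (by norm_num) (by decide)
    have := frag_chk hcl hq (by norm_num) (by norm_num) hout hin hY 48 37 79 (by omega)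
      ⟨9, 9, 6, 1, 1, 512, 4, 27, 27⟩ (by decide +kernel)
    omega
  · have hq : Q3 A 52 := q3 hcl (by norm_num) 9 8 (by norm_num) (by decide)
    have := frag_chk hcl hq (by norm_num) (by norm_num) hout hin hY 50 39 83 (by omega)
      ⟨10, 9, 6, 1, 1, 544, 3, 28, 30⟩ (by decide +kernel)
    omega
  · have hq : Q3 A 54 := q3 hcl (by norm_num) 9 9 (by norm_num) (by decide)
    have := frag_chk hcl hq (by norm_num) (by norm_num) hout hin hY 53 41 88 (by omega)
      ⟨10, 10, 6, 1, 1, 570, 4, 30, 30⟩ (by decide +kernel)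
    omega
  · have hq : Q3 A 56 := q3 hcl (by norm_num) 10 9 (by norm_num) (by decide)
    have := frag_chk hcl hq (by norm_num) (by norm_num) hout hin hY 55 43 92 (by omega)
      ⟨11, 10, 6, 1, 1, 602, 3, 30, 32⟩ (by decide +kernel)
    omega
  · have hq : Q3 A 60 := q3 hcl (by norm_num) 10 10 (by norm_num) (by decide)
    have := frag_chk hcl hq (by norm_num) (by norm_num) hout hin hY 57 45 97 (by omega)
      ⟨11, 11, 6, 1, 1, 628, 4, 33, 33⟩ (by decide +kernel)
    omega
  · have hq : Q3 A 62 := q3 hcl (by norm_num) 11 10 (by norm_num) (by decide)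
    have := frag_chk hcl hq (by norm_num) (by norm_num) hout hin hY 59 47 101 (by omega)
      ⟨12, 11, 6, 1, 1, 663, 2, 33, 35⟩ (by decide +kernel)
    omega
  · have hq : Q3 A 64 := q3 hcl (by norm_num) 11 11 (by norm_num) (by decide)
    have := frag_chk hcl hq (by norm_num) (by norm_num) hout hin hY 62 49 106 (by omega)
      ⟨12, 12, 6, 1, 1, 680, 6, 35, 35⟩ (by decide +kernel)
    omega
  · have hq : Q3 A 68 := q3 hcl (by norm_num) 12 11 (by norm_num) (by decide)
    have := frag_chk hcl hq (by norm_num) (by norm_num) hout hin hY 64 51 110 (by omega)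
      ⟨13, 12, 6, 1, 1, 720, 3, 36, 38⟩ (by decide +kernel)
    omega
  · have hq : Q3 A 70 := q3 hcl (by norm_num) 12 12 (by norm_num) (by decide)
    have := frag_chk hcl hq (by norm_num) (by norm_num) hout hin hY 66 53 115 (by omega)
      ⟨13, 13, 6, 1, 1, 746, 4, 38, 38⟩ (by decide +kernel)
    omega
  · have hq : Q3 A 72 := q3 hcl (by norm_num) 13 12 (by norm_num) (by decide)
    have := frag_chk hcl hq (by norm_num) (by norm_num) hout hin hY 68 55 119 (by omega)
      ⟨14, 13, 6, 1, 1, 787, 0, 38, 40⟩ (by decide +kernel)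
    omega
  · have hq : Q3 A 76 := q3 hcl (by norm_num) 13 13 (by norm_num) (by decide)
    have := frag_chk hcl hq (by norm_num) (by norm_num) hout hin hY 71 57 124 (by omega)
      ⟨14, 14, 6, 1, 1, 804, 4, 41, 41⟩ (by decide +kernel)
    omega

end K9B_

end Pool.Agent.Lib.MP_83608f_co.CN
end
end

section
/-! MP_83608f_co, part CN, module K9G (helper90): degree 9, the fragments of excess 3 (boundary at most 6), girth 30 to 41. -/
set_option autoImplicit false

open Classical

noncomputable section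

namespace Pool.Agent.Lib.MP_83608f_co.CN

namespace K9B_

open SD_ K8_

variable {V : Type} [Fintype V] {A : V → V → Prop} {m q : ℕ}

/-- degree 9, fragments of excess 3, girth 30 to 41 -/
lemma f9e3c (hcl : NoCl A m) (hm : 29 ≤ m) (hm' : m ≤ 40)
    (hout : ∀ v, (Finset.univ.filter fun u => A v u).card = 9)
    (hin : ∀ v, (Finset.univ.filter fun u => A u v).card = 9) {X : Finset V} (hX : X.Nonempty)
    (h : Fr A 9 3 X) : 9 * m ≤ 2 * X.card + 5 := by
  obtain ⟨Y, hYX, hY⟩ := exists_min hX h
  have hle := Finset.card_le_card hYX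
  have hlo := K7_.fr_two hcl hout hY.1 (hY.2.1.mono (by norm_num))
  obtain rfl | rfl | rfl | rfl | rfl | rfl | rfl | rfl | rfl | rfl | rfl | rfl : m = 29 ∨ m = 30 ∨ m = 31 ∨ m = 32 ∨ m = 33 ∨ m = 34 ∨ m = 35 ∨ m = 36 ∨ m = 37 ∨ m = 38 ∨ m = 39 ∨ m = 40 := by omega
  · have hq : Q3 A 78 := q3 hcl (by norm_num) 14 13 (by norm_num) (by decide)
    have := frag_chk hcl hq (by norm_num) (by norm_num) hout hin hY 73 59 128 (by omega)
      ⟨15, 14, 6, 1, 1, 845, 0, 41, 43⟩ (by decide +kernel)
    omega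
  · have hq : Q3 A 80 := q3 hcl (by norm_num) 14 14 (by norm_num) (by decide)
    have := frag_chk hcl hq (by norm_num) (by norm_num) hout hin hY 75 61 133 (by omega)
      ⟨15, 15, 6, 1, 1, 874, 0, 43, 43⟩ (by decide +kernel)
    omega
  · have hq : Q3 A 84 := q3 hcl (by norm_num) 15 14 (by norm_num) (by decide)
    have := frag_chk hcl hq (by norm_num) (by norm_num) hout hin hY 77 63 137 (by omega)
      ⟨16, 15, 6, 1, 1, 902, 0, 44, 46⟩ (by decide +kernel)
    omega
  · have hq : Q3 A 86 := q3 hcl (by norm_num) 15 15 (by norm_num) (by decide)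
    have := frag_chk hcl hq (by norm_num) (by norm_num) hout hin hY 80 65 142 (by omega)
      ⟨16, 16, 6, 1, 1, 934, 0, 46, 46⟩ (by decide +kernel)
    omega
  · have hq : Q3 A 88 := q3 hcl (by norm_num) 16 15 (by norm_num) (by decide)
    have := frag_chk hcl hq (by norm_num) (by norm_num) hout hin hY 82 67 146 (by omega)
      ⟨17, 16, 6, 1, 1, 962, 0, 46, 48⟩ (by decide +kernel)
    omega
  · have hq : Q3 A 92 := q3 hcl (by norm_num) 16 16 (by norm_num) (by decide)
    have := frag_chk hcl hq (by norm_num) (by norm_num) hout hin hY 84 69 151 (by omega)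
      ⟨17, 17, 6, 1, 1, 992, 0, 49, 49⟩ (by decide +kernel)
    omega
  · have hq : Q3 A 94 := q3 hcl (by norm_num) 17 16 (by norm_num) (by decide)
    have := frag_chk hcl hq (by norm_num) (by norm_num) hout hin hY 86 71 155 (by omega)
      ⟨18, 17, 6, 1, 1, 1015, 0, 49, 51⟩ (by decide +kernel)
    omega
  · have hq : Q3 A 96 := q3 hcl (by norm_num) 17 17 (by norm_num) (by decide)
    have := frag_chk hcl hq (by norm_num) (by norm_num) hout hin hY 89 73 160 (by omega)
      ⟨18, 18, 6, 1, 1, 1050, 0, 51, 51⟩ (by decide +kernel)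
    omega
  · have hq : Q3 A 100 := q3 hcl (by norm_num) 18 17 (by norm_num) (by decide)
    have := frag_chk hcl hq (by norm_num) (by norm_num) hout hin hY 91 75 164 (by omega)
      ⟨19, 18, 6, 1, 1, 1074, 0, 52, 54⟩ (by decide +kernel)
    omega
  · have hq : Q3 A 102 := q3 hcl (by norm_num) 18 18 (by norm_num) (by decide)
    have := frag_chk hcl hq (by norm_num) (by norm_num) hout hin hY 93 77 169 (by omega)
      ⟨19, 19, 6, 1, 1, 1108, 0, 54, 54⟩ (by decide +kernel)
    omega
  · have hq : Q3 A 104 := q3 hcl (by norm_num) 19 18 (by norm_num) (by decide)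
    have := frag_chk hcl hq (by norm_num) (by norm_num) hout hin hY 95 79 173 (by omega)
      ⟨20, 19, 6, 1, 1, 1128, 0, 54, 56⟩ (by decide +kernel)
    omega
  · have hq : Q3 A 108 := q3 hcl (by norm_num) 19 19 (by norm_num) (by decide)
    have := frag_chk hcl hq (by norm_num) (by norm_num) hout hin hY 98 81 178 (by omega)
      ⟨20, 20, 6, 1, 1, 1168, 0, 57, 57⟩ (by decide +kernel)
    omega

end K9B_

end Pool.Agent.Lib.MP_83608f_co.CN
end
end

section
/-! MP_83608f_co, part CN, module K9H (helper90): degree 9, the fragments of excess 3 (boundary at most 6), girth 4 to 13. -/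
set_option autoImplicit false

open Classical

noncomputable section

namespace Pool.Agent.Lib.MP_83608f_co.CN

namespace K9_

open SD_ K8_

variable {V : Type} [Fintype V] {A : V → V → Prop} {m q : ℕ}

/-- degree 9, fragments of excess 3, girth 4 to 13 -/
lemma f9e3a (hcl : NoCl A m) (hm : 3 ≤ m) (hm' : m ≤ 12)
    (hout : ∀ v, (Finset.univ.filter fun u => A v u).card = 9)
    (hin : ∀ v, (Finset.univ.filter fun u => A u v).card = 9) {X : Finset V} (hX : X.Nonempty)
    (h : Fr A 9 3 X) : 9 * m ≤ 2 * X.card + 5 := by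
  obtain ⟨Y, hYX, hY⟩ := exists_min hX h
  have hle := Finset.card_le_card hYX
  have hlo := K7_.fr_two hcl hout hY.1 (hY.2.1.mono (by norm_num))
  obtain rfl | rfl | rfl | rfl | rfl | rfl | rfl | rfl | rfl | rfl : m = 3 ∨ m = 4 ∨ m = 5 ∨ m = 6 ∨ m = 7 ∨ m = 8 ∨ m = 9 ∨ m = 10 ∨ m = 11 ∨ m = 12 := by omega
  · have hq : Q3 A 8 := K9B_.q3 hcl (by norm_num) 1 0 (by norm_num) (by decide)
    have := frag_chk hcl hq (by norm_num) (by norm_num) hout hin hY 13 7 11 (by omega)
      ⟨[0, 10, 10, 0], [0, 0, 1, 0], 15, 197⟩ (by decide +kernel)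
    omega
  · have hq : Q3 A 12 := K9B_.q3 hcl (by norm_num) 1 1 (by norm_num) (by decide)
    have := frag_chk hcl hq (by norm_num) (by norm_num) hout hin hY 15 9 16 (by omega)
      ⟨[0, 4, 12, 4, 0], [0, 0, 0, 1, 0], 24, 256⟩ (by decide +kernel)
    omega
  · have hq : Q3 A 14 := K9B_.q3 hcl (by norm_num) 2 1 (by norm_num) (by decide)
    have := frag_chk hcl hq (by norm_num) (by norm_num) hout hin hY 17 11 20 (by omega)
      ⟨[0, 2, 8, 8, 2, 0], [0, 0, 0, 0, 2, 0], 37, 310⟩ (by decide +kernel)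
    omega
  · have hq : Q3 A 16 := K9B_.q3 hcl (by norm_num) 2 2 (by norm_num) (by decide)
    have := frag_chk hcl hq (by norm_num) (by norm_num) hout hin hY 20 13 25 (by omega)
      ⟨[0, 0, 10, 40, 10, 0, 0], [0, 0, 0, 0, 5, 0, 0], 119, 1019⟩ (by decide +kernel)
    omega
  · have hq : Q3 A 20 := K9B_.q3 hcl (by norm_num) 3 2 (by norm_num) (by decide)
    have := frag_chk hcl hq (by norm_num) (by norm_num) hout hin hY 22 15 29 (by omega)
      ⟨[0, 0, 3, 7, 7, 3, 0, 0], [0, 0, 0, 0, 0, 2, 0, 0], 47, 382⟩ (by decide +kernel)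
    omega
  · have hq : Q3 A 22 := K9B_.q3 hcl (by norm_num) 3 3 (by norm_num) (by decide)
    have := frag_chk hcl hq (by norm_num) (by norm_num) hout hin hY 30 17 34 (by omega)
      ⟨[0, 0, 4, 1, 10, 1, 4, 0, 0], [0, 0, 0, 0, 0, 0, 2, 0, 0], 59, 440⟩ (by decide +kernel)
    omega
  · have hq : Q3 A 24 := K9B_.q3 hcl (by norm_num) 4 3 (by norm_num) (by decide)
    have := frag_chk hcl hq (by norm_num) (by norm_num) hout hin hY 26 19 38 (by omega)
      ⟨[0, 0, 0, 11, 9, 9, 11, 0, 0, 0], [0, 0, 0, 0, 0, 0, 0, 5, 0, 0], 169, 1008⟩ (by decide +kernel)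
    omega
  · have hq : Q3 A 28 := K9B_.q3 hcl (by norm_num) 4 4 (by norm_num) (by decide)
    have := frag_chk hcl hq (by norm_num) (by norm_num) hout hin hY 35 21 43 (by omega)
      ⟨[0, 0, 0, 14, 0, 10, 0, 14, 0, 0, 0], [0, 0, 0, 0, 0, 0, 0, 7, 0, 0, 0], 221, 1112⟩ (by decide +kernel)
    omega
  · have hq : Q3 A 30 := K9B_.q3 hcl (by norm_num) 5 4 (by norm_num) (by decide)
    have := frag_chk hcl hq (by norm_num) (by norm_num) hout hin hY 37 23 47 (by omega)
      ⟨[0, 0, 0, 0, 16, 4, 4, 16, 0, 0, 0, 0], [0, 0, 0, 0, 0, 0, 0, 1, 7, 0, 0, 0], 274, 1268⟩ (by decide +kernel)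
    omega
  · have hq : Q3 A 32 := K9B_.q3 hcl (by norm_num) 5 5 (by norm_num) (by decide)
    have := frag_chk hcl hq (by norm_num) (by norm_num) hout hin hY 39 25 52 (by omega)
      ⟨[0, 0, 0, 0, 6, 4, 0, 4, 6, 0, 0, 0, 0], [0, 0, 0, 0, 1, 0, 0, 0, 0, 3, 0, 0, 0], 138, 672⟩ (by decide +kernel)
    omega

end K9_

end Pool.Agent.Lib.MP_83608f_co.CN
end
end

section
/-! MP_83608f_co, part CN, module K9I (helper90): the Behzad-Chartrand-Wall conjecture for the degree 9, every girth. -/
set_option autoImplicit false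

open Classical

noncomputable section

namespace Pool.Agent.Lib.MP_83608f_co.CN

namespace K9_

open SD_ K8_

variable {V : Type} [Fintype V] {A : V → V → Prop} {m : ℕ}

lemma f9e3 (hcl : NoCl A m) (hm : 3 ≤ m) (hm' : m ≤ 40)
    (hout : ∀ v, (Finset.univ.filter fun u => A v u).card = 9)
    (hin : ∀ v, (Finset.univ.filter fun u => A u v).card = 9) {X : Finset V} (hX : X.Nonempty)
    (h : Fr A 9 3 X) : 9 * m ≤ 2 * X.card + 5 := by
  rcases Nat.lt_or_ge m 13 with h1 | h1
  · exact f9e3a hcl hm (by omega) hout hin hX h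
  rcases Nat.lt_or_ge m 29 with h2 | h2
  · exact K9B_.f9e3b hcl h1 (by omega) hout hin hX h
  · exact K9B_.f9e3c hcl h2 hm' hout hin hX h

lemma f9e4 (hcl : NoCl A m) (hm : 3 ≤ m) (hm' : m ≤ 40)
    (hout : ∀ v, (Finset.univ.filter fun u => A v u).card = 9)
    (hin : ∀ v, (Finset.univ.filter fun u => A u v).card = 9) {X : Finset V} (hX : X.Nonempty)
    (h : Fr A 9 4 X) : 9 * m + 1 ≤ 2 * X.card := by
  rcases Nat.lt_or_ge m 25 with h1 | h1
  · exact K9B_.f9e4a hcl hm (by omega) hout hin hX h
  · exact K9B_.f9e4b hcl h1 hm' hout hin hX h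

/-- **The Behzad-Chartrand-Wall conjecture for the degree 9.** -/
theorem bcw9 (V : Type) [Fintype V] [Nonempty V] (A : V → V → Prop) (m : ℕ) (hm : 2 ≤ m)
    (hout : ∀ v, (Finset.univ.filter fun u => A v u).card = 9)
    (hin : ∀ v, (Finset.univ.filter fun u => A u v).card = 9) (hcl : NoCl A m) :
    9 * m + 1 ≤ Fintype.card V := by
  rcases Nat.lt_or_ge m 3 with hm2 | hm3
  · obtain rfl : m = 2 := by omega
    exact K7_.m_two hcl hout hin
  rcases Nat.lt_or_ge 40 m with h41 | h40
  · have := LG_.lg1 V A 9 m (by norm_num) (by omega) (by omega) hout hin hcl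
    omega
  refine assemble (by norm_num) hm (by omega) hout hin hcl ?_ ?_
  · intro B hB h1 h2 X hX hF
    have := f9e3 hB hm3 h40 h1 h2 hX hF
    omega
  · intro B hB h1 h2 X hX hF
    exact f9e4 hB hm3 h40 h1 h2 hX hF

end K9_

/-- the conjecture for the degrees six to nine, every girth -/
theorem top_69 (V : Type) [Finite V] [Nonempty V] (G : Digraph V) (k : ℕ) (hk : 6 ≤ k) (hk' : k ≤ 9)
    (hout : ∀ v, Nat.card {u // G.Adj v u} = k) (hin : ∀ v, Nat.card {u // G.Adj u v} = k)
    (g : ℕ) (hgirth : EM.GirthGe G g) : k * (g - 1) + 1 ≤ Nat.card V := by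
  rcases Nat.lt_or_ge k 9 with h9 | h9
  · exact top_68 V G k hk (by omega) hout hin g hgirth
  · obtain rfl : k = 9 := by omega
    exact top_of 9 (fun V _ _ A m => K9_.bcw9 V A m) V G hout hin g hgirth

end Pool.Agent.Lib.MP_83608f_co.CN
end
end
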