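import Pool.Agent.Lib.MP_83608f_co.CN.NBL

/-! MP_83608f_co, part CN, module NBT (helper50): the certificates `HasCert m` for `9 ≤ m < 300`.

`check m g r l` is a computation with natural numbers: `γ = g/10^5`, `ρ = r/10^5`, `φ N = l_N/10^4`, `X N` in units of
`1/20000`, `q = 1 - ρ`, `C N = (1 - φ N/2)/ρ`; the recursion of the pair estimate is rounded down to multiples of `10^(-12)`.
`cert_of_check`: soundness.  `cert`: the kernel evaluates `check` with the thresholds found by `gen`. -/

set_option autoImplicit false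

open Classical

noncomputable section

namespace Pool.Agent.Lib.MP_83608f_co.CN

namespace NBT_

/-- the fragment condition for `ρ = r/10^5`, `φ = f/10^4`, `X = x/20000` -/
def okF (r f x : ℕ) : Bool :=
  Nat.ble 1 f && (Nat.ble f 10000 && (Nat.ble (3 * r) (5 * (20000 - f)) &&
    (Nat.ble ((10000 - f) * 100000 * r + 1) (5 * (20000 - f) * (f * (100000 - r))) &&
      Nat.ble (r * ((x * (f * (100000 - r)) + 20000 * ((10000 - f) * 100000)) *
          (x * (f * (100000 - r)) + 20000 * ((10000 - f) * 100000))))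
        (5 * (20000 - f) * (x * (f * (100000 - r)) + 20000 * ((10000 - f) * 100000)) *
          (20000 * (f * (100000 - r))) + x * r * 20000 * ((f * (100000 - r)) * (f * (100000 - r)))))))

/-- the fragment conditions of levels `N + 1, N + 2, ...` -/
def chk (r c : ℕ) : ℕ → ℕ → List ℕ → Bool
  | _, _, [] => true
  | N, s, f :: l => okF r f (c + s + 1 - N * 10000) && chk r c (N + 1) (s + f) l

/-- `n` steps of the recursion, starting at level `a` -/
def pp (g : ℕ) : ℕ → ℕ → ℕ → ℕ → List ℕ → ℕ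
  | 0, _, _, p, _ => p
  | n + 1, a, s, p, l => pp g n (a + 1) (s + l.headD 0)
      ((100000 - g) * p / 100000 + 1000000000000 + g * (a * 10000 - s) * 1000) l.tail

def check (m g r : ℕ) (l : List ℕ) : Bool :=
  decide (1 ≤ g) && (decide (g < 100000) && (decide (1 ≤ r) && (decide (r < 100000) &&
  (decide ((m + 1) / 2 ≤ l.length + 1) &&
  (decide (((100000 - g) ^ 2 * 100000 - g ^ 3) * ((100000 - g) ^ ((m - 4) / 2) * 100000 ^ ((m - 3) / 2) +
    (100000 - g) ^ ((m - 3) / 2) * 100000 ^ ((m - 4) / 2)) ≤ 100000 ^ (3 + (m - 4) / 2 + (m - 3) / 2)) &&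
  (decide ((100000 - r) ^ ((m - 2) / 2) * 100000 ^ ((m - 1) / 2) +
    (100000 - r) ^ ((m - 1) / 2) * 100000 ^ ((m - 2) / 2) ≤ 100000 ^ ((m - 2) / 2 + (m - 1) / 2)) &&
  (chk r ((m - 2) * 10000 + l.headD 0) 0 0 l &&
  decide ((m - 1) * 1000000000000 ≤ pp g (m / 2) 0 0 0 l + pp g ((m + 1) / 2) 0 0 0 l))))))))

/-! ### the fragment condition -/

lemma okF_sound {r f x : ℕ} (hr0 : 1 ≤ r) (hr1 : r < 100000) (h : okF r f x = true) :
    1 ≤ f ∧ f ≤ 10000 ∧ (3 : ℝ) ≤ (1 - (f : ℝ) / 10000 / 2) / ((r : ℝ) / 100000) ∧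
    (1 - (f : ℝ) / 10000) / ((f : ℝ) / 10000 * (1 - (r : ℝ) / 100000)) <
      (1 - (f : ℝ) / 10000 / 2) / ((r : ℝ) / 100000) ∧
    ((x : ℝ) / 20000 + (1 - (f : ℝ) / 10000) / ((f : ℝ) / 10000 * (1 - (r : ℝ) / 100000))) ^ 2 -
      (1 - (f : ℝ) / 10000 / 2) / ((r : ℝ) / 100000) *
        ((x : ℝ) / 20000 + (1 - (f : ℝ) / 10000) / ((f : ℝ) / 10000 * (1 - (r : ℝ) / 100000))) -
      (x : ℝ) / 20000 ≤ 0 := by
  unfold okF at h
  simp only [Bool.and_eq_true, Nat.ble_eq] at h
  obtain ⟨h1, h2, h3, h4, h5⟩ := h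
  rw [Nat.add_one_le_iff] at h4
  rw [← pow_two, ← pow_two] at h5
  have hf0 : (1 : ℝ) ≤ f := by exact_mod_cast h1
  have hf1 : (f : ℝ) ≤ 10000 := by exact_mod_cast h2
  have hR0 : (1 : ℝ) ≤ r := by exact_mod_cast hr0
  have hR1 : (r : ℝ) < 100000 := by exact_mod_cast hr1
  have e1 : ((20000 - f : ℕ) : ℝ) = 20000 - f := by
    rw [Nat.cast_sub (by omega)]
    norm_num
  have e2 : ((10000 - f : ℕ) : ℝ) = 10000 - f := by
    rw [Nat.cast_sub h2]
    norm_num
  have e3 : ((100000 - r : ℕ) : ℝ) = 100000 - r := by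
    rw [Nat.cast_sub hr1.le]
    norm_num
  have h3' : (3 : ℝ) * r ≤ 5 * (20000 - f) := by
    rw [← e1]
    exact_mod_cast h3
  have h4' : ((10000 : ℝ) - f) * 100000 * r < 5 * (20000 - f) * (f * (100000 - r)) := by
    rw [← e1, ← e2, ← e3]
    exact_mod_cast h4
  have h5' : (r : ℝ) * (x * (f * (100000 - r)) + 20000 * ((10000 - f) * 100000)) ^ 2 ≤
        5 * (20000 - f) * (x * (f * (100000 - r)) + 20000 * ((10000 - f) * 100000)) *
          (20000 * (f * (100000 - r))) + x * r * 20000 * (f * (100000 - r)) ^ 2 := by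
    rw [← e1, ← e2, ← e3]
    exact_mod_cast h5
  clear h3 h4 h5 e1 e2 e3
  have hD : (0 : ℝ) < f * (100000 - r) := mul_pos (by linarith) (by linarith)
  have ey : (1 - (f : ℝ) / 10000) / ((f : ℝ) / 10000 * (1 - (r : ℝ) / 100000)) =
      (10000 - f) * 100000 / (f * (100000 - r)) := by
    have h6 : (f : ℝ) ≠ 0 := by linarith
    have h7 : (100000 : ℝ) - r ≠ 0 := by linarith
    have h8 : 1 - (r : ℝ) / 100000 = (100000 - r) / 100000 := by ring
    rw [h8]
    field_simp
  have eC : (1 - (f : ℝ) / 10000 / 2) / ((r : ℝ) / 100000) = 5 * (20000 - f) / r := by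
    have h6 : (r : ℝ) ≠ 0 := by linarith
    field_simp
    ring
  rw [ey, eC]
  refine ⟨h1, h2, ?_, ?_, ?_⟩
  · rw [le_div_iff₀ (by linarith)]
    exact h3'
  · rw [div_lt_div_iff₀ hD (by linarith)]
    exact h4'
  · obtain ⟨D, hDd⟩ : ∃ D : ℝ, D = f * (100000 - r) := ⟨_, rfl⟩
    rw [← hDd] at h5' hD ⊢
    obtain ⟨c, hc⟩ : ∃ c : ℝ, c = 5 * (20000 - (f : ℝ)) := ⟨_, rfl⟩
    rw [← hc] at h5' ⊢
    obtain ⟨Z, hZ⟩ : ∃ Z : ℝ, Z = x * D + 20000 * ((10000 - (f : ℝ)) * 100000) := ⟨_, rfl⟩
    rw [← hZ] at h5'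
    have eX : (x : ℝ) / 20000 + (10000 - f) * 100000 / D = Z / (20000 * D) := by
      rw [hZ]
      field_simp
    rw [eX]
    have hr' : (0 : ℝ) < r := by linarith
    have h6 : (Z / (20000 * D)) ^ 2 - c / r * (Z / (20000 * D)) - (x : ℝ) / 20000 =
        (r * Z ^ 2 - (c * Z * (20000 * D) + x * r * 20000 * D ^ 2)) / (r * (20000 * D) ^ 2) := by
      field_simp
      ring
    rw [h6]
    apply div_nonpos_of_nonpos_of_nonneg
    · linarith
    · positivity

/-! ### the fragment conditions of all levels -/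

lemma chk_sound {r c : ℕ} : ∀ (l : List ℕ) (N s : ℕ), chk r c N s l = true → ∀ i < l.length,
    okF r (l.getD i 0) (c + (s + (l.take i).sum) + 1 - (N + i) * 10000) = true := by
  intro l
  induction l with
  | nil =>
    intro N s _ i hi
    simp at hi
  | cons f l ih =>
    intro N s h i hi
    simp only [chk, Bool.and_eq_true] at h
    obtain ⟨h1, h2⟩ := h
    cases i with
    | zero =>
      simpa using h1
    | succ i =>
      have h3 := ih (N + 1) (s + f) h2 i (by simpa using hi)
      have e1 : (f :: l).getD (i + 1) 0 = l.getD i 0 := rfl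
      have e2 : ((f :: l).take (i + 1)).sum = f + (l.take i).sum := by simp
      rw [e1, e2]
      have e3 : c + (s + (f + (l.take i).sum)) + 1 - (N + (i + 1)) * 10000 =
          c + (s + f + (l.take i).sum) + 1 - (N + 1 + i) * 10000 := by
        have : N + (i + 1) = N + 1 + i := by ring
        rw [this, add_assoc s f]
      rw [e3]
      exact h3

/-- the sums -/
noncomputable def S (l : List ℕ) (N : ℕ) : ℝ := ((l.take N).sum : ℕ) / 10000

noncomputable def φ (l : List ℕ) (N : ℕ) : ℝ := (l.getD (N - 1) 0 : ℕ) / 10000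

noncomputable def X (m : ℕ) (l : List ℕ) (N : ℕ) : ℝ :=
  (((m - 2) * 10000 + l.headD 0 + (l.take (N - 1)).sum + 1 - (N - 1) * 10000 : ℕ) : ℝ) / 20000

lemma take_succ_sum (l : List ℕ) (N : ℕ) : (l.take (N + 1)).sum = (l.take N).sum + l.getD N 0 := by
  induction l generalizing N with
  | nil => simp
  | cons f l ih =>
    cases N with
    | zero => simp
    | succ N =>
      simp only [List.take_succ_cons, List.sum_cons, List.getD_cons_succ]
      rw [ih N, add_assoc]

lemma S_zero (l : List ℕ) : S l 0 = 0 := by simp [S]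

lemma S_succ (l : List ℕ) (N : ℕ) : S l (N + 1) = S l N + φ l (N + 1) := by
  unfold S φ
  rw [take_succ_sum, Nat.add_sub_cancel]
  push_cast
  ring

lemma X_one (m : ℕ) (hm : 2 ≤ m) (l : List ℕ) : (m : ℝ) - 1 < 2 * X m l 1 + 1 - φ l 1 := by
  unfold X φ
  have e1 : l.getD (1 - 1) 0 = l.headD 0 := by cases l <;> rfl
  rw [e1]
  simp only [Nat.sub_self, List.take_zero, List.sum_nil, zero_mul, Nat.sub_zero, add_zero]
  push_cast [Nat.cast_sub hm]
  linarith

lemma X_succ (m : ℕ) (hm : 2 ≤ m) (l : List ℕ) (N : ℕ) :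
    (m : ℝ) - 1 - 1 + φ l 1 - (N - S l N) < 2 * X m l (N + 1) := by
  unfold X φ S
  have e1 : l.getD (1 - 1) 0 = l.headD 0 := by cases l <;> rfl
  rw [e1, Nat.add_sub_cancel]
  have h1 : (((m - 2) * 10000 + l.headD 0 + (l.take N).sum + 1 : ℕ) : ℝ) - ((N * 10000 : ℕ) : ℝ) ≤
      (((m - 2) * 10000 + l.headD 0 + (l.take N).sum + 1 - N * 10000 : ℕ) : ℝ) := by
    rw [sub_le_iff_le_add]
    exact_mod_cast (le_tsub_add : (m - 2) * 10000 + l.headD 0 + (l.take N).sum + 1 ≤
      ((m - 2) * 10000 + l.headD 0 + (l.take N).sum + 1 - N * 10000) + N * 10000)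
  push_cast [Nat.cast_sub hm] at h1 ⊢
  linarith

/-! ### the recursion -/

lemma pp_sound {g : ℕ} (hg : g < 100000) (Sr p : ℕ → ℝ)
    (hp : ∀ a, p (a + 1) = (1 - (g : ℝ) / 100000) * p a + 1 + (g : ℝ) / 100000 * (a - Sr a)) :
    ∀ (n a s P : ℕ) (l : List ℕ), (∀ i, l.getD i 0 ≤ 10000) → s ≤ a * 10000 → Sr a = (s : ℝ) / 10000 →
      (∀ i, Sr (a + i + 1) = Sr (a + i) + (l.getD i 0 : ℕ) / 10000) →
      (P : ℝ) ≤ 1000000000000 * p a → (pp g n a s P l : ℝ) ≤ 1000000000000 * p (a + n) := by
  intro n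
  induction n with
  | zero =>
    intro a s P l _ _ _ _ h
    simpa [pp] using h
  | succ n ih =>
    intro a s P l hl hs hSa hSi hP
    have e0 : l.headD 0 = l.getD 0 0 := by cases l <;> rfl
    have et : ∀ i, l.tail.getD i 0 = l.getD (i + 1) 0 := by
      intro i
      cases l <;> rfl
    have h1 := ih (a + 1) (s + l.headD 0)
      ((100000 - g) * P / 100000 + 1000000000000 + g * (a * 10000 - s) * 1000) l.tail
      (fun i => by rw [et]; exact hl (i + 1))
      (by
        have := hl 0
        rw [e0]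
        omega)
      (by
        have := hSi 0
        simp only [add_zero] at this
        rw [this, hSa, e0]
        push_cast
        ring)
      (fun i => by
        have := hSi (i + 1)
        rw [et]
        have e1 : a + 1 + i + 1 = a + (i + 1) + 1 := by ring
        have e2 : a + 1 + i = a + (i + 1) := by ring
        rw [e1, e2]
        exact this)
      (by
        have h2 : (((100000 - g) * P / 100000 : ℕ) : ℝ) ≤ ((100000 - g) * P : ℕ) / 100000 := by
          exact_mod_cast Nat.cast_div_le (α := ℝ) (m := (100000 - g) * P) (n := 100000)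
        have e3 : ((100000 - g : ℕ) : ℝ) = 100000 - g := by
          rw [Nat.cast_sub hg.le]
          norm_num
        have e4 : ((a * 10000 - s : ℕ) : ℝ) = a * 10000 - s := by
          rw [Nat.cast_sub hs]
          push_cast
          ring
        push_cast at h2 ⊢
        rw [e3] at h2
        rw [e4, hp a, hSa]
        have hg' : (g : ℝ) < 100000 := by exact_mod_cast hg
        have h5 : (100000 - (g : ℝ)) * P ≤ (100000 - g) * (1000000000000 * p a) :=
          mul_le_mul_of_nonneg_left hP (by linarith)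
        have h6 : (100000 - (g : ℝ)) * P / 100000 ≤ (100000 - g) * (1000000000000 * p a) / 100000 :=
          div_le_div_of_nonneg_right h5 (by norm_num)
        have e7 : 1000000000000 * ((1 - (g : ℝ) / 100000) * p a + 1 + (g : ℝ) / 100000 * (a - (s : ℝ) / 10000)) =
            (100000 - g) * (1000000000000 * p a) / 100000 + 1000000000000 +
              g * (a * 10000 - s) * 1000 := by ring
        rw [e7]
        linarith)
    have e5 : a + 1 + n = a + (n + 1) := by ring
    rw [e5] at h1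
    exact h1

/-- greedy choice of the thresholds -/
def nxt (r x d : ℕ) : ℕ → ℕ → ℕ
  | 0, f => f
  | n + 1, f => if okF r (f - d) x then nxt r x d n (f - d) else f

def gen (r c d : ℕ) : ℕ → ℕ → ℕ → ℕ → List ℕ
  | 0, _, _, _ => []
  | n + 1, N, s, f =>
    match nxt r (c + s + 1 - N * 10000) d 1000 f with
    | 0 => []
    | f' + 1 => (f' + 1) :: gen r c d n (N + 1) (s + (f' + 1)) (f' + 1)

/-! ### the certificate -/

lemma pow_cond {q T i j : ℕ} {G : ℕ} (hT : 0 < T) (h : q * (G ^ i * T ^ j + G ^ j * T ^ i) ≤ T ^ (3 + i + j)) :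
    (q : ℝ) / (T : ℝ) ^ 3 * (((G : ℝ) / T) ^ i + ((G : ℝ) / T) ^ j) ≤ 1 := by
  have hT' : (0 : ℝ) < T := by exact_mod_cast hT
  have h' : (q : ℝ) * ((G : ℝ) ^ i * (T : ℝ) ^ j + (G : ℝ) ^ j * (T : ℝ) ^ i) ≤ (T : ℝ) ^ (3 + i + j) := by
    exact_mod_cast h
  have e1 : (q : ℝ) / (T : ℝ) ^ 3 * (((G : ℝ) / T) ^ i + ((G : ℝ) / T) ^ j) =
      (q : ℝ) * ((G : ℝ) ^ i * (T : ℝ) ^ j + (G : ℝ) ^ j * (T : ℝ) ^ i) / (T : ℝ) ^ (3 + i + j) := by
    rw [div_pow, div_pow, pow_add, pow_add]
    field_simp
  rw [e1, div_le_one (by positivity)]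
  exact h'

lemma pow_cond2 {T i j : ℕ} {G : ℕ} (hT : 0 < T) (h : G ^ i * T ^ j + G ^ j * T ^ i ≤ T ^ (i + j)) :
    ((G : ℝ) / T) ^ i + ((G : ℝ) / T) ^ j ≤ 1 := by
  have hT' : (0 : ℝ) < T := by exact_mod_cast hT
  have h' : ((G : ℝ) ^ i * (T : ℝ) ^ j + (G : ℝ) ^ j * (T : ℝ) ^ i) ≤ (T : ℝ) ^ (i + j) := by
    exact_mod_cast h
  have e1 : (((G : ℝ) / T) ^ i + ((G : ℝ) / T) ^ j) =
      ((G : ℝ) ^ i * (T : ℝ) ^ j + (G : ℝ) ^ j * (T : ℝ) ^ i) / (T : ℝ) ^ (i + j) := by
    rw [div_pow, div_pow, pow_add]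
    field_simp
  rw [e1, div_le_one (by positivity)]
  exact h'

/-- the checker is sound -/
theorem cert_of_check {m g r : ℕ} {l : List ℕ} (hm : 4 ≤ m) (h : check m g r l = true) : HasCert m := by
  unfold check at h
  simp only [Bool.and_eq_true, decide_eq_true_eq] at h
  obtain ⟨hg0, hg1, hr0, hr1, hlen, hγc, hρc, hchk, hpp⟩ := h
  have hG : ((100000 - g : ℕ) : ℝ) = 100000 - g := by
    rw [Nat.cast_sub hg1.le]
    norm_num
  have hR : ((100000 - r : ℕ) : ℝ) = 100000 - r := by
    rw [Nat.cast_sub hr1.le]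
    norm_num
  have hg0' : (1 : ℝ) ≤ g := by exact_mod_cast hg0
  have hg1' : (g : ℝ) < 100000 := by exact_mod_cast hg1
  have hr0' : (1 : ℝ) ≤ r := by exact_mod_cast hr0
  have hr1' : (r : ℝ) < 100000 := by exact_mod_cast hr1
  -- the fragments
  have hfr := chk_sound l 0 0 hchk
  have hlev : ∀ N, 1 ≤ N → N ≤ l.length → okF r (l.getD (N - 1) 0)
      ((m - 2) * 10000 + l.headD 0 + (l.take (N - 1)).sum + 1 - (N - 1) * 10000) = true := by
    intro N hN hNl
    have h1 := hfr (N - 1) (by omega)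
    rw [zero_add, zero_add] at h1
    exact h1
  have hall : ∀ i, l.getD i 0 ≤ 10000 := by
    intro i
    rcases Nat.lt_or_ge i l.length with h1 | h1
    · have h2 := hlev (i + 1) (by omega) (by omega)
      rw [Nat.add_sub_cancel] at h2
      exact (okF_sound hr0 hr1 h2).2.1
    · rw [List.getD_eq_default _ _ h1]
      omega
  -- the pair estimate
  have hpE : ∀ n, (pp g n 0 0 0 l : ℝ) ≤ 1000000000000 * pE ((g : ℝ) / 100000) (S l) n := by
    intro n
    have h1 := pp_sound hg1 (S l) (pE ((g : ℝ) / 100000) (S l)) (fun a => rfl) n 0 0 0 l hall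
      (by omega) (by rw [S_zero]; simp) (fun i => by
        rw [zero_add, S_succ]
        unfold φ
        rw [Nat.add_sub_cancel]) (by simp [pE])
    rw [zero_add] at h1
    exact h1
  refine ⟨(g : ℝ) / 100000, 100000, g, (m - 2) / 2, (m - 1) / 2, l.length, m / 2, (m + 1) / 2,
    fun N => (1 - φ l N / 2) / ((r : ℝ) / 100000), φ l, X m l, S l, ?_⟩
  constructor
  · norm_num
  · exact hg1.le
  · push_cast
    field_simp
  · positivity
  · rw [div_le_one (by norm_num)]
    exact hg1'.le
  · intro n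
    refine bdAll2 (by positivity) (by rw [div_le_one (by norm_num)]; exact hg1'.le)
      ((m - 4) / 2) ((m - 3) / 2) (by omega) ?_ n
    have h1 := pow_cond (by norm_num) hγc
    have h2 : (((100000 - g) ^ 2 * 100000 : ℕ) : ℝ) - ((g ^ 3 : ℕ) : ℝ) ≤
        (((100000 - g) ^ 2 * 100000 - g ^ 3 : ℕ) : ℝ) := by
      rw [sub_le_iff_le_add]
      exact_mod_cast le_tsub_add
    push_cast at h2
    rw [hG] at h2 h1
    have e1 : (100000 - (g : ℝ)) / ((100000 : ℕ) : ℝ) = 1 - (g : ℝ) / 100000 := by
      push_cast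
      ring
    rw [e1] at h1
    refine le_trans (mul_le_mul_of_nonneg_right ?_ ?_) h1
    · rw [le_div_iff₀ (by norm_num)]
      push_cast
      refine le_trans (le_of_eq ?_) h2
      ring
    · have : (0 : ℝ) ≤ 1 - (g : ℝ) / 100000 := by
        rw [← e1]
        exact div_nonneg (by linarith) (by norm_num)
      positivity
  · omega
  · omega
  · intro N hN hNl
    have h1 := okF_sound hr0 hr1 (hlev N hN hNl)
    obtain ⟨k1, k2, k3, k4, k5⟩ := h1
    have k1' : (1 : ℝ) ≤ (l.getD (N - 1) 0 : ℕ) := by exact_mod_cast k1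
    have k2' : ((l.getD (N - 1) 0 : ℕ) : ℝ) ≤ 10000 := by exact_mod_cast k2
    have hφ0 : 0 < φ l N := by
      unfold φ
      positivity
    have hφ1 : φ l N ≤ 1 := by
      unfold φ
      rw [div_le_one (by norm_num)]
      exact k2'
    have hρ : (1 - φ l N / 2) / ((1 - φ l N / 2) / ((r : ℝ) / 100000)) = (r : ℝ) / 100000 := by
      have : 0 < 1 - φ l N / 2 := by linarith
      exact div_div_cancel₀ this.ne'
    constructor
    · exact k3
    · exact hφ0
    · exact hφ1
    · rw [hρ, sub_pos, div_lt_one (by norm_num)]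
      exact hr1'
    · rw [hρ]
      have h2 := pow_cond2 (by norm_num) hρc
      rw [hR] at h2
      have e1 : 1 - (r : ℝ) / 100000 = (100000 - r) / (100000 : ℕ) := by
        push_cast
        ring
      rw [e1]
      exact h2
    · rw [hρ]
      exact k4
    · rw [hρ]
      exact k5
  · exact X_one m (by omega) l
  · exact S_zero l
  · exact fun N _ => S_succ l N
  · exact fun N _ _ => X_succ m (by omega) l N
  · omega
  · omega
  · exact hlen
  · have h1 : (((m - 1) * 1000000000000 : ℕ) : ℝ) ≤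
        ((pp g (m / 2) 0 0 0 l + pp g ((m + 1) / 2) 0 0 0 l : ℕ) : ℝ) := by
      exact_mod_cast hpp
    push_cast [Nat.cast_sub (show 1 ≤ m by omega)] at h1
    have h2 := hpE (m / 2)
    have h3 := hpE ((m + 1) / 2)
    linarith

/-- the numbers `g`, `r`, the first threshold and the step, for `m = 9, 10, ...` -/
def tab : List (ℕ × ℕ × ℕ × ℕ) := [
  (14257,18083,5336,20), (12896,15911,4735,20), (11839,14333,4412,20), (10886,12945,3979,20),
  (10117,11873,3715,20), (9415,10911,3406,20), (8831,10135,3198,20), (8292,9428,2968,20), (7834,8841,2804,20),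
  (7408,8300,2627,20), (7040,7841,2496,20), (6694,7413,2356,10), (6391,7043,2247,10), (6105,6697,2134,10),
  (5852,6394,2045,10), (5612,6107,1950,10), (5396,5854,1875,10), (5192,5613,1796,10), (5007,5398,1732,10),
  (4830,5193,1665,10), (4670,5008,1608,10), (4516,4831,1550,10), (4375,4670,1501,10), (4240,4516,1451,10),
  (4115,4375,1407,10), (3995,4240,1363,10), (3885,4116,1326,10), (3778,3996,1286,10), (3679,3885,1252,10),
  (3583,3778,1217,10), (3493,3679,1186,10), (3407,3583,1155,4), (3326,3493,1127,4), (3247,3407,1099,4),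
  (3173,3326,1074,4), (3102,3247,1048,4), (3035,3174,1025,4), (2969,3102,1002,4), (2907,3035,981,4),
  (2847,2969,959,4), (2790,2907,939,4), (2735,2847,920,4), (2682,2790,902,4), (2631,2735,884,4),
  (2582,2682,867,4), (2535,2631,851,4), (2490,2583,836,4), (2446,2535,820,4), (2403,2490,806,4),
  (2362,2446,792,4), (2323,2404,779,4), (2284,2362,764,4), (2248,2323,752,4), (2212,2285,740,4),
  (2177,2248,728,4), (2143,2212,717,4), (2111,2177,705,4), (2079,2143,694,4), (2048,2111,684,4),
  (2019,2079,674,4), (1990,2048,664,4), (1961,2019,655,4), (1934,1990,645,4), (1907,1961,635,4),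
  (1882,1934,627,4), (1856,1907,618,4), (1832,1882,611,4), (1808,1856,602,4), (1785,1832,594,4),
  (1762,1808,587,4), (1740,1785,579,4), (1718,1762,572,2), (1697,1740,565,2), (1677,1718,557,2),
  (1657,1698,552,2), (1637,1677,544,2), (1618,1657,538,2), (1600,1637,531,2), (1581,1618,525,2),
  (1563,1600,520,2), (1546,1581,513,2), (1529,1563,507,2), (1512,1546,502,2), (1496,1529,497,2),
  (1480,1512,491,2), (1464,1496,486,2), (1449,1480,481,2), (1434,1464,475,2), (1420,1449,471,2),
  (1405,1434,466,2), (1391,1420,462,2), (1377,1405,457,2), (1364,1391,452,2), (1350,1377,447,2),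
  (1337,1364,444,2), (1325,1350,439,2), (1312,1337,434,2), (1300,1325,431,2), (1288,1312,427,2),
  (1276,1300,423,2), (1264,1288,419,2), (1253,1276,415,2), (1242,1264,411,2), (1231,1253,408,2),
  (1220,1242,404,2), (1209,1231,401,2), (1199,1220,397,2), (1188,1209,393,2), (1178,1199,390,2),
  (1168,1188,386,2), (1159,1178,383,2), (1149,1168,380,1), (1140,1159,377,1), (1130,1149,374,1),
  (1121,1140,371,1), (1112,1130,367,1), (1103,1121,365,1), (1095,1112,362,1), (1086,1103,359,1),
  (1078,1095,357,1), (1069,1086,353,1), (1061,1078,351,1), (1053,1069,348,1), (1045,1061,345,1),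
  (1037,1053,343,1), (1030,1045,340,1), (1022,1037,337,1), (1015,1030,336,1), (1007,1022,333,1),
  (1000,1015,331,1), (993,1007,328,1), (986,1000,326,1), (979,993,324,1), (972,986,321,1), (965,979,319,1),
  (959,972,317,1), (952,965,314,1), (946,959,313,1), (939,952,310,1), (933,946,309,1), (927,939,306,1),
  (920,933,304,1), (914,927,302,1), (908,920,299,1), (902,914,298,1), (897,908,296,1), (891,902,294,1),
  (885,897,293,1), (880,891,290,1), (874,885,288,1), (869,880,287,1), (863,874,285,1), (858,869,284,1),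
  (853,863,281,1), (847,858,280,1), (842,853,278,1), (837,847,276,1), (832,842,274,1), (827,837,273,1),
  (822,832,271,1), (817,827,270,1), (813,822,268,1), (808,817,266,1), (803,813,265,1), (799,808,264,1),
  (794,803,262,1), (790,799,261,1), (785,794,259,1), (781,790,258,1), (776,785,256,1), (772,781,255,1),
  (768,776,253,1), (763,772,252,1), (759,768,251,1), (755,763,249,1), (751,759,247,1), (747,755,246,1),
  (743,751,245,1), (739,747,244,1), (735,743,242,1), (731,739,241,1), (727,735,240,1), (724,731,238,1),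
  (720,727,237,1), (716,724,236,1), (713,720,235,1), (709,716,233,1), (705,713,233,1), (702,709,231,1),
  (698,705,230,1), (695,702,229,1), (691,698,228,1), (688,695,227,1), (684,691,225,1), (681,688,225,1),
  (678,684,223,1), (674,681,222,1), (671,678,222,1), (668,674,220,1), (665,671,219,1), (662,668,218,1),
  (658,665,217,1), (655,662,216,1), (652,658,214,1), (649,655,214,1), (646,652,213,1), (643,649,212,1),
  (640,646,211,1), (637,643,210,1), (634,640,209,1), (632,637,208,1), (629,634,207,1), (626,632,207,1),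
  (623,629,206,1), (620,626,205,1), (617,623,203,1), (615,620,202,1), (612,617,201,1), (609,615,201,1),
  (607,612,200,1), (604,609,199,1), (601,607,199,1), (599,604,197,1), (596,601,196,1), (594,599,196,1),
  (591,596,195,1), (589,594,194,1), (586,591,193,1), (584,589,193,1), (581,586,191,1), (579,584,191,1),
  (576,581,190,1), (574,579,189,1), (572,576,188,1), (569,574,188,1), (567,572,187,1), (565,569,186,1),
  (562,567,185,1), (560,565,185,1), (558,562,183,1), (556,560,183,1), (553,558,182,1), (551,556,182,1),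
  (549,553,180,1), (547,551,180,1), (545,549,179,1), (543,547,179,1), (541,545,178,1), (538,543,178,1),
  (536,541,177,1), (534,538,176,1), (532,536,175,1), (530,534,174,1), (528,532,174,1), (526,530,173,1),
  (524,528,172,1), (522,526,172,1), (520,524,171,1), (518,522,170,1), (516,520,170,1), (515,518,169,1),
  (513,516,168,1), (511,515,169,1), (509,513,168,1), (507,511,167,1), (505,509,167,1), (503,507,166,1),
  (502,505,165,1), (500,503,164,1), (498,502,165,1), (496,500,164,1), (494,498,163,1), (493,496,162,1),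
  (491,494,161,1), (489,493,162,1), (487,491,161,1), (486,489,160,1), (484,487,159,1), (482,486,159,1),
  (481,484,158,1), (479,482,157,1), (477,481,158,1), (476,479,157,1), (474,477,156,1), (473,476,156,1),
  (471,474,155,1), (469,473,155,1), (468,471,154,1), (466,469,153,1), (465,468,153,1), (463,466,152,1)]

/-- the check with the thresholds of `gen` -/
def check3 (m : ℕ) (x : ℕ × ℕ × ℕ × ℕ) : Bool :=
  check m x.1 x.2.1 (gen x.2.1 ((m - 2) * 10000 + x.2.2.1) x.2.2.2 ((m + 1) / 2 - 1) 0 0 x.2.2.1)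

def checkAll : ℕ → List (ℕ × ℕ × ℕ × ℕ) → Bool
  | _, [] => true
  | m, x :: l => check3 m x && checkAll (m + 1) l

lemma checkAll_sound : ∀ (l : List (ℕ × ℕ × ℕ × ℕ)) (m : ℕ), 4 ≤ m → checkAll m l = true →
    ∀ i < l.length, HasCert (m + i) := by
  intro l
  induction l with
  | nil =>
    intro m _ _ i hi
    simp at hi
  | cons x l ih =>
    intro m hm h i hi
    simp only [checkAll, Bool.and_eq_true] at h
    cases i with
    | zero => exact cert_of_check hm h.1
    | succ i =>
      have h1 := ih (m + 1) (by omega) h.2 i (by simpa using hi)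
      have e1 : m + 1 + i = m + (i + 1) := by ring
      rwa [e1] at h1

lemma checkAll_tab : checkAll 9 tab = true := by decide +kernel

lemma tab_length : tab.length = 291 := by decide +kernel

end NBT_

/-- the certificates for `9 ≤ m < 300` -/
theorem cert (m : ℕ) (h9 : 9 ≤ m) (h : m < 300) : HasCert m := by
  have h1 := NBT_.checkAll_sound NBT_.tab 9 (by omega) NBT_.checkAll_tab (m - 9)
    (by rw [NBT_.tab_length]; omega)
  have e1 : 9 + (m - 9) = m := by omega
  rwa [e1] at h1

end Pool.Agent.Lib.MP_83608f_co.CN
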