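import Pool.Agent.Lib.MP_83608f_co.CN.Defs

/-!
# MP_83608f_co, part CN: Specs

THEOREM.  Let `D` be a `k`-regular oriented graph on `n` vertices whose connectivity is at least `c`, and `S₂` the set of the
ordered pairs at distance exactly two.  Then `|S₂| ≥ nk - (k-c)(n-1)/2`.  If `D` has no directed triangle then
`|S₂| ≥ nk - β(k-c)n` with `β = (3-√5)/2`, so `n ≥ 3k + 1 - β(k-c)`; if `D` has girth at least five then
`n ≥ 4k + 1 - 2β(k-c)`.

PROOF.  `N` = nonadjacent ordered pairs, `Far` = pairs `(x,w)` with distance `≥ 3` from `w` to `x`, `B⁺(F)`, `B⁻(F)` = closed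
neighbourhoods.  (P4) `rank M0(P,Q) ≤ |N|` for all `P, Q` supported on `I ∪ D`.  Let `Y ⊆ V` be such that `|B⁺(F)| ≥ |F| + k` for all
nonempty `F ⊆ V - Y`.  Take `Q` with the rows in `Y` zero, generic elsewhere, and `P` generic.  Then the kernel of `M0(P,Q)` has
dimension at most `(k-c)|Y|`, so `|Far| ≤ |N| + (k-c)|Y|`, i.e. `|S₂| ≥ nk - (k-c)|Y|`.  (UNC) `Y` can be chosen with
`|Y ∩ A_i| + |B⁺(A_i)| ≤ |A_i| + k` for disjoint sets `A_i` covering `Y`; then every vertex of `A_i` has at least `|Y ∩ A_i|`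
out-neighbours in `A_i`, so `|Y ∩ A_i| ≤ (|A_i| - 1)/2`, and `|Y ∩ A_i| ≤ β|A_i|` (GOLD) if there are no triangles.
-/

set_option autoImplicit false

open Classical

noncomputable section

namespace Pool.Agent.Lib.MP_83608f_co.CN

/-- P4 200 lines, none (helper84).  Proof.  `M1 c (inl (u,w)) = [u = c.2] Q w c.1`, `M1 c (inr (x,v)) = -[v = c.1] P c.2 x`.  `M1 * M0 = 0`: a term
`P u x * Q w v ≠ 0` with `Far A x w`, `Far A v u` forces `Nad A u w` and `Nad A x v`.  `M1` is the transpose of `M0 A Q P` up to the swap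
`(a,b) ↦ (b,a)` of the rows and a sign.  So `rank M0(P,Q) + rank M0(Q,P) ≤ 2|N|`.  On the line `(P + t(Q-P), Q + t(P-Q))` the rank of `M0` is
at least `rank M0(P,Q)` for all but finitely many `t`, and `t ↦ 1 - t` exchanges the two arguments. -/
def SpecP4 : Prop := ∀ (V : Type) [Fintype V] (A : V → V → Prop) (P Q : Matrix V V ℚ),
  (∀ u x, P u x ≠ 0 → u = x ∨ A u x) → (∀ w v, Q w v ≠ 0 → w = v ∨ A w v) →
  (M0 A P Q).rank ≤ Fintype.card {p : V × V // Nad A p.1 p.2}

/-- GEN 120 lines, none: general position.  Proof.  Induction over the finite index set.  For one index `i` the matrix `P i` = indicator of the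
pairs `(f i x, x)`, `x ∈ C i`, has the submatrix `(P (f i x') x)`, `x', x ∈ C i`, equal to `1`.  The determinant of this submatrix along a
line `P + t(P' - P)` is a polynomial in `t`; if it is not zero at one point then it is not zero for all but finitely many `t`.  So if `P` is good for the
indices in `s` and `P'` for `i` then some `P + t(P' - P)` is good for `s ∪ {i}`; the support condition is linear. -/
def SpecGEN : Prop := ∀ (V : Type) [Fintype V] (S : V → V → Prop) (ι : Type) [Fintype ι] (R : ι → V → Prop) (C : ι → Finset V)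
  (f : ι → V → V), (∀ i, Set.InjOn (f i) (C i)) → (∀ i, ∀ x ∈ C i, R i (f i x)) → (∀ i, ∀ x ∈ C i, S (f i x) x) →
  ∃ P : Matrix V V ℚ, (∀ u x, P u x ≠ 0 → S u x) ∧
    ∀ i, ∀ z : V → ℚ, (∀ x, x ∉ C i → z x = 0) → (∀ u, R i u → ∑ x, P u x * z x = 0) → ∀ x, z x = 0

/-- HALL 60 lines, none: Hall's theorem with deficiency `d`.  Proof.  `Finset.all_card_le_biUnion_card_iff_exists_injective` for the family
`x ↦ t x ⊔ Fin d` indexed by `S`. -/
def SpecHALL : Prop := ∀ (V : Type) [Fintype V] (S : Finset V) (t : V → Finset V) (d : ℕ),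
  (∀ X ⊆ S, X.card ≤ (X.biUnion t).card + d) →
  ∃ (S' : Finset V) (f : V → V), S' ⊆ S ∧ S.card ≤ S'.card + d ∧ Set.InjOn f S' ∧ ∀ x ∈ S', f x ∈ t x

/-- UNC 150 lines, none: uncrossing.  Proof.  Let `F` be a maximal set all whose nonempty subsets `F'` satisfy `|F'| + k ≤ |B⁺(F')|`, `Y = V - F`.  For
`y ∈ Y` there is a set `T y ⊆ F ∪ {y}`, `y ∈ T y`, with `|B⁺(T y)| + 1 ≤ |T y| + k`.  The excess `|A| + k - |B⁺(A)|` is
supermodular.  Take a family of disjoint sets `A` with excess at least `|Y ∩ A|` which covers `Y` (by induction over the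
subsets `Y'` of `Y`: there is such a family of subsets of `F ∪ Y'` covering `Y'`; to add `y` unite `T y` with all members which meet it, one after
the other: if `A` meets the current `T`, then `A ∩ T = A ∩ T y ⊆ F` is nonempty, so the excess of `A ∩ T` is at most `0` and the excess of
`A ∪ T` is at least the sum). -/
def SpecUNC : Prop := ∀ (V : Type) [Fintype V] (A : V → V → Prop) (k : ℕ),
  ∃ (Y : Finset V) (𝒜 : Finset (Finset V)), (∀ F : Finset V, F.Nonempty → Disjoint F Y → F.card + k ≤ (outN A F).card) ∧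
    (𝒜 : Set (Finset V)).PairwiseDisjoint id ∧ Y ⊆ 𝒜.biUnion id ∧
    ∀ T ∈ 𝒜, (Y ∩ T).card + (outN A T).card ≤ T.card + k

/-- HALF 40 lines, none: an oriented graph with all out-degrees at least `e` in `S` has at least `2e + 1` vertices.
Proof.  `e|S| ≤` number of arcs inside `S` `≤ |S|(|S|-1)/2`. -/
def SpecHALF : Prop := ∀ (V : Type) [Fintype V] (A : V → V → Prop) (S : Finset V) (e : ℕ), S.Nonempty →
  (∀ u v, A u v → ¬ A v u) → (∀ u ∈ S, e ≤ (S.filter fun v => A u v).card) → 2 * e + 1 ≤ S.card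

/-- GOLD 80 lines, none: without directed triangles `e ≤ β |S|`, `β = (3-√5)/2`, `β² = 3β - 1`.  Proof.  Strong induction on `|S|`; `e = 0` is
trivial.  Take `v ∈ S` with in-degree at least `e` in `S` (double counting), `O = N⁺(v) ∩ S`, `|O| ≥ e ≥ 1`, `|O| < |S|`.  Let `x ∈ O` have
the least out-degree `e'` inside `O`: `e' ≤ β|O|` by induction, so `x` has at least `e - β|O|` out-neighbours in `S - O`; they are
not in-neighbours of `v` (no triangles).  The in-neighbours of `v` are not in `O`.  So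
`|S| ≥ e + |O| + e - β|O| ≥ (3-β)e` and `β(3-β) = 1`. -/
def SpecGOLD : Prop := ∀ (V : Type) [Fintype V] (A : V → V → Prop) (S : Finset V) (e : ℕ), S.Nonempty →
  (∀ u v, A u v → ¬ A v u) → (∀ u v w, A u v → A v w → ¬ A w u) →
  (∀ u ∈ S, e ≤ (S.filter fun v => A u v).card) → (e : ℝ) ≤ (3 - √5) / 2 * S.card

/-- KER 200 lines, hypotheses P4, GEN, HALL: the main estimate `|Far| ≤ |N| + d|Y|`.
Proof.  For `w ∈ Y`: HALL for `S = {x | Far A x w}`, `t x = {u | (u = x ∨ A u x) ∧ Nad A u w}` gives `S' w`, `f w`.  GEN (`ι = V`, `C w = S' w`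
for `w ∈ Y`, `∅` else, `R w u = Nad A u w`, `S u x = (u = x ∨ A u x)`) gives `P`.  For every `x` and nonempty `F ⊆ {w ∉ Y | Far A x w}` the set
`outN A F` is contained in `{v | Nad A x v} ∪ N⁺(x)`, so `|F| ≤ |{v ∈ outN A F | Nad A x v}|`: HALL with `d = 0` and GEN (for the
transposed matrix) give `Q₁`; let `Q w v = 0` for `w ∈ Y` and `Q w v = Q₁ w v` else.  Let `Z` be in the kernel of `M0 A P Q` (extend by
zero to a function on `V × V`): row `x` of `Z` outside `Y` is killed by `Q`, so `Z(x,w) = 0` for `w ∉ Y`; if also `Z(x,w) = 0` for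
all `w ∈ Y`, `x ∉ S' w`, then `Z = 0`.  So the dimension of the kernel is at most `∑_(w ∈ Y) (|Far_w| - |S' w|) ≤ d|Y|`; rank-nullity and P4. -/
def SpecKER : Prop := ∀ (V : Type) [Fintype V] (A : V → V → Prop) (k d : ℕ) (Y : Finset V),
  (∀ v, (Finset.univ.filter fun u => A v u).card = k) →
  (∀ F : Finset V, F.Nonempty → Disjoint F Y → F.card + k ≤ (outN A F).card) →
  (∀ w ∈ Y, ∀ X : Finset V, (∀ x ∈ X, Far A x w) →
    X.card ≤ ((inN A X).filter fun u => Nad A u w).card + d) →
  Fintype.card {p : V × V // Far A p.1 p.2} ≤ Fintype.card {p : V × V // Nad A p.1 p.2} + d * Y.card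

/-- FIN 150 lines, hypotheses KER, UNC, HALF, GOLD (helper56). -/
def SpecFIN : Prop := ∀ (V : Type) [Fintype V] (A : V → V → Prop) (k c : ℕ), 1 ≤ k → (∀ v, ¬ A v v) → (∀ u v, A u v → ¬ A v u) →
  (∀ v, (Finset.univ.filter fun u => A v u).card = k) → (∀ v, (Finset.univ.filter fun u => A u v).card = k) → Conn A c →
  2 * (Fintype.card V * k) ≤ 2 * (∑ x, (sec A x).card) + (k - c) * (Fintype.card V - 1) ∧
  ((∀ u v w, A u v → A v w → ¬ A w u) →
    (Fintype.card V : ℝ) * k ≤ (∑ x, (sec A x).card : ℕ) + (3 - √5) / 2 * (k - c : ℕ) * Fintype.card V)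

end Pool.Agent.Lib.MP_83608f_co.CN
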