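import Pool.Agent.Lib.MP_83608f_co.CN.NBL

/-!
# MP_83608f_co, part CN, block W (helper56): `n ≥ (g-3) k` for every `k`-diregular digraph of girth at least `g`

Paper proof: /team-store/MP_83608f_co_WCH.md (sections 1 - 5, quoted below).  Module XXX = file CN/XXX.lean,
`import Pool.Agent.Lib.MP_83608f_co.CN.SpecW`, `namespace Pool.Agent.Lib.MP_83608f_co.CN`,
`theorem specXXX (hYYY : SpecYYY) .. : SpecXXX`, own lemmas in `namespace XXX_`.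

`A` is the adjacency relation, `m = g - 1`, `NoCl A m`: no closed walk of length `1, .., m`.
-/

set_option autoImplicit false

open Classical

noncomputable section

namespace Pool.Agent.Lib.MP_83608f_co.CN

/-- the number of out-neighbours of `v` in `T` -/
def dT {V : Type} (A : V → V → Prop) (T : Finset V) (v : V) : ℕ := (T.filter fun u => A v u).card

/-- the sum of the deficits `k - d_T(v)` of the vertices of `X` -/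
def df {V : Type} (A : V → V → Prop) (k : ℕ) (T X : Finset V) : ℝ := ∑ v ∈ X, ((k : ℝ) - dT A T v)

/-- the flux: `F(T) = ∑_{v ∈ T} (k - d_T(v))` (the number of arcs leaving `T` if all out-degrees are `k`) -/
def flux {V : Type} (A : V → V → Prop) (k : ℕ) (T : Finset V) : ℝ := df A k T T

/-- the weight of `X` in `D[T]`: `|X|/k + (sum of the deficits)/(kτ)` -/
def wt {V : Type} (A : V → V → Prop) (k : ℕ) (τ : ℝ) (T X : Finset V) : ℝ :=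
  (X.card : ℝ) / k + df A k T X / (k * τ)

/-- the ball of radius `i` around `r` in `D[T]` -/
def bl {V : Type} (A : V → V → Prop) (T : Finset V) (r : V) : ℕ → Finset V
  | 0 => {r}
  | i + 1 => T.filter fun v => v ∈ bl A T r i ∨ ∃ u ∈ bl A T r i, A u v

/-- property (**) of a minimal pair: if `B ⊆ W` contains a nonempty set with all out-degrees at least `s`,
`0 < s ≤ τ`, then `s (Γ k - |B|) ≤ F(B) + k²/4` -/
def Mini {V : Type} (A : V → V → Prop) (k : ℕ) (W : Finset V) (τ Γ : ℝ) : Prop :=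
  ∀ (B : Finset V) (s : ℝ), B ⊆ W → 0 < s → s ≤ τ →
    (∃ T₀ : Finset V, T₀ ⊆ B ∧ T₀.Nonempty ∧ ∀ v ∈ T₀, s ≤ dT A T₀ v) →
    s * (Γ * k - B.card) ≤ flux A k B + (k : ℝ) ^ 2 / 4

/-- WCA [80 lines], the cascade lemma (section 1).  Proof: strong induction on `|T|` (`T₀`, `σ` fixed).  If
`σ ≤ dT A T v` for all `v ∈ T` take `A' = T`.  Otherwise `v ∈ T`, `dT A T v < σ`; `v ∉ T₀` because
`dT A T₀ v ≤ dT A T v`.  `T' = T.erase v`: for `u ∈ T'` one has `dT A T' u = dT A T u - [A u v]`, so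
`flux A k T' = flux A k T - (k - dT A T v) + #{u ∈ T' | A u v} ≤ flux A k T + dT A T v < flux A k T + σ` (the in-degree
of `v` is at most `k`), and `|T'| = |T| - 1`.  (`A v v` is allowed; then `v` itself is not counted in
`#{u ∈ T' | A u v}`.) -/
def SpecWCA : Prop := ∀ (V : Type) [Fintype V] (A : V → V → Prop) (k : ℕ),
  (∀ v, (Finset.univ.filter fun u => A u v).card ≤ k) →
  ∀ (σ : ℝ) (T₀ T : Finset V), 0 < σ → T₀ ⊆ T → (∀ v ∈ T₀, σ ≤ dT A T₀ v) →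
  ∃ A' : Finset V, T₀ ⊆ A' ∧ A' ⊆ T ∧ (∀ v ∈ A', σ ≤ dT A A' v) ∧
    flux A k A' + σ * A'.card ≤ flux A k T + σ * T.card

/-- WCO [80 lines], the counting lemma: if `#{v ∈ T | d v < u} ≥ u - q` for all real `0 < u ≤ s` and `0 ≤ q ≤ s`, `d`
integer valued, then `∑_{d v < s} (s - d v) ≥ (s-q)²/2`.
Proof: `N = ⌊s⌋`, `f = s - N`.  For `d < s`: `s - d = ∑_{j=1}^N [d < j] + f` (`d ≤ N`; if `f = 0` then `d < N`, fine), so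
the sum is `∑_{j=1}^N y_j + f y`, `y_j = #{d < j} ≥ max (j-q) 0` (`j ≤ N ≤ s`), `y = #{d < s} ≥ s - q`.
Lemma: `∑_{j=1}^N max (j-q) 0 ≥ z(z+1)/2` if `z = N - q ≥ -1` (induction on `N`: the step adds `z+1` if `z + 1 ≥ 0`:
`(z+1) + z(z+1)/2 = (z+1)(z+2)/2` if `z ≥ -1`; if `z+1 ∈ [-1, 0]` the claim is trivial since the right side is `≤ 0`).
Since `N - q > s - 1 - q ≥ -1`: total `≥ z(z+1)/2 + f (z+f) ≥ (z+f)²/2`, because `z(z+1)/2 + f(z+f) - (z+f)²/2 =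
z/2 + f²/2`; if `z < 0` then `q > N` and the total is at least `f (s-q) ≥ (s-q)²/2` because `s - q ≤ f` (use this case
distinction: for `z < 0` drop the first sum). -/
def SpecWCO : Prop := ∀ (V : Type) (T : Finset V) (d : V → ℕ) (q s : ℝ), 0 ≤ q → q ≤ s →
  (∀ u : ℝ, 0 < u → u ≤ s → u - q ≤ ((T.filter fun v => (d v : ℝ) < u).card : ℝ)) →
  (s - q) ^ 2 / 2 ≤ ∑ v ∈ T.filter (fun v => (d v : ℝ) < s), (s - d v)

/-- WYS [120 lines], section 2 (a), (b), (c).  `B = bl A W r i`, `i ≥ 1`, `L = B \ bl A W r (i-1)`,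
`L' = bl A W r (i+1) \ B`, `θ τ (Γ k - |B|) = F(B) + k²/4`.
Proof.  (a) for `v ∈ bl A W r (i-1)` all out-neighbours of `v` in `W` are in `B`, so `dT A B v = dT A W v ≥ τ ≥ s`.
(b) `Y = {v ∈ B | dT A B v < s}`; if `|Y| < s - θτ` put `s' = s - |Y| > θτ`, (`θ ≥ 0` since `|B| ≤ |W| < Γ k` and
`F(B) ≥ 0`? (not needed: `θ ≥ 0` follows from the sign of `F(B) + k²/4`: `F(B) ≥ 0` because `dT A B v ≤ k`, which is an
hypothesis)), `T₀ = B \ Y` contains `r` (`r ∈ bl A W r (i-1)`, by (a)), and for `v ∈ T₀`: `dT A T₀ v ≥ dT A B v - |Y| ≥ s'`.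
`Mini` with `s'` gives `s' (Γk - |B|) ≤ θ τ (Γ k - |B|)`, so `s' ≤ θτ`, contradiction.
(c) if `θ ≥ 1` trivial.  Let `v ∈ B` have the least `d = dT A B v`.  If `d > θτ` then `Mini` with `T₀ = B`,
`s = min τ d > θτ` (positive) gives a contradiction.  So `d ≤ θτ < τ`, by (a) `v ∈ L`, and
`τ ≤ dT A W v ≤ dT A B v + |L'|` (an out-neighbour in `W` of `v ∈ B` lies in `bl A W r (i+1) = B ∪ L'`). -/
def SpecWYS : Prop := ∀ (V : Type) [Fintype V] (A : V → V → Prop) (k : ℕ) (W : Finset V) (τ Γ θ : ℝ) (r : V)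
  (i : ℕ), 0 < τ → (∀ v ∈ W, τ ≤ dT A W v) → (∀ v ∈ W, dT A W v ≤ k) → (W.card : ℝ) < Γ * k →
  Mini A k W τ Γ → r ∈ W →
  θ * (τ * (Γ * k - (bl A W r (i + 1)).card)) = flux A k (bl A W r (i + 1)) + (k : ℝ) ^ 2 / 4 →
  0 ≤ θ ∧
  (∀ s : ℝ, 0 < s → s ≤ τ →
    ((bl A W r (i + 1)).filter fun v => (dT A (bl A W r (i + 1)) v : ℝ) < s) ⊆
        bl A W r (i + 1) \ bl A W r i ∧
    s - θ * τ ≤ (((bl A W r (i + 1)).filter fun v => (dT A (bl A W r (i + 1)) v : ℝ) < s).card : ℝ)) ∧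
  τ * (1 - θ) ≤ ((bl A W r (i + 2) \ bl A W r (i + 1)).card : ℝ)

/-- WDF [100 lines] (WCO, WYS), section 2 (d): with the notation of WYS, for `0 < s ≤ τ`, `θτ ≤ s`,
`s ≤ k - |L'|`: `(s - θτ)(k - |L'| - s) + (s - θτ)²/2 ≤ Def(L)`.
Proof: for `v ∈ L`, `dT A W v ≤ dT A B v + |L'|`; `Y_s ⊆ L`; `Def(L) = ∑_{v ∈ L} (k - dT A W v) ≥ ∑_{v ∈ Y_s}` (terms are
`≥ 0`) `≥ ∑_{Y_s} (k - |L'| - dT A B v) = |Y_s| (k - |L'| - s) + ∑_{Y_s} (s - dT A B v)`; use `|Y_s| ≥ s - θτ` and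
WCO with `q = θτ` (`T = B`, `d = dT A B`). -/
def SpecWDF : Prop := ∀ (V : Type) [Fintype V] (A : V → V → Prop) (k : ℕ) (W : Finset V) (τ Γ θ : ℝ) (r : V)
  (i : ℕ), 0 < τ → (∀ v ∈ W, τ ≤ dT A W v) → (∀ v ∈ W, dT A W v ≤ k) → (W.card : ℝ) < Γ * k →
  Mini A k W τ Γ → r ∈ W →
  θ * (τ * (Γ * k - (bl A W r (i + 1)).card)) = flux A k (bl A W r (i + 1)) + (k : ℝ) ^ 2 / 4 →
  ∀ s : ℝ, 0 < s → s ≤ τ → θ * τ ≤ s → s ≤ k - ((bl A W r (i + 2) \ bl A W r (i + 1)).card : ℝ) →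
  (s - θ * τ) * (k - ((bl A W r (i + 2) \ bl A W r (i + 1)).card : ℝ) - s) + (s - θ * τ) ^ 2 / 2 ≤
    df A k W (bl A W r (i + 1) \ bl A W r i)

/-- WEE [80 lines], section 2 (e): `F(B) = Def(B) + e`, `0 ≤ e ≤ min (|L| |L'|) (k |L'|)`, for `B = bl A W r (i+1)`.
Proof: `F(B) - Def(B) = ∑_{v ∈ B} (dT A W v - dT A B v) = ∑_{v ∈ B} #{u ∈ W \ B | A v u}`; this is zero for
`v ∈ bl A W r i`, the `u` are in `L'`; and in-degrees are at most `k` (exchange the sums). -/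
def SpecWEE : Prop := ∀ (V : Type) [Fintype V] (A : V → V → Prop) (k : ℕ) (W : Finset V) (r : V) (i : ℕ),
  (∀ v, (Finset.univ.filter fun u => A u v).card ≤ k) → r ∈ W →
  df A k W (bl A W r (i + 1)) ≤ flux A k (bl A W r (i + 1)) ∧
  flux A k (bl A W r (i + 1)) - df A k W (bl A W r (i + 1)) ≤
    ((bl A W r (i + 1) \ bl A W r i).card : ℝ) * (bl A W r (i + 2) \ bl A W r (i + 1)).card ∧
  flux A k (bl A W r (i + 1)) - df A k W (bl A W r (i + 1)) ≤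
    (k : ℝ) * (bl A W r (i + 2) \ bl A W r (i + 1)).card

/-- WNM [150 lines] (WYS, WDF, WEE), the normalised facts (end of section 2).
`c = τ/k`, `xi = |L|/k`, `x = |L'|/k`, `lam = Def(L)/(kτ)`, `e = (F(B) - Def(B))/(kτ)`, `a = wt(B)`,
`ζ = 1 - (a + e + 1/(4c))/Γ`.
Proof: `θ := (F(B) + k²/4)/(τ(Γk - |B|))`, `θ = (N - β)/(Γ - β)` with `N = a + e + 1/(4c)`, `β = |B|/k`
(`F(B) + k²/4 = kτ (N - β)`), so if `ζ > 0`, i.e. `N < Γ`, then `θ ≤ N/Γ`, i.e. `ζ ≤ 1 - θ`.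
`c ζ ≤ x`: WYS (c) (trivial if `ζ ≤ 0`).  If `x ≤ 1 - c` and `ζ > 0`: WDF with `s = τ` gives
`lam ≥ (1-θ)(1-c-x) + (c/2)(1-θ)²`, monotone in `1 - θ ≥ 0`; if `ζ ≤ 0` use `lam ≥ 0`.
If `1 - c < x < 1` and `ζ + (1-c-x)/c > 0` (then `ζ > 0`): WDF with `s = k - |L'| = k(1-x)`,
`s - θτ = k (c(1-θ) + (1-c-x)) ≥ k (cζ + 1 - c - x) > 0`. -/
def SpecWNM : Prop := ∀ (V : Type) [Fintype V] (A : V → V → Prop) (k : ℕ) (W : Finset V) (τ Γ : ℝ) (r : V)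
  (i : ℕ) (c xi x lam e a ζ : ℝ), 1 ≤ k → 0 < τ → (∀ v ∈ W, τ ≤ dT A W v) → (∀ v ∈ W, dT A W v ≤ k) →
  (∀ v, (Finset.univ.filter fun u => A u v).card ≤ k) → (W.card : ℝ) < Γ * k →
  Mini A k W τ Γ → r ∈ W → c * k = τ →
  xi * k = ((bl A W r (i + 1) \ bl A W r i).card : ℝ) →
  x * k = ((bl A W r (i + 2) \ bl A W r (i + 1)).card : ℝ) →
  lam * (k * τ) = df A k W (bl A W r (i + 1) \ bl A W r i) →
  e * (k * τ) = flux A k (bl A W r (i + 1)) - df A k W (bl A W r (i + 1)) →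
  a = wt A k τ W (bl A W r (i + 1)) →
  ζ * Γ = Γ - (a + e + 1 / (4 * c)) →
  0 ≤ xi ∧ 0 ≤ x ∧ 0 ≤ lam ∧ 0 ≤ e ∧ e * c ≤ min xi 1 * x ∧ c * ζ ≤ x ∧
  (x ≤ 1 - c → ζ * (1 - c - x) + c / 2 * (max ζ 0) ^ 2 ≤ lam) ∧
  (1 - c < x → x < 1 → c / 2 * (max (ζ + (1 - c - x) / c) 0) ^ 2 ≤ lam)

/-- WMS [150 lines], the main step (M) (section 3), pure real algebra; the proof is in the text (all cases). -/
def SpecWMS : Prop := ∀ (Γ c κ S p lam e xi x ζ : ℝ), 0 < c → c ≤ 1 / 2 → 1 < 4 * c * Γ → κ * (4 * c * Γ) = 1 →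
  0 ≤ xi → 0 ≤ x → 0 ≤ lam → 0 ≤ e → e * c ≤ min xi 1 * x → c * ζ ≤ x →
  (x ≤ 1 - c → ζ * (1 - c - x) + c / 2 * (max ζ 0) ^ 2 ≤ lam) →
  (1 - c < x → x < 1 → c / 2 * (max (ζ + (1 - c - x) / c) 0) ^ 2 ≤ lam) →
  S = Γ * ζ + lam + e + κ * xi → p = Γ * ζ + e - (1 - κ) * x → 0 < p → S ≤ Γ * (1 - κ) →
  p + p / Γ * (1 - 1 / (4 * Γ)) - c / 2 * (p / Γ) ^ 2 ≤ S

/-- WIT [60 lines], the transformation of section 4: `η = c/(2Γ)`, `α = 1/Γ - 1/(4Γ²)`. -/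
def SpecWIT : Prop := ∀ (Γ c S p : ℝ), 0 < c → c ≤ 1 / 2 → 1 < 4 * c * Γ → 0 < p → p ≤ Γ - 1 / (4 * c) →
  p + p / Γ * (1 - 1 / (4 * Γ)) - c / 2 * (p / Γ) ^ 2 ≤ S →
  (1 + (1 / Γ - 1 / (4 * Γ ^ 2))) * (1 / S - c / (2 * Γ)) ≤ 1 / p - c / (2 * Γ)

/-- WBD [150 lines] (WNM, WMS, WIT), the lower bound for the weight of the balls (section 4, first half).
`Ω = Γ - 1/(4c) = wt(W)`, `κ = 1/(4cΓ)`.  For `i ≥ 1` put `u_i = wt (bl (i-1)) + |L_i|/k` (`L_i = bl i \ bl (i-1)`) and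
`P_i = Ω - u_i + κ |L_i|/k`; `P_1 = Ω - wt {r} - (1-κ) dT A W r/k` (`L_1` = the out-neighbours of `r` in `W`; `¬ A r r`).
`S = P_i`, `p = P_{i+1}` satisfy the two equations of WMS (with `a = wt (bl i) = u_i + lam_i`,
`u_{i+1} = a + x_{i+1}`), so `P_{i+1} ≤ P_i` (`κ ≤ 1`), all `P_i ≤ Ω = Γ(1-κ)`, and WIT gives the induction.
`wt (bl j) ≥ u_j ≥ Ω - P_j`. -/
def SpecWBD : Prop := ∀ (V : Type) [Fintype V] (A : V → V → Prop) (k : ℕ) (W : Finset V) (τ Γ c κ : ℝ) (r : V)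
  (j : ℕ), 1 ≤ k → 0 < τ → (∀ v ∈ W, τ ≤ dT A W v) → (∀ v ∈ W, dT A W v ≤ k) →
  (∀ v, (Finset.univ.filter fun u => A u v).card ≤ k) → (∀ v, ¬ A v v) → (W.card : ℝ) < Γ * k →
  Mini A k W τ Γ → r ∈ W → c * k = τ → c ≤ 1 / 2 → 1 < 4 * c * Γ → κ * (4 * c * Γ) = 1 →
  wt A k τ W W = Γ - 1 / (4 * c) →
  ∃ P P₁ : ℝ, P₁ = Γ - 1 / (4 * c) - wt A k τ W {r} - (1 - κ) * (dT A W r / k) ∧
    Γ - 1 / (4 * c) - P ≤ wt A k τ W (bl A W r (j + 1)) ∧ P ≤ P₁ ∧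
    (0 < P → (1 + (1 / Γ - 1 / (4 * Γ ^ 2))) ^ j * (1 / P₁ - c / (2 * Γ)) ≤ 1 / P - c / (2 * Γ))

/-- WTB [120 lines], two balls, averaged with arbitrary positive weights `w`.
Proof: `u ∈ bl A W r i` iff there is a walk `r → u` of length `≤ i` inside `W` (`r, u ∈ W`); so
`∑_{r ∈ W} w r ∑_{u ∈ bl A W r s} w u = ∑_{u ∈ W} w u ∑_{r : u ∈ bl A W r s} w r`, and for `r ∈ W` the sets
`bl A W r t` and `{u ∈ W | r ∈ bl A W u s}` meet only in `r` (else a closed walk of length `≤ t + s ≤ m`).  Hence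
`∑_r w r (w(bl r t) + w(bl r s)) ≤ ∑_r w r (w(W) + w r)`; take the average. -/
def SpecWTB : Prop := ∀ (V : Type) [Fintype V] (A : V → V → Prop) (m t s : ℕ) (W : Finset V) (w : V → ℝ),
  NoCl A m → t + s ≤ m → W.Nonempty → (∀ v ∈ W, 0 < w v) →
  ∃ r ∈ W, ∑ v ∈ bl A W r t, w v + ∑ v ∈ bl A W r s, w v ≤ ∑ v ∈ W, w v + w r

/-- the numerical conditions of Theorem W -/
def NumW (t s : ℕ) (c G : ℝ) : Prop :=
  1 / (1 + (1 / G - 1 / (4 * G ^ 2))) ^ t + 1 / (1 + (1 / G - 1 / (4 * G ^ 2))) ^ s < 1 ∧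
  1 / ((1 + (1 / G - 1 / (4 * G ^ 2))) ^ t * (1 + c / G) - ((1 + (1 / G - 1 / (4 * G ^ 2))) ^ t - 1) * (c / 2)) +
  1 / ((1 + (1 / G - 1 / (4 * G ^ 2))) ^ s * (1 + c / G) - ((1 + (1 / G - 1 / (4 * G ^ 2))) ^ s - 1) * (c / 2)) < 1

/-- WNE [80 lines], monotonicity of the numerical conditions and the final contradiction (section 4, second half), pure
real analysis.  `η = c/(2Γ)`, `α = 1/Γ - 1/(4Γ²)`, `Or = Ω - wt{r}`.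
Proof: `P + P' ≥ Or > 0` and `P, P' ≤ P₁` give `P₁ > 0`.  If `P > 0` then `Or/P ≥ K (Or/P₁ - η Or) + η Or`, `K = (1+α)^t`,
`Or/P₁ ≥ 1 + c/Γ` (`Or - P₁ ≥ (1-κ) c`, `P₁ ≤ Ω = Γ (1-κ)`), `η Or ≤ c/2`, so
`Or/P ≥ E := K (1+c/Γ) - (K-1) c/2`, which is at least the same expression `E⁰(c)` with `G` in place of `Γ ≤ G` (`α` is
decreasing in `Γ > 1/2`: `4cΓ > 1`, `c ≤ 1/2`).  `E⁰` is linear in `c ∈ [0, c₁]`, positive, `1/E⁰_t + 1/E⁰_s` is convex in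
`c` and `< 1` at `c = 0` and at `c = c₁`.  So `(P + P')/Or ≤ 1/E⁰_t + 1/E⁰_s < 1` (a term with `P ≤ 0` is `≤ 0`). -/
def SpecWNE : Prop := ∀ (t s : ℕ) (c₁ G Γ c κ Or P P' P₁ d : ℝ), 0 < c → c ≤ c₁ → c₁ ≤ 1 / 2 → 1 < 4 * c * Γ → Γ ≤ G →
  κ * (4 * c * Γ) = 1 → NumW t s c₁ G → 0 < Or → Or ≤ Γ - 1 / (4 * c) → c ≤ d → P₁ = Or - (1 - κ) * d →
  P ≤ P₁ → P' ≤ P₁ →
  (0 < P → (1 + (1 / Γ - 1 / (4 * Γ ^ 2))) ^ t * (1 / P₁ - c / (2 * Γ)) ≤ 1 / P - c / (2 * Γ)) →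
  (0 < P' → (1 + (1 / Γ - 1 / (4 * Γ ^ 2))) ^ s * (1 / P₁ - c / (2 * Γ)) ≤ 1 / P' - c / (2 * Γ)) →
  P + P' < Or

/-- WTH [120 lines] (WCA, WBD, WTB, WNE), Theorem W.  Proof: suppose not.  Among the finitely many nonempty `W` such that
`δ(W) := min_{v ∈ W} dT A W v > 0` choose one with the least value of
`Γ(W) := |W|/k + (F(W) + k²/4)/(k τ_W)`, `τ_W = min (δ(W)) (c₁ k)`; then `Γ := Γ(W) ≤ Γ(W₀, τ₀) < G` for the given pair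
(`τ₀ ≤ τ_{W₀}`, `F ≥ 0`).  `c = τ_W/k`, `Ω = wt(W) = Γ - 1/(4c) > 0`, so `1 < 4cΓ`, and `|W| < Γ k`.
`Mini A k W τ Γ`: by WCA `T₀ ⊆ A' ⊆ B`, all `dT A A' v ≥ s`, `F(A') + s|A'| ≤ F(B) + s|B|`; `s ≤ τ_{A'}`, so
`Γ ≤ Γ(A') ≤ |A'|/k + (F(A') + k²/4)/(k s)`, multiply by `k s`.  WTB with `w v = wt {v} > 0` (`t+1`, `s+1`), WBD (`j = t`, `j = s`),
WNE with `Or = Ω - wt {r}`: positive because `W \ {r}` is nonempty (`r` has an out-neighbour in `W`, `¬ A r r`), `d = dT A W r/k`. -/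
def SpecWTH : Prop := ∀ (V : Type) [Fintype V] (A : V → V → Prop) (k m t s : ℕ) (c₁ G τ : ℝ) (W : Finset V),
  1 ≤ k → NoCl A m → (∀ v, (Finset.univ.filter fun u => A v u).card = k) →
  (∀ v, (Finset.univ.filter fun u => A u v).card ≤ k) → t + 1 + (s + 1) ≤ m → 0 < c₁ → c₁ ≤ 1 / 2 →
  NumW t s c₁ G → W.Nonempty → 0 < τ → τ ≤ c₁ * k → (∀ v ∈ W, τ ≤ dT A W v) →
  G ≤ (W.card : ℝ) / k + (flux A k W + (k : ℝ) ^ 2 / 4) / (k * τ)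

/-- WFR [100 lines] (WTH), the fragments (section 5): if `n < (m-2)k` and `c₁ ≤ ε`, `(m-3+ε)/2 + (5/4-ε)/c₁ ≤ G` then all
cuts satisfy `k - |S| ≤ ε k`.
Proof: let `O, S, U` be a cut with `k - |S| > ε k`.  By symmetry (reversed digraph, `CUT_.nocl_flip`) `|O| ≤ |U|`, so
`2|O| ≤ n - |S|`.  For `v ∈ O`: `dT A O v ≥ k - |S| > εk ≥ c₁ k =: τ`; `F(O) ≤ k|S|` (arcs leaving `O` end in `S \ O`;
in-degrees `≤ k`).  WTH: `G ≤ |O|/k + (k|S| + k²/4)/(kτ) ≤ (n/k - 1 + ε')/2 + (5/4 - ε')/c₁`, `ε' = 1 - |S|/k > ε`; the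
right side is decreasing in `ε'` (`c₁ ≤ 1/2`), so it is `< (m-3+ε)/2 + (5/4-ε)/c₁ ≤ G`, a contradiction. -/
def SpecWFR : Prop := ∀ (V : Type) [Fintype V] (A : V → V → Prop) (k m t s : ℕ) (c₁ ε G : ℝ),
  1 ≤ k → NoCl A m → (∀ v, (Finset.univ.filter fun u => A v u).card = k) →
  (∀ v, (Finset.univ.filter fun u => A u v).card = k) → t + 1 + (s + 1) ≤ m → 0 < c₁ → c₁ ≤ 1 / 2 → c₁ ≤ ε →
  NumW t s c₁ G → ((m : ℝ) - 3 + ε) / 2 + (5 / 4 - ε) / c₁ ≤ G →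
  (Fintype.card V : ℝ) < ((m : ℝ) - 2) * k → CutB A k ε

/-- WNU [200 lines], the numbers: for every `m ≥ 10` there are `i + j = m`, `t + 1 + (s + 1) = m`, a rational `γ` and `c₁`, `ε`, `G`.
Suggestion: a table for `10 ≤ m ≤ 60` (generated by a script, norm_num) and for larger `m`: `γ = 25/(18m)`,
`ε = c₁ = 50/(7m)`, `G = 27m/40 - 12/5`, `t = s = ⌊m/2⌋ - 1` or so (the proof of the inequalities uses
`log (1+α) ≥ 2α/(2+α)` and `1 - γ ≤ exp(-γ)`). -/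
def SpecWNU : Prop := ∀ m : ℕ, 10 ≤ m → ∃ (i j t s : ℕ) (γ : ℚ) (c₁ ε G : ℝ), i + j = m ∧ 2 ≤ i ∧ 2 ≤ j ∧
  t + 1 + (s + 1) ≤ m ∧ 0 < γ ∧ γ ≤ 1 ∧ (1 - (γ : ℝ)) ^ i + (1 - (γ : ℝ)) ^ j ≤ 1 ∧ 0 < c₁ ∧ c₁ ≤ 1 / 2 ∧ c₁ ≤ ε ∧
  ε * (m * γ - 1) ≤ 2 * γ ∧ NumW t s c₁ G ∧ ((m : ℝ) - 3 + ε) / 2 + (5 / 4 - ε) / c₁ ≤ G

/-- WFI [100 lines] (WFR, WNU), the theorem.  Proof for `m ≥ 10`: suppose `n < (m-2)k`; WFR gives `CutB A k ε`;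
`THD_.order specPKER` (with `M = γ.den`, `c = γ.num`; C-H bounds from `bdAll2` of CN/THC as in `THG_.closed_rat`,
`thg_closed`) and `THG_.p_eq`: `γ(p_i + p_j) = γ m - ε(γ m - 2 + (1-γ)^i + (1-γ)^j) ≥ γ m - ε (γ m - 1) ≥ γ m - 2γ`, so
`n ≥ (m-2)k + 1`, a contradiction.  For `4 ≤ m ≤ 9`: `thg_closed` with `i = ⌊m/2⌋` and a suitable `γ`, or `thg4, .., thg9`.
`m ≤ 3`: `n ≥ k` (out-neighbours). -/
def SpecWFI : Prop := ∀ (V : Type) [Fintype V] [Nonempty V] (A : V → V → Prop) (k m : ℕ),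
  1 ≤ k → NoCl A m → (∀ v, (Finset.univ.filter fun u => A v u).card = k) →
  (∀ v, (Finset.univ.filter fun u => A u v).card = k) → 2 ≤ m → ((m : ℝ) - 2) * k ≤ Fintype.card V

end Pool.Agent.Lib.MP_83608f_co.CN
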